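import Pool.Agent.MP_7be75d_co.Gen.Comb1

-- ======== part 0: formerly Pool.Agent.MP_7be75d_co.Gen.Tree
section MrgPart0

/-! Modules TREEA and TREEB of the project LTW: the order of the blocks of one half. -/

namespace Pool.Agent.MP_7be75d_co.Gen

open Finset
open scoped Classical

namespace Tree

variable {V : Type} {G : SimpleGraph V} {Big S E : Finset V} {nb c : ℕ} {d : HD V}

/-- `y` is a child of the collar `(b, s)`. -/
def Ch (d : HD V) (y b : ℕ) (s : Bool) : Prop :=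
  ∃ x, d.pt (d.par y) (!d.pe y) = Sum.inr (b, s, x)

theorem on_trans {a b y : ℕ} (h1 : d.On a b) (h2 : d.On b y) : d.On a y := by
  induction h1 with
  | refl => exact h2
  | step h _ ih => exact HD.On.step h (ih h2)

theorem Ch.on {y b : ℕ} {s : Bool} (h : Ch d y b s) : d.On y b :=
  HD.On.step h.choose_spec HD.On.refl

theorem Ch.uniq {y b b' : ℕ} {s s' : Bool} (h : Ch d y b s) (h' : Ch d y b' s') :
    b = b' ∧ s = s' := by
  obtain ⟨x, h⟩ := h
  obtain ⟨x', h'⟩ := h'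
  rw [h] at h'
  simp only [Sum.inr.injEq, Prod.mk.injEq] at h'
  exact ⟨h'.1, h'.2.1⟩

theorem on_head {b y : ℕ} (h : d.On b y) : b = y ∨ ∃ b1 s, Ch d b b1 s ∧ d.On b1 y := by
  cases h with
  | refl => exact Or.inl rfl
  | step h1 h2 => exact Or.inr ⟨_, _, ⟨_, h1⟩, h2⟩

theorem on_tail {b y : ℕ} (h : d.On b y) : b = y ∨ ∃ z s, d.On b z ∧ Ch d z y s := by
  induction h with
  | refl => exact Or.inl rfl
  | step h1 _ ih =>
    rcases ih with rfl | ⟨z, s', h3, h4⟩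
    · exact Or.inr ⟨_, _, HD.On.refl, _, h1⟩
    · exact Or.inr ⟨z, s', HD.On.step h1 h3, h4⟩

theorem on_total {b x y : ℕ} (h1 : d.On b x) (h2 : d.On b y) : d.On x y ∨ d.On y x := by
  induction h1 with
  | refl => exact Or.inl h2
  | step h h' ih =>
    rcases on_head h2 with rfl | ⟨b1, s', h3, h4⟩
    · exact Or.inr (HD.On.step h h')
    · obtain ⟨rfl, -⟩ := Ch.uniq ⟨_, h⟩ h3
      exact ih h4

theorem cr_iff {b b0 : ℕ} : d.Cr b b0 ↔ ∃ y, d.On b y ∧ Ch d y b0 (!d.near b0) := by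
  constructor
  · intro h
    induction h with
    | @base b b0 s x h1 h2 =>
      refine ⟨b, HD.On.refl, x, ?_⟩
      rw [h1]
      cases s <;> cases hn : d.near b0 <;> simp_all
    | step h1 _ ih =>
      obtain ⟨y, h2, h3⟩ := ih
      exact ⟨y, HD.On.step h1 h2, h3⟩
  · rintro ⟨y, h1, x, h2⟩
    induction h1 with
    | refl => exact HD.Cr.base h2 (by simp)
    | step h _ ih => exact HD.Cr.step h (ih h2)

theorem cr_on {b b0 : ℕ} (h : d.Cr b b0) : d.On b b0 := by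
  obtain ⟨y, h1, h2⟩ := cr_iff.1 h
  exact on_trans h1 h2.on

theorem ch_lt (h : IsHalf G Big S E nb c d) {y b : ℕ} {s : Bool} (hy : y < nb)
    (hc : Ch d y b s) : b < nb ∧ d.rk b < d.rk y := by
  obtain ⟨x, hc⟩ := hc
  exact ⟨(h.ptP _ (h.par y hy).1 _ _ _ _ hc).1, (h.par y hy).2.2.2 _ _ _ hc⟩

theorem on_lt (h : IsHalf G Big S E nb c d) {b y : ℕ} (hb : b < nb) (ho : d.On b y) :
    y < nb ∧ d.rk y ≤ d.rk b := by
  induction ho with
  | refl => exact ⟨hb, le_rfl⟩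
  | step h1 _ ih =>
    have := ch_lt h hb ⟨_, h1⟩
    exact ⟨(ih this.1).1, (ih this.1).2.trans this.2.le⟩

theorem ch_uniq (h : IsHalf G Big S E nb c d) {b y y' b0 : ℕ} {s s' : Bool} (hb : b < nb)
    (h1 : d.On b y) (h2 : d.On b y') (h3 : Ch d y b0 s) (h4 : Ch d y' b0 s') : y = y' := by
  have key : ∀ {y y' : ℕ} {s s' : Bool}, y < nb → d.On y y' → Ch d y b0 s → Ch d y' b0 s' →
      y = y' := by
    intro y y' s s' hy ho a1 a2
    rcases on_head ho with e | ⟨b1, s1, a3, a4⟩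
    · exact e
    · obtain ⟨rfl, -⟩ := a1.uniq a3
      have e1 := on_lt h (ch_lt h hy a1).1 a4
      have e2 := ch_lt h e1.1 a2
      omega
  rcases on_total h1 h2 with ho | ho
  · exact key (on_lt h hb h1).1 ho h3 h4
  · exact (key (on_lt h hb h2).1 ho h4 h3).symm

theorem par_inj (h : IsHalf G Big S E nb c d) {y y' : ℕ} (hy : y < nb) (hy' : y' < nb)
    (e : d.par y = d.par y') : y = y' := by
  obtain ⟨-, -, ⟨x, a1⟩, a2⟩ := h.par y hy
  obtain ⟨-, -, ⟨x', b1⟩, b2⟩ := h.par y' hy'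
  by_cases hp : d.pe y = d.pe y'
  · rw [e, hp, b1] at a1
    simp only [Sum.inr.injEq, Prod.mk.injEq] at a1
    exact a1.1.symm
  · have e1 : (!d.pe y) = d.pe y' := by revert hp; cases d.pe y <;> cases d.pe y' <;> simp
    have e2 : (!d.pe y') = d.pe y := by rw [← e1]; simp
    have := a2 _ _ _ (by rw [e, e1]; exact b1)
    have := b2 _ _ _ (by rw [← e, e2]; exact a1)
    omega

theorem ford (h : IsHalf G Big S E nb c d) : FOrd nb d.Cr := by
  refine ⟨fun b hb a ha => (on_lt h hb (cr_on ha)).1, fun b hb hc => ?_,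
    fun b _ a x h1 h2 => ?_, fun b hb x y h1 h2 => ?_⟩
  · obtain ⟨y, h1, h2⟩ := cr_iff.1 hc
    have e1 := on_lt h hb h1
    have e2 := ch_lt h e1.1 h2
    omega
  · obtain ⟨y, h3, h4⟩ := cr_iff.1 h2
    exact cr_iff.2 ⟨y, on_trans (cr_on h1) h3, h4⟩
  · obtain ⟨y1, a1, a2⟩ := cr_iff.1 h1
    obtain ⟨y2, a3, a4⟩ := cr_iff.1 h2
    rcases on_total a1 a3 with ho | ho
    · rcases on_head ho with rfl | ⟨b1, s, a5, a6⟩
      · exact Or.inl (a2.uniq a4).1
      · obtain ⟨rfl, -⟩ := a2.uniq a5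
        exact Or.inr (Or.inl (cr_iff.2 ⟨y2, a6, a4⟩))
    · rcases on_head ho with rfl | ⟨b1, s, a5, a6⟩
      · exact Or.inl (a2.uniq a4).1
      · obtain ⟨rfl, -⟩ := a4.uniq a5
        exact Or.inr (Or.inr (cr_iff.2 ⟨y1, a6, a2⟩))

theorem cast_card_odd (n : ℕ → ℕ) (I : Finset ℕ) (P : ℕ → Prop) {_ : DecidablePred P} :
    (((I.filter fun y => Odd (n y)).filter P).card : ZMod 2) =
      ∑ y ∈ I, if P y then (n y : ZMod 2) else 0 := by
  rw [filter_filter, card_filter, Nat.cast_sum]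
  refine sum_congr rfl fun y _ => ?_
  by_cases hP : P y
  · rcases Nat.even_or_odd (n y) with he | ho
    · simp [hP, Nat.not_odd_iff_even.2 he, (ZMod.natCast_eq_zero_iff_even).2 he]
    · simp [hP, ho, (ZMod.natCast_eq_one_iff_odd).2 ho]
  · simp [hP]

theorem ends_image (h : IsHalf G Big S E nb c d) {Y : Finset ℕ} (hY : Y ⊆ range nb) (b0 : ℕ)
    (s : Bool) : d.ends (Y.image d.par) b0 s =
      (Y.filter fun y => y = b0 ∧ s = d.near b0).card + (Y.filter fun y => Ch d y b0 s).card := by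
  have hlt : ∀ y ∈ Y, y < nb := fun y hy => mem_range.1 (hY hy)
  have i1 : Set.InjOn (fun y => (d.par y, d.pe y)) (Y.filter fun y => y = b0 ∧ s = d.near b0) :=
    fun y hy y' hy' e => par_inj h (hlt y (mem_filter.1 hy).1) (hlt y' (mem_filter.1 hy').1)
      (congrArg Prod.fst e)
  have i2 : Set.InjOn (fun y => (d.par y, !d.pe y)) (Y.filter fun y => Ch d y b0 s) :=
    fun y hy y' hy' e => par_inj h (hlt y (mem_filter.1 hy).1) (hlt y' (mem_filter.1 hy').1)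
      (congrArg Prod.fst e)
  rw [← card_image_of_injOn i1, ← card_image_of_injOn i2, ← card_union_of_disjoint, HD.ends]
  · congr 1
    ext ⟨σ, j⟩
    simp only [mem_filter, mem_product, mem_image, mem_univ, and_true, mem_union, Prod.mk.injEq]
    constructor
    · rintro ⟨⟨y, hy, rfl⟩, x, hx⟩
      by_cases hj : j = d.pe y
      · obtain ⟨x', hx'⟩ := (h.par y (hlt y hy)).2.2.1
        rw [hj, hx'] at hx
        simp only [Sum.inr.injEq, Prod.mk.injEq] at hx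
        exact Or.inl ⟨y, ⟨hy, hx.1, by rw [← hx.1, hx.2.1]⟩, rfl, hj.symm⟩
      · have : j = !d.pe y := by revert hj; cases j <;> cases d.pe y <;> simp
        exact Or.inr ⟨y, ⟨hy, x, this ▸ hx⟩, rfl, this.symm⟩
    · rintro (⟨y, ⟨hy, rfl, hs⟩, rfl, rfl⟩ | ⟨y, ⟨hy, hc⟩, rfl, rfl⟩)
      · exact ⟨⟨y, hy, rfl⟩, hs ▸ (h.par y (hlt y hy)).2.2.1⟩
      · exact ⟨⟨y, hy, rfl⟩, hc⟩
  · rw [disjoint_left]
    simp only [mem_image, mem_filter]
    rintro p ⟨y, ⟨hy, -⟩, rfl⟩ ⟨y', ⟨hy', -⟩, e⟩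
    simp only [Prod.mk.injEq] at e
    obtain rfl := par_inj h (hlt _ hy') (hlt _ hy) e.1
    simpa using e.2

theorem sum_ch (h : IsHalf G Big S E nb c d) {b : ℕ} (hb : b < nb) (b0 : ℕ) (s : Bool) :
    (∑ y ∈ range nb, if Ch d y b0 s then (if d.On b y then (1 : ZMod 2) else 0) else 0) =
      if ∃ y, d.On b y ∧ Ch d y b0 s then 1 else 0 := by
  split_ifs with hc
  · obtain ⟨y, h1, h2⟩ := hc
    rw [sum_eq_single y]
    · simp [h1, h2]
    · intro y' _ hn
      by_cases a1 : Ch d y' b0 s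
      · by_cases a2 : d.On b y'
        · exact absurd (ch_uniq h hb a2 h1 a1 h2) hn
        · simp [a2]
      · simp [a1]
    · intro hn
      exact absurd (mem_range.2 (on_lt h hb h1).1) hn
  · refine sum_eq_zero fun y _ => ?_
    by_cases a1 : Ch d y b0 s
    · by_cases a2 : d.On b y
      · exact absurd ⟨y, a2, a1⟩ hc
      · simp [a2]
    · simp [a1]

theorem point (h : IsHalf G Big S E nb c d) {b : ℕ} (hb : b < nb) (b0 : ℕ) (s : Bool) :
    ((if s = d.near b0 ∧ d.On b b0 then 1 else 0) +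
      if ∃ y, d.On b y ∧ Ch d y b0 s then 1 else 0 : ZMod 2) =
      (if d.Cr b b0 then 1 else 0) + if b = b0 ∧ s = d.near b0 then 1 else 0 := by
  by_cases hs : s = d.near b0
  · subst hs
    have x1 : ∀ {s}, (∃ y, d.On b y ∧ Ch d y b0 s) → b ≠ b0 := by
      rintro s ⟨y, h1, h2⟩ rfl
      have e1 := on_lt h hb h1
      have e2 := ch_lt h e1.1 h2
      omega
    have x2 : ∀ {s}, (∃ y, d.On b y ∧ Ch d y b0 s) → d.On b b0 := by
      rintro s ⟨y, h1, h2⟩
      exact on_trans h1 h2.on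
    by_cases p1 : ∃ y, d.On b y ∧ Ch d y b0 (d.near b0)
    · have p2 : ¬ d.Cr b b0 := by
        intro hc
        obtain ⟨y, h1, h2⟩ := p1
        obtain ⟨y', h3, h4⟩ := cr_iff.1 hc
        obtain rfl := ch_uniq h hb h1 h3 h2 h4
        simpa using (h2.uniq h4).2
      rw [if_pos ⟨rfl, x2 p1⟩, if_pos p1, if_neg p2, if_neg fun e => x1 p1 e.1]
      decide
    · rw [if_neg p1]
      by_cases p2 : d.Cr b b0
      · rw [if_pos ⟨rfl, cr_on p2⟩, if_pos p2, if_neg fun e => x1 (cr_iff.1 p2) e.1]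
      · rw [if_neg p2]
        by_cases p3 : b = b0
        · subst p3
          rw [if_pos ⟨rfl, HD.On.refl⟩, if_pos ⟨rfl, rfl⟩]
          simp
        · rw [if_neg, if_neg fun e => p3 e.1]
          rintro ⟨-, ho⟩
          rcases on_tail ho with e | ⟨z, s, h1, h2⟩
          · exact p3 e
          · by_cases e : s = d.near b0
            · exact p1 ⟨z, h1, e ▸ h2⟩
            · have : s = !d.near b0 := by revert e; cases s <;> cases d.near b0 <;> simp
              exact p2 (cr_iff.2 ⟨z, h1, this ▸ h2⟩)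
  · have e : s = !d.near b0 := by revert hs; cases s <;> cases d.near b0 <;> simp
    rw [if_neg fun e => hs e.1, if_neg (c := b = b0 ∧ _) fun e => hs e.2, cr_iff, ← e]
    simp

theorem parity (h : IsHalf G Big S E nb c d) {T : Finset ℕ} (hT : T ⊆ range nb) {b0 : ℕ}
    (hb0 : b0 < nb) (s : Bool) :
    d.ends (d.tog nb T) b0 s ≡ (T.filter fun b => d.Cr b b0).card +
      (if b0 ∈ T ∧ s = d.near b0 then 1 else 0) [MOD 2] := by
  rw [← ZMod.natCast_eq_natCast_iff, HD.tog, ends_image h (filter_subset _ _), Nat.cast_add,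
    cast_card_odd, cast_card_odd]
  have e1 : (∑ y ∈ range nb, if y = b0 ∧ s = d.near b0 then
      (((T.filter fun b => d.On b y).card : ℕ) : ZMod 2) else 0) =
      ∑ b ∈ T, if s = d.near b0 ∧ d.On b b0 then 1 else 0 := by
    rw [sum_eq_single b0]
    · by_cases hs : s = d.near b0
      · simp [hs]
      · simp [hs]
    · intro y _ hn
      simp [hn]
    · intro hn
      exact absurd (mem_range.2 hb0) hn
  have e2 : (∑ y ∈ range nb, if Ch d y b0 s then
      (((T.filter fun b => d.On b y).card : ℕ) : ZMod 2) else 0) =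
      ∑ b ∈ T, if ∃ y, d.On b y ∧ Ch d y b0 s then 1 else 0 := by
    rw [← sum_congr rfl fun b hb => sum_ch h (mem_range.1 (hT hb)) b0 s, sum_comm]
    refine sum_congr rfl fun y _ => ?_
    split_ifs with hc
    · simp
    · simp
  have e3 : ((if b0 ∈ T ∧ s = d.near b0 then 1 else 0 : ℕ) : ZMod 2) =
      ∑ b ∈ T, if b = b0 ∧ s = d.near b0 then 1 else 0 := by
    by_cases hs : s = d.near b0
    · by_cases hb : b0 ∈ T <;> simp [hs, hb]
    · simp [hs]
  rw [e1, e2, Nat.cast_add, e3, ← sum_add_distrib, card_filter, Nat.cast_sum, ← sum_add_distrib]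
  refine sum_congr rfl fun b hb => ?_
  rw [point h (mem_range.1 (hT hb))]
  simp

/-! ### Unions of atoms -/

/-- The union of the valid atoms with property `P`. -/
noncomputable def US (d : HD V) (Big : Finset V) (nb c : ℕ) (P : Atom → Prop) : Finset V :=
  Big.filter fun v => ∃ a, d.ok nb c a ∧ P a ∧ v ∈ d.at a

theorem at_sub (h : IsHalf G Big S E nb c d) {P : Atom → Prop} {a : Atom} (h1 : d.ok nb c a)
    (h2 : P a) : d.at a ⊆ US d Big nb c P := fun _ hv =>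
  mem_filter.2 ⟨h.sub a h1 hv, a, h1, h2, hv⟩

theorem US_mono {P Q : Atom → Prop} (hPQ : ∀ a, d.ok nb c a → P a → Q a) :
    US d Big nb c P ⊆ US d Big nb c Q := fun v hv => by
  obtain ⟨h1, a, h2, h3, h4⟩ := mem_filter.1 hv
  exact mem_filter.2 ⟨h1, a, h2, hPQ a h2 h3, h4⟩

theorem US_disj (h : IsHalf G Big S E nb c d) {P Q : Atom → Prop}
    (hPQ : ∀ a, d.ok nb c a → P a → Q a → False) :
    Disjoint (US d Big nb c P) (US d Big nb c Q) := by
  rw [disjoint_left]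
  intro v h1 h2
  obtain ⟨-, a, a1, a2, a3⟩ := mem_filter.1 h1
  obtain ⟨-, a', b1, b2, b3⟩ := mem_filter.1 h2
  by_cases e : a = a'
  · exact hPQ a a1 a2 (e ▸ b2)
  · exact disjoint_left.1 (h.disj a a' a1 b1 e) a3 b3

theorem US_hair (h : IsHalf G Big S E nb c d) {P : Atom → Prop} :
    Disjoint d.hair (US d Big nb c P) := by
  rw [disjoint_right]
  intro v h1
  obtain ⟨-, a, a1, -, a3⟩ := mem_filter.1 h1
  exact disjoint_left.1 (h.dh a a1) a3

/-- All points of `A` are joined to all points of `B` inside `W`. -/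
def J (G : SimpleGraph V) (W A B : Finset V) : Prop :=
  B.Nonempty ∧ ∀ u ∈ A, ∀ v ∈ B, R G W u v

theorem J.refl {W A : Finset V} (h : Conn G A) (hW : A ⊆ W) : J G W A A :=
  ⟨h.1, fun _ hu _ hv => h.r hu hv hW⟩

theorem J.trans {W A B C : Finset V} (h1 : J G W A B) (h2 : J G W B C) : J G W A C :=
  ⟨h2.1, fun u hu v hv => (h1.2 u hu _ h1.1.choose_spec).trans (h2.2 _ h1.1.choose_spec v hv)⟩

theorem J.symm {W A B : Finset V} (h1 : J G W A B) (hA : A.Nonempty) : J G W B A :=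
  ⟨hA, fun u hu v hv => (h1.2 v hv u hu).symm⟩

theorem J.touch {W A B C : Finset V} (h1 : J G W A B) (hB : B ⊆ W) (hC : Conn G C) (hW : C ⊆ W)
    (ht : Touch G B C) : J G W A C := by
  obtain ⟨x, hx, y, hy, hxy⟩ := ht
  exact ⟨hC.1, fun u hu v hv =>
    ((h1.2 u hu x hx).tail hxy (hB hx) (hW hy)).trans (hC.r hy hv hW)⟩

theorem collarJ (h : IsHalf G Big S E nb c d) {W : Finset V} {b : ℕ} {s : Bool} (hb : b < nb)
    (hW : ∀ i < 8, ∀ y < 4 + d.M b s, d.nd b s i y ⊆ W) :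
    ∀ i < 8, ∀ y < 4 + d.M b s, J G W (d.nd b s 0 0) (d.nd b s i y) := by
  have cn : ∀ i < 8, ∀ y < 4 + d.M b s, Conn G (d.nd b s i y) := fun i hi y hy =>
    h.conn (Sum.inl (b, s, i, y)) ⟨hb, hi, hy⟩
  have r0 : ∀ y < 4 + d.M b s, J G W (d.nd b s 0 0) (d.nd b s 0 y) := by
    intro y
    induction y with
    | zero => exact fun hy => J.refl (cn 0 (by omega) 0 hy) (hW 0 (by omega) 0 hy)
    | succ y ih =>
      exact fun hy => (ih (by omega)).touch (hW 0 (by omega) y (by omega)) (cn 0 (by omega) _ hy)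
        (hW 0 (by omega) _ hy) (h.ndh b hb s 0 (by omega) y hy)
  intro i
  induction i with
  | zero => exact fun _ => r0
  | succ i ih =>
    exact fun hi y hy => (ih (by omega) y hy).touch (hW i (by omega) y hy) (cn _ hi y hy)
      (hW _ hi y hy) (h.ndv b hb s i hi y hy)

theorem collarJ' (h : IsHalf G Big S E nb c d) {W : Finset V} {b : ℕ} {s : Bool} (hb : b < nb)
    (hW : ∀ i < 8, ∀ y < 4 + d.M b s, d.nd b s i y ⊆ W) {i y i' y' : ℕ} (hi : i < 8)
    (hy : y < 4 + d.M b s) (hi' : i' < 8) (hy' : y' < 4 + d.M b s) :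
    J G W (d.nd b s i y) (d.nd b s i' y') :=
  ((collarJ h hb hW i hi y hy).symm (collarJ h hb hW 0 (by omega) 0 (by omega)).1).trans
    (collarJ h hb hW i' hi' y' hy')

theorem rowJ (h : IsHalf G Big S E nb c d) {W : Finset V} {b r : ℕ} (hb : b < nb) (hr : r < c)
    (hW : ∀ y < 5, d.core b r y ⊆ W) : ∀ y < 5, J G W (d.core b r 0) (d.core b r y) := by
  have cn : ∀ y < 5, Conn G (d.core b r y) := fun y hy =>
    h.conn (Sum.inr (Sum.inl (b, r, y))) ⟨hb, hr, hy⟩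
  intro y
  induction y with
  | zero => exact fun hy => J.refl (cn 0 hy) (hW 0 hy)
  | succ y ih =>
    exact fun hy => (ih (by omega)).touch (hW y (by omega)) (cn _ hy) (hW _ hy)
      (h.coh b hb r hr y (by omega))

/-- The atom belongs to the block `b`. -/
def PB (b : ℕ) : Atom → Prop
  | Sum.inl p => p.1 = b
  | Sum.inr (Sum.inl p) => p.1 = b
  | Sum.inr (Sum.inr _) => False

theorem PB.uniq {b b' : ℕ} {a : Atom} (h : PB b a) (h' : PB b' a) : b = b' := by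
  rcases a with p | p | p
  · exact h.symm.trans h'
  · exact h.symm.trans h'
  · exact h.elim

theorem blockJ (h : IsHalf G Big S E nb c d) (hc : 0 < c) {W : Finset V} {b : ℕ} (hb : b < nb)
    (hW : ∀ a, d.ok nb c a → PB b a → d.at a ⊆ W) :
    ∀ a, d.ok nb c a → PB b a → J G W (d.core b 0 0) (d.at a) := by
  have cW : ∀ r < c, ∀ y < 5, d.core b r y ⊆ W := fun r hr y hy =>
    hW (Sum.inr (Sum.inl (b, r, y))) ⟨hb, hr, hy⟩ rfl
  have nW : ∀ s, ∀ i < 8, ∀ y < 4 + d.M b s, d.nd b s i y ⊆ W := fun s i hi y hy =>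
    hW (Sum.inl (b, s, i, y)) ⟨hb, hi, hy⟩ rfl
  have c0 : ∀ r < c, J G W (d.core b 0 0) (d.core b r 0) := by
    intro r
    induction r with
    | zero => exact fun hr => rowJ h hb hr (cW 0 hr) 0 (by omega)
    | succ r ih =>
      exact fun hr => (ih (by omega)).touch (cW r (by omega) 0 (by omega))
        (h.conn (Sum.inr (Sum.inl (b, r + 1, 0))) ⟨hb, hr, by omega⟩) (cW _ hr 0 (by omega))
        (h.cov b hb r hr 0 (by omega))
  rintro (⟨b', s, i, y⟩ | ⟨b', r, y⟩ | σ) h1 h2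
  · obtain rfl : b' = b := h2
    have hr : (if s then c - 1 else 0) < c := by split_ifs <;> omega
    exact ((c0 _ hr).touch (cW _ hr 0 (by omega))
      (h.conn (Sum.inl (b', s, 7, 0)) ⟨hb, by omega, by omega⟩) (nW s 7 (by omega) 0 (by omega))
      (h.nc b' hb s 0 (by omega)).symm).trans
      (collarJ' h hb (nW s) (by omega) (by omega) h1.2.1 h1.2.2)
  · obtain rfl : b' = b := h2
    exact (c0 r h1.2.1).trans (rowJ h hb h1.2.1 (cW r h1.2.1) y h1.2.2)
  · exact h2.elim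

theorem conn_US {P : Atom → Prop} {A : Finset V} (hA : A.Nonempty)
    (hs : A ⊆ US d Big nb c P) (hJ : ∀ a, d.ok nb c a → P a → J G (US d Big nb c P) A (d.at a)) :
    Conn G (US d Big nb c P) := by
  obtain ⟨u, hu⟩ := hA
  refine Conn.of_center (hs hu) fun v hv => ?_
  obtain ⟨-, a, a1, a2, a3⟩ := mem_filter.1 hv
  exact (hJ a a1 a2).2 u hu v a3

theorem conn_block (h : IsHalf G Big S E nb c d) (hc : 0 < c) {b : ℕ} (hb : b < nb) :
    Conn G (US d Big nb c (PB b)) :=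
  have ok : d.ok nb c (Sum.inr (Sum.inl (b, 0, 0))) := ⟨hb, hc, by omega⟩
  conn_US (h.conn _ ok).1 (at_sub h ok rfl) (blockJ h hc hb fun _ h1 h2 => at_sub h h1 h2)

/-- The atoms used by the root path below the rank `n`. -/
def Inv (d : HD V) (nb n : ℕ) (a : Atom) : Prop :=
  ∃ y < nb, (d.rk y ≤ n ∧ a = Sum.inr (Sum.inr (d.par y))) ∨ (d.rk y < n ∧ PB y a)

theorem own_touch (h : IsHalf G Big S E nb c d) {b : ℕ} (hb : b < nb) : ∃ x < d.M b (d.near b),
    Touch G (d.seg (d.par b)) (d.nd b (d.near b) 0 (4 + x)) := by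
  obtain ⟨a1, -, ⟨x, a2⟩, -⟩ := h.par b hb
  exact ⟨x, (h.ptP _ a1 _ _ _ _ a2).2⟩

theorem chain (h : IsHalf G Big S E nb c d) (hc : 0 < c) : ∀ n, ∀ b < nb, d.rk b = n →
    ∃ l, SeqOK G Big (d.seg (d.par b) :: l) ∧
      (∀ Z ∈ d.seg (d.par b) :: l, Z ⊆ US d Big nb c (Inv d nb (d.rk b))) ∧
      ((range nb).filter (d.Cr b)).card ≤ cnt (Mk S E) (d.seg (d.par b) :: l) := by
  intro n
  induction n using Nat.strong_induction_on with
  | _ n ih =>
  intro b hb hn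
  have ok : d.ok nb c (Sum.inr (Sum.inr (d.par b))) := (h.par b hb).1
  have hs : d.seg (d.par b) ⊆ US d Big nb c (Inv d nb (d.rk b)) :=
    at_sub h ok ⟨b, hb, Or.inl ⟨le_rfl, rfl⟩⟩
  rcases hu : d.pt (d.par b) (!d.pe b) with t | ⟨b1, s, x⟩
  · have q1 : d.seg (d.par b) ⊆ Big := h.sub _ ok
    have q2 : Conn G (d.seg (d.par b)) := h.conn _ ok
    refine ⟨[], ⟨by simpa using q1, by simpa using q2, by simp, by simp⟩,
      by simpa using hs, ?_⟩
    rw [filter_eq_empty_iff.2]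
    · simp
    · intro a _ ha
      cases ha with
      | base h1 _ => rw [hu] at h1; cases h1
      | step h1 _ => rw [hu] at h1; cases h1
  · obtain ⟨b1lt, hrk⟩ := ch_lt h hb ⟨x, hu⟩
    obtain ⟨l, s1, s2, s3⟩ := ih _ (hn ▸ hrk) b1 b1lt rfl
    obtain ⟨-, xlt, ht⟩ := h.ptP _ (h.par b hb).1 _ _ _ _ hu
    obtain ⟨x', xlt', ht'⟩ := own_touch h b1lt
    have hseg : d.seg (d.par b) ⊆ US d Big nb c (· = Sum.inr (Sum.inr (d.par b))) :=
      at_sub h ok rfl
    refine ⟨US d Big nb c (PB b1) :: d.seg (d.par b1) :: l, ⟨?_, ?_, ?_, ?_⟩, ?_, ?_⟩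
    · simp only [List.mem_cons, forall_eq_or_imp] at s1 ⊢
      exact ⟨h.sub _ ok, filter_subset _ _, by simpa using s1.sub⟩
    · simp only [List.mem_cons, forall_eq_or_imp] at s1 ⊢
      exact ⟨h.conn _ ok, conn_block h hc b1lt, by simpa using s1.conn⟩
    · refine List.pairwise_cons.2 ⟨fun Z hZ => ?_, List.pairwise_cons.2 ⟨fun Z hZ => ?_, s1.disj⟩⟩
      · rcases List.mem_cons.1 hZ with rfl | hZ
        · exact (US_disj h (by rintro a - rfl h2; exact h2)).mono_left hseg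
        · refine (US_disj h ?_).mono hseg (s2 Z hZ)
          rintro a - rfl ⟨y, hy, ⟨h1, h2⟩ | ⟨-, h2⟩⟩
          · simp only [Sum.inr.injEq] at h2
            obtain rfl := par_inj h hb hy h2
            omega
          · exact h2
      · refine (US_disj h ?_).mono_right (s2 Z hZ)
        rintro a - h0 ⟨y, hy, ⟨-, rfl⟩ | ⟨h1, h2⟩⟩
        · exact h0
        · obtain rfl := h0.uniq h2
          omega
    · refine List.isChain_cons_cons.2 ⟨ht.mono subset_rfl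
        (at_sub h (a := Sum.inl (b1, s, 0, 4 + x)) ⟨b1lt, by omega, by omega⟩ rfl),
        List.isChain_cons_cons.2 ⟨ht'.symm.mono
        (at_sub h (a := Sum.inl (b1, d.near b1, 0, 4 + x')) ⟨b1lt, by omega, by omega⟩ rfl)
        subset_rfl, s1.chain⟩⟩
    · intro Z hZ
      rcases List.mem_cons.1 hZ with rfl | hZ
      · exact hs
      rcases List.mem_cons.1 hZ with rfl | hZ
      · exact US_mono fun a _ ha => ⟨b1, b1lt, Or.inr ⟨hrk, ha⟩⟩
      · refine (s2 Z hZ).trans (US_mono ?_)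
        rintro a - ⟨y, hy, ⟨h1, h2⟩ | ⟨h1, h2⟩⟩
        · exact ⟨y, hy, Or.inl ⟨by omega, h2⟩⟩
        · exact ⟨y, hy, Or.inr ⟨by omega, h2⟩⟩
    · have hm : Mk S E (US d Big nb c (PB b1)) := by
        obtain ⟨u, u1, u2⟩ := h.st b1 b1lt 0 hc
        obtain ⟨v, v1, v2⟩ := h.en b1 b1lt 0 hc
        exact ⟨⟨u, u1, at_sub h (P := PB b1) (a := Sum.inr (Sum.inl (b1, 0, 0)))
          ⟨b1lt, hc, by omega⟩ rfl u2⟩, v, v1, at_sub h (P := PB b1)
          (a := Sum.inr (Sum.inl (b1, 0, 4))) ⟨b1lt, hc, by omega⟩ rfl v2⟩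
      have hsub : (range nb).filter (d.Cr b) ⊆ insert b1 ((range nb).filter (d.Cr b1)) := by
        intro a ha
        obtain ⟨a1, a2⟩ := mem_filter.1 ha
        cases a2 with
        | base h1 _ => exact mem_insert.2 (Or.inl (Ch.uniq ⟨_, h1⟩ ⟨_, hu⟩).1)
        | step h1 h2 =>
          obtain ⟨rfl, -⟩ := Ch.uniq ⟨_, h1⟩ ⟨_, hu⟩
          exact mem_insert_of_mem (mem_filter.2 ⟨a1, h2⟩)
      have e1 := (card_le_card hsub).trans (card_insert_le _ _)
      simp only [cnt, List.countP_cons, hm, decide_true, if_true] at s3 ⊢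
      omega

theorem K_pos (h : IsHalf G Big S E nb c d) : ∀ n, ∀ b < nb, d.rk b = n → 0 < d.K := by
  intro n
  induction n using Nat.strong_induction_on with
  | _ n ih =>
  intro b hb hn
  rcases hu : d.pt (d.par b) (!d.pe b) with t | ⟨b1, s, x⟩
  · exact (card_pos.2 ⟨t, (h.ptT _ (h.par b hb).1 _ _ hu).1⟩).trans_le h.tcard
  · obtain ⟨b1lt, hrk⟩ := ch_lt h hb ⟨x, hu⟩
    exact ih _ (hn ▸ hrk) b1 b1lt rfl

/-- The atoms used by the root paths of the members of `A`. -/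
def PY (d : HD V) (A : Finset ℕ) (a : Atom) : Prop :=
  ∃ a0 ∈ A, ∃ y, d.On a0 y ∧ (a = Sum.inr (Sum.inr (d.par y)) ∨
    (∃ i z, a = Sum.inl (y, d.near y, i, z)) ∨ (d.Cr a0 y ∧ PB y a))

theorem anti (h : IsHalf G Big S E nb c d) (hc : 0 < c) {m : ℕ} (hm : 0 < m) {A : Finset ℕ}
    (hA : A ⊆ range nb) (ha : ∀ x ∈ A, ∀ y ∈ A, ¬ d.Cr x y) (hcard : m ≤ A.card) :
    WinS G Big S E m := by
  obtain ⟨f, f1, f2⟩ := exists_enum hcard
  have hlt : ∀ x ∈ A, x < nb := fun x hx => mem_range.1 (hA hx)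
  have hK : 0 < d.K := K_pos h _ (f 0) (hlt _ (f1 0 hm)) rfl
  have hβ : Conn G (d.β ∅) := h.hv.conn ∅ (by simpa using hK)
  have hβs : d.β ∅ ⊆ d.hair := h.hv.subU (by simpa using hK)
  set W := d.β ∅ ∪ US d Big nb c (PY d A) with hW
  have aW : ∀ a, d.ok nb c a → PY d A a → d.at a ⊆ W := fun a h1 h2 =>
    (at_sub h h1 h2).trans subset_union_right
  have nW : ∀ a0 ∈ A, ∀ y, d.On a0 y → ∀ i < 8, ∀ z < 4 + d.M y (d.near y),
      d.nd y (d.near y) i z ⊆ W := fun a0 h0 y ho i hi z hz =>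
    aW (Sum.inl (y, d.near y, i, z)) ⟨(on_lt h (hlt _ h0) ho).1, hi, hz⟩
      ⟨a0, h0, y, ho, Or.inr (Or.inl ⟨i, z, rfl⟩)⟩
  have sW : ∀ a0 ∈ A, ∀ y, d.On a0 y → d.seg (d.par y) ⊆ W := fun a0 h0 y ho =>
    aW (Sum.inr (Sum.inr (d.par y))) (h.par y (on_lt h (hlt _ h0) ho).1).1
      ⟨a0, h0, y, ho, Or.inl rfl⟩
  have near : ∀ a0 ∈ A, ∀ y, d.On a0 y → J G W (d.β ∅) (d.seg (d.par y)) → ∀ i < 8,
      ∀ z < 4 + d.M y (d.near y), J G W (d.β ∅) (d.nd y (d.near y) i z) := by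
    intro a0 h0 y ho hJ i hi z hz
    have hy := (on_lt h (hlt _ h0) ho).1
    obtain ⟨x, xlt, ht⟩ := own_touch h hy
    exact (hJ.touch (sW a0 h0 y ho) (h.conn (Sum.inl (y, d.near y, 0, 4 + x))
      ⟨hy, by omega, by omega⟩) (nW a0 h0 y ho 0 (by omega) _ (by omega)) ht).trans
      (collarJ' h hy (nW a0 h0 y ho) (by omega) (by omega) hi hz)
  have far : ∀ a0 ∈ A, ∀ y, d.Cr a0 y → J G W (d.β ∅) (d.seg (d.par y)) → ∀ a, d.ok nb c a →
      PB y a → J G W (d.β ∅) (d.at a) := by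
    intro a0 h0 y hcr hJ a h1 h2
    have ho := cr_on hcr
    have hy := (on_lt h (hlt _ h0) ho).1
    have hb := blockJ h hc hy fun a a1 a2 => aW a a1 ⟨a0, h0, y, ho, Or.inr (Or.inr ⟨hcr, a2⟩)⟩
    refine (near a0 h0 y ho hJ 0 (by omega) 0 (by omega)).trans (J.trans ?_ (hb a h1 h2))
    exact (hb (Sum.inl (y, d.near y, 0, 0)) ⟨hy, by omega, by omega⟩ rfl).symm
      (h.conn (Sum.inr (Sum.inl (y, 0, 0))) ⟨hy, hc, by omega⟩).1
  have key : ∀ a0 ∈ A, ∀ n y, d.On a0 y → d.rk y = n → J G W (d.β ∅) (d.seg (d.par y)) := by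
    intro a0 h0 n
    induction n using Nat.strong_induction_on with
    | _ n ih =>
    intro y ho hn
    have hy := (on_lt h (hlt _ h0) ho).1
    have cs : Conn G (d.seg (d.par y)) := h.conn (Sum.inr (Sum.inr (d.par y))) (h.par y hy).1
    rcases hu : d.pt (d.par y) (!d.pe y) with t | ⟨b1, s, x⟩
    · obtain ⟨t1, t2⟩ := h.ptT _ (h.par y hy).1 _ _ hu
      exact (J.refl hβ subset_union_left).touch subset_union_left cs (sW a0 h0 y ho)
        (touch_of_mem (G := G) (by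
          obtain ⟨u, hu, v, hv, huv⟩ := t2
          exact ⟨v, hv, u, hu, huv.symm⟩) (h.free.sub_empty hK t1))
    · obtain ⟨b1lt, hrk⟩ := ch_lt h hy ⟨x, hu⟩
      obtain ⟨-, xlt, ht⟩ := h.ptP _ (h.par y hy).1 _ _ _ _ hu
      have ho1 : d.On a0 b1 := on_trans ho (Ch.on ⟨x, hu⟩)
      have hJ := ih _ (hn ▸ hrk) b1 ho1 rfl
      by_cases hs : s = d.near b1
      · subst hs
        exact (near a0 h0 b1 ho1 hJ 0 (by omega) (4 + x) (by omega)).touch
          (nW a0 h0 b1 ho1 0 (by omega) _ (by omega)) cs (sW a0 h0 y ho) ht.symm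
      · have e : s = !d.near b1 := by revert hs; cases s <;> cases d.near b1 <;> simp
        have hcr : d.Cr a0 b1 := cr_iff.2 ⟨y, ho, x, e ▸ hu⟩
        have ok : d.ok nb c (Sum.inl (b1, s, 0, 4 + x)) := ⟨b1lt, by omega, by omega⟩
        exact (far a0 h0 b1 hcr hJ _ ok rfl).touch
          (aW _ ok ⟨a0, h0, b1, ho1, Or.inr (Or.inr ⟨hcr, rfl⟩)⟩) cs (sW a0 h0 y ho) ht.symm
  have hr : ∀ b, (if d.near b then c - 1 else 0) < c := fun b => by split_ifs <;> omega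
  let PR : ℕ → Atom → Prop := fun b a =>
    ∃ z, a = Sum.inr (Sum.inl (b, if d.near b then c - 1 else 0, z))
  have rW : ∀ j < m, ∀ z < 5, d.core (f j) (if d.near (f j) then c - 1 else 0) z ⊆
      US d Big nb c (PR (f j)) := fun j hj z hz =>
    at_sub h (a := Sum.inr (Sum.inl (f j, _, z))) ⟨hlt _ (f1 j hj), hr _, hz⟩ ⟨z, rfl⟩
  refine ⟨fun j => US d Big nb c (PR (f j)), W, ⟨fun j _ => filter_subset _ _, fun j hj => ?_,
    fun i hi j hj hn => US_disj h ?_, fun j hj => ?_⟩,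
    union_subset (hβs.trans h.hsub) (filter_subset _ _), ?_, fun j hj => ⟨?_, ?_⟩⟩
  · have hJ := rowJ h (hlt _ (f1 j hj)) (hr _) (rW j hj)
    refine conn_US (hJ 0 (by omega)).1 (rW j hj 0 (by omega)) ?_
    rintro a h1 ⟨z, rfl⟩
    exact hJ z h1.2.2
  · rintro a - ⟨z, rfl⟩ ⟨z', e⟩
    simp only [Sum.inr.injEq, Sum.inl.injEq, Prod.mk.injEq] at e
    exact hn (f2 i hi j hj e.1)
  · obtain ⟨u, u1, u2⟩ := h.st _ (hlt _ (f1 j hj)) _ (hr (f j))
    obtain ⟨v, v1, v2⟩ := h.en _ (hlt _ (f1 j hj)) _ (hr (f j))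
    exact ⟨⟨u, u1, rW j hj 0 (by omega) u2⟩, v, v1, rW j hj 4 (by omega) v2⟩
  · obtain ⟨u, hu⟩ := hβ.1
    refine Conn.of_center (mem_union_left _ hu) fun v hv => ?_
    rcases mem_union.1 hv with hv | hv
    · exact hβ.r hu hv subset_union_left
    · obtain ⟨-, a, a1, ⟨a0, h0, y, ho, a2⟩, a3⟩ := mem_filter.1 hv
      have hJ := key a0 h0 _ y ho rfl
      rcases a2 with rfl | ⟨i, z, rfl⟩ | ⟨a4, a5⟩
      · exact hJ.2 u hu v a3
      · exact (near a0 h0 y ho hJ i a1.2.1 z a1.2.2).2 u hu v a3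
      · exact (far a0 h0 y a4 hJ a a1 a5).2 u hu v a3
  · refine disjoint_union_left.2 ⟨(US_hair h).mono_left hβs, US_disj h ?_⟩
    rintro a - ⟨a0, h0, y, -, a2⟩ ⟨z, rfl⟩
    rcases a2 with e | ⟨i, z, e⟩ | ⟨a4, a5⟩
    · simp at e
    · simp at e
    · obtain rfl : f j = y := a5
      exact ha a0 h0 _ (f1 j hj) a4
  · exact (h.nc _ (hlt _ (f1 j hj)) (d.near (f j)) 0 (by omega)).mono
      (nW _ (f1 j hj) _ HD.On.refl 7 (by omega) 0 (by omega)) (rW j hj 0 (by omega))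

end Tree

theorem treea : TREEAStmt := by
  intro V G Big S E nb c d h
  refine ⟨Tree.ford h, fun T hT => ⟨fun σ hσ => ?_, disjoint_left.2 fun σ hσ => ?_,
    fun b0 hb0 s => Tree.parity h hT hb0 s⟩⟩
  · obtain ⟨y, hy, rfl⟩ := mem_image.1 hσ
    exact mem_range.2 (h.par y (mem_range.1 (mem_filter.1 hy).1)).1
  · obtain ⟨y, hy, rfl⟩ := mem_image.1 hσ
    exact (h.par y (mem_range.1 (mem_filter.1 hy).1)).2.1

theorem treeb (hSEQ : SEQStmt) (_hA : TREEAStmt) : TREEBStmt := by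
  intro V G Big S E nb c m d h hc hm
  by_cases h1 : ∀ b < nb, ((range nb).filter (d.Cr b)).card < m
  · by_cases h2 : ∀ A ⊆ range nb, (∀ x ∈ A, ∀ y ∈ A, ¬ d.Cr x y) → A.card < m
    · exact Or.inr ⟨by convert h1, h2⟩
    · push Not at h2
      obtain ⟨A, a1, a2, a3⟩ := h2
      exact Or.inl (Or.inr (Tree.anti h hc hm a1 a2 a3))
  · push Not at h1
    obtain ⟨b, hb, h1⟩ := h1
    obtain ⟨l, s1, -, s3⟩ := Tree.chain h hc _ b hb rfl
    exact Or.inl (Or.inl (hSEQ s1 (h1.trans s3)))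

end Pool.Agent.MP_7be75d_co.Gen

end MrgPart0

-- ======== part 1: formerly Pool.Agent.MP_7be75d_co.Gen.Comb2
section MrgPart1

/-! The segments of the network on two halves. -/

namespace Pool.Agent.MP_7be75d_co.Gen.Comb

open Finset Pool.Agent.MP_7be75d_co.Gen.Tree
open scoped Classical

variable {V : Type} {G : SimpleGraph V}

theorem chainJ {W : Finset V} {f : ℕ → Finset V} {lo hi : ℕ}
    (h1 : ∀ k, lo ≤ k → k ≤ hi → f k ⊆ W ∧ Conn G (f k))
    (h2 : ∀ k, lo ≤ k → k < hi → Touch G (f k) (f (k + 1))) {i j : ℕ} (a1 : lo ≤ i) (a2 : i ≤ hi)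
    (b1 : lo ≤ j) (b2 : j ≤ hi) : J G W (f i) (f j) := by
  have key : ∀ k, lo ≤ k → k ≤ hi → J G W (f lo) (f k) := by
    intro k hk
    induction k, hk using Nat.le_induction with
    | base => exact fun h => J.refl (h1 lo le_rfl h).2 (h1 lo le_rfl h).1
    | succ n hn ih =>
      exact fun h => (ih (by omega)).touch (h1 n hn (by omega)).1 (h1 _ (by omega) h).2
        (h1 _ (by omega) h).1 (h2 n hn (by omega))
  exact ((key i a1 a2).symm (h1 lo le_rfl (by omega)).2.1).trans (key j b1 b2)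

theorem conn_of_J {W A : Finset V} (hA : A.Nonempty) (hs : A ⊆ W)
    (h : ∀ v ∈ W, ∃ B, v ∈ B ∧ J G W A B) : Conn G W := by
  obtain ⟨u, hu⟩ := hA
  refine Conn.of_center (hs hu) fun v hv => ?_
  obtain ⟨B, h1, h2⟩ := h v hv
  exact h2.2 u hu v h1

/-- The data of two halves, a matching with ribbons, and the chosen segments. -/
structure Dat (V : Type) where
  nb : ℕ
  c : ℕ
  d : Bool → HD V
  B : Bool → Finset V
  S : Bool → Finset V
  E : Bool → Finset V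
  Mr : Finset V
  A : Finset (ℕ × ℕ)
  rr : Bool → ℕ × ℕ → ℕ
  o : ℕ × ℕ → Bool
  Mid : ℕ × ℕ → ℕ → Finset V
  K : Bool → Finset ℕ

/-- The block of a pair on a side. -/
def blk (τ : Bool) (p : ℕ × ℕ) : ℕ := if τ then p.2 else p.1

/-- The row of a ribbon that is used by a transfer. -/
def jj (s : Bool) (y : ℕ) : ℕ := if s then 1 + y else 3 - y

/-- One or two, according to parity. -/
def mu (n : ℕ) : ℕ := 2 - n % 2

/-- Core cells as atoms. -/
def ce (b ρ y : ℕ) : Atom := Sum.inr (Sum.inl (b, ρ, y))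

/-- Labels: segments of the halves, crossings, transfers. -/
abbrev Lab : Type := (Bool × ℕ) ⊕ (Bool × ℕ × ℕ) ⊕ ((ℕ × ℕ) × Bool × ℕ)

namespace Dat

variable (D : Dat V)

/-- The collar on the side `τ` that is joined to the left collar `s`. -/
def sd (τ : Bool) (p : ℕ × ℕ) (s : Bool) : Bool := xor s (τ && !D.o p)

/-- The number of upper ends at a collar. -/
noncomputable def tp (τ : Bool) (b : ℕ) (s : Bool) : ℕ := (D.d τ).ends (D.K τ) b s

/-- The number of transfers. -/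
noncomputable def tm (p : ℕ × ℕ) (s : Bool) : ℕ := mu (D.tp true p.2 (D.sd true p s))

/-- The number of ends of transfers at a collar. -/
noncomputable def tb (τ : Bool) (b : ℕ) (s : Bool) : ℕ :=
  ∑ p ∈ D.A.filter fun p => blk τ p = b, D.tm p (D.sd τ p s)

/-- The number of crossings. -/
noncomputable def xm (τ : Bool) (b : ℕ) : ℕ :=
  if τ = true ∧ ∃ p ∈ D.A, p.2 = b then 0 else mu (D.tp τ b false + D.tb τ b false)

/-- The crossing carries a lane. -/
def Gain (τ : Bool) (b y : ℕ) (p : ℕ × ℕ) : Prop :=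
  p ∈ D.A ∧ τ = false ∧ p.1 = b ∧ y = 0 ∧ D.xm false b = 1

/-- The atoms of a label on the side `τ`. -/
def PA (τ : Bool) : Lab → Atom → Prop
  | Sum.inl (τ', σ), a => τ' = τ ∧ a = Sum.inr (Sum.inr σ)
  | Sum.inr (Sum.inl (τ', b, y)), a => (τ' = τ ∧ ∃ ρ, a = ce b ρ y) ∨
      ∃ p, D.Gain τ' b y p ∧ ∃ y', a = ce (blk τ p) (D.rr τ p + 2) y'
  | Sum.inr (Sum.inr (p, s, y)), a => ∃ ρ y', a = ce (blk τ p) ρ y' ∧
      ((y' = y ∧ if D.sd τ p s then D.rr τ p + jj true y ≤ ρ else ρ ≤ D.rr τ p + jj false y) ∨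
        (ρ = D.rr τ p + jj (D.sd τ p s) y ∧ y ≤ y'))

/-- The middle paths of a label. -/
def PM : Lab → ℕ × ℕ → ℕ → Prop
  | Sum.inl _, _, _ => False
  | Sum.inr (Sum.inl (τ', b, y)), p, j => D.Gain τ' b y p ∧ j = 2
  | Sum.inr (Sum.inr (q, s, y)), p, j => p = q ∧ j = jj s y

/-- The valid labels. -/
def Ok : Lab → Prop
  | Sum.inl (τ, σ) => σ ∈ D.K τ
  | Sum.inr (Sum.inl (τ, b, y)) => b < D.nb ∧ y < D.xm τ b
  | Sum.inr (Sum.inr (p, s, y)) => p ∈ D.A ∧ 2 ≤ y ∧ y < 2 + D.tm p s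

/-- The part of a segment on one side. -/
noncomputable def side (τ : Bool) (l : Lab) : Finset V := US (D.d τ) (D.B τ) D.nb D.c (D.PA τ l)

/-- The middle part of a segment. -/
noncomputable def mid (l : Lab) : Finset V :=
  D.Mr.filter fun v => ∃ p ∈ D.A, ∃ j < 5, D.PM l p j ∧ v ∈ D.Mid p j

/-- The segment with a given label. -/
noncomputable def sg (l : Lab) : Finset V := D.side false l ∪ D.mid l ∪ D.side true l

/-- The hypotheses on the data. -/
structure Ctx (G : SimpleGraph V) (D : Dat V) : Prop where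
  h : ∀ τ, IsHalf G (D.B τ) (D.S τ) (D.E τ) D.nb D.c (D.d τ)
  dB : Disjoint (D.B false) (D.B true)
  dM : ∀ τ, Disjoint (D.B τ) D.Mr
  c0 : 0 < D.c
  lt : ∀ p ∈ D.A, ∀ τ, blk τ p < D.nb
  mat : ∀ p ∈ D.A, ∀ q ∈ D.A, ∀ τ, blk τ p = blk τ q → p = q
  r5 : ∀ p ∈ D.A, ∀ τ, D.rr τ p + 5 ≤ D.c
  md : ∀ p ∈ D.A, ∀ j < 5, D.Mid p j ⊆ D.Mr ∧ Conn G (D.Mid p j)
  tch : ∀ p ∈ D.A, ∀ τ, ∀ j < 5, Touch G ((D.d τ).core (blk τ p)
    (D.rr τ p + if (τ && !D.o p) = true then 4 - j else j) 4) (D.Mid p j)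
  mdd : ∀ p ∈ D.A, ∀ j < 5, ∀ p' ∈ D.A, ∀ j' < 5, p ≠ p' ∨ j ≠ j' →
    Disjoint (D.Mid p j) (D.Mid p' j')
  Klt : ∀ τ, D.K τ ⊆ range (D.d τ).ns
  DK : ∀ τ, (D.d τ).D ⊆ D.K τ

variable {D}

theorem sd_sd (τ : Bool) (p : ℕ × ℕ) (s : Bool) : D.sd τ p (D.sd τ p s) = s := by
  simp [sd]

theorem sd_false (p : ℕ × ℕ) (s : Bool) : D.sd false p s = s := by simp [sd]

theorem tm_le (p : ℕ × ℕ) (s : Bool) : 1 ≤ D.tm p s ∧ D.tm p s ≤ 2 := by
  unfold tm mu; omega

theorem xm_le (τ : Bool) (b : ℕ) : D.xm τ b ≤ 2 := by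
  unfold xm mu; split_ifs <;> omega

theorem xm_mat {p : ℕ × ℕ} (hp : p ∈ D.A) : D.xm true p.2 = 0 := if_pos ⟨rfl, p, hp, rfl⟩

theorem ce_inj {b ρ y b' ρ' y' : ℕ} (h : ce b ρ y = ce b' ρ' y') : b = b' ∧ ρ = ρ' ∧ y = y' := by
  simpa [ce] using h

theorem colgain {τ τ' : Bool} {b y b' y' : ℕ} {p : ℕ × ℕ} (h1 : y < D.xm τ b)
    (h2 : D.Gain τ' b' y' p) (e : b = blk τ p) : (τ, b, y) = (τ', b', y') := by
  obtain ⟨a1, rfl, rfl, rfl, a5⟩ := h2
  cases τ
  · obtain rfl : b = p.1 := e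
    obtain rfl : y = 0 := by omega
    rfl
  · obtain rfl : b = p.2 := e
    have := xm_mat a1
    omega

theorem xf (H : Ctx G D) {τ τ' s : Bool} {b y y' : ℕ} {p : ℕ × ℕ} {a : Atom}
    (o1 : D.Ok (Sum.inr (Sum.inl (τ', b, y)))) (o2 : D.Ok (Sum.inr (Sum.inr (p, s, y'))))
    (h1 : D.PA τ (Sum.inr (Sum.inl (τ', b, y))) a) (h2 : D.PA τ (Sum.inr (Sum.inr (p, s, y'))) a) :
    False := by
  obtain ⟨ρ, z, rfl, h2⟩ := h2
  have := xm_le (D := D) τ' b
  have := tm_le (D := D) p s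
  obtain ⟨-, o1⟩ := o1
  obtain ⟨o2, o3, o4⟩ := o2
  rcases h1 with ⟨-, ρ', e⟩ | ⟨q, g, z', e⟩
  · obtain ⟨-, -, e⟩ := ce_inj e
    omega
  · obtain ⟨e1, e2, -⟩ := ce_inj e
    obtain rfl := H.mat p o2 q g.1 τ e1
    cases hs : D.sd τ p s <;> simp [hs, jj] at h2 <;> omega

theorem pa_uniq (H : Ctx G D) {τ : Bool} {l l' : Lab} {a : Atom} (o1 : D.Ok l) (o2 : D.Ok l')
    (h1 : D.PA τ l a) (h2 : D.PA τ l' a) : l = l' := by
  rcases l with ⟨τ1, σ1⟩ | ⟨τ1, b1, y1⟩ | ⟨p1, s1, y1⟩ <;>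
    rcases l' with ⟨τ2, σ2⟩ | ⟨τ2, b2, y2⟩ | ⟨p2, s2, y2⟩
  · obtain ⟨rfl, rfl⟩ := h1
    obtain ⟨rfl, e⟩ := h2
    simpa using e
  · obtain ⟨rfl, rfl⟩ := h1
    rcases h2 with ⟨-, _, e⟩ | ⟨_, -, _, e⟩ <;> simp [ce] at e
  · obtain ⟨rfl, rfl⟩ := h1
    obtain ⟨_, _, e, -⟩ := h2
    simp [ce] at e
  · obtain ⟨rfl, rfl⟩ := h2
    rcases h1 with ⟨-, _, e⟩ | ⟨_, -, _, e⟩ <;> simp [ce] at e
  · rcases h1 with ⟨rfl, _, rfl⟩ | ⟨p, g, _, rfl⟩ <;> rcases h2 with ⟨rfl, _, e⟩ | ⟨q, g', _, e⟩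
    · obtain ⟨rfl, -, rfl⟩ := ce_inj e
      rfl
    · rw [colgain o1.2 g' (ce_inj e).1]
    · rw [colgain o2.2 g (ce_inj e).1.symm]
    · obtain rfl := H.mat p g.1 q g'.1 τ (ce_inj e).1
      obtain ⟨-, rfl, rfl, rfl, -⟩ := g
      obtain ⟨-, rfl, rfl, rfl, -⟩ := g'
      rfl
  · exact (xf H o1 o2 h1 h2).elim
  · obtain ⟨rfl, rfl⟩ := h2
    obtain ⟨_, _, e, -⟩ := h1
    simp [ce] at e
  · exact (xf H o2 o1 h2 h1).elim
  · obtain ⟨ρ, z, rfl, h1⟩ := h1
    obtain ⟨ρ', z', e, h2⟩ := h2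
    obtain ⟨e1, rfl, rfl⟩ := ce_inj e
    obtain ⟨a1, a2, a3⟩ := o1
    obtain ⟨b1, b2, b3⟩ := o2
    obtain rfl := H.mat p1 a1 p2 b1 τ e1
    have := tm_le (D := D) p1 s1
    have := tm_le (D := D) p1 s2
    have key : D.sd τ p1 s1 = D.sd τ p1 s2 ∧ y1 = y2 := by
      cases hs : D.sd τ p1 s1 <;> cases hs' : D.sd τ p1 s2 <;> simp [hs, hs', jj] at h1 h2 ⊢ <;>
        omega
    rw [← sd_sd (D := D) τ p1 s1, key.1, sd_sd, key.2]

theorem pm_uniq {l l' : Lab} {p : ℕ × ℕ} {j : ℕ} (o1 : D.Ok l) (o2 : D.Ok l')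
    (h1 : D.PM l p j) (h2 : D.PM l' p j) : l = l' := by
  rcases l with _ | ⟨τ1, b1, y1⟩ | ⟨p1, s1, y1⟩
  · exact h1.elim
  all_goals rcases l' with _ | ⟨τ2, b2, y2⟩ | ⟨p2, s2, y2⟩
  · exact h2.elim
  · obtain ⟨⟨-, rfl, rfl, rfl, -⟩, -⟩ := h1
    obtain ⟨⟨-, rfl, rfl, rfl, -⟩, -⟩ := h2
    rfl
  · obtain ⟨-, rfl⟩ := h1
    obtain ⟨-, e⟩ := h2
    obtain ⟨-, a2, a3⟩ := o2
    cases s2 <;> simp [jj] at e <;> omega
  · exact h2.elim
  · obtain ⟨-, rfl⟩ := h2
    obtain ⟨-, e⟩ := h1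
    obtain ⟨-, a2, a3⟩ := o1
    cases s1 <;> simp [jj] at e <;> omega
  · obtain ⟨rfl, rfl⟩ := h1
    obtain ⟨rfl, e⟩ := h2
    obtain ⟨-, a2, a3⟩ := o1
    obtain ⟨-, b2, b3⟩ := o2
    have := tm_le (D := D) p s1
    have := tm_le (D := D) p s2
    cases s1 <;> cases s2 <;> simp [jj] at e ⊢ <;> omega

theorem side_sub (τ : Bool) (l : Lab) : D.side τ l ⊆ D.B τ := filter_subset _ _

theorem mem_mid {l : Lab} {v : V} :
    v ∈ D.mid l ↔ v ∈ D.Mr ∧ ∃ p ∈ D.A, ∃ j < 5, D.PM l p j ∧ v ∈ D.Mid p j := by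
  simp only [mid, mem_filter]

theorem mid_sub (l : Lab) : D.mid l ⊆ D.Mr := fun _ h => (mem_mid.1 h).1

theorem side_sg (τ : Bool) (l : Lab) : D.side τ l ⊆ D.sg l := by
  cases τ
  · exact subset_union_left.trans subset_union_left
  · exact subset_union_right

theorem mid_sg (H : Ctx G D) {l : Lab} {p : ℕ × ℕ} {j : ℕ} (hp : p ∈ D.A) (hj : j < 5)
    (h : D.PM l p j) : D.Mid p j ⊆ D.sg l := fun _ hv =>
  mem_union_left _ (mem_union_right _ (mem_mid.2 ⟨(H.md p hp j hj).1 hv, p, hp, j, hj, h, hv⟩))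

theorem at_sg (H : Ctx G D) {τ : Bool} {l : Lab} {a : Atom} (h1 : (D.d τ).ok D.nb D.c a)
    (h2 : D.PA τ l a) : (D.d τ).at a ⊆ D.sg l := (at_sub (H.h τ) h1 h2).trans (side_sg τ l)

theorem mem_sg {l : Lab} {v : V} (hv : v ∈ D.sg l) :
    (∃ τ a, (D.d τ).ok D.nb D.c a ∧ D.PA τ l a ∧ v ∈ (D.d τ).at a) ∨
      ∃ p ∈ D.A, ∃ j < 5, D.PM l p j ∧ v ∈ D.Mid p j := by
  rcases mem_union.1 hv with hv | hv
  · rcases mem_union.1 hv with hv | hv
    · exact Or.inl ⟨false, (mem_filter.1 hv).2⟩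
    · exact Or.inr (mem_mid.1 hv).2
  · exact Or.inl ⟨true, (mem_filter.1 hv).2⟩

theorem B_disj (H : Ctx G D) {τ τ' : Bool} (h : τ ≠ τ') : Disjoint (D.B τ) (D.B τ') := by
  cases τ <;> cases τ'
  · exact absurd rfl h
  · exact H.dB
  · exact H.dB.symm
  · exact absurd rfl h

/-- A subset of one half avoids a segment as soon as it avoids its atoms in this half. -/
theorem disj_sg (H : Ctx G D) {τ : Bool} {X : Finset V} (hX : X ⊆ D.B τ) {l : Lab}
    (h : ∀ a, (D.d τ).ok D.nb D.c a → D.PA τ l a → Disjoint X ((D.d τ).at a)) :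
    Disjoint X (D.sg l) := by
  refine disjoint_left.2 fun v h1 h2 => ?_
  rcases mem_sg h2 with ⟨τ', a, a1, a2, a3⟩ | ⟨p, hp, j, hj, -, a3⟩
  · by_cases e : τ = τ'
    · subst e
      exact disjoint_left.1 (h a a1 a2) h1 a3
    · exact disjoint_left.1 (B_disj H e) (hX h1) ((H.h τ').sub a a1 a3)
  · exact disjoint_left.1 (H.dM τ) (hX h1) ((H.md p hp j hj).1 a3)

theorem sg_disj (H : Ctx G D) {l l' : Lab} (o1 : D.Ok l) (o2 : D.Ok l') (hn : l ≠ l') :
    Disjoint (D.sg l) (D.sg l') := by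
  refine disjoint_left.2 fun v h1 h2 => ?_
  rcases mem_sg h1 with ⟨τ, a, a1, a2, a3⟩ | ⟨p, hp, j, hj, a2, a3⟩
  · refine disjoint_left.1 (disj_sg H ((H.h τ).sub a a1) fun a' b1 b2 =>
      (H.h τ).disj a a' a1 b1 ?_) a3 h2
    rintro rfl
    exact hn (pa_uniq H o1 o2 a2 b2)
  · rcases mem_sg h2 with ⟨τ', a, b1, -, b3⟩ | ⟨p', hp', j', hj', b2, b3⟩
    · exact disjoint_left.1 (H.dM τ') ((H.h τ').sub a b1 b3) ((H.md p hp j hj).1 a3)
    · by_cases e : p = p' ∧ j = j'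
      · obtain ⟨rfl, rfl⟩ := e
        exact hn (pm_uniq o1 o2 a2 b2)
      · exact disjoint_left.1 (H.mdd p hp j hj p' hp' j' hj' (by tauto)) a3 b3

theorem colJ (H : Ctx G D) {W : Finset V} {τ : Bool} {b y lo hi i j : ℕ} (hb : b < D.nb)
    (hy : y < 4) (hh : hi < D.c) (hW : ∀ k, lo ≤ k → k ≤ hi → (D.d τ).core b k y ⊆ W)
    (a1 : lo ≤ i) (a2 : i ≤ hi) (b1 : lo ≤ j) (b2 : j ≤ hi) :
    J G W ((D.d τ).core b i y) ((D.d τ).core b j y) :=
  chainJ (f := fun k => (D.d τ).core b k y)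
    (fun k h1 h2 => ⟨hW k h1 h2, (H.h τ).conn (ce b k y) ⟨hb, by omega, by omega⟩⟩)
    (fun k _ h2 => (H.h τ).cov b hb k (by omega) y hy) a1 a2 b1 b2

theorem rowJ' (H : Ctx G D) {W : Finset V} {τ : Bool} {b ρ lo i j : ℕ} (hb : b < D.nb)
    (hρ : ρ < D.c) (hW : ∀ k, lo ≤ k → k ≤ 4 → (D.d τ).core b ρ k ⊆ W)
    (a1 : lo ≤ i) (a2 : i ≤ 4) (b1 : lo ≤ j) (b2 : j ≤ 4) :
    J G W ((D.d τ).core b ρ i) ((D.d τ).core b ρ j) :=
  chainJ (f := fun k => (D.d τ).core b ρ k)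
    (fun k h1 h2 => ⟨hW k h1 h2, (H.h τ).conn (ce b ρ k) ⟨hb, hρ, by omega⟩⟩)
    (fun k _ h2 => (H.h τ).coh b hb ρ hρ k (by omega)) a1 a2 b1 b2

theorem sg_conn (H : Ctx G D) {l : Lab} (o : D.Ok l) : Conn G (D.sg l) := by
  rcases l with ⟨τ, σ⟩ | ⟨τ, b, y⟩ | ⟨p, s, y⟩
  · have ok : (D.d τ).ok D.nb D.c (Sum.inr (Sum.inr σ)) := mem_range.1 (H.Klt τ o)
    have hc := (H.h τ).conn _ ok
    have hs := at_sg H (l := Sum.inl (τ, σ)) ok ⟨rfl, rfl⟩
    refine conn_of_J hc.1 hs fun v hv => ?_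
    rcases mem_sg hv with ⟨τ', a, -, ⟨rfl, rfl⟩, a3⟩ | ⟨_, -, _, -, a2, -⟩
    · exact ⟨_, a3, J.refl hc hs⟩
    · exact a2.elim
  · obtain ⟨hb, hy⟩ := o
    have := xm_le (D := D) τ b
    have hc0 := H.c0
    set l : Lab := Sum.inr (Sum.inl (τ, b, y)) with hl
    have hcol : ∀ k, 0 ≤ k → k ≤ D.c - 1 → (D.d τ).core b k y ⊆ D.sg l := fun k _ hk =>
      at_sg H (a := ce b k y) ⟨hb, by omega, by omega⟩ (Or.inl ⟨rfl, k, rfl⟩)
    have hJ : ∀ k < D.c, J G (D.sg l) ((D.d τ).core b 0 y) ((D.d τ).core b k y) := fun k hk =>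
      colJ H hb (by omega) (by omega) hcol le_rfl (by omega) (by omega) (by omega)
    have hg : ∀ p, D.Gain τ b y p → J G (D.sg l) ((D.d τ).core b 0 y) (D.Mid p 2) ∧ ∀ τ', ∀ k ≤ 4,
        J G (D.sg l) (D.Mid p 2) ((D.d τ').core (blk τ' p) (D.rr τ' p + 2) k) := by
      intro p g
      have hm := mid_sg H (l := l) g.1 (by omega : 2 < 5) ⟨g, rfl⟩
      have hr : ∀ τ' k, 0 ≤ k → k ≤ 4 → (D.d τ').core (blk τ' p) (D.rr τ' p + 2) k ⊆ D.sg l :=
        fun τ' k _ hk => at_sg H (a := ce (blk τ' p) (D.rr τ' p + 2) k)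
          ⟨H.lt p g.1 τ', by have := H.r5 p g.1 τ'; omega, by omega⟩ (Or.inr ⟨p, g, k, rfl⟩)
      have h2 : ∀ τ', ∀ k ≤ 4,
          J G (D.sg l) (D.Mid p 2) ((D.d τ').core (blk τ' p) (D.rr τ' p + 2) k) := by
        intro τ' k hk
        have r5 := H.r5 p g.1 τ'
        have t := H.tch p g.1 τ' 2 (by omega)
        rw [ite_self] at t
        exact ((J.refl (H.md p g.1 2 (by omega)).2 hm).touch hm ((H.h τ').conn (ce _ _ 4)
          ⟨H.lt p g.1 τ', by omega, by omega⟩) (hr τ' 4 (by omega) le_rfl) t.symm).trans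
          (rowJ' H (H.lt p g.1 τ') (by omega) (hr τ') (by omega) le_rfl (by omega) hk)
      refine ⟨?_, h2⟩
      have r5 := H.r5 p g.1 false
      have h3 := (h2 false 0 (by omega)).symm (H.md p g.1 2 (by omega)).2.1
      obtain ⟨-, rfl, rfl, rfl, -⟩ := g
      exact (hJ _ (by omega)).trans h3
    refine conn_of_J (hJ 0 hc0).1 (hcol 0 le_rfl (by omega)) fun v hv => ?_
    rcases mem_sg hv with ⟨τ', a, a1, ⟨rfl, ρ, rfl⟩ | ⟨p, g, k, rfl⟩, a3⟩ | ⟨p, -, _, -, ⟨g, rfl⟩, a3⟩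
    · exact ⟨_, a3, hJ ρ a1.2.1⟩
    · exact ⟨_, a3, (hg p g).1.trans ((hg p g).2 τ' k (by have := a1.2.2; omega))⟩
    · exact ⟨_, a3, (hg p g).1⟩
  · obtain ⟨hp, y1, y2⟩ := o
    have := tm_le (D := D) p s
    set l : Lab := Sum.inr (Sum.inr (p, s, y)) with hl
    have hj : jj s y < 5 := by unfold jj; split_ifs <;> omega
    have hm := mid_sg H (l := l) hp hj ⟨rfl, rfl⟩
    have hc := (H.md p hp _ hj).2
    refine conn_of_J hc.1 hm fun v hv => ?_
    rcases mem_sg hv with ⟨τ, a, a1, ⟨ρ, z, rfl, a2⟩, a3⟩ | ⟨q, -, _, -, ⟨rfl, rfl⟩, a3⟩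
    swap
    · exact ⟨_, a3, J.refl hc hm⟩
    refine ⟨_, a3, ?_⟩
    have r5 := H.r5 p hp τ
    have hb := H.lt p hp τ
    have hj' : jj (D.sd τ p s) y < 5 := by unfold jj; split_ifs <;> omega
    have hr : ∀ k, y ≤ k → k ≤ 4 →
        (D.d τ).core (blk τ p) (D.rr τ p + jj (D.sd τ p s) y) k ⊆ D.sg l := fun k h1 h2 =>
      at_sg H (a := ce _ _ k) ⟨hb, by omega, by omega⟩ ⟨_, _, rfl, Or.inr ⟨rfl, h1⟩⟩
    have t := H.tch p hp τ _ hj
    have e : (if (τ && !D.o p) = true then 4 - jj s y else jj s y) = jj (D.sd τ p s) y := by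
      unfold sd
      cases (τ && !D.o p) <;> cases s <;> simp [jj] <;> omega
    rw [e] at t
    have h2 : ∀ k, y ≤ k → k ≤ 4 → J G (D.sg l) (D.Mid p (jj s y))
        ((D.d τ).core (blk τ p) (D.rr τ p + jj (D.sd τ p s) y) k) := fun k h1 h2 =>
      ((J.refl hc hm).touch hm ((H.h τ).conn (ce _ _ 4) ⟨hb, by omega, by omega⟩)
        (hr 4 (by omega) le_rfl) t.symm).trans
        (rowJ' H hb (by omega) hr (by omega) le_rfl h1 h2)
    obtain ⟨-, a4, a5⟩ := a1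
    rcases a2 with ⟨rfl, a2⟩ | ⟨rfl, a2⟩
    · refine (h2 z le_rfl (by omega)).trans ?_
      cases hs : D.sd τ p s
      · rw [hs] at a2
        exact colJ H (lo := 0) (hi := D.rr τ p + jj false z) hb (by omega) (by rw [hs] at hj'; omega)
          (fun k _ hk => at_sg H (a := ce _ k z) ⟨hb, by rw [hs] at hj'; omega, by omega⟩
            ⟨_, _, rfl, Or.inl ⟨rfl, by simpa [hs] using hk⟩⟩) (by omega) le_rfl (by omega)
          (by simpa using a2)
      · rw [hs] at a2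
        exact colJ H (lo := D.rr τ p + jj true z) (hi := D.c - 1) hb (by omega) (by omega)
          (fun k hk _ => at_sg H (a := ce _ k z) ⟨hb, by omega, by omega⟩
            ⟨_, _, rfl, Or.inl ⟨rfl, by simpa [hs] using hk⟩⟩) le_rfl (by rw [hs] at hj'; omega)
          (by simpa using a2) (by omega)
    · exact h2 z a2 (by omega)

end Dat

end Pool.Agent.MP_7be75d_co.Gen.Comb

end MrgPart1

-- ======== part 2: formerly Pool.Agent.MP_7be75d_co.Gen.Comb
section MrgPart2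

/-! Two halves joined by ribbons contain a heavy sequence. -/

namespace Pool.Agent.MP_7be75d_co.Gen

open Finset
open scoped Classical

namespace Comb

variable {V : Type} {G : SimpleGraph V}

theorem card_sum {α β γ : Type} (s : Finset α) (t : Finset β) (u : Finset γ)
    (P : (α ⊕ β) × γ → Prop) {_ : DecidablePred P} : ((s.disjSum t ×ˢ u).filter P).card =
      ((s ×ˢ u).filter fun e => P (Sum.inl e.1, e.2)).card +
        ((t ×ˢ u).filter fun e => P (Sum.inr e.1, e.2)).card := by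
  simp only [card_filter, sum_product, sum_disjSum]

theorem allLinked (hL : LINKStmt) [Fintype V] {U T : Finset V} {K : ℕ} {β : Finset V → Finset V}
    (h : Haven G U K β) (hf : Free β K T) (hc : T.card ≤ K) : AllLinked G U T := by
  intro X hX Y hY _ hXY
  have e : X ≃ Y := Fintype.equivOfCardEq (by simpa using hXY)
  have hk : Fintype.card X ≤ K := by simpa using (card_le_card hX).trans hc
  obtain ⟨P, π, h1, h2⟩ := hL (fun x : X => x.1) (fun x : X => (e x).1) h hk Subtype.val_injective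
    (Subtype.val_injective.comp e.injective)
    (hf.mono fun v hv => by obtain ⟨x, -, rfl⟩ := mem_image.1 hv; exact hX x.2)
    (hf.mono fun v hv => by obtain ⟨x, -, rfl⟩ := mem_image.1 hv; exact hY (e x).2)
  refine ⟨fun v => if hv : v ∈ X then P ⟨v, hv⟩ else ∅, fun x hx => ?_, fun x hx x' hx' hn => ?_⟩
  · simp only [dif_pos hx]
    obtain ⟨a1, a2, a3, a4⟩ := h1 ⟨x, hx⟩
    have : 0 < Fintype.card X := Fintype.card_pos_iff.2 ⟨⟨x, hx⟩⟩
    exact ⟨a1.trans (h.subU (by simp; omega)), a2, a3, _, (e _).2, a4⟩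
  · simp only [dif_pos hx, dif_pos hx']
    exact h2 _ _ fun h => hn (congrArg Subtype.val h)

namespace Dat

variable (D : Dat V)

/-- The collar of an end. -/
def node : Lab × Bool → Option (Bool × ℕ × Bool)
  | (Sum.inl (τ, σ), j) => ((D.d τ).pt σ j).elim (fun _ => none) fun z => some (τ, z.1, z.2.1)
  | (Sum.inr (Sum.inl (τ, b, _)), j) => some (τ, b, j)
  | (Sum.inr (Sum.inr (p, s, _)), j) => some (j, blk j p, D.sd j p s)

/-- The column of an end. -/
def cl : Lab × Bool → ℕ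
  | (Sum.inl (τ, σ), j) => ((D.d τ).pt σ j).elim (fun _ => 0) fun z => 4 + z.2.2
  | (Sum.inr (Sum.inl (_, _, y)), _) => y
  | (Sum.inr (Sum.inr (_, _, y)), _) => y

/-- The terminal of a free end. -/
def hv (v0 : V) : Lab × Bool → V
  | (Sum.inl (τ, σ), j) => ((D.d τ).pt σ j).elim id fun _ => v0
  | _ => v0

/-- The side of a free end. -/
def ty : Lab × Bool → Bool
  | (Sum.inl (τ, _), _) => τ
  | _ => false

/-- Valid labels of the first kind. -/
noncomputable def LT : Finset (Bool × ℕ) :=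
  (univ ×ˢ (D.K false ∪ D.K true)).filter fun z => z.2 ∈ D.K z.1

/-- Valid labels of the second kind. -/
noncomputable def LX : Finset (Bool × ℕ × ℕ) :=
  (univ ×ˢ range D.nb ×ˢ range 2).filter fun z => z.2.2 < D.xm z.1 z.2.1

/-- Valid labels of the third kind. -/
noncomputable def LF : Finset ((ℕ × ℕ) × Bool × ℕ) :=
  (D.A ×ˢ univ ×ˢ range 4).filter fun z => 2 ≤ z.2.2 ∧ z.2.2 < 2 + D.tm z.1 z.2.1

/-- All valid labels. -/
noncomputable def Lb : Finset Lab := D.LT.disjSum (D.LX.disjSum D.LF)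

variable {D}

theorem mem_LT {τ : Bool} {σ : ℕ} : (τ, σ) ∈ D.LT ↔ σ ∈ D.K τ := by
  cases τ <;> simp [LT] <;> tauto

theorem mem_LX {τ : Bool} {b y : ℕ} : (τ, b, y) ∈ D.LX ↔ b < D.nb ∧ y < D.xm τ b := by
  have := xm_le (D := D) τ b
  simp only [LX, mem_filter, mem_product, mem_univ, mem_range, true_and]
  omega

theorem mem_LF {p : ℕ × ℕ} {s : Bool} {y : ℕ} :
    (p, s, y) ∈ D.LF ↔ p ∈ D.A ∧ 2 ≤ y ∧ y < 2 + D.tm p s := by
  have := tm_le (D := D) p s
  simp only [LF, mem_filter, mem_product, mem_univ, mem_range, true_and]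
  exact ⟨fun h => ⟨h.1.1, h.2⟩, fun h => ⟨⟨h.1, by omega⟩, h.2⟩⟩

theorem mem_Lb {l : Lab} : l ∈ D.Lb ↔ D.Ok l := by
  rcases l with ⟨τ, σ⟩ | ⟨τ, b, y⟩ | ⟨p, s, y⟩
  · simp only [Lb, inl_mem_disjSum, mem_LT, Ok]
  · simp only [Lb, inr_mem_disjSum, inl_mem_disjSum, mem_LX, Ok]
  · simp only [Lb, inr_mem_disjSum, mem_LF, Ok]

theorem node_inl {τ : Bool} {σ : ℕ} {j : Bool} {v : Bool × ℕ × Bool} :
    D.node (Sum.inl (τ, σ), j) = some v ↔
      v.1 = τ ∧ ∃ x, (D.d τ).pt σ j = Sum.inr (v.2.1, v.2.2, x) := by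
  obtain ⟨τ', b, s⟩ := v
  simp only [node]
  rcases (D.d τ).pt σ j with t | ⟨b', s', x⟩
  · simp
  · simp only [Sum.elim_inr, Option.some.injEq, Prod.mk.injEq, Sum.inr.injEq]
    exact ⟨fun h => ⟨h.1.symm, x, h.2.1, h.2.2, rfl⟩, fun ⟨h, _, h'⟩ => ⟨h.symm, h'.1, h'.2.1⟩⟩

theorem node_none {e : Lab × Bool} (h : D.node e = none) :
    ∃ τ σ j t, e = (Sum.inl (τ, σ), j) ∧ (D.d τ).pt σ j = Sum.inl t := by
  obtain ⟨⟨τ, σ⟩ | ⟨τ, b, y⟩ | ⟨p, s, y⟩, j⟩ := e
  · simp only [node] at h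
    rcases e : (D.d τ).pt σ j with t | z
    · exact ⟨τ, σ, j, t, rfl, e⟩
    · simp [e] at h
  · simp [node] at h
  · simp [node] at h

theorem tb_mat (H : Ctx G D) {p : ℕ × ℕ} (hp : p ∈ D.A) (τ s : Bool) :
    D.tb τ (blk τ p) s = D.tm p (D.sd τ p s) := by
  have : (D.A.filter fun q => blk τ q = blk τ p) = {p} := by
    ext q
    simp only [mem_filter, mem_singleton]
    exact ⟨fun h => H.mat q h.1 p hp τ h.2, fun h => ⟨h ▸ hp, h ▸ rfl⟩⟩
  rw [tb, this, sum_singleton]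

theorem tb_un {τ s : Bool} {b : ℕ} (h : ∀ p ∈ D.A, blk τ p ≠ b) : D.tb τ b s = 0 := by
  rw [tb, filter_eq_empty_iff.2 h, sum_empty]

theorem count (H : Ctx G D) (τ : Bool) {b : ℕ} (hb : b < D.nb) (s : Bool)
    {_ : DecidablePred fun e => D.node e = some (τ, b, s)} :
    ((D.Lb ×ˢ (univ : Finset Bool)).filter fun e => D.node e = some (τ, b, s)).card =
      D.tp τ b s + (D.xm τ b + D.tb τ b s) := by
  rw [Lb, card_sum, card_sum]
  congr 1
  · symm
    refine card_bij (fun e _ => ((τ, e.1), e.2)) ?_ ?_ ?_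
    · rintro ⟨σ, j⟩ he
      simp only [mem_filter, mem_product, mem_univ, and_true] at he ⊢
      exact ⟨mem_LT.2 he.1, node_inl.2 ⟨rfl, he.2⟩⟩
    · rintro ⟨σ, j⟩ - ⟨σ', j'⟩ - e
      simpa using e
    · rintro ⟨⟨τ', σ⟩, j⟩ he
      simp only [mem_filter, mem_product, mem_univ, and_true] at he
      obtain ⟨rfl, h2⟩ := node_inl.1 he.2
      exact ⟨(σ, j), mem_filter.2 ⟨mem_product.2 ⟨mem_LT.1 he.1, mem_univ _⟩, h2⟩, rfl⟩
  congr 1
  · rw [← card_range (D.xm τ b)]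
    symm
    refine card_bij (fun y _ => ((τ, b, y), s)) ?_ ?_ ?_
    · intro y hy
      exact mem_filter.2 ⟨mem_product.2 ⟨mem_LX.2 ⟨hb, mem_range.1 hy⟩, mem_univ _⟩, rfl⟩
    · intro y _ y' _ e
      simpa using e
    · rintro ⟨⟨τ', b', y⟩, j⟩ he
      simp only [mem_filter, mem_product, mem_univ, and_true, node, Option.some.injEq,
        Prod.mk.injEq] at he
      obtain ⟨h1, rfl, rfl, rfl⟩ := he
      exact ⟨y, mem_range.2 (mem_LX.1 h1).2, rfl⟩
  · by_cases hp : ∃ p ∈ D.A, blk τ p = b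
    · obtain ⟨p, hp, rfl⟩ := hp
      rw [tb_mat H hp, ← Nat.add_sub_cancel_left (n := 2) (m := D.tm p (D.sd τ p s)),
        ← Nat.card_Ico]
      symm
      refine card_bij (fun y _ => ((p, D.sd τ p s, y), τ)) ?_ ?_ ?_
      · intro y hy
        refine mem_filter.2 ⟨mem_product.2 ⟨mem_LF.2 ⟨hp, mem_Ico.1 hy⟩, mem_univ _⟩, ?_⟩
        simp only [node, sd_sd]
      · intro y _ y' _ e
        simpa using e
      · rintro ⟨⟨q, s', y⟩, j⟩ he
        simp only [mem_filter, mem_product, mem_univ, and_true, node, Option.some.injEq,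
          Prod.mk.injEq] at he
        obtain ⟨h1, rfl, h2, rfl⟩ := he
        obtain ⟨a1, a2⟩ := mem_LF.1 h1
        obtain rfl := H.mat q a1 p hp j h2
        exact ⟨y, by rw [sd_sd]; exact mem_Ico.2 a2, by rw [sd_sd]⟩
    · rw [tb_un fun p h e => hp ⟨p, h, e⟩, card_eq_zero, filter_eq_empty_iff]
      rintro ⟨⟨q, s', y⟩, j⟩ he
      simp only [node, Option.some.injEq, Prod.mk.injEq]
      rintro ⟨rfl, h2, -⟩
      exact hp ⟨q, (mem_LF.1 (mem_product.1 he).1).1, h2⟩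

theorem touch (H : Ctx G D) {e : Lab × Bool} (o : D.Ok e.1) {v : Bool × ℕ × Bool}
    (h : D.node e = some v) : v.2.1 < D.nb ∧ D.cl e < 4 + (D.d v.1).M v.2.1 v.2.2 ∧
      Touch G (D.sg e.1) ((D.d v.1).nd v.2.1 v.2.2 (if D.cl e < 4 then 7 else 0) (D.cl e)) := by
  have hc0 := H.c0
  obtain ⟨⟨τ, σ⟩ | ⟨τ, b, y⟩ | ⟨p, s, y⟩, j⟩ := e
  · obtain ⟨τ', b, s⟩ := v
    obtain ⟨e, x, hx⟩ := node_inl.1 h
    dsimp only at e hx ⊢
    subst e
    have ok := mem_range.1 (H.Klt _ o)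
    obtain ⟨a1, a2, a3⟩ := (H.h _).ptP σ ok j _ _ _ hx
    simp only [cl, hx, Sum.elim_inr]
    rw [if_neg (by omega)]
    exact ⟨a1, by omega, a3.mono (at_sg H (a := Sum.inr (Sum.inr σ)) ok ⟨rfl, rfl⟩) subset_rfl⟩
  · obtain rfl : (τ, b, j) = v := by simpa [node] using h
    obtain ⟨hb, hy⟩ := o
    have := xm_le (D := D) τ b
    simp only [cl]
    rw [if_pos (by omega)]
    refine ⟨hb, by omega, ((H.h τ).nc b hb j y (by omega)).symm.mono
      (at_sg H (a := ce b _ y) ⟨hb, ?_, by omega⟩ (Or.inl ⟨rfl, _, rfl⟩)) subset_rfl⟩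
    split_ifs <;> omega
  · obtain rfl : (j, blk j p, D.sd j p s) = v := by simpa [node] using h
    obtain ⟨hp, y1, y2⟩ := o
    have := tm_le (D := D) p s
    have r5 := H.r5 p hp j
    simp only [cl]
    rw [if_pos (by omega)]
    refine ⟨H.lt p hp j, by omega, ((H.h j).nc _ (H.lt p hp j) _ y (by omega)).symm.mono
      (at_sg H (a := ce _ _ y) ⟨H.lt p hp j, ?_, by omega⟩ ⟨_, _, rfl, Or.inl ⟨rfl, ?_⟩⟩)
      subset_rfl⟩
    · split_ifs <;> omega
    · cases D.sd j p s <;> simp [jj]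
      omega

theorem inj (H : Ctx G D) {e f : Lab × Bool} (o1 : D.Ok e.1) (o2 : D.Ok f.1)
    (hn : D.node e ≠ none) (h1 : D.node e = D.node f) (h2 : D.cl e = D.cl f) : e = f := by
  obtain ⟨v, hv⟩ := Option.ne_none_iff_exists'.1 hn
  have hv' := h1.symm.trans hv
  have c1 : ∀ {τ σ j}, D.node (Sum.inl (τ, σ), j) = some v → 4 ≤ D.cl (Sum.inl (τ, σ), j) := by
    intro τ σ j h
    obtain ⟨-, x, hx⟩ := node_inl.1 h
    simp [cl, hx]
  have c2 : ∀ {τ b y j}, D.Ok (Sum.inr (Sum.inl (τ, b, y))) →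
      D.cl (Sum.inr (Sum.inl (τ, b, y)), j) < 2 := fun h => h.2.trans_le (xm_le _ _)
  have c3 : ∀ {p s y j}, D.Ok (Sum.inr (Sum.inr (p, s, y))) →
      2 ≤ D.cl (Sum.inr (Sum.inr (p, s, y)), j) ∧ D.cl (Sum.inr (Sum.inr (p, s, y)), j) < 4 :=
    fun {p s y j} h => ⟨h.2.1, by
      have := tm_le (D := D) p s
      have := h.2.2
      simp only [cl]
      omega⟩
  obtain ⟨⟨τ, σ⟩ | ⟨τ, b, y⟩ | ⟨p, s, y⟩, j⟩ := e <;>
    obtain ⟨⟨τ', σ'⟩ | ⟨τ', b', y'⟩ | ⟨p', s', y'⟩, j'⟩ := f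
  · obtain ⟨rfl, x, hx⟩ := node_inl.1 hv
    obtain ⟨e, x', hx'⟩ := node_inl.1 hv'
    subst e
    simp only [cl, hx, hx', Sum.elim_inr] at h2
    obtain rfl : x = x' := by omega
    obtain ⟨rfl, rfl⟩ := (H.h _).pti σ (mem_range.1 (H.Klt _ o1)) σ' (mem_range.1 (H.Klt _ o2))
      j j' (hx.trans hx'.symm)
    rfl
  · have := c1 hv; have := c2 (j := j') o2; omega
  · have := c1 hv; have := c3 (j := j') o2; omega
  · have := c1 hv'; have := c2 (j := j) o1; omega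
  · simp only [node, cl, Option.some.injEq, Prod.mk.injEq] at h1 h2
    obtain ⟨rfl, rfl, rfl⟩ := h1
    rw [h2]
  · have := c2 (j := j) o1; have := c3 (j := j') o2; omega
  · have := c1 hv'; have := c3 (j := j) o1; omega
  · have := c3 (j := j) o1; have := c2 (j := j') o2; omega
  · simp only [node, cl, Option.some.injEq, Prod.mk.injEq] at h1 h2
    obtain ⟨rfl, a2, a3⟩ := h1
    obtain rfl := H.mat p o1.1 p' o2.1 j a2
    rw [← sd_sd (D := D) j p s, a3, sd_sd, h2]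

theorem reach (H : Ctx G D) (Q : Bool × ℕ × Bool → Prop)
    (hQ : ∀ v, ∀ e : Lab × Bool, e.1 ∈ D.Lb → D.node e = some v →
      (∀ v', D.node (e.1, !e.2) = some v' → Q v') → Q v) :
    ∀ τ, ∀ b < D.nb, ∀ s, Q (τ, b, s) := by
  have gen : ∀ τ, (∀ b < D.nb, D.xm τ b = 0 → ∀ s, Q (τ, b, s)) → ∀ b < D.nb, ∀ s, Q (τ, b, s) := by
    intro τ h0
    have key : ∀ n, ∀ b < D.nb, (D.d τ).rD b = n → ∀ s, Q (τ, b, s) := by
      intro n
      induction n using Nat.strong_induction_on with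
      | _ n ih =>
      intro b hb hn s
      by_cases hx : D.xm τ b = 0
      · exact h0 b hb hx s
      obtain ⟨σ, hσ, j, ⟨s0, x, a1⟩, a2⟩ := (H.h τ).Dcon b hb
      have q0 : Q (τ, b, s0) := by
        refine hQ _ (Sum.inl (τ, σ), j) (mem_Lb.2 (H.DK τ hσ)) (node_inl.2 ⟨rfl, x, a1⟩) ?_
        rintro ⟨τ', b', s'⟩ hv
        obtain ⟨rfl, x', hx'⟩ := node_inl.1 hv
        exact ih _ (hn ▸ a2 _ _ _ hx') b'
          ((H.h _).ptP σ (mem_range.1 ((H.h _).Dlt hσ)) _ _ _ _ hx').1 rfl s'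
      by_cases hs : s = s0
      · exact hs ▸ q0
      refine hQ _ (Sum.inr (Sum.inl (τ, b, 0)), s) (mem_Lb.2 ⟨hb, by omega⟩) rfl fun v' hv => ?_
      obtain rfl : (τ, b, !s) = v' := by simpa [node] using hv
      rwa [show (!s) = s0 by cases s <;> cases s0 <;> simp at hs ⊢]
    exact fun b hb => key _ b hb rfl
  have hL : ∀ b < D.nb, ∀ s, Q (false, b, s) := gen false fun b _ h => by
    simp only [xm, mu, Bool.false_eq_true, false_and, if_false] at h
    omega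
  intro τ
  cases τ
  · exact hL
  refine gen true fun b hb h s => ?_
  by_cases hp : ∃ p ∈ D.A, p.2 = b
  · obtain ⟨p, hp, rfl⟩ := hp
    have := tm_le (D := D) p (D.sd true p s)
    refine hQ _ (Sum.inr (Sum.inr (p, D.sd true p s, 2)), true) (mem_Lb.2 ⟨hp, le_rfl, by omega⟩)
      (by simp only [node, sd_sd]; rfl) fun v' hv => ?_
    obtain rfl : (false, blk false p, D.sd false p (D.sd true p s)) = v' := by
      simpa [node] using hv
    exact hL _ (H.lt p hp false) _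
  · simp only [xm, mu, hp, and_false, if_false] at h
    omega

theorem main (hN : NETStmt) (hG : GEOStmt) (hL : LINKStmt) [Fintype V] (H : Ctx G D)
    {Big : Finset V} (hB : ∀ τ, D.B τ ⊆ Big) (hM : D.Mr ⊆ Big) (v0 : V) {m : ℕ}
    (p1 : ∀ p ∈ D.A, Even (D.tp false p.1 false + D.tp false p.1 true +
      (D.tp true p.2 false + D.tp true p.2 true)))
    (p2 : ∀ τ, ∀ b < D.nb, (∀ p ∈ D.A, blk τ p ≠ b) → Even (D.tp τ b false + D.tp τ b true))
    (hm : 9 * m ≤ (D.A.filter fun p =>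
      Odd (D.tp false p.1 false + D.tp true p.2 (D.sd true p false))).card) :
    ∃ l, SeqOK G Big l ∧ m ≤ cnt (Mk (D.S false) (D.S true)) l := by
  have hair : ∀ τ l, Disjoint (D.sg l) (D.d τ).hair := fun τ l =>
    (disj_sg H (H.h τ).hsub fun a a1 _ => ((H.h τ).dh a a1).symm).symm
  refine netc hN hG Big D.Lb D.node D.cl (fun v => (D.d v.1).nd v.2.1 v.2.2)
    (fun v => 4 + (D.d v.1).M v.2.1 v.2.2) (fun v => v.2.1 < D.nb) D.sg (D.hv v0) ty
    (fun τ => (D.d τ).hair) (fun τ => (D.d τ).term) _ m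
    (fun e he f hf => inj H (mem_Lb.1 he) (mem_Lb.1 hf)) ?_
    (fun Q hQ v hv => reach H Q hQ v.1 v.2.1 hv v.2.2)
    (fun l hl => ⟨union_subset (union_subset ((side_sub _ _).trans (hB _)) ((mid_sub _).trans hM))
      ((side_sub _ _).trans (hB _)), sg_conn H (mem_Lb.1 hl), fun τ => hair τ l⟩)
    (fun l hl l' hl' => sg_disj H (mem_Lb.1 hl) (mem_Lb.1 hl'))
    (fun τ => ⟨(H.h τ).hsub.trans (hB τ), (H.h τ).tsub,
      allLinked hL (H.h τ).hv (H.h τ).free (H.h τ).tcard⟩)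
    (H.dB.mono (H.h false).hsub (H.h true).hsub) ?_ ?_ ?_ ?_
    (fun v hv => (H.h v.1).ndh _ hv _) (fun v hv => (H.h v.1).ndv _ hv _)
    (fun e he v hv => touch H (mem_Lb.1 he) hv) ?_
  · rintro ⟨τ, b, s⟩
    by_cases hb : b < D.nb
    · rw [count H τ hb, Nat.even_iff]
      by_cases hp : ∃ p ∈ D.A, blk τ p = b
      · obtain ⟨p, hp, rfl⟩ := hp
        have a1 := Nat.even_iff.1 (p1 p hp)
        cases τ
        · have e1 := tb_mat H hp false false
          have e2 := tb_mat H hp false true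
          simp only [xm, Bool.false_eq_true, false_and, if_false]
          simp only [tm, sd, blk, mu, Bool.false_eq_true, if_false] at e1 e2 ⊢
          cases s <;> cases ho : D.o p <;> simp [ho] at e1 e2 <;> omega
        · rw [tb_mat H hp, tm, sd_sd, show D.xm true (blk true p) = 0 from xm_mat hp]
          simp only [blk, mu, if_true]
          omega
      · have hp' : ∀ p ∈ D.A, blk τ p ≠ b := fun p h e => hp ⟨p, h, e⟩
        have a1 := Nat.even_iff.1 (p2 τ b hb hp')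
        rw [xm, if_neg (by rintro ⟨rfl, h⟩; exact hp h), tb_un hp', tb_un hp', mu]
        cases s <;> omega
    · rw [Nat.even_iff, card_eq_zero.2]
      simp only [filter_eq_empty_iff]
      exact fun e he h => hb (touch H (mem_Lb.1 (mem_product.1 he).1) h).1
  · intro e he hn
    obtain ⟨τ, σ, j, t, rfl, ht⟩ := node_none hn
    have ok := mem_range.1 (H.Klt _ (mem_Lb.1 he))
    obtain ⟨a1, a2⟩ := (H.h τ).ptT σ ok j t ht
    simp only [hv, ty, ht, Sum.elim_inl, id]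
    exact ⟨a1, a2.mono (at_sg H (a := Sum.inr (Sum.inr σ)) ok ⟨rfl, rfl⟩) subset_rfl⟩
  · intro e he f hf hn hn' h
    obtain ⟨τ, σ, j, t, rfl, ht⟩ := node_none hn
    obtain ⟨τ', σ', j', t', rfl, ht'⟩ := node_none hn'
    have ok := mem_range.1 (H.Klt _ (mem_Lb.1 he))
    have ok' := mem_range.1 (H.Klt _ (mem_Lb.1 hf))
    simp only [hv, ht, ht', Sum.elim_inl, id] at h
    subst h
    by_cases e : τ = τ'
    · subst e
      obtain ⟨rfl, rfl⟩ := (H.h τ).pti σ ok σ' ok' j j' (ht.trans ht'.symm)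
      rfl
    · exact (disjoint_left.1 (B_disj H e)
        ((H.h τ).hsub ((H.h τ).tsub ((H.h τ).ptT σ ok j t ht).1))
        ((H.h τ').hsub ((H.h τ').tsub ((H.h τ').ptT σ' ok' j' t ht').1))).elim
  · rintro ⟨τ, b, s⟩ hb i hi y hy
    have ok : (D.d τ).ok D.nb D.c (Sum.inl (b, s, i, y)) := ⟨hb, hi, hy⟩
    refine ⟨((H.h τ).sub _ ok).trans (hB τ), (H.h τ).conn _ ok, fun l _ =>
      disj_sg H ((H.h τ).sub _ ok) fun a a1 a2 => (H.h τ).disj _ a ok a1 ?_, fun τ' => ?_⟩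
    · rintro rfl
      rcases l with ⟨τ, σ⟩ | ⟨τ, b, y⟩ | ⟨p, s, y⟩
      · simp [PA] at a2
      · simp [PA, ce] at a2
      · simp [PA, ce] at a2
    · by_cases e : τ = τ'
      · subst e
        exact (H.h τ).dh _ ok
      · exact (B_disj H e).mono ((H.h τ).sub _ ok) (H.h τ').hsub
  · rintro ⟨τ, b, s⟩ hb i hi y hy ⟨τ', b', s'⟩ hb' i' hi' y' hy' hn
    have ok : (D.d τ).ok D.nb D.c (Sum.inl (b, s, i, y)) := ⟨hb, hi, hy⟩
    have ok' : (D.d τ').ok D.nb D.c (Sum.inl (b', s', i', y')) := ⟨hb', hi', hy'⟩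
    by_cases e : τ = τ'
    · subst e
      refine (H.h τ).disj _ _ ok ok' fun e => ?_
      simp only [Sum.inl.injEq, Prod.mk.injEq] at e
      obtain ⟨rfl, rfl, rfl, rfl⟩ := e
      simp at hn
    · exact (B_disj H e).mono ((H.h τ).sub _ ok) ((H.h τ').sub _ ok')
  · refine hm.trans (card_le_card_of_injOn (fun p => Sum.inr (Sum.inl (false, p.1, 0))) ?_ ?_)
    · intro p hp
      obtain ⟨hp, ho⟩ := mem_filter.1 hp
      have hx : D.xm false p.1 = 1 := by
        have e1 := tb_mat H hp false false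
        rw [Nat.odd_iff] at ho
        simp only [sd_false, tm, blk, mu, Bool.false_eq_true, if_false] at e1
        simp only [xm, Bool.false_eq_true, false_and, if_false, mu]
        omega
      have key : ∀ τ, ∃ v ∈ D.S τ, v ∈ D.sg (Sum.inr (Sum.inl (false, p.1, 0))) := fun τ => by
        have r5 := H.r5 p hp τ
        obtain ⟨v, a1, a2⟩ := (H.h τ).st _ (H.lt p hp τ) (D.rr τ p + 2) (by omega)
        exact ⟨v, a1, at_sg H (τ := τ) (l := Sum.inr (Sum.inl (false, p.1, 0)))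
          (a := ce _ (D.rr τ p + 2) 0) ⟨H.lt p hp τ, by omega, by omega⟩
          (Or.inr ⟨p, ⟨hp, rfl, rfl, rfl, hx⟩, 0, rfl⟩) a2⟩
      exact mem_filter.2 ⟨mem_Lb.2 ⟨H.lt p hp false, by omega⟩, key false, key true⟩
    · intro p hp q hq e
      exact H.mat p (mem_filter.1 hp).1 q (mem_filter.1 hq).1 false (by simpa [blk] using e)

end Dat

theorem ends_union {d : HD V} {F F' : Finset ℕ} (h : Disjoint F F') (b : ℕ) (s : Bool) :
    d.ends (F ∪ F') b s = d.ends F b s + d.ends F' b s := by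
  unfold HD.ends
  rw [union_product, filter_union, card_union_of_disjoint]
  exact disjoint_filter_filter (disjoint_left.2 fun e h1 h2 =>
    disjoint_left.1 h (mem_product.1 h1).1 (mem_product.1 h2).1)

/-- Exactly one of two statements holds. -/
def Xr (a b : Prop) : Prop := (a ∧ ¬ b) ∨ (b ∧ ¬ a)

theorem card_xor {α : Type} (S : Finset α) (P Q R X : α → Prop) [DecidablePred P]
    [DecidablePred Q] [DecidablePred R] {_ : DecidablePred X}
    (h : ∀ q, X q ↔ Xr (Xr (P q) (Q q)) (R q)) : (S.filter X).card % 2 =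
      ((S.filter P).card + (S.filter Q).card + (S.filter R).card) % 2 := by
  simp only [card_filter, ← sum_add_distrib]
  refine (sum_nat_mod _ _ _).trans (Eq.trans ?_ (sum_nat_mod _ _ _).symm)
  refine congrArg (· % 2) (sum_congr rfl fun q _ => ?_)
  by_cases h1 : P q <;> by_cases h2 : Q q <;> by_cases h3 : R q <;> simp [h, h1, h2, h3, Xr]

end Comb

open Comb

theorem comb (hA : TREEAStmt) (hT : TOGStmt) (hN : NETStmt) (hG : GEOStmt) (hL : LINKStmt) :
    COMBStmt := by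
  intro V _ G Big BL BR Mr SL EL SR ER nb c m dL dR A r r' o Mid hl hr b1 b2 b3 d1 d2 d3 c0 hlt hmat
    hmid hmd hm
  rcases Nat.eq_zero_or_pos m with rfl | hpos
  · exact ⟨[], ⟨by simp, by simp, by simp, by simp⟩, by simp⟩
  obtain ⟨p0, hp0⟩ := card_pos.1 (lt_of_lt_of_le (by omega) hm)
  obtain ⟨v0, -⟩ := ((hmid p0 (mem_filter.1 hp0).1).2.2 0 (by omega)).2.1.1
  let d : Bool → HD V := fun τ => cond τ dR dL
  have hh : ∀ τ, IsHalf G (cond τ BR BL) (cond τ SR SL) (cond τ ER EL) nb c (d τ) := fun τ => by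
    cases τ
    · exact hl
    · exact hr
  have lt : ∀ p ∈ A, ∀ τ, blk τ p < nb := fun p hp τ => by
    have := mem_product.1 (hlt hp)
    cases τ
    · exact mem_range.1 this.1
    · exact mem_range.1 this.2
  have mat : ∀ p ∈ A, ∀ q ∈ A, ∀ τ, blk τ p = blk τ q → p = q := fun p hp q hq τ e => by
    cases τ
    · exact hmat p hp q hq (Or.inl e)
    · exact hmat p hp q hq (Or.inr e)
  obtain ⟨S, hS, hc⟩ := hT A (A.filter fun p => ∃ q ∈ A, ¬ (dL.Cr q.1 p.1 ↔ dR.Cr q.2 p.2))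
    (fun p => dL.ends dL.D p.1 false + dR.ends dR.D p.2 (!o p))
    (fun q p => Xr (Xr (dL.Cr q.1 p.1) (dR.Cr q.2 p.2))
      (q = p ∧ Xr (false = dL.near p.1) ((!o p) = dR.near p.2))) (by
      intro p hp
      obtain ⟨hp, q, hq, h⟩ := mem_filter.1 hp
      have hne : q ≠ p := by
        rintro rfl
        exact h (iff_of_false ((hA hl).1.irr _ (lt q hq false)) ((hA hr).1.irr _ (lt q hq true)))
      refine ⟨q, hq, Or.inl ⟨?_, fun h => hne h.1⟩⟩
      unfold Xr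
      tauto)
  have hsub : ∀ τ, S.image (blk τ) ⊆ range nb := fun τ b hb => by
    obtain ⟨p, hp, rfl⟩ := mem_image.1 hb
    exact mem_range.2 (lt p (hS hp) τ)
  let D : Dat V := ⟨nb, c, d, fun τ => cond τ BR BL, fun τ => cond τ SR SL, fun τ => cond τ ER EL,
    Mr, A, fun τ => cond τ r' r, o, Mid, fun τ => (d τ).D ∪ (d τ).tog nb (S.image (blk τ))⟩
  have H : Dat.Ctx G D := by
    refine ⟨hh, d1, fun τ => ?_, c0, lt, mat, fun p hp τ => ?_, fun p hp j hj =>
      ⟨((hmid p hp).2.2 j hj).1, ((hmid p hp).2.2 j hj).2.1⟩, fun p hp τ j hj => ?_, hmd,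
      fun τ => union_subset (hh τ).Dlt ((hA (hh τ)).2 _ (hsub τ)).1, fun τ => subset_union_left⟩
    · cases τ
      · exact d2
      · exact d3
    · cases τ
      · exact (hmid p hp).1
      · exact (hmid p hp).2.1
    · cases τ
      · exact ((hmid p hp).2.2 j hj).2.2.1
      · have := ((hmid p hp).2.2 j hj).2.2.2.symm
        cases ho : o p
        · simp only [D, ho, Bool.false_eq_true, if_false] at this ⊢
          rwa [show r' p + 4 - j = r' p + (4 - j) by omega] at this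
        · simp only [D, ho, if_true] at this ⊢
          exact this
  have htp : ∀ τ, ∀ b < nb, ∀ s, D.tp τ b s % 2 = ((d τ).ends (d τ).D b s +
      (S.filter fun q => (d τ).Cr (blk τ q) b).card +
      if b ∈ S.image (blk τ) ∧ s = (d τ).near b then 1 else 0) % 2 := by
    intro τ b hb s
    obtain ⟨-, a2, a3⟩ := (hA (hh τ)).2 _ (hsub τ)
    have a4 := a3 b hb s
    have e : ((S.image (blk τ)).filter fun b' => (d τ).Cr b' b).card =
        (S.filter fun q => (d τ).Cr (blk τ q) b).card := by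
      rw [filter_image, card_image_of_injOn fun p hp q hq =>
        mat p (hS (mem_filter.1 hp).1) q (hS (mem_filter.1 hq).1) τ]
    rw [e] at a4
    have e2 : D.tp τ b s = (d τ).ends (d τ).D b s +
        (d τ).ends ((d τ).tog nb (S.image (blk τ))) b s := ends_union a2.symm b s
    unfold Nat.ModEq at a4
    by_cases hc : b ∈ S.image (blk τ) ∧ s = (d τ).near b
    · rw [if_pos hc] at a4 ⊢
      omega
    · rw [if_neg hc] at a4 ⊢
      omega
  have hmem : ∀ p ∈ A, ∀ τ, blk τ p ∈ S.image (blk τ) ↔ p ∈ S := fun p hp τ =>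
    ⟨fun h => by
      obtain ⟨q, hq, e⟩ := mem_image.1 h
      exact mat q (hS hq) p hp τ e ▸ hq, fun h => mem_image_of_mem _ h⟩
  have hsum : ∀ τ, ∀ b < nb, (D.tp τ b false + D.tp τ b true) % 2 =
      if b ∈ S.image (blk τ) then 1 else 0 := by
    intro τ b hb
    have a1 := htp τ b hb false
    have a2 := htp τ b hb true
    have a3 := Nat.even_iff.1 ((hh τ).Dev b hb)
    by_cases hb' : b ∈ S.image (blk τ) <;> cases hn : (d τ).near b <;>
      simp only [hb', hn, true_and, false_and, if_true, if_false, Bool.false_eq_true,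
        Bool.true_eq_false] at a1 a2 ⊢ <;> omega
  refine Dat.main hN hG hL H (fun τ => ?_) b3 v0 (fun p hp => ?_) (fun τ b hb h => ?_) ?_
  · cases τ
    · exact b1
    · exact b2
  · have a1 := hsum false _ (lt p hp false)
    have a2 := hsum true _ (lt p hp true)
    simp only [hmem p hp] at a1 a2
    rw [Nat.even_iff]
    change (D.tp false p.1 false + D.tp false p.1 true) % 2 = _ at a1
    change (D.tp true p.2 false + D.tp true p.2 true) % 2 = _ at a2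
    split_ifs at a1 a2 <;> omega
  · rw [Nat.even_iff, hsum τ b hb, if_neg]
    intro hb'
    obtain ⟨q, hq, e⟩ := mem_image.1 hb'
    exact h q (hS hq) e
  · refine le_trans (Nat.le_of_mul_le_mul_left (c := 2) (le_trans (by omega) (hm.trans hc))
      (by omega)) (card_le_card fun p hp => ?_)
    obtain ⟨hp, ho⟩ := mem_filter.1 hp
    have hp := (mem_filter.1 hp).1
    refine mem_filter.2 ⟨hp, ?_⟩
    have a1 := htp false _ (lt p hp false) false
    have a2 := htp true _ (lt p hp true) (!o p)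
    simp only [hmem p hp] at a1 a2
    have a4 : (S.filter fun q => q = p ∧ Xr (false = dL.near p.1) ((!o p) = dR.near p.2)).card =
        if p ∈ S ∧ Xr (false = dL.near p.1) ((!o p) = dR.near p.2) then 1 else 0 := by
      split_ifs with h
      · rw [card_eq_one]
        refine ⟨p, ?_⟩
        ext q
        simp only [mem_filter, mem_singleton]
        exact ⟨fun h => h.2.1, fun e => ⟨e ▸ h.1, e, h.2⟩⟩
      · rw [card_eq_zero, filter_eq_empty_iff]
        rintro q hq ⟨rfl, h'⟩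
        exact h ⟨hq, h'⟩
    rw [Nat.odd_iff] at ho ⊢
    rw [Nat.add_mod, card_xor S (fun q => dL.Cr q.1 p.1) (fun q => dR.Cr q.2 p.2)
      (fun q => q = p ∧ Xr (false = dL.near p.1) ((!o p) = dR.near p.2)) _ fun _ => Iff.rfl,
      a4] at ho
    change D.tp false p.1 false % 2 = (dL.ends dL.D p.1 false +
      (S.filter fun q => dL.Cr q.1 p.1).card +
      if p ∈ S ∧ false = dL.near p.1 then 1 else 0) % 2 at a1
    change D.tp true p.2 (!o p) % 2 = (dR.ends dR.D p.2 (!o p) +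
      (S.filter fun q => dR.Cr q.2 p.2).card +
      if p ∈ S ∧ (!o p) = dR.near p.2 then 1 else 0) % 2 at a2
    rw [show D.sd true p false = !o p by simp [Dat.sd, D]]
    have a5 : (if p ∈ S ∧ Xr (false = dL.near p.1) ((!o p) = dR.near p.2) then 1 else 0) % 2 =
        ((if p ∈ S ∧ false = dL.near p.1 then 1 else 0) +
          if p ∈ S ∧ (!o p) = dR.near p.2 then 1 else 0) % 2 := by
      by_cases h1 : p ∈ S <;> by_cases h2 : false = dL.near p.1 <;>
        by_cases h3 : (!o p) = dR.near p.2 <;> simp only [h1, h2, h3, Xr] <;> simp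
    generalize (if p ∈ S ∧ Xr (false = dL.near p.1) ((!o p) = dR.near p.2) then 1 else 0) = i3 at *
    generalize (if p ∈ S ∧ false = dL.near p.1 then 1 else 0) = i1 at *
    generalize (if p ∈ S ∧ (!o p) = dR.near p.2 then 1 else 0) = i2 at *
    omega

end Pool.Agent.MP_7be75d_co.Gen

end MrgPart2

-- marker of a merged file
example : 731051 + 494336 = 731051 + 494336 := rfl
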