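import Pool.Agent.MP_7be75d_co.Gen.Comb1

-- ======== part 0: formerly Pool.Agent.MP_7be75d_co.Gen.Cells1
section MrgPart0

/-! Tools for the modules CELLP and CELLS. -/

namespace Pool.Agent.MP_7be75d_co.Gen

open Finset
open scoped Classical

namespace Cells

variable {V κ τ : Type} {G : SimpleGraph V}

/-- The lanes with index in `T` form a symmetric cluster with region `U` and haven `β`. -/
structure Gd (G : SimpleGraph V) (D : CD V κ) (T : Finset κ) (U : Finset V)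
    (β : Finset V → Finset V) : Prop where
  hv : Haven G U T.card β
  sub : ∀ k ∈ T, D.lane k ⊆ U
  conn : ∀ k ∈ T, Conn G (D.lane k)
  disj : ∀ k ∈ T, ∀ k' ∈ T, k ≠ k' → Disjoint (D.lane k) (D.lane k')
  ma : ∀ k ∈ T, D.a k ∈ D.lane k
  mb : ∀ k ∈ T, D.b k ∈ D.lane k
  fa : Free β T.card (T.image D.a)
  fb : Free β T.card (T.image D.b)

section gd

variable {D : CD V κ} {T T' : Finset κ} {U : Finset V} {β : Finset V → Finset V}

theorem Gd.swp (h : Gd G D T U β) : Gd G (swp D) T U β :=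
  ⟨h.hv, h.sub, h.conn, h.disj, h.mb, h.ma, h.fb, h.fa⟩

theorem Gd.a_inj (h : Gd G D T U β) : Set.InjOn D.a T := fun i hi j hj e => by
  by_contra hn
  exact disjoint_left.1 (h.disj i hi j hj hn) (h.ma i hi) (e ▸ h.ma j hj)

theorem Gd.b_inj (h : Gd G D T U β) : Set.InjOn D.b T := h.swp.a_inj

theorem Gd.reindex {ι : Type} (h : Gd G D T U β) {e : ι → κ} {S : Finset ι}
    (he : Set.InjOn e S) (hT : ∀ i ∈ S, e i ∈ T) (U' : Finset V) (β' : Finset V → Finset V) :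
    Gd G (res D e U' β') S U β :=
  have hc : S.card ≤ T.card := card_le_card_of_injOn e hT he
  ⟨h.hv.le hc, fun i hi => h.sub _ (hT i hi), fun i hi => h.conn _ (hT i hi),
    fun i hi j hj hn => h.disj _ (hT i hi) _ (hT j hj) fun e => hn (he hi hj e),
    fun i hi => h.ma _ (hT i hi), fun i hi => h.mb _ (hT i hi),
    (h.fa.mono (image_subset_iff.2 fun i hi => mem_image_of_mem _ (hT i hi))).le hc,
    (h.fb.mono (image_subset_iff.2 fun i hi => mem_image_of_mem _ (hT i hi))).le hc⟩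

theorem Gd.mono (h : Gd G D T U β) (hT : T' ⊆ T) : Gd G D T' U β :=
  have := h.reindex (e := id) (S := T') (Set.injOn_id _) hT U β
  ⟨this.hv, this.sub, this.conn, this.disj, this.ma, this.mb, this.fa, this.fb⟩

theorem Gd.isSC [Fintype κ] (h : Gd G D univ D.reg D.β) : IsSC G D :=
  ⟨⟨h.hv, fun i => h.sub i (mem_univ _), fun i => h.conn i (mem_univ _),
    fun i j => h.disj i (mem_univ _) j (mem_univ _), fun i => h.ma i (mem_univ _),
    fun i => h.mb i (mem_univ _),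
    (free_image fun i j => h.a_inj (by simp) (by simp)).1 h.fa⟩,
    (free_image fun i j => h.b_inj (by simp) (by simp)).1 h.fb⟩

theorem gd_of [Fintype κ] (h : IsSC G D) : Gd G D univ D.reg D.β :=
  ⟨h.hv, fun i _ => h.sub i, fun i _ => h.conn i, fun i _ j _ => h.disj i j, fun i _ => h.ma i,
    fun i _ => h.mb i, free_a h.toIsCluster, h.free_b⟩

theorem Gd.back {ι : Type} {e : ι → κ} {S : Finset ι} {U' : Finset V} {β' : Finset V → Finset V}
    (h : Gd G (res D e U' β') S U β) (hT : ∀ k ∈ T, ∃ i ∈ S, e i = k) : Gd G D T U β := by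
  have hc : T.card ≤ S.card := card_le_card_of_surjOn e fun k hk => by simpa using hT k hk
  have key : ∀ p : κ → V, T.image p ⊆ S.image fun i => p (e i) := fun p =>
    image_subset_iff.2 fun k hk => by
      obtain ⟨i, hi, rfl⟩ := hT k hk
      exact mem_image_of_mem _ hi
  refine ⟨h.hv.le hc, fun k hk => ?_, fun k hk => ?_, fun k hk k' hk' hn => ?_, fun k hk => ?_,
    fun k hk => ?_, (h.fa.mono (key _)).le hc, (h.fb.mono (key _)).le hc⟩
  all_goals obtain ⟨i, hi, rfl⟩ := hT k hk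
  · exact h.sub i hi
  · exact h.conn i hi
  · obtain ⟨j, hj, rfl⟩ := hT k' hk'
    exact h.disj i hi j hj fun e => hn (e ▸ rfl)
  · exact h.ma i hi
  · exact h.mb i hi

theorem Gd.sub_empty (h : Gd G D T U β) {k : κ} (hk : k ∈ T) : D.lane k ⊆ β ∅ :=
  have hp : 0 < T.card := card_pos.2 ⟨k, hk⟩
  h.hv.absorb (by simpa using hp) (h.conn k hk) (h.sub k hk) (by simp) (h.ma k hk)
    (h.fa.sub_empty hp (mem_image_of_mem _ hk))

end gd

theorem free_ind {W : Type} {β : Finset V → Finset V} {K : ℕ} {S : Finset V} (h : Free β K S)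
    {I : Finset W} {p : W → V} (hp : Set.InjOn p I) (hS : ∀ w ∈ I, p w ∈ S) (Z : Finset V)
    (hZ : Z.card < K) : (I.filter fun w => p w ∉ β Z).card ≤ Z.card :=
  le_trans (card_le_card_of_injOn p (fun w hw => by
    simp only [coe_filter, Set.mem_ofPred_eq] at hw ⊢
    exact ⟨hS w hw.1, hw.2⟩) (hp.mono fun w hw => (mem_filter.1 hw).1)) (h Z hZ)

theorem free_hit {W : Type} {β : Finset V → Finset V} {K : ℕ} {S : Finset V} (h : Free β K S)
    {I : Finset W} {p : W → V} (hp : Set.InjOn p I) (hS : ∀ w ∈ I, p w ∈ S) (Z : Finset V)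
    (hZ : Z.card < K) (hI : Z.card < I.card) : ∃ w ∈ I, p w ∈ β Z := by
  by_contra hc
  push Not at hc
  have := free_ind h hp hS Z hZ
  rw [filter_true_of_mem hc] at this
  omega

/-- One of many wires is removed from a family of clusters. -/
theorem passl (hP : PASSStmt) (l : ℕ) : ∃ E, 0 < E ∧ ∀ {V κ : Type} [Fintype V]
    {G : SimpleGraph V} (D : ℕ → CD V κ) (U : ℕ → Finset V) {T0 T Wt : Finset κ} {s : ℕ}, 0 < s →
    (∀ j < l, ∃ β, Gd G (D j) T0 (U j) β) → T ⊆ T0 → Wt ⊆ T0 → Disjoint T Wt →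
    E * s ≤ T.card → E * s ≤ Wt.card → ∃ k ∈ Wt, ∃ Θ ⊆ T, Θ.card = s ∧
      ∀ j < l, ∃ β, Gd G (D j) Θ (U j \ (D j).lane k) β := by
  obtain ⟨E, hE⟩ := hP l 1
  refine ⟨E + 1, by omega, fun {V κ} _ {G} D U {T0 T Wt s} hs h h1 h2 h3 h4 h5 => ?_⟩
  choose! β hβ using h
  obtain ⟨T1, t1, t2⟩ := exists_subset_card_eq h4
  obtain ⟨k, Θ, β', a1, a2⟩ := hE (ι := T1) (κ := Wt) (G := G)
    (fun j => res (D j) Subtype.val (U j) (β j)) (fun k j => (D j).lane k)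
    (fun j hj => ((hβ j hj).reindex Subtype.val_injective.injOn (fun i _ => h1 (t1 i.2)) _ _).isSC)
    (fun k j hj => ⟨(hβ j hj).sub _ (h2 k.2), (hβ j hj).conn _ (h2 k.2), fun i =>
      (hβ j hj).disj _ (h2 k.2) _ (h1 (t1 i.2)) fun e =>
        disjoint_left.1 h3 (t1 i.2) (e ▸ k.2)⟩)
    (fun k k' hn j hj => (hβ j hj).disj _ (h2 k.2) _ (h2 k'.2) fun e => hn (Subtype.ext e))
    (by simp only [Fintype.card_coe]; omega)
    (by simp only [Fintype.card_coe]; nlinarith)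
  rw [Fintype.card_coe, t2] at a1
  have hs' : s ≤ (Θ.map (Function.Embedding.subtype _)).card := by
    rw [card_map]
    by_contra hc
    nlinarith
  obtain ⟨Θ', b1, b2⟩ := exists_subset_card_eq hs'
  refine ⟨k, k.2, Θ', fun i hi => ?_, b2, fun j hj => ⟨β' j, ?_⟩⟩
  · obtain ⟨i, -, rfl⟩ := mem_map.1 (b1 hi)
    exact t1 i.2
  · refine Gd.back (e := fun i : Θ => i.1.1) (gd_of (a2 j hj)) fun i hi => ?_
    obtain ⟨i, h, rfl⟩ := mem_map.1 (b1 hi)
    exact ⟨⟨i, h⟩, mem_univ _, rfl⟩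

theorem pass2 (hP : PASSStmt) : ∃ E, 0 < E ∧ ∀ {V κ : Type} [Fintype V]
    {G : SimpleGraph V} {D D' : CD V κ} {U U' : Finset V} {β β' : Finset V → Finset V}
    {T0 T Wt : Finset κ} {s : ℕ}, 0 < s → Gd G D T0 U β → Gd G D' T0 U' β' → T ⊆ T0 → Wt ⊆ T0 →
    Disjoint T Wt → E * s ≤ T.card → E * s ≤ Wt.card → ∃ k ∈ Wt, ∃ Θ ⊆ T, Θ.card = s ∧
      (∃ β, Gd G D Θ (U \ D.lane k) β) ∧ ∃ β, Gd G D' Θ (U' \ D'.lane k) β := by
  obtain ⟨E, h0, hE⟩ := passl hP 2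
  refine ⟨E, h0, fun {V κ} _ {G D D' U U' β β' T0 T Wt s} hs g g' h1 h2 h3 h4 h5 => ?_⟩
  obtain ⟨k, a1, Θ, a2, a3, a4⟩ := hE (G := G) (fun j => if j = 0 then D else D')
    (fun j => if j = 0 then U else U') hs (fun j _ => by
      split_ifs
      exacts [⟨_, g⟩, ⟨_, g'⟩]) h1 h2 h3 h4 h5
  exact ⟨k, a1, Θ, a2, a3, by simpa using a4 0 (by omega), by simpa using a4 1 (by omega)⟩

theorem exists_split {T : Finset κ} {s : ℕ} (h : 2 * s ≤ T.card) :
    ∃ A ⊆ T, ∃ B ⊆ T, Disjoint A B ∧ s ≤ A.card ∧ s ≤ B.card := by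
  obtain ⟨A, h1, h2⟩ := exists_subset_card_eq (show s ≤ T.card by omega)
  refine ⟨A, h1, T \ A, sdiff_subset, disjoint_sdiff, h2.ge, ?_⟩
  rw [card_sdiff_of_subset h1]
  omega

theorem conn_Ico {B : ℕ → Finset V} {lo hi : ℕ} (h : lo < hi)
    (hc : ∀ j, lo ≤ j → j < hi → Conn G (B j))
    (ht : ∀ j, lo ≤ j → j + 1 < hi → Touch G (B j) (B (j + 1))) :
    Conn G ((Ico lo hi).biUnion B) := by
  induction hi, h using Nat.le_induction with
  | base => simpa using hc lo le_rfl (by omega)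
  | succ n hn ih =>
    obtain ⟨n, rfl⟩ : ∃ k, n = k + 1 := ⟨n - 1, by omega⟩
    have : Ico lo (n + 1 + 1) = insert (n + 1) (Ico lo (n + 1)) := by
      ext x; simp only [mem_Ico, mem_insert]; omega
    rw [this, biUnion_insert]
    exact (hc _ (by omega) (by omega)).union_touch
      (ih (fun j h1 h2 => hc j h1 (by omega)) fun j h1 h2 => ht j h1 (by omega))
      ((ht n (by omega) (by omega)).symm.mono subset_rfl
        (subset_biUnion_of_mem B (mem_Ico.2 (by omega))))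

/-- A path of sets is cut into `k` consecutive groups, each with a member of `T`. -/
theorem spine {B : ℕ → Finset V} {u v k : ℕ} {T : Finset ℕ} (hc : ∀ j ≤ v, Conn G (B j))
    (ht : ∀ j < v, Touch G (B j) (B (j + 1)))
    (hd : ∀ i ≤ v, ∀ j ≤ v, i ≠ j → Disjoint (B i) (B j)) (hT : ∀ t ∈ T, u ≤ t ∧ t ≤ v)
    (hk : 0 < k) (hk' : k ≤ T.card) : ∃ (s : ℕ → ℕ) (Gp : ℕ → Finset V),
      (∀ i < k, s i ∈ T ∧ B (s i) ⊆ Gp i ∧ Conn G (Gp i) ∧ ∀ x ∈ Gp i, ∃ j ≤ v, x ∈ B j) ∧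
      (∀ i < k, ∀ j < k, i ≠ j → s i ≠ s j ∧ Disjoint (Gp i) (Gp j)) ∧
      (∀ i, i + 1 < k → Touch G (Gp i) (Gp (i + 1))) ∧ B u ⊆ Gp 0 ∧ B v ⊆ Gp (k - 1) := by
  obtain ⟨s, s1, s2⟩ : ∃ s : ℕ → ℕ, (∀ i < k, s i ∈ T) ∧ ∀ i, i + 1 < k → s i < s (i + 1) := by
    refine ⟨fun i => if h : i < T.card then T.orderEmbOfFin rfl ⟨i, h⟩ else 0, fun i hi => ?_,
      fun i hi => ?_⟩
    · simp only [dif_pos (hi.trans_le hk')]
      exact orderEmbOfFin_mem _ _ _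
    · simp only [dif_pos (show i < T.card by omega), dif_pos (hi.trans_le hk')]
      exact (T.orderEmbOfFin rfl).strictMono (Fin.mk_lt_mk.2 (by omega))
  obtain ⟨c, c0, ck, c1⟩ : ∃ c : ℕ → ℕ, c 0 = u ∧ c k = v + 1 ∧
      ∀ i < k, c i ≤ s i ∧ s i < c (i + 1) := by
    refine ⟨fun i => if i = 0 then u else if i < k then s i else v + 1, by simp,
      by simp [hk.ne'], fun i hi => ?_⟩
    have := hT _ (s1 i hi)
    have := s2 i
    simp only [hi, if_true, Nat.add_one_ne_zero, if_false]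
    split_ifs <;> omega
  have cm : ∀ i j, i ≤ j → j ≤ k → c i ≤ c j := fun i j h1 h2 => by
    induction j, h1 using Nat.le_induction with
    | base => rfl
    | succ n hn ih => have := c1 n (by omega); have := ih (by omega); omega
  have cv : ∀ i < k, c (i + 1) ≤ v + 1 := fun i hi => ck ▸ cm _ _ hi le_rfl
  have key : ∀ i j, i < j → j < k → s i ≠ s j ∧ Disjoint ((Ico (c i) (c (i + 1))).biUnion B)
      ((Ico (c j) (c (j + 1))).biUnion B) := fun i j h1 h2 => by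
    have := cm (i + 1) j h1 h2.le
    have := cv j h2
    have := c1 i (by omega)
    have := c1 j h2
    refine ⟨by omega, (disjoint_biUnion_left _ _ _).2 fun a ha =>
      (disjoint_biUnion_right _ _ _).2 fun b hb => ?_⟩
    rw [mem_Ico] at ha hb
    exact hd a (by omega) b (by omega) (by omega)
  refine ⟨s, fun i => (Ico (c i) (c (i + 1))).biUnion B, fun i hi => ?_, fun i hi j hj hn => ?_,
    fun i hi => ?_, ?_, ?_⟩
  · have := c1 i hi
    have := cv i hi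
    refine ⟨s1 i hi, subset_biUnion_of_mem B (mem_Ico.2 (c1 i hi)), conn_Ico (by omega)
      (fun j _ _ => hc j (by omega)) fun j _ _ => ht j (by omega), fun x hx => ?_⟩
    obtain ⟨j, h1, h2⟩ := mem_biUnion.1 hx
    exact ⟨j, by have := (mem_Ico.1 h1).2; omega, h2⟩
  · rcases lt_or_gt_of_ne hn with h | h
    · exact key i j h hj
    · exact ⟨(key j i h hi).1.symm, (key j i h hi).2.symm⟩
  · have := c1 i (by omega)
    have := c1 (i + 1) hi
    have := cv (i + 1) hi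
    have h := ht (c (i + 1) - 1) (by omega)
    rw [show c (i + 1) - 1 + 1 = c (i + 1) by omega] at h
    exact h.mono (subset_biUnion_of_mem B (mem_Ico.2 (by omega)))
      (subset_biUnion_of_mem B (mem_Ico.2 (by omega)))
  · have := c1 0 hk
    exact subset_biUnion_of_mem B (mem_Ico.2 (by omega))
  · have := c1 (k - 1) (by omega)
    have := hT _ (s1 (k - 1) (by omega))
    refine subset_biUnion_of_mem B (mem_Ico.2 ?_)
    rw [show k - 1 + 1 = k by omega]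
    omega

/-- A connected set with a prescribed number of elements of `X`. -/
theorem grow {ι : Type} [inst : DecidableEq ι] {Γ : SimpleGraph ι} {S X : Finset ι} (h : Conn Γ S)
    {z : ι} (hz : z ∈ S) (hX : X ⊆ S) {k : ℕ} (hk : 0 < k) (hk' : k ≤ X.card) :
    ∃ Ψ ⊆ S, z ∈ Ψ ∧ Conn Γ Ψ ∧ (X.filter (· ∈ Ψ)).card = k := by
  obtain rfl : inst = fun a b => Classical.propDecidable (a = b) := Subsingleton.elim _ _
  obtain ⟨Ψ, ⟨a1, a2, a3, a4⟩, hm⟩ := exists_max_of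
    (p := fun Ψ => Ψ ⊆ S ∧ z ∈ Ψ ∧ Conn Γ Ψ ∧ (X.filter (· ∈ Ψ)).card ≤ k) card S.card
    (fun _ h => card_le_card h.1) ⟨{z}, by simpa using hz, by simp, Conn.singleton z,
      (card_le_card (t := {z}) fun x hx => (mem_filter.1 hx).2).trans (by rw [card_singleton]; exact hk)⟩
  refine ⟨Ψ, a1, a2, a3, le_antisymm a4 (not_lt.1 fun hc => ?_)⟩
  obtain ⟨x, x1, x2⟩ := exists_not_mem_of_card_lt (hc.trans_le hk')
  obtain ⟨a, b, b1, b2, -, b4, b5⟩ := h.exit hz a2 (hX x1) fun e => x2 (mem_filter.2 ⟨x1, e⟩)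
  have := hm (insert b Ψ) ⟨insert_subset b4 a1, mem_insert_of_mem a2,
    a3.insert b1 b5, (card_le_card (t := insert b (X.filter (· ∈ Ψ))) fun y hy => by
      simp only [mem_filter, mem_insert] at hy ⊢
      tauto).trans ((card_insert_le _ _).trans hc)⟩
  rw [card_insert_of_notMem b2] at this
  omega

section shape

variable {J : SimpleGraph τ} {P : Finset τ} {m n : ℕ} {sp : ℕ → τ} {sd : τ → Bool}

theorem shape_ix (h : Shape J P m sp sd) : ∃ ix : τ → ℕ, (∀ i < m, ix (sp i) = i) ∧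
    ∀ t ∈ (range m).image sp, ix t < m ∧ sp (ix t) = t := by
  have : ∀ t, ∃ i, t ∈ (range m).image sp → i < m ∧ sp i = t := fun t => by
    by_cases ht : t ∈ (range m).image sp
    · obtain ⟨i, h1, h2⟩ := mem_image.1 ht
      exact ⟨i, fun _ => ⟨mem_range.1 h1, h2⟩⟩
    · exact ⟨0, fun h => absurd h ht⟩
  choose ix hx using this
  refine ⟨ix, fun i hi => ?_, hx⟩
  have := hx (sp i) (mem_image_of_mem _ (mem_range.2 hi))
  exact h.inj _ this.1 _ hi this.2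

theorem shape_le (h : Shape J P m sp sd) : m ≤ P.card := by
  simpa using card_le_card_of_injOn (s := range m) sp (fun i hi => h.mem i (by simpa using hi))
    fun i hi j hj => h.inj i (by simpa using hi) j (by simpa using hj)

/-- Sets along a spine: `Mi i` lies in `M` and touches the root `r i`. -/
structure Spn (G : SimpleGraph V) (M S : Finset V) (k : ℕ) (r : ℕ → V) (Mi : ℕ → Finset V)
    (pu pv : V) : Prop where
  sub : ∀ i < k, Mi i ⊆ M ∧ Conn G (Mi i) ∧ r i ∈ S ∧ Touch G {r i} (Mi i)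
  ne : ∀ i < k, ∀ j < k, i ≠ j → r i ≠ r j ∧ Disjoint (Mi i) (Mi j)
  tch : ∀ i, i + 1 < k → Touch G (Mi i) (Mi (i + 1))
  mu : pu ∈ Mi 0
  mv : pv ∈ Mi (k - 1)

/-- The sets along the spine, indexed by the vertices of the shape. -/
theorem Spn.lift {M S S' : Finset V} {r r' : ℕ → V} {Mi : ℕ → Finset V} {pu pv : V}
    (hs : Shape J P m sp sd) (h : Spn G M S m r Mi pu pv) (h' : Spn G M S' m r' Mi pu pv) :
    ∃ (p p' : τ → V) (N : τ → Finset V), Set.InjOn p ((range m).image sp : Finset τ) ∧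
      Set.InjOn p' ((range m).image sp : Finset τ) ∧
      (∀ t ∈ (range m).image sp, p t ∈ S ∧ p' t ∈ S' ∧ Conn G (N t) ∧ Touch G {p t} (N t) ∧
        Touch G {p' t} (N t)) ∧ (∀ t ∉ (range m).image sp, N t = ∅) ∧ (∀ t, N t ⊆ M) ∧
      (∀ t t', t ≠ t' → Disjoint (N t) (N t')) ∧
      (∀ i, i + 1 < m → Touch G (N (sp i)) (N (sp (i + 1)))) ∧ pu ∈ N (sp 0) ∧
      pv ∈ N (sp (m - 1)) := by
  obtain ⟨ix, i1, i2⟩ := shape_ix hs
  have hp := hs.pos
  have e : ∀ i < m, (if sp i ∈ (range m).image sp then Mi (ix (sp i)) else ∅) = Mi i :=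
    fun i hi => by rw [if_pos (mem_image_of_mem _ (mem_range.2 hi)), i1 i hi]
  have inj : ∀ {S r}, Spn G M S m r Mi pu pv →
      Set.InjOn (fun t => r (ix t)) ((range m).image sp : Finset τ) := fun h t ht t' ht' e => by
    by_contra hn
    exact (h.ne _ (i2 t ht).1 _ (i2 t' ht').1 fun e =>
      hn (by rw [← (i2 t ht).2, e, (i2 t' ht').2])).1 e
  refine ⟨fun t => r (ix t), fun t => r' (ix t),
    fun t => if t ∈ (range m).image sp then Mi (ix t) else ∅, inj h, inj h', fun t ht => ?_,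
    fun t ht => if_neg ht, fun t => ?_, fun t t' hn => ?_, fun i hi => ?_, ?_, ?_⟩
  · simp only [if_pos ht]
    have a := h.sub _ (i2 t ht).1
    have b := h'.sub _ (i2 t ht).1
    exact ⟨a.2.2.1, b.2.2.1, a.2.1, a.2.2.2, b.2.2.2⟩
  · beta_reduce
    split_ifs with ht
    exacts [(h.sub _ (i2 t ht).1).1, empty_subset _]
  · beta_reduce
    split_ifs with ht ht'
    · exact (h.ne _ (i2 t ht).1 _ (i2 t' ht').1 fun e =>
        hn (by rw [← (i2 t ht).2, e, (i2 t' ht').2])).2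
    all_goals simp
  · simp only [e i (by omega), e (i + 1) hi]
    exact h.tch i hi
  · simp only [e 0 hp]
    exact h.mu
  · simp only [e (m - 1) (by omega)]
    exact h.mv

/-- Extension of the four ports. -/
theorem ext {S S' Za Zu Zv Zb : Finset V} {pa pu pv pb qa qu qv qb : V}
    (h : CellV G n S pa pu pv pb) (ca : Conn G (insert pa Za)) (cu : Conn G (insert pu Zu))
    (cv : Conn G (insert pv Zv)) (cb : Conn G (insert pb Zb)) (ma : qa ∈ insert pa Za)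
    (mu : qu ∈ insert pu Zu) (mv : qv ∈ insert pv Zv) (mb : qb ∈ insert pb Zb)
    (hd : ∀ x, (x ∈ S → x ∉ Za ∧ x ∉ Zu ∧ x ∉ Zv ∧ x ∉ Zb) ∧
      (x ∈ Za → x ∉ Zu ∧ x ∉ Zv ∧ x ∉ Zb) ∧ (x ∈ Zu → x ∉ Zv ∧ x ∉ Zb) ∧ (x ∈ Zv → x ∉ Zb) ∧
      (x ∈ S ∨ x ∈ Za ∨ x ∈ Zu ∨ x ∈ Zv ∨ x ∈ Zb → x ∈ S')) :
    CellV G n S' qa qu qv qb := by
  intro τ J P m sp sd hs hn
  obtain ⟨ψ, A, B, f, h1, h2, h3, h4⟩ := h τ J P m sp sd hs hn
  have un : ∀ {X Z : Finset V} {p : V}, Conn G X → p ∈ X → Conn G (insert p Z) →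
      Conn G (X ∪ Z) := fun {X Z p} a b c => by
    have := a.union c b (mem_insert_self _ _)
    rwa [union_insert, insert_eq_of_mem (mem_union_left _ b)] at this
  obtain ⟨φ, e⟩ : ∃ φ : τ → Finset V, ∀ t x, x ∈ φ t ↔
      x ∈ ψ t ∨ (t = sp 0 ∧ x ∈ Zu) ∨ (t = sp (m - 1) ∧ x ∈ Zv) :=
    ⟨fun t => ψ t ∪ (if t = sp 0 then Zu else ∅) ∪ if t = sp (m - 1) then Zv else ∅,
      fun t x => by grind⟩
  have s : ∀ t, ψ t ⊆ φ t := fun t x hx => (e t x).2 (Or.inl hx)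
  have sA := f.subA
  have sB := f.subB
  refine ⟨φ, A ∪ Za, B ∪ Zb, ⟨fun t ht x hx => ?_, fun t ht => ?_, fun t ht t' ht' hn => ?_,
    fun t ht => ?_, fun t ht => ?_, fun x hx => ?_, fun x hx => ?_, un f.connA h1 ca,
    un f.connB h4 cb, ?_, fun x hx y hy a => (f.adj x hx y hy a).mono (s _) (s _),
    fun i hi => (f.spn i hi).mono (s _) (s _),
    fun t ht a => (f.tA t ht a).mono (s _) subset_union_left,
    fun t ht a => (f.tB t ht a).mono (s _) subset_union_left⟩, ?_, ?_, ?_, ?_⟩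
  · have := @f.sub t ht x
    have := hd x
    grind
  · have c1 : Conn G (ψ t ∪ if t = sp 0 then Zu else ∅) := by
      split_ifs with a
      exacts [un (f.conn t ht) (a ▸ h2) cu, by simpa using f.conn t ht]
    have c2 : Conn G ((ψ t ∪ if t = sp 0 then Zu else ∅) ∪ if t = sp (m - 1) then Zv else ∅) := by
      by_cases a : t = sp (m - 1)
      · rw [if_pos a]
        exact un c1 (mem_union_left _ (a ▸ h3)) cv
      · rw [if_neg a, union_empty]
        exact c1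
    convert c2 using 1
    ext x
    grind
  · refine disjoint_left.2 fun x h1 h2 => ?_
    have := @f.sub t ht x
    have := @f.sub t' ht' x
    have := @disjoint_left.1 (f.disj t ht t' ht' hn) x
    have := hd x
    grind
  · refine disjoint_left.2 fun x h1 h2 => ?_
    have := @f.sub t ht x
    have := @disjoint_left.1 (f.dA t ht) x
    have := hd x
    grind
  · refine disjoint_left.2 fun x h1 h2 => ?_
    have := @f.sub t ht x
    have := @disjoint_left.1 (f.dB t ht) x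
    have := hd x
    grind
  · have := hd x
    grind
  · have := hd x
    grind
  · refine disjoint_left.2 fun x h1 h2 => ?_
    have := @disjoint_left.1 f.dAB x
    have := hd x
    grind
  all_goals grind

/-- The trees on one side of the spine are grown in a haven. -/
theorem side [Fintype V] {U S : Finset V} {K : ℕ} {β : Finset V → Finset V} {I P' : Finset τ}
    {p : τ → V} {x : V} (hP : Peel J I P') (h : Haven G U K β) (hK : 2 * (P'.card + 1) < K)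
    (hf : Free β K S) (hS : S ⊆ U) (hx : x ∈ S) (hp : Set.InjOn p I)
    (hI : ∀ t ∈ I, p t ∈ S.erase x) : ∃ (B : τ → Finset V) (A : Finset V),
      (∀ t ∈ P', Conn G (B t) ∧ Touch G (B t) A) ∧ (∀ t, B t ⊆ U ∧ Disjoint (B t) A) ∧
      (∀ t ∉ P', B t = ∅) ∧ (∀ t t', t ≠ t' → Disjoint (B t) (B t')) ∧ A ⊆ U ∧ Conn G A ∧ x ∈ A ∧
      (∀ t ∈ I, p t ∈ B t) ∧ ∀ t ∈ P', ∀ t' ∈ P', J.Adj t t' → t ∉ I → Touch G (B t) (B t') := by
  have inj : Set.InjOn (fun o : Option τ => o.elim x p) (insertNone I : Finset (Option τ)) := by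
    rintro (_ | a) ha (_ | b) hb e
    · rfl
    · exact absurd e.symm (mem_erase.1 (hI b (by simpa using hb))).1
    · exact absurd e (mem_erase.1 (hI a (by simpa using ha))).1
    · rw [hp (by simpa using ha) (by simpa using hb) e]
  have mem : ∀ o ∈ insertNone I, o.elim x p ∈ S := by
    rintro (_ | a) ha
    exacts [hx, mem_of_mem_erase (hI a (by simpa using ha))]
  obtain ⟨B, Z, a1, a2, a3, a4, a5⟩ := growth (G := G) (J := J.map Function.Embedding.some)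
    (I := insertNone I) (J0 := insertNone P') (p := fun o => o.elim x p)
    ⟨insertNone.monotone hP.1, fun T h1 h2 h3 => by
      obtain ⟨w, b1, b2, b3⟩ := hP.2 (eraseNone T) (fun t ht => by
        simpa using h1 (some_mem_insertNone.2 ht)) (fun t ht => by
        simpa using h2 (mem_eraseNone.1 ht)) fun e => h3 (by
        rw [← e, insertNone_eraseNone, insert_eq_of_mem (h1 none_mem_insertNone)])
      refine ⟨some w, mem_eraseNone.1 b1, by simpa using b2, fun a ha b hb c1 c2 => ?_⟩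
      obtain ⟨_, a, c3, ⟨⟩, rfl⟩ := (SimpleGraph.map_adj _ _ _ _).1 c1
      obtain ⟨_, b, c4, ⟨⟩, rfl⟩ := (SimpleGraph.map_adj _ _ _ _).1 c2
      exact congrArg some (b3 a (mem_eraseNone.2 ha) b (mem_eraseNone.2 hb) c3 c4)⟩
    h (by rwa [card_insertNone]) inj (fun o ho => hS (mem o ho)) (free_ind hf inj mem)
  rw [card_insertNone] at a1
  have hZ : Z.card < K := by omega
  have a0 := a2 none none_mem_insertNone
  refine ⟨fun t => if t ∈ P' then B (some t) else ∅, B none ∪ β Z, fun t ht => ?_, fun t => ?_,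
    fun t ht => if_neg ht, fun t t' hn => ?_, union_subset a0.1 (h.subU hZ),
    a0.2.1.union_touch (h.conn Z hZ) a0.2.2.2, mem_union_left _ (a4 none none_mem_insertNone),
    fun t ht => ?_, fun t ht t' ht' a b => ?_⟩
  · have := a2 (some t) (by simpa using ht)
    simp only [if_pos ht]
    exact ⟨this.2.1, this.2.2.2.mono subset_rfl subset_union_right⟩
  · beta_reduce
    split_ifs with ht
    · have := a2 (some t) (by simpa using ht)
      exact ⟨this.1, disjoint_union_right.2 ⟨a3 _ (by simpa using ht) _ none_mem_insertNone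
        (by simp), this.2.2.1⟩⟩
    · simp
  · beta_reduce
    split_ifs with ht ht'
    · exact a3 _ (by simpa using ht) _ (by simpa using ht') (by simpa using hn)
    all_goals simp
  · simp only [if_pos (hP.1 ht)]
    exact a4 (some t) (by simpa using ht)
  · simp only [if_pos ht, if_pos ht']
    exact a5 _ (by simpa using ht) _ (by simpa using ht')
      ((SimpleGraph.map_adj _ _ _ _).2 ⟨t, t', a, rfl, rfl⟩) (by simpa using b)

theorem spine_adj (hs : Shape J P m sp sd) {ψ : τ → Finset V}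
    (h : ∀ i, i + 1 < m → Touch G (ψ (sp i)) (ψ (sp (i + 1)))) {x y : τ}
    (hx : x ∈ (range m).image sp) (hy : y ∈ (range m).image sp) (a : J.Adj x y) :
    Touch G (ψ x) (ψ y) := by
  obtain ⟨i, hi, rfl⟩ := mem_image.1 hx
  obtain ⟨j, hj, rfl⟩ := mem_image.1 hy
  rw [mem_range] at hi hj
  rcases hs.cons i hi j hj a with rfl | rfl
  exacts [h i hj, (h j hi).symm]

/-- A cell from a spine between two havens. -/
theorem core_path [Fintype V] {U1 U2 S1 S2 M : Finset V} {K : ℕ} {β1 β2 : Finset V → Finset V}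
    {x1 x2 pu pv : V} (h1 : Haven G U1 K β1) (h2 : Haven G U2 K β2) (hK : 2 * (n + 1) < K)
    (f1 : Free β1 K S1) (f2 : Free β2 K S2) (s1 : S1 ⊆ U1) (s2 : S2 ⊆ U2) (m1 : x1 ∈ S1)
    (m2 : x2 ∈ S2) (d1 : Disjoint U1 M) (d2 : Disjoint U2 M) (d3 : Disjoint U1 U2)
    (hsp : ∀ k, 0 < k → k ≤ n → ∃ r1 r2 Mi, Spn G M (S1.erase x1) k r1 Mi pu pv ∧
      Spn G M (S2.erase x2) k r2 Mi pu pv) : CellV G n (U1 ∪ M ∪ U2) x1 pu pv x2 := by
  intro τ J P m sp sd hs hn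
  obtain ⟨r1, r2, Mi, q1, q2⟩ := hsp m hs.pos ((shape_le hs).trans hn)
  obtain ⟨p1, p2, N, n1, n2, n3, n4, n5, n6, n7, n8, n9⟩ := q1.lift hs q2
  generalize hI : (range m).image sp = I at *
  have pl : ∀ c, Peel J I (P.filter fun t => t ∈ I ∨ sd t = c) := fun c =>
    ⟨fun t ht => mem_filter.2 ⟨(hI ▸ hs.peel.1) ht, Or.inl ht⟩, fun T a b =>
      (hI ▸ hs.peel.2) T a (b.trans (filter_subset _ _))⟩
  have cd : ∀ c, 2 * ((P.filter fun t => t ∈ I ∨ sd t = c).card + 1) < K := fun c => by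
    have := card_filter_le P fun t => t ∈ I ∨ sd t = c
    omega
  obtain ⟨B1, A1, a1, a2, a3, a4, a5, a6, a7, a8, a9⟩ := side (pl false) h1 (cd _) f1 s1 m1 n1
    fun t ht => (n3 t ht).1
  obtain ⟨B2, A2, b1, b2, b3, b4, b5, b6, b7, b8, b9⟩ := side (pl true) h2 (cd _) f2 s2 m2 n2
    fun t ht => (n3 t ht).2.1
  simp only [mem_filter] at a1 a3 a9 b1 b3 b9
  have u1 : ∀ t, B1 t ⊆ B1 t ∪ N t ∪ B2 t := fun t => subset_union_left.trans subset_union_left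
  have u2 : ∀ t, N t ⊆ B1 t ∪ N t ∪ B2 t := fun t => subset_union_right.trans subset_union_left
  have u3 : ∀ t, B2 t ⊆ B1 t ∪ N t ∪ B2 t := fun t => subset_union_right
  have sp' : ∀ i, i + 1 < m → Touch G (B1 (sp i) ∪ N (sp i) ∪ B2 (sp i))
      (B1 (sp (i + 1)) ∪ N (sp (i + 1)) ∪ B2 (sp (i + 1))) := fun i hi =>
    (n7 i hi).mono (u2 _) (u2 _)
  have one : ∀ x ∈ P, ∀ y ∈ P, J.Adj x y → x ∉ I →
      Touch G (B1 x ∪ N x ∪ B2 x) (B1 y ∪ N y ∪ B2 y) := fun x hx y hy a hx' => by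
    have : y ∈ I ∨ sd y = sd x := by
      by_cases hy' : y ∈ I
      exacts [Or.inl hy', Or.inr (hs.side x hx y hy (hI ▸ hx') (hI ▸ hy') a).symm]
    cases e : sd x
    · exact (a9 x ⟨hx, Or.inr e⟩ y ⟨hy, e ▸ this⟩ a hx').mono (u1 _) (u1 _)
    · exact (b9 x ⟨hx, Or.inr e⟩ y ⟨hy, e ▸ this⟩ a hx').mono (u3 _) (u3 _)
  have z : ∀ x t, (x ∈ B1 t → x ∈ U1 ∧ x ∉ A1) ∧ (x ∈ B2 t → x ∈ U2 ∧ x ∉ A2) ∧
      (x ∈ N t → x ∈ M) := fun x t =>
    ⟨fun h => ⟨(a2 t).1 h, disjoint_left.1 (a2 t).2 h⟩,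
      fun h => ⟨(b2 t).1 h, disjoint_left.1 (b2 t).2 h⟩, fun h => n5 t h⟩
  rw [disjoint_left] at d1 d2 d3
  refine ⟨fun t => B1 t ∪ N t ∪ B2 t, A1, A2, ⟨fun t ht x hx => ?_, fun t ht => ?_,
    fun t ht t' ht' hn => disjoint_left.2 fun x c1 c2 => ?_,
    fun t ht => disjoint_left.2 fun x c1 c2 => ?_, fun t ht => disjoint_left.2 fun x c1 c2 => ?_,
    a5.trans (subset_union_left.trans subset_union_left), b5.trans subset_union_right, a6, b6,
    disjoint_left.2 fun x c1 c2 => d3 (a5 c1) (b5 c2), fun x hx y hy a => ?_, sp',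
    fun t ht a => (a1 t ⟨ht, hI ▸ a⟩).2.mono (u1 _) subset_rfl,
    fun t ht a => (b1 t ⟨ht, hI ▸ a⟩).2.mono (u3 _) subset_rfl⟩, a7, u2 _ n8, u2 _ n9, b7⟩
  · have := z x t
    grind
  · by_cases hi : t ∈ I
    · have c := n3 t hi
      exact ((a1 t ⟨ht, Or.inl hi⟩).1.union_touch c.2.2.1
        (touch_of_mem c.2.2.2.1 (a8 t hi))).union_touch (b1 t ⟨ht, Or.inl hi⟩).1
        ((touch_of_mem c.2.2.2.2 (b8 t hi)).symm.mono subset_union_right subset_rfl)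
    · rw [n4 t hi]
      cases e : sd t
      · rw [b3 t (by simp [hi, e])]
        simpa using (a1 t ⟨ht, Or.inr e⟩).1
      · rw [a3 t (by simp [hi, e])]
        simpa using (b1 t ⟨ht, Or.inr e⟩).1
  · have := z x t
    have := z x t'
    have := @disjoint_left.1 (a4 t t' hn) x
    have := @disjoint_left.1 (b4 t t' hn) x
    have := @disjoint_left.1 (n6 t t' hn) x
    grind
  · have := z x t
    grind
  · have := z x t
    grind
  · by_cases hx' : x ∈ I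
    · by_cases hy' : y ∈ I
      · exact spine_adj (ψ := fun t => B1 t ∪ N t ∪ B2 t) hs sp' (hI ▸ hx') (hI ▸ hy') a
      · exact (one y hy x hx a.symm hy').symm
    · exact one x hx y hy a hx'

/-- A cell from a spine and lanes that touch both apices. -/
theorem core_star [Fintype V] (hGL : GLStmt) {U S M M' A B : Finset V} {K : ℕ}
    {β : Finset V → Finset V} {Gt : Finset ℕ} {b : ℕ → V} {L : ℕ → Finset V} {pa pu pv pb : V}
    (h : Haven G U K β) (hK : 2 * n < K) (f : Free β K S) (s : S ⊆ U)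
    (hX : ∀ Z : Finset V, Z.card < K → ∃ j ∈ Gt, b j ∈ β Z)
    (hL : ∀ j ∈ Gt, L j ⊆ M' ∧ Conn G (L j) ∧ Touch G {b j} (L j) ∧ Touch G (L j) A ∧
      Touch G (L j) B) (hd : ∀ i ∈ Gt, ∀ j ∈ Gt, i ≠ j → Disjoint (L i) (L j))
    (cA : Conn G A) (cB : Conn G B) (ma : pa ∈ A) (mb : pb ∈ B)
    (hz : ∀ x, (x ∈ U → x ∉ M ∧ x ∉ M' ∧ x ∉ A ∧ x ∉ B) ∧ (x ∈ M → x ∉ M' ∧ x ∉ A ∧ x ∉ B) ∧
      (x ∈ M' → x ∉ A ∧ x ∉ B) ∧ (x ∈ A → x ∉ B))
    (hsp : ∀ k, 0 < k → k ≤ n → ∃ r Mi, Spn G M S k r Mi pu pv) :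
    CellV G n (U ∪ M ∪ M' ∪ A ∪ B) pa pu pv pb := by
  intro τ J P m sp sd hs hn
  obtain ⟨r, Mi, q⟩ := hsp m hs.pos ((shape_le hs).trans hn)
  obtain ⟨p, p', N, n1, -, n3, n4, n5, n6, n7, n8, n9⟩ := q.lift hs q
  obtain ⟨T, a1, a2, a3, a4⟩ := hGL (X := Gt.image b) hs.peel h (by omega) n1
    (fun t ht => s (n3 t ht).1) (free_ind f n1 fun t ht => (n3 t ht).1) fun Z hZ => by
      obtain ⟨j, c1, c2⟩ := hX Z hZ
      exact ⟨_, mem_image_of_mem _ c1, c2⟩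
  have : ∀ t, ∃ j, t ∈ P → j ∈ Gt ∧ b j ∈ T t := fun t => by
    by_cases ht : t ∈ P
    · obtain ⟨x, c1, c2⟩ := (a1 t ht).2.2
      obtain ⟨j, c3, rfl⟩ := mem_image.1 c1
      exact ⟨j, fun _ => ⟨c3, c2⟩⟩
    · exact ⟨0, fun h => absurd h ht⟩
  choose g hg using this
  have u1 : ∀ t, T t ⊆ T t ∪ L (g t) ∪ N t := fun t => subset_union_left.trans subset_union_left
  have u2 : ∀ t, L (g t) ⊆ T t ∪ L (g t) ∪ N t := fun t =>
    subset_union_right.trans subset_union_left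
  have u3 : ∀ t, N t ⊆ T t ∪ L (g t) ∪ N t := fun t => subset_union_right
  have sp' : ∀ i, i + 1 < m → Touch G (T (sp i) ∪ L (g (sp i)) ∪ N (sp i))
      (T (sp (i + 1)) ∪ L (g (sp (i + 1))) ∪ N (sp (i + 1))) := fun i hi =>
    (n7 i hi).mono (u3 _) (u3 _)
  have z : ∀ x, ∀ t ∈ P, (x ∈ T t → x ∈ U) ∧ (x ∈ L (g t) → x ∈ M') ∧ (x ∈ N t → x ∈ M) :=
    fun x t ht => ⟨fun h => (a1 t ht).1 h, fun h => (hL _ (hg t ht).1).1 h, fun h => n5 t h⟩
  refine ⟨fun t => T t ∪ L (g t) ∪ N t, A, B, ⟨fun t ht x hx => ?_, fun t ht => ?_,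
    fun t ht t' ht' hn => disjoint_left.2 fun x c1 c2 => ?_,
    fun t ht => disjoint_left.2 fun x c1 c2 => ?_, fun t ht => disjoint_left.2 fun x c1 c2 => ?_,
    subset_union_right.trans subset_union_left, subset_union_right, cA, cB,
    disjoint_left.2 fun x => (hz x).2.2.2, fun x hx y hy a => ?_, sp',
    fun t ht _ => (hL _ (hg t ht).1).2.2.2.1.mono (u2 _) subset_rfl,
    fun t ht _ => (hL _ (hg t ht).1).2.2.2.2.mono (u2 _) subset_rfl⟩, ma, u3 _ n8, u3 _ n9, mb⟩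
  · have := z x t ht
    grind
  · have c := (a1 t ht).2.1.union_touch (hL _ (hg t ht).1).2.1
      (touch_of_mem (hL _ (hg t ht).1).2.2.1 (hg t ht).2)
    by_cases hi : t ∈ (range m).image sp
    · exact c.union_touch (n3 t hi).2.2.1
        (touch_of_mem (n3 t hi).2.2.2.1 (mem_union_left _ (a3 t hi)))
    · rwa [n4 t hi, union_empty]
  · have := z x t ht
    have := z x t' ht'
    have d := a2 t ht t' ht' hn
    have := @disjoint_left.1 d x
    have := @disjoint_left.1 (hd _ (hg t ht).1 _ (hg t' ht').1 fun e =>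
      disjoint_left.1 d (hg t ht).2 (e ▸ (hg t' ht').2)) x
    have := @disjoint_left.1 (n6 t t' hn) x
    have := hz x
    grind
  · have := z x t ht
    have := hz x
    grind
  · have := z x t ht
    have := hz x
    grind
  · by_cases hx' : x ∈ (range m).image sp
    · by_cases hy' : y ∈ (range m).image sp
      · exact spine_adj (ψ := fun t => T t ∪ L (g t) ∪ N t) hs sp' hx' hy' a
      · exact ((a4 y hy x hx a.symm hy').mono (u1 _) (u1 _)).symm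
    · exact (a4 x hx y hy a hx').mono (u1 _) (u1 _)

end shape

end Cells

end Pool.Agent.MP_7be75d_co.Gen

end MrgPart0

-- ======== part 1: formerly Pool.Agent.MP_7be75d_co.Gen.Cells
section MrgPart1

/-! Cells from a path across many lanes and from a star (modules CELLP and CELLS). -/

namespace Pool.Agent.MP_7be75d_co.Gen

open Finset
open scoped Classical

namespace Cells

variable {V : Type} {G : SimpleGraph V}

/-- Three clusters and `m` lanes between the first two, all indexed by the lanes. -/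
structure Fm (G : SimpleGraph V) (R0 Mid R1 R2 : Finset V) (D0 D1 D2 : CD V ℕ)
    (L : ℕ → Finset V) (m : ℕ) : Prop where
  g0 : ∃ β, Gd G D0 (range m) R0 β
  g1 : ∃ β, Gd G D1 (range m) R1 β
  g2 : ∃ β, Gd G D2 (range m) R2 β
  lane : ∀ j < m, L j ⊆ Mid ∧ Conn G (L j) ∧ Touch G {D0.b j} (L j) ∧ Touch G {D1.a j} (L j) ∧
    G.Adj (D1.b j) (D2.a j)
  disj : ∀ i < m, ∀ j < m, i ≠ j → Disjoint (L i) (L j)
  z : ∀ x, (x ∈ R0 → x ∉ Mid ∧ x ∉ R1 ∧ x ∉ R2) ∧ (x ∈ Mid → x ∉ R1 ∧ x ∉ R2) ∧ (x ∈ R1 → x ∉ R2)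

theorem frame {ι : Type} [Fintype ι] {C : ℕ → CD V ι} {m n : ℕ} {L : ℕ → Finset V}
    (h : SPoS G 16 C) (hm : 0 < m) (hL : Thru G (Reg (fun j => C (1 + j)) 13)
      (St fun j => C (1 + j)) (En (fun j => C (1 + j)) 13) m L)
    (hc : ∀ R0 R1 R2 D0 D1 D2, Fm G R0 (Reg (fun j => C (1 + j)) 13) R1 R2 D0 D1 D2 L m →
      ∃ x < m, ∃ x' < m, ∃ y < m, ∃ y' < m, x ≠ x' ∧ y ≠ y' ∧ ∀ S,
        R0 ∪ Reg (fun j => C (1 + j)) 13 ∪ R1 ∪ R2 ⊆ S →
        CellV G n S (D0.a x) (D0.a x') (D2.b y) (D2.b y')) :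
    ∃ x x' y y', x ≠ x' ∧ y ≠ y' ∧
      CellV G n (Reg C 16) ((C 0).a x) ((C 0).a x') ((C 15).b y) ((C 15).b y') := by
  have h1 : ∀ j < m, ∃ i, (C 1).a i ∈ L j := fun j hj => by
    obtain ⟨s, a, b⟩ := (hL.thr j hj).1
    obtain ⟨i, -, rfl⟩ := mem_image.1 a
    exact ⟨i, b⟩
  have h2 : ∀ j < m, ∃ i, (C 13).b i ∈ L j := fun j hj => by
    obtain ⟨s, a, b⟩ := (hL.thr j hj).2
    obtain ⟨i, -, rfl⟩ := mem_image.1 a
    exact ⟨i, b⟩
  have : Nonempty ι := ⟨(h1 0 hm).choose⟩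
  choose! α hα using h1
  choose! ω hω using h2
  have inj : ∀ {p : ι → V} {e : ℕ → ι}, (∀ j < m, p (e j) ∈ L j) →
      Set.InjOn e (range m : Finset ℕ) := fun hp i hi j hj e => by
    by_contra hn
    simp only [coe_range, Set.mem_Iio] at hi hj
    exact disjoint_left.1 (hL.disj i hi j hj hn) (hp i hi) (e ▸ hp j hj)
  have z : ∀ i < 16, ∀ j < 16, ∀ x, x ∈ (C i).reg → x ∈ (C j).reg → i = j := fun i hi j hj x a b => by
    by_contra hn
    exact disjoint_left.1 (h.disj i hi j hj hn) a b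
  have zm : ∀ x ∈ Reg (fun j => C (1 + j)) 13, ∃ j, 1 ≤ j ∧ j ≤ 13 ∧ x ∈ (C j).reg := fun x hx => by
    obtain ⟨j, a, b⟩ := mem_Reg.1 hx
    exact ⟨1 + j, by omega, by omega, b⟩
  obtain ⟨x, a1, x', a2, y, a3, y', a4, a5, a6, a7⟩ := hc (C 0).reg (C 14).reg (C 15).reg
    (res (C 0) α ∅ id) (res (C 14) ω ∅ id) (res (C 15) ω ∅ id)
    ⟨⟨_, (gd_of (h.cl 0 (by omega))).reindex (inj hα) (fun _ _ => mem_univ _) _ _⟩,
      ⟨_, (gd_of (h.cl 14 (by omega))).reindex (inj hω) (fun _ _ => mem_univ _) _ _⟩,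
      ⟨_, (gd_of (h.cl 15 (by omega))).reindex (inj hω) (fun _ _ => mem_univ _) _ _⟩,
      fun j hj => ⟨hL.sub j hj, hL.conn j hj,
        ⟨_, mem_singleton_self _, _, hα j hj, h.adj 0 (by omega) _⟩,
        ⟨_, mem_singleton_self _, _, hω j hj, (h.adj 13 (by omega) _).symm⟩,
        h.adj 14 (by omega) _⟩, hL.disj, fun x => by
        have w11 := zm x
        clear * - w11 z
        grind⟩
  refine ⟨α x, α x', ω y, ω y', fun e => a5 (inj hα (by simpa using a1) (by simpa using a2) e),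
    fun e => a6 (inj hω (by simpa using a3) (by simpa using a4) e), a7 _ fun v hv => ?_⟩
  have w11 := zm v
  have w12 := fun j hj => @reg_sub_Reg V ι C 16 j hj v
  clear * - w11 w12 hv
  grind

section core

variable [Fintype V] {D : CD V ℕ} {Θ T : Finset ℕ} {U : Finset V} {β : Finset V → Finset V}
  {n : ℕ}

omit [Fintype V] in
/-- One more free root on the other side. -/
theorem extra (hFE : FEStmt) (g : Gd G D Θ U β) (hT : T ⊆ Θ) (h1 : T.card ≤ n)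
    (h2 : 2 * n + 3 ≤ Θ.card) : ∃ x ∈ Θ, ∃ S ⊆ U, Free β Θ.card S ∧ D.a x ∈ S ∧
      ∀ j ∈ T, D.b j ∈ S.erase (D.a x) := by
  have c := card_image_le (s := T) (f := D.b)
  have sa : Θ.image D.a ⊆ U := image_subset_iff.2 fun j hj => g.sub j hj (g.ma j hj)
  have sb : T.image D.b ⊆ U := image_subset_iff.2 fun j hj => g.sub j (hT hj) (g.mb j (hT hj))
  obtain ⟨S, a1, a2, a3, a4⟩ := hFE (T.image D.b) (Θ.image D.a) (n + 1) g.hv (by omega) sb
    (by omega) (g.fb.mono (image_subset_image hT)) fun Z hZ => by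
      have b1 := g.fa Z (by omega)
      have b2 := card_filter_add_card_filter_not (s := Θ.image D.a) fun v => v ∈ β Z
      rw [card_image_of_injOn g.a_inj, filter_mem_eq_inter] at b2
      omega
  obtain ⟨v, b1, b2⟩ := exists_not_mem_of_card_lt (show (T.image D.b).card < S.card by omega)
  obtain ⟨x, b3, rfl⟩ := mem_image.1 ((mem_union.1 (a2 b1)).resolve_left b2)
  exact ⟨x, b3, S, a2.trans (union_subset sb sa), a4, b1, fun j hj =>
    mem_erase.2 ⟨fun e => b2 (e ▸ mem_image_of_mem _ hj), a1 (mem_image_of_mem _ hj)⟩⟩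

/-- A path of sets through first ends that stops at a second end. -/
theorem path (hGL : GLStmt) (g : Gd G D Θ U β) {N : ℕ} (h : 2 * (N + 1) < Θ.card) :
    ∃ y ∈ Θ, ∃ (s : ℕ → ℕ) (B : ℕ → Finset V),
      (∀ i ≤ N, s i ∈ Θ ∧ B i ⊆ U ∧ Conn G (B i) ∧ D.a (s i) ∈ B i) ∧
      (∀ i ≤ N, ∀ j ≤ N, i ≠ j → Disjoint (B i) (B j)) ∧
      (∀ i < N, Touch G (B i) (B (i + 1))) ∧ D.b y ∈ B N := by
  obtain ⟨y, hy⟩ : Θ.Nonempty := card_pos.1 (by omega)
  have inj : Set.InjOn (fun _ : ℕ => D.b y) ({N} : Finset ℕ) := by simp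
  obtain ⟨B, a1, a2, a3, a4⟩ := hGL (X := Θ.image D.a) (p := fun _ : ℕ => D.b y) (I := {N})
    (J := SimpleGraph.fromRel fun i j => j = i + 1) (J0 := range (N + 1))
    ⟨by simp, fun S h1 h2 h3 => by
      have ne : S.Nonempty := ⟨N, h1 (mem_singleton_self _)⟩
      refine ⟨S.min' ne, min'_mem _ _, fun e => h3 (subset_antisymm (fun x hx => ?_) h1),
        fun x hx y hy b1 b2 => ?_⟩
      · have := min'_le S x hx
        have := mem_range.1 (h2 hx)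
        rw [mem_singleton] at e ⊢
        omega
      · have := min'_le S x hx
        have := min'_le S y hy
        simp only [SimpleGraph.fromRel_adj] at b1 b2
        omega⟩
    g.hv (by simpa using h) inj (fun _ _ => g.sub y hy (g.mb y hy))
    (free_ind g.fb inj fun _ _ => mem_image_of_mem _ hy) fun Z hZ => by
      obtain ⟨j, b1, b2⟩ := free_hit g.fa g.a_inj (fun j hj => mem_image_of_mem _ hj) Z hZ hZ
      exact ⟨_, mem_image_of_mem _ b1, b2⟩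
  simp only [mem_range, Nat.lt_succ_iff] at a1 a2 a4
  have : ∀ i ≤ N, ∃ j ∈ Θ, D.a j ∈ B i := fun i hi => by simpa using (a1 i hi).2.2
  choose! s hs hs' using this
  exact ⟨y, hy, s, B, fun i hi => ⟨hs i hi, (a1 i hi).1, (a1 i hi).2.1, hs' i hi⟩, a2,
    fun i hi => a4 i hi.le _ hi (by simp) (by simpa using hi.ne), a3 N (mem_singleton_self _)⟩

omit [Fintype V] in
/-- A connected set that contains a prescribed number of lanes and avoids the others. -/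
theorem half (hF : FATStmt) (g : Gd G D Θ U β) {z k : ℕ} (hz : z ∈ Θ) (hT : T ⊆ Θ) (h1 : 0 < k)
    (h2 : k ≤ T.card) : ∃ A ⊆ U, ∃ Ψ : Finset ℕ, Conn G A ∧ z ∈ Ψ ∧
      (T.filter (· ∈ Ψ)).card = k ∧ (∀ i ∈ Ψ, D.lane i ⊆ A) ∧
      ∀ i ∈ Θ, i ∉ Ψ → Disjoint (D.lane i) A := by
  have : Nonempty Θ := ⟨⟨z, hz⟩⟩
  have h0 : (∅ : Finset V).card < Θ.card := card_pos.2 ⟨z, hz⟩
  obtain ⟨Q, a1, a2, -, a4⟩ := hF (fun i : Θ => D.lane i) (g.hv.conn ∅ h0)
    (fun i => ⟨g.sub_empty i.2, g.conn _ i.2⟩)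
    fun i j hn => g.disj _ i.2 _ j.2 fun e => hn (Subtype.ext e)
  obtain ⟨Q', e⟩ : ∃ Q' : ℕ → Finset V, ∀ i : Θ, Q' i = Q i :=
    ⟨fun i => if h : i ∈ Θ then Q ⟨i, h⟩ else ∅, fun i => dif_pos i.2⟩
  have c : Conn (tg G Q') Θ := by
    have := a4.biUnion (G := tg G Q') (f := fun i => {i.1}) (fun _ _ => Conn.singleton _)
      fun i _ j _ h => ⟨_, mem_singleton_self _, _, mem_singleton_self _,
        fun e => h.1 (Subtype.ext e), by rw [e, e]; exact h.2⟩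
    convert this using 1
    ext x
    simp
  obtain ⟨Ψ, b1, b2, b3, b4⟩ := grow c hz hT h1 h2
  have q := fun i hi => e ⟨i, hi⟩ ▸ a1 ⟨i, hi⟩
  refine ⟨Ψ.biUnion Q', biUnion_subset.2 fun i hi => (q i (b1 hi)).2.1.trans (g.hv.subU h0), Ψ,
    b3.biUnion (fun i hi => (q i (b1 hi)).2.2) fun _ _ _ _ h => h.2, b2, b4,
    fun i hi => (q i (b1 hi)).1.trans (subset_biUnion_of_mem Q' hi), fun i hi hi' =>
    (disjoint_biUnion_right _ _ _).2 fun j hj => ?_⟩
  have := a2 ⟨i, hi⟩ ⟨j, b1 hj⟩ fun e => hi' (by rw [Subtype.mk.injEq] at e; exact e ▸ hj)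
  rw [← e, ← e] at this
  exact this.mono_left (q i hi).1

omit [Fintype V] in
theorem conn_ins {p : V} {X : Finset V} (h : Conn G X) (ht : Touch G {p} X) :
    Conn G (insert p X) := by
  simpa using (Conn.singleton p).union_touch h ht

variable {R0 Mid R1 R2 : Finset V} {D0 D1 D2 : CD V ℕ} {L : ℕ → Finset V} {m : ℕ}

theorem cellp_core (hP : PASSStmt) (hFE : FEStmt) : ∃ E, 0 < E ∧ ∀ {V : Type} [Fintype V]
    {G : SimpleGraph V} {R0 Mid R1 R2 : Finset V} {D0 D1 D2 : CD V ℕ} {L : ℕ → Finset V}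
    {m n : ℕ}, Fm G R0 Mid R1 R2 D0 D1 D2 L m → (∀ j, j + 1 < m → Touch G (L j) (L (j + 1))) →
    E * (n + 1) ≤ m → ∃ x < m, ∃ x' < m, ∃ y < m, ∃ y' < m, x ≠ x' ∧ y ≠ y' ∧ ∀ S,
      R0 ∪ Mid ∪ R1 ∪ R2 ⊆ S → CellV G n S (D0.a x) (D0.a x') (D2.b y) (D2.b y') := by
  obtain ⟨E, h0, hE⟩ := pass2 hP
  refine ⟨9 * (E * E), by positivity, fun {V} _ {G R0 Mid R1 R2 D0 D1 D2 L m n} f ht hm => ?_⟩
  obtain ⟨_, g0⟩ := f.g0
  obtain ⟨_, g1⟩ := f.g1
  obtain ⟨_, g2⟩ := f.g2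
  obtain ⟨t, e⟩ : ∃ t, t = E * (E * (2 * n + 3)) := ⟨_, rfl⟩
  have t1 : 3 * t ≤ m := by nlinarith
  have t2 : E * (2 * n + 3) ≤ t := e ▸ Nat.le_mul_of_pos_left _ h0
  have rg : ∀ a b, b ≤ 3 * t → Ico a b ⊆ range m := fun a b h x hx => by
    rw [mem_Ico] at hx; rw [mem_range]; omega
  obtain ⟨u, u1, Θ1, a1, a2, ⟨β0, a3⟩, -⟩ := hE (T := Ico t (2 * t)) (Wt := Ico 0 t)
    (s := E * (2 * n + 3)) (by positivity) g0 g0 (rg _ _ (by omega)) (rg _ _ (by omega))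
    (Ico_disjoint_Ico_consecutive _ _ _).symm (by rw [Nat.card_Ico]; omega)
    (by rw [Nat.card_Ico]; omega)
  obtain ⟨v, v1, Θ, b1, b2, ⟨β2, b3⟩, -⟩ := hE (T := Θ1) (Wt := Ico (2 * t) (3 * t))
    (s := 2 * n + 3) (by positivity) g2 g2 (a1.trans (rg _ _ (by omega))) (rg _ _ le_rfl)
    ((Ico_disjoint_Ico_consecutive _ _ _).mono_left a1) a2.ge (by rw [Nat.card_Ico]; omega)
  rw [mem_Ico] at u1 v1
  have r : ∀ j ∈ Θ, t ≤ j ∧ j < 2 * t := fun j hj => mem_Ico.1 (a1 (b1 hj))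
  obtain ⟨T, c1, c2⟩ := exists_subset_card_eq (show n ≤ Θ.card by omega)
  have a4 := a3.mono b1
  obtain ⟨x, x1, S1, x2, x3, x4, x5⟩ := extra hFE a4 c1 c2.le b2.ge
  obtain ⟨y, y1, S2, y2, y3, y4, y5⟩ := extra hFE b3.swp c1 c2.le b2.ge
  have um : u ∈ range m := mem_range.2 (by omega)
  have vm : v ∈ range m := mem_range.2 (by omega)
  obtain ⟨_, p0, pu, p1, p2⟩ := (f.lane u (by omega)).2.2.1
  obtain ⟨_, q0, pv, q1, q2⟩ := (f.lane v (by omega)).2.2.2.1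
  rw [mem_singleton.1 p0] at p2
  rw [mem_singleton.1 q0] at q2
  have z := f.z
  have w0 := g0.sub u um
  have w1 := g1.sub v vm
  have w2 := g2.sub v vm
  have key := core_path (n := n) (M := Mid ∪ (R1 \ D1.lane v)) (pu := pu) (pv := pv) a4.hv b3.hv
    (by omega) x3 y3 x2 y2 x4 y4 (disjoint_left.2 fun x => by clear * - z; grind)
    (disjoint_left.2 fun x => by clear * - z; grind)
    (disjoint_left.2 fun x => by clear * - z; grind) fun k k1 k2 => by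
      obtain ⟨s, Gp, d1, d2, d3, d4, d5⟩ := spine (G := G) (B := L) (u := u) (v := v) (T := T)
        (fun j hj => (f.lane j (by omega)).2.1) (fun j hj => ht j (by omega))
        (fun i hi j hj => f.disj i (by omega) j (by omega))
        (fun j hj => by have := r j (c1 hj); omega) k1 (by omega)
      have sm : ∀ i < k, s i < m ∧ s i ≠ v := fun i hi => by
        have := r _ (c1 (d1 i hi).1); omega
      have gm : ∀ i < k, Gp i ⊆ Mid := fun i hi x hx => by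
        obtain ⟨j, h1, h2⟩ := (d1 i hi).2.2.2 x hx
        exact (f.lane j (by omega)).1 h2
      have lm := fun i hi => g1.sub _ (mem_range.2 (sm i hi).1)
      have one : ∀ {S : Finset V} {p : ℕ → V}, Set.InjOn p Θ → (∀ j ∈ T, p j ∈ S) →
          (∀ i < k, Touch G {p (s i)} (Gp i ∪ D1.lane (s i))) →
          Spn G (Mid ∪ (R1 \ D1.lane v)) S k (fun i => p (s i)) (fun i => Gp i ∪ D1.lane (s i))
            pu pv := fun {S p} e1 e2 e3 =>
        ⟨fun i hi => ⟨union_subset_union (gm i hi) (subset_sdiff.2 ⟨lm i hi,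
            g1.disj _ (mem_range.2 (sm i hi).1) _ vm (sm i hi).2⟩),
          (d1 i hi).2.2.1.union_touch (g1.conn _ (mem_range.2 (sm i hi).1))
            ((touch_of_mem (f.lane _ (sm i hi).1).2.2.2.1
              (g1.ma _ (mem_range.2 (sm i hi).1))).symm.mono (d1 i hi).2.1 subset_rfl),
          e2 _ (d1 i hi).1, e3 i hi⟩,
        fun i hi j hj hn => ⟨fun e => (d2 i hi j hj hn).1 (e1 (c1 (d1 i hi).1) (c1 (d1 j hj).1) e),
          disjoint_left.2 fun x h1 h2 => by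
            have w11 := @disjoint_left.1 (d2 i hi j hj hn).2 x
            have w12 := @disjoint_left.1 (g1.disj _ (mem_range.2 (sm i hi).1) _
              (mem_range.2 (sm j hj).1) (d2 i hi j hj hn).1) x
            have w13 := @gm i hi x
            have w14 := @gm j hj x
            have w15 := @lm i hi x
            have w16 := @lm j hj x
            clear * - w11 w12 w13 w14 w15 w16 h1 h2 z
            grind⟩,
        fun i hi => (d3 i hi).mono subset_union_left subset_union_left,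
        mem_union_left _ (d4 p1), mem_union_left _ (d5 q1)⟩
      exact ⟨_, _, _, one a4.b_inj x5 fun i hi => (f.lane _ (sm i hi).1).2.2.1.mono subset_rfl
        ((d1 i hi).2.1.trans subset_union_left), one b3.a_inj y5 fun i hi =>
        ⟨_, mem_singleton_self _, _, mem_union_right _ (g1.mb _ (mem_range.2 (sm i hi).1)),
          (f.lane _ (sm i hi).1).2.2.2.2.symm⟩⟩
  have := r x x1
  have := r y y1
  refine ⟨x, by omega, u, by omega, v, by omega, y, by omega, by omega, by omega, fun S hS =>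
    ext (Za := ∅) (Zu := D0.lane u) (Zv := D1.lane v ∪ D2.lane v) (Zb := ∅) key
      (Conn.singleton _) ((g0.conn u um).insert (g0.mb u um) p2)
      (((g1.conn v vm).union_adj (g2.conn v vm) (g1.mb v vm) (g2.ma v vm)
        (f.lane v (by omega)).2.2.2.2).insert (mem_union_left _ (g1.ma v vm)) q2)
      (Conn.singleton _) (mem_insert_self _ _) (mem_insert_of_mem (g0.ma u um))
      (mem_insert_of_mem (mem_union_right _ (g2.mb v vm))) (mem_insert_self _ _) fun x => ?_⟩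
  have w11 := @hS x
  clear * - w11 z w0 w1 w2
  grind

theorem stage2 (hP : PASSStmt) (hF : FATStmt) (hGL : GLStmt) : ∃ E, 0 < E ∧ ∀ {V : Type}
    [Fintype V] {G : SimpleGraph V} {R0 Mid R1 R2 Y : Finset V} {D0 D1 : CD V ℕ}
    {β0 β1 : Finset V → Finset V} {L B : ℕ → Finset V} {N n : ℕ},
    Gd G D0 (range (N + 1)) R0 β0 → Gd G D1 (range (N + 1)) R1 β1 →
    (∀ j ≤ N, L j ⊆ Mid ∧ Conn G (L j) ∧ Touch G {D0.b j} (L j) ∧ Touch G {D1.a j} (L j) ∧
      Disjoint Y (L j) ∧ Touch G Y (L j) ∧ B j ⊆ R2 ∧ Conn G (B j) ∧ Touch G {D1.b j} (B j)) →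
    (∀ i ≤ N, ∀ j ≤ N, i ≠ j → Disjoint (L i) (L j)) →
    (∀ i ≤ N, ∀ j ≤ N, i ≠ j → Disjoint (B i) (B j)) → (∀ i < N, Touch G (B i) (B (i + 1))) →
    Y ⊆ Mid → Conn G Y →
    (∀ x, (x ∈ R0 → x ∉ Mid ∧ x ∉ R1 ∧ x ∉ R2) ∧ (x ∈ Mid → x ∉ R1 ∧ x ∉ R2) ∧
      (x ∈ R1 → x ∉ R2)) → E * (n + 1) ≤ N → ∃ x ≤ N, ∃ x' ≤ N, x ≠ x' ∧ ∀ pv ∈ B N, ∀ pb ∈ Y,
      CellV G n (R0 ∪ Mid ∪ R1 ∪ R2) (D0.a x) (D0.a x') pv pb := by
  obtain ⟨E, h0, hE⟩ := pass2 hP
  refine ⟨16 * (E * E), by positivity, fun {V} _ {G R0 Mid R1 R2 Y D0 D1 β0 β1 L B N n} g0 g1 hL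
    dL dB tB hY cY z hm => ?_⟩
  obtain ⟨t, e⟩ : ∃ t, t = E * (2 * (E * (2 * (2 * n + 1)))) := ⟨_, rfl⟩
  have t1 : 2 * t ≤ N := by nlinarith
  have rg : ∀ a b, b ≤ N + 1 → Ico a b ⊆ range (N + 1) := fun a b h x hx => by
    rw [mem_Ico] at hx; rw [mem_range]; omega
  obtain ⟨u, u1, Θ2, a1, a2, ⟨γ0, a3⟩, γ1, a4⟩ := hE (T := Ico t (N + 1)) (Wt := Ico 0 t)
    (s := 2 * (E * (2 * (2 * n + 1)))) (by positivity) g0 g1 (rg _ _ le_rfl) (rg _ _ (by omega))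
    (Ico_disjoint_Ico_consecutive _ _ _).symm (by rw [Nat.card_Ico]; omega)
    (by rw [Nat.card_Ico]; omega)
  obtain ⟨T, s1, W, s2, s3, s4, s5⟩ := exists_split a2.ge
  obtain ⟨k, k1, Θ, b1, b2, ⟨γ, b3⟩, -⟩ := hE (s := 2 * (2 * n + 1)) (by positivity) a3 a3 s1 s2
    s3 s4 s5
  have k2 : k ∉ Θ := fun h => disjoint_left.1 s3 (b1 h) k1
  have b4 := b1.trans s1
  obtain ⟨A, c1, Ψ, c2, c3, c4, c5, c6⟩ := half hF a4 (k := 2 * n + 1) (s2 k1) b4 (by omega)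
    (by omega)
  have c7 := card_filter_add_card_filter_not (s := Θ) (· ∈ Ψ)
  generalize e1 : Θ.filter (· ∈ Ψ) = Gt at c4 c7
  generalize e2 : (Θ.filter fun i => i ∉ Ψ) = Gs at c7
  have gt : ∀ j ∈ Gt, j ∈ Θ ∧ j ∈ Ψ := fun j hj => mem_filter.1 (e1 ▸ hj)
  have gs : ∀ j ∈ Gs, j ∈ Θ ∧ j ∉ Ψ := fun j hj => mem_filter.1 (e2 ▸ hj)
  rw [mem_Ico] at u1
  have r : ∀ j ∈ Θ2, u < j ∧ j ≤ N := fun j hj => by have := mem_Ico.1 (a1 hj); omega
  have r1 : ∀ j ∈ Gt, u < j ∧ j ≤ N := fun j hj => r j (b4 (gt j hj).1)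
  have r2 : ∀ j ∈ Gs, u < j ∧ j ≤ N := fun j hj => r j (b4 (gs j hj).1)
  have kN := r k (s2 k1)
  have uN : u ≤ N := by omega
  have um : u ∈ range (N + 1) := mem_range.2 (by omega)
  have km : k ∈ range (N + 1) := mem_range.2 (by omega)
  obtain ⟨_, p0, pu, p1, p2⟩ := (hL u uN).2.2.2.2.2.2.2.2
  rw [mem_singleton.1 p0] at p2
  refine ⟨k, kN.2, u, uN, kN.1.ne', fun pv hv pb hb => ?_⟩
  have one : ∀ X : Finset ℕ, (∀ j ∈ X, j ∈ Θ) → ∀ x ∈ X.biUnion L,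
      x ∈ Mid ∧ x ∉ Y ∧ x ∉ L k ∧ x ∉ L u := fun X hX x hx => by
    obtain ⟨j, h1, h2⟩ := mem_biUnion.1 hx
    have := r j (b4 (hX j h1))
    exact ⟨(hL j this.2).1 h2, disjoint_right.1 (hL j this.2).2.2.2.2.1 h2,
      disjoint_left.1 (dL j this.2 k kN.2 fun e => k2 (e ▸ hX j h1)) h2,
      disjoint_left.1 (dL j this.2 u uN this.1.ne') h2⟩
  have o1 := one Gt fun j hj => (gt j hj).1
  have o2 := one Gs fun j hj => (gs j hj).1
  have o3 : ∀ x ∈ Gt.biUnion L, x ∉ Gs.biUnion L := fun x h1 h2 => by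
    obtain ⟨i, h1, h3⟩ := mem_biUnion.1 h1
    obtain ⟨j, h2, h4⟩ := mem_biUnion.1 h2
    exact disjoint_left.1 (dL i (r1 i h1).2 j (r2 j h2).2 fun e =>
      (gs j h2).2 (e ▸ (gt i h1).2)) h3 h4
  have o4 : ∀ x ∈ Gs.biUnion D1.lane, x ∈ R1 \ D1.lane u ∧ x ∉ A := fun x hx => by
    obtain ⟨j, h1, h2⟩ := mem_biUnion.1 hx
    exact ⟨a4.sub j (b4 (gs j h1).1) h2, disjoint_left.1 (c6 j (b4 (gs j h1).1) (gs j h1).2) h2⟩
  have sL := fun j (hj : j ∈ Gt) => subset_biUnion_of_mem L hj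
  have sL' := fun j (hj : j ∈ Gs) => subset_biUnion_of_mem L hj
  have sD := fun j (hj : j ∈ Gs) => subset_biUnion_of_mem D1.lane hj
  generalize Gt.biUnion L = M1 at o1 o3 sL
  generalize Gs.biUnion L = M2 at o2 o3 sL'
  generalize Gs.biUnion D1.lane = M3 at o4 sD
  have key := core_star hGL (n := n) (K := 2 * n + 1) (M := M2 ∪ M3 ∪ R2) (M' := M1) (Gt := Gt)
    (b := D0.b) (L := L) (pu := pu) (pv := pv) (b3.hv.le (by omega)) (by omega)
    (b3.fb.le (by omega)) (image_subset_iff.2 fun j hj => b3.sub j hj (b3.mb j hj))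
    (fun Z hZ => free_hit b3.fb (b3.b_inj.mono fun j hj => (gt j hj).1)
      (fun j hj => mem_image_of_mem _ (gt j hj).1) Z (by omega) (by omega))
    (fun j hj => have h := hL j (r1 j hj).2
      ⟨sL j hj, h.2.1, h.2.2.1, (touch_of_mem h.2.2.2.1
        (c5 j (gt j hj).2 (a4.ma j (b4 (gt j hj).1)))).symm, h.2.2.2.2.2.1.symm⟩)
    (fun i hi j hj => dL i (r1 i hi).2 j (r1 j hj).2) c2 cY (c5 k c3 (a4.ma k (s2 k1))) hb
    (fun x => by
      have w11 := z x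
      have w12 := o1 x
      have w13 := o2 x
      have w14 := o3 x
      have w15 := o4 x
      have w16 := @c1 x
      have w17 := @hY x
      clear * - w11 w12 w13 w14 w15 w16 w17
      grind) fun m m1 m2 => by
      obtain ⟨s, Gp, d1, d2, d3, d4, d5⟩ := spine (G := G) (B := B) (u := u) (v := N) (T := Gs)
        (fun j hj => (hL j hj).2.2.2.2.2.2.2.1) tB dB (fun j hj => by have := r2 j hj; omega) m1
        (by omega)
      have sm := fun i hi => (r2 _ (d1 i hi).1).2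
      have st := fun i hi => (gs _ (d1 i hi).1).1
      have gm : ∀ i < m, Gp i ⊆ R2 := fun i hi x hx => by
        obtain ⟨j, h1, h2⟩ := (d1 i hi).2.2.2 x hx
        exact (hL j h1).2.2.2.2.2.2.1 h2
      refine ⟨fun i => D0.b (s i), fun i => L (s i) ∪ D1.lane (s i) ∪ Gp i, fun i hi => ⟨
        union_subset_union (union_subset_union (sL' _ (d1 i hi).1) (sD _ (d1 i hi).1)) (gm i hi),
        ((hL _ (sm i hi)).2.1.union_touch (a4.conn _ (b4 (st i hi))) (touch_of_mem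
          (hL _ (sm i hi)).2.2.2.1 (a4.ma _ (b4 (st i hi)))).symm).union_touch (d1 i hi).2.2.1
          ((touch_of_mem (hL _ (sm i hi)).2.2.2.2.2.2.2.2
            (mem_union_right _ (a4.mb _ (b4 (st i hi))))).mono subset_rfl (d1 i hi).2.1),
        mem_image_of_mem _ (st i hi), (hL _ (sm i hi)).2.2.1.mono subset_rfl
          (subset_union_left.trans subset_union_left)⟩, fun i hi j hj hn => ⟨fun e =>
        (d2 i hi j hj hn).1 (b3.b_inj (st i hi) (st j hj) e), disjoint_left.2 fun x h1 h2 => ?_⟩,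
        fun i hi => (d3 i hi).mono subset_union_right subset_union_right,
        mem_union_right _ (d4 p1), mem_union_right _ (d5 hv)⟩
      have ne := (d2 i hi j hj hn).1
      have w11 := @disjoint_left.1 (d2 i hi j hj hn).2 x
      have w12 := @disjoint_left.1 (a4.disj _ (b4 (st i hi)) _ (b4 (st j hj)) ne) x
      have w13 := @disjoint_left.1 (dL _ (sm i hi) _ (sm j hj) ne) x
      have w14 := @gm i hi x
      have w15 := @gm j hj x
      have w16 := @a4.sub _ (b4 (st i hi)) x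
      have w17 := @a4.sub _ (b4 (st j hj)) x
      have w18 := @(hL _ (sm i hi)).1 x
      have w19 := @(hL _ (sm j hj)).1 x
      have w20 := z x
      clear * - w11 w12 w13 w14 w15 w16 w17 w18 w19 w20 h1 h2
      grind
  have lk := hL k kN.2
  have lu := hL u uN
  refine ext (Za := L k ∪ D0.lane k) (Zu := D1.lane u ∪ (L u ∪ D0.lane u)) (Zv := ∅) (Zb := ∅) key
    (conn_ins (lk.2.1.union_touch (g0.conn k km) (touch_of_mem lk.2.2.1 (g0.mb k km)).symm)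
      (lk.2.2.2.1.mono subset_rfl subset_union_left))
    (((g1.conn u um).union_touch (lu.2.1.union_touch (g0.conn u um)
      (touch_of_mem lu.2.2.1 (g0.mb u um)).symm) ((touch_of_mem lu.2.2.2.1 (g1.ma u um)).mono
        subset_rfl subset_union_left)).insert (mem_union_left _ (g1.mb u um)) p2)
    (Conn.singleton _) (Conn.singleton _) (mem_insert_of_mem (mem_union_right _ (g0.ma k km)))
    (mem_insert_of_mem (mem_union_right _ (mem_union_right _ (g0.ma u um)))) (mem_insert_self _ _)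
    (mem_insert_self _ _) fun x => ?_
  have w11 := z x
  have w12 := o1 x
  have w13 := o2 x
  have w14 := o4 x
  have w15 := @c1 x
  have w16 := @hY x
  have w17 := @lk.1 x
  have w18 := @lu.1 x
  have w19 := @disjoint_left.1 lk.2.2.2.2.1 x
  have w20 := @disjoint_left.1 lu.2.2.2.2.1 x
  have w21 := @disjoint_left.1 (dL k kN.2 u uN kN.1.ne') x
  have w22 := @a3.sub k (s2 k1) x
  have w23 := @g0.sub u um x
  have w24 := @g1.sub u um x
  clear * - w11 w12 w13 w14 w15 w16 w17 w18 w19 w20 w21 w22 w23 w24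
  grind

theorem cells_core (hP : PASSStmt) (hF : FATStmt) (hGL : GLStmt) : ∃ E, 0 < E ∧ ∀ {V : Type}
    [Fintype V] {G : SimpleGraph V} {R0 Mid R1 R2 Y : Finset V} {D0 D1 D2 : CD V ℕ}
    {L : ℕ → Finset V} {m n : ℕ}, Fm G R0 Mid R1 R2 D0 D1 D2 L m → Y ⊆ Mid → Conn G Y →
    (∀ j < m, Disjoint Y (L j) ∧ Touch G Y (L j)) →
    E * (n + 1) ≤ m → ∃ x < m, ∃ x' < m, ∃ y < m, ∃ y' < m, x ≠ x' ∧ y ≠ y' ∧ ∀ S,
      R0 ∪ Mid ∪ R1 ∪ R2 ⊆ S → CellV G n S (D0.a x) (D0.a x') (D2.b y) (D2.b y') := by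
  obtain ⟨E, h0, hE⟩ := pass2 hP
  obtain ⟨E', h1, hE'⟩ := stage2 hP hF hGL
  refine ⟨2 * (E * (5 * E')), by positivity,
    fun {V} _ {G R0 Mid R1 R2 Y D0 D1 D2 L m n} f hY cY tY hm => ?_⟩
  obtain ⟨β0, g0⟩ := f.g0
  obtain ⟨_, g1⟩ := f.g1
  obtain ⟨_, g2⟩ := f.g2
  obtain ⟨N, e⟩ : ∃ N, N = E' * (n + 1) := ⟨_, rfl⟩
  have hN : 0 < N := e ▸ by positivity
  obtain ⟨T, s1, W, s2, s3, s4, s5⟩ := exists_split (T := range m) (s := E * (5 * N)) (by
    rw [card_range, e]; exact le_trans (le_of_eq (by ring)) hm)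
  obtain ⟨k, k1, Θ, a1, a2, ⟨γ1, a3⟩, γ2, a4⟩ := hE (s := 5 * N) (by omega) g1 g2 s1 s2 s3 s4 s5
  have k2 : ∀ j ∈ Θ, j < m ∧ j ≠ k := fun j hj =>
    ⟨mem_range.1 (s1 (a1 hj)), fun e => disjoint_left.1 s3 (a1 hj) (e ▸ k1)⟩
  have km := s2 k1
  have lk := f.lane k (mem_range.1 km)
  obtain ⟨y, y1, s, B, b1, b2, b3, b4⟩ := path hGL a4 (N := N) (by omega)
  have inj : ∀ i ≤ N, ∀ j ≤ N, i ≠ j → s i ≠ s j := fun i hi j hj hn e =>
    disjoint_left.1 (b2 i hi j hj hn) (b1 i hi).2.2.2 (e ▸ (b1 j hj).2.2.2)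
  have inj' : Set.InjOn s (range (N + 1) : Finset ℕ) := fun i hi j hj e => by
    by_contra hn
    exact inj i (by simpa [Nat.lt_succ_iff] using hi) j (by simpa [Nat.lt_succ_iff] using hj) hn e
  have sm := fun i hi => k2 _ (b1 i hi).1
  have z := f.z
  obtain ⟨pb, p0, q, p1, p2⟩ := (tY k (mem_range.1 km)).2
  obtain ⟨x, x1, x', x2, x3, x4⟩ := hE' (G := G) (Mid := Mid \ L k) (R2 := R2 \ D2.lane k) (Y := Y)
    (L := fun i => L (s i)) (B := B) (N := N) (n := n)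
    (g0.reindex inj' (fun i hi => mem_range.2 (sm i (by simpa [Nat.lt_succ_iff] using hi)).1) ∅ id)
    (a3.reindex inj' (fun i hi => (b1 i (by simpa [Nat.lt_succ_iff] using hi)).1) ∅ id)
    (fun j hj => have l := f.lane _ (sm j hj).1
      ⟨subset_sdiff.2 ⟨l.1, f.disj _ (sm j hj).1 _ (mem_range.1 km) (sm j hj).2⟩, l.2.1, l.2.2.1,
        l.2.2.2.1, (tY _ (sm j hj).1).1, (tY _ (sm j hj).1).2, (b1 j hj).2.1, (b1 j hj).2.2.1,
        _, mem_singleton_self _, _, (b1 j hj).2.2.2, l.2.2.2.2⟩)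
    (fun i hi j hj hn => f.disj _ (sm i hi).1 _ (sm j hj).1 (inj i hi j hj hn)) b2 b3
    (subset_sdiff.2 ⟨hY, (tY k (mem_range.1 km)).1⟩) cY (fun x => by clear * - z; grind) e.ge
  refine ⟨s x, (sm x x1).1, s x', (sm x' x2).1, y, (k2 y y1).1, k, mem_range.1 km,
    inj x x1 x' x2 x3, (k2 y y1).2, fun S hS => ext (Za := ∅) (Zu := ∅) (Zv := ∅)
      (Zb := L k ∪ (D1.lane k ∪ D2.lane k)) (x4 _ b4 _ p0) (Conn.singleton _) (Conn.singleton _)
      (Conn.singleton _) ((lk.2.1.union_touch ((g1.conn k km).union_adj (g2.conn k km)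
        (g1.mb k km) (g2.ma k km) lk.2.2.2.2) ((touch_of_mem lk.2.2.2.1
          (mem_union_left _ (g1.ma k km))).symm)).insert (mem_union_left _ p1) p2.symm)
      (mem_insert_self _ _) (mem_insert_self _ _) (mem_insert_self _ _)
      (mem_insert_of_mem (mem_union_right _ (mem_union_right _ (g2.mb k km)))) fun x => ?_⟩
  have w11 := @hS x
  have w12 := z x
  have w13 := @lk.1 x
  have w14 := @g1.sub k km x
  have w15 := @g2.sub k km x
  clear * - w11 w12 w13 w14 w15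
  grind

end core

end Cells

open Cells in
theorem cellp (hP : PASSStmt) (hFE : FEStmt) : CELLPStmt := by
  obtain ⟨E, h0, hE⟩ := cellp_core hP hFE
  refine ⟨E, fun {V ι} _ _ {G C n m} h hm ⟨L, h1, h2⟩ => ?_⟩
  exact frame h (lt_of_lt_of_le (by positivity) hm) h1 fun _ _ _ _ _ _ f => hE f h2 hm

open Cells in
theorem cells (hP : PASSStmt) (hF : FATStmt) (hGL : GLStmt) : CELLSStmt := by
  obtain ⟨E, h0, hE⟩ := cells_core hP hF hGL
  refine ⟨E, fun {V ι} _ _ {G C n m} h hm ⟨L, Y, h1, h2, h3, h4⟩ => ?_⟩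
  exact frame h (lt_of_lt_of_le (by positivity) hm) h1 fun _ _ _ _ _ _ f => hE f h2 h3 h4 hm

end Pool.Agent.MP_7be75d_co.Gen

end MrgPart1

-- ======== part 2: formerly Pool.Agent.MP_7be75d_co.Gen.Cut1
section MrgPart2

/-! Rooted forests: descendants, tops of connected sets, hitting sets. -/

namespace Pool.Agent.MP_7be75d_co.Gen.Cut

open Finset
open scoped Classical

variable {W : Type} {H : SimpleGraph W} {F : Finset W}

/-- A forest with a parent function and a depth function. -/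
structure RF (H : SimpleGraph W) (F : Finset W) where
  par : W → W
  dep : W → ℕ
  up : ∀ v ∈ F, 0 < dep v → par v ∈ F ∧ H.Adj v (par v) ∧ dep (par v) + 1 = dep v
  adj : ∀ u ∈ F, ∀ v ∈ F, H.Adj u v → (0 < dep u ∧ v = par u) ∨ (0 < dep v ∧ u = par v)

namespace RF

variable (t : RF H F) {r u u' v w x y : W} {C : Finset W}

/-- The descendants of `r`, including `r`. -/
noncomputable def D (r : W) : Finset W :=
  F.filter fun v => t.dep r ≤ t.dep v ∧ t.par^[t.dep v - t.dep r] v = r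

/-- The root above `v`. -/
def rt (v : W) : W := t.par^[t.dep v] v

theorem iter (hv : v ∈ F) {j : ℕ} (hj : j ≤ t.dep v) :
    t.par^[j] v ∈ F ∧ t.dep (t.par^[j] v) + j = t.dep v := by
  induction j with
  | zero => simpa using hv
  | succ j ih =>
    obtain ⟨h1, h2⟩ := ih (by omega)
    obtain ⟨h3, -, h4⟩ := t.up _ h1 (by omega)
    rw [Function.iterate_succ_apply']
    exact ⟨h3, by omega⟩

variable {t}

theorem mem_D : v ∈ t.D r ↔ v ∈ F ∧ t.dep r ≤ t.dep v ∧ t.par^[t.dep v - t.dep r] v = r :=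
  mem_filter

theorem D_sub : t.D r ⊆ F := filter_subset _ _

theorem self_mem (hr : r ∈ F) : r ∈ t.D r := mem_D.2 ⟨hr, le_rfl, by simp⟩

theorem D_dep (h : v ∈ t.D r) : t.dep r ≤ t.dep v := (mem_D.1 h).2.1

theorem D_eq (h : v ∈ t.D r) (h' : t.dep v ≤ t.dep r) : v = r := by
  have := (mem_D.1 h).2.2
  rwa [Nat.sub_eq_zero_of_le h'] at this

theorem D_lt (h : v ∈ t.D r) (h' : v ≠ r) : t.dep r < t.dep v :=
  lt_of_not_ge fun h2 => h' (D_eq h h2)

theorem top_mem (h : v ∈ t.D r) : r ∈ F := by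
  obtain ⟨h1, -, h3⟩ := mem_D.1 h
  rw [← h3]
  exact (t.iter h1 (Nat.sub_le _ _)).1

theorem iter_mem (hv : v ∈ F) {j : ℕ} (hj : j ≤ t.dep v) : v ∈ t.D (t.par^[j] v) := by
  have := (t.iter hv hj).2
  refine mem_D.2 ⟨hv, by omega, ?_⟩
  rw [show t.dep v - t.dep (t.par^[j] v) = j by omega]

theorem D_trans (h : v ∈ t.D u) (h' : u ∈ t.D r) : v ∈ t.D r := by
  obtain ⟨h1, h2, h3⟩ := mem_D.1 h
  obtain ⟨-, h5, h6⟩ := mem_D.1 h'
  refine mem_D.2 ⟨h1, h5.trans h2, ?_⟩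
  rw [show t.dep v - t.dep r = (t.dep u - t.dep r) + (t.dep v - t.dep u) by omega,
    Function.iterate_add_apply, h3, h6]

theorem D_cmp (h : v ∈ t.D u) (h' : v ∈ t.D u') (hd : t.dep u ≤ t.dep u') : u' ∈ t.D u := by
  obtain ⟨-, -, h3⟩ := mem_D.1 h
  obtain ⟨-, h5, h6⟩ := mem_D.1 h'
  refine mem_D.2 ⟨top_mem h', hd, ?_⟩
  rw [show t.dep v - t.dep u = (t.dep u' - t.dep u) + (t.dep v - t.dep u') by omega,
    Function.iterate_add_apply, h6] at h3
  exact h3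

theorem mem_par (hv : v ∈ F) (h : 0 < t.dep v) : v ∈ t.D (t.par v) := iter_mem hv (j := 1) h

theorem par_mem (h : v ∈ t.D r) (hne : v ≠ r) : 0 < t.dep v ∧ t.par v ∈ t.D r := by
  have h1 := D_lt h hne
  have h2 := t.up v (D_sub h) (by omega)
  exact ⟨by omega, D_cmp h (mem_par (D_sub h) (by omega)) (by omega)⟩

theorem par_not_mem (hv : v ∈ F) (h : 0 < t.dep v) : t.par v ∉ t.D v := fun h' => by
  have := D_dep h'
  have := (t.up v hv h).2.2
  omega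

theorem of_par (hv : v ∈ F) (h : 0 < t.dep v) (h' : t.par v ∈ t.D r) : v ∈ t.D r :=
  D_trans (mem_par hv h) h'

theorem child (h : v ∈ t.D r) (hne : v ≠ r) :
    ∃ c ∈ F, 0 < t.dep c ∧ t.par c = r ∧ v ∈ t.D c := by
  have h1 := D_lt h hne
  obtain ⟨h2, -, h3⟩ := mem_D.1 h
  have h4 := t.iter h2 (j := t.dep v - t.dep r - 1) (by omega)
  refine ⟨_, h4.1, by omega, ?_, iter_mem h2 (by omega)⟩
  rw [show t.dep v - t.dep r = (t.dep v - t.dep r - 1) + 1 by omega,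
    Function.iterate_succ_apply'] at h3
  exact h3

theorem exit (hx : x ∈ t.D w) (hy : y ∈ F) (hy' : y ∉ t.D w) (h : H.Adj x y) :
    x = w ∧ y = t.par w ∧ 0 < t.dep w := by
  rcases t.adj x (D_sub hx) y hy h with ⟨h1, h2⟩ | ⟨h1, h2⟩
  · by_cases hw : x = w
    · subst hw
      exact ⟨rfl, h2, h1⟩
    · exact absurd (h2 ▸ (par_mem hx hw).2) hy'
  · exact absurd (of_par hy h1 (h2 ▸ hx)) hy'

theorem convex (hC : Conn H C) (hF : C ⊆ F) (hx : x ∈ C) (hx' : x ∈ t.D w) (hy : y ∈ C)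
    (hy' : y ∉ t.D w) : w ∈ C ∧ t.par w ∈ C ∧ 0 < t.dep w := by
  obtain ⟨a, b, h1, h2, h3, h4, h5⟩ := hC.exit hx hx' hy hy'
  obtain ⟨rfl, rfl, h6⟩ := exit h1 (hF h4) h2 h5
  exact ⟨h3, h4, h6⟩

theorem top (t : RF H F) (hC : Conn H C) (hF : C ⊆ F) : ∃ r ∈ C, C ⊆ t.D r := by
  obtain ⟨r, hr, hm⟩ := exists_min_of (p := fun r => r ∈ C) t.dep hC.1
  refine ⟨r, hr, fun y hy => ?_⟩
  by_contra hy'
  obtain ⟨-, h1, h2⟩ := convex hC hF hr (self_mem (hF hr)) hy hy'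
  have := hm _ h1
  have := (t.up r (hF hr) h2).2.2
  omega

theorem par_in (hC : Conn H C) (hF : C ⊆ F) (hr : r ∈ C) (hx : x ∈ C) (h : t.dep r < t.dep x) :
    t.par x ∈ C :=
  (convex hC hF hx (self_mem (hF hx)) hr fun h' => by have := D_dep h'; omega).2.1

theorem up_conn (t : RF H F) (hF : C ⊆ F) (hr : r ∈ C)
    (h : ∀ x ∈ C, x ≠ r → 0 < t.dep x ∧ t.par x ∈ C) : Conn H C := by
  refine Conn.of_center hr fun b hb => ?_
  induction hn : t.dep b using Nat.strong_induction_on generalizing b with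
  | _ n ih =>
  by_cases e : b = r
  · rw [e]
    exact R.refl
  obtain ⟨h1, h2⟩ := h b hb e
  obtain ⟨-, h3, h4⟩ := t.up b (hF hb) h1
  exact (ih _ (by omega) _ h2 rfl).tail h3.symm h2 hb

theorem D_conn (hr : r ∈ F) : Conn H (t.D r) :=
  t.up_conn D_sub (self_mem hr) fun _ hx hne => par_mem hx hne

theorem mem_rt (hv : v ∈ F) : v ∈ t.D (t.rt v) := iter_mem hv le_rfl

theorem dep_rt (hv : v ∈ F) : t.dep (t.rt v) = 0 := by
  have := (t.iter hv le_rfl).2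
  unfold rt
  omega

theorem rt_of_zero (h : t.dep v = 0) : t.rt v = v := by simp [rt, h]

theorem rt_rt (hv : v ∈ F) : t.rt (t.rt v) = t.rt v := rt_of_zero (dep_rt hv)

theorem rt_D (h : v ∈ t.D u) : t.rt v = t.rt u := by
  have h1 := dep_rt (t := t) (D_sub h)
  have h2 := dep_rt (t := t) (top_mem h)
  exact D_eq (D_cmp (D_trans h (mem_rt (top_mem h))) (mem_rt (D_sub h)) (by omega)) (by omega)

theorem rt_conn (t : RF H F) (hC : Conn H C) (hF : C ⊆ F) (hx : x ∈ C) (hy : y ∈ C) :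
    t.rt x = t.rt y := by
  obtain ⟨r, -, h⟩ := t.top hC hF
  rw [rt_D (h hx), rt_D (h hy)]

theorem rt_adj (t : RF H F) (hx : x ∈ F) (hy : y ∈ F) (h : H.Adj x y) : t.rt x = t.rt y :=
  t.rt_conn (Conn.pair h) (by simp [insert_subset_iff, hx, hy]) (by simp) (by simp)

/-- A family of connected sets without `p + 1` disjoint members is met by `p` tops. -/
theorem hit (t : RF H F) (p : ℕ) (fam : Finset W → Prop) (h1 : ∀ C, fam C → C ⊆ F ∧ Conn H C)
    (h2 : ∀ 𝒞 : Finset (Finset W), (∀ C ∈ 𝒞, fam C) →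
      (∀ C ∈ 𝒞, ∀ C' ∈ 𝒞, C ≠ C' → Disjoint C C') → 𝒞.card ≤ p) :
    ∃ Q : Finset W, Q.card ≤ p ∧ (∀ r ∈ Q, ∃ C, fam C ∧ r ∈ C ∧ C ⊆ t.D r) ∧
      ∀ C, fam C → ∃ r ∈ Q, r ∈ C := by
  induction p generalizing fam with
  | zero =>
    refine ⟨∅, by simp, by simp, fun C hC => ?_⟩
    simpa using h2 {C} (by simpa using hC) (by simp)
  | succ p ih =>
    by_cases he : ∃ C, fam C
    swap
    · exact ⟨∅, by simp, by simp, fun C hC => absurd ⟨C, hC⟩ he⟩
    obtain ⟨r, ⟨C, c1, c2, c3⟩, hm⟩ := exists_max_of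
      (p := fun r => ∃ C, fam C ∧ r ∈ C ∧ C ⊆ t.D r) t.dep (F.sup t.dep)
      (fun a ⟨C, c1, c2, _⟩ => le_sup ((h1 C c1).1 c2)) (by
        obtain ⟨C, hC⟩ := he
        obtain ⟨r, hr, h⟩ := t.top (h1 C hC).2 (h1 C hC).1
        exact ⟨r, C, hC, hr, h⟩)
    have key : ∀ C', fam C' → r ∉ C' → Disjoint C C' := by
      intro C' hC' hr
      refine disjoint_left.2 fun x hx hx' => hr ?_
      obtain ⟨r', hr', h⟩ := t.top (h1 C' hC').2 (h1 C' hC').1
      by_cases e : r' ∈ t.D r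
      · rwa [D_eq e (hm r' ⟨C', hC', hr', h⟩)] at hr'
      · exact (convex (h1 C' hC').2 (h1 C' hC').1 hx' (c3 hx) hr' e).1
    obtain ⟨Q, q1, q2, q3⟩ := ih (fun C' => fam C' ∧ r ∉ C') (fun C' h => h1 C' h.1) (by
      intro 𝒞 a1 a2
      have hn : C ∉ 𝒞 := fun h => (a1 C h).2 c2
      have := h2 (insert C 𝒞) (by
        intro C' h
        rcases mem_insert.1 h with rfl | h
        exacts [c1, (a1 C' h).1]) (by
        intro C1 b1 C2 b2 hne
        rcases mem_insert.1 b1 with e1 | b1 <;> rcases mem_insert.1 b2 with e2 | b2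
        · exact absurd (e1.trans e2.symm) hne
        · exact e1 ▸ key C2 (a1 _ b2).1 (a1 _ b2).2
        · exact e2 ▸ (key C1 (a1 _ b1).1 (a1 _ b1).2).symm
        · exact a2 _ b1 _ b2 hne)
      rw [card_insert_of_notMem hn] at this
      omega)
    refine ⟨insert r Q, (card_insert_le _ _).trans (by omega), fun s hs => ?_, fun C' hC' => ?_⟩
    · rcases mem_insert.1 hs with rfl | hs
      · exact ⟨C, c1, c2, c3⟩
      · obtain ⟨C', h, h'⟩ := q2 s hs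
        exact ⟨C', h.1, h'⟩
    · by_cases hr : r ∈ C'
      · exact ⟨r, mem_insert_self _ _, hr⟩
      · obtain ⟨s, hs, h⟩ := q3 C' ⟨hC', hr⟩
        exact ⟨s, mem_insert_of_mem hs, h⟩

/-- `v` has two children, one above `x` and one above `y`. -/
def Br (t : RF H F) (v x y : W) : Prop :=
  ∃ c ∈ F, ∃ c' ∈ F, c ≠ c' ∧ 0 < t.dep c ∧ 0 < t.dep c' ∧ t.par c = v ∧ t.par c' = v ∧
    x ∈ t.D c ∧ y ∈ t.D c'

theorem Br.left (h : t.Br v x y) : x ∈ t.D v := by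
  obtain ⟨c, hc, c', -, -, h1, -, rfl, -, h2, -⟩ := h
  exact D_trans h2 (mem_par hc h1)

theorem Br.right (h : t.Br v x y) : y ∈ t.D v := by
  obtain ⟨c, -, c', hc, -, -, h1, -, rfl, -, h2⟩ := h
  exact D_trans h2 (mem_par hc h1)

theorem Br.le (h : t.Br v x y) (hx : x ∈ t.D u) (hy : y ∈ t.D u) : t.dep u ≤ t.dep v := by
  obtain ⟨c, hc, c', hc', hne, h1, h2, e1, e2, h3, h4⟩ := h
  by_contra hlt
  have d1 := (t.up c hc h1).2.2
  have d2 := (t.up c' hc' h2).2.2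
  rw [e1] at d1
  rw [e2] at d2
  exact hne (D_eq (D_cmp (D_cmp h4 hy (by omega)) (D_cmp h3 hx (by omega)) (by omega))
    (by omega))

theorem Br.uniq (h : t.Br v x y) (h' : t.Br u x y) : v = u :=
  D_eq (D_cmp h'.left h.left (h.le h'.left h'.right)) (h'.le h.left h.right)

end RF

end Pool.Agent.MP_7be75d_co.Gen.Cut

end MrgPart2

-- ======== part 3: formerly Pool.Agent.MP_7be75d_co.Gen.Cut2
section MrgPart3

/-! The components of a rooted forest minus a closed set. -/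

namespace Pool.Agent.MP_7be75d_co.Gen.Cut

open Finset
open scoped Classical

variable {W : Type} {H : SimpleGraph W} {F X S T C C' : Finset W} {a b x : W}

/-- The vertices of `X` with a neighbour in `C`. -/
noncomputable def sig (H : SimpleGraph W) (X C : Finset W) : Finset W :=
  X.filter fun x => Touch H C {x}

theorem mem_sig : x ∈ sig H X C ↔ x ∈ X ∧ Touch H C {x} := mem_filter

theorem sig_of_adj {w : W} (hx : x ∈ X) (hw : w ∈ C) (h : H.Adj w x) : x ∈ sig H X C :=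
  mem_sig.2 ⟨hx, w, hw, x, mem_singleton_self x, h⟩

theorem sig_mono (h : C ⊆ C') : sig H X C ⊆ sig H X C' := fun _ hx =>
  mem_sig.2 ⟨(mem_sig.1 hx).1, (mem_sig.1 hx).2.mono h subset_rfl⟩

theorem touch_one : Touch H C {x} ↔ ∃ w ∈ C, H.Adj w x := by simp [Touch]

/-- Three disjoint connected subsets, each of which sees two vertices of `X`. -/
def Rigid (H : SimpleGraph W) (X T : Finset W) : Prop :=
  ∃ C0 C1 C2 : Finset W, (C0 ⊆ T ∧ Conn H C0 ∧ 2 ≤ (sig H X C0).card) ∧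
    (C1 ⊆ T ∧ Conn H C1 ∧ 2 ≤ (sig H X C1).card) ∧ (C2 ⊆ T ∧ Conn H C2 ∧ 2 ≤ (sig H X C2).card) ∧
    Disjoint C0 C1 ∧ Disjoint C0 C2 ∧ Disjoint C1 C2

/-- A component between an upper vertex `par r` and a lower vertex `v` of `S`. -/
structure Seg (t : RF H F) (X S T : Finset W) (r v : W) : Prop where
  sub : T ⊆ F
  conn : Conn H T
  hr : r ∈ T
  top : T ⊆ t.D r
  pos : 0 < t.dep r
  hu : t.par r ∈ S
  hv : v ∈ S
  vr : v ∈ t.D r
  vT : v ∉ T
  sp : ∀ w ∈ t.D r, v ∈ t.D w → w ≠ v → w ∈ T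
  nb : ∀ w ∈ T, ∀ s ∈ S, H.Adj w s → (s = t.par r ∧ w = r) ∨ (s = v ∧ w = t.par v)
  light : ∀ w ∈ T, 2 ≤ (sig H X (t.D w)).card → v ∈ t.D w

namespace Seg

variable {t : RF H F} {r v : W}

theorem lt (h : Seg t X S T r v) : t.dep r < t.dep v :=
  RF.D_lt h.vr fun e => h.vT (e ▸ h.hr)

theorem parv (h : Seg t X S T r v) : t.par v ∈ T := by
  have h1 := RF.par_mem h.vr fun e => h.vT (e ▸ h.hr)
  have h2 := t.up v (RF.D_sub h.vr) h1.1
  exact h.sp _ h1.2 (RF.mem_par (RF.D_sub h.vr) h1.1) fun e => by rw [e] at h2; omega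

theorem par_mem (h : Seg t X S T r v) {w : W} (hw : w ∈ T) (hne : w ≠ r) :
    0 < t.dep w ∧ t.par w ∈ T :=
  have h1 := RF.D_lt (h.top hw) hne
  ⟨by omega, RF.par_in h.conn h.sub h.hr hw h1⟩

/-- The spine. -/
def spn (t : RF H F) (r v : W) (i : ℕ) : W := t.par^[t.dep v - t.dep r - i] v

theorem dep_spn (h : Seg t X S T r v) {i : ℕ} (hi : i < t.dep v - t.dep r) :
    t.dep (spn t r v i) = t.dep r + i := by
  have := (t.iter (RF.D_sub h.vr) (j := t.dep v - t.dep r - i) (by omega)).2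
  unfold spn
  omega

theorem mem_spn (h : Seg t X S T r v) {w : W} :
    w ∈ (range (t.dep v - t.dep r)).image (spn t r v) ↔ w ∈ T ∧ v ∈ t.D w := by
  simp only [mem_image, mem_range]
  constructor
  · rintro ⟨i, hi, rfl⟩
    have h1 := h.dep_spn hi
    have h2 : v ∈ t.D (spn t r v i) := RF.iter_mem (RF.D_sub h.vr) (by omega)
    exact ⟨h.sp _ (RF.D_cmp h.vr h2 (by omega)) h2 fun e => by rw [e] at h1; omega, h2⟩
  · rintro ⟨h1, h2⟩
    have h3 := RF.D_dep (h.top h1)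
    have h4 := RF.D_lt h2 fun e => h.vT (e ▸ h1)
    refine ⟨t.dep w - t.dep r, by omega, ?_⟩
    unfold spn
    rw [show t.dep v - t.dep r - (t.dep w - t.dep r) = t.dep v - t.dep w by omega]
    exact (RF.mem_D.1 h2).2.2

theorem spn_zero (h : Seg t X S T r v) : spn t r v 0 = r := (RF.mem_D.1 h.vr).2.2

theorem spn_last (h : Seg t X S T r v) : spn t r v (t.dep v - t.dep r - 1) = t.par v := by
  have := h.lt
  unfold spn
  rw [show t.dep v - t.dep r - (t.dep v - t.dep r - 1) = 1 by omega]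
  rfl

theorem shape (h : Seg t X S T r v) (hA : Lov.Acyc H F) {sd : W → Bool}
    (hs : ∀ x ∈ T, ∀ y ∈ T, v ∉ t.D x → v ∉ t.D y → 0 < t.dep x → y = t.par x → sd x = sd y) :
    Shape H T (t.dep v - t.dep r) (spn t r v) sd := by
  have m1 : ∀ i < t.dep v - t.dep r, spn t r v i ∈ T := fun i hi =>
    (h.mem_spn.1 (mem_image_of_mem _ (mem_range.2 hi))).1
  have hl := h.lt
  have sI : (range (t.dep v - t.dep r)).image (spn t r v) ⊆ T := fun w hw => (h.mem_spn.1 hw).1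
  refine ⟨by omega, m1, fun i hi j hj e => ?_, fun i hi j hj e => ?_,
    fun x hx y hy nx ny e => ?_, sI, fun U h1 h2 h3 => ?_⟩
  · have := h.dep_spn hi
    have := h.dep_spn hj
    rw [e] at *
    omega
  · have a1 := h.dep_spn hi
    have a2 := h.dep_spn hj
    rcases t.adj _ (h.sub (m1 i hi)) _ (h.sub (m1 j hj)) e with ⟨b1, b2⟩ | ⟨b1, b2⟩
    · have := (t.up _ (h.sub (m1 i hi)) b1).2.2
      rw [← b2] at this
      omega
    · have := (t.up _ (h.sub (m1 j hj)) b1).2.2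
      rw [← b2] at this
      omega
  · have nx' : v ∉ t.D x := fun e => nx (h.mem_spn.2 ⟨hx, e⟩)
    have ny' : v ∉ t.D y := fun e => ny (h.mem_spn.2 ⟨hy, e⟩)
    rcases t.adj _ (h.sub hx) _ (h.sub hy) e with ⟨b1, b2⟩ | ⟨b1, b2⟩
    · exact hs x hx y hy nx' ny' b1 b2
    · exact (hs y hy x hx ny' nx' b1 b2).symm
  · refine Lov.peel_conn (hA.mono (h2.trans h.sub)) h1 ?_ h3
    refine t.up_conn (sI.trans h.sub) (h.mem_spn.2 ⟨h.hr, h.vr⟩) fun w hw hne => ?_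
    obtain ⟨a1, a2⟩ := h.mem_spn.1 hw
    obtain ⟨a3, a4⟩ := h.par_mem a1 hne
    exact ⟨a3, h.mem_spn.2 ⟨a4, RF.D_trans a2 (RF.mem_par (h.sub a1) a3)⟩⟩

theorem ne (h : Seg t X S T r v) : t.par r ≠ v := fun e => by
  have := h.lt
  have := (t.up r (h.sub h.hr) h.pos).2.2
  rw [e] at this
  omega

/-- A component that sees at most one vertex of `X`. -/
theorem piece1 (h : Seg t X S T r v) (hA : Lov.Acyc H F) (hX : Disjoint X F) (hS : S ⊆ F)
    (ha : sig H X T = {a}) : BPiece H (X ∪ S) T (t.par r) v (some a) none (t.dep v - t.dep r)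
      (spn t r v) (fun _ => false) ∅ T ∅ := by
  have a1 := mem_sig.1 (ha ▸ mem_singleton_self a)
  have nF : ∀ s ∈ S, a ≠ s := fun s hs e => disjoint_left.1 hX a1.1 (e ▸ hS hs)
  refine ⟨mem_union_right _ h.hu, mem_union_right _ h.hv, h.ne, ?_, by simp,
    h.shape hA (by simp), fun w hw x hx e => ?_, by simp, by simp, by simp, by simp, by simp,
    by simp, by simpa using Conn.singleton _, h.conn, by simpa using Conn.singleton _,
    ⟨r, h.hr, _, by simp, (t.up r (h.sub h.hr) h.pos).2.1⟩,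
    ⟨_, h.parv, v, by simp, (t.up v (hS h.hv) (by have := h.lt; omega)).2.1.symm⟩, by simp⟩
  · rintro a' ⟨rfl⟩
    exact ⟨mem_union_left _ a1.1, nF _ h.hu, nF _ h.hv, by simp, a1.2⟩
  · rcases mem_union.1 hx with hx | hx
    · have := sig_of_adj hx hw e
      rw [ha, mem_singleton] at this
      simp [this]
    · rw [h.spn_zero, h.spn_last]
      rcases h.nb w hw x hx e with h1 | h1
      exacts [Or.inl h1, Or.inr (Or.inl h1)]

/-- A rigid component. -/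
theorem piece2 (h : Seg t X S T r v) (hA : Lov.Acyc H F) (hX : Disjoint X F) (hS : S ⊆ F)
    (hab : a ≠ b) (ha : sig H X T = {a, b}) {C0 C1 C2 : Finset W} {r0 r1 r2 : W}
    (k0 : (C0 ⊆ T ∧ Conn H C0 ∧ 2 ≤ (sig H X C0).card) ∧ r0 ∈ C0 ∧ C0 ⊆ t.D r0)
    (k1 : (C1 ⊆ T ∧ Conn H C1 ∧ 2 ≤ (sig H X C1).card) ∧ r1 ∈ C1 ∧ C1 ⊆ t.D r1)
    (k2 : (C2 ⊆ T ∧ Conn H C2 ∧ 2 ≤ (sig H X C2).card) ∧ r2 ∈ C2 ∧ C2 ⊆ t.D r2)
    (d01 : Disjoint C0 C1) (d12 : Disjoint C1 C2) (l01 : t.dep r0 < t.dep r1)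
    (l12 : t.dep r1 < t.dep r2) :
    ∃ u v oa ob m sp sd T0 T1 T2, BPiece H (X ∪ S) T u v oa ob m sp sd T0 T1 T2 := by
  have see : ∀ {C : Finset W}, C ⊆ T → 2 ≤ (sig H X C).card → Touch H C {a} ∧ Touch H C {b} := by
    intro C c1 c2
    have : sig H X C = {a, b} :=
      eq_of_subset_of_card_le (ha ▸ sig_mono c1) (by rw [card_pair hab]; exact c2)
    exact ⟨(mem_sig.1 (this ▸ by simp : a ∈ sig H X C)).2,
      (mem_sig.1 (this ▸ by simp : b ∈ sig H X C)).2⟩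
  have aX := (mem_sig.1 (ha ▸ by simp : a ∈ sig H X T)).1
  have bX := (mem_sig.1 (ha ▸ by simp : b ∈ sig H X T)).1
  have nF : ∀ x ∈ X, ∀ s ∈ S, x ≠ s := fun x hx s hs e => disjoint_left.1 hX hx (e ▸ hS hs)
  obtain ⟨⟨s0, c0, g0⟩, m0, -⟩ := k0
  obtain ⟨⟨s1, c1, g1⟩, m1, e1⟩ := k1
  obtain ⟨⟨s2, c2, g2⟩, m2, e2⟩ := k2
  have v1 := h.light _ (s1 m1) (g1.trans (card_le_card (sig_mono e1)))
  have v2 := h.light _ (s2 m2) (g2.trans (card_le_card (sig_mono e2)))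
  have r12 : r2 ∈ t.D r1 := RF.D_cmp v1 v2 l12.le
  have l0 := RF.D_dep (h.top (s0 m0))
  have n1 : r1 ≠ r := fun e => by rw [e] at l01; omega
  have n2 : r2 ≠ r := fun e => by rw [e] at l12; omega
  have n12 : r2 ≠ r1 := fun e => by rw [e] at l12; omega
  have nd : ∀ {x y : W}, t.dep x < t.dep y → x ∉ t.D y := fun h1 h2 => by
    have := RF.D_dep h2
    omega
  have f0 : C0 ⊆ T \ t.D r1 := fun x hx => mem_sdiff.2 ⟨s0 hx, fun hx' =>
    disjoint_left.1 d01 (RF.convex c0 (s0.trans h.sub) hx hx' m0 (nd l01)).1 m1⟩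
  have f1 : C1 ⊆ (T ∩ t.D r1) \ t.D r2 := fun x hx => mem_sdiff.2 ⟨mem_inter.2 ⟨s1 hx, e1 hx⟩,
    fun hx' => disjoint_left.1 d12 (RF.convex c1 (s1.trans h.sub) hx hx' m1 (nd l12)).1 m2⟩
  have f2 : C2 ⊆ T ∩ t.D r2 := subset_inter s2 e2
  have hr0 : r ∈ T \ t.D r1 := mem_sdiff.2 ⟨h.hr, nd (by omega)⟩
  have hv := h.lt
  have p1 := h.par_mem (s1 m1) n1
  have p2 := h.par_mem (s2 m2) n2
  refine ⟨t.par r, v, some a, some b, t.dep v - t.dep r, spn t r v,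
    fun w => decide (∃ w' ∈ T, v ∉ t.D w' ∧ w ∈ t.D w' ∧ b ∈ sig H X (t.D w')),
    T \ t.D r1, (T ∩ t.D r1) \ t.D r2, T ∩ t.D r2, mem_union_right _ h.hu,
    mem_union_right _ h.hv, h.ne, ?_, ?_, h.shape hA fun x hx y hy nx ny dx e => ?_,
    fun w hw x hx e => ?_, sdiff_subset, sdiff_subset.trans inter_subset_left, inter_subset_left,
    ?_, ?_, ?_, ?_, ?_, ?_, ?_, ?_, ?_⟩
  · rintro a' ⟨rfl⟩
    exact ⟨mem_union_left _ aX, nF _ aX _ h.hu, nF _ aX _ h.hv, by simpa using hab.symm,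
      (see s1 g1).1.mono f1 subset_rfl⟩
  · rintro b' ⟨rfl⟩
    exact ⟨mem_union_left _ bX, nF _ bX _ h.hu, nF _ bX _ h.hv, (see s1 g1).2.mono f1 subset_rfl⟩
  · have xy : x ∈ t.D y := e ▸ RF.mem_par (h.sub hx) dx
    refine decide_eq_decide.2 ⟨?_, ?_⟩
    · rintro ⟨w', w1, w2, w3, w4⟩
      by_cases e' : x = w'
      · subst e'
        exact ⟨y, hy, ny, RF.self_mem (h.sub hy), sig_mono (fun z hz => RF.D_trans hz xy) w4⟩
      · exact ⟨w', w1, w2, e ▸ (RF.par_mem w3 e').2, w4⟩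
    · rintro ⟨w', w1, w2, w3, w4⟩
      exact ⟨w', w1, w2, RF.D_trans xy w3, w4⟩
  · rcases mem_union.1 hx with hx | hx
    · have := sig_of_adj hx hw e
      rw [ha, mem_insert, mem_singleton] at this
      by_cases hs : v ∈ t.D w
      · have hm := h.mem_spn.2 ⟨hw, hs⟩
        rcases this with rfl | rfl
        exacts [Or.inr (Or.inr (Or.inl ⟨rfl, Or.inl hm⟩)),
          Or.inr (Or.inr (Or.inr ⟨rfl, Or.inl hm⟩))]
      rcases this with rfl | rfl
      · refine Or.inr (Or.inr (Or.inl ⟨rfl, Or.inr (decide_eq_false ?_)⟩))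
        rintro ⟨w', w1, w2, w3, w4⟩
        exact w2 (h.light w' w1 (one_lt_card.2 ⟨x, sig_of_adj hx w3 e, b, w4, hab⟩))
      · exact Or.inr (Or.inr (Or.inr ⟨rfl, Or.inr (decide_eq_true
          ⟨w, hw, hs, RF.self_mem (h.sub hw), sig_of_adj hx (RF.self_mem (h.sub hw)) e⟩)⟩))
    · rw [h.spn_zero, h.spn_last]
      rcases h.nb w hw x hx e with h1 | h1
      exacts [Or.inl h1, Or.inr (Or.inl h1)]
  · exact disjoint_left.2 fun x h1 h2 => (mem_sdiff.1 h1).2 (mem_inter.1 (mem_sdiff.1 h2).1).2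
  · exact disjoint_left.2 fun x h1 h2 => (mem_sdiff.1 h1).2 (RF.D_trans (mem_inter.1 h2).2 r12)
  · exact disjoint_left.2 fun x h1 h2 => (mem_sdiff.1 h1).2 (mem_inter.1 h2).2
  · refine (t.up_conn (sdiff_subset.trans h.sub) hr0 fun x hx hne => ?_).insert hr0
      (t.up r (h.sub h.hr) h.pos).2.1
    obtain ⟨a1, a2⟩ := mem_sdiff.1 hx
    obtain ⟨a3, a4⟩ := h.par_mem a1 hne
    exact ⟨a3, mem_sdiff.2 ⟨a4, fun e => a2 (RF.of_par (h.sub a1) a3 e)⟩⟩
  · refine t.up_conn ((sdiff_subset.trans inter_subset_left).trans h.sub) (f1 m1)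
      fun x hx hne => ?_
    obtain ⟨a1, a2⟩ := mem_sdiff.1 hx
    obtain ⟨a1, a5⟩ := mem_inter.1 a1
    have := RF.D_dep a5
    obtain ⟨a3, a4⟩ := h.par_mem a1 fun e => by rw [e] at this; omega
    exact ⟨a3, mem_sdiff.2 ⟨mem_inter.2 ⟨a4, (RF.par_mem a5 hne).2⟩,
      fun e => a2 (RF.of_par (h.sub a1) a3 e)⟩⟩
  · refine (t.up_conn (inter_subset_left.trans h.sub) (f2 m2) fun x hx hne => ?_).insert
      (mem_inter.2 ⟨h.parv, (RF.par_mem v2 fun e => h.vT (e ▸ s2 m2)).2⟩)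
      (t.up v (hS h.hv) (by omega)).2.1.symm
    obtain ⟨a1, a5⟩ := mem_inter.1 hx
    have := RF.D_dep a5
    obtain ⟨a3, a4⟩ := h.par_mem a1 fun e => by rw [e] at this; omega
    exact ⟨a3, mem_inter.2 ⟨a4, (RF.par_mem a5 hne).2⟩⟩
  · exact ⟨r1, f1 m1, t.par r1,
      mem_insert_of_mem (mem_sdiff.2 ⟨p1.2, RF.par_not_mem (h.sub (s1 m1)) p1.1⟩),
      (t.up _ (h.sub (s1 m1)) p1.1).2.1⟩
  · exact ⟨t.par r2, mem_sdiff.2 ⟨mem_inter.2 ⟨p2.2, (RF.par_mem r12 n12).2⟩,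
      RF.par_not_mem (h.sub (s2 m2)) p2.1⟩, r2, mem_insert_of_mem (f2 m2),
      (t.up _ (h.sub (s2 m2)) p2.1).2.1.symm⟩
  · rintro a' b' ⟨rfl⟩ ⟨rfl⟩
    exact ⟨(see s0 g0).1.mono f0 subset_rfl, (see s0 g0).2.mono f0 subset_rfl,
      (see s2 g2).1.mono f2 subset_rfl, (see s2 g2).2.mono f2 subset_rfl⟩

theorem piece (h : Seg t X S T r v) (hA : Lov.Acyc H F) (hX : Disjoint X F) (hS : S ⊆ F)
    (h2 : (sig H X T).card ≤ 2) (hR : 2 ≤ (sig H X T).card → Rigid H X T) :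
    ((X ∪ S).filter fun x => Touch H T {x}).card ≤ 2 ∨
      ∃ u v oa ob m sp sd T0 T1 T2, BPiece H (X ∪ S) T u v oa ob m sp sd T0 T1 T2 := by
  obtain h0 | h0 | h0 : (sig H X T).card = 0 ∨ (sig H X T).card = 1 ∨ (sig H X T).card = 2 := by
    omega
  · refine Or.inl ((card_le_card (t := {t.par r, v}) fun x hx => ?_).trans card_le_two)
    obtain ⟨hx, hx'⟩ := mem_filter.1 hx
    rcases mem_union.1 hx with hx | hx
    · exact absurd (mem_sig.2 ⟨hx, hx'⟩) (by simp [card_eq_zero.1 h0])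
    · obtain ⟨w, hw, e⟩ := touch_one.1 hx'
      rcases h.nb w hw x hx e with h1 | h1 <;> simp [h1.1]
  · obtain ⟨a, ha⟩ := card_eq_one.1 h0
    exact Or.inr ⟨_, _, _, _, _, _, _, _, _, _, h.piece1 hA hX hS ha⟩
  · obtain ⟨a, b, hab, ha⟩ := card_eq_two.1 h0
    obtain ⟨C0, C1, C2, k0, k1, k2, d01, d02, d12⟩ := hR h0.ge
    obtain ⟨r0, m0, e0⟩ := t.top k0.2.1 (k0.1.trans h.sub)
    obtain ⟨r1, m1, e1⟩ := t.top k1.2.1 (k1.1.trans h.sub)
    obtain ⟨r2, m2, e2⟩ := t.top k2.2.1 (k2.1.trans h.sub)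
    have v0 := h.light _ (k0.1 m0) (k0.2.2.trans (card_le_card (sig_mono e0)))
    have v1 := h.light _ (k1.1 m1) (k1.2.2.trans (card_le_card (sig_mono e1)))
    have v2 := h.light _ (k2.1 m2) (k2.2.2.trans (card_le_card (sig_mono e2)))
    have ne : ∀ {x y : W} {A B : Finset W}, v ∈ t.D x → v ∈ t.D y → x ∈ A → y ∈ B →
        Disjoint A B → t.dep x ≠ t.dep y := fun h1 h2 h3 h4 h5 e =>
      disjoint_left.1 h5 h3 (RF.D_eq (RF.D_cmp h1 h2 e.le) e.ge ▸ h4)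
    have n01 := ne v0 v1 m0 m1 d01
    have n02 := ne v0 v2 m0 m2 d02
    have n12 := ne v1 v2 m1 m2 d12
    have P := @piece2 W H F X S T a b t r v h hA hX hS hab ha
    refine Or.inr ?_
    rcases lt_or_gt_of_ne n01 with l1 | l1 <;> rcases lt_or_gt_of_ne n02 with l2 | l2 <;>
      rcases lt_or_gt_of_ne n12 with l3 | l3
    · exact P ⟨k0, m0, e0⟩ ⟨k1, m1, e1⟩ ⟨k2, m2, e2⟩ d01 d12 l1 l3
    · exact P ⟨k0, m0, e0⟩ ⟨k2, m2, e2⟩ ⟨k1, m1, e1⟩ d02 d12.symm l2 l3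
    · omega
    · exact P ⟨k2, m2, e2⟩ ⟨k0, m0, e0⟩ ⟨k1, m1, e1⟩ d02.symm d01 l2 l1
    · exact P ⟨k1, m1, e1⟩ ⟨k0, m0, e0⟩ ⟨k2, m2, e2⟩ d01.symm d02 l1 l2
    · omega
    · exact P ⟨k1, m1, e1⟩ ⟨k2, m2, e2⟩ ⟨k0, m0, e0⟩ d12 d02.symm l3 l2
    · exact P ⟨k2, m2, e2⟩ ⟨k1, m1, e1⟩ ⟨k0, m0, e0⟩ d12.symm d01.symm l3 l1

end Seg

end Pool.Agent.MP_7be75d_co.Gen.Cut

end MrgPart3

-- ======== part 4: formerly Pool.Agent.MP_7be75d_co.Gen.Cut
section MrgPart4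

/-! The module CUT: boundedly many further vertices make all components tame. -/

namespace Pool.Agent.MP_7be75d_co.Gen

open Finset
open scoped Classical

namespace Cut

variable {W : Type} {H : SimpleGraph W} {F X S : Finset W}

/-- All components of the forest minus a closed set are tame. -/
theorem comp_tame (t : RF H F) (hA : Lov.Acyc H F) (hX : Disjoint X F) (hS : S ⊆ F)
    (ha : ∀ s ∈ S, t.rt s ∈ S)
    (hb : ∀ C ⊆ F \ S, Conn H C → (sig H X C).card ≤ 2)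
    (hc : ∀ v ∈ F, t.rt v ∈ S → 2 ≤ (sig H X (t.D v)).card → ∃ s ∈ S, s ∈ t.D v)
    (hd : ∀ v, ∀ x ∈ S, ∀ y ∈ S, t.Br v x y → v ∈ S)
    (he : ∀ w ∈ F \ S, t.rt w ∈ S → 2 ≤ (sig H X (comp H (F \ S) w)).card →
      Rigid H X (comp H (F \ S) w)) {w : W} (hw : w ∈ F \ S) :
    ((X ∪ S).filter fun x => Touch H (comp H (F \ S) w) {x}).card ≤ 2 ∨
      ∃ u v oa ob m sp sd T0 T1 T2,
        BPiece H (X ∪ S) (comp H (F \ S) w) u v oa ob m sp sd T0 T1 T2 := by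
  have cT : Conn H (comp H (F \ S) w) := comp_conn hw
  have sT : comp H (F \ S) w ⊆ F \ S := comp_subset
  have wT : w ∈ comp H (F \ S) w := self_mem_comp hw
  have cl : ∀ x ∈ comp H (F \ S) w, ∀ y ∈ F, y ∉ S → H.Adj x y → y ∈ comp H (F \ S) w :=
    fun x hx y hy hy' e => comp_closed hx (mem_sdiff.2 ⟨hy, hy'⟩) e
  have h2 := hb _ sT cT
  have hR := he w hw
  generalize comp H (F \ S) w = T at *
  have sF : T ⊆ F := sT.trans sdiff_subset
  have nS : ∀ x ∈ T, x ∉ S := fun x hx => (mem_sdiff.1 (sT hx)).2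
  have rT : ∀ x ∈ T, t.rt x = t.rt w := fun x hx => t.rt_conn cT sF hx wT
  by_cases hrt : t.rt w ∈ S
  swap
  · refine Or.inl ((card_le_card fun x hx => ?_).trans h2)
    obtain ⟨hx, hx'⟩ := mem_filter.1 hx
    rcases mem_union.1 hx with hx | hx
    · exact mem_sig.2 ⟨hx, hx'⟩
    · obtain ⟨y, hy, e⟩ := touch_one.1 hx'
      exact absurd (rT y hy ▸ t.rt_adj (sF hy) (hS hx) e ▸ ha x hx) hrt
  obtain ⟨r, hr, top⟩ := t.top cT sF
  have pos : 0 < t.dep r := Nat.pos_of_ne_zero fun e =>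
    nS r hr (RF.rt_of_zero e ▸ rT r hr ▸ hrt)
  have up := t.up r (sF hr) pos
  have hu : t.par r ∈ S := by
    by_contra hn
    exact RF.par_not_mem (sF hr) pos (top (cl r hr _ up.1 hn up.2.1))
  have out : ∀ x ∈ T, ∀ s ∈ S, s ∉ t.D r → H.Adj x s → s = t.par r ∧ x = r := fun x hx s hs hn e =>
    have := RF.exit (top hx) (hS hs) hn e
    ⟨this.2.1, this.1⟩
  by_cases hD : ∃ s, s ∈ S ∧ s ∈ t.D r
  swap
  · have h1 : (sig H X T).card ≤ 1 := by
      by_contra hn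
      exact hD (hc r (sF hr) (rT r hr ▸ hrt) (le_trans (by omega) (card_le_card (sig_mono top))))
    refine Or.inl ((card_le_card (t := insert (t.par r) (sig H X T)) fun x hx => ?_).trans
      ((card_insert_le _ _).trans (by omega)))
    obtain ⟨hx, hx'⟩ := mem_filter.1 hx
    rcases mem_union.1 hx with hx | hx
    · exact mem_insert_of_mem (mem_sig.2 ⟨hx, hx'⟩)
    · obtain ⟨y, hy, e⟩ := touch_one.1 hx'
      exact mem_insert.2 (Or.inl (out y hy x hx (fun h => hD ⟨x, hx, h⟩) e).1)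
  obtain ⟨v, ⟨hv, vr⟩, hm⟩ := exists_min_of t.dep hD
  have vT : v ∉ T := fun h => nS v h hv
  -- the vertices between `r` and `v`
  have btw : ∀ x ∈ t.D r, v ∈ t.D x → x ≠ v → x ∉ S := fun x h1 h3 h4 h5 => by
    have := hm x ⟨h5, h1⟩
    have := RF.D_lt h3 h4.symm
    omega
  have sp : ∀ x ∈ t.D r, v ∈ t.D x → x ≠ v → x ∈ T := by
    intro x h1 h3 h4
    induction hn : t.dep x using Nat.strong_induction_on generalizing x with
    | _ n ih =>
    by_cases e : x = r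
    · exact e ▸ hr
    obtain ⟨a1, a2⟩ := RF.par_mem h1 e
    have a3 := t.up x (RF.D_sub h1) a1
    have a4 := RF.D_dep h3
    refine cl _ (ih _ (by omega) _ a2 (RF.D_trans h3 (RF.mem_par (RF.D_sub h1) a1))
      (fun e => by rw [e] at a3; omega) rfl) x (RF.D_sub h1) (btw x h1 h3 h4) a3.2.1.symm
  have low : ∀ s ∈ S, s ∈ t.D r → s ∈ t.D v := by
    intro s hs h1
    obtain ⟨z, ⟨z1, z2, z3⟩, zm⟩ := exists_max_of
      (p := fun z => z ∈ t.D r ∧ s ∈ t.D z ∧ v ∈ t.D z) t.dep (t.dep v)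
      (fun z hz => RF.D_dep hz.2.2) ⟨r, RF.self_mem (sF hr), h1, vr⟩
    by_cases e : z = v
    · exact e ▸ z2
    have nz := btw z z1 z3 e
    obtain ⟨c, c1, c2, c3, c4⟩ := RF.child z2 fun e => nz (e ▸ hs)
    obtain ⟨c', d1, d2, d3, d4⟩ := RF.child z3 (Ne.symm e)
    by_cases e' : c = c'
    · subst e'
      have := zm c ⟨RF.of_par c1 c2 (c3 ▸ z1), c4, d4⟩
      have := (t.up c c1 c2).2.2
      rw [c3] at this
      omega
    · exact absurd (hd z s hs v hv ⟨c, c1, c', d1, e', c2, d2, c3, d3, c4, d4⟩) nz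
  have nv : ∀ x ∈ T, x ∉ t.D v := fun x hx h =>
    vT (RF.convex cT sF hx h hr fun h' => vT (RF.D_eq vr (RF.D_dep h') ▸ hr)).1
  refine Seg.piece (t := t) (r := r) (v := v)
    ⟨sF, cT, hr, top, pos, hu, hv, vr, vT, sp, fun x hx s hs e => ?_, fun x hx h => ?_⟩
    hA hX hS h2 (hR hrt)
  · by_cases h : s ∈ t.D r
    · have := RF.exit (low s hs h) (sF hx) (nv x hx) e.symm
      exact Or.inr ⟨this.1, this.2.1⟩
    · exact Or.inl (out x hx s hs h e)
  · obtain ⟨s, hs, h1⟩ := hc x (sF hx) (rT x hx ▸ hrt) h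
    have h3 := low s hs (RF.D_trans h1 (top hx))
    rcases le_total (t.dep x) (t.dep v) with h4 | h4
    · exact RF.D_cmp h1 h3 h4
    · exact absurd (RF.D_cmp h3 h1 h4) (nv x hx)

theorem touch_sig {C : Finset W} {x : W} (h : x ∈ sig H X C) : Touch H {x} C :=
  (mem_sig.1 h).2.symm

theorem disj_sig {C : Finset W} {x : W} (hX : Disjoint X F) (hC : C ⊆ F) {D : Finset W}
    (h : x ∈ sig H X D) : Disjoint {x} C :=
  disjoint_singleton_left.2 fun h' => disjoint_left.1 hX (mem_sig.1 h).1 (hC h')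

/-- Few disjoint connected sets see three vertices of `X`. -/
theorem few3 (hX : Disjoint X F) (hK : NoK33 H) (𝒞 : Finset (Finset W))
    (h1 : ∀ C ∈ 𝒞, (C ⊆ F ∧ Conn H C) ∧ 3 ≤ (sig H X C).card)
    (h2 : ∀ C ∈ 𝒞, ∀ C' ∈ 𝒞, C ≠ C' → Disjoint C C') : 𝒞.card ≤ X.card ^ 3 * 2 := by
  have : 𝒞 ⊆ (X ×ˢ X ×ˢ X).biUnion fun p => 𝒞.filter fun C => p.1 ≠ p.2.1 ∧ p.1 ≠ p.2.2 ∧
      p.2.1 ≠ p.2.2 ∧ p.1 ∈ sig H X C ∧ p.2.1 ∈ sig H X C ∧ p.2.2 ∈ sig H X C := by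
    intro C hC
    obtain ⟨a, b, c, a1, a2, a3, a4, a5, a6⟩ := two_lt_card_iff.1 (h1 C hC).2
    exact mem_biUnion.2 ⟨(a, b, c), mem_product.2 ⟨(mem_sig.1 a1).1,
      mem_product.2 ⟨(mem_sig.1 a2).1, (mem_sig.1 a3).1⟩⟩, mem_filter.2 ⟨hC, a4, a5, a6, a1, a2, a3⟩⟩
  refine (card_le_card this).trans ((card_biUnion_le_card_mul _ _ 2 fun p _ => ?_).trans
    (by simp [pow_succ, mul_assoc]))
  by_contra hn
  obtain ⟨C0, C1, C2, a0, a1, a2, n1, n2, n3⟩ := two_lt_card_iff.1 (not_le.1 hn)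
  obtain ⟨a0, b1, b2, b3, b0⟩ := mem_filter.1 a0
  obtain ⟨a1, -, -, -, c0⟩ := mem_filter.1 a1
  obtain ⟨a2, -, -, -, d0⟩ := mem_filter.1 a2
  refine hK.six (A0 := {p.1}) (A1 := {p.2.1}) (A2 := {p.2.2})
    ⟨Conn.singleton _, Conn.singleton _, Conn.singleton _⟩
    ⟨(h1 _ a0).1.2, (h1 _ a1).1.2, (h1 _ a2).1.2⟩ (by simp [b1, b2, b3])
    ⟨h2 _ a0 _ a1 n1, h2 _ a0 _ a2 n2, h2 _ a1 _ a2 n3⟩ ?_
  have : ∀ B ∈ 𝒞, p.1 ∈ sig H X B ∧ p.2.1 ∈ sig H X B ∧ p.2.2 ∈ sig H X B →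
      (Disjoint {p.1} B ∧ Touch H {p.1} B) ∧ (Disjoint {p.2.1} B ∧ Touch H {p.2.1} B) ∧
        Disjoint {p.2.2} B ∧ Touch H {p.2.2} B := fun B hB h =>
    ⟨⟨disj_sig hX (h1 _ hB).1.1 h.1, touch_sig h.1⟩,
      ⟨disj_sig hX (h1 _ hB).1.1 h.2.1, touch_sig h.2.1⟩,
      disj_sig hX (h1 _ hB).1.1 h.2.2, touch_sig h.2.2⟩
  rintro B (rfl | rfl | rfl)
  exacts [this _ a0 b0, this _ a1 c0, this _ a2 d0]

/-- The lowest vertices whose descendants see two vertices of `X`. -/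
def Low (t : RF H F) (X : Finset W) (v : W) : Prop :=
  2 ≤ (sig H X (t.D v)).card ∧ ∀ v' ∈ t.D v, 2 ≤ (sig H X (t.D v')).card → v' = v

theorem exists_low (t : RF H F) {v : W} (hv : v ∈ F) (h : 2 ≤ (sig H X (t.D v)).card) :
    ∃ s ∈ t.D v, Low t X s := by
  obtain ⟨s, ⟨s1, s2⟩, hm⟩ := exists_max_of
    (p := fun s => s ∈ t.D v ∧ 2 ≤ (sig H X (t.D s)).card) t.dep (F.sup t.dep)
    (fun a ha => le_sup (RF.D_sub ha.1)) ⟨v, RF.self_mem hv, h⟩
  exact ⟨s, s1, s2, fun v' h1 h2 => RF.D_eq h1 (hm v' ⟨RF.D_trans h1 s1, h2⟩)⟩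

theorem Low.disj {t : RF H F} {v v' : W} (h : Low t X v) (h' : Low t X v') (hne : v ≠ v') :
    Disjoint (t.D v) (t.D v') :=
  disjoint_left.2 fun _ h1 h2 => by
    rcases le_total (t.dep v) (t.dep v') with h3 | h3
    · exact hne (h.2 _ (RF.D_cmp h1 h2 h3) h'.1).symm
    · exact hne (h'.2 _ (RF.D_cmp h2 h1 h3) h.1)

theorem few2 (t : RF H F) (hX : Disjoint X F) (hK : NoK33 H) (Q : Finset W) :
    (F.filter fun v => t.rt v ∈ Q ∧ Low t X v).card ≤ Q.card * X.card ^ 2 * 2 := by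
  have : (F.filter fun v => t.rt v ∈ Q ∧ Low t X v) ⊆ (Q ×ˢ X ×ˢ X).biUnion fun p =>
      F.filter fun v => Low t X v ∧ t.rt v = p.1 ∧ p.2.1 ≠ p.2.2 ∧ p.2.1 ∈ sig H X (t.D v) ∧
        p.2.2 ∈ sig H X (t.D v) := by
    intro v hv
    obtain ⟨h1, h2, h3⟩ := mem_filter.1 hv
    obtain ⟨a, a1, b, a2, a3⟩ := one_lt_card.1 h3.1
    exact mem_biUnion.2 ⟨(t.rt v, a, b), mem_product.2 ⟨h2,
      mem_product.2 ⟨(mem_sig.1 a1).1, (mem_sig.1 a2).1⟩⟩, mem_filter.2 ⟨h1, h3, rfl, a3, a1, a2⟩⟩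
  refine (card_le_card this).trans ((card_biUnion_le_card_mul _ _ 2 fun p _ => ?_).trans
    (by simp [pow_succ, mul_assoc]))
  by_contra hn
  obtain ⟨v0, v1, v2, a0, a1, a2, n1, n2, n3⟩ := two_lt_card_iff.1 (not_le.1 hn)
  obtain ⟨a0, l0, r0, ne, b0⟩ := mem_filter.1 a0
  obtain ⟨a1, l1, r1, -, b1⟩ := mem_filter.1 a1
  obtain ⟨a2, l2, r2, -, b2⟩ := mem_filter.1 a2
  have m0 : v0 ∈ t.D p.1 := r0 ▸ RF.mem_rt a0
  have m1 : v1 ∈ t.D p.1 := r1 ▸ RF.mem_rt a1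
  have m2 : v2 ∈ t.D p.1 := r2 ▸ RF.mem_rt a2
  have d1 := l0.disj l1 n1
  have d2 := l0.disj l2 n2
  have d3 := l1.disj l2 n3
  -- every one of the three vertices has a companion with disjoint descendants
  have key : ∀ x, x = v0 ∨ x = v1 ∨ x = v2 → x ∈ F ∧ x ∈ t.D p.1 ∧ x ≠ p.1 ∧
      (∀ y, y = v0 ∨ y = v1 ∨ y = v2 → x ∈ t.D y → x = y) ∧
      p.2.1 ∈ sig H X (t.D x) ∧ p.2.2 ∈ sig H X (t.D x) := by
    have f : ∀ {x y : W}, x ∈ F → Disjoint (t.D x) (t.D y) → x ∉ t.D y := fun h1 h2 =>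
      disjoint_left.1 h2 (RF.self_mem h1)
    rintro x (rfl | rfl | rfl)
    · refine ⟨a0, m0, fun e => f a1 d1.symm (e ▸ m1), ?_, b0⟩
      rintro y (rfl | rfl | rfl) h
      exacts [rfl, absurd h (f a0 d1), absurd h (f a0 d2)]
    · refine ⟨a1, m1, fun e => f a0 d1 (e ▸ m0), ?_, b1⟩
      rintro y (rfl | rfl | rfl) h
      exacts [absurd h (f a1 d1.symm), rfl, absurd h (f a1 d3)]
    · refine ⟨a2, m2, fun e => f a0 d2 (e ▸ m0), ?_, b2⟩
      rintro y (rfl | rfl | rfl) h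
      exacts [absurd h (f a2 d2.symm), absurd h (f a2 d3.symm), rfl]
  have hp : p.1 ∈ F := RF.top_mem m0
  refine hK.six (A0 := {p.2.1}) (A1 := {p.2.2})
    (A2 := (t.D p.1).filter fun x => ∀ y, y = v0 ∨ y = v1 ∨ y = v2 → x ∉ t.D y)
    ⟨Conn.singleton _, Conn.singleton _, ?_⟩ ⟨RF.D_conn a0, RF.D_conn a1, RF.D_conn a2⟩
    ⟨by simp [ne], disj_sig hX ((filter_subset _ _).trans RF.D_sub) b0.1,
      disj_sig hX ((filter_subset _ _).trans RF.D_sub) b0.2⟩ ⟨d1, d2, d3⟩ ?_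
  · refine t.up_conn ((filter_subset _ _).trans RF.D_sub) (mem_filter.2 ⟨RF.self_mem hp,
      fun y hy h => (key y hy).2.2.1 (RF.D_eq (key y hy).2.1 (RF.D_dep h))⟩) fun x hx hne => ?_
    obtain ⟨h1, h2⟩ := mem_filter.1 hx
    obtain ⟨h3, h4⟩ := RF.par_mem h1 hne
    exact ⟨h3, mem_filter.2 ⟨h4, fun y hy h => h2 y hy (RF.of_par (RF.D_sub h1) h3 h)⟩⟩
  · have : ∀ x, x = v0 ∨ x = v1 ∨ x = v2 →
        (Disjoint {p.2.1} (t.D x) ∧ Touch H {p.2.1} (t.D x)) ∧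
        (Disjoint {p.2.2} (t.D x) ∧ Touch H {p.2.2} (t.D x)) ∧
        Disjoint ((t.D p.1).filter fun x => ∀ y, y = v0 ∨ y = v1 ∨ y = v2 → x ∉ t.D y) (t.D x) ∧
        Touch H ((t.D p.1).filter fun x => ∀ y, y = v0 ∨ y = v1 ∨ y = v2 → x ∉ t.D y) (t.D x) := by
      intro x hx
      obtain ⟨k1, k2, k3, k4, k5, k6⟩ := key x hx
      obtain ⟨h3, h4⟩ := RF.par_mem k2 k3
      refine ⟨⟨disj_sig hX RF.D_sub k5, touch_sig k5⟩, ⟨disj_sig hX RF.D_sub k6, touch_sig k6⟩,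
        disjoint_left.2 fun z h1 h2 => (mem_filter.1 h1).2 x hx h2, t.par x,
        mem_filter.2 ⟨h4, fun y hy h => ?_⟩, x, RF.self_mem k1, (t.up x k1 h3).2.1.symm⟩
      exact RF.par_not_mem k1 h3 (k4 y hy (RF.of_par k1 h3 h) ▸ h)
    rintro B (rfl | rfl | rfl)
    exacts [this v0 (by simp), this v1 (by simp), this v2 (by simp)]

theorem card_br (t : RF H F) (S : Finset W) :
    (F.filter fun v => ∃ x ∈ S, ∃ y ∈ S, t.Br v x y).card ≤ S.card ^ 2 := by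
  have : (F.filter fun v => ∃ x ∈ S, ∃ y ∈ S, t.Br v x y) ⊆
      (S ×ˢ S).biUnion fun p => F.filter fun v => t.Br v p.1 p.2 := by
    intro v hv
    obtain ⟨h1, x, hx, y, hy, h⟩ := mem_filter.1 hv
    exact mem_biUnion.2 ⟨(x, y), mem_product.2 ⟨hx, hy⟩, mem_filter.2 ⟨h1, h⟩⟩
  refine (card_le_card this).trans ((card_biUnion_le_card_mul _ _ 1 fun p _ => ?_).trans
    (by simp [pow_succ]))
  exact card_le_one.2 fun a ha b hb => (mem_filter.1 ha).2.uniq (mem_filter.1 hb).2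

/-- Two vertices destroy all sets that see two vertices of `X`, unless the set is rigid. -/
theorem hit2 (t : RF H F) (X T : Finset W) : ∃ Q : Finset W, Q.card ≤ 2 ∧
    (∀ r ∈ Q, r ∈ T ∧ 2 ≤ (sig H X (t.D r)).card ∧ ¬ Rigid H X T) ∧
    (T ⊆ F → ¬ Rigid H X T → ∀ C ⊆ T, Conn H C → 2 ≤ (sig H X C).card → ∃ r ∈ Q, r ∈ C) := by
  by_cases h : T ⊆ F ∧ ¬ Rigid H X T
  swap
  · exact ⟨∅, by simp, by simp, fun h1 h2 => absurd ⟨h1, h2⟩ h⟩
  obtain ⟨Q, q1, q2, q3⟩ := t.hit 2 (fun C => C ⊆ T ∧ Conn H C ∧ 2 ≤ (sig H X C).card)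
    (fun C hC => ⟨hC.1.trans h.1, hC.2.1⟩) (fun 𝒞 a1 a2 => by
      by_contra hn
      obtain ⟨C0, C1, C2, b0, b1, b2, n1, n2, n3⟩ := two_lt_card_iff.1 (not_le.1 hn)
      exact h.2 ⟨C0, C1, C2, a1 _ b0, a1 _ b1, a1 _ b2, a2 _ b0 _ b1 n1, a2 _ b0 _ b2 n2,
        a2 _ b1 _ b2 n3⟩)
  refine ⟨Q, q1, fun r hr => ?_, fun _ _ C c1 c2 c3 => q3 C ⟨c1, c2, c3⟩⟩
  obtain ⟨C, c1, c2, c3⟩ := q2 r hr
  exact ⟨c1.1 c2, c1.2.2.trans (card_le_card (sig_mono c3)), h.2⟩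

/-- The first set: it meets all sets that see three vertices, and contains the roots and the
lowest heavy vertices of its trees. -/
theorem stage0 (t : RF H F) (hX : Disjoint X F) (hK : NoK33 H) {k : ℕ} (hk : X.card ≤ k) :
    ∃ S ⊆ F, S.card ≤ k ^ 3 * 2 + k ^ 3 * 2 + k ^ 3 * 2 * k ^ 2 * 2 ∧ (∀ s ∈ S, t.rt s ∈ S) ∧
      (∀ C ⊆ F \ S, Conn H C → (sig H X C).card ≤ 2) ∧
      ∀ v ∈ F, t.rt v ∈ S → 2 ≤ (sig H X (t.D v)).card → ∃ s ∈ S, s ∈ t.D v := by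
  obtain ⟨Q, q1, q2, q3⟩ := t.hit _ (fun C => (C ⊆ F ∧ Conn H C) ∧ 3 ≤ (sig H X C).card)
    (fun C hC => hC.1) (few3 hX hK)
  have qF : Q ⊆ F := fun r hr => by
    obtain ⟨C, c1, c2, -⟩ := q2 r hr
    exact c1.1.1 c2
  have q4 : Q.card ≤ k ^ 3 * 2 := q1.trans (by gcongr)
  have q5 : (Q.image t.rt).card ≤ k ^ 3 * 2 := card_image_le.trans q4
  have q6 := (few2 t hX hK (Q.image t.rt)).trans
    (show _ ≤ k ^ 3 * 2 * k ^ 2 * 2 by gcongr)
  have sF : Q ∪ Q.image t.rt ∪ (F.filter fun v => t.rt v ∈ Q.image t.rt ∧ Low t X v) ⊆ F := by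
    refine union_subset (union_subset qF fun r hr => ?_) (filter_subset _ _)
    obtain ⟨s, hs, rfl⟩ := mem_image.1 hr
    exact RF.top_mem (RF.mem_rt (qF hs))
  have rt : ∀ s ∈ Q ∪ Q.image t.rt ∪ (F.filter fun v => t.rt v ∈ Q.image t.rt ∧ Low t X v),
      t.rt s ∈ Q.image t.rt := by
    intro s hs
    rcases mem_union.1 hs with hs | hs
    · rcases mem_union.1 hs with hs | hs
      · exact mem_image_of_mem _ hs
      · obtain ⟨s', hs', rfl⟩ := mem_image.1 hs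
        rw [RF.rt_rt (qF hs')]
        exact hs
    · exact (mem_filter.1 hs).2.1
  refine ⟨_, sF, (card_union_le _ _).trans (add_le_add ((card_union_le _ _).trans
    (add_le_add q4 q5)) q6), fun s hs => mem_union_left _ (mem_union_right _ (rt s hs)),
    fun C c1 c2 => ?_, fun v hv h1 h2 => ?_⟩
  · by_contra hn
    obtain ⟨r, hr, h⟩ := q3 C ⟨⟨c1.trans sdiff_subset, c2⟩, not_le.1 hn⟩
    exact (mem_sdiff.1 (c1 h)).2 (mem_union_left _ (mem_union_left _ hr))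
  · obtain ⟨s, s1, s2⟩ := exists_low t hv h2
    have := rt _ h1
    rw [RF.rt_rt hv, ← RF.rt_D s1] at this
    exact ⟨s, mem_union_right _ (mem_filter.2 ⟨RF.D_sub s1, this, s2⟩), s1⟩

/-- The final set. -/
theorem stage1 (t : RF H F) (hA : Lov.Acyc H F) (hX : Disjoint X F) {S0 : Finset W} (h0 : S0 ⊆ F)
    (ha : ∀ s ∈ S0, t.rt s ∈ S0) (hb : ∀ C ⊆ F \ S0, Conn H C → (sig H X C).card ≤ 2)
    (hc : ∀ v ∈ F, t.rt v ∈ S0 → 2 ≤ (sig H X (t.D v)).card → ∃ s ∈ S0, s ∈ t.D v) :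
    ∃ S ⊆ F, S.card ≤ (S0.card + S0.card ^ 2) * 3 ∧ ∀ w ∈ F \ S,
      ((X ∪ S).filter fun x => Touch H (comp H (F \ S) w) {x}).card ≤ 2 ∨
        ∃ u v oa ob m sp sd T0 T1 T2,
          BPiece H (X ∪ S) (comp H (F \ S) w) u v oa ob m sp sd T0 T1 T2 := by
  choose Q q1 q2 q3 using hit2 t X
  obtain ⟨S1, e1⟩ : ∃ S1, S1 = S0 ∪ F.filter fun v => ∃ x ∈ S0, ∃ y ∈ S0, t.Br v x y := ⟨_, rfl⟩
  have c1 : S1.card ≤ S0.card + S0.card ^ 2 :=
    e1 ▸ (card_union_le _ _).trans (add_le_add le_rfl (card_br t S0))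
  have s01 : S0 ⊆ S1 := e1 ▸ subset_union_left
  have s1F : S1 ⊆ F := e1 ▸ union_subset h0 (filter_subset _ _)
  have live1 : ∀ v ∈ S1, ∃ s ∈ S0, s ∈ t.D v := by
    intro v hv
    rcases mem_union.1 (e1 ▸ hv) with hv | hv
    · exact ⟨v, hv, RF.self_mem (h0 hv)⟩
    · obtain ⟨-, x, hx, y, -, h⟩ := mem_filter.1 hv
      exact ⟨x, hx, h.left⟩
  have rtl : ∀ v, (∃ s ∈ S0, s ∈ t.D v) → t.rt v ∈ S0 := fun v ⟨s, h1, h2⟩ => RF.rt_D h2 ▸ ha s h1
  obtain ⟨R2, e2⟩ : ∃ R2, R2 = (S1.filter fun s => 0 < t.dep s).biUnion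
    fun s => Q (comp H (F \ S1) (t.par s)) := ⟨_, rfl⟩
  have c2 : R2.card ≤ S1.card * 2 := e2 ▸ (card_biUnion_le_card_mul _ _ 2 fun s _ => q1 _).trans
    (Nat.mul_le_mul_right _ (card_filter_le _ _))
  have live2 : ∀ v ∈ R2, v ∈ F ∧ ∃ s ∈ S0, s ∈ t.D v := by
    intro v hv
    obtain ⟨s, hs, h⟩ := mem_biUnion.1 (e2 ▸ hv)
    obtain ⟨hs, ds⟩ := mem_filter.1 hs
    obtain ⟨a1, a2, -⟩ := q2 _ v h
    have vF := (mem_sdiff.1 (comp_subset a1)).1
    refine ⟨vF, hc v vF ?_ a2⟩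
    have a3 : v ∈ comp H F (t.par s) := comp_mono sdiff_subset a1
    have a4 := (t.up s (s1F hs) ds).1
    rw [t.rt_conn (comp_conn a4) comp_subset a3 (self_mem_comp a4),
      ← RF.rt_D (RF.mem_par (s1F hs) ds)]
    exact rtl s (live1 s hs)
  have live : ∀ v ∈ S1 ∪ R2, ∃ s ∈ S0, s ∈ t.D v := fun v hv =>
    (mem_union.1 hv).elim (live1 v) fun h => (live2 v h).2
  have sF : S1 ∪ R2 ⊆ F := union_subset s1F fun v hv => (live2 v hv).1
  have s02 : S0 ⊆ S1 ∪ R2 := s01.trans subset_union_left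
  have rt0 : ∀ v ∈ F, t.rt v ∈ S1 ∪ R2 → t.rt v ∈ S0 := fun v hv h =>
    RF.rt_rt hv ▸ rtl _ (live _ h)
  refine ⟨S1 ∪ R2, sF, (card_union_le _ _).trans (by omega), fun w hw =>
    comp_tame t hA hX sF (fun s hs => s02 (rtl s (live s hs)))
      (fun C c => hb C (c.trans (sdiff_subset_sdiff subset_rfl s02)))
      (fun v hv h1 h2 => ?_) (fun v x hx y hy h => ?_) (fun w hw h1 h2 => ?_) hw⟩
  · obtain ⟨s, h3, h4⟩ := hc v hv (rt0 v hv h1) h2
    exact ⟨s, s02 h3, h4⟩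
  · obtain ⟨x', x1, x2⟩ := live x hx
    obtain ⟨y', y1, y2⟩ := live y hy
    have vF := RF.top_mem h.left
    obtain ⟨c, b1, c', b2, b3, b4, b5, b6, b7, b8, b9⟩ := h
    exact mem_union_left _ (e1 ▸ mem_union_right _ (mem_filter.2 ⟨vF, x', x1, y', y1,
      c, b1, c', b2, b3, b4, b5, b6, b7, RF.D_trans x2 b8, RF.D_trans y2 b9⟩))
  · have sub : F \ (S1 ∪ R2) ⊆ F \ S1 := sdiff_subset_sdiff subset_rfl subset_union_left
    have hw1 := sub hw
    have sT : comp H (F \ (S1 ∪ R2)) w ⊆ comp H (F \ S1) w := comp_mono sub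
    have cT : Conn H (comp H (F \ S1) w) := comp_conn hw1
    have TF : comp H (F \ S1) w ⊆ F := comp_subset.trans sdiff_subset
    obtain ⟨r, hr, top⟩ := t.top cT TF
    -- the component is the component of the parent of a vertex of `S1`
    obtain ⟨s, ⟨s1, s2⟩, sm⟩ := exists_min_of (p := fun s => s ∈ S1 ∧ s ∈ t.D r) t.dep (by
      obtain ⟨s, h3, h4⟩ := hc r (TF hr)
        (t.rt_conn cT TF hr (self_mem_comp hw1) ▸ rt0 w (mem_sdiff.1 hw).1 h1)
        (h2.trans (card_le_card (sig_mono (sT.trans top))))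
      exact ⟨s, s01 h3, h4⟩)
    have nr : s ≠ r := fun e => (mem_sdiff.1 (comp_subset hr)).2 (e ▸ s1)
    obtain ⟨ds, ps⟩ := RF.par_mem s2 nr
    have pT : t.par s ∈ comp H (F \ S1) w := by
      have cP : Conn H ((t.D r).filter fun x => t.par s ∈ t.D x) := by
        refine t.up_conn ((filter_subset _ _).trans RF.D_sub)
          (mem_filter.2 ⟨RF.self_mem (TF hr), ps⟩) fun x hx hne => ?_
        obtain ⟨a1, a2⟩ := mem_filter.1 hx
        obtain ⟨a3, a4⟩ := RF.par_mem a1 hne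
        exact ⟨a3, mem_filter.2 ⟨a4, RF.D_trans a2 (RF.mem_par (RF.D_sub a1) a3)⟩⟩
      refine cP.subset_comp (fun x hx => ?_) (mem_filter.2 ⟨RF.self_mem (TF hr), ps⟩) hr
        (mem_filter.2 ⟨ps, RF.self_mem (RF.D_sub ps)⟩)
      obtain ⟨a1, a2⟩ := mem_filter.1 hx
      refine mem_sdiff.2 ⟨RF.D_sub a1, fun h => ?_⟩
      have := sm x ⟨h, a1⟩
      have := RF.D_dep a2
      have := (t.up s (s1F s1) ds).2.2
      omega
    have eT := comp_eq pT
    have rig : Rigid H X (comp H (F \ S1) w) := by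
      by_contra hn
      obtain ⟨z, z1, z2⟩ := q3 _ TF hn _ sT (comp_conn hw) h2
      exact (mem_sdiff.1 (comp_subset z2)).2 (mem_union_right _ (e2 ▸ mem_biUnion.2
        ⟨s, mem_filter.2 ⟨s1, ds⟩, eT ▸ z1⟩))
    have : comp H (F \ S1) w ⊆ comp H (F \ (S1 ∪ R2)) w := by
      refine cT.subset_comp (fun z hz => ?_) (self_mem_comp hw1) (self_mem_comp hw)
      refine mem_sdiff.2 ⟨TF hz, fun h => (mem_union.1 h).elim (mem_sdiff.1 (comp_subset hz)).2
        fun h => ?_⟩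
      obtain ⟨s', -, h⟩ := mem_biUnion.1 (e2 ▸ h)
      obtain ⟨a1, -, a3⟩ := q2 _ z h
      rw [← comp_eq a1, comp_eq hz] at a3
      exact a3 rig
    rw [Subset.antisymm sT this]
    exact rig

end Cut

theorem cut (hROOT : ROOTStmt) : CUTStmt := by
  intro k
  obtain ⟨n, hn⟩ : ∃ n, n = k ^ 3 * 2 + k ^ 3 * 2 + k ^ 3 * 2 * k ^ 2 * 2 := ⟨_, rfl⟩
  refine ⟨k + (n + n ^ 2) * 3, fun {W} _ H X hk hA hK => ?_⟩
  obtain ⟨par, dep, h1, h2⟩ := hROOT H _ hA
  have hX : Disjoint X (univ \ X) := disjoint_sdiff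
  obtain ⟨S0, a1, a2, a3, a4, a5⟩ := Cut.stage0 ⟨par, dep, h1, h2⟩ hX hK hk
  obtain ⟨S, b1, b2, b3⟩ := Cut.stage1 ⟨par, dep, h1, h2⟩ hA hX a1 a3 a4 a5
  rw [← hn] at a2
  refine ⟨X ∪ S, subset_union_left, (card_union_le _ _).trans
    (add_le_add hk (b2.trans (by gcongr))), fun w hw => ?_⟩
  have e : univ \ (X ∪ S) = (univ \ X) \ S := by rw [sdiff_sdiff_left, sup_eq_union]
  rw [e]
  exact b3 w (e ▸ mem_sdiff.2 ⟨mem_univ w, hw⟩)

end Pool.Agent.MP_7be75d_co.Gen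

end MrgPart4

-- marker of a merged file
example : 731051 + 80375 = 731051 + 80375 := rfl
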