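import Pool.Agent.MP_7be75d_co.Gen.Time

-- ======== part 0: formerly Pool.Agent.MP_7be75d_co.Gen.Half1
section MrgPart0

/-! Module HALF, first part: fat lanes, the graphs of touching lanes, blocks of rows. -/

namespace Pool.Agent.MP_7be75d_co.Gen

open Finset
open scoped Classical

namespace HALF

variable {V α τ : Type} {G : SimpleGraph V}

section degree

variable {ι : Type} [Fintype ι] {Γ Γ' : SimpleGraph ι} {u v a b : ι}

theorem adj_of_dg (h : Γ' ≤ Γ) (h1 : dg Γ v ≤ 2) (h2 : 2 ≤ dg Γ' v) (huv : Γ.Adj v u) :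
    Γ'.Adj v u := by
  have h3 : univ.filter (Γ'.Adj v) = univ.filter (Γ.Adj v) :=
    eq_of_subset_of_card_le (fun x hx => mem_filter.2 ⟨mem_univ _, h (mem_filter.1 hx).2⟩)
      (h1.trans h2)
  have h4 : u ∈ univ.filter (Γ'.Adj v) := h3 ▸ mem_filter.2 ⟨mem_univ _, huv⟩
  exact (mem_filter.1 h4).2

theorem two_nbrs (h1 : dg Γ v ≤ 2) (ha : Γ.Adj v a) (hb : Γ.Adj v b) (hab : a ≠ b)
    (hu : Γ.Adj v u) : u = a ∨ u = b := by
  have h3 : ({a, b} : Finset ι) = univ.filter (Γ.Adj v) :=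
    eq_of_subset_of_card_le (by simp [insert_subset_iff, ha, hb]) (by rw [card_pair hab]; exact h1)
  have h4 : u ∈ ({a, b} : Finset ι) := h3 ▸ mem_filter.2 ⟨mem_univ _, hu⟩
  simpa using h4

omit [Fintype ι] in
theorem conn_le {S : Finset ι} (h : Conn Γ' S) (hle : Γ' ≤ Γ) : Conn Γ S :=
  h.mono' fun _ _ h _ _ => hle h

end degree

/-- The lanes of the second kind are merged into one set. -/
noncomputable def qf [Fintype τ] (F : α ⊕ τ → Finset V) : Option α → Finset V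
  | some i => F (Sum.inl i)
  | none => univ.biUnion fun t => F (Sum.inr t)

section qf

variable [Fintype τ] {F F' : α ⊕ τ → Finset V}

theorem sub_qf (j : α ⊕ τ) : F j ⊆ qf F j.getLeft? := by
  cases j with
  | inl i => exact subset_rfl
  | inr t => exact subset_biUnion_of_mem (fun t => F (Sum.inr t)) (mem_univ t)

theorem qf_le (h : ∀ j, F j ⊆ F' j) : tg G (qf F) ≤ tg G (qf F') :=
  tg_mono fun k => by
    cases k with
    | none => exact biUnion_mono fun t _ => h _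
    | some i => exact h _

theorem conn_qf [Fintype α] [Nonempty τ] (h : Conn (tg G F) univ) : Conn (tg G (qf F)) univ := by
  obtain ⟨t0⟩ := ‹Nonempty τ›
  have key : ∀ j : α ⊕ τ, R (tg G (qf F)) univ none j.getLeft? := fun j =>
    (h.2 (Sum.inr t0) (mem_univ _) j (mem_univ _)).ind
      (P := fun j => R (tg G (qf F)) univ none j.getLeft?) R.refl fun x y _ hx hxy _ _ => by
        by_cases e : x.getLeft? = y.getLeft?
        · exact e ▸ hx
        · exact hx.tail ⟨e, hxy.2.mono (sub_qf x) (sub_qf y)⟩ (mem_univ _) (mem_univ _)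
  refine Conn.of_center (mem_univ none) fun k _ => ?_
  cases k with
  | none => exact R.refl
  | some i => exact key (Sum.inl i)

end qf

/-- Fat lanes in four regions between the hair `U` and the last region `D`. -/
structure Pre5 [Fintype α] [Fintype τ] (G : SimpleGraph V) (Big S D U B0 : Finset V)
    (X : ℕ → α ⊕ τ → Finset V) (x5 : α ⊕ τ → V) (tm : τ → V) : Prop where
  sub : ∀ e < 4, ∀ j, X e j ⊆ Big
  conn : ∀ e < 4, ∀ j, Conn G (X e j)
  disj : ∀ e < 4, ∀ e' < 4, ∀ j j', e ≠ e' ∨ j ≠ j' → Disjoint (X e j) (X e' j')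
  dU : ∀ e < 4, ∀ j, Disjoint (X e j) U
  dD : ∀ e < 4, ∀ j, Disjoint (X e j) D
  hor : ∀ e < 3, ∀ j, Touch G (X e j) (X (e + 1) j)
  last : ∀ j, Touch G (X 3 j) {x5 j}
  st : ∀ i, ∃ v ∈ S, v ∈ X 0 (Sum.inl i)
  tmB : ∀ t, tm t ∈ B0
  tmT : ∀ t, Touch G (X 0 (Sum.inr t)) {tm t}
  gam : ∀ e < 4, Conn (tg G (X e)) univ
  subD : D ⊆ Big
  subU : U ⊆ Big
  dUD : Disjoint U D
  subB : B0 ⊆ U
  connB : Conn G B0

/-- The last parts of the lanes. -/
structure Ends5 (G : SimpleGraph V) (D E : Finset V) (x5 : α ⊕ τ → V) (Dp : α ⊕ τ → Finset V) :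
    Prop where
  sub : ∀ j, Dp j ⊆ D
  conn : ∀ j, Conn G (Dp j)
  disj : ∀ j j', j ≠ j' → Disjoint (Dp j) (Dp j')
  mem : ∀ j, x5 j ∈ Dp j
  en : ∀ j, ∃ y ∈ E, y ∈ Dp j

/-- The four fat parts of a lane. -/
noncomputable def xa (X : ℕ → α ⊕ τ → Finset V) (j : α ⊕ τ) : Finset V :=
  (range 4).biUnion fun e => X e j

theorem sub_xa {X : ℕ → α ⊕ τ → Finset V} {e : ℕ} (he : e < 4) (j : α ⊕ τ) : X e j ⊆ xa X j :=
  subset_biUnion_of_mem (fun e => X e j) (mem_range.2 he)

theorem mem_xa {X : ℕ → α ⊕ τ → Finset V} {j : α ⊕ τ} {v : V} :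
    v ∈ xa X j ↔ ∃ e < 4, v ∈ X e j := by simp [xa]

section pre

variable [Fintype α] [Fintype τ] {Big S D U B0 E : Finset V} {X : ℕ → α ⊕ τ → Finset V}
  {x5 : α ⊕ τ → V} {tm : τ → V} {Dp : α ⊕ τ → Finset V} {m : ℕ}

theorem Pre5.conn_xa (h : Pre5 G Big S D U B0 X x5 tm) (j : α ⊕ τ) : Conn G (xa X j) := by
  have e : xa X j = X 0 j ∪ X 1 j ∪ X 2 j ∪ X 3 j := by
    ext v
    simp only [mem_xa, mem_union]
    constructor
    · rintro ⟨e, he, hv⟩
      interval_cases e <;> simp [hv]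
    · rintro (((hv | hv) | hv) | hv) <;> exact ⟨_, by omega, hv⟩
  rw [e]
  exact (((h.conn 0 (by omega) j).union_touch (h.conn 1 (by omega) j)
    (h.hor 0 (by omega) j)).union_touch (h.conn 2 (by omega) j)
    ((h.hor 1 (by omega) j).mono subset_union_right subset_rfl)).union_touch
    (h.conn 3 (by omega) j) ((h.hor 2 (by omega) j).mono subset_union_right subset_rfl)

theorem Pre5.touch_xa (h : Pre5 G Big S D U B0 X x5 tm) (j : α ⊕ τ) {T : Finset V}
    (hT : x5 j ∈ T) : Touch G (xa X j) T :=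
  (h.last j).mono (sub_xa (by omega) j) (by simpa using hT)

/-- A star in the graph of the whole lanes is a win. -/
theorem nostar (h : Pre5 G Big S D U B0 X x5 tm) (hD : Ends5 G D E x5 Dp) (m : ℕ) :
    WinS G Big S E m ∨ NoStar (tg G (qf fun j => xa X j ∪ Dp j)) (m + 1) := by
  have f1 : ∀ j, xa X j ∪ Dp j ⊆ Big := fun j => union_subset
    (biUnion_subset.2 fun e he => h.sub e (mem_range.1 he) j) ((hD.sub j).trans h.subD)
  have f2 : ∀ j, Conn G (xa X j ∪ Dp j) := fun j =>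
    (h.conn_xa j).union_touch (hD.conn j) (h.touch_xa j (hD.mem j))
  have f3 : ∀ j j', j ≠ j' → Disjoint (xa X j ∪ Dp j) (xa X j' ∪ Dp j') := by
    intro j j' hn
    refine disjoint_left.2 fun v h1 h2 => ?_
    simp only [mem_union, mem_xa] at h1 h2
    rcases h1 with ⟨e, he, h1⟩ | h1 <;> rcases h2 with ⟨e', he', h2⟩ | h2
    · exact disjoint_left.1 (h.disj e he e' he' j j' (Or.inr hn)) h1 h2
    · exact disjoint_left.1 (h.dD e he j) h1 (hD.sub _ h2)
    · exact disjoint_left.1 (h.dD e' he' j') h2 (hD.sub _ h1)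
    · exact disjoint_left.1 (hD.disj j j' hn) h1 h2
  have f4 : ∀ j, Disjoint (xa X j ∪ Dp j) B0 := by
    intro j
    refine disjoint_left.2 fun v h1 h2 => ?_
    simp only [mem_union, mem_xa] at h1
    rcases h1 with ⟨e, he, h1⟩ | h1
    · exact disjoint_left.1 (h.dU e he j) h1 (h.subB h2)
    · exact disjoint_left.1 h.dUD (h.subB h2) (hD.sub _ h1)
  obtain ⟨T, t1, t2⟩ : ∃ T : Option α → Finset V, (∀ i, T (some i) =
      xa X (Sum.inl i) ∪ Dp (Sum.inl i)) ∧
      T none = B0 ∪ univ.biUnion fun t => xa X (Sum.inr t) ∪ Dp (Sum.inr t) :=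
    ⟨fun k => k.elim (B0 ∪ univ.biUnion fun t => xa X (Sum.inr t) ∪ Dp (Sum.inr t))
      fun i => xa X (Sum.inl i) ∪ Dp (Sum.inl i), fun _ => rfl, rfl⟩
  have f5 : ∀ i, Disjoint (T (some i)) (T none) := fun i => by
    rw [t1, t2, disjoint_union_right, disjoint_biUnion_right]
    exact ⟨f4 _, fun t _ => f3 _ _ (by simp)⟩
  by_cases hs : NoStar (tg G T) (m + ({none} : Finset (Option α)).card)
  · refine Or.inr (NoStar.anti (by simpa using hs) (tg_mono fun k => ?_))
    cases k with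
    | none => rw [t2]; exact subset_union_right
    | some i => rw [t1]; exact subset_rfl
  · refine Or.inl (star {none} (fun k => ?_) (fun k k' hn => ?_) (fun k hk => ?_) hs)
    · cases k with
      | none =>
        rw [t2]
        exact ⟨union_subset (h.subB.trans h.subU) (biUnion_subset.2 fun t _ => f1 _),
          h.connB.attach_sets _ fun t _ => ⟨f2 _, (h.tmT t).symm.mono (by simpa using h.tmB t)
            ((sub_xa (by omega) _).trans subset_union_left)⟩⟩
      | some i => rw [t1]; exact ⟨f1 _, f2 _⟩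
    · cases k <;> cases k'
      · exact absurd rfl hn
      · exact (f5 _).symm
      · exact f5 _
      · rw [t1, t1]
        exact f3 _ _ (by simpa using hn)
    · cases k with
      | none => simp at hk
      | some i =>
        rw [t1]
        obtain ⟨v, h1, h2⟩ := h.st i
        obtain ⟨y, h3, h4⟩ := hD.en (Sum.inl i)
        exact ⟨⟨v, h1, mem_union_left _ (sub_xa (by omega) _ h2)⟩, y, h3, mem_union_right _ h4⟩

omit [Fintype α] in
theorem Pre5.le_full {e : ℕ} (he : e < 4) :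
    tg G (qf (X e)) ≤ tg G (qf fun j => xa X j ∪ Dp j) :=
  qf_le fun j => (sub_xa he j).trans subset_union_left

/-- Rows: injective, and consecutive rows touch in each of the four regions. -/
def Rows (G : SimpleGraph V) (X : ℕ → α ⊕ τ → Finset V) (nb c : ℕ) (lam : ℕ → ℕ → α) : Prop :=
  (∀ b < nb, ∀ r < c, ∀ b' < nb, ∀ r' < c, lam b r = lam b' r' → b = b' ∧ r = r') ∧
    ∀ e < 4, ∀ b < nb, ∀ r, r + 1 < c →
      Touch G (X e (Sum.inl (lam b r))) (X e (Sum.inl (lam b (r + 1))))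

theorem blocks1 [Nonempty τ] (hKW : KWStmt) (hBLK : BLKStmt) (h : Pre5 G Big S D U B0 X x5 tm)
    (hD : Ends5 G D E x5 Dp) {nb c : ℕ} (hc : 0 < c)
    (hn : nb * (c + c * c) + c * (9 * m + 19) + (8 * m + 18) ≤ Fintype.card α) :
    WinS G Big S E m ∨ ∃ lam, Rows G X nb c lam := by
  refine (nostar h hD m).imp_right fun hs => ?_
  have hα : Nonempty α := Fintype.card_pos_iff.1 (by omega)
  have c1 := conn_le (conn_qf (h.gam 0 (by omega))) (Pre5.le_full (Dp := Dp) (by omega))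
  have k1 := (hKW _ _ c1 hs).1
  have k2 := fun e (he : e < 4) =>
    (hKW _ _ (conn_qf (h.gam e he)) (hs.anti (Pre5.le_full he))).2
  obtain ⟨Gd, hG⟩ : ∃ Gd : Finset (Option α), ∀ v, v ∈ Gd ↔ v ≠ none ∧
      dg (tg G (qf fun j => xa X j ∪ Dp j)) v ≤ 2 ∧ ∀ e < 4, 2 ≤ dg (tg G (qf (X e))) v :=
    ⟨univ.filter fun v => v ≠ none ∧ dg (tg G (qf fun j => xa X j ∪ Dp j)) v ≤ 2 ∧
      ∀ e < 4, 2 ≤ dg (tg G (qf (X e))) v, fun v => by simp only [mem_filter, mem_univ, true_and]⟩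
  have hb : (univ \ Gd).card ≤ 8 * m + 18 := by
    have h1 : univ \ Gd ⊆ insert none ((univ.filter fun v =>
        3 ≤ dg (tg G (qf fun j => xa X j ∪ Dp j)) v) ∪
        (range 4).biUnion fun e => univ.filter fun v => dg (tg G (qf (X e))) v ≤ 1) := by
      intro v hv
      have h2 := (hG v).not.1 (mem_sdiff.1 hv).2
      simp only [mem_insert, mem_union, mem_filter, mem_univ, true_and, mem_biUnion, mem_range]
      by_contra hcon
      push Not at hcon
      exact h2 ⟨hcon.1, by have := hcon.2.1; omega, fun e he => hcon.2.2 e he⟩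
    have h2 := card_biUnion_le_card_mul (range 4) _ (m + 1 + 2) fun e he => k2 e (mem_range.1 he)
    have h3 := (card_le_card h1).trans ((card_insert_le _ _).trans
      (Nat.add_le_add_right (card_union_le _ _) 1))
    rw [card_range] at h2
    omega
  rw [card_univ_sdiff, Fintype.card_option] at hb
  obtain ⟨lam, l1, l2, l3⟩ := hBLK _ Gd (m + 1) c nb c1 hs (fun v hv => ((hG v).1 hv).2.1)
    ⟨none, fun hv => ((hG _).1 hv).1 rfl⟩ (by
      rw [@card_univ_sdiff _ (_) _, Fintype.card_option]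
      have := Nat.mul_le_mul_left c
        (show m + 1 + (Fintype.card α + 1 - Gd.card) ≤ 9 * m + 19 by omega)
      omega) hc
  have hl : ∀ b < nb, ∀ r < c, lam b r = some ((lam b r).getD (Classical.arbitrary α)) := by
    intro b hb r hr
    obtain ⟨i, hi⟩ := Option.ne_none_iff_exists'.1 ((hG _).1 (l1 b hb r hr)).1
    rw [hi]
    rfl
  refine ⟨fun b r => (lam b r).getD (Classical.arbitrary α), fun b hb r hr b' hb' r' hr' e =>
    l2 b hb r hr b' hb' r' hr' (by rw [hl b hb r hr, hl b' hb' r' hr']; exact congrArg _ e),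
    fun e he b hb r hr => ?_⟩
  have h1 := (hG _).1 (l1 b hb r (by omega))
  have h2 := (adj_of_dg (Pre5.le_full he) h1.2.1 (h1.2.2 e he) (l3 b hb r hr)).2
  rw [hl b hb r (by omega), hl b hb (r + 1) hr] at h2
  exact h2

omit [Fintype α] [Fintype τ] in
theorem Rows.comp {nb nb' c : ℕ} {lam : ℕ → ℕ → α} (h : Rows G X nb' c lam) {g : ℕ → ℕ}
    (h1 : ∀ b < nb, g b < nb') (h2 : ∀ b < nb, ∀ b' < nb, g b = g b' → b = b') :
    Rows G X nb c fun b => lam (g b) :=
  ⟨fun b hb r hr b' hb' r' hr' e =>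
    have := h.1 _ (h1 b hb) r hr _ (h1 b' hb') r' hr' e
    ⟨h2 b hb b' hb' this.1, this.2⟩, fun e he b hb => h.2 e he _ (h1 b hb)⟩

/-- The vertices of one lane. -/
noncomputable def ls {W ι : Type} [Fintype W] (lane : W → ι) (j : ι) : Finset W :=
  univ.filter fun w => lane w = j

theorem mem_ls {W ι : Type} [Fintype W] {lane : W → ι} {j : ι} {w : W} :
    w ∈ ls lane j ↔ lane w = j := by simp [ls]

theorem conn_ls {W ι : Type} [Fintype W] {M : SimpleGraph W} {lane : W → ι} {ν : W → ℕ}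
    {fst : ι → W} (h : Timed M lane ν fst) (j : ι) : Conn M (ls lane j) :=
  Conn.of_center (mem_ls.2 (h.lf j)) fun w hw => by
    obtain rfl := mem_ls.1 hw
    exact PORTA.lane_walk h (h.lf _) (h.first w) fun c hc _ _ => mem_ls.2 hc

/-- A model of the timed graph in the last region. -/
structure Br {W : Type} (G : SimpleGraph V) (D E : Finset V) (x5 : α ⊕ τ → V) (M : SimpleGraph W)
    (br : W → Finset V) (lane : W → α ⊕ τ) (fst : α ⊕ τ → W) : Prop where
  sub : ∀ w, br w ⊆ D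
  conn : ∀ w, Conn G (br w)
  disj : ∀ w w', w ≠ w' → Disjoint (br w) (br w')
  adj : ∀ w w', M.Adj w w' → Touch G (br w) (br w')
  fs : ∀ j, x5 j ∈ br (fst j)
  en : ∀ j, ∃ w, lane w = j ∧ ∃ y ∈ E, y ∈ br w

variable {W : Type} [Fintype W] {M : SimpleGraph W} {br : W → Finset V} {lane : W → α ⊕ τ}
  {ν : W → ℕ} {fst : α ⊕ τ → W}

omit [Fintype α] [Fintype τ] in
theorem Br.ends (h : Br G D E x5 M br lane fst) (hT : Timed M lane ν fst) :
    Ends5 G D E x5 fun j => (ls lane j).biUnion br :=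
  ⟨fun _ => biUnion_subset.2 fun w _ => h.sub w, fun j => conn_map h.conn h.adj (conn_ls hT j),
    fun _ _ hn => disj_map h.disj (disjoint_left.2 fun _ h1 h2 =>
      hn ((mem_ls.1 h1).symm.trans (mem_ls.1 h2))),
    fun j => mem_biUnion.2 ⟨_, mem_ls.2 (hT.lf j), h.fs j⟩, fun j => by
      obtain ⟨w, h1, y, h2, h3⟩ := h.en j
      exact ⟨y, h2, mem_biUnion.2 ⟨w, mem_ls.2 h1, h3⟩⟩⟩

theorem blocks2 [Nonempty τ] (hKW : KWStmt) (h : Pre5 G Big S D U B0 X x5 tm)
    (hB : Br G D E x5 M br lane fst) (hT : Timed M lane ν fst) {nb c : ℕ} {lam : ℕ → ℕ → α}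
    (hR : Rows G X (nb + (4 * m + 5)) (c + 18) lam) :
    WinS G Big S E m ∨ ∃ g : ℕ → ℕ, (∀ b < nb, g b < nb + (4 * m + 5)) ∧
      (∀ b < nb, ∀ b' < nb, g b = g b' → b = b') ∧
      Blocks M lane nb c fun b r => Sum.inl (lam (g b) r) := by
  refine (nostar h (hB.ends hT) m).imp_right fun hs => ?_
  have hle := Pre5.le_full (G := G) (X := X) (Dp := fun j => (ls lane j).biUnion br)
    (show 0 < 4 by omega)
  have k1 := (hKW _ _ (conn_le (conn_qf (h.gam 0 (by omega))) hle) hs).1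
  generalize hΓ : tg G (qf fun j => xa X j ∪ (ls lane j).biUnion br) = Γ at hs hle k1
  have h1 := card_meet_le (L := fun b => (range (c + 18)).image fun r => some (lam b r))
    (range (nb + (4 * m + 5))) (univ.filter fun v => 3 ≤ dg Γ v) fun b hb b' hb' hn => by
      refine disjoint_left.2 fun v h1 h2 => ?_
      obtain ⟨r, hr, rfl⟩ := mem_image.1 h1
      obtain ⟨r', hr', e⟩ := mem_image.1 h2
      exact hn (hR.1 _ (mem_range.1 hb') _ (mem_range.1 hr') _ (mem_range.1 hb) _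
        (mem_range.1 hr) (Option.some.inj e)).1.symm
  have h2 := card_filter_add_card_filter_not (s := range (nb + (4 * m + 5))) fun b =>
    Disjoint ((range (c + 18)).image fun r => some (lam b r)) (univ.filter fun v => 3 ≤ dg Γ v)
  have h3 : ((range (nb + (4 * m + 5))).filter fun b =>
      ¬ Disjoint ((range (c + 18)).image fun r => some (lam b r))
        (univ.filter fun v => 3 ≤ dg Γ v)).card ≤ (univ.filter fun v => 3 ≤ dg Γ v).card := by
    convert h1
  rw [card_range] at h2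
  obtain ⟨g, g1, g2⟩ := exists_enum (A := (range (nb + (4 * m + 5))).filter fun b =>
    Disjoint ((range (c + 18)).image fun r => some (lam b r)) (univ.filter fun v => 3 ≤ dg Γ v))
    (m := nb) (by omega)
  have g3 : ∀ b < nb, g b < nb + (4 * m + 5) := fun b hb => mem_range.1 (mem_filter.1 (g1 b hb)).1
  refine ⟨g, g3, g2, fun b hb r hr b' hb' r' hr' e =>
    (hR.comp g3 g2).1 b hb r hr b' hb' r' hr' (Sum.inl.inj e), fun b hb r r1 r2 x y hx hxy => ?_⟩
  by_cases e : lane y = Sum.inl (lam (g b) r)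
  · exact Or.inl e
  have hd : dg Γ (some (lam (g b) r)) ≤ 2 := by
    have := disjoint_left.1 (mem_filter.1 (g1 b hb)).2
      (mem_image_of_mem _ (mem_range.2 (show r < c + 18 by omega)))
    simp only [mem_filter, mem_univ, true_and] at this
    omega
  have hne : ∀ r1 < c + 18, ∀ r2 < c + 18, r1 ≠ r2 → some (lam (g b) r1) ≠ some (lam (g b) r2) :=
    fun r1 h1 r2 h2 hn e => hn (hR.1 _ (g3 b hb) _ h1 _ (g3 b hb) _ h2 (Option.some.inj e)).2
  have a1 : Γ.Adj (some (lam (g b) r)) (some (lam (g b) (r - 1))) := by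
    have := hR.2 0 (by omega) _ (g3 b hb) (r - 1) (by omega)
    rw [show r - 1 + 1 = r by omega] at this
    exact hle ⟨hne _ (by omega) _ (by omega) (by omega), this.symm⟩
  have a2 : Γ.Adj (some (lam (g b) r)) (some (lam (g b) (r + 1))) :=
    hle ⟨hne _ (by omega) _ (by omega) (by omega), hR.2 0 (by omega) _ (g3 b hb) r (by omega)⟩
  have a3 : Γ.Adj (some (lam (g b) r)) (lane y).getLeft? := by
    rw [← hΓ]
    refine ⟨fun e' => e (Sum.getLeft?_eq_some_iff.1 e'.symm), (hB.adj x y hxy).mono ?_ ?_⟩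
    · exact (subset_biUnion_of_mem br (mem_ls.2 hx)).trans subset_union_right
    · exact ((subset_biUnion_of_mem br (mem_ls.2 rfl)).trans subset_union_right).trans
        (sub_qf (F := fun j => xa X j ∪ (ls lane j).biUnion br) (lane y))
  rcases two_nbrs hd a1 a2 (hne _ (by omega) _ (by omega) (by omega)) a3 with h3 | h3
  · exact Or.inr (Or.inl (Sum.getLeft?_eq_some_iff.1 h3))
  · exact Or.inr (Or.inr (Sum.getLeft?_eq_some_iff.1 h3))

end pre

/-- The fat lanes of a system of length six. -/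
theorem pre5 {ι : Type} [Fintype ι] [Fintype α] [Fintype τ] [Nonempty τ] (hFAT : FATStmt)
    {C : ℕ → CD V ι} (h : SPoS G 6 C) {emb : α ⊕ τ → ι} (he : Function.Injective emb)
    {U B0 : Finset V} (hU : U ⊆ (C 0).reg) (hB : B0 ⊆ U) (hB' : Conn G B0)
    (h1 : ∀ i, Disjoint ((C 0).lane (emb (Sum.inl i))) U)
    (h2 : ∀ t, (C 0).b (emb (Sum.inr t)) ∈ B0) :
    ∃ X, Pre5 G (Reg C 6) (St C) (C 5).reg U B0 X (fun j => (C 5).a (emb j))
      fun t => (C 0).b (emb (Sum.inr t)) := by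
  obtain ⟨t0⟩ := ‹Nonempty τ›
  have hw : (∅ : Finset V).card < Fintype.card ι := Fintype.card_pos_iff.2 ⟨emb (Sum.inr t0)⟩
  have hQ : ∀ e, ∃ Q : α ⊕ τ → Finset V, e < 4 →
      (∀ j, (C (e + 1)).lane (emb j) ⊆ Q j ∧ Q j ⊆ (C (e + 1)).reg ∧ Conn G (Q j)) ∧
      (∀ j j', j ≠ j' → Disjoint (Q j) (Q j')) ∧ Conn (tg G Q) univ := by
    intro e
    by_cases h4 : e < 4
    · have hc := (h.cl (e + 1) (by omega)).toIsCluster
      obtain ⟨Q, q1, q2, -, q4⟩ := hFAT (fun j => (C (e + 1)).lane (emb j)) (hc.hv.conn _ hw)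
        (fun j => ⟨hc.lane_sub_empty _, hc.conn _⟩) fun j j' hn => hc.disj _ _ (he.ne hn)
      exact ⟨Q, fun _ => ⟨fun j => ⟨(q1 j).1, (q1 j).2.1.trans (hc.hv.subU hw), (q1 j).2.2⟩,
        q2, q4⟩⟩
    · exact ⟨fun _ => ∅, fun h => absurd h h4⟩
  choose Q hQ using hQ
  have c0 := (h.cl 0 (by omega)).toIsCluster
  obtain ⟨Z, z1, z2⟩ : ∃ Z : ℕ → α ⊕ τ → Finset V,
      (∀ i, Z 0 (Sum.inl i) = (C 0).lane (emb (Sum.inl i))) ∧
      ∀ e j, Z e j = ∅ ∨ e = 0 ∧ ∃ i, j = Sum.inl i :=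
    ⟨fun e j => if e = 0 ∧ ∃ i, j = Sum.inl i then (C 0).lane (emb j) else ∅, fun i => by simp,
      fun e j => by by_cases hh : e = 0 ∧ ∃ i, j = Sum.inl i <;> simp only [hh] <;> simp⟩
  have z3 : ∀ e j, ∀ v ∈ Z e j, e = 0 ∧ v ∈ (C 0).lane (emb j) ∧ v ∉ U := by
    intro e j v hv
    rcases z2 e j with h3 | ⟨rfl, i, rfl⟩
    · simp [h3] at hv
    · rw [z1] at hv
      exact ⟨rfl, hv, disjoint_left.1 (h1 i) hv⟩
  have dr : ∀ i < 6, ∀ j < 6, ∀ v ∈ (C i).reg, v ∈ (C j).reg → i = j := fun i hi j hj v a b => by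
    by_contra hn
    exact disjoint_left.1 (h.disj i hi j hj hn) a b
  have qa : ∀ e < 4, ∀ j, (C (e + 1)).a (emb j) ∈ Q e j := fun e h4 j =>
    ((hQ e h4).1 j).1 ((h.cl _ (by omega)).ma _)
  have qb : ∀ e < 4, ∀ j, (C (e + 1)).b (emb j) ∈ Q e j := fun e h4 j =>
    ((hQ e h4).1 j).1 ((h.cl _ (by omega)).mb _)
  have qr : ∀ e < 4, ∀ j, ∀ v ∈ Q e j, v ∈ (C (e + 1)).reg := fun e h4 j v hv =>
    ((hQ e h4).1 j).2.1 hv
  refine ⟨fun e j => Q e j ∪ Z e j, fun e h4 j v hv => ?_, fun e h4 j => ?_,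
    fun e h4 e' h4' j j' hn => disjoint_left.2 fun v hv hv' => ?_,
    fun e h4 j => disjoint_left.2 fun v hv hv' => ?_,
    fun e h4 j => disjoint_left.2 fun v hv hv' => ?_,
    fun e h3 j => ⟨_, mem_union_left _ (qb e (by omega) j), _,
      mem_union_left _ (qa (e + 1) (by omega) j), h.adj (e + 1) (by omega) _⟩,
    fun j => ⟨_, mem_union_left _ (qb 3 (by omega) j), _, mem_singleton_self _,
      h.adj 4 (by omega) _⟩,
    fun i => ⟨_, mem_image_of_mem _ (mem_univ (emb (Sum.inl i))),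
      mem_union_right _ (by rw [z1]; exact c0.ma _)⟩, h2,
    fun t => ⟨_, mem_union_left _ (qa 0 (by omega) _), _, mem_singleton_self _,
      (h.adj 0 (by omega) _).symm⟩,
    fun e h4 => conn_le (hQ e h4).2.2 (tg_mono fun j => subset_union_left),
    reg_sub_Reg (by omega), hU.trans (reg_sub_Reg (by omega)),
    (h.disj 0 (by omega) 5 (by omega) (by omega)).mono_left hU, hB, hB'⟩
  · rcases mem_union.1 hv with hv | hv
    · exact reg_sub_Reg (show e + 1 < 6 by omega) (qr e h4 j v hv)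
    · exact reg_sub_Reg (show 0 < 6 by omega) (c0.sub _ (z3 e j v hv).2.1)
  · rcases z2 e j with h3 | ⟨rfl, i, rfl⟩
    · simpa [h3] using ((hQ e h4).1 j).2.2
    · rw [z1]
      exact ((hQ 0 h4).1 _).2.2.union_adj (c0.conn _) (qa 0 h4 _) (c0.mb _)
        (h.adj 0 (by omega) _).symm
  · rcases mem_union.1 hv with hv | hv <;> rcases mem_union.1 hv' with hv' | hv'
    · have e1 := dr _ (by omega) _ (by omega) v (qr e h4 j v hv) (qr e' h4' j' v hv')
      obtain rfl : e = e' := by omega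
      exact disjoint_left.1 ((hQ e h4).2.1 j j' (hn.resolve_left (by simp))) hv hv'
    · have := dr _ (by omega) _ (by omega) v (qr e h4 j v hv) (c0.sub _ (z3 _ _ v hv').2.1)
      omega
    · have := dr _ (by omega) _ (by omega) v (qr e' h4' j' v hv') (c0.sub _ (z3 _ _ v hv).2.1)
      omega
    · obtain ⟨rfl, a1, -⟩ := z3 _ _ v hv
      obtain ⟨rfl, a2, -⟩ := z3 _ _ v hv'
      exact disjoint_left.1 (c0.disj _ _ (he.ne (hn.resolve_left (by simp)))) a1 a2
  · rcases mem_union.1 hv with hv | hv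
    · have := dr _ (by omega) _ (by omega) v (qr e h4 j v hv) (hU hv')
      omega
    · exact (z3 _ _ v hv).2.2 hv'
  · rcases mem_union.1 hv with hv | hv
    · have := dr _ (by omega) 5 (by omega) v (qr e h4 j v hv) hv'
      omega
    · have := dr _ (by omega) 5 (by omega) v (c0.sub _ (z3 _ _ v hv).2.1) hv'
      omega

end HALF

end Pool.Agent.MP_7be75d_co.Gen

end MrgPart0

-- ======== part 1: formerly Pool.Agent.MP_7be75d_co.Gen.Half2
section MrgPart1

/-! Module HALF, second part: the data of one half from columns, ports and segments. -/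

namespace Pool.Agent.MP_7be75d_co.Gen

open Finset
open scoped Classical

namespace HALF

variable {V α τ W : Type} [Fintype α] [Fintype τ] [Fintype W] {G : SimpleGraph V}
  {Big S D U B0 E : Finset V} {X : ℕ → α ⊕ τ → Finset V} {x5 : α ⊕ τ → V} {tm : τ → V}
  {M : SimpleGraph W} {br : W → Finset V} {lane : W → α ⊕ τ} {ν : W → ℕ} {fst : α ⊕ τ → W}
  {nb c : ℕ} {lam : ℕ → ℕ → α} {Mn : ℕ → Bool → ℕ} {col : ℕ → Bool → ℕ → ℕ → Finset W}
  {port : ℕ → Bool → ℕ → W} {ns : ℕ} {seg : ℕ → Finset W} {pt : ℕ → Bool → W} {F : Finset ℕ}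
  {rD par rk : ℕ → ℕ} {pe : ℕ → Bool}

/-- The vertex `v` lies in the piece with name `(w, k)`. -/
def Own (X : ℕ → α ⊕ τ → Finset V) (br : W → Finset V) (lane : W → α ⊕ τ) (fst : α ⊕ τ → W)
    (v : V) (w : W) (k : ℕ) : Prop :=
  (k < 4 ∧ w = fst (lane w) ∧ v ∈ X k (lane w)) ∨ (k = 4 ∧ v ∈ br w)

omit [Fintype W] in
theorem Own.uniq (h : Pre5 G Big S D U B0 X x5 tm) (hB : Br G D E x5 M br lane fst) {v : V}
    {w w' : W} {k k' : ℕ} (h1 : Own X br lane fst v w k) (h2 : Own X br lane fst v w' k') :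
    w = w' ∧ k = k' := by
  rcases h1 with ⟨a1, a2, a3⟩ | ⟨a1, a2⟩ <;> rcases h2 with ⟨b1, b2, b3⟩ | ⟨b1, b2⟩
  · by_contra hn
    refine disjoint_left.1 (h.disj k a1 k' b1 _ _ ?_) a3 b3
    by_contra hc
    push Not at hc
    exact hn ⟨by rw [a2, b2, hc.2], hc.1⟩
  · exact absurd (hB.sub _ b2) (disjoint_left.1 (h.dD k a1 _) a3)
  · exact absurd (hB.sub _ a2) (disjoint_left.1 (h.dD k' b1 _) b3)
  · refine ⟨?_, by omega⟩
    by_contra hn
    exact disjoint_left.1 (hB.disj w w' hn) a2 b2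

omit [Fintype W] in
theorem Own.mem (h : Pre5 G Big S D U B0 X x5 tm) (hB : Br G D E x5 M br lane fst) {v : V}
    {w : W} {k : ℕ} (h1 : Own X br lane fst v w k) : v ∈ Big ∧ v ∉ U := by
  rcases h1 with ⟨a1, -, a3⟩ | ⟨-, a2⟩
  · exact ⟨h.sub k a1 _ a3, disjoint_left.1 (h.dU k a1 _) a3⟩
  · exact ⟨h.subD (hB.sub _ a2), disjoint_right.1 h.dUD (hB.sub _ a2)⟩

omit [Fintype α] [Fintype τ] [Fintype W] in
theorem own_X (hT : Timed M lane ν fst) {v : V} {j : α ⊕ τ} {k : ℕ} (hk : k < 4)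
    (hv : v ∈ X k j) : Own X br lane fst v (fst j) k :=
  Or.inl ⟨hk, by rw [hT.lf], by rwa [hT.lf]⟩

/-- The names of the pieces that make up the set with a given address. -/
def Tag (lane : W → α ⊕ τ) (c : ℕ) (lam : ℕ → ℕ → α) (col : ℕ → Bool → ℕ → ℕ → Finset W)
    (seg : ℕ → Finset W) : Atom → W → ℕ → Prop
  | Sum.inl (b, s, i, y), w, k => lane w = Sum.inl (lam b (srow c s (i + 1))) ∧ k = min y 4 ∧
      (4 ≤ y → w ∈ col b s i (y - 4))
  | Sum.inr (Sum.inl (b, r, y)), w, k => lane w = Sum.inl (lam b (9 + r)) ∧ k = y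
  | Sum.inr (Sum.inr σ), w, _ => w ∈ seg σ

theorem srow_bd {s : Bool} {i : ℕ} (hi : i < 8) :
    1 ≤ srow c s (i + 1) ∧ srow c s (i + 1) ≤ c + 16 := by
  cases s <;> simp [srow] <;> omega

omit [Fintype α] [Fintype τ] [Fintype W] in
theorem tag_inj {O : W → Prop} {S0 : Finset W} {IsP : W → ℕ → Prop} {d : HD V}
    (hK : Blocks M lane nb c fun b r => Sum.inl (lam b r))
    (hC : Cols M lane fst nb c (fun b r => Sum.inl (lam b r)) Mn col port)
    (hS : Segs M O S0 nb IsP ns seg pt F rD par pe rk)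
    (hO : ∀ w, O w → Outer lane nb c (fun b r => Sum.inl (lam b r)) w) (e1 : d.M = Mn)
    (e2 : d.ns = ns) {a a' : Atom} {w : W} {k : ℕ} (ha : d.ok nb c a) (ha' : d.ok nb c a')
    (h : Tag lane c lam col seg a w k) (h' : Tag lane c lam col seg a' w k) : a = a' := by
  have hseg : ∀ σ < ns, w ∈ seg σ → ∀ b < nb, ∀ r, 1 ≤ r → r ≤ c + 16 →
      lane w ≠ Sum.inl (lam b r) := fun σ h1 h2 b hb r r1 r2 e =>
    hO w (hS.out σ h1 w h2) ⟨b, hb, r, r1, r2, e⟩
  have hmix : ∀ b < nb, ∀ s, ∀ i < 8, ∀ b' < nb, ∀ r < c,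
      lane w = Sum.inl (lam b (srow c s (i + 1))) → lane w ≠ Sum.inl (lam b' (9 + r)) := by
    intro b hb s i hi b' hb' r hr a1 a2
    have a3 := srow_bd (c := c) (s := s) hi
    have := (hK.inj b hb _ (by omega) b' hb' _ (by omega) (a1.symm.trans a2)).2
    cases s <;> simp [srow] at this <;> omega
  rcases a with ⟨b, s, i, y⟩ | ⟨b, r, y⟩ | σ <;>
    rcases a' with ⟨b', s', i', y'⟩ | ⟨b', r', y'⟩ | σ' <;>
    simp only [HD.ok, Tag, e1, e2] at ha ha' h h'
  · have a3 := srow_bd (c := c) (s := s) ha.2.1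
    have a4 := srow_bd (c := c) (s := s') ha'.2.1
    obtain ⟨rfl, a5⟩ := hK.inj b ha.1 _ (by omega) b' ha'.1 _ (by omega) (h.1.symm.trans h'.1)
    obtain ⟨rfl, rfl⟩ : s = s' ∧ i = i' := by
      have := ha.2.1
      have := ha'.2.1
      cases s <;> cases s' <;> simp [srow] at a5 ⊢ <;> omega
    have a6 := h.2.1
    have a7 := h'.2.1
    by_contra hn
    have a8 : y ≠ y' := fun e => hn (by rw [e])
    exact disjoint_left.1 (hC.disj b ha.1 s i ha.2.1 (y - 4) (by omega) (y' - 4) (by omega)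
      (by omega)) (h.2.2 (by omega)) (h'.2.2 (by omega))
  · exact absurd h'.1 (hmix b ha.1 s i ha.2.1 b' ha'.1 r' ha'.2.1 h.1)
  · exact absurd h.1 (hseg σ' ha' h' b ha.1 _ (srow_bd ha.2.1).1 (srow_bd ha.2.1).2)
  · exact absurd h.1 (hmix b' ha'.1 s' i' ha'.2.1 b ha.1 r ha.2.1 h'.1)
  · obtain ⟨rfl, a5⟩ := hK.inj b ha.1 _ (by omega) b' ha'.1 _ (by omega) (h.1.symm.trans h'.1)
    rw [show r = r' by omega, ← h.2, ← h'.2]
  · exact absurd h.1 (hseg σ' ha' h' b ha.1 _ (by omega) (by omega))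
  · exact absurd h'.1 (hseg σ ha h b' ha'.1 _ (srow_bd ha'.2.1).1 (srow_bd ha'.2.1).2)
  · exact absurd h'.1 (hseg σ ha h b' ha'.1 _ (by omega) (by omega))
  · by_contra hn
    exact disjoint_left.1 (hS.disj σ ha σ' ha' fun e => hn (by rw [e])) h h'

omit [Fintype α] [Fintype τ] [Fintype W] in
/-- The names of the ends of segments. -/
theorem exists_enc (hT : Timed M lane ν fst)
    (hK : Blocks M lane nb c fun b r => Sum.inl (lam b r))
    (hC : Cols M lane fst nb c (fun b r => Sum.inl (lam b r)) Mn col port) (tm : τ → V) :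
    ∃ enc : W → V ⊕ (ℕ × Bool × ℕ), (∀ t, enc (fst (Sum.inr t)) = Sum.inl (tm t)) ∧
      ∀ b < nb, ∀ s, ∀ x < Mn b s, enc (port b s x) = Sum.inr (b, s, x) := by
  have key : ∀ w : W, ∃ z : V ⊕ (ℕ × Bool × ℕ), (∀ t, w = fst (Sum.inr t) → z = Sum.inl (tm t)) ∧
      ∀ b < nb, ∀ s, ∀ x < Mn b s, w = port b s x → z = Sum.inr (b, s, x) := by
    intro w
    by_cases h1 : ∃ b < nb, ∃ s, ∃ x < Mn b s, w = port b s x
    · obtain ⟨b, hb, s, x, hx, rfl⟩ := h1
      refine ⟨Sum.inr (b, s, x), fun t e => ?_, fun b' hb' s' x' hx' e => ?_⟩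
      · have := hC.pl b hb s x hx
        rw [e, hT.lf] at this
        simp at this
      · have a1 := hC.pl b hb s x hx
        rw [e, hC.pl b' hb' s' x' hx'] at a1
        obtain ⟨rfl, a2⟩ := hK.inj b' hb' _ (by cases s' <;> simp [srow]) b hb _
          (by cases s <;> simp [srow]) a1
        obtain rfl : s' = s := by cases s <;> cases s' <;> simp [srow] at a2 ⊢
        rw [hC.pi _ hb _ x hx x' hx' e]
    · by_cases h2 : ∃ t, w = fst (Sum.inr t)
      · obtain ⟨t, rfl⟩ := h2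
        refine ⟨Sum.inl (tm t), fun t' e => ?_, fun b hb s x hx e => absurd ⟨b, hb, s, x, hx, e⟩ h1⟩
        have := congrArg lane e
        rw [hT.lf, hT.lf] at this
        rw [Sum.inr.inj this]
      · exact ⟨Sum.inr (0, false, 0), fun t e => absurd ⟨t, e⟩ h2,
          fun b hb s x hx e => absurd ⟨b, hb, s, x, hx, e⟩ h1⟩
  choose enc h1 h2 using key
  exact ⟨enc, fun t => h1 _ t rfl, fun b hb s x hx => h2 _ b hb s x hx rfl⟩

theorem build {K : ℕ} {β : Finset V → Finset V} {term : Finset V}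
    (h : Pre5 G Big S D U B0 X x5 tm) (hB : Br G D E x5 M br lane fst) (hT : Timed M lane ν fst)
    (hR : Rows G X nb (c + 18) lam) (hK : Blocks M lane nb c fun b r => Sum.inl (lam b r))
    (hC : Cols M lane fst nb c (fun b r => Sum.inl (lam b r)) Mn col port)
    (hS : Segs M (Outer lane nb c fun b r => Sum.inl (lam b r))
      (univ.image fun t => fst (Sum.inr t)) nb
      (fun p b => b < nb ∧ ∃ s, ∃ x < Mn b s, p = port b s x) ns seg pt F rD par pe rk)
    (hc : 0 < c) (hv : Haven G U K β) (h1 : term ⊆ U) (h2 : Free β K term) (h3 : term.card ≤ K)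
    (h4 : ∀ t, tm t ∈ term) (h5 : Function.Injective tm) : ∃ d, IsHalf G Big S E nb c d := by
  obtain ⟨enc, n1, n2⟩ := exists_enc hT hK hC tm
  have typ : ∀ σ < ns, ∀ j, (∃ t, pt σ j = fst (Sum.inr t) ∧ enc (pt σ j) = Sum.inl (tm t)) ∨
      ∃ b < nb, ∃ s, ∃ x < Mn b s, pt σ j = port b s x ∧ enc (pt σ j) = Sum.inr (b, s, x) := by
    intro σ hσ j
    rcases hS.typ σ hσ j with a | ⟨b, hb, s, x, hx, a⟩
    · obtain ⟨t, -, a⟩ := mem_image.1 a
      exact Or.inl ⟨t, a.symm, by rw [← a, n1]⟩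
    · exact Or.inr ⟨b, hb, s, x, hx, a, by rw [a, n2 b hb s x hx]⟩
  have key : ∀ σ < ns, ∀ j b s x, enc (pt σ j) = Sum.inr (b, s, x) →
      b < nb ∧ x < Mn b s ∧ pt σ j = port b s x := by
    intro σ hσ j b s x e
    rcases typ σ hσ j with ⟨t, -, a⟩ | ⟨b', hb', s', x', hx', a1, a2⟩
    · simp [a] at e
    · rw [a2] at e
      obtain ⟨rfl, rfl, rfl⟩ : b' = b ∧ s' = s ∧ x' = x := by simpa using e
      exact ⟨hb', hx', a1⟩
  obtain ⟨near, hnear⟩ : ∃ near : ℕ → Bool, ∀ b < nb,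
      ∃ x, enc (pt (par b) (pe b)) = Sum.inr (b, near b, x) := by
    have : ∀ b, ∃ s, b < nb → ∃ x, enc (pt (par b) (pe b)) = Sum.inr (b, s, x) := by
      intro b
      by_cases hb : b < nb
      · obtain ⟨-, -, ⟨-, s, x, hx, e⟩, -⟩ := hS.par b hb
        exact ⟨s, fun _ => ⟨x, by rw [e, n2 b hb s x hx]⟩⟩
      · exact ⟨false, fun h => absurd h hb⟩
    choose near hn using this
    exact ⟨near, hn⟩
  obtain ⟨nd, d1, d2⟩ : ∃ nd : ℕ → Bool → ℕ → ℕ → Finset V,
      (∀ b s i, ∀ y < 4, nd b s i y = X y (Sum.inl (lam b (srow c s (i + 1))))) ∧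
      ∀ b s i x, nd b s i (4 + x) = (col b s i x).biUnion br :=
    ⟨fun b s i y => if y < 4 then X y (Sum.inl (lam b (srow c s (i + 1))))
      else (col b s i (y - 4)).biUnion br, fun b s i y hy => if_pos hy, fun b s i x => by simp⟩
  obtain ⟨co, d3, d4⟩ : ∃ co : ℕ → ℕ → ℕ → Finset V,
      (∀ b r, ∀ y < 4, co b r y = X y (Sum.inl (lam b (9 + r)))) ∧
      ∀ b r, co b r 4 = (ls lane (Sum.inl (lam b (9 + r)))).biUnion br :=
    ⟨fun b r y => if y < 4 then X y (Sum.inl (lam b (9 + r)))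
      else (ls lane (Sum.inl (lam b (9 + r)))).biUnion br, fun b r y hy => if_pos hy,
      fun b r => by simp⟩
  obtain ⟨sg, d5⟩ : ∃ sg : ℕ → Finset V, ∀ σ, sg σ = (seg σ).biUnion br ∪
      (univ.filter fun t => fst (Sum.inr t) ∈ seg σ).biUnion fun t => xa X (Sum.inr t) :=
    ⟨_, fun _ => rfl⟩
  have split : ∀ y : ℕ, y < 4 ∨ ∃ x, y = 4 + x := fun y => by
    by_cases hy : y < 4
    · exact Or.inl hy
    · exact Or.inr ⟨y - 4, by omega⟩
  obtain ⟨d, hd⟩ : ∃ d : HD V, d = ⟨Mn, nd, co, ns, sg, fun σ j => enc (pt σ j), F, rD, par, pe,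
      near, rk, U, β, K, term⟩ := ⟨_, rfl⟩
  have tag : ∀ a, d.ok nb c a → ∀ v ∈ d.at a, ∃ w k, Own X br lane fst v w k ∧
      Tag lane c lam col seg a w k := by
    subst hd
    rintro (⟨b, s, i, y⟩ | ⟨b, r, y⟩ | σ) ha v hv <;> simp only [HD.ok, HD.at, Tag] at ha hv ⊢
    · rcases split y with hy | ⟨x, rfl⟩
      · rw [d1 b s i y hy] at hv
        exact ⟨_, y, own_X hT hy hv, hT.lf _, by omega, fun _ => by omega⟩
      · rw [d2] at hv
        obtain ⟨w, a1, a2⟩ := mem_biUnion.1 hv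
        exact ⟨w, 4, Or.inr ⟨rfl, a2⟩, hC.cl b ha.1 s i ha.2.1 x (by omega) w a1, by omega,
          fun _ => by simpa using a1⟩
    · by_cases hy : y < 4
      · rw [d3 b r y hy] at hv
        exact ⟨_, y, own_X hT hy hv, hT.lf _, rfl⟩
      · obtain rfl : y = 4 := by omega
        rw [d4] at hv
        obtain ⟨w, a1, a2⟩ := mem_biUnion.1 hv
        exact ⟨w, 4, Or.inr ⟨rfl, a2⟩, mem_ls.1 a1, rfl⟩
    · rw [d5] at hv
      rcases mem_union.1 hv with hv | hv
      · obtain ⟨w, a1, a2⟩ := mem_biUnion.1 hv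
        exact ⟨w, 4, Or.inr ⟨rfl, a2⟩, a1⟩
      · obtain ⟨t, a1, a2⟩ := mem_biUnion.1 hv
        obtain ⟨e, he, a3⟩ := mem_xa.1 a2
        exact ⟨_, e, own_X hT he a3, (mem_filter.1 a1).2⟩
  have hdisj : ∀ a a', d.ok nb c a → d.ok nb c a' → a ≠ a' → Disjoint (d.at a) (d.at a') := by
    intro a a' ha ha' hn
    refine disjoint_left.2 fun v hv hv' => hn ?_
    obtain ⟨w, k, a1, a2⟩ := tag a ha v hv
    obtain ⟨w', k', b1, b2⟩ := tag a' ha' v hv'
    obtain ⟨rfl, rfl⟩ := a1.uniq h hB b1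
    exact tag_inj hK hC hS (fun _ h => h) (by rw [hd]) (by rw [hd]) ha ha' a2 b2
  have hmem : ∀ a, d.ok nb c a → ∀ v ∈ d.at a, v ∈ Big ∧ v ∉ U := fun a ha v hv => by
    obtain ⟨w, k, a1, -⟩ := tag a ha v hv
    exact a1.mem h hB
  have last : ∀ j, ∀ T : Finset W, fst j ∈ T → Touch G (X 3 j) (T.biUnion br) := fun j T hj =>
    (h.last j).mono subset_rfl (by simpa using ⟨_, hj, hB.fs j⟩)
  subst hd
  refine ⟨_, fun a ha v hv => (hmem a ha v hv).1, ?_, hdisj,
    fun a ha => disjoint_left.2 fun v hv => (hmem a ha v hv).2, h.subU, hv, h1, h2, h3,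
    fun b hb s i hi y hy => ?_, fun b hb s i hi y hy => ?_, fun b hb r hr y hy => ?_,
    fun b hb r hr y hy => ?_, fun b hb s y hy => ?_, fun b hb r hr => ?_, fun b hb r hr => ?_,
    fun σ hσ j t e => ?_, fun σ hσ j b s x e => ?_, fun σ hσ σ' hσ' j j' e => ?_, hS.Dlt,
    fun b hb => ?_, fun b hb => ?_, fun b hb => ?_⟩
  · rintro (⟨b, s, i, y⟩ | ⟨b, r, y⟩ | σ) ha <;> simp only [HD.ok, HD.at] at ha ⊢
    · rcases split y with hy | ⟨x, rfl⟩
      · rw [d1 b s i y hy]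
        exact h.conn y hy _
      · rw [d2]
        exact conn_map hB.conn hB.adj (hC.conn b ha.1 s i ha.2.1 x (by omega))
    · by_cases hy : y < 4
      · rw [d3 b r y hy]
        exact h.conn y hy _
      · obtain rfl : y = 4 := by omega
        rw [d4]
        exact conn_map hB.conn hB.adj (conn_ls hT _)
    · rw [d5]
      exact (conn_map hB.conn hB.adj (hS.conn σ ha)).attach_sets _ fun t ht =>
        ⟨h.conn_xa _, (h.touch_xa _ (mem_biUnion.2 ⟨_, (mem_filter.1 ht).2, hB.fs _⟩)).symm⟩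
  · show Touch G (nd b s i y) (nd b s i (y + 1))
    change y + 1 < 4 + Mn b s at hy
    rcases split y with hy' | ⟨x, rfl⟩
    · by_cases h3 : y < 3
      · rw [d1 b s i y hy', d1 b s i (y + 1) (by omega)]
        exact h.hor y h3 _
      · obtain rfl : y = 3 := by omega
        rw [d1 b s i 3 hy', d2 b s i 0]
        exact last _ _ (hC.fs b hb s i hi (by omega))
    · rw [d2, add_assoc, d2]
      exact touch_map hB.adj (hC.hor b hb s i hi x (by omega))
  · show Touch G (nd b s i y) (nd b s (i + 1) y)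
    change y < 4 + Mn b s at hy
    rcases split y with hy' | ⟨x, rfl⟩
    · rw [d1 b s i y hy', d1 b s (i + 1) y hy']
      cases s
      · exact hR.2 y hy' b hb (i + 1) (by omega)
      · have := hR.2 y hy' b hb (c + 17 - (i + 1 + 1)) (by omega)
        rw [show c + 17 - (i + 1 + 1) + 1 = c + 17 - (i + 1) by omega] at this
        exact this.symm
    · rw [d2, d2]
      exact touch_map hB.adj (hC.ver b hb s i hi x (by omega))
  · show Touch G (co b r y) (co b r (y + 1))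
    by_cases h3 : y < 3
    · rw [d3 b r y hy, d3 b r (y + 1) (by omega)]
      exact h.hor y h3 _
    · obtain rfl : y = 3 := by omega
      rw [d3 b r 3 hy, d4]
      exact last _ _ (mem_ls.2 (hT.lf _))
  · show Touch G (co b r y) (co b (r + 1) y)
    rw [d3 b r y hy, d3 b (r + 1) y hy]
    exact hR.2 y hy b hb (9 + r) (by omega)
  · show Touch G (nd b s 7 y) (co b _ y)
    rw [d1 b s 7 y hy, d3 b _ y hy]
    cases s
    · exact hR.2 y hy b hb 8 (by omega)
    · have := hR.2 y hy b hb (9 + (c - 1)) (by omega)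
      rw [show 9 + (c - 1) + 1 = c + 17 - (7 + 1) by omega] at this
      exact this.symm
  · show ∃ v ∈ S, v ∈ co b r 0
    rw [d3 b r 0 (by omega)]
    exact h.st _
  · show ∃ v ∈ E, v ∈ co b r 4
    rw [d4]
    exact (hB.ends hT).en _
  · show t ∈ term ∧ Touch G (sg σ) {t}
    change enc (pt σ j) = Sum.inl t at e
    rcases typ σ hσ j with ⟨t', a1, a2⟩ | ⟨b', -, s', x', -, -, a2⟩
    · obtain rfl : tm t' = t := Sum.inl.inj (a2.symm.trans e)
      refine ⟨h4 t', (h.tmT t').mono ?_ subset_rfl⟩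
      rw [d5]
      exact ((sub_xa (by omega) _).trans (subset_biUnion_of_mem (fun t => xa X (Sum.inr t))
        (mem_filter.2 ⟨mem_univ _, a1 ▸ hS.mem σ hσ j⟩))).trans subset_union_right
    · simp [a2] at e
  · obtain ⟨a1, a2, a3⟩ := key σ hσ j b s x e
    refine ⟨a1, a2, ?_⟩
    show Touch G (sg σ) (nd b s 0 (4 + x))
    rw [d5, d2]
    exact (touch_map hB.adj (touch_of_mem (hC.pc b a1 s x a2) (a3 ▸ hS.mem σ hσ j))).mono
      subset_union_left subset_rfl
  · change enc (pt σ j) = enc (pt σ' j') at e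
    have e1 : pt σ j = pt σ' j' := by
      rcases typ σ hσ j with ⟨t, a1, a2⟩ | ⟨b, -, s, x, -, a1, a2⟩
      · rcases typ σ' hσ' j' with ⟨t', b1, b2⟩ | ⟨b', -, s', x', -, -, b2⟩
        · rw [a1, b1, h5 (Sum.inl.inj (a2.symm.trans (e.trans b2)))]
        · simp [a2, b2] at e
      · rw [a1, (key σ' hσ' j' b s x (e.symm.trans a2)).2.2]
    obtain rfl : σ = σ' := by
      by_contra hn
      exact disjoint_left.1 (hS.disj σ hσ σ' hσ' hn) (hS.mem σ hσ j) (e1 ▸ hS.mem σ' hσ' j')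
    refine ⟨rfl, ?_⟩
    cases j <;> cases j'
    · rfl
    · exact absurd e1 (hS.ne σ hσ)
    · exact absurd e1.symm (hS.ne σ hσ)
    · rfl
  · have a0 := hS.Dev b hb
    simp only [HD.ends]
    rw [← card_union_of_disjoint]
    · convert a0 using 2
      ext ⟨σ, j⟩
      simp only [mem_union, mem_filter, ← and_or_left]
      refine and_congr_right fun hm => ?_
      have hσ : σ < ns := mem_range.1 (hS.Dlt (mem_product.1 hm).1)
      constructor
      · rintro (⟨x, e⟩ | ⟨x, e⟩) <;>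
          exact ⟨hb, _, x, (key σ hσ j b _ x e).2.1, (key σ hσ j b _ x e).2.2⟩
      · rintro ⟨-, s, x, hx, e⟩
        cases s
        · exact Or.inl ⟨x, by rw [e, n2 b hb _ x hx]⟩
        · exact Or.inr ⟨x, by rw [e, n2 b hb _ x hx]⟩
    · refine disjoint_left.2 fun e a1 a2 => ?_
      obtain ⟨x, a1⟩ := (mem_filter.1 a1).2
      obtain ⟨x', a2⟩ := (mem_filter.1 a2).2
      simp [a1] at a2
  · obtain ⟨σ, a1, j, ⟨-, s, x, hx, a2⟩, a3⟩ := hS.Dcon b hb
    have hσ : σ < ns := mem_range.1 (hS.Dlt a1)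
    refine ⟨σ, a1, j, ⟨s, x, ?_⟩, fun b' s' x' e => ?_⟩
    · show enc (pt σ j) = _
      rw [a2, n2 b hb s x hx]
    · obtain ⟨a4, a5, a6⟩ := key σ hσ _ b' s' x' e
      exact a3 b' ⟨a4, s', x', a5, a6⟩
  · obtain ⟨a1, a2, -, a3⟩ := hS.par b hb
    refine ⟨a1, a2, hnear b hb, fun b' s' x' e => ?_⟩
    obtain ⟨a4, a5, a6⟩ := key _ a1 _ b' s' x' e
    exact a3 b' ⟨a4, s', x', a5, a6⟩

end HALF

end Pool.Agent.MP_7be75d_co.Gen

end MrgPart1

-- marker of a merged file
example : 731051 + 617188 = 731051 + 617188 := rfl
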