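import Mathlib.Topology.Path
import Mathlib.Combinatorics.SimpleGraph.Basic

/-! Planar graphs, defined by drawings in the plane. -/

namespace Pool.Agent.MP_7be75d_co

/-- `H` has a drawing in the plane without crossings: distinct points for the vertices and a
simple arc for every edge, joining the points of its two ends, such that an arc contains no vertex
point other than its ends, and the arcs of two different edges meet in vertex points only. -/
def IsPlane {W : Type} (H : SimpleGraph W) : Prop :=
  ∃ (p : W → ℝ × ℝ) (γ : ∀ u v, H.Adj u v → Path (p u) (p v)), Function.Injective p ∧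
    (∀ u v h, Function.Injective (γ u v h)) ∧
    (∀ u v (h : H.Adj u v), γ v u h.symm = (γ u v h).symm) ∧
    (∀ u v h w t, γ u v h t = p w → w = u ∨ w = v) ∧
    ∀ u v h u' v' h' s t, γ u v h s = γ u' v' h' t → s(u, v) = s(u', v') ∨ ∃ w, γ u v h s = p w

end Pool.Agent.MP_7be75d_co
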