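import Pool.Agent.MP_7be75d_co.Main
import Pool.Agent.MP_7be75d_co.Gen.Plane

-- ======== part 0: formerly Pool.Agent.MP_7be75d_co.Gen.Spec
section MrgPart0

/-! Definitions and module statements of the project LTW (linear tree-width bound, all `c`). -/

namespace Pool.Agent.MP_7be75d_co.Gen

open Finset
open scoped Classical

section Defs

variable {V W ι κ τ : Type}

/-- A model of `H` in `G` with finite branch sets. -/
def Mdl (H : SimpleGraph W) (G : SimpleGraph V) : Prop :=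
  ∃ φ : W → Finset V, (∀ w, Conn G (φ w)) ∧ (∀ w w', w ≠ w' → Disjoint (φ w) (φ w')) ∧
    ∀ w w', H.Adj w w' → Touch G (φ w) (φ w')

/-- No model of the complete bipartite graph with three plus three vertices. -/
def NoK33 (G : SimpleGraph V) : Prop :=
  ∀ A B : Fin 3 → Finset V, (∀ i, Conn G (A i)) → (∀ i, Conn G (B i)) →
    (∀ i j, i ≠ j → Disjoint (A i) (A j)) → (∀ i j, i ≠ j → Disjoint (B i) (B j)) →
    (∀ i j, Disjoint (A i) (B j)) → (∀ i j, Touch G (A i) (B j)) → False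

/-- The square lattice. -/
def gridZ : SimpleGraph (ℤ × ℤ) := SimpleGraph.fromRel fun p q =>
  (q.1 = p.1 + 1 ∧ q.2 = p.2) ∨ (q.1 = p.1 ∧ q.2 = p.2 + 1)

/-- The quarter lattice. -/
def gridN : SimpleGraph (ℕ × ℕ) := SimpleGraph.fromRel fun p q =>
  (q.1 = p.1 + 1 ∧ q.2 = p.2) ∨ (q.1 = p.1 ∧ q.2 = p.2 + 1)

/-- No `c + 1` pairwise disjoint cycles. -/
def NoCyc (H : SimpleGraph W) (c : ℕ) : Prop :=
  ¬ ∃ (v : Fin (c + 1) → W) (p : ∀ i, H.Walk (v i) (v i)), (∀ i, (p i).IsCycle) ∧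
    ∀ i j, i ≠ j → (p i).support.Disjoint (p j).support

/-- The graph of touching sets. -/
def tg (G : SimpleGraph V) (Q : ι → Finset V) : SimpleGraph ι :=
  ⟨fun i j => i ≠ j ∧ Touch G (Q i) (Q j), ⟨fun _ _ h => ⟨h.1.symm, h.2.symm⟩⟩,
    ⟨fun _ h => h.1 rfl⟩⟩

/-- The degree. -/
noncomputable def dg [Fintype ι] (Γ : SimpleGraph ι) (v : ι) : ℕ := (univ.filter (Γ.Adj v)).card

/-- No connected set has `m` neighbours outside. -/
def NoStar [Fintype ι] (Γ : SimpleGraph ι) (m : ℕ) : Prop :=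
  ∀ Y : Finset ι, Conn Γ Y → (univ.filter fun v => v ∉ Y ∧ ∃ y ∈ Y, Γ.Adj y v).card < m

/-- `S` is independent with respect to the haven `β`. -/
def Free (β : Finset V → Finset V) (K : ℕ) (S : Finset V) : Prop :=
  ∀ Z : Finset V, Z.card < K → (S.filter fun v => v ∉ β Z).card ≤ Z.card

/-- A cluster in which both ends of the lanes are independent. -/
structure IsSC [Fintype ι] (G : SimpleGraph V) (C : CD V ι) : Prop extends IsCluster G C where
  indepb : ∀ Z : Finset V, Z.card < Fintype.card ι →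
    (univ.filter fun i => C.b i ∉ C.β Z).card ≤ Z.card

/-- A symmetric path-of-sets system. -/
structure SPoS [Fintype ι] (G : SimpleGraph V) (l : ℕ) (C : ℕ → CD V ι) : Prop where
  cl : ∀ j < l, IsSC G (C j)
  disj : ∀ i < l, ∀ j < l, i ≠ j → Disjoint (C i).reg (C j).reg
  adj : ∀ j, j + 1 < l → ∀ i, G.Adj ((C j).b i) ((C (j + 1)).a i)

/-- A cluster with fewer lanes, a new region and a new haven. -/
def res (C : CD V ι) (e : κ → ι) (U : Finset V) (β : Finset V → Finset V) : CD V κ :=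
  ⟨U, β, fun k => C.lane (e k), fun k => C.a (e k), fun k => C.b (e k)⟩

/-- The cluster read backwards. -/
def swp (C : CD V ι) : CD V ι := ⟨C.reg, C.β, C.lane, C.b, C.a⟩

/-- The union of the first `l` regions. -/
noncomputable def Reg (C : ℕ → CD V ι) (l : ℕ) : Finset V := (range l).biUnion fun j => (C j).reg

/-- The first ends of the first cluster. -/
noncomputable def St [Fintype ι] (C : ℕ → CD V ι) : Finset V := univ.image (C 0).a

/-- The second ends of the last cluster. -/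
noncomputable def En [Fintype ι] (C : ℕ → CD V ι) (l : ℕ) : Finset V := univ.image (C (l - 1)).b

/-- `Z` meets both `S` and `E`. -/
def Mk (S E Z : Finset V) : Prop := (∃ s ∈ S, s ∈ Z) ∧ ∃ e ∈ E, e ∈ Z

/-- `m` disjoint connected sets from `S` to `E`. -/
structure Thru (G : SimpleGraph V) (Big S E : Finset V) (m : ℕ) (L : ℕ → Finset V) : Prop where
  sub : ∀ j < m, L j ⊆ Big
  conn : ∀ j < m, Conn G (L j)
  disj : ∀ i < m, ∀ j < m, i ≠ j → Disjoint (L i) (L j)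
  thr : ∀ j < m, Mk S E (L j)

/-- A path across `m` lanes. -/
def WinP (G : SimpleGraph V) (Big S E : Finset V) (m : ℕ) : Prop :=
  ∃ L, Thru G Big S E m L ∧ ∀ j, j + 1 < m → Touch G (L j) (L (j + 1))

/-- A connected set touching `m` lanes. -/
def WinS (G : SimpleGraph V) (Big S E : Finset V) (m : ℕ) : Prop :=
  ∃ L Y, Thru G Big S E m L ∧ Y ⊆ Big ∧ Conn G Y ∧ ∀ j < m, Disjoint Y (L j) ∧ Touch G Y (L j)

/-- One of the two outcomes. -/
def Win (G : SimpleGraph V) (Big S E : Finset V) (m : ℕ) : Prop :=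
  WinP G Big S E m ∨ WinS G Big S E m

/-- A list of disjoint connected sets, consecutive ones touching. -/
structure SeqOK (G : SimpleGraph V) (Big : Finset V) (l : List (Finset V)) : Prop where
  sub : ∀ S ∈ l, S ⊆ Big
  conn : ∀ S ∈ l, Conn G S
  disj : l.Pairwise Disjoint
  chain : l.IsChain (Touch G)

/-- The number of members of `l` with property `P`. -/
noncomputable def cnt (P : Finset V → Prop) (l : List (Finset V)) : ℕ :=
  l.countP fun Z => decide (P Z)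

/-! ### Cells -/

/-- A spine `sp 0, …, sp (m - 1)` with pendant trees on two sides. -/
structure Shape (J : SimpleGraph τ) (P : Finset τ) (m : ℕ) (sp : ℕ → τ) (sd : τ → Bool) :
    Prop where
  pos : 0 < m
  mem : ∀ i < m, sp i ∈ P
  inj : ∀ i < m, ∀ j < m, sp i = sp j → i = j
  cons : ∀ i < m, ∀ j < m, J.Adj (sp i) (sp j) → j = i + 1 ∨ i = j + 1
  side : ∀ x ∈ P, ∀ y ∈ P, x ∉ (range m).image sp → y ∉ (range m).image sp → J.Adj x y →
    sd x = sd y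
  peel : Peel J ((range m).image sp) P

/-- A model of a shape with two apices `A'`, `B'` inside `S`. -/
structure Fill (G : SimpleGraph V) (S : Finset V) (J : SimpleGraph τ) (P : Finset τ) (m : ℕ)
    (sp : ℕ → τ) (sd : τ → Bool) (ψ : τ → Finset V) (A' B' : Finset V) : Prop where
  sub : ∀ t ∈ P, ψ t ⊆ S
  conn : ∀ t ∈ P, Conn G (ψ t)
  disj : ∀ t ∈ P, ∀ t' ∈ P, t ≠ t' → Disjoint (ψ t) (ψ t')
  dA : ∀ t ∈ P, Disjoint (ψ t) A'
  dB : ∀ t ∈ P, Disjoint (ψ t) B'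
  subA : A' ⊆ S
  subB : B' ⊆ S
  connA : Conn G A'
  connB : Conn G B'
  dAB : Disjoint A' B'
  adj : ∀ x ∈ P, ∀ y ∈ P, J.Adj x y → Touch G (ψ x) (ψ y)
  spn : ∀ i, i + 1 < m → Touch G (ψ (sp i)) (ψ (sp (i + 1)))
  tA : ∀ t ∈ P, t ∈ (range m).image sp ∨ sd t = false → Touch G (ψ t) A'
  tB : ∀ t ∈ P, t ∈ (range m).image sp ∨ sd t = true → Touch G (ψ t) B'

/-- Every shape with at most `n` vertices has a model in `S` with the four given port vertices. -/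
def CellV (G : SimpleGraph V) (n : ℕ) (S : Finset V) (pa pu pv pb : V) : Prop :=
  ∀ (τ : Type) (J : SimpleGraph τ) (P : Finset τ) (m : ℕ) (sp : ℕ → τ) (sd : τ → Bool),
    Shape J P m sp sd → P.card ≤ n → ∃ ψ A' B', Fill G S J P m sp sd ψ A' B' ∧
      pa ∈ A' ∧ pu ∈ ψ (sp 0) ∧ pv ∈ ψ (sp (m - 1)) ∧ pb ∈ B'

/-- A cell whose ports touch the four given sets. -/
def Cell (G : SimpleGraph V) (n : ℕ) (S A U U' B : Finset V) : Prop :=
  ∃ pa pu pv pb, CellV G n S pa pu pv pb ∧ Touch G {pa} A ∧ Touch G {pu} U ∧ Touch G {pv} U' ∧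
    Touch G {pb} B

/-- Two stacks of size `N` at the edge `x x'`. -/
def Stk (Γ : SimpleGraph ι) (x x' : ι) (N : ℕ) : Prop :=
  Γ.Adj x x' ∧ ∃ (A B : Finset ι), Disjoint A B ∧ N ≤ A.card ∧ N ≤ B.card ∧ x ∉ A ∧ x' ∉ A ∧
    x ∉ B ∧ x' ∉ B ∧ (Conn Γ (insert x A) ∨ Conn Γ (insert x' A)) ∧
    (Conn Γ (insert x B) ∨ Conn Γ (insert x' B))

/-- Wires `Wr j k` at times `j ≤ M`, with a cell on the wires `x, x'` between two times. -/
structure Steps (G : SimpleGraph V) (n M : ℕ) (Γ : SimpleGraph ι) (x x' : ι)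
    (Wr : ℕ → ι → Finset V) (S : ℕ → Finset V) : Prop where
  conn : ∀ j ≤ M, ∀ k, Conn G (Wr j k)
  dW : ∀ j ≤ M, ∀ j' ≤ M, ∀ k k', j ≠ j' ∨ k ≠ k' → Disjoint (Wr j k) (Wr j' k')
  dS : ∀ j < M, ∀ j' < M, j ≠ j' → Disjoint (S j) (S j')
  dWS : ∀ j ≤ M, ∀ j' < M, ∀ k, Disjoint (Wr j k) (S j')
  adj : ∀ j ≤ M, ∀ k k', Γ.Adj k k' → Touch G (Wr j k) (Wr j k')
  pass : ∀ j < M, ∀ k, k ≠ x → k ≠ x' → Touch G (Wr j k) (Wr (j + 1) k)
  cell : ∀ j < M, Cell G n (S j) (Wr j x) (Wr j x') (Wr (j + 1) x) (Wr (j + 1) x')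

/-- The sets of a grid of cells: horizontal wires, vertical wires, cells. -/
def cgAt (Eh Ev S : ℕ × ℕ → Finset V) : Fin 3 × (ℕ × ℕ) → Finset V := fun a =>
  if a.1 = 0 then Eh a.2 else if a.1 = 1 then Ev a.2 else S a.2

/-- The valid addresses in a `K × K` grid of cells. -/
def cgOk (K : ℕ) : Fin 3 × (ℕ × ℕ) → Prop := fun a =>
  if a.1 = 0 then a.2.1 ≤ K ∧ a.2.2 < K else if a.1 = 1 then a.2.1 < K ∧ a.2.2 ≤ K
  else a.2.1 < K ∧ a.2.2 < K

/-- A `K × K` grid of cells; the spine runs in the first coordinate. -/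
structure CellGrid (G : SimpleGraph V) (K n : ℕ) (Eh Ev S : ℕ × ℕ → Finset V) : Prop where
  ch : ∀ i ≤ K, ∀ j < K, Conn G (Eh (i, j))
  cv : ∀ i < K, ∀ j ≤ K, Conn G (Ev (i, j))
  disj : ∀ a a', cgOk K a → cgOk K a' → a ≠ a' → Disjoint (cgAt Eh Ev S a) (cgAt Eh Ev S a')
  cell : ∀ i < K, ∀ j < K,
    Cell G n (S (i, j)) (Ev (i, j)) (Eh (i, j)) (Eh (i + 1, j)) (Ev (i, j + 1))

/-- The wires of one step. -/
abbrev Wi (h : ℕ) : Type := Fin h ⊕ Fin h ⊕ Bool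

/-! ### Time structure, ports, halves -/

/-- Lanes with a time function. -/
structure Timed (M : SimpleGraph W) (lane : W → ι) (ν : W → ℕ) (fst : ι → W) : Prop where
  inj : Function.Injective ν
  next : ∀ a b, lane a = lane b → ν a < ν b →
    (∀ c, lane c = lane a → ν a < ν c → ν b ≤ ν c) → M.Adj a b
  time : ∀ a b a', M.Adj a b → lane a' = lane a → ν a < ν a' → ν b ≤ ν a'
  lf : ∀ i, lane (fst i) = i
  first : ∀ a, ν (fst (lane a)) ≤ ν a

/-- Row number `j` counted from the side `s` of a block with `c + 18` rows. -/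
def srow (c : ℕ) (s : Bool) (j : ℕ) : ℕ := if s then c + 17 - j else j

/-- `nb` blocks of `c + 18` lanes; the inner lanes see only the neighbouring rows. -/
structure Blocks (M : SimpleGraph W) (lane : W → ι) (nb c : ℕ) (lam : ℕ → ℕ → ι) : Prop where
  inj : ∀ b < nb, ∀ r < c + 18, ∀ b' < nb, ∀ r' < c + 18, lam b r = lam b' r' → b = b' ∧ r = r'
  inner : ∀ b < nb, ∀ r, 1 ≤ r → r ≤ c + 16 → ∀ x y, lane x = lam b r → M.Adj x y →
    lane y = lam b r ∨ lane y = lam b (r - 1) ∨ lane y = lam b (r + 1)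

/-- The vertices outside the inner lanes. -/
def Outer (lane : W → ι) (nb c : ℕ) (lam : ℕ → ℕ → ι) (w : W) : Prop :=
  ¬ ∃ b < nb, ∃ r, 1 ≤ r ∧ r ≤ c + 16 ∧ lane w = lam b r

/-- The cut condition: `IsP p b` says that `p` is a port of block `b`. -/
def CutOK (M : SimpleGraph W) (O : W → Prop) (S0 : Finset W) (nb : ℕ) (IsP : W → ℕ → Prop) :
    Prop :=
  ∀ B0 ⊆ range nb, B0.Nonempty → ∀ Z : Finset W, Z.card < 3 * B0.card →
    ∃ b ∈ B0, ∃ p, IsP p b ∧ ∃ s ∈ S0, s ∉ Z ∧ Relation.ReflTransGen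
      (fun a a' => O a' ∧ a' ∉ Z ∧ (M.Adj a a' ∨ ∃ b', IsP a b' ∧ IsP a' b')) s p

/-- Columns and ports of the collars. -/
structure Cols (M : SimpleGraph W) (lane : W → ι) (fst : ι → W) (nb c : ℕ) (lam : ℕ → ℕ → ι)
    (Mn : ℕ → Bool → ℕ) (col : ℕ → Bool → ℕ → ℕ → Finset W) (port : ℕ → Bool → ℕ → W) :
    Prop where
  pl : ∀ b < nb, ∀ s, ∀ x < Mn b s, lane (port b s x) = lam b (srow c s 0)
  pi : ∀ b < nb, ∀ s, ∀ x < Mn b s, ∀ x' < Mn b s, port b s x = port b s x' → x = x'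
  pc : ∀ b < nb, ∀ s, ∀ x < Mn b s, Touch M {port b s x} (col b s 0 x)
  cl : ∀ b < nb, ∀ s, ∀ d < 8, ∀ x < Mn b s, ∀ w ∈ col b s d x, lane w = lam b (srow c s (d + 1))
  conn : ∀ b < nb, ∀ s, ∀ d < 8, ∀ x < Mn b s, Conn M (col b s d x)
  disj : ∀ b < nb, ∀ s, ∀ d < 8, ∀ x < Mn b s, ∀ x' < Mn b s, x ≠ x' →
    Disjoint (col b s d x) (col b s d x')
  hor : ∀ b < nb, ∀ s, ∀ d < 8, ∀ x, x + 1 < Mn b s → Touch M (col b s d x) (col b s d (x + 1))
  ver : ∀ b < nb, ∀ s, ∀ d, d + 1 < 8 → ∀ x < Mn b s, Touch M (col b s d x) (col b s (d + 1) x)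
  fs : ∀ b < nb, ∀ s, ∀ d < 8, 0 < Mn b s → fst (lam b (srow c s (d + 1))) ∈ col b s d 0

/-- Disjoint segments between sources and ports: an even connected family `D` and parent
segments. -/
structure Segs (M : SimpleGraph W) (O : W → Prop) (S0 : Finset W) (nb : ℕ) (IsP : W → ℕ → Prop)
    (ns : ℕ) (seg : ℕ → Finset W) (pt : ℕ → Bool → W) (D : Finset ℕ) (rD par : ℕ → ℕ)
    (pe : ℕ → Bool) (rk : ℕ → ℕ) : Prop where
  out : ∀ σ < ns, ∀ w ∈ seg σ, O w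
  conn : ∀ σ < ns, Conn M (seg σ)
  disj : ∀ σ < ns, ∀ σ' < ns, σ ≠ σ' → Disjoint (seg σ) (seg σ')
  mem : ∀ σ < ns, ∀ j, pt σ j ∈ seg σ
  ne : ∀ σ < ns, pt σ false ≠ pt σ true
  typ : ∀ σ < ns, ∀ j, pt σ j ∈ S0 ∨ ∃ b, IsP (pt σ j) b
  Dlt : D ⊆ range ns
  Dev : ∀ b < nb, Even ((D ×ˢ (univ : Finset Bool)).filter fun e => IsP (pt e.1 e.2) b).card
  Dcon : ∀ b < nb, ∃ σ ∈ D, ∃ j, IsP (pt σ j) b ∧ ∀ b', IsP (pt σ (!j)) b' → rD b' < rD b
  par : ∀ b < nb, par b < ns ∧ par b ∉ D ∧ IsP (pt (par b) (pe b)) b ∧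
    ∀ b', IsP (pt (par b) (!pe b)) b' → rk b' < rk b

/-- Data of one half of the system. -/
structure HD (V : Type) where
  M : ℕ → Bool → ℕ
  nd : ℕ → Bool → ℕ → ℕ → Finset V
  core : ℕ → ℕ → ℕ → Finset V
  ns : ℕ
  seg : ℕ → Finset V
  pt : ℕ → Bool → V ⊕ (ℕ × Bool × ℕ)
  D : Finset ℕ
  rD : ℕ → ℕ
  par : ℕ → ℕ
  pe : ℕ → Bool
  near : ℕ → Bool
  rk : ℕ → ℕ
  hair : Finset V
  β : Finset V → Finset V
  K : ℕ
  term : Finset V

/-- Addresses: collar cells (block, side, depth, column), core cells (block, row, column),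
segments. -/
abbrev Atom : Type := (ℕ × Bool × ℕ × ℕ) ⊕ (ℕ × ℕ × ℕ) ⊕ ℕ

/-- The set with a given address. -/
def HD.at (d : HD V) : Atom → Finset V
  | Sum.inl (b, s, i, y) => d.nd b s i y
  | Sum.inr (Sum.inl (b, r, y)) => d.core b r y
  | Sum.inr (Sum.inr σ) => d.seg σ

/-- Valid addresses. -/
def HD.ok (d : HD V) (nb c : ℕ) : Atom → Prop
  | Sum.inl (b, s, i, y) => b < nb ∧ i < 8 ∧ y < 4 + d.M b s
  | Sum.inr (Sum.inl (b, r, y)) => b < nb ∧ r < c ∧ y < 5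
  | Sum.inr (Sum.inr σ) => σ < d.ns

/-- The number of ends of segments of `F` at the collar `(b, s)`. -/
noncomputable def HD.ends (d : HD V) (F : Finset ℕ) (b : ℕ) (s : Bool) : ℕ :=
  ((F ×ˢ (univ : Finset Bool)).filter fun e => ∃ x, d.pt e.1 e.2 = Sum.inr (b, s, x)).card

/-- One half of the system: `nb` blocks with `c` core rows from `S` to `E` and two collars of
depth eight, segments, and a free hair. -/
structure IsHalf (G : SimpleGraph V) (Big S E : Finset V) (nb c : ℕ) (d : HD V) : Prop where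
  sub : ∀ a, d.ok nb c a → d.at a ⊆ Big
  conn : ∀ a, d.ok nb c a → Conn G (d.at a)
  disj : ∀ a a', d.ok nb c a → d.ok nb c a' → a ≠ a' → Disjoint (d.at a) (d.at a')
  dh : ∀ a, d.ok nb c a → Disjoint (d.at a) d.hair
  hsub : d.hair ⊆ Big
  hv : Haven G d.hair d.K d.β
  tsub : d.term ⊆ d.hair
  free : Free d.β d.K d.term
  tcard : d.term.card ≤ d.K
  ndh : ∀ b < nb, ∀ s, ∀ i < 8, ∀ y, y + 1 < 4 + d.M b s →
    Touch G (d.nd b s i y) (d.nd b s i (y + 1))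
  ndv : ∀ b < nb, ∀ s, ∀ i, i + 1 < 8 → ∀ y < 4 + d.M b s,
    Touch G (d.nd b s i y) (d.nd b s (i + 1) y)
  coh : ∀ b < nb, ∀ r < c, ∀ y < 4, Touch G (d.core b r y) (d.core b r (y + 1))
  cov : ∀ b < nb, ∀ r, r + 1 < c → ∀ y < 4, Touch G (d.core b r y) (d.core b (r + 1) y)
  nc : ∀ b < nb, ∀ s, ∀ y < 4, Touch G (d.nd b s 7 y) (d.core b (if s then c - 1 else 0) y)
  st : ∀ b < nb, ∀ r < c, ∃ v ∈ S, v ∈ d.core b r 0
  en : ∀ b < nb, ∀ r < c, ∃ v ∈ E, v ∈ d.core b r 4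
  ptT : ∀ σ < d.ns, ∀ j t, d.pt σ j = Sum.inl t → t ∈ d.term ∧ Touch G (d.seg σ) {t}
  ptP : ∀ σ < d.ns, ∀ j b s x, d.pt σ j = Sum.inr (b, s, x) →
    b < nb ∧ x < d.M b s ∧ Touch G (d.seg σ) (d.nd b s 0 (4 + x))
  pti : ∀ σ < d.ns, ∀ σ' < d.ns, ∀ j j', d.pt σ j = d.pt σ' j' → σ = σ' ∧ j = j'
  Dlt : d.D ⊆ range d.ns
  Dev : ∀ b < nb, Even (d.ends d.D b false + d.ends d.D b true)
  Dcon : ∀ b < nb, ∃ σ ∈ d.D, ∃ j, (∃ s x, d.pt σ j = Sum.inr (b, s, x)) ∧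
    ∀ b' s' x', d.pt σ (!j) = Sum.inr (b', s', x') → d.rD b' < d.rD b
  par : ∀ b < nb, d.par b < d.ns ∧ d.par b ∉ d.D ∧
    (∃ x, d.pt (d.par b) (d.pe b) = Sum.inr (b, d.near b, x)) ∧
    ∀ b' s' x', d.pt (d.par b) (!d.pe b) = Sum.inr (b', s', x') → d.rk b' < d.rk b

/-- The root path of the first block crosses the second block. -/
inductive HD.Cr (d : HD V) : ℕ → ℕ → Prop
  | base {b b0 : ℕ} {s : Bool} {x : ℕ} : d.pt (d.par b) (!d.pe b) = Sum.inr (b0, s, x) →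
      s ≠ d.near b0 → HD.Cr d b b0
  | step {b b1 b0 : ℕ} {s : Bool} {x : ℕ} : d.pt (d.par b) (!d.pe b) = Sum.inr (b1, s, x) →
      HD.Cr d b1 b0 → HD.Cr d b b0

/-- The parent segment of the second block lies on the root path of the first block. -/
inductive HD.On (d : HD V) : ℕ → ℕ → Prop
  | refl {b : ℕ} : HD.On d b b
  | step {b b1 y : ℕ} {s : Bool} {x : ℕ} : d.pt (d.par b) (!d.pe b) = Sum.inr (b1, s, x) →
      HD.On d b1 y → HD.On d b y

/-- The sum modulo two of the root paths of the blocks in `T`. -/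
noncomputable def HD.tog (d : HD V) (nb : ℕ) (T : Finset ℕ) : Finset ℕ :=
  ((range nb).filter fun y => Odd (T.filter fun b => d.On b y).card).image d.par

/-- A forest order on `range n`; `c b a` means that `a` lies above `b`. -/
structure FOrd (n : ℕ) (c : ℕ → ℕ → Prop) : Prop where
  lt : ∀ b < n, ∀ a, c b a → a < n
  irr : ∀ b < n, ¬ c b b
  tr : ∀ b < n, ∀ a x, c b a → c a x → c b x
  fo : ∀ b < n, ∀ x y, c b x → c b y → x = y ∨ c x y ∨ c y x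

/-- Chains and antichains are small. -/
def Thin (n : ℕ) (c : ℕ → ℕ → Prop) (m : ℕ) : Prop :=
  (∀ b < n, ((range n).filter (c b)).card < m) ∧
    ∀ A ⊆ range n, (∀ x ∈ A, ∀ y ∈ A, ¬ c x y) → A.card < m

/-- A matching. -/
def IsMat (A : Finset (ℕ × ℕ)) : Prop := ∀ p ∈ A, ∀ q ∈ A, p.1 = q.1 ∨ p.2 = q.2 → p = q

/-- Ends, paired by `σ` and grouped at nodes; ends without a node are free. -/
structure Ends {ε ν : Type} (E : Finset ε) (σ : ε → ε) (node : ε → Option ν) (pos : ε → ℕ) :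
    Prop where
  mem : ∀ e ∈ E, σ e ∈ E
  inv : ∀ e ∈ E, σ (σ e) = e
  ne : ∀ e ∈ E, σ e ≠ e
  inj : ∀ e ∈ E, ∀ f ∈ E, node e ≠ none → node e = node f → pos e = pos f → e = f
  even : ∀ v, Even (E.filter fun e => node e = some v).card
  reach : ∀ e ∈ E, ∃ s ∈ E, node s = none ∧ Relation.ReflTransGen
    (fun a b => b = σ a ∨ (b ∈ E ∧ node a ≠ none ∧ node b = node a)) e s

/-- A pairing of the ends at every node, with depths that decrease inside a pair. -/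
structure Pairing {ε ν : Type} (E : Finset ε) (node : ε → Option ν) (pos : ε → ℕ) (t : ε → ε)
    (δ : ε → ℕ) : Prop where
  mem : ∀ e ∈ E, node e ≠ none → t e ∈ E
  inv : ∀ e ∈ E, node e ≠ none → t (t e) = e
  ne : ∀ e ∈ E, node e ≠ none → t e ≠ e
  nd : ∀ e ∈ E, node e ≠ none → node (t e) = node e
  dep : ∀ e ∈ E, node e ≠ none → δ (t e) = δ e ∧ 1 ≤ δ e ∧ δ e ≤ 4
  nest : ∀ e ∈ E, ∀ f ∈ E, node e ≠ none → node f = node e → pos e < pos f → pos f < pos (t e) →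
    δ f < δ e

/-- Any two disjoint subsets of `T` of equal size are linked in `U`. -/
def AllLinked (G : SimpleGraph V) (U T : Finset V) : Prop :=
  ∀ X ⊆ T, ∀ Y ⊆ T, Disjoint X Y → X.card = Y.card → ∃ P : V → Finset V,
    (∀ x ∈ X, P x ⊆ U ∧ Conn G (P x) ∧ x ∈ P x ∧ ∃ y ∈ Y, y ∈ P x) ∧
      ∀ x ∈ X, ∀ x' ∈ X, x ≠ x' → Disjoint (P x) (P x')

/-! ### The skeleton of a planar graph -/

/-- `q` is the neighbour of `p` that belongs to port `i` (0, 1 horizontal; 2, 3 vertical). -/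
def Nb (f1 f2 : Bool) (i : Fin 4) (p q : ℕ × ℕ) : Prop :=
  if i = 0 then (if f1 then q = (p.1 + 1, p.2) else (q.1 + 1, q.2) = p)
  else if i = 1 then (if f1 then (q.1 + 1, q.2) = p else q = (p.1 + 1, p.2))
  else if i = 2 then (if f2 then q = (p.1, p.2 + 1) else (q.1, q.2 + 1) = p)
  else (if f2 then (q.1, q.2 + 1) = p else q = (p.1, p.2 + 1))

/-- A model in the `K × K` grid in which every marker is a single point. -/
def NFin (K nx nt : ℕ) (adj : ℕ → ℕ → Prop) (pt : ℕ → Fin 4 → Option ℕ) : Prop :=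
  ∃ (φ : ℕ → Finset (ℕ × ℕ)) (π : ℕ → ℕ × ℕ) (f1 f2 : ℕ → Bool),
    (∀ x < nx, Conn gridN (φ x) ∧ ∀ p ∈ φ x, p.1 < K ∧ p.2 < K) ∧
    (∀ x < nx, ∀ y < nx, x ≠ y → Disjoint (φ x) (φ y)) ∧
    (∀ x < nx, ∀ y < nx, x ≠ y → adj x y → Touch gridN (φ x) (φ y)) ∧
    (∀ t < nt, (π t).1 < K ∧ (π t).2 < K ∧ ∀ x < nx, π t ∉ φ x) ∧
    (∀ t < nt, ∀ t' < nt, π t = π t' → t = t') ∧
    ∀ t < nt, ∀ i x, pt t i = some x → ∃ q ∈ φ x, Nb (f1 t) (f2 t) i (π t) q

/-- A model of a skeleton with markers in a graph. -/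
structure Marked (G : SimpleGraph V) (nx nt : ℕ) (pt : ℕ → Fin 4 → Option ℕ)
    (φ ψ : ℕ → Finset V) : Prop where
  cφ : ∀ x < nx, Conn G (φ x)
  cψ : ∀ t < nt, Conn G (ψ t)
  dφ : ∀ x < nx, ∀ y < nx, x ≠ y → Disjoint (φ x) (φ y)
  dψ : ∀ t < nt, ∀ t' < nt, t ≠ t' → Disjoint (ψ t) (ψ t')
  dφψ : ∀ x < nx, ∀ t < nt, Disjoint (φ x) (ψ t)
  lt : ∀ t < nt, ∀ i x, pt t i = some x → x < nx
  inj : ∀ t < nt, ∀ i j x, pt t i = some x → pt t j = some x → i = j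
  both : ∀ t < nt, pt t 0 = none ↔ pt t 1 = none
  tch : ∀ t < nt, ∀ i x, pt t i = some x → Touch G (ψ t) (φ x)
  rigid : ∀ t < nt, ∀ u v a b, pt t 0 = some u → pt t 1 = some v → pt t 2 = some a →
    pt t 3 = some b → Touch G (φ u) (φ a) ∧ Touch G (φ u) (φ b) ∧ Touch G (φ v) (φ a) ∧
      Touch G (φ v) (φ b)

/-- A decomposition of `H` into `nx` skeleton vertices and `nt` pieces. -/
structure Skel (H : SimpleGraph W) (nx nt : ℕ) (xs : ℕ → W) (Pc : ℕ → Finset W) (m : ℕ → ℕ)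
    (sp : ℕ → ℕ → W) (sd : W → Bool) (pt : ℕ → Fin 4 → Option ℕ) : Prop where
  inj : ∀ x < nx, ∀ y < nx, xs x = xs y → x = y
  cover : ∀ w, (∃ x < nx, w = xs x) ∨ ∃ t < nt, w ∈ Pc t
  nmem : ∀ x < nx, ∀ t < nt, xs x ∉ Pc t
  disj : ∀ t < nt, ∀ t' < nt, t ≠ t' → Disjoint (Pc t) (Pc t')
  shape : ∀ t < nt, Shape H (Pc t) (m t) (sp t) sd
  sep : ∀ t < nt, ∀ t' < nt, ∀ w ∈ Pc t, ∀ w' ∈ Pc t', H.Adj w w' → t = t'
  lt : ∀ t < nt, ∀ i x, pt t i = some x → x < nx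
  rule : ∀ t < nt, ∀ w ∈ Pc t, ∀ x < nx, H.Adj w (xs x) →
    (pt t 0 = some x ∧ w = sp t 0) ∨ (pt t 1 = some x ∧ w = sp t (m t - 1)) ∨
    (pt t 2 = some x ∧ (w ∈ (range (m t)).image (sp t) ∨ sd w = false)) ∨
    (pt t 3 = some x ∧ (w ∈ (range (m t)).image (sp t) ∨ sd w = true))

/-- A component `T` of the graph minus `X` with a spine from `u` to `v` and at most two apices,
together with the three parts of its marker. -/
structure BPiece (H : SimpleGraph W) (X T : Finset W) (u v : W) (oa ob : Option W) (m : ℕ)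
    (sp : ℕ → W) (sd : W → Bool) (T0 T1 T2 : Finset W) : Prop where
  hu : u ∈ X
  hv : v ∈ X
  huv : u ≠ v
  ha : ∀ a, oa = some a → a ∈ X ∧ a ≠ u ∧ a ≠ v ∧ ob ≠ some a ∧ Touch H T1 {a}
  hb : ∀ b, ob = some b → b ∈ X ∧ b ≠ u ∧ b ≠ v ∧ Touch H T1 {b}
  shape : Shape H T m sp sd
  rule : ∀ w ∈ T, ∀ x ∈ X, H.Adj w x → (x = u ∧ w = sp 0) ∨ (x = v ∧ w = sp (m - 1)) ∨
    (oa = some x ∧ (w ∈ (range m).image sp ∨ sd w = false)) ∨
    (ob = some x ∧ (w ∈ (range m).image sp ∨ sd w = true))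
  s0 : T0 ⊆ T
  s1 : T1 ⊆ T
  s2 : T2 ⊆ T
  d01 : Disjoint T0 T1
  d02 : Disjoint T0 T2
  d12 : Disjoint T1 T2
  c0 : Conn H (insert u T0)
  c1 : Conn H T1
  c2 : Conn H (insert v T2)
  t0 : Touch H T1 (insert u T0)
  t2 : Touch H T1 (insert v T2)
  rigid : ∀ a b, oa = some a → ob = some b →
    Touch H T0 {a} ∧ Touch H T0 {b} ∧ Touch H T2 {a} ∧ Touch H T2 {b}

/-- Every component of the graph minus `X` sees at most two vertices of `X` or has a spine. -/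
def Tame [Fintype W] (H : SimpleGraph W) (X : Finset W) : Prop :=
  ∀ w ∉ X, (X.filter fun x => Touch H (comp H (univ \ X) w) {x}).card ≤ 2 ∨
    ∃ u v oa ob m sp sd T0 T1 T2, BPiece H X (comp H (univ \ X) w) u v oa ob m sp sd T0 T1 T2

/-- The four unit vectors in counterclockwise order. -/
def dirv : Fin 4 → ℤ × ℤ := ![(1, 0), (0, 1), (-1, 0), (0, -1)]

/-- A model in the lattice in which every marker is a single point, possibly rotated. -/
def PtZ (nx nt : ℕ) (adj : ℕ → ℕ → Prop) (pt : ℕ → Fin 4 → Option ℕ) : Prop :=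
  ∃ (φ : ℕ → Finset (ℤ × ℤ)) (π : ℕ → ℤ × ℤ) (e : ℕ → Fin 4 → Fin 4),
    (∀ x < nx, Conn gridZ (φ x)) ∧ (∀ x < nx, ∀ y < nx, x ≠ y → Disjoint (φ x) (φ y)) ∧
    (∀ x < nx, ∀ y < nx, x ≠ y → adj x y → Touch gridZ (φ x) (φ y)) ∧
    (∀ t < nt, ∀ x < nx, π t ∉ φ x) ∧ (∀ t < nt, ∀ t' < nt, π t = π t' → t = t') ∧
    (∀ t < nt, e t 1 = e t 0 + 2 ∧ e t 3 = e t 2 + 2 ∧ (e t 2 = e t 0 + 1 ∨ e t 2 = e t 0 + 3)) ∧
    ∀ t < nt, ∀ i x, pt t i = some x → π t + dirv (e t i) ∈ φ x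

end Defs

/-! ### Module statements: tools -/

/-- FE: extension of independent sets. -/
def FEStmt : Prop := ∀ {V : Type} {G : SimpleGraph V} {U : Finset V} {K : ℕ}
  {β : Finset V → Finset V} (S0 X : Finset V) (s : ℕ), Haven G U K β → 2 * s ≤ K → S0 ⊆ U →
  S0.card ≤ s → Free β K S0 → (∀ Z : Finset V, Z.card < s → s ≤ (X ∩ β Z).card) →
  ∃ S, S0 ⊆ S ∧ S ⊆ S0 ∪ X ∧ S.card = s ∧ Free β K S

/-- FAT: disjoint connected sets extend to a partition of a connected set. -/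
def FATStmt : Prop := ∀ {V ι : Type} [Fintype ι] [Nonempty ι] {G : SimpleGraph V} {U : Finset V}
  (P : ι → Finset V), Conn G U → (∀ i, P i ⊆ U ∧ Conn G (P i)) →
  (∀ i j, i ≠ j → Disjoint (P i) (P j)) →
  ∃ Q : ι → Finset V, (∀ i, P i ⊆ Q i ∧ Q i ⊆ U ∧ Conn G (Q i)) ∧
    (∀ i j, i ≠ j → Disjoint (Q i) (Q j)) ∧ (∀ v ∈ U, ∃ i, v ∈ Q i) ∧ Conn (tg G Q) univ

/-- LINK: two independent sets of equal size are linked. -/
def LINKStmt : Prop := ∀ {V κ : Type} [Fintype V] [Fintype κ] {G : SimpleGraph V} {U : Finset V}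
  {K : ℕ} {β : Finset V → Finset V} (p q : κ → V), Haven G U K β → Fintype.card κ ≤ K →
  Function.Injective p → Function.Injective q → Free β K (univ.image p) →
  Free β K (univ.image q) → ∃ (P : κ → Finset V) (π : κ ≃ κ),
    (∀ k, P k ⊆ β ∅ ∧ Conn G (P k) ∧ p k ∈ P k ∧ q (π k) ∈ P k) ∧
    ∀ k k', k ≠ k' → Disjoint (P k) (P k')

/-- EXT: a win in a part of the system is a win in the system. -/
def EXTStmt : Prop := ∀ {V ι : Type} [Fintype ι] {G : SimpleGraph V} {C : ℕ → CD V ι}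
  {l lo len m : ℕ}, SPoS G l C → 0 < len → lo + len ≤ l →
  Win G (Reg (fun j => C (lo + j)) len) (St fun j => C (lo + j)) (En (fun j => C (lo + j)) len) m →
  Win G (Reg C l) (St C) (En C l) m

/-- SEQ: a list with `m` marked members gives a path across `m` lanes. -/
def SEQStmt : Prop := ∀ {V : Type} {G : SimpleGraph V} {Big S E : Finset V}
  {l : List (Finset V)} {m : ℕ}, SeqOK G Big l → m ≤ cnt (Mk S E) l → WinP G Big S E m

/-- SPOS: symmetric path-of-sets systems from tree-width. -/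
def SPOSStmt : Prop := ∀ l : ℕ, ∃ ρ lam : ℕ, ∀ {V : Type} [Fintype V] (G : SimpleGraph V) (n : ℕ),
  0 < n → lam * n ≤ treewidth G → ∃ (w σ : ℕ) (C : ℕ → CD V (Fin w)), n ≤ w ∧ SPoS G l C ∧
    Sep G σ ∧ σ ≤ ρ * w

/-- PASS: one of many disjoint wires can be removed from a family of clusters. -/
def PASSStmt : Prop := ∀ l a : ℕ, ∃ E : ℕ, ∀ {V ι κ : Type} [Fintype V] [Fintype ι] [Fintype κ]
  {G : SimpleGraph V} (C : ℕ → CD V ι) (L : κ → ℕ → Finset V), (∀ j < l, IsSC G (C j)) →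
  (∀ k, ∀ j < l, L k j ⊆ (C j).reg ∧ Conn G (L k j) ∧ ∀ i, Disjoint (L k j) ((C j).lane i)) →
  (∀ k k', k ≠ k' → ∀ j < l, Disjoint (L k j) (L k' j)) →
  Fintype.card ι ≤ a * Fintype.card κ → E ≤ Fintype.card ι →
  ∃ (k : κ) (Θ : Finset ι) (β' : ℕ → Finset V → Finset V), Fintype.card ι ≤ E * Θ.card ∧
    ∀ j < l, IsSC G (res (C j) (Subtype.val : Θ → ι) ((C j).reg \ L k j) (β' j))

/-- GL: growth of a rooted forest whose branch sets reach distinct targets. -/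
def GLStmt : Prop := ∀ {V W : Type} [Fintype V] {G : SimpleGraph V} {U X : Finset V} {K : ℕ}
  {β : Finset V → Finset V} {J : SimpleGraph W} {I J0 : Finset W} {p : W → V}, Peel J I J0 →
  Haven G U K β → 2 * J0.card < K → Set.InjOn p I → (∀ w ∈ I, p w ∈ U) →
  (∀ Z : Finset V, Z.card < K → (I.filter fun w => p w ∉ β Z).card ≤ Z.card) →
  (∀ Z : Finset V, Z.card < K → ∃ x ∈ X, x ∈ β Z) →
  ∃ B : W → Finset V, (∀ w ∈ J0, B w ⊆ U ∧ Conn G (B w) ∧ ∃ x ∈ X, x ∈ B w) ∧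
    (∀ w ∈ J0, ∀ w' ∈ J0, w ≠ w' → Disjoint (B w) (B w')) ∧ (∀ w ∈ I, p w ∈ B w) ∧
    ∀ w ∈ J0, ∀ w' ∈ J0, J.Adj w w' → w ∉ I → Touch G (B w) (B w')

/-! ### Module statements: a path across many lanes -/

/-- KW: without a star, few vertices have degree other than two. -/
def KWStmt : Prop := ∀ {ι : Type} [Fintype ι] (Γ : SimpleGraph ι) (m : ℕ), Conn Γ univ →
  NoStar Γ m → (univ.filter fun v => 3 ≤ dg Γ v).card ≤ 4 * m + 1 ∧
    (univ.filter fun v => dg Γ v ≤ 1).card ≤ m + 2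

/-- BLK: many disjoint paths of length `c` among the good vertices. -/
def BLKStmt : Prop := ∀ {ι : Type} [Fintype ι] (Γ : SimpleGraph ι) (Good : Finset ι)
  (m c nb : ℕ), Conn Γ univ → NoStar Γ m → (∀ v ∈ Good, dg Γ v ≤ 2) → (∃ v, v ∉ Good) →
  nb * (c + c * c) + c * (m + (univ \ Good).card) ≤ Good.card → 0 < c →
  ∃ lam : ℕ → ℕ → ι, (∀ b < nb, ∀ r < c, lam b r ∈ Good) ∧
    (∀ b < nb, ∀ r < c, ∀ b' < nb, ∀ r' < c, lam b r = lam b' r' → b = b' ∧ r = r') ∧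
    ∀ b < nb, ∀ r, r + 1 < c → Γ.Adj (lam b r) (lam b (r + 1))

/-- TIME: a minor in which the lanes carry a time function and a second linkage survives. -/
def TIMEStmt : Prop := ∀ {V ι κ : Type} [Fintype V] [Fintype ι] [Fintype κ] (G : SimpleGraph V)
  (U Y : Finset V) (x : ι → V) (P : ι → Finset V) (Q : κ → Finset V) (u v : κ → ι),
  (∀ i, P i ⊆ U ∧ Conn G (P i) ∧ x i ∈ P i ∧ ∃ y ∈ Y, y ∈ P i) →
  (∀ i j, i ≠ j → Disjoint (P i) (P j)) →
  (∀ k, Q k ⊆ U ∧ Conn G (Q k) ∧ x (u k) ∈ Q k ∧ x (v k) ∈ Q k) →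
  (∀ k k', k ≠ k' → Disjoint (Q k) (Q k')) →
  ∃ (W : Type) (_ : Fintype W) (M : SimpleGraph W) (br : W → Finset V) (lane : W → ι)
    (ν : W → ℕ) (fst : ι → W) (Q' : κ → Finset W), Timed M lane ν fst ∧
    (∀ w, br w ⊆ U ∧ Conn G (br w)) ∧ (∀ w w', w ≠ w' → Disjoint (br w) (br w')) ∧
    (∀ w w', M.Adj w w' → Touch G (br w) (br w')) ∧ (∀ i, x i ∈ br (fst i)) ∧
    (∀ i, ∃ w, lane w = i ∧ ∃ y ∈ Y, y ∈ br w) ∧
    (∀ k, Conn M (Q' k) ∧ fst (u k) ∈ Q' k ∧ fst (v k) ∈ Q' k) ∧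
    ∀ k k', k ≠ k' → Disjoint (Q' k) (Q' k')

/-- PORTA: columns, ports and the cut condition. -/
def PORTAStmt : Prop := ∀ {W ι : Type} [Fintype W] (M : SimpleGraph W) (lane : W → ι)
  (ν : W → ℕ) (fst : ι → W) (nb c : ℕ) (lam : ℕ → ℕ → ι) (S0 : Finset W)
  (Q : ℕ → ℕ → Finset W), Timed M lane ν fst → Blocks M lane nb c lam → 84 ≤ c →
  (∀ s ∈ S0, ∀ b < nb, ∀ r < c + 18, lane s ≠ lam b r) →
  (∀ b < nb, ∀ r < c, Conn M (Q b r) ∧ (∃ s ∈ S0, s ∈ Q b r) ∧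
    ∃ w ∈ Q b r, lane w = lam b (9 + r)) →
  (∀ b < nb, ∀ r < c, ∀ b' < nb, ∀ r' < c, b ≠ b' ∨ r ≠ r' → Disjoint (Q b r) (Q b' r')) →
  ∃ Mn col port, Cols M lane fst nb c lam Mn col port ∧
    CutOK M (Outer lane nb c lam) S0 nb
      (fun p b => b < nb ∧ ∃ s, ∃ x < Mn b s, p = port b s x)

/-- PORTB: segments from the cut condition. -/
def PORTBStmt : Prop := ∀ {W : Type} [Fintype W] (M : SimpleGraph W) (O : W → Prop)
  (S0 : Finset W) (nb : ℕ) (IsP : W → ℕ → Prop), (∀ s ∈ S0, O s) →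
  (∀ p b, IsP p b → O p ∧ b < nb ∧ p ∉ S0 ∧ ∀ b', IsP p b' → b' = b) → CutOK M O S0 nb IsP →
  ∃ ns seg pt D rD par pe rk, Segs M O S0 nb IsP ns seg pt D rD par pe rk

/-- HALF: a win or one half of the system. -/
def HALFStmt : Prop := ∀ ρ c q : ℕ, 84 ≤ c → ∃ E : ℕ, ∀ {V ι : Type} [Fintype V] [Fintype ι]
  {G : SimpleGraph V} {C : ℕ → CD V ι} {σ m : ℕ}, SPoS G 6 C → Sep G σ →
  σ ≤ ρ * Fintype.card ι → E * (m + 1) ≤ Fintype.card ι →
  Win G (Reg C 6) (St C) (En C 6) m ∨ ∃ d, IsHalf G (Reg C 6) (St C) (En C 6) (q * m) c d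

/-- TREEA: the order of the blocks and the parity of sums of root paths. -/
def TREEAStmt : Prop := ∀ {V : Type} {G : SimpleGraph V} {Big S E : Finset V} {nb c : ℕ}
  {d : HD V}, IsHalf G Big S E nb c d → FOrd nb d.Cr ∧
    ∀ T ⊆ range nb, d.tog nb T ⊆ range d.ns ∧ Disjoint (d.tog nb T) d.D ∧ ∀ b0 < nb, ∀ s,
      d.ends (d.tog nb T) b0 s ≡ (T.filter fun b => d.Cr b b0).card +
        (if b0 ∈ T ∧ s = d.near b0 then 1 else 0) [MOD 2]

/-- TREEB: long chains and large antichains are wins. -/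
def TREEBStmt : Prop := ∀ {V : Type} {G : SimpleGraph V} {Big S E : Finset V} {nb c m : ℕ}
  {d : HD V}, IsHalf G Big S E nb c d → 0 < c → 0 < m → Win G Big S E m ∨ Thin nb d.Cr m

/-- SEL: two selections that cannot be mirror images of each other. -/
def SELStmt : Prop := ∀ (m n : ℕ) (cP cQ : ℕ → ℕ → Prop), 0 < m → 1000 * m ≤ n → FOrd n cP →
  FOrd n cQ → Thin n cP m → Thin n cQ m → ∃ U ⊆ range n, ∃ U' ⊆ range n, U.card = 100 * m ∧
    U'.card = 100 * m ∧ ∀ A ⊆ U ×ˢ U', IsMat A → 100 * m ≤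
      (A.filter fun p => ∃ q ∈ A, ¬ (cP q.1 p.1 ↔ cQ q.2 p.2)).card + 13 * m +
        2 * (100 * m - A.card)

/-- RIB: a large matching of blocks joined by ribbons of five rows. -/
def RIBStmt : Prop := ∀ (U U' : Finset ℕ) (c : ℕ) (μ : ℕ × ℕ → ℕ × ℕ) (Bad : Finset (ℕ × ℕ)),
  U.card = U'.card → Set.BijOn μ (U ×ˢ range c : Finset (ℕ × ℕ)) (U' ×ˢ range c : Finset (ℕ × ℕ)) →
  (∀ b ∈ U, ∀ r, r + 2 < c → (b, r + 1) ∉ Bad → ∀ b' r', μ (b, r + 1) = (b', r' + 1) →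
    r' + 2 < c → (μ (b, r) = (b', r') ∧ μ (b, r + 2) = (b', r' + 2)) ∨
      (μ (b, r) = (b', r' + 2) ∧ μ (b, r + 2) = (b', r'))) →
  ∃ A ⊆ U ×ˢ U', IsMat A ∧ c * (U.card - A.card) ≤ 12 * U.card + 3 * Bad.card ∧
    ∃ (r r' : ℕ × ℕ → ℕ) (o : ℕ × ℕ → Bool), ∀ p ∈ A, r p + 5 ≤ c ∧ r' p + 5 ≤ c ∧
      ∀ j < 5, μ (p.1, r p + j) = (p.2, if o p then r' p + j else r' p + 4 - j)

/-- TOG: half of the adjustable parities can be made odd. -/
def TOGStmt : Prop := ∀ {α : Type} (A T : Finset α) (k : α → ℕ) (a : α → α → Prop),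
  (∀ p ∈ T, ∃ q ∈ A, a q p) → ∃ S ⊆ A,
    T.card ≤ 2 * (T.filter fun p => Odd (k p + (S.filter fun q => a q p).card)).card

/-- PAIR: a pairing of bounded depth without closed circuits. -/
def PAIRStmt : Prop := ∀ {ε ν : Type} (E : Finset ε) (σ : ε → ε) (node : ε → Option ν)
  (pos : ε → ℕ), Ends E σ node pos → ∃ (t : ε → ε) (δ r : ε → ℕ), Pairing E node pos t δ ∧
    ∀ a ∈ E, node (σ a) ≠ none → r (t (σ a)) < r a

/-- PM: pieces with linked ends are joined to one sequence with a third of the weight. -/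
def PMStmt : Prop := ∀ {V ι : Type} {G : SimpleGraph V} (Big H : Finset V) (I : Finset ι)
  (Ls : ι → List (Finset V)) (h : ι × Bool → V) (P : Finset V → Prop), H ⊆ Big →
  (∀ i ∈ I, SeqOK G Big (Ls i) ∧ (∀ S ∈ Ls i, Disjoint S H) ∧ (∀ j, h (i, j) ∈ H) ∧
    (∃ S, (Ls i).head? = some S ∧ Touch G S {h (i, false)}) ∧
    ∃ S, (Ls i).getLast? = some S ∧ Touch G S {h (i, true)}) →
  (∀ i ∈ I, ∀ i' ∈ I, i ≠ i' → ∀ S ∈ Ls i, ∀ S' ∈ Ls i', Disjoint S S') →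
  (∀ A ⊆ I, ∀ B ⊆ I, Disjoint A B → B.card = 2 * A.card → ∃ Q : ι × Bool → Finset V,
    (∀ e ∈ A ×ˢ (univ : Finset Bool), Q e ⊆ H ∧ Conn G (Q e) ∧ h e ∈ Q e ∧
      ∃ i ∈ B, ∃ j, h (i, j) ∈ Q e) ∧
    ∀ e ∈ A ×ˢ (univ : Finset Bool), ∀ e' ∈ A ×ˢ (univ : Finset Bool), e ≠ e' →
      Disjoint (Q e) (Q e')) →
  ∃ l, SeqOK G Big l ∧ ∑ i ∈ I, cnt P (Ls i) ≤ 3 * cnt P l

/-- NET: a connected even network with two free hairs contains a heavy sequence. -/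
def NETStmt : Prop := ∀ {V ε ν : Type} {G : SimpleGraph V} (Big : Finset V) (E : Finset ε)
  (σ : ε → ε) (node : ε → Option ν) (pos : ε → ℕ) (Sg : ε → Finset V) (h : ε → V)
  (ty : ε → Bool) (Hr T : Bool → Finset V) (P : Finset V → Prop) (m : ℕ), Ends E σ node pos →
  (∀ e ∈ E, Sg e ⊆ Big ∧ Conn G (Sg e) ∧ Sg (σ e) = Sg e ∧ ∀ j, Disjoint (Sg e) (Hr j)) →
  (∀ e ∈ E, ∀ f ∈ E, f ≠ e → f ≠ σ e → Disjoint (Sg e) (Sg f)) →
  (∀ j, Hr j ⊆ Big ∧ T j ⊆ Hr j ∧ AllLinked G (Hr j) (T j)) → Disjoint (Hr false) (Hr true) →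
  (∀ e ∈ E, node e = none → h e ∈ T (ty e) ∧ Touch G (Sg e) {h e}) →
  (∀ e ∈ E, ∀ f ∈ E, node e = none → node f = none → h e = h f → e = f) →
  (∀ t δ, Pairing E node pos t δ → ∃ Pt : ε → Finset V,
    (∀ e ∈ E, node e ≠ none → Pt e ⊆ Big ∧ Conn G (Pt e) ∧ Pt (t e) = Pt e ∧
      Touch G (Pt e) (Sg e) ∧ (∀ f ∈ E, Disjoint (Pt e) (Sg f)) ∧ ∀ j, Disjoint (Pt e) (Hr j)) ∧
    ∀ e ∈ E, ∀ f ∈ E, node e ≠ none → node f ≠ none → f ≠ e → f ≠ t e →
      Disjoint (Pt e) (Pt f)) →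
  18 * m ≤ (E.filter fun e => P (Sg e)).card → ∃ l, SeqOK G Big l ∧ m ≤ cnt P l

/-- GEO: a pairing at one collar is drawn in a grid of depth eight. Ends in the columns below four
come from the bottom, the others from the top. -/
def GEOStmt : Prop := ∀ {ε : Type} (F : Finset ε) (cl : ε → ℕ) (Y : ℕ) (t : ε → ε) (δ : ε → ℕ),
  (∀ e ∈ F, cl e < Y) → (∀ e ∈ F, ∀ f ∈ F, cl e = cl f → e = f) →
  Pairing F (fun _ => some ()) (fun e => if cl e < 4 then 3 - cl e else cl e) t δ →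
  ∃ I : ε → Finset (ℕ × ℕ), (∀ e ∈ F, I (t e) = I e ∧ Conn gridN (I e) ∧
    (∀ p ∈ I e, p.1 < 8 ∧ p.2 < Y) ∧ ((if cl e < 4 then 7 else 0), cl e) ∈ I e) ∧
    ∀ e ∈ F, ∀ f ∈ F, f ≠ e → f ≠ t e → Disjoint (I e) (I f)

/-- COMB: two halves joined by ribbons contain a heavy sequence. -/
def COMBStmt : Prop := ∀ {V : Type} [Fintype V] {G : SimpleGraph V}
  (Big BL BR Mr SL EL SR ER : Finset V) (nb c m : ℕ) (dL dR : HD V) (A : Finset (ℕ × ℕ))
  (r r' : ℕ × ℕ → ℕ) (o : ℕ × ℕ → Bool) (Mid : ℕ × ℕ → ℕ → Finset V),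
  IsHalf G BL SL EL nb c dL → IsHalf G BR SR ER nb c dR → BL ⊆ Big → BR ⊆ Big → Mr ⊆ Big →
  Disjoint BL BR → Disjoint BL Mr → Disjoint BR Mr → 0 < c → A ⊆ range nb ×ˢ range nb →
  IsMat A →
  (∀ p ∈ A, r p + 5 ≤ c ∧ r' p + 5 ≤ c ∧ ∀ j < 5, Mid p j ⊆ Mr ∧ Conn G (Mid p j) ∧
    Touch G (dL.core p.1 (r p + j) 4) (Mid p j) ∧
    Touch G (Mid p j) (dR.core p.2 (if o p then r' p + j else r' p + 4 - j) 4)) →
  (∀ p ∈ A, ∀ j < 5, ∀ p' ∈ A, ∀ j' < 5, p ≠ p' ∨ j ≠ j' → Disjoint (Mid p j) (Mid p' j')) →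
  18 * m ≤ (A.filter fun p => ∃ q ∈ A, ¬ (dL.Cr q.1 p.1 ↔ dR.Cr q.2 p.2)).card →
  ∃ l, SeqOK G Big l ∧ m ≤ cnt (Mk SL SR) l

/-- CP: a system of length thirteen contains a path across, or a star on, linearly many lanes. -/
def CPStmt : Prop := ∀ ρ : ℕ, ∃ E : ℕ, ∀ {V ι : Type} [Fintype V] [Fintype ι]
  {G : SimpleGraph V} {C : ℕ → CD V ι} {σ m : ℕ}, SPoS G 13 C → Sep G σ →
  σ ≤ ρ * Fintype.card ι → E * (m + 1) ≤ Fintype.card ι → Win G (Reg C 13) (St C) (En C 13) m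

/-! ### Module statements: cells and the grid of cells -/

/-- CELLP: a cell from a path across many lanes. -/
def CELLPStmt : Prop := ∃ E : ℕ, ∀ {V ι : Type} [Fintype V] [Fintype ι] {G : SimpleGraph V}
  {C : ℕ → CD V ι} {n m : ℕ}, SPoS G 16 C → E * (n + 1) ≤ m →
  WinP G (Reg (fun j => C (1 + j)) 13) (St fun j => C (1 + j)) (En (fun j => C (1 + j)) 13) m →
  ∃ x x' y y', x ≠ x' ∧ y ≠ y' ∧
    CellV G n (Reg C 16) ((C 0).a x) ((C 0).a x') ((C 15).b y) ((C 15).b y')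

/-- CELLS: a cell from a star. -/
def CELLSStmt : Prop := ∃ E : ℕ, ∀ {V ι : Type} [Fintype V] [Fintype ι] {G : SimpleGraph V}
  {C : ℕ → CD V ι} {n m : ℕ}, SPoS G 16 C → E * (n + 1) ≤ m →
  WinS G (Reg (fun j => C (1 + j)) 13) (St fun j => C (1 + j)) (En (fun j => C (1 + j)) 13) m →
  ∃ x x' y y', x ≠ x' ∧ y ≠ y' ∧
    CellV G n (Reg C 16) ((C 0).a x) ((C 0).a x') ((C 15).b y) ((C 15).b y')

/-- CELL: a cell in every system of length sixteen. -/
def CELLStmt : Prop := ∀ ρ : ℕ, ∃ E : ℕ, ∀ {V ι : Type} [Fintype V] [Fintype ι]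
  {G : SimpleGraph V} {C : ℕ → CD V ι} {σ n : ℕ}, SPoS G 16 C → Sep G σ →
  σ ≤ ρ * Fintype.card ι → E * (n + 1) ≤ Fintype.card ι → ∃ x x' y y', x ≠ x' ∧ y ≠ y' ∧
    CellV G n (Reg C 16) ((C 0).a x) ((C 0).a x') ((C 15).b y) ((C 15).b y')

/-- STEP: a cell with passing wires that form two stacks. -/
def STEPStmt : Prop := ∀ ρ N : ℕ, ∃ E : ℕ, ∀ {V ι : Type} [Fintype V] [Fintype ι]
  {G : SimpleGraph V} {C : ℕ → CD V ι} {σ n : ℕ}, SPoS G 17 C → Sep G σ →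
  σ ≤ ρ * Fintype.card ι → E * (n + 1) ≤ Fintype.card ι →
  ∃ (i o : Wi (2 * N) → ι) (W0 : Wi (2 * N) → Finset V) (S : Finset V) (Γ : SimpleGraph (Wi (2 * N)))
    (pa pu : V), Function.Injective i ∧ Function.Injective o ∧
    (∀ k, W0 k ⊆ Reg C 17 ∧ Conn G (W0 k) ∧ Disjoint (W0 k) S ∧ (C 0).a (i k) ∈ W0 k) ∧
    (∀ k k', k ≠ k' → Disjoint (W0 k) (W0 k')) ∧ S ⊆ Reg C 17 ∧
    (∀ k, k ≠ Sum.inr (Sum.inr false) → k ≠ Sum.inr (Sum.inr true) → (C 16).b (o k) ∈ W0 k) ∧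
    (∀ k k', Γ.Adj k k' → Touch G (W0 k) (W0 k')) ∧
    Stk Γ (Sum.inr (Sum.inr false)) (Sum.inr (Sum.inr true)) N ∧
    CellV G n S pa pu ((C 16).b (o (Sum.inr (Sum.inr false))))
      ((C 16).b (o (Sum.inr (Sum.inr true)))) ∧
    Touch G {pa} (W0 (Sum.inr (Sum.inr false))) ∧ Touch G {pu} (W0 (Sum.inr (Sum.inr true)))

/-- HOST: many steps with the same pattern. -/
def HOSTStmt : Prop := ∀ N M : ℕ, ∃ g : ℕ, ∀ {V : Type} [Fintype V] (G : SimpleGraph V) (n : ℕ),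
  2 ≤ n → g * n ≤ treewidth G → ∃ (ω : Type) (Γ : SimpleGraph ω) (x x' : ω)
    (Wr : ℕ → ω → Finset V) (S : ℕ → Finset V), Steps G n M Γ x x' Wr S ∧ Stk Γ x x' N

/-- SIM: two stacks simulate a grid of cells. -/
def SIMStmt : Prop := ∀ K : ℕ, ∃ N M : ℕ, ∀ {V ω : Type} {G : SimpleGraph V} {n : ℕ}
  {Γ : SimpleGraph ω} {x x' : ω} {Wr : ℕ → ω → Finset V} {S : ℕ → Finset V}, 2 ≤ n →
  Steps G n M Γ x x' Wr S → Stk Γ x x' N → ∃ Eh Ev S', CellGrid G K n Eh Ev S'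

/-! ### Module statements: the planar graph -/

/-- DRAW: a drawn graph is a minor of the lattice. -/
def DRAWStmt : Prop := ∀ {W : Type} [Fintype W] (H : SimpleGraph W), IsPlane H → Mdl H gridZ

/-- NOK: the lattice has no model of the complete bipartite graph on three plus three vertices. -/
def NOKStmt : Prop := NoK33 gridZ

/-- EP: a feedback vertex set of bounded size. -/
def EPStmt : Prop := ∀ c : ℕ, ∃ k : ℕ, ∀ {W : Type} [Fintype W] (H : SimpleGraph W), NoCyc H c →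
  ∃ X : Finset W, X.card ≤ k ∧ Lov.Acyc H (univ \ X)

/-- ROOT: a forest has a parent function. -/
def ROOTStmt : Prop := ∀ {W : Type} (H : SimpleGraph W) (F : Finset W), Lov.Acyc H F →
  ∃ (par : W → W) (dep : W → ℕ),
    (∀ v ∈ F, 0 < dep v → par v ∈ F ∧ H.Adj v (par v) ∧ dep (par v) + 1 = dep v) ∧
    ∀ u ∈ F, ∀ v ∈ F, H.Adj u v → (0 < dep u ∧ v = par u) ∨ (0 < dep v ∧ u = par v)

/-- CUT: boundedly many further vertices make all components tame. -/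
def CUTStmt : Prop := ∀ k : ℕ, ∃ N : ℕ, ∀ {W : Type} [Fintype W] (H : SimpleGraph W)
  (X : Finset W), X.card ≤ k → Lov.Acyc H (univ \ X) → NoK33 H →
  ∃ X', X ⊆ X' ∧ X'.card ≤ N ∧ Tame H X'

/-- SPINE: a tree with two apices has a spine. -/
def SPINEStmt : Prop := ∀ {W : Type} (H : SimpleGraph W) (T : Finset W) (a b : W), Conn H T →
  Lov.Acyc H T → a ∉ T → b ∉ T → a ≠ b → NoK33 H → ∃ m sp sd, Shape H T m sp sd ∧
    ∀ w ∈ T, w ∉ (range m).image sp → (H.Adj w a → sd w = false) ∧ (H.Adj w b → sd w = true)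

/-- PACK: tame components are packed into boundedly many pieces. -/
def PACKStmt : Prop := ∀ N : ℕ, ∃ N' : ℕ, ∀ {W : Type} [Fintype W] [Nonempty W]
  (H : SimpleGraph W) (X : Finset W), X.card ≤ N → Lov.Acyc H (univ \ X) → NoK33 H → Tame H X →
  ∃ nx nt xs Pc m sp sd pt φ ψ, nx ≤ N' ∧ nt ≤ N' ∧ Skel H nx nt xs Pc m sp sd pt ∧
    Marked H nx nt pt φ ψ ∧ ∀ x < nx, xs x ∈ φ x

/-- PIECES: the decomposition into boundedly many pieces, with a model of the markers. -/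
def PIECESStmt : Prop := ∀ k : ℕ, ∃ N : ℕ, ∀ {W : Type} [Fintype W] [Nonempty W]
  (H : SimpleGraph W) (X : Finset W), X.card ≤ k → Lov.Acyc H (univ \ X) → NoK33 H →
  ∃ nx nt xs Pc m sp sd pt φ ψ, nx ≤ N ∧ nt ≤ N ∧ Skel H nx nt xs Pc m sp sd pt ∧
    Marked H nx nt pt φ ψ ∧ ∀ x < nx, xs x ∈ φ x

/-- NFA: every marker becomes a single point. -/
def NFAStmt : Prop := ∀ (nx nt : ℕ) (pt : ℕ → Fin 4 → Option ℕ) (φ ψ : ℕ → Finset (ℤ × ℤ)),
  Marked gridZ nx nt pt φ ψ → PtZ nx nt (fun x y => Touch gridZ (φ x) (φ y)) pt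

/-- NFB: the markers are turned, and the model is moved into a finite grid. -/
def NFBStmt : Prop := ∀ (nx nt : ℕ) (adj : ℕ → ℕ → Prop) (pt : ℕ → Fin 4 → Option ℕ),
  (∀ t < nt, ∀ i x, pt t i = some x → x < nx) → PtZ nx nt adj pt → ∃ K, NFin K nx nt adj pt

/-- NF: the normal form of a marked model in the lattice. -/
def NFStmt : Prop := ∀ (nx nt : ℕ) (pt : ℕ → Fin 4 → Option ℕ) (φ ψ : ℕ → Finset (ℤ × ℤ)),
  Marked gridZ nx nt pt φ ψ → ∃ K, NFin K nx nt (fun x y => Touch gridZ (φ x) (φ y)) pt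

/-- FIN: the size of the grid depends only on the size of the skeleton. -/
def FINStmt : Prop := ∀ N : ℕ, ∃ K : ℕ, ∀ nx ≤ N, ∀ nt ≤ N, ∀ (adj : ℕ → ℕ → Prop)
  (pt : ℕ → Fin 4 → Option ℕ), (∀ t < nt, ∀ i x, pt t i = some x → x < nx) →
  (∃ K', NFin K' nx nt adj pt) → NFin K nx nt adj pt

/-- ASM: the model of `H` in a grid of cells. -/
def ASMStmt : Prop := ∀ {V W : Type} [Fintype W] {G : SimpleGraph V} {H : SimpleGraph W}
  {K n nx nt : ℕ} {xs : ℕ → W} {Pc : ℕ → Finset W} {m : ℕ → ℕ} {sp : ℕ → ℕ → W} {sd : W → Bool}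
  {pt : ℕ → Fin 4 → Option ℕ} {Eh Ev S : ℕ × ℕ → Finset V}, Skel H nx nt xs Pc m sp sd pt →
  NFin K nx nt (fun x y => H.Adj (xs x) (xs y)) pt → CellGrid G K n Eh Ev S →
  Fintype.card W ≤ n → Mdl H G

/-- The theorem. -/
def MainStmt : Prop := ∀ c : ℕ, ∃ g : ℕ, ∀ (W V : Type) [Fintype W] [Fintype V]
  (H : SimpleGraph W) (G : SimpleGraph V), IsPlane H → NoCyc H c →
  g * Fintype.card W ≤ treewidth G → IsMinor H G

end Pool.Agent.MP_7be75d_co.Gen

end MrgPart0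

-- ======== part 1: formerly Pool.Agent.MP_7be75d_co.Gen.Util
section MrgPart1

/-! Small lemmas shared by the modules of the project LTW. -/

namespace Pool.Agent.MP_7be75d_co.Gen

open Finset
open scoped Classical

variable {V W ι κ τ : Type} {G : SimpleGraph V}

theorem Free.mono {β : Finset V → Finset V} {K : ℕ} {S T : Finset V} (h : Free β K S)
    (hT : T ⊆ S) : Free β K T := fun Z hZ =>
  (card_le_card (filter_subset_filter _ hT)).trans (h Z hZ)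

theorem Free.le {β : Finset V → Finset V} {K K' : ℕ} {S : Finset V} (h : Free β K S)
    (hK : K' ≤ K) : Free β K' S := fun Z hZ => h Z (hZ.trans_le hK)

theorem Free.sub_empty {β : Finset V → Finset V} {K : ℕ} {S : Finset V} (h : Free β K S)
    (hK : 0 < K) : S ⊆ β ∅ := fun v hv => by
  have := h ∅ (by simpa using hK)
  simp only [card_empty, nonpos_iff_eq_zero, card_eq_zero, filter_eq_empty_iff] at this
  simpa using this hv

theorem free_image [Fintype ι] {β : Finset V → Finset V} {K : ℕ} {p : ι → V}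
    (hp : Function.Injective p) : Free β K (univ.image p) ↔
      ∀ Z : Finset V, Z.card < K → (univ.filter fun i => p i ∉ β Z).card ≤ Z.card := by
  refine forall_congr' fun Z => imp_congr_right fun _ => ?_
  rw [filter_image, card_image_of_injective _ hp]

theorem free_a [Fintype ι] {C : CD V ι} (h : IsCluster G C) :
    Free C.β (Fintype.card ι) (univ.image C.a) := (free_image h.a_inj).2 h.indep

theorem IsSC.free_b [Fintype ι] {C : CD V ι} (h : IsSC G C) :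
    Free C.β (Fintype.card ι) (univ.image C.b) := (free_image h.toIsCluster.b_inj).2 h.indepb

theorem card_filter_comp [Fintype ι] [Fintype κ] {e : κ → ι} (he : Function.Injective e)
    (P : ι → Prop) {_ : DecidablePred P} {_ : DecidablePred fun k => P (e k)} :
    (univ.filter fun k => P (e k)).card ≤ (univ.filter P).card :=
  card_le_card_of_injOn e (fun k hk => by simpa using hk) he.injOn

theorem cluster_res [Fintype ι] [Fintype κ] {C : CD V ι} (h : IsCluster G C) {e : κ → ι}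
    (he : Function.Injective e) : IsCluster G (res C e C.reg C.β) :=
  have hc := Fintype.card_le_of_injective e he
  ⟨h.hv.le hc, fun _ => h.sub _, fun _ => h.conn _, fun _ _ hn => h.disj _ _ (he.ne hn),
    fun _ => h.ma _, fun _ => h.mb _, fun Z hZ =>
      (card_filter_comp he fun i => C.a i ∉ C.β Z).trans (h.indep Z (hZ.trans_le hc))⟩

theorem IsSC.res [Fintype ι] [Fintype κ] {C : CD V ι} (h : IsSC G C) {e : κ → ι}
    (he : Function.Injective e) : IsSC G (res C e C.reg C.β) :=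
  ⟨cluster_res h.toIsCluster he, fun Z hZ => (card_filter_comp he fun i => C.b i ∉ C.β Z).trans
    (h.indepb Z (hZ.trans_le (Fintype.card_le_of_injective e he)))⟩

theorem IsSC.swp [Fintype ι] {C : CD V ι} (h : IsSC G C) : IsSC G (swp C) :=
  ⟨⟨h.hv, h.sub, h.conn, h.disj, h.mb, h.ma, h.indepb⟩, h.indep⟩

section spos

variable [Fintype ι] {C : ℕ → CD V ι} {l : ℕ}

theorem SPoS.pos (h : SPoS G l C) : PoS G l C :=
  ⟨fun j hj => (h.cl j hj).toIsCluster, h.disj, h.adj⟩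

theorem SPoS.shift (h : SPoS G l C) (k l' : ℕ) (hk : k + l' ≤ l) :
    SPoS G l' (fun j => C (k + j)) :=
  ⟨fun j hj => h.cl _ (by omega), fun i hi j hj hn => h.disj _ (by omega) _ (by omega) (by omega),
    fun j hj i => h.adj (k + j) (by omega) i⟩

/-- The clusters `k, k - 1, …, k + 1 - l'` read backwards. -/
theorem SPoS.rev (h : SPoS G l C) (k l' : ℕ) (hk : k < l) (hl : l' ≤ k + 1) :
    SPoS G l' (fun j => swp (C (k - j))) := by
  refine ⟨fun j hj => (h.cl _ (by omega)).swp,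
    fun i hi j hj hn => h.disj _ (by omega) _ (by omega) (by omega), fun j hj i => ?_⟩
  have := h.adj (k - (j + 1)) (by omega) i
  rw [show k - (j + 1) + 1 = k - j by omega] at this
  exact this.symm

/-- Fewer lanes, smaller regions, new havens. -/
theorem SPoS.res [Fintype κ] (h : SPoS G l C) {e : κ → ι} {U : ℕ → Finset V}
    {β : ℕ → Finset V → Finset V} (hU : ∀ j < l, U j ⊆ (C j).reg)
    (hc : ∀ j < l, IsSC G (res (C j) e (U j) (β j))) :
    SPoS G l (fun j => res (C j) e (U j) (β j)) :=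
  ⟨hc, fun i hi j hj hn => (h.disj i hi j hj hn).mono (hU i hi) (hU j hj),
    fun j hj i => h.adj j hj (e i)⟩

omit [Fintype ι] in
theorem mem_Reg {v : V} : v ∈ Reg C l ↔ ∃ j < l, v ∈ (C j).reg := by simp [Reg]

omit [Fintype ι] in
theorem reg_sub_Reg {j : ℕ} (hj : j < l) : (C j).reg ⊆ Reg C l := fun _ hv =>
  mem_Reg.2 ⟨j, hj, hv⟩

theorem SPoS.touch (h : SPoS G l C) {j : ℕ} (hj : j + 1 < l) (i : ι) :
    Touch G ((C j).lane i) ((C (j + 1)).lane i) :=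
  ⟨_, (h.cl j (by omega)).mb i, _, (h.cl _ hj).ma i, h.adj j hj i⟩

/-- The lane `i` through the clusters `lo, …, hi`. -/
theorem SPoS.conn_lane (h : SPoS G l C) (i : ι) {lo hi : ℕ} (h1 : lo ≤ hi) (h2 : hi < l) :
    Conn G ((Icc lo hi).biUnion fun j => (C j).lane i) := by
  induction hi, h1 using Nat.le_induction with
  | base => simpa using (h.cl lo h2).conn i
  | succ n hn ih =>
    have : Icc lo (n + 1) = insert (n + 1) (Icc lo n) := by
      ext x; simp only [mem_Icc, mem_insert]; omega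
    rw [this, biUnion_insert]
    exact ((h.cl _ h2).conn i).union_touch (ih (by omega)) ((h.touch h2 i).symm.mono subset_rfl
      (subset_biUnion_of_mem (fun j => (C j).lane i) (by simpa using hn)))

end spos

section win

variable {Big Big' S E : Finset V} {m m' : ℕ}

theorem Mk.symm {Z : Finset V} (h : Mk S E Z) : Mk E S Z := ⟨h.2, h.1⟩

theorem Mk.mono {Z Z' : Finset V} (h : Mk S E Z) (hZ : Z ⊆ Z') : Mk S E Z' :=
  ⟨h.1.imp fun _ h => ⟨h.1, hZ h.2⟩, h.2.imp fun _ h => ⟨h.1, hZ h.2⟩⟩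

theorem Thru.symm {L : ℕ → Finset V} (h : Thru G Big S E m L) : Thru G Big E S m L :=
  ⟨h.sub, h.conn, h.disj, fun j hj => (h.thr j hj).symm⟩

theorem Thru.mono {L : ℕ → Finset V} (h : Thru G Big S E m L) (hB : Big ⊆ Big') (hm : m' ≤ m) :
    Thru G Big' S E m' L :=
  ⟨fun j hj => (h.sub j (by omega)).trans hB, fun j hj => h.conn j (by omega),
    fun i hi j hj => h.disj i (by omega) j (by omega), fun j hj => h.thr j (by omega)⟩

theorem Win.symm (h : Win G Big S E m) : Win G Big E S m := by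
  rcases h with ⟨L, h1, h2⟩ | ⟨L, Y, h1, h2⟩
  · exact Or.inl ⟨L, h1.symm, h2⟩
  · exact Or.inr ⟨L, Y, h1.symm, h2⟩

theorem Win.mono (h : Win G Big S E m) (hB : Big ⊆ Big') (hm : m' ≤ m) : Win G Big' S E m' := by
  rcases h with ⟨L, h1, h2⟩ | ⟨L, Y, h1, h2, h3, h4⟩
  · exact Or.inl ⟨L, h1.mono hB hm, fun j hj => h2 j (by omega)⟩
  · exact Or.inr ⟨L, Y, h1.mono hB hm, h2.trans hB, h3, fun j hj => h4 j (by omega)⟩

theorem win_zero : Win G Big S E 0 :=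
  Or.inl ⟨fun _ => ∅, ⟨by simp, by simp, by simp, by simp⟩, by simp⟩

/-- An enumeration of `m` elements of a finite set. -/
theorem exists_enum [Nonempty ι] {A : Finset ι} {m : ℕ} (h : m ≤ A.card) :
    ∃ f : ℕ → ι, (∀ j < m, f j ∈ A) ∧ ∀ i < m, ∀ j < m, f i = f j → i = j := by
  refine ⟨fun j => if hj : j < A.card then (A.equivFin.symm ⟨j, hj⟩).1 else Classical.arbitrary ι,
    fun j hj => ?_, fun i hi j hj hij => ?_⟩
  · simp only [dif_pos (hj.trans_le h)]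
    exact (A.equivFin.symm _).2
  · simp only [dif_pos (hi.trans_le h), dif_pos (hj.trans_le h)] at hij
    simpa using A.equivFin.symm.injective (Subtype.ext hij)

/-- A star in the graph of touching sets is a win. -/
theorem star [Fintype κ] {T : κ → Finset V} (Bad : Finset κ) (h1 : ∀ k, T k ⊆ Big ∧ Conn G (T k))
    (h2 : ∀ k k', k ≠ k' → Disjoint (T k) (T k')) (h3 : ∀ k ∉ Bad, Mk S E (T k))
    (h : ¬ NoStar (tg G T) (m + Bad.card)) : WinS G Big S E m := by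
  simp only [NoStar, not_forall, not_lt] at h
  obtain ⟨Y, hY, hc⟩ := h
  obtain ⟨y0, -⟩ := hY.1
  have : Nonempty κ := ⟨y0⟩
  have hc' : m ≤ ((univ.filter fun v => v ∉ Y ∧ ∃ y ∈ Y, (tg G T).Adj y v) \ Bad).card := by
    have := le_card_sdiff Bad (univ.filter fun v => v ∉ Y ∧ ∃ y ∈ Y, (tg G T).Adj y v)
    omega
  obtain ⟨f, hf, hi⟩ := exists_enum hc'
  simp only [mem_sdiff, mem_filter, mem_univ, true_and] at hf
  refine ⟨fun j => T (f j), Y.biUnion T, ⟨fun j _ => (h1 _).1, fun j _ => (h1 _).2,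
    fun i hi' j hj hn => h2 _ _ fun e => hn (hi i hi' j hj e), fun j hj => h3 _ (hf j hj).2⟩,
    biUnion_subset.2 fun k _ => (h1 k).1,
    hY.biUnion (fun k _ => (h1 k).2) fun _ _ _ _ h => h.2, fun j hj => ⟨?_, ?_⟩⟩
  · exact (disjoint_biUnion_left _ _ _).2 fun k hk => h2 _ _ fun e => (hf j hj).1.1 (e ▸ hk)
  · obtain ⟨y, hy, ha⟩ := (hf j hj).1.2
    exact ha.2.mono (subset_biUnion_of_mem T hy) subset_rfl

end win

theorem NoStar.anti [Fintype ι] {Γ Γ' : SimpleGraph ι} {m : ℕ} (h : NoStar Γ m) (hΓ : Γ' ≤ Γ) :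
    NoStar Γ' m := fun Y hY =>
  (card_le_card fun v hv => by
    simp only [mem_filter, mem_univ, true_and] at hv ⊢
    exact ⟨hv.1, hv.2.imp fun y hy => ⟨hy.1, hΓ hy.2⟩⟩).trans_lt
    (h Y (hY.mono' fun _ _ h _ _ => hΓ h))

theorem tg_mono {Q Q' : ι → Finset V} (h : ∀ i, Q i ⊆ Q' i) : tg G Q ≤ tg G Q' :=
  fun _ _ hij => ⟨hij.1, hij.2.mono (h _) (h _)⟩

section cell

variable {n : ℕ} {S A U U' B : Finset V} {pa pu pv pb : V}

/-- Two wires pass a cell side by side. -/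
theorem CellV.pass (h : CellV G n S pa pu pv pb) (hn : 2 ≤ n) : ∃ X Y, X ⊆ S ∧ Y ⊆ S ∧
    Conn G X ∧ Conn G Y ∧ Disjoint X Y ∧ pa ∈ X ∧ pv ∈ X ∧ pu ∈ Y ∧ pb ∈ Y := by
  obtain ⟨ψ, A', B', f, h1, h2, h3, h4⟩ := h ℕ ⊥ (range 2) 2 (fun i => i) (fun _ => false)
    ⟨by omega, by simp, by simp, by simp, by simp,
      ⟨by simp, fun T h1 h2 h3 =>
        absurd (h2.antisymm (by simpa using h1)) (by simpa using h3)⟩⟩
    (by simpa using hn)
  have m0 : 0 ∈ range 2 := by simp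
  have m1 : 1 ∈ range 2 := by simp
  refine ⟨A' ∪ ψ 1, ψ 0 ∪ B', union_subset f.subA (f.sub 1 m1), union_subset (f.sub 0 m0) f.subB,
    f.connA.union_touch (f.conn 1 m1) (f.tA 1 m1 (Or.inl (by simp))).symm,
    (f.conn 0 m0).union_touch f.connB (f.tB 0 m0 (Or.inl (by simp))), ?_,
    mem_union_left _ h1, mem_union_right _ h3, mem_union_left _ h2, mem_union_right _ h4⟩
  simp only [disjoint_union_left, disjoint_union_right]
  exact ⟨⟨(f.dA 0 m0).symm, f.disj 1 m1 0 m0 (by omega)⟩, f.dAB, f.dB 1 m1⟩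

/-- A connected set that contains the four ports of a cell. -/
theorem CellV.blob (h : CellV G n S pa pu pv pb) (hn : 1 ≤ n) :
    ∃ X ⊆ S, Conn G X ∧ pa ∈ X ∧ pu ∈ X ∧ pv ∈ X ∧ pb ∈ X := by
  obtain ⟨ψ, A', B', f, h1, h2, h3, h4⟩ := h ℕ ⊥ (range 1) 1 (fun i => i) (fun _ => false)
    ⟨by omega, by simp, by simp, by simp, by simp,
      ⟨by simp, fun T h1 h2 h3 =>
        absurd (h2.antisymm (by simpa using h1)) (by simpa using h3)⟩⟩
    (by simpa using hn)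
  have m0 : 0 ∈ range 1 := by simp
  refine ⟨A' ∪ ψ 0 ∪ B', union_subset (union_subset f.subA (f.sub 0 m0)) f.subB,
    (f.connA.union_touch (f.conn 0 m0) (f.tA 0 m0 (Or.inl (by simp))).symm).union_touch f.connB
      ((f.tB 0 m0 (Or.inl (by simp))).mono subset_union_right subset_rfl), ?_, ?_, ?_, ?_⟩ <;>
    simp [h1, h2, h4, show pv ∈ ψ 0 from h3]

theorem touch_of_mem {X Y : Finset V} {p : V} (h : Touch G {p} Y) (hp : p ∈ X) : Touch G X Y :=
  h.mono (by simpa using hp) subset_rfl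

theorem Cell.pass (h : Cell G n S A U U' B) (hn : 2 ≤ n) : ∃ X Y, X ⊆ S ∧ Y ⊆ S ∧ Conn G X ∧
    Conn G Y ∧ Disjoint X Y ∧ Touch G X A ∧ Touch G X U' ∧ Touch G Y U ∧ Touch G Y B := by
  obtain ⟨pa, pu, pv, pb, h, h1, h2, h3, h4⟩ := h
  obtain ⟨X, Y, a1, a2, a3, a4, a5, a6, a7, a8, a9⟩ := h.pass hn
  exact ⟨X, Y, a1, a2, a3, a4, a5, touch_of_mem h1 a6, touch_of_mem h3 a7, touch_of_mem h2 a8,
    touch_of_mem h4 a9⟩

theorem Cell.blob (h : Cell G n S A U U' B) (hn : 1 ≤ n) :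
    ∃ X ⊆ S, Conn G X ∧ Touch G X A ∧ Touch G X U ∧ Touch G X U' ∧ Touch G X B := by
  obtain ⟨pa, pu, pv, pb, h, h1, h2, h3, h4⟩ := h
  obtain ⟨X, a1, a2, a3, a4, a5, a6⟩ := h.blob hn
  exact ⟨X, a1, a2, touch_of_mem h1 a3, touch_of_mem h2 a4, touch_of_mem h3 a5, touch_of_mem h4 a6⟩

theorem Cell.mono {A' X X' B' : Finset V} (h : Cell G n S A U U' B) (h1 : A ⊆ A') (h2 : U ⊆ X)
    (h3 : U' ⊆ X') (h4 : B ⊆ B') : Cell G n S A' X X' B' := by
  obtain ⟨pa, pu, pv, pb, h, a1, a2, a3, a4⟩ := h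
  exact ⟨pa, pu, pv, pb, h, a1.mono subset_rfl h1, a2.mono subset_rfl h2, a3.mono subset_rfl h3,
    a4.mono subset_rfl h4⟩

end cell

section model

variable {H : SimpleGraph W} {θ : W → Finset V}

theorem conn_map (h1 : ∀ w, Conn G (θ w)) (h3 : ∀ w w', H.Adj w w' → Touch G (θ w) (θ w'))
    {S : Finset W} (h : Conn H S) : Conn G (S.biUnion θ) :=
  h.biUnion (fun w _ => h1 w) fun _ _ _ _ h => h3 _ _ h

theorem disj_map (h2 : ∀ w w', w ≠ w' → Disjoint (θ w) (θ w')) {S T : Finset W}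
    (h : Disjoint S T) : Disjoint (S.biUnion θ) (T.biUnion θ) :=
  (disjoint_biUnion_left _ _ _).2 fun w hw => (disjoint_biUnion_right _ _ _).2 fun w' hw' =>
    h2 _ _ fun e => disjoint_left.1 h hw (e ▸ hw')

theorem touch_map (h3 : ∀ w w', H.Adj w w' → Touch G (θ w) (θ w')) {S T : Finset W}
    (h : Touch H S T) : Touch G (S.biUnion θ) (T.biUnion θ) := by
  obtain ⟨x, hx, y, hy, h⟩ := h
  exact (h3 x y h).mono (subset_biUnion_of_mem θ hx) (subset_biUnion_of_mem θ hy)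

theorem NoK33.of_mdl (h : NoK33 G) (hm : Mdl H G) : NoK33 H := by
  obtain ⟨θ, h1, h2, h3⟩ := hm
  intro A B a1 a2 a3 a4 a5 a6
  exact h (fun i => (A i).biUnion θ) (fun i => (B i).biUnion θ) (fun i => conn_map h1 h3 (a1 i))
    (fun i => conn_map h1 h3 (a2 i)) (fun i j hn => disj_map h2 (a3 i j hn))
    (fun i j hn => disj_map h2 (a4 i j hn)) (fun i j => disj_map h2 (a5 i j))
    fun i j => touch_map h3 (a6 i j)

/-- The six sets of a forbidden model, listed one by one. -/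
theorem NoK33.six (h : NoK33 G) {A0 A1 A2 B0 B1 B2 : Finset V} (cA : Conn G A0 ∧ Conn G A1 ∧
    Conn G A2) (cB : Conn G B0 ∧ Conn G B1 ∧ Conn G B2)
    (dA : Disjoint A0 A1 ∧ Disjoint A0 A2 ∧ Disjoint A1 A2)
    (dB : Disjoint B0 B1 ∧ Disjoint B0 B2 ∧ Disjoint B1 B2)
    (h0 : ∀ B, B = B0 ∨ B = B1 ∨ B = B2 → (Disjoint A0 B ∧ Touch G A0 B) ∧
      (Disjoint A1 B ∧ Touch G A1 B) ∧ Disjoint A2 B ∧ Touch G A2 B) : False := by
  have b0 := h0 B0 (by simp)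
  have b1 := h0 B1 (by simp)
  have b2 := h0 B2 (by simp)
  refine h ![A0, A1, A2] ![B0, B1, B2] ?_ ?_ ?_ ?_ ?_ ?_
  · intro i; fin_cases i <;> simp [cA]
  · intro i; fin_cases i <;> simp [cB]
  · intro i j hn
    fin_cases i <;> fin_cases j <;> simp [dA, dA.1.symm, dA.2.1.symm, dA.2.2.symm] at hn ⊢
  · intro i j hn
    fin_cases i <;> fin_cases j <;> simp [dB, dB.1.symm, dB.2.1.symm, dB.2.2.symm] at hn ⊢
  · intro i j; fin_cases i <;> fin_cases j <;> simp [b0, b1, b2]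
  · intro i j; fin_cases i <;> fin_cases j <;> simp [b0, b1, b2]

theorem Marked.map {nx nt : ℕ} {pt : ℕ → Fin 4 → Option ℕ} {φ ψ : ℕ → Finset W}
    (h : Marked H nx nt pt φ ψ) (h1 : ∀ w, Conn G (θ w))
    (h2 : ∀ w w', w ≠ w' → Disjoint (θ w) (θ w'))
    (h3 : ∀ w w', H.Adj w w' → Touch G (θ w) (θ w')) :
    Marked G nx nt pt (fun x => (φ x).biUnion θ) fun t => (ψ t).biUnion θ :=
  ⟨fun x hx => conn_map h1 h3 (h.cφ x hx), fun t ht => conn_map h1 h3 (h.cψ t ht),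
    fun x hx y hy hn => disj_map h2 (h.dφ x hx y hy hn),
    fun x hx y hy hn => disj_map h2 (h.dψ x hx y hy hn),
    fun x hx y hy => disj_map h2 (h.dφψ x hx y hy), h.lt, h.inj, h.both,
    fun t ht i x hx => touch_map h3 (h.tch t ht i x hx), fun t ht u v a b e0 e1 e2 e3 =>
      have := h.rigid t ht u v a b e0 e1 e2 e3
      ⟨touch_map h3 this.1, touch_map h3 this.2.1, touch_map h3 this.2.2.1,
        touch_map h3 this.2.2.2⟩⟩

theorem Mdl.isMinor (h : Mdl H G) : IsMinor H G := by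
  obtain ⟨φ, h2, h3, h4⟩ := h
  exact ⟨fun w => φ w, fun w => (h2 w).connected, fun w w' hn => disjoint_coe.2 (h3 w w' hn), h4⟩

end model

end Pool.Agent.MP_7be75d_co.Gen

end MrgPart1

-- ======== part 2: formerly Pool.Agent.MP_7be75d_co.Gen.Comb1
section MrgPart2

/-! Networks whose nodes are collars. -/

namespace Pool.Agent.MP_7be75d_co.Gen.Comb

open Finset
open scoped Classical

/-- The position of a column in the cyclic order of a collar. -/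
def ps (y : ℕ) : ℕ := if y < 4 then 3 - y else y

theorem ps_inj {y y' : ℕ} (h : ps y = ps y') : y = y' := by
  unfold ps at h; split_ifs at h <;> omega

theorem gridN_adj {p q : ℕ × ℕ} (h : gridN.Adj p q) : (q.1 = p.1 + 1 ∧ q.2 = p.2) ∨
    (q.1 = p.1 ∧ q.2 = p.2 + 1) ∨ (p.1 = q.1 + 1 ∧ p.2 = q.2) ∨ (p.1 = q.1 ∧ p.2 = q.2 + 1) := by
  simp only [gridN, SimpleGraph.fromRel_adj] at h
  tauto

theorem hflip {ℓ : Type} (e f : ℓ × Bool) (h1 : f ≠ e) (h2 : f ≠ (e.1, !e.2)) : e.1 ≠ f.1 := by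
  obtain ⟨a, i⟩ := e
  obtain ⟨b, j⟩ := f
  rintro (rfl : a = b)
  cases i <;> cases j <;> simp at h1 h2

theorem netc (hN : NETStmt) (hG : GEOStmt) {V ℓ ν : Type} {G : SimpleGraph V} (Big : Finset V)
    (Lb : Finset ℓ) (node : ℓ × Bool → Option ν) (cl : ℓ × Bool → ℕ)
    (nd : ν → ℕ → ℕ → Finset V) (Y : ν → ℕ) (ok : ν → Prop) (S : ℓ → Finset V)
    (h : ℓ × Bool → V) (ty : ℓ × Bool → Bool) (Hr T : Bool → Finset V) (P : Finset V → Prop)
    (m : ℕ)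
    (hinj : ∀ e : ℓ × Bool, e.1 ∈ Lb → ∀ f : ℓ × Bool, f.1 ∈ Lb → node e ≠ none →
      node e = node f → cl e = cl f → e = f)
    (heven : ∀ v, Even ((Lb ×ˢ (univ : Finset Bool)).filter fun e => node e = some v).card)
    (hreach : ∀ Q : ν → Prop, (∀ v, ∀ e : ℓ × Bool, e.1 ∈ Lb → node e = some v →
      (∀ v', node (e.1, !e.2) = some v' → Q v') → Q v) → ∀ v, ok v → Q v)
    (hS : ∀ l ∈ Lb, S l ⊆ Big ∧ Conn G (S l) ∧ ∀ j, Disjoint (S l) (Hr j))
    (hSd : ∀ l ∈ Lb, ∀ l' ∈ Lb, l ≠ l' → Disjoint (S l) (S l'))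
    (hH : ∀ j, Hr j ⊆ Big ∧ T j ⊆ Hr j ∧ AllLinked G (Hr j) (T j))
    (hHd : Disjoint (Hr false) (Hr true))
    (hfree : ∀ e : ℓ × Bool, e.1 ∈ Lb → node e = none → h e ∈ T (ty e) ∧ Touch G (S e.1) {h e})
    (hfi : ∀ e : ℓ × Bool, e.1 ∈ Lb → ∀ f : ℓ × Bool, f.1 ∈ Lb → node e = none → node f = none →
      h e = h f → e = f)
    (hnd : ∀ v, ok v → ∀ i < 8, ∀ y < Y v, nd v i y ⊆ Big ∧ Conn G (nd v i y) ∧
      (∀ l ∈ Lb, Disjoint (nd v i y) (S l)) ∧ ∀ j, Disjoint (nd v i y) (Hr j))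
    (hdd : ∀ v, ok v → ∀ i < 8, ∀ y < Y v, ∀ v', ok v' → ∀ i' < 8, ∀ y' < Y v',
      v ≠ v' ∨ (i, y) ≠ (i', y') → Disjoint (nd v i y) (nd v' i' y'))
    (hh : ∀ v, ok v → ∀ i < 8, ∀ y, y + 1 < Y v → Touch G (nd v i y) (nd v i (y + 1)))
    (hv : ∀ v, ok v → ∀ i, i + 1 < 8 → ∀ y < Y v, Touch G (nd v i y) (nd v (i + 1) y))
    (ht : ∀ e : ℓ × Bool, e.1 ∈ Lb → ∀ v, node e = some v → ok v ∧ cl e < Y v ∧
      Touch G (S e.1) (nd v (if cl e < 4 then 7 else 0) (cl e)))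
    (hm : 9 * m ≤ (Lb.filter fun l => P (S l)).card) : ∃ l, SeqOK G Big l ∧ m ≤ cnt P l := by
  set E := Lb ×ˢ (univ : Finset Bool) with hE
  have mE : ∀ e : ℓ × Bool, e ∈ E ↔ e.1 ∈ Lb := fun e => by simp [hE]
  refine hN Big E (fun e => (e.1, !e.2)) node (fun e => ps (cl e)) (fun e => S e.1) h ty Hr T P m
    ⟨fun e he => (mE (e.1, !e.2)).2 ((mE e).1 he), by simp, fun e _ => by cases e; simp,
      fun e he f hf h1 h2 h3 => hinj e ((mE _).1 he) f ((mE _).1 hf) h1 h2 (ps_inj h3), heven, ?_⟩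
    (fun e he => ⟨(hS _ ((mE _).1 he)).1, (hS _ ((mE _).1 he)).2.1, rfl, (hS _ ((mE _).1 he)).2.2⟩)
    (fun e he f hf h1 h2 => hSd _ ((mE _).1 he) _ ((mE _).1 hf) (hflip e f h1 h2)) hH hHd
    (fun e he => hfree e ((mE _).1 he)) (fun e he f hf => hfi e ((mE _).1 he) f ((mE _).1 hf))
    ?_ ?_
  · have key := hreach (fun v => ∀ e ∈ E, node e = some v → ∃ s ∈ E, node s = none ∧
        Relation.ReflTransGen (fun a b : ℓ × Bool => b = (a.1, !a.2) ∨
          (b ∈ E ∧ node a ≠ none ∧ node b = node a)) e s) (by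
      intro v f f1 f2 ih e he hev
      have s1 : Relation.ReflTransGen (fun a b : ℓ × Bool => b = (a.1, !a.2) ∨
          (b ∈ E ∧ node a ≠ none ∧ node b = node a)) e (f.1, !f.2) := by
        refine Relation.ReflTransGen.tail (b := f) (Relation.ReflTransGen.single ?_) (Or.inl rfl)
        exact Or.inr ⟨(mE _).2 f1, by simp [hev], by rw [f2, hev]⟩
      cases hn : node (f.1, !f.2) with
      | none => exact ⟨_, (mE (f.1, !f.2)).2 f1, hn, s1⟩
      | some v' =>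
        obtain ⟨s, a1, a2, a3⟩ := ih v' hn _ ((mE (f.1, !f.2)).2 f1) hn
        exact ⟨s, a1, a2, s1.trans a3⟩)
    intro e he
    cases hn : node e with
    | none => exact ⟨e, he, hn, Relation.ReflTransGen.refl⟩
    | some v => exact key v (ht e ((mE _).1 he) v hn).1 e he hn
  · intro t δ hp
    have hI : ∀ v, ∃ I : ℓ × Bool → Finset (ℕ × ℕ),
        (∀ e ∈ E.filter fun e => node e = some v, I (t e) = I e ∧ Conn gridN (I e) ∧
          (∀ p ∈ I e, p.1 < 8 ∧ p.2 < Y v) ∧ ((if cl e < 4 then 7 else 0), cl e) ∈ I e) ∧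
        ∀ e ∈ E.filter fun e => node e = some v, ∀ f ∈ E.filter fun e => node e = some v,
          f ≠ e → f ≠ t e → Disjoint (I e) (I f) := by
      intro v
      have hne : ∀ e ∈ E.filter fun e => node e = some v, e ∈ E ∧ node e ≠ none := fun e he =>
        ⟨(mem_filter.1 he).1, by simp [(mem_filter.1 he).2]⟩
      refine hG _ cl (Y v) t δ (fun e he => (ht e ((mE _).1 (hne e he).1) v (mem_filter.1 he).2).2.1)
        (fun e he f hf h3 => hinj e ((mE _).1 (hne e he).1) f ((mE _).1 (hne f hf).1) (hne e he).2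
          ((mem_filter.1 he).2.trans (mem_filter.1 hf).2.symm) h3)
        ⟨fun e he _ => mem_filter.2 ⟨hp.mem e (hne e he).1 (hne e he).2,
            (hp.nd e (hne e he).1 (hne e he).2).trans (mem_filter.1 he).2⟩,
          fun e he _ => hp.inv e (hne e he).1 (hne e he).2,
          fun e he _ => hp.ne e (hne e he).1 (hne e he).2, fun _ _ _ => rfl,
          fun e he _ => hp.dep e (hne e he).1 (hne e he).2,
          fun e he f hf _ _ => hp.nest e (hne e he).1 f (hne f hf).1 (hne e he).2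
            ((mem_filter.1 hf).2.trans (mem_filter.1 he).2.symm)⟩
    choose I hI1 hI2 using hI
    refine ⟨fun e => (node e).elim ∅ fun v => (I v e).biUnion fun p => nd v p.1 p.2, ?_, ?_⟩
    · intro e he hn
      obtain ⟨v, hev⟩ := Option.ne_none_iff_exists'.1 hn
      obtain ⟨a1, a2, a3, a4⟩ := hI1 v e (mem_filter.2 ⟨he, hev⟩)
      obtain ⟨b1, b2, b3⟩ := ht e ((mE _).1 he) v hev
      have hc := fun p hp => hnd v b1 _ (a3 p hp).1 _ (a3 p hp).2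
      simp only [hp.nd e he hn, hev, Option.elim_some, a1, true_and]
      refine ⟨biUnion_subset.2 fun p hp => (hc p hp).1, a2.biUnion (fun p hp => (hc p hp).2.1) ?_,
        b3.symm.mono (subset_biUnion_of_mem (fun p : ℕ × ℕ => nd v p.1 p.2) a4) subset_rfl,
        fun f hf => (disjoint_biUnion_left _ _ _).2 fun p hp => (hc p hp).2.2.1 _ ((mE _).1 hf),
        fun j => (disjoint_biUnion_left _ _ _).2 fun p hp => (hc p hp).2.2.2 j⟩
      rintro ⟨i, y⟩ hp ⟨i', y'⟩ hq hpq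
      have c1 := a3 _ hp
      have c2 := a3 _ hq
      rcases gridN_adj hpq with ⟨d1, d2⟩ | ⟨d1, d2⟩ | ⟨d1, d2⟩ | ⟨d1, d2⟩ <;>
        simp only at d1 d2 c1 c2 <;> subst d1 d2
      · exact hv v b1 i c2.1 _ c2.2
      · exact hh v b1 _ c2.1 _ c2.2
      · exact (hv v b1 _ c1.1 _ c1.2).symm
      · exact (hh v b1 _ c1.1 _ c1.2).symm
    · intro e he f hf hn hn' h1 h2
      obtain ⟨v, hev⟩ := Option.ne_none_iff_exists'.1 hn
      obtain ⟨v', hfv⟩ := Option.ne_none_iff_exists'.1 hn'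
      obtain ⟨-, -, a3, -⟩ := hI1 v e (mem_filter.2 ⟨he, hev⟩)
      obtain ⟨-, -, b3, -⟩ := hI1 v' f (mem_filter.2 ⟨hf, hfv⟩)
      simp only [hev, hfv, Option.elim_some]
      refine (disjoint_biUnion_left _ _ _).2 fun p hp => (disjoint_biUnion_right _ _ _).2
        fun q hq => hdd v (ht e ((mE _).1 he) v hev).1 _ (a3 p hp).1 _ (a3 p hp).2 v'
          (ht f ((mE _).1 hf) v' hfv).1 _ (b3 q hq).1 _ (b3 q hq).2 ?_
      by_cases hvv : v = v'
      · subst hvv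
        refine Or.inr fun hpq => disjoint_left.1 (hI2 v e (mem_filter.2 ⟨he, hev⟩) f
          (mem_filter.2 ⟨hf, hfv⟩) h1 h2) hp ?_
        rwa [show p = q from hpq]
      · exact Or.inl hvv
  · have : (E.filter fun e => P (S e.1)) = (Lb.filter fun l => P (S l)) ×ˢ univ := by
      ext e; simp [hE]
    rw [this, card_product]
    simp only [card_univ, Fintype.card_bool]
    omega

end Pool.Agent.MP_7be75d_co.Gen.Comb

end MrgPart2

-- marker of a merged file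
example : 731051 + 442544 = 731051 + 442544 := rfl
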