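import Mathlib.Data.Finset.Functor
import Pool.Agent.MP_7be75d_co.Gen.Comb1

-- ======== part 0: formerly Pool.Agent.MP_7be75d_co.Gen.NFA
section MrgPart0

/-! Module NFA of the project LTW: after a refinement of the lattice every marker is a point. -/

namespace Pool.Agent.MP_7be75d_co.Gen

open Finset

namespace NFA

/-- Points of the lattice. -/
abbrev Pt : Type := ℤ × ℤ

/-- The eight cells around the centre of a block, counterclockwise. -/
def ring (k : ℕ) : Pt :=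
  match k % 8 with
  | 0 => (1, 0) | 1 => (1, 1) | 2 => (0, 1) | 3 => (-1, 1) | 4 => (-1, 0) | 5 => (-1, -1)
  | 6 => (0, -1) | _ => (1, -1)

/-- The cells strictly between the directions `i` and `o`, counterclockwise. -/
def arc (i o : Fin 4) : List Pt :=
  (List.range (2 * (o - i).val - 1)).map fun m => ring (2 * i.val + 1 + m)

/-- The two arcs. -/
def arcs (s : Bool) (i o : Fin 4) : List Pt := if s then arc i o else arc o i

/-- The corner next to the direction `i` on the side `s`. -/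
def turn (s : Bool) (i : Fin 4) : Fin 4 := if s then i + 1 else i + 3

/-- Offsets inside a block. -/
def Bx (a : Pt) : Prop := -1 ≤ a.1 ∧ a.1 ≤ 1 ∧ -1 ≤ a.2 ∧ a.2 ≤ 1

instance (a : Pt) : Decidable (Bx a) := by unfold Bx; infer_instance

/-- One step. -/
def Stp (a b : Pt) : Prop := ∃ m : Fin 4, b = a + dirv m

instance (a b : Pt) : Decidable (Stp a b) := by unfold Stp; infer_instance

theorem arcs_chain : ∀ s i o, i ≠ o → arcs s i o ≠ [] ∧ (arcs s i o).IsChain Stp := by decide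

theorem arcs_mem : ∀ s i o, i ≠ o → ∀ a ∈ arcs s i o,
    Bx a ∧ a ∉ arcs (!s) i o ∧ a ≠ dirv i ∧ a ≠ 0 ∧ a ≠ dirv o := by decide

theorem arcs_corner : ∀ s i o, i ≠ o → dirv i + dirv (turn s i) ∈ arcs s i o ∧
    dirv o + dirv (turn s (o + 2)) ∈ arcs s i o := by decide

theorem arcs_mid : ∀ i o m, i ≠ o → m ≠ i → m ≠ o → ∃ s, dirv m ∈ arcs s i o := by decide

theorem dirv_two : ∀ m : Fin 4, dirv (m + 2) = -dirv m := by decide

theorem dirv_inj : ∀ m m' : Fin 4, dirv m = dirv m' → m = m' := by decide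

theorem dirv_bx : ∀ m : Fin 4, Bx (dirv m) ∧ Bx (-dirv m) ∧ dirv m ≠ 0 := by decide

theorem bx_zero : Bx 0 := by decide

theorem ctr_chain : ∀ i o : Fin 4, [0, dirv o].IsChain Stp ∧ [dirv i, 0, dirv o].IsChain Stp := by
  decide

theorem adj_iff {p q : Pt} : gridZ.Adj p q ↔ Stp p q := by
  obtain ⟨a, b⟩ := p
  obtain ⟨c, d⟩ := q
  simp only [gridZ, SimpleGraph.fromRel_adj, Stp, Fin.exists_fin_succ, dirv, ne_eq, Prod.mk.injEq,
    Prod.mk_add_mk, Matrix.cons_val_zero, Matrix.cons_val_succ, IsEmpty.exists_iff, or_false]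
  omega

theorem adj_dirv (p : Pt) (m : Fin 4) : gridZ.Adj p (p + dirv m) := adj_iff.2 ⟨m, rfl⟩

/-- The cell with offset `a` in the block of `p`. -/
def cell (p a : Pt) : Pt := (3 : ℤ) • p + a

theorem cell_add (p a b : Pt) : cell p a + b = cell p (a + b) := add_assoc _ _ _

theorem cell_next (p a : Pt) (m : Fin 4) :
    cell p (dirv m + a) + dirv m = cell (p + dirv m) (-dirv m + a) := by
  simp only [cell]; module

theorem cell_inj {p q a b : Pt} (ha : Bx a) (hb : Bx b) (h : cell p a = cell q b) :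
    p = q ∧ a = b := by
  obtain ⟨p1, p2⟩ := p
  obtain ⟨q1, q2⟩ := q
  obtain ⟨a1, a2⟩ := a
  obtain ⟨b1, b2⟩ := b
  simp only [cell, Bx, Prod.smul_mk, smul_eq_mul, Prod.mk_add_mk, Prod.mk.injEq] at *
  omega

open scoped Classical

noncomputable local instance (priority := high) decPt : DecidableEq Pt :=
  fun a b => Classical.propDecidable (a = b)

theorem conn_list {V : Type} {G : SimpleGraph V} :
    ∀ l : List V, l ≠ [] → l.IsChain G.Adj → Conn G l.toFinset
  | [], h, _ => absurd rfl h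
  | [a], _, _ => by simpa using Conn.singleton a
  | a :: b :: l, _, h => by
    rw [List.isChain_cons_cons] at h
    rw [List.toFinset_cons]
    exact (conn_list (b :: l) (by simp) h.2).insert (by simp) h.1.symm

theorem conn_chain {V : Type} {G : SimpleGraph V} {f : ℕ → Finset V} {L : ℕ}
    (h1 : ∀ j ≤ L, Conn G (f j)) (h2 : ∀ j < L, Touch G (f j) (f (j + 1))) :
    Conn G ((range (L + 1)).biUnion f) := by
  induction L with
  | zero => simpa using h1 0 le_rfl
  | succ L ih =>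
    rw [range_add_one, biUnion_insert]
    exact (h1 _ le_rfl).union_touch (ih (fun j hj => h1 j (by omega)) fun j hj => h2 j (by omega))
      ((h2 L (by omega)).symm.mono subset_rfl (subset_biUnion_of_mem f (by simp)))

theorem conn_union_biUnion {V ι : Type} {G : SimpleGraph V} {S : Finset V} (hS : Conn G S)
    (I : Finset ι) {f : ι → Finset V} (h : ∀ i ∈ I, Conn G (S ∪ f i)) :
    Conn G (S ∪ I.biUnion f) := by
  obtain ⟨a, ha⟩ := hS.1
  refine Conn.of_center (mem_union_left _ ha) fun b hb => ?_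
  rcases mem_union.1 hb with hb | hb
  · exact hS.r ha hb subset_union_left
  · obtain ⟨i, hi, hb⟩ := mem_biUnion.1 hb
    exact (h i hi).r (mem_union_left _ ha) (mem_union_right _ hb)
      (union_subset_union subset_rfl (subset_biUnion_of_mem f hi))

/-- The block of `p`. -/
noncomputable def blk (p : Pt) : Finset Pt := (Icc (-1 : ℤ) 1 ×ˢ Icc (-1 : ℤ) 1).image (cell p)

theorem mem_blk {p c : Pt} : c ∈ blk p ↔ ∃ a, Bx a ∧ c = cell p a := by
  simp only [blk, mem_image, mem_product, mem_Icc, Bx, and_assoc]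
  exact exists_congr fun a => by simp only [eq_comm]

theorem cell_mem (p : Pt) {a : Pt} (h : Bx a) : cell p a ∈ blk p := mem_blk.2 ⟨a, h, rfl⟩

theorem cell_adj (p : Pt) {a b : Pt} (h : Stp a b) : gridZ.Adj (cell p a) (cell p b) := by
  obtain ⟨m, rfl⟩ := h
  rw [← cell_add]
  exact adj_dirv _ m

theorem conn_blk (p : Pt) : Conn gridZ (blk p) := by
  refine Conn.of_center (cell_mem p bx_zero) fun c hc => ?_
  obtain ⟨⟨a1, a2⟩, ha, rfl⟩ := mem_blk.1 hc
  have h1 : Bx (a1, 0) := ⟨ha.1, ha.2.1, by norm_num, by norm_num⟩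
  have e1 : R gridZ (blk p) (cell p 0) (cell p (a1, 0)) := by
    by_cases h0 : a1 = 0
    · subst h0; exact R.refl
    · refine R.single (cell_adj p ?_) (cell_mem p bx_zero) (cell_mem p h1)
      simp only [Bx] at ha
      obtain rfl | rfl : a1 = -1 ∨ a1 = 1 := by omega
      · decide
      · decide
  by_cases h0 : a2 = 0
  · subst h0; exact e1
  · refine e1.tail (cell_adj p ?_) (cell_mem p h1) (cell_mem p ha)
    simp only [Bx] at ha
    obtain rfl | rfl : a2 = -1 ∨ a2 = 1 := by omega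
    · exact ⟨3, by simp [dirv]⟩
    · exact ⟨1, by simp [dirv]⟩

theorem disj_blk (p q : Pt) (h : p ≠ q) : Disjoint (blk p) (blk q) :=
  disjoint_left.2 fun c h1 h2 => by
    obtain ⟨a, ha, rfl⟩ := mem_blk.1 h1
    obtain ⟨b, hb, e⟩ := mem_blk.1 h2
    exact h (cell_inj ha hb e).1

theorem next_mem (p : Pt) (m : Fin 4) : cell p (dirv m) + dirv m ∈ blk (p + dirv m) := by
  have := cell_next p 0 m
  rw [add_zero, add_zero] at this
  rw [this]
  exact cell_mem _ (dirv_bx m).2.1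

theorem touch_blk (p q : Pt) (h : gridZ.Adj p q) : Touch gridZ (blk p) (blk q) := by
  obtain ⟨m, rfl⟩ := adj_iff.1 h
  exact ⟨_, cell_mem p (dirv_bx m).1, _, next_mem p m, adj_dirv _ m⟩

/-- The refinement of a set. -/
noncomputable def blks (S : Finset Pt) : Finset Pt := S.biUnion blk

theorem conn_blks {S : Finset Pt} (h : Conn gridZ S) : Conn gridZ (blks S) :=
  conn_map conn_blk touch_blk h

theorem disj_blks {S T : Finset Pt} (h : Disjoint S T) : Disjoint (blks S) (blks T) :=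
  disj_map disj_blk h

theorem touch_blks {S T : Finset Pt} (h : Touch gridZ S T) : Touch gridZ (blks S) (blks T) :=
  touch_map touch_blk h

theorem blk_sub {S : Finset Pt} {p : Pt} (h : p ∈ S) : blk p ⊆ blks S :=
  subset_biUnion_of_mem blk h

theorem blks_mono {S T : Finset Pt} (h : S ⊆ T) : blks S ⊆ blks T :=
  biUnion_subset_biUnion_of_subset_left blk h

theorem blks_union (S T : Finset Pt) : blks (S ∪ T) = blks S ∪ blks T := union_biUnion

/-- A lane along a path of blocks. -/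
noncomputable def lane (L : ℕ) (f : ℕ → Pt) (g : ℕ → List Pt) : Finset Pt :=
  (range (L + 1)).biUnion fun j => ((g j).map (cell (f j))).toFinset

theorem mem_lane {L : ℕ} {f : ℕ → Pt} {g : ℕ → List Pt} {c : Pt} :
    c ∈ lane L f g ↔ ∃ j ≤ L, ∃ a ∈ g j, cell (f j) a = c := by
  simp [lane]

theorem conn_lane {L : ℕ} {f : ℕ → Pt} {g : ℕ → List Pt}
    (h1 : ∀ j ≤ L, g j ≠ [] ∧ (g j).IsChain Stp)
    (h2 : ∀ j < L, ∃ a ∈ g j, ∃ b ∈ g (j + 1), gridZ.Adj (cell (f j) a) (cell (f (j + 1)) b)) :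
    Conn gridZ (lane L f g) := by
  refine conn_chain (fun j hj => conn_list _ (by simpa using (h1 j hj).1) ?_) fun j hj => ?_
  · rw [List.isChain_map]
    exact (h1 j hj).2.imp fun _ _ h => cell_adj _ h
  · obtain ⟨a, ha, b, hb, h⟩ := h2 j hj
    exact ⟨_, List.mem_toFinset.2 (List.mem_map_of_mem ha), _,
      List.mem_toFinset.2 (List.mem_map_of_mem hb), h⟩

/-- The three lanes along a path from `U` to `V`. -/
structure Lanes (U V P : Finset Pt) (π : Pt) (e : Fin 4) (Z : Finset Pt) (Λ : Bool → Finset Pt) :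
    Prop where
  cP : Conn gridZ P
  tU : Touch gridZ P U
  tV : Touch gridZ P V
  πP : π ∈ blks P
  ZP : Z ⊆ blks P
  ΛP : ∀ s, Λ s ⊆ blks P
  πZ : π ∉ Z
  πΛ : ∀ s, π ∉ Λ s
  ZΛ : ∀ s, Disjoint Z (Λ s)
  ΛΛ : ∀ s, Disjoint (Λ s) (Λ (!s))
  cZ : Conn gridZ Z
  cΛ : ∀ s, Conn gridZ (Λ s)
  ZV : Touch gridZ Z (blks V)
  eU : π + dirv e ∈ blks U
  eZ : π + dirv (e + 2) ∈ Z
  eΛ : ∀ s, π + dirv (turn s e) ∈ Λ s
  att : ∀ A : Finset Pt, Disjoint A P → Disjoint A U → Disjoint A V → Touch gridZ A P →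
    ∃ s, Touch gridZ (blks A) (Λ s)

theorem exists_lanes {U V ψ : Finset Pt} (hψ : Conn gridZ ψ) (hU : Touch gridZ ψ U)
    (hV : Touch gridZ ψ V) (dU : Disjoint U ψ) (dV : Disjoint V ψ) (dUV : Disjoint U V) :
    ∃ P ⊆ ψ, ∃ π e Z Λ, Lanes U V P π e Z Λ := by
  obtain ⟨y0, hy0, x0, hx0, a0⟩ := hU
  obtain ⟨y1, hy1, x1, hx1, a1⟩ := hV
  obtain ⟨L, f, rfl, rfl, hS, hA, hI⟩ := (hψ.2 y0 hy0 y1 hy1).exists_path hy0
  let pv : ℕ → Pt := fun j => if j = 0 then x0 else f (j - 1)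
  let nx : ℕ → Pt := fun j => if j = L then x1 else f (j + 1)
  have hpv : ∀ j, j ≤ L → Stp (f j) (pv j) := fun j hj => adj_iff.1 (by
    by_cases h : j = 0
    · simpa [pv, h] using a0
    · have := (hA (j - 1) (by omega)).symm
      rw [show j - 1 + 1 = j by omega] at this
      simpa [pv, h] using this)
  have hnx : ∀ j, j ≤ L → Stp (f j) (nx j) := fun j hj => adj_iff.1 (by
    by_cases h : j = L
    · simpa [nx, h] using a1
    · simpa [nx, h] using hA j (by omega))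
  choose! i hi using hpv
  choose! o ho using hnx
  have hio : ∀ j ≤ L, i j ≠ o j := fun j hj e => by
    have h1 : pv j = nx j := by rw [hi j hj, ho j hj, e]
    simp only [pv, nx] at h1
    split_ifs at h1 with h2 h3 h3
    · exact disjoint_left.1 dUV hx0 (h1 ▸ hx1)
    · exact disjoint_left.1 dU hx0 (h1 ▸ hS _ (by omega))
    · exact disjoint_left.1 dV hx1 (h1 ▸ hS _ (by omega))
    · have := hI _ (by omega) _ (by omega) h1
      omega
  have hf : ∀ j < L, f (j + 1) = f j + dirv (o j) := fun j hj => by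
    simpa [nx, hj.ne] using ho j hj.le
  have hoi : ∀ j < L, i (j + 1) = o j + 2 := fun j hj => by
    have h1 := hi (j + 1) hj
    simp only [pv, Nat.succ_ne_zero, if_false, Nat.add_sub_cancel] at h1
    rw [hf j hj, add_assoc, left_eq_add] at h1
    apply dirv_inj
    rw [dirv_two]
    exact eq_neg_of_add_eq_zero_right h1
  have hP : ∀ j ≤ L, f j ∈ (Icc 0 L).image f := fun j hj => mem_image_of_mem f (by simp [hj])
  let g : ℕ → List Pt := fun j => if j = 0 then [0, dirv (o j)] else [dirv (i j), 0, dirv (o j)]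
  have hg : ∀ j, ∀ a ∈ g j, (a = dirv (i j) ∧ j ≠ 0) ∨ a = 0 ∨ a = dirv (o j) := fun j a ha => by
    by_cases h : j = 0
    · simp only [g, h, if_true, List.mem_cons, List.not_mem_nil, or_false] at ha
      exact Or.inr (h ▸ ha)
    · simpa [g, h] using ha
  have hgb : ∀ j, ∀ a ∈ g j, Bx a := fun j a ha => by
    rcases hg j a ha with ⟨rfl, -⟩ | rfl | rfl
    exacts [(dirv_bx _).1, bx_zero, (dirv_bx _).1]
  have hgo : ∀ j, dirv (o j) ∈ g j ∧ (0 : Pt) ∈ g j := fun j => by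
    by_cases h : j = 0 <;> simp [g, h]
  have hsub : ∀ g' : ℕ → List Pt, (∀ j ≤ L, ∀ a ∈ g' j, Bx a) →
      lane L f g' ⊆ blks ((Icc 0 L).image f) := fun g' h c hc => by
    obtain ⟨j, hj, a, ha, rfl⟩ := mem_lane.1 hc
    exact blk_sub (hP j hj) (cell_mem _ (h j hj a ha))
  have hdis : ∀ g' g'' : ℕ → List Pt, (∀ j ≤ L, ∀ a ∈ g' j, Bx a) → (∀ j ≤ L, ∀ a ∈ g'' j, Bx a) →
      (∀ j ≤ L, ∀ a ∈ g'' j, a ∉ g' j) → Disjoint (lane L f g') (lane L f g'') :=
    fun g' g'' h1 h2 h3 => disjoint_left.2 fun c hc hc' => by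
      obtain ⟨j, hj, a, ha, rfl⟩ := mem_lane.1 hc
      obtain ⟨j', hj', b, hb, e⟩ := mem_lane.1 hc'
      obtain ⟨e1, rfl⟩ := cell_inj (h2 j' hj' b hb) (h1 j hj a ha) e
      obtain rfl := hI _ hj' _ hj e1
      exact h3 _ hj _ hb ha
  have hπ : ∀ g' : ℕ → List Pt, (∀ j ≤ L, ∀ a ∈ g' j, Bx a) → dirv (i 0) ∉ g' 0 →
      cell (f 0) (dirv (i 0)) ∉ lane L f g' := fun g' h1 h2 hc => by
    obtain ⟨j, hj, a, ha, e⟩ := mem_lane.1 hc
    obtain ⟨e1, rfl⟩ := cell_inj (h1 j hj a ha) (dirv_bx _).1 e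
    obtain rfl := hI _ hj _ (Nat.zero_le L) e1
    exact h2 ha
  have hab : ∀ s, ∀ j ≤ L, ∀ a ∈ arcs s (i j) (o j), Bx a :=
    fun s j hj a ha => (arcs_mem s _ _ (hio j hj) a ha).1
  have h0 := Nat.zero_le L
  refine ⟨(Icc 0 L).image f, fun c hc => ?_, cell (f 0) (dirv (i 0)), i 0, lane L f g,
    fun s => lane L f fun j => arcs s (i j) (o j),
    conn_segment h0 fun j _ hj => hA j hj, ⟨_, hP 0 h0, _, hx0, a0⟩, ⟨_, hP L le_rfl, _, hx1, a1⟩,
    blk_sub (hP 0 h0) (cell_mem _ (dirv_bx _).1), hsub g fun j _ => hgb j, fun s => hsub _ (hab s),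
    hπ g (fun j _ => hgb j) fun h => ?_,
    fun s => hπ _ (hab s) fun h => (arcs_mem s _ _ (hio 0 h0) _ h).2.2.1 rfl,
    fun s => hdis _ _ (fun j _ => hgb j) (hab s) fun j hj a ha h => ?_,
    fun s => (hdis _ _ (hab _) (hab s) fun j hj a ha => (arcs_mem s _ _ (hio j hj) a ha).2.1).symm,
    conn_lane (fun j _ => ?_) fun j hj => ⟨_, (hgo j).1, dirv (i (j + 1)), by simp [g], ?_⟩,
    fun s => conn_lane (fun j hj => arcs_chain s _ _ (hio j hj)) fun j hj =>
      ⟨_, (arcs_corner s _ _ (hio j hj.le)).2, _, (arcs_corner s _ _ (hio _ hj)).1, ?_⟩,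
    ⟨_, mem_lane.2 ⟨L, le_rfl, _, (hgo L).1, rfl⟩, _, blk_sub hx1 ?_, adj_dirv _ (o L)⟩,
    blk_sub hx0 ?_, mem_lane.2 ⟨0, h0, 0, (hgo 0).2, ?_⟩,
    fun s => mem_lane.2 ⟨0, h0, _, (arcs_corner s _ _ (hio 0 h0)).1, (cell_add _ _ _).symm⟩,
    fun A d1 d2 d3 ht => ?_⟩
  · obtain ⟨j, hj, rfl⟩ := mem_image.1 hc
    exact hS j (mem_Icc.1 hj).2
  · rcases hg 0 _ h with ⟨-, h⟩ | h | h
    exacts [h rfl, (dirv_bx _).2.2 h, hio 0 h0 (dirv_inj _ _ h)]
  · have := (arcs_mem s _ _ (hio j hj) a ha).2.2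
    rcases hg j a h with ⟨h, -⟩ | h | h
    exacts [this.1 h, this.2.1 h, this.2.2 h]
  · by_cases h : j = 0
    · simp only [g, h, if_true]
      exact ⟨by simp, (ctr_chain 0 _).1⟩
    · simp only [g, h, if_false]
      exact ⟨by simp, (ctr_chain _ _).2⟩
  · have := cell_next (f j) 0 (o j)
    rw [add_zero, add_zero] at this
    rw [hf j hj, hoi j hj, dirv_two, ← this]
    exact adj_dirv _ _
  · rw [hf j hj, hoi j hj, dirv_two, ← cell_next]
    exact adj_dirv _ _
  · have := ho L le_rfl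
    simp only [nx, if_true] at this
    rw [this]
    exact next_mem _ _
  · have := hi 0 h0
    simp only [pv, if_true] at this
    rw [this]
    exact next_mem _ _
  · rw [cell_add, dirv_two, add_neg_cancel]
  · obtain ⟨w, hw, c, hc, h⟩ := ht
    obtain ⟨j, hj, rfl⟩ := mem_image.1 hc
    have hj := (mem_Icc.1 hj).2
    obtain ⟨m, rfl⟩ := adj_iff.1 h.symm
    obtain ⟨s, hs⟩ := arcs_mid _ _ m (hio j hj) (by
      rintro rfl
      rw [← hi j hj] at hw
      simp only [pv] at hw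
      split_ifs at hw
      exacts [disjoint_left.1 d2 hw hx0, disjoint_left.1 d1 hw (hP _ (by omega))]) (by
      rintro rfl
      rw [← ho j hj] at hw
      simp only [nx] at hw
      split_ifs at hw
      exacts [disjoint_left.1 d3 hw hx1, disjoint_left.1 d1 hw (hP _ (by omega))])
    exact ⟨s, _, blk_sub hw (next_mem _ m), _, mem_lane.2 ⟨j, hj, _, hs, rfl⟩, (adj_dirv _ m).symm⟩

/-- A side port reaches the path directly or through a component. -/
theorem exists_side {A P ψ : Finset Pt} (hψ : Conn gridZ ψ) (hP : P.Nonempty) (hPψ : P ⊆ ψ)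
    (hA : Conn gridZ A) (ht : Touch gridZ ψ A) : ∃ C ⊆ ψ \ P, Conn gridZ (A ∪ C) ∧
      Touch gridZ (A ∪ C) P ∧ ∀ c ∈ C, C = comp gridZ (ψ \ P) c ∧ Conn gridZ C ∧
        Touch gridZ A C ∧ Touch gridZ P C := by
  obtain ⟨y, hy, x, hx, h⟩ := ht
  by_cases hyP : y ∈ P
  · exact ⟨∅, empty_subset _, by simpa using hA, ⟨x, by simpa using hx, y, hyP, h.symm⟩, by simp⟩
  · have hy' : y ∈ ψ \ P := mem_sdiff.2 ⟨hy, hyP⟩
    obtain ⟨b, hb⟩ := hP
    obtain ⟨u, v, hu, hv, -, hvS, huv⟩ := hψ.exit hy (self_mem_comp (G := gridZ) hy') (hPψ hb)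
      (fun hc => (mem_sdiff.1 (comp_subset hc)).2 hb)
    have hvP : v ∈ P := by
      by_contra hc
      exact hv (comp_closed hu (mem_sdiff.2 ⟨hvS, hc⟩) huv)
    have t1 : Touch gridZ A (comp gridZ (ψ \ P) y) := ⟨x, hx, y, self_mem_comp hy', h.symm⟩
    exact ⟨comp gridZ (ψ \ P) y, comp_subset, hA.union_touch (comp_conn hy') t1,
      ⟨u, mem_union_right _ hu, v, hvP, huv⟩,
      fun c hc => ⟨(comp_eq hc).symm, comp_conn hy', t1, v, hvP, u, hu, huv.symm⟩⟩

/-- The local statement for one marker. -/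
def Loc (ψ : Finset Pt) (F : Fin 4 → Finset Pt) (pr : Fin 4 → Prop) : Prop :=
  ∃ (π : Pt) (e : Fin 4 → Fin 4) (Z : Fin 4 → Finset Pt), π ∈ blks ψ ∧
    (e 1 = e 0 + 2 ∧ e 3 = e 2 + 2 ∧ (e 2 = e 0 + 1 ∨ e 2 = e 0 + 3)) ∧
    (∀ i, Z i ⊆ blks ψ ∧ π ∉ Z i) ∧ (∀ i j, i ≠ j → Disjoint (Z i) (Z j)) ∧
    ∀ i, pr i → Conn gridZ (blks (F i) ∪ Z i) ∧ π + dirv (e i) ∈ blks (F i) ∪ Z i

theorem turn_facts : ∀ s e, turn (!s) e = turn s e + 2 ∧ (turn s e = e + 1 ∨ turn s e = e + 3) := by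
  decide

theorem loc_path (hK : NoK33 gridZ) {ψ : Finset Pt} {F : Fin 4 → Finset Pt} {pr : Fin 4 → Prop}
    (hψ : Conn gridZ ψ) (hF : ∀ i, pr i → Conn gridZ (F i) ∧ Disjoint (F i) ψ ∧ Touch gridZ ψ (F i))
    (hd : ∀ i j, i ≠ j → pr i → pr j → Disjoint (F i) (F j)) (p0 : pr 0) (p1 : pr 1)
    (hr : pr 2 → pr 3 → Touch gridZ (F 0) (F 2) ∧ Touch gridZ (F 0) (F 3) ∧
      Touch gridZ (F 1) (F 2) ∧ Touch gridZ (F 1) (F 3)) : Loc ψ F pr := by
  obtain ⟨P, hPψ, π, e, Z, Λ, h⟩ := exists_lanes hψ (hF 0 p0).2.2 (hF 1 p1).2.2 (hF 0 p0).2.1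
    (hF 1 p1).2.1 (hd 0 1 (by decide) p0 p1)
  have hside : ∀ i, pr i → i ≠ 0 → i ≠ 1 → ∃ C ⊆ ψ \ P, ∃ s, Conn gridZ (F i ∪ C) ∧
      Touch gridZ (blks (F i ∪ C)) (Λ s) ∧ ∀ c ∈ C, C = comp gridZ (ψ \ P) c ∧ Conn gridZ C ∧
        Touch gridZ (F i) C ∧ Touch gridZ P C := fun i hi h0 h1 => by
    obtain ⟨C, hC, c1, c2, c3⟩ := exists_side hψ h.cP.1 hPψ (hF i hi).1 (hF i hi).2.2
    have hCψ := hC.trans sdiff_subset
    obtain ⟨s, hs⟩ := h.att (F i ∪ C)
      (disjoint_union_left.2 ⟨(hF i hi).2.1.mono_right hPψ, sdiff_disjoint.mono_left hC⟩)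
      (disjoint_union_left.2 ⟨hd i 0 h0 hi p0, ((hF 0 p0).2.1.mono_right hCψ).symm⟩)
      (disjoint_union_left.2 ⟨hd i 1 h1 hi p1, ((hF 1 p1).2.1.mono_right hCψ).symm⟩) c2
    exact ⟨C, hC, s, c1, hs, c3⟩
  obtain ⟨s, C2, C3, hC2, hC3, dC, h2, h3⟩ : ∃ s C2 C3, C2 ⊆ ψ \ P ∧ C3 ⊆ ψ \ P ∧
      Disjoint C2 C3 ∧ (pr 2 → Conn gridZ (F 2 ∪ C2) ∧ Touch gridZ (blks (F 2 ∪ C2)) (Λ s)) ∧
      (pr 3 → Conn gridZ (F 3 ∪ C3) ∧ Touch gridZ (blks (F 3 ∪ C3)) (Λ (!s))) := by
    by_cases p2 : pr 2 <;> by_cases p3 : pr 3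
    · obtain ⟨C2, hC2, s, a1, a2, a3⟩ := hside 2 p2 (by decide) (by decide)
      obtain ⟨C3, hC3, s', b1, b2, b3⟩ := hside 3 p3 (by decide) (by decide)
      obtain ⟨r1, r2, r3, r4⟩ := hr p2 p3
      have dP : ∀ i, pr i → Disjoint (F i) P := fun i hi => (hF i hi).2.1.mono_right hPψ
      have dC : ∀ C ⊆ ψ \ P, ∀ i, pr i → Disjoint (F i) C := fun C hC i hi =>
        (hF i hi).2.1.mono_right (hC.trans sdiff_subset)
      have dPC : ∀ C ⊆ ψ \ P, Disjoint C P := fun C hC => sdiff_disjoint.mono_left hC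
      have d23 : Disjoint C2 C3 := disjoint_left.2 fun c hc hc' => by
        obtain ⟨e2, c1, c2, c3⟩ := a3 c hc
        obtain ⟨e3, -, c4, -⟩ := b3 c hc'
        rw [e3, ← e2] at c4
        refine hK.six (A0 := F 2) (A1 := F 3) (A2 := P) (B0 := F 0) (B1 := F 1) (B2 := C2)
          ⟨(hF 2 p2).1, (hF 3 p3).1, h.cP⟩ ⟨(hF 0 p0).1, (hF 1 p1).1, c1⟩
          ⟨hd 2 3 (by decide) p2 p3, dP 2 p2, dP 3 p3⟩
          ⟨hd 0 1 (by decide) p0 p1, dC _ hC2 0 p0, dC _ hC2 1 p1⟩ ?_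
        rintro B (rfl | rfl | rfl)
        · exact ⟨⟨hd 2 0 (by decide) p2 p0, r1.symm⟩, ⟨hd 3 0 (by decide) p3 p0, r2.symm⟩,
            (dP 0 p0).symm, h.tU⟩
        · exact ⟨⟨hd 2 1 (by decide) p2 p1, r3.symm⟩, ⟨hd 3 1 (by decide) p3 p1, r4.symm⟩,
            (dP 1 p1).symm, h.tV⟩
        · exact ⟨⟨dC _ hC2 2 p2, c2⟩, ⟨dC _ hC2 3 p3, c4⟩, (dPC _ hC2).symm, c3⟩
      refine ⟨s, C2, C3, hC2, hC3, d23, fun _ => ⟨a1, a2⟩, fun _ => ⟨b1, ?_⟩⟩
      by_cases hs : s' = !s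
      · exact hs ▸ b2
      obtain rfl : s' = s := by simpa using hs
      have hM : insert π Z ⊆ blks P := insert_subset h.πP h.ZP
      have dU : ∀ i, pr i → ∀ C ⊆ ψ \ P, Disjoint (blks (F i ∪ C)) (blks P) := fun i hi C hC =>
        disj_blks (disjoint_union_left.2 ⟨dP i hi, dPC C hC⟩)
      have dF : ∀ i j, i ≠ j → pr i → pr j → ∀ C ⊆ ψ \ P,
          Disjoint (blks (F i ∪ C)) (blks (F j)) := fun i j hn hi hj C hC =>
        disj_blks (disjoint_union_left.2 ⟨hd i j hn hi hj, (dC C hC j hj).symm⟩)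
      have tF : ∀ {i j : Fin 4} {C : Finset Pt}, Touch gridZ (F j) (F i) →
          Touch gridZ (blks (F i ∪ C)) (blks (F j)) := fun t =>
        touch_blks (t.symm.mono subset_union_left subset_rfl)
      exfalso
      refine hK.six (A0 := blks (F 2 ∪ C2)) (A1 := blks (F 3 ∪ C3)) (A2 := insert π Z)
        (B0 := blks (F 0)) (B1 := blks (F 1)) (B2 := Λ s')
        ⟨conn_blks a1, conn_blks b1, h.cZ.insert h.eZ (adj_dirv π _).symm⟩
        ⟨conn_blks (hF 0 p0).1, conn_blks (hF 1 p1).1, h.cΛ _⟩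
        ⟨disj_blks (disjoint_union_left.2 ⟨disjoint_union_right.2
          ⟨hd 2 3 (by decide) p2 p3, dC _ hC3 2 p2⟩, disjoint_union_right.2
            ⟨(dC _ hC2 3 p3).symm, d23⟩⟩),
          (dU 2 p2 _ hC2).mono_right hM, (dU 3 p3 _ hC3).mono_right hM⟩
        ⟨disj_blks (hd 0 1 (by decide) p0 p1), (disj_blks (dP 0 p0)).mono_right (h.ΛP _),
          (disj_blks (dP 1 p1)).mono_right (h.ΛP _)⟩ ?_
      rintro B (rfl | rfl | rfl)
      · exact ⟨⟨dF 2 0 (by decide) p2 p0 _ hC2, tF r1⟩, ⟨dF 3 0 (by decide) p3 p0 _ hC3, tF r2⟩,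
          ((disj_blks (dP 0 p0)).mono_right hM).symm,
          π, mem_insert_self _ _, _, h.eU, adj_dirv π _⟩
      · exact ⟨⟨dF 2 1 (by decide) p2 p1 _ hC2, tF r3⟩, ⟨dF 3 1 (by decide) p3 p1 _ hC3, tF r4⟩,
          ((disj_blks (dP 1 p1)).mono_right hM).symm, h.ZV.mono (subset_insert _ _) subset_rfl⟩
      · exact ⟨⟨(dU 2 p2 _ hC2).mono_right (h.ΛP _), a2⟩, ⟨(dU 3 p3 _ hC3).mono_right (h.ΛP _), b2⟩,
          disjoint_insert_left.2 ⟨h.πΛ _, h.ZΛ _⟩,
          π, mem_insert_self _ _, _, h.eΛ _, adj_dirv π _⟩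
    · obtain ⟨C2, hC2, s, a1, a2, -⟩ := hside 2 p2 (by decide) (by decide)
      exact ⟨s, C2, ∅, hC2, empty_subset _, disjoint_empty_right _, fun _ => ⟨a1, a2⟩,
        fun h => absurd h p3⟩
    · obtain ⟨C3, hC3, s, a1, a2, -⟩ := hside 3 p3 (by decide) (by decide)
      exact ⟨!s, ∅, C3, empty_subset _, hC3, disjoint_empty_left _, fun h => absurd h p2,
        fun _ => ⟨a1, by simpa using a2⟩⟩
    · exact ⟨true, ∅, ∅, empty_subset _, empty_subset _, disjoint_empty_left _,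
        fun h => absurd h p2, fun h => absurd h p3⟩
  have hb := blks_mono hPψ
  have dB : ∀ C ⊆ ψ \ P, Disjoint (blks P) (blks C) := fun C hC =>
    disj_blks (disjoint_sdiff.mono_right hC)
  have q1 : ∀ s, ∀ C ⊆ ψ \ P, Λ s ∪ blks C ⊆ blks ψ ∧ π ∉ Λ s ∪ blks C := fun s C hC =>
    ⟨union_subset ((h.ΛP s).trans hb) (blks_mono (hC.trans sdiff_subset)), fun hm =>
      (mem_union.1 hm).elim (h.πΛ s) (disjoint_left.1 (dB C hC) h.πP)⟩
  have q2 : ∀ s, ∀ C ⊆ ψ \ P, Disjoint Z (Λ s ∪ blks C) := fun s C hC =>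
    disjoint_union_right.2 ⟨h.ZΛ s, (dB C hC).mono_left h.ZP⟩
  have q3 : Disjoint (Λ s ∪ blks C2) (Λ (!s) ∪ blks C3) :=
    disjoint_union_left.2 ⟨disjoint_union_right.2 ⟨h.ΛΛ s, (dB _ hC3).mono_left (h.ΛP _)⟩,
      disjoint_union_right.2 ⟨((dB _ hC2).mono_left (h.ΛP _)).symm, disj_blks dC⟩⟩
  have q4 : ∀ s (A C : Finset Pt), Conn gridZ (A ∪ C) ∧ Touch gridZ (blks (A ∪ C)) (Λ s) →
      Conn gridZ (blks A ∪ (Λ s ∪ blks C)) ∧ π + dirv (turn s e) ∈ blks A ∪ (Λ s ∪ blks C) :=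
    fun s A C hh => ⟨by
      have := (conn_blks hh.1).union_touch (h.cΛ s) hh.2
      rwa [blks_union, union_assoc, union_comm (blks C)] at this,
      mem_union_right _ (mem_union_left _ (h.eΛ s))⟩
  refine ⟨π, ![e, e + 2, turn s e, turn (!s) e], ![∅, Z, Λ s ∪ blks C2, Λ (!s) ∪ blks C3],
    hb h.πP, ⟨rfl, (turn_facts s e).1, (turn_facts s e).2⟩, fun i => ?_, fun i j hn => ?_,
    fun i hi => ?_⟩
  · fin_cases i
    exacts [⟨empty_subset _, notMem_empty _⟩, ⟨h.ZP.trans hb, h.πZ⟩, q1 _ _ hC2, q1 _ _ hC3]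
  · fin_cases i <;> fin_cases j
    exacts [absurd rfl hn, disjoint_empty_left _, disjoint_empty_left _, disjoint_empty_left _,
      disjoint_empty_right _, absurd rfl hn, q2 _ _ hC2, q2 _ _ hC3,
      disjoint_empty_right _, (q2 _ _ hC2).symm, absurd rfl hn, q3,
      disjoint_empty_right _, (q2 _ _ hC3).symm, q3.symm, absurd rfl hn]
  · fin_cases i
    · exact ⟨by simpa using conn_blks (hF 0 p0).1, mem_union_left _ h.eU⟩
    · exact ⟨(conn_blks (hF 1 p1).1).union_touch h.cZ h.ZV.symm, mem_union_right _ h.eZ⟩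
    · exact q4 _ _ _ (h2 hi)
    · exact q4 _ _ _ (h3 hi)

theorem rot_facts : ∀ m : Fin 4, m + 1 = m + 3 + 2 ∧ m = m + 3 + 1 ∧ m + 3 = m + 1 + 2 ∧
    m = m + 2 + 2 ∧ m + 2 = m + 1 + 1 := by decide

theorem loc_all (hK : NoK33 gridZ) {ψ : Finset Pt} {F : Fin 4 → Finset Pt} {pr : Fin 4 → Prop}
    (hψ : Conn gridZ ψ) (hF : ∀ i, pr i → Conn gridZ (F i) ∧ Disjoint (F i) ψ ∧ Touch gridZ ψ (F i))
    (hd : ∀ i j, i ≠ j → pr i → pr j → Disjoint (F i) (F j)) (p01 : pr 0 ↔ pr 1)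
    (hr : pr 0 → pr 1 → pr 2 → pr 3 → Touch gridZ (F 0) (F 2) ∧ Touch gridZ (F 0) (F 3) ∧
      Touch gridZ (F 1) (F 2) ∧ Touch gridZ (F 1) (F 3)) : Loc ψ F pr := by
  by_cases p0 : pr 0
  · exact loc_path hK hψ hF hd p0 (p01.1 p0) (hr p0 (p01.1 p0))
  have p1 : ¬ pr 1 := fun h => p0 (p01.2 h)
  have one : ∀ i, pr i → ∃ π ∈ blks ψ, ∃ m, Conn gridZ (blks (F i) ∪ ∅) ∧
      π + dirv m ∈ blks (F i) ∪ ∅ := fun i hi => by
    obtain ⟨y, hy, x, hx, h⟩ := (hF i hi).2.2
    obtain ⟨m, rfl⟩ := adj_iff.1 h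
    exact ⟨_, blk_sub hy (cell_mem y (dirv_bx m).1), m, by simpa using conn_blks (hF i hi).1,
      mem_union_left _ (blk_sub hx (next_mem y m))⟩
  by_cases p2 : pr 2 <;> by_cases p3 : pr 3
  · obtain ⟨P, hPψ, π, e, Z, Λ, h⟩ := exists_lanes hψ (hF 2 p2).2.2 (hF 3 p3).2.2 (hF 2 p2).2.1
      (hF 3 p3).2.1 (hd 2 3 (by decide) p2 p3)
    refine ⟨π, ![e + 3, e + 1, e, e + 2], ![∅, ∅, ∅, Z], blks_mono hPψ h.πP,
      ⟨(rot_facts e).1, rfl, Or.inl (rot_facts e).2.1⟩, fun i => ?_, fun i j hn => ?_,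
      fun i hi => ?_⟩
    · fin_cases i
      exacts [⟨empty_subset _, notMem_empty _⟩, ⟨empty_subset _, notMem_empty _⟩,
        ⟨empty_subset _, notMem_empty _⟩, ⟨h.ZP.trans (blks_mono hPψ), h.πZ⟩]
    · fin_cases i <;> fin_cases j <;> simp at hn ⊢
    · fin_cases i
      · exact absurd hi p0
      · exact absurd hi p1
      · exact ⟨by simpa using conn_blks (hF 2 p2).1, mem_union_left _ h.eU⟩
      · exact ⟨(conn_blks (hF 3 p3).1).union_touch h.cZ h.ZV.symm, mem_union_right _ h.eZ⟩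
  · obtain ⟨π, hπ, m, h⟩ := one 2 p2
    refine ⟨π, ![m + 3, m + 1, m, m + 2], fun _ => ∅, hπ,
      ⟨(rot_facts m).1, rfl, Or.inl (rot_facts m).2.1⟩, by simp, by simp, fun i hi => ?_⟩
    fin_cases i
    exacts [absurd hi p0, absurd hi p1, h, absurd hi p3]
  · obtain ⟨π, hπ, m, h⟩ := one 3 p3
    refine ⟨π, ![m + 1, m + 3, m + 2, m], fun _ => ∅, hπ,
      ⟨(rot_facts m).2.2.1, (rot_facts m).2.2.2.1, Or.inl (rot_facts m).2.2.2.2⟩, by simp, by simp,
      fun i hi => ?_⟩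
    fin_cases i
    exacts [absurd hi p0, absurd hi p1, absurd hi p2, h]
  · obtain ⟨π, hπ⟩ := (conn_blks hψ).1
    refine ⟨π, ![0, 2, 1, 3], fun _ => ∅, hπ, by decide, by simp, by simp, fun i hi => ?_⟩
    fin_cases i
    exacts [absurd hi p0, absurd hi p1, absurd hi p2, absurd hi p3]

theorem main (hK : NOKStmt) : NFAStmt := by
  intro nx nt pt φ ψ h
  have loc : ∀ t, t < nt → Loc (ψ t) (fun i => φ ((pt t i).getD 0)) fun i => ∃ x, pt t i = some x :=
    fun t ht => by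
      refine loc_all hK (h.cψ t ht) ?_ ?_ ?_ ?_
      · rintro i ⟨x, hx⟩
        simp only [hx, Option.getD_some]
        have := h.lt t ht i x hx
        exact ⟨h.cφ x this, h.dφψ x this t ht, h.tch t ht i x hx⟩
      · rintro i j hn ⟨x, hx⟩ ⟨y, hy⟩
        simp only [hx, hy, Option.getD_some]
        exact h.dφ x (h.lt t ht i x hx) y (h.lt t ht j y hy) fun e =>
          hn (h.inj t ht i j x hx (e ▸ hy))
      · simp only [← Option.ne_none_iff_exists', ne_eq, h.both t ht]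
      · rintro ⟨u, hu⟩ ⟨v, hv⟩ ⟨a, ha⟩ ⟨b, hb⟩
        simp only [hu, hv, ha, hb, Option.getD_some]
        exact h.rigid t ht u v a b hu hv ha hb
  choose! π e Z hπ he hZ hd hc using loc
  let I : ℕ → Finset (ℕ × Fin 4) := fun x => (range nt ×ˢ univ).filter fun a => pt a.1 a.2 = some x
  have hI : ∀ x a, a ∈ I x ↔ a.1 < nt ∧ pt a.1 a.2 = some x := fun x a => by simp [I]
  have hc' : ∀ t < nt, ∀ i x, pt t i = some x →
      Conn gridZ (blks (φ x) ∪ Z t i) ∧ π t + dirv (e t i) ∈ blks (φ x) ∪ Z t i :=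
    fun t ht i x hx => by simpa only [hx, Option.getD_some] using hc t ht i ⟨x, hx⟩
  have d1 : ∀ x < nx, ∀ y, Disjoint (blks (φ x)) ((I y).biUnion fun a => Z a.1 a.2) :=
    fun x hx y => (disjoint_biUnion_right _ _ _).2 fun a ha =>
      (disj_blks (h.dφψ x hx _ ((hI y a).1 ha).1)).mono_right (hZ _ ((hI y a).1 ha).1 _).1
  refine ⟨fun x => blks (φ x) ∪ (I x).biUnion fun a => Z a.1 a.2, π, e, fun x hx => ?_,
    fun x hx y hy hn => ?_, fun x _ y _ _ ht => ?_, fun t ht x hx hm => ?_,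
    fun t ht t' ht' e => ?_, he, fun t ht i x hx => ?_⟩
  · exact conn_union_biUnion (conn_blks (h.cφ x hx)) _ fun a ha =>
      (hc' _ ((hI x a).1 ha).1 _ x ((hI x a).1 ha).2).1
  · refine disjoint_union_left.2 ⟨disjoint_union_right.2 ⟨disj_blks (h.dφ x hx y hy hn), d1 x hx y⟩,
      disjoint_union_right.2 ⟨(d1 y hy x).symm, (disjoint_biUnion_left _ _ _).2 fun a ha =>
        (disjoint_biUnion_right _ _ _).2 fun b hb => ?_⟩⟩
    obtain ⟨a1, a2⟩ := (hI x a).1 ha
    obtain ⟨b1, b2⟩ := (hI y b).1 hb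
    by_cases hab : a.1 = b.1
    · rw [← hab] at b2 ⊢
      exact hd _ a1 _ _ fun e => hn (Option.some.inj (a2.symm.trans (e ▸ b2)))
    · exact (disj_blks (h.dψ _ a1 _ b1 hab)).mono (hZ _ a1 _).1 (hZ _ b1 _).1
  · exact (touch_blks ht).mono subset_union_left subset_union_left
  · rcases mem_union.1 hm with hm | hm
    · exact disjoint_left.1 (disj_blks (h.dφψ x hx t ht)) hm (hπ t ht)
    · obtain ⟨a, ha, hm⟩ := mem_biUnion.1 hm
      have a1 := ((hI x a).1 ha).1
      by_cases hab : a.1 = t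
      · exact (hZ t ht a.2).2 (hab ▸ hm)
      · exact disjoint_left.1 (disj_blks (h.dψ _ a1 t ht hab)) ((hZ _ a1 _).1 hm) (hπ t ht)
  · by_contra hn
    exact disjoint_left.1 (disj_blks (h.dψ t ht t' ht' hn)) (hπ t ht) (e ▸ hπ t' ht')
  · exact union_subset_union subset_rfl
      (subset_biUnion_of_mem (fun a : ℕ × Fin 4 => Z a.1 a.2) ((hI x (t, i)).2 ⟨ht, hx⟩))
      (hc' t ht i x hx).2

end NFA

theorem nfa (hK : NOKStmt) : NFAStmt := NFA.main hK

end Pool.Agent.MP_7be75d_co.Gen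

end MrgPart0

-- ======== part 1: formerly Pool.Agent.MP_7be75d_co.Gen.Pair
section MrgPart1

/-! Modules PAIR and GEO of the project LTW: pairings of ends, and their drawing in a grid. -/

namespace Pool.Agent.MP_7be75d_co.Gen

open Finset
open scoped Classical

namespace Pair

section pairing

variable {ε ν : Type} {E : Finset ε} {σ t : ε → ε} {node : ε → Option ν} {cp δ r : ε → ℕ}
  {z : ν → ε} {ρ : ν → ℕ}

/-- Ends with a last end `z v` at every node that leads to a node of smaller rank. -/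
structure Hyp (E : Finset ε) (σ : ε → ε) (node : ε → Option ν) (cp : ε → ℕ) (z : ν → ε)
    (ρ : ν → ℕ) : Prop where
  mem : ∀ e ∈ E, σ e ∈ E
  inv : ∀ e ∈ E, σ (σ e) = e
  ne : ∀ e ∈ E, σ e ≠ e
  inj : ∀ e ∈ E, ∀ f ∈ E, node e ≠ none → node e = node f → cp e = cp f → e = f
  even : ∀ v, Even (E.filter fun e => node e = some v).card
  par : ∀ e ∈ E, ∀ v, node e = some v → z v ∈ E ∧ node (z v) = some v ∧ cp e ≤ cp (z v) ∧
    ∀ w, node (σ (z v)) = some w → ρ w < ρ v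

/-- A pairing of depth two with a rank. -/
structure Con (E : Finset ε) (σ : ε → ε) (node : ε → Option ν) (cp : ε → ℕ) (t : ε → ε)
    (δ r : ε → ℕ) : Prop where
  mem : ∀ e ∈ E, node e ≠ none → t e ∈ E
  inv : ∀ e ∈ E, node e ≠ none → t (t e) = e
  ne : ∀ e ∈ E, node e ≠ none → t e ≠ e
  nd : ∀ e ∈ E, node e ≠ none → node (t e) = node e
  dep : ∀ e ∈ E, node e ≠ none → δ (t e) = δ e ∧ 1 ≤ δ e ∧ δ e ≤ 2
  nest : ∀ e ∈ E, ∀ f ∈ E, node e ≠ none → node f = node e → cp e < cp f → cp f < cp (t e) →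
    δ f < δ e
  rk : ∀ a ∈ E, node (σ a) ≠ none → r (t (σ a)) < r a

/-- The involution after two ends are split off. -/
noncomputable def sp (σ : ε → ε) (e f : ε) (a : ε) : ε :=
  if a = σ e then σ f else if a = σ f then σ e else σ a

theorem Hyp.sinj (h : Hyp E σ node cp z ρ) {a b : ε} (ha : a ∈ E) (hb : b ∈ E)
    (hab : σ a = σ b) : a = b := by
  rw [← h.inv a ha, hab, h.inv b hb]

theorem Hyp.swap (h : Hyp E σ node cp z ρ) {a b : ε} (ha : a ∈ E) (hab : σ a = b) :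
    a = σ b := by
  rw [← hab, h.inv a ha]

theorem sp_l {e f : ε} : sp σ e f (σ e) = σ f := by simp [sp]

theorem sp_r {e f : ε} : sp σ e f (σ f) = σ e := by
  unfold sp
  split_ifs with h1 h2
  · exact h1
  · rfl
  · exact absurd rfl h2

theorem sp_o {e f a : ε} (h1 : a ≠ σ e) (h2 : a ≠ σ f) : sp σ e f a = σ a := by
  simp [sp, h1, h2]

theorem Hyp.split (h : Hyp E σ node cp z ρ) {v : ν} {e f : ε} (he : e ∈ E) (hf : f ∈ E)
    (hef : e ≠ f) (hσ : σ e ≠ f) (ne : node e = some v) (nf : node f = some v)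
    (hv : ∀ g ∈ E, ∀ w, node g = some w → ρ w ≤ ρ v)
    (hz : ∀ g ∈ E, g ≠ e → g ≠ f → node g = some v → z v ≠ e ∧ z v ≠ f) :
    Hyp ((E.erase e).erase f) (sp σ e f) node cp z ρ := by
  have hσ' : σ f ≠ e := fun hh => hσ (h.swap hf hh).symm
  have hm : ∀ a, a ∈ (E.erase e).erase f ↔ a ∈ E ∧ a ≠ e ∧ a ≠ f := fun a => by
    simp only [mem_erase]; tauto
  have hss : σ e ≠ σ f := fun hh => hef (h.sinj he hf hh)
  refine ⟨fun a ha => ?_, fun a ha => ?_, fun a ha => ?_, fun a ha b hb =>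
    h.inj a ((hm a).1 ha).1 b ((hm b).1 hb).1, fun w => ?_, fun a ha w hw => ?_⟩
  · obtain ⟨h1, h2, h3⟩ := (hm a).1 ha
    rw [hm]
    by_cases c1 : a = σ e
    · rw [c1, sp_l]
      exact ⟨h.mem f hf, hσ', h.ne f hf⟩
    by_cases c2 : a = σ f
    · rw [c2, sp_r]
      exact ⟨h.mem e he, h.ne e he, hσ⟩
    rw [sp_o c1 c2]
    exact ⟨h.mem a h1, fun hh => c1 (h.swap h1 hh), fun hh => c2 (h.swap h1 hh)⟩
  · obtain ⟨h1, h2, h3⟩ := (hm a).1 ha
    by_cases c1 : a = σ e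
    · rw [c1, sp_l, sp_r]
    by_cases c2 : a = σ f
    · rw [c2, sp_r, sp_l]
    rw [sp_o c1 c2, sp_o (fun hh => h2 (h.sinj h1 he hh)) (fun hh => h3 (h.sinj h1 hf hh)),
      h.inv a h1]
  · obtain ⟨h1, h2, h3⟩ := (hm a).1 ha
    by_cases c1 : a = σ e
    · rw [c1, sp_l]
      exact hss.symm
    by_cases c2 : a = σ f
    · rw [c2, sp_r]
      exact hss
    rw [sp_o c1 c2]
    exact h.ne a h1
  · have hw := h.even w
    rw [filter_erase, filter_erase]
    by_cases c : w = v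
    · subst c
      have m1 : e ∈ E.filter fun e => node e = some w := mem_filter.2 ⟨he, ne⟩
      have m2 : f ∈ (E.filter fun e => node e = some w).erase e :=
        mem_erase.2 ⟨hef.symm, mem_filter.2 ⟨hf, nf⟩⟩
      have c1 := card_erase_add_one m1
      have c2 := card_erase_add_one m2
      rw [Nat.even_iff] at hw ⊢
      omega
    · have n1 : e ∉ E.filter fun e => node e = some w := fun hh =>
        c (Option.some.inj ((mem_filter.1 hh).2.symm.trans ne))
      have n2 : f ∉ E.filter fun e => node e = some w := fun hh =>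
        c (Option.some.inj ((mem_filter.1 hh).2.symm.trans nf))
      rwa [erase_eq_of_notMem n1, erase_eq_of_notMem n2]
  · obtain ⟨h1, h2, h3⟩ := (hm a).1 ha
    obtain ⟨p1, p2, p3, p4⟩ := h.par a h1 w hw
    have hle := hv a h1 w hw
    have c1 : z w ≠ σ e := fun hh => by
      have := p4 v (by rw [hh, h.inv e he, ne])
      omega
    have c2 : z w ≠ σ f := fun hh => by
      have := p4 v (by rw [hh, h.inv f hf, nf])
      omega
    rw [sp_o c1 c2, hm]
    refine ⟨⟨p1, ?_⟩, p2, p3, p4⟩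
    by_cases c : w = v
    · subst c
      exact hz a h1 h2 h3 hw
    · exact ⟨fun hh => c (Option.some.inj (p2.symm.trans (hh ▸ ne))),
        fun hh => c (Option.some.inj (p2.symm.trans (hh ▸ nf)))⟩

/-- The pair of the first end at a node may be given depth two. -/
theorem Con.raise (h : Con E σ node cp t δ r)
    (inj : ∀ e ∈ E, ∀ f ∈ E, node e ≠ none → node e = node f → cp e = cp f → e = f) {x : ε}
    (hx : x ∈ E) (nx : node x ≠ none) (hm : ∀ g ∈ E, node g = node x → cp x ≤ cp g) :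
    ∃ δ', Con E σ node cp t δ' r ∧ δ' x = 2 := by
  refine ⟨fun a => if a = x ∨ a = t x then 2 else δ a, ⟨h.mem, h.inv, h.ne, h.nd,
    fun a ha na => ?_, fun a ha b hb na nb h1 h2 => ?_, h.rk⟩, by simp⟩
  · have hd := h.dep a ha na
    have : (t a = x ∨ t a = t x) ↔ (a = x ∨ a = t x) := by
      constructor
      · rintro (hh | hh)
        · exact Or.inr (by rw [← hh, h.inv a ha na])
        · exact Or.inl (by rw [← h.inv a ha na, hh, h.inv x hx nx])
      · rintro (hh | hh)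
        · exact Or.inr (by rw [hh])
        · exact Or.inl (by rw [hh, h.inv x hx nx])
    simp only [this]
    split_ifs <;> omega
  · have hn := h.nest a ha b hb na nb h1 h2
    have hd := h.dep a ha na
    have c1 : b ≠ x := fun hh => by
      subst hh
      have := hm a ha nb.symm
      omega
    have c2 : b ≠ t x := fun hh => by
      subst hh
      have nax : node a = node x := nb.symm.trans (h.nd x hx nx)
      have hax : a ≠ x := fun e => by
        subst e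
        omega
      have l1 := hm a ha nax
      have l2 : cp a ≠ cp x := fun e => hax (inj a ha x hx na nax e)
      have := h.nest x hx a ha nx nax (by omega) h1
      have := h.dep x hx nx
      omega
    simp only [c1, c2, or_self, if_false]
    split_ifs <;> omega

/-- A split pair is put back. -/
theorem glue (h : Hyp E σ node cp z ρ) {v : ν} {e f : ε} (he : e ∈ E) (hf : f ∈ E)
    (hef : cp e < cp f) (hσ : σ e ≠ f) (ne : node e = some v) (nf : node f = some v)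
    (hc : Con ((E.erase e).erase f) (sp σ e f) node cp t δ r)
    (hg : ∀ g ∈ E, g ≠ e → g ≠ f → node g = some v → (cp g < cp e ∧ δ g = 2) ∨ cp f < cp g) :
    ∃ t δ r, Con E σ node cp t δ r := by
  have hne : e ≠ f := fun hh => by
    subst hh
    omega
  have hσ' : σ f ≠ e := fun hh => hσ (h.swap hf hh).symm
  have hm : ∀ a, a ∈ (E.erase e).erase f ↔ a ∈ E ∧ a ≠ e ∧ a ≠ f := fun a => by
    simp only [mem_erase]; tauto
  obtain ⟨T, Te, Tf, To⟩ : ∃ T : ε → ε, T e = f ∧ T f = e ∧ ∀ a, a ≠ e → a ≠ f → T a = t a :=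
    ⟨fun a => if a = e then f else if a = f then e else t a, by simp, by simp [hne.symm],
      fun a h1 h2 => by simp [h1, h2]⟩
  obtain ⟨D, De, Df, Do⟩ : ∃ D : ε → ℕ, D e = 1 ∧ D f = 1 ∧ ∀ a, a ≠ e → a ≠ f → D a = δ a :=
    ⟨fun a => if a = e then 1 else if a = f then 1 else δ a, by simp, by simp,
      fun a h1 h2 => by simp [h1, h2]⟩
  obtain ⟨K, Ke, Kf, Ko⟩ : ∃ K : ε → ℕ, K e = 2 * r (σ f) ∧ K f = 2 * r (σ e) ∧
      ∀ a, a ≠ e → a ≠ f → K a = 2 * r a + 1 :=
    ⟨fun a => if a = e then 2 * r (σ f) else if a = f then 2 * r (σ e) else 2 * r a + 1, by simp,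
      by simp [hne.symm], fun a h1 h2 => by simp [h1, h2]⟩
  have tri : ∀ a ∈ E, a = e ∨ a = f ∨ (a ≠ e ∧ a ≠ f ∧ a ∈ (E.erase e).erase f) := fun a ha => by
    rw [hm]; tauto
  have me : σ e ∈ (E.erase e).erase f := (hm _).2 ⟨h.mem e he, h.ne e he, hσ⟩
  have mf : σ f ∈ (E.erase e).erase f := (hm _).2 ⟨h.mem f hf, hσ', h.ne f hf⟩
  refine ⟨T, D, K, fun a ha na => ?_, fun a ha na => ?_, fun a ha na => ?_, fun a ha na => ?_,
    fun a ha na => ?_, fun a ha b hb na nb h1 h2 => ?_, fun a ha na => ?_⟩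
  · rcases tri a ha with rfl | rfl | ⟨h1, h2, h3⟩
    · rwa [Te]
    · rwa [Tf]
    · rw [To a h1 h2]
      exact ((hm _).1 (hc.mem a h3 na)).1
  · rcases tri a ha with rfl | rfl | ⟨h1, h2, h3⟩
    · rw [Te, Tf]
    · rw [Tf, Te]
    · have := (hm _).1 (hc.mem a h3 na)
      rw [To a h1 h2, To _ this.2.1 this.2.2, hc.inv a h3 na]
  · rcases tri a ha with rfl | rfl | ⟨h1, h2, h3⟩
    · rw [Te]
      exact hne.symm
    · rw [Tf]
      exact hne
    · rw [To a h1 h2]
      exact hc.ne a h3 na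
  · rcases tri a ha with rfl | rfl | ⟨h1, h2, h3⟩
    · rw [Te, ne, nf]
    · rw [Tf, ne, nf]
    · rw [To a h1 h2]
      exact hc.nd a h3 na
  · rcases tri a ha with rfl | rfl | ⟨h1, h2, h3⟩
    · rw [Te, De, Df]
      omega
    · rw [Tf, De, Df]
      omega
    · have := (hm _).1 (hc.mem a h3 na)
      rw [To a h1 h2, Do _ this.2.1 this.2.2, Do a h1 h2]
      exact hc.dep a h3 na
  · rcases tri a ha with rfl | rfl | ⟨a1, a2, a3⟩
    · rw [Te] at h2
      rcases tri b hb with rfl | rfl | ⟨b1, b2, b3⟩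
      · omega
      · omega
      · have := hg b hb b1 b2 (nb.trans ne)
        omega
    · rw [Tf] at h2
      omega
    · rw [To a a1 a2] at h2
      rw [Do a a1 a2]
      rcases tri b hb with rfl | rfl | ⟨b1, b2, b3⟩
      · have := hg a ha a1 a2 (nb.symm.trans ne)
        omega
      · have := hg a ha a1 a2 (nb.symm.trans nf)
        omega
      · rw [Do b b1 b2]
        exact hc.nest a a3 b b3 na nb h1 h2
  · rcases tri a ha with rfl | rfl | ⟨a1, a2, a3⟩
    · have k := hc.rk _ mf (by rwa [sp_r])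
      have m := (hm _).1 (hc.mem _ me na)
      rw [sp_r] at k
      rw [To _ (h.ne a ha) hσ, Ko _ m.2.1 m.2.2, Ke]
      omega
    · have k := hc.rk _ me (by rwa [sp_l])
      have m := (hm _).1 (hc.mem _ mf na)
      rw [sp_l] at k
      rw [To _ hσ' (h.ne a ha), Ko _ m.2.1 m.2.2, Kf]
      omega
    · rw [Ko a a1 a2]
      by_cases c1 : a = σ e
      · rw [c1, h.inv e he, Te, Kf]
        omega
      by_cases c2 : a = σ f
      · rw [c2, h.inv f hf, Tf, Ke]
        omega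
      have s1 : σ a ≠ e := fun hh => c1 (h.swap ha hh)
      have s2 : σ a ≠ f := fun hh => c2 (h.swap ha hh)
      have k := hc.rk a a3 (by rwa [sp_o c1 c2])
      have m := (hm _).1 (hc.mem _ ((hm _).2 ⟨h.mem a ha, s1, s2⟩) na)
      rw [sp_o c1 c2] at k
      rw [To _ s1 s2, Ko _ m.2.1 m.2.2]
      omega

/-- Step 1: the pairing of depth two. -/
theorem step1 (n : ℕ) : ∀ (E : Finset ε) (σ : ε → ε), E.card ≤ n → Hyp E σ node cp z ρ →
    ∃ t δ r, Con E σ node cp t δ r := by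
  induction n with
  | zero =>
    intro E σ hn _
    obtain rfl : E = ∅ := card_eq_zero.1 (by omega)
    exact ⟨id, fun _ => 1, fun _ => 0, by simp, by simp, by simp, by simp, by simp, by simp,
      by simp⟩
  | succ n ih =>
    intro E σ hn h
    by_cases h0 : ∀ e ∈ E, node e = none
    · exact ⟨id, fun _ => 1, fun _ => 0, fun e he => by simp [h0 e he],
        fun e he => by simp [h0 e he], fun e he => by simp [h0 e he],
        fun e he => by simp [h0 e he], fun e he => by simp [h0 e he],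
        fun e he f hf => by simp [h0 e he], fun e he => by simp [h0 _ (h.mem e he)]⟩
    push Not at h0
    obtain ⟨y, hy, hmax⟩ := exists_max_image (E.filter fun e => node e ≠ none)
      (fun e => (node e).elim 0 ρ) (by
        obtain ⟨e, he, hn⟩ := h0
        exact ⟨e, mem_filter.2 ⟨he, hn⟩⟩)
    obtain ⟨v, hv⟩ := Option.ne_none_iff_exists'.1 (mem_filter.1 hy).2
    have hρ : ∀ g ∈ E, ∀ w, node g = some w → ρ w ≤ ρ v := fun g hg w hw => by
      have := hmax g (mem_filter.2 ⟨hg, by simp [hw]⟩)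
      simpa [hw, hv] using this
    have hev := h.even v
    obtain ⟨p1, p2, -, p4⟩ := h.par y (mem_filter.1 hy).1 v hv
    have p3 : ∀ g ∈ E, node g = some v → cp g ≤ cp (z v) := fun g hg ng => (h.par g hg v ng).2.2.1
    set A := E.filter fun e => node e = some v with hA
    have mA : ∀ a, a ∈ A ↔ a ∈ E ∧ node a = some v := fun a => mem_filter
    have iA : ∀ a ∈ E, ∀ b ∈ E, node a = some v → node b = some v → a ≠ b → cp a ≠ cp b :=
      fun a ha b hb na nb hab hh => hab (h.inj a ha b hb (by simp [na]) (na.trans nb.symm) hh)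
    obtain ⟨x1, m1, k1⟩ := exists_min_image A cp ⟨z v, (mA _).2 ⟨p1, p2⟩⟩
    have c1 := card_erase_add_one m1
    obtain ⟨x2, m2, k2⟩ := exists_min_image (A.erase x1) cp (by
      rw [← card_pos]
      rw [Nat.even_iff] at hev
      omega)
    have c2 := card_erase_add_one m2
    obtain ⟨e1, n1⟩ := (mA _).1 m1
    obtain ⟨d21, m2'⟩ := mem_erase.1 m2
    obtain ⟨e2, n2⟩ := (mA _).1 m2'
    have card2 : ∀ {e f : ε}, e ∈ E → ((E.erase e).erase f).card ≤ n := fun {e f} he => by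
      have := card_erase_add_one he
      have := card_erase_le (s := E.erase e) (a := f)
      omega
    have l12 : cp x1 < cp x2 := lt_of_le_of_ne (k1 _ m2') (iA _ e1 _ e2 n1 n2 d21.symm)
    have big : ∀ g ∈ E, g ≠ x1 → g ≠ x2 → node g = some v → cp x2 < cp g := fun g hg g1 g2 ng =>
      lt_of_le_of_ne (k2 g (mem_erase.2 ⟨g1, (mA _).2 ⟨hg, ng⟩⟩)) (iA _ e2 _ hg n2 ng g2.symm)
    by_cases hσ : σ x1 = x2
    · have z1 : z v ≠ x1 := fun hh => by
        have := p4 v (by rw [hh, hσ, n2])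
        omega
      have hσ2 : σ x2 = x1 := (h.swap e1 hσ).symm
      have z2 : z v ≠ x2 := fun hh => by
        have := p4 v (by rw [hh, hσ2, n1])
        omega
      obtain ⟨x3, m3, k3⟩ := exists_min_image ((A.erase x1).erase x2) cp
        ⟨z v, mem_erase.2 ⟨z2, mem_erase.2 ⟨z1, (mA _).2 ⟨p1, p2⟩⟩⟩⟩
      have c3 := card_erase_add_one m3
      obtain ⟨d32, m3'⟩ := mem_erase.1 m3
      obtain ⟨d31, m3''⟩ := mem_erase.1 m3'
      obtain ⟨e3, n3⟩ := (mA _).1 m3''
      have big3 : ∀ g ∈ E, g ≠ x1 → g ≠ x2 → g ≠ x3 → node g = some v → cp x3 < cp g :=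
        fun g hg g1 g2 g3 ng => lt_of_le_of_ne
          (k3 g (mem_erase.2 ⟨g2, mem_erase.2 ⟨g1, (mA _).2 ⟨hg, ng⟩⟩⟩))
          (iA _ e3 _ hg n3 ng g3.symm)
      have z3 : z v ≠ x3 := fun hh => by
        obtain ⟨g, hg⟩ : (((A.erase x1).erase x2).erase x3).Nonempty := by
          rw [← card_pos]
          rw [Nat.even_iff] at hev
          omega
        simp only [mem_erase, mA] at hg
        have := big3 g hg.2.2.2.1 hg.2.2.1 hg.2.1 hg.1 hg.2.2.2.2
        have := p3 g hg.2.2.2.1 hg.2.2.2.2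
        rw [hh] at this
        omega
      have s23 : σ x2 ≠ x3 := by
        rw [hσ2]
        exact d31.symm
      have h' := h.split e2 e3 d32.symm s23 n2 n3 hρ fun _ _ _ _ _ => ⟨z2, z3⟩
      obtain ⟨t, δ, r, hc⟩ := ih _ _ (card2 e2) h'
      obtain ⟨δ', hc', hδ⟩ := hc.raise h'.inj (x := x1)
        (mem_erase.2 ⟨d31.symm, mem_erase.2 ⟨d21.symm, e1⟩⟩) (by simp [n1]) fun g hg ng =>
          k1 g ((mA _).2 ⟨mem_of_mem_erase (mem_of_mem_erase hg), ng.trans n1⟩)
      refine glue h e2 e3 (big _ e3 d31 d32 n3) s23 n2 n3 hc' fun g hg g2 g3 ng => ?_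
      by_cases g1 : g = x1
      · exact Or.inl ⟨g1 ▸ l12, g1 ▸ hδ⟩
      · exact Or.inr (big3 g hg g1 g2 g3 ng)
    · have h' := h.split e1 e2 d21.symm hσ n1 n2 hρ fun g hg g1 g2 ng => by
        have b1 := big g hg g1 g2 ng
        have b2 := p3 g hg ng
        constructor
        · intro hh
          rw [hh] at b2
          omega
        · intro hh
          rw [hh] at b2
          omega
      obtain ⟨t, δ, r, hc⟩ := ih _ _ (card2 e1) h'
      exact glue h e1 e2 l12 hσ n1 n2 hc fun g hg g1 g2 ng => Or.inr (big g hg g1 g2 ng)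

/-- The node `v` reaches a free end in at most `n` steps. -/
def Lev (E : Finset ε) (σ : ε → ε) (node : ε → Option ν) : ℕ → ν → Prop
  | 0, _ => False
  | n + 1, v => ∃ e ∈ E, node e = some v ∧ ∀ w, node (σ e) = some w → Lev E σ node n w

theorem lev {pos : ε → ℕ} (h : Ends E σ node pos) {e : ε} (he : e ∈ E) :
    ∃ n, ∀ w, node e = some w → Lev E σ node n w := by
  obtain ⟨s, -, hs, hr⟩ := h.reach e he
  induction hr using Relation.ReflTransGen.head_induction_on with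
  | refl => exact ⟨0, fun w hw => by simp [hs] at hw⟩
  | @head a b hab _ ih =>
    rcases hab with rfl | ⟨hb, -, hn⟩
    · obtain ⟨n, hn⟩ := ih (h.mem a he)
      exact ⟨n + 1, fun w hw => ⟨a, he, hw, hn⟩⟩
    · obtain ⟨n, hn'⟩ := ih hb
      exact ⟨n, fun w hw => hn' w (hn.trans hw)⟩

/-- Step 0: ranks and parent ends. -/
theorem step0 [Nonempty ε] {pos : ε → ℕ} (h : Ends E σ node pos) :
    ∃ (z : ν → ε) (ρ : ν → ℕ), ∀ e ∈ E, ∀ v, node e = some v → z v ∈ E ∧ node (z v) = some v ∧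
      ∀ w, node (σ (z v)) = some w → ρ w < ρ v := by
  have key : ∀ v, ∃ x : ε, (∃ n, Lev E σ node n v) → x ∈ E ∧ node x = some v ∧
      ∀ w, node (σ x) = some w → sInf {n | Lev E σ node n w} < sInf {n | Lev E σ node n v} := by
    intro v
    by_cases hv : ∃ n, Lev E σ node n v
    · have hm : Lev E σ node (sInf {n | Lev E σ node n v}) v :=
        Nat.sInf_mem (s := {n | Lev E σ node n v}) hv
      generalize sInf {n | Lev E σ node n v} = m at hm
      cases m with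
      | zero => exact hm.elim
      | succ m =>
        obtain ⟨x, h1, h2, h3⟩ := hm
        exact ⟨x, fun _ => ⟨h1, h2, fun w hw => Nat.lt_succ_of_le (Nat.sInf_le (h3 w hw))⟩⟩
    · exact ⟨Classical.arbitrary ε, fun hh => absurd hh hv⟩
  choose z hz using key
  refine ⟨z, fun v => sInf {n | Lev E σ node n v}, fun e he v hv => hz v ?_⟩
  obtain ⟨n, hn⟩ := lev h he
  exact ⟨n, hn v hv⟩

end pairing

section geo

/-- The row that joins the two columns of a pair. -/
def row (hi d : ℕ) : ℕ := if hi < 4 then 8 - d else d - 1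

/-- The point `p` lies on the part of the column `y` between the row `R` and the boundary. -/
def OnCol (y R : ℕ) (p : ℕ × ℕ) : Prop :=
  p.2 = y ∧ ((y < 4 ∧ R ≤ p.1 ∧ p.1 ≤ 7) ∨ (4 ≤ y ∧ p.1 ≤ R))

/-- The point `p` lies on the curve with columns `lo`, `hi` and row `R`. -/
def OnArc (lo hi R : ℕ) (p : ℕ × ℕ) : Prop :=
  (p.1 = R ∧ lo ≤ p.2 ∧ p.2 ≤ hi) ∨ OnCol lo R p ∨ OnCol hi R p

theorem conn_seg {V : Type} {G : SimpleGraph V} {f : ℕ → V} {lo hi : ℕ} (h : lo ≤ hi)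
    (hA : ∀ j, G.Adj (f j) (f (j + 1))) :
    ∃ S, Conn G S ∧ ∀ p, p ∈ S ↔ ∃ j, lo ≤ j ∧ j ≤ hi ∧ f j = p :=
  ⟨_, conn_segment h fun j _ _ => hA j, fun p => by simp [and_assoc]⟩

theorem conn_un {V : Type} {G : SimpleGraph V} {S T : Finset V} {a : V} (hS : Conn G S)
    (hT : Conn G T) (h1 : a ∈ S) (h2 : a ∈ T) : ∃ U, Conn G U ∧ ∀ p, p ∈ U ↔ p ∈ S ∨ p ∈ T :=
  ⟨_, hS.union hT h1 h2, fun _ => mem_union⟩

theorem col_ex (y R : ℕ) (hR : R ≤ 7) : ∃ S, Conn gridN S ∧ ∀ p, p ∈ S ↔ OnCol y R p := by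
  have hA : ∀ j, gridN.Adj (j, y) (j + 1, y) := fun j => by simp [gridN]
  by_cases hy : y < 4
  · obtain ⟨S, h1, h2⟩ := conn_seg (f := fun j => (j, y)) hR hA
    refine ⟨S, h1, fun p => (h2 p).trans ⟨?_, fun h => ⟨p.1, ?_, ?_, ?_⟩⟩⟩
    · rintro ⟨j, a, b, rfl⟩
      exact ⟨rfl, Or.inl ⟨hy, a, b⟩⟩
    · have := h.2
      omega
    · have := h.2
      omega
    · rw [← h.1]
  · obtain ⟨S, h1, h2⟩ := conn_seg (f := fun j => (j, y)) (Nat.zero_le R) hA
    refine ⟨S, h1, fun p => (h2 p).trans ⟨?_, fun h => ⟨p.1, ?_, ?_, ?_⟩⟩⟩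
    · rintro ⟨j, a, b, rfl⟩
      exact ⟨rfl, Or.inr ⟨by omega, b⟩⟩
    · omega
    · have := h.2
      omega
    · rw [← h.1]

theorem arc_ex (lo hi R : ℕ) : ∃ S : Finset (ℕ × ℕ), lo ≤ hi → R ≤ 7 →
    Conn gridN S ∧ ∀ p, p ∈ S ↔ OnArc lo hi R p := by
  by_cases h : lo ≤ hi ∧ R ≤ 7
  swap
  · exact ⟨∅, fun h1 h2 => absurd ⟨h1, h2⟩ h⟩
  obtain ⟨h1, h2⟩ := h
  obtain ⟨S, s1, s2⟩ := conn_seg (G := gridN) (f := fun j => (R, j)) h1 fun j => by simp [gridN]
  obtain ⟨A, a1, a2⟩ := col_ex lo R h2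
  obtain ⟨C, c1, c2⟩ := col_ex hi R h2
  obtain ⟨U, u1, u2⟩ := conn_un s1 a1 (a := (R, lo)) ((s2 _).2 ⟨lo, le_rfl, h1, rfl⟩)
    ((a2 _).2 ⟨rfl, by omega⟩)
  obtain ⟨X, x1, x2⟩ := conn_un u1 c1 (a := (R, hi))
    ((u2 _).2 (Or.inl ((s2 _).2 ⟨hi, h1, le_rfl, rfl⟩))) ((c2 _).2 ⟨rfl, by omega⟩)
  refine ⟨X, fun _ _ => ⟨x1, fun p => ?_⟩⟩
  rw [x2, u2, s2, a2, c2, or_assoc]
  refine or_congr_left ⟨?_, fun h => ⟨p.2, h.2.1, h.2.2, ?_⟩⟩
  · rintro ⟨j, a, b, rfl⟩
    exact ⟨rfl, a, b⟩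
  · rw [← h.1]

/-- The position of a column on the boundary. -/
def ps (y : ℕ) : ℕ := if y < 4 then 3 - y else y

theorem ps_spec (y : ℕ) : (y < 4 ∧ ps y + y = 3) ∨ (4 ≤ y ∧ ps y = y) := by
  unfold ps
  split_ifs <;> omega

theorem row_spec (y d : ℕ) : (y < 4 ∧ row y d = 8 - d) ∨ (4 ≤ y ∧ row y d = d - 1) := by
  unfold row
  split_ifs <;> omega

/-- Nothing of depth at least `d` lies between the columns `a` and `b`. -/
def Btw (a b d c d' : ℕ) : Prop :=
  (ps a < ps c → ps c < ps b → d' < d) ∧ (ps b < ps c → ps c < ps a → d' < d)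

theorem four {u v u' v' d d' : ℕ} (h : u < v) (h' : u' < v') (n1 : u ≠ u') (n2 : u ≠ v')
    (n3 : v ≠ u') (n4 : v ≠ v') (k1 : u < u' → u' < v → d' < d) (k2 : u < v' → v' < v → d' < d)
    (k3 : u' < u → u < v' → d < d') (k4 : u' < v → v < v' → d < d') :
    v < u' ∨ v' < u ∨ (u < u' ∧ v' < v ∧ d' < d) ∨ (u' < u ∧ v < v' ∧ d < d') := by
  omega

theorem ps_ne {a b : ℕ} (h : a ≠ b) : ps a ≠ ps b := by
  have := ps_spec a
  have := ps_spec b
  omega

theorem arc_disj {a b d a' b' d' : ℕ} (h : a < b) (h' : a' < b') (n1 : a ≠ a') (n2 : a ≠ b')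
    (n3 : b ≠ a') (n4 : b ≠ b') (d1 : 1 ≤ d ∧ d ≤ 4) (d2 : 1 ≤ d' ∧ d' ≤ 4)
    (k1 : Btw a b d a' d') (k2 : Btw a b d b' d') (k3 : Btw a' b' d' a d)
    (k4 : Btw a' b' d' b d) {p : ℕ × ℕ} (m : OnArc a b (row b d) p)
    (m' : OnArc a' b' (row b' d') p) : False := by
  unfold OnArc OnCol at m m'
  have s1 := ps_spec a
  have s2 := ps_spec b
  have s3 := ps_spec a'
  have s4 := ps_spec b'
  have q1 := ps_ne n1
  have q2 := ps_ne n2
  have q3 := ps_ne n3
  have q4 := ps_ne n4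
  obtain r1 | r1 := row_spec b d <;> obtain r2 | r2 := row_spec b' d'
  · have k := four (by omega) (by omega) q4 q3 q2 q1 k2.2 k1.2 k4.2 k3.2
    replace s1 := s1.resolve_right (by omega)
    replace s2 := s2.resolve_right (by omega)
    replace s3 := s3.resolve_right (by omega)
    replace s4 := s4.resolve_right (by omega)
    clear k1 k2 k3 k4 q1 q2 q3 q4
    omega
  · have k := four (by omega) (by omega) q3 q4 q1 q2 k1.2 k2.2 k4.1 k3.1
    replace s1 := s1.resolve_right (by omega)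
    replace s2 := s2.resolve_right (by omega)
    replace s4 := s4.resolve_left (by omega)
    clear k1 k2 k3 k4 q1 q2 q3 q4
    rcases s3 with s3 | s3 <;> omega
  · have k := four (by omega) (by omega) q2 q1 q4 q3 k2.1 k1.1 k3.2 k4.2
    replace s2 := s2.resolve_left (by omega)
    replace s3 := s3.resolve_right (by omega)
    replace s4 := s4.resolve_right (by omega)
    clear k1 k2 k3 k4 q1 q2 q3 q4
    rcases s1 with s1 | s1 <;> omega
  · have k := four (by omega) (by omega) q1 q2 q3 q4 k1.1 k2.1 k3.1 k4.1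
    replace s2 := s2.resolve_left (by omega)
    replace s4 := s4.resolve_left (by omega)
    clear k1 k2 k3 k4 q1 q2 q3 q4
    rcases s1 with s1 | s1 <;> rcases s3 with s3 | s3 <;> omega

theorem Btw.symm {a b d c d' : ℕ} (h : Btw a b d c d') : Btw b a d c d' := ⟨h.2, h.1⟩

theorem arc_disj' {a b d a' b' d' : ℕ} (h : a ≠ b) (h' : a' ≠ b') (n1 : a ≠ a') (n2 : a ≠ b')
    (n3 : b ≠ a') (n4 : b ≠ b') (d1 : 1 ≤ d ∧ d ≤ 4) (d2 : 1 ≤ d' ∧ d' ≤ 4)
    (k1 : Btw a b d a' d') (k2 : Btw a b d b' d') (k3 : Btw a' b' d' a d)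
    (k4 : Btw a' b' d' b d) {p : ℕ × ℕ} (m : OnArc (min a b) (max a b) (row (max a b) d) p)
    (m' : OnArc (min a' b') (max a' b') (row (max a' b') d') p) : False := by
  rcases lt_or_gt_of_ne h with l | l <;> rcases lt_or_gt_of_ne h' with l' | l'
  · rw [min_eq_left l.le, max_eq_right l.le] at m
    rw [min_eq_left l'.le, max_eq_right l'.le] at m'
    exact arc_disj l l' n1 n2 n3 n4 d1 d2 k1 k2 k3 k4 m m'
  · rw [min_eq_left l.le, max_eq_right l.le] at m
    rw [min_eq_right l'.le, max_eq_left l'.le] at m'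
    exact arc_disj l l' n2 n1 n4 n3 d1 d2 k2 k1 k3.symm k4.symm m m'
  · rw [min_eq_right l.le, max_eq_left l.le] at m
    rw [min_eq_left l'.le, max_eq_right l'.le] at m'
    exact arc_disj l l' n3 n4 n1 n2 d1 d2 k1.symm k2.symm k4 k3 m m'
  · rw [min_eq_right l.le, max_eq_left l.le] at m
    rw [min_eq_right l'.le, max_eq_left l'.le] at m'
    exact arc_disj l l' n4 n3 n2 n1 d1 d2 k2.symm k1.symm k4.symm k3.symm m m'

end geo

end Pair

theorem pair : PAIRStmt := by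
  intro ε ν E σ node pos h
  rcases E.eq_empty_or_nonempty with rfl | ⟨e0, -⟩
  · exact ⟨id, fun _ => 1, fun _ => 0, ⟨by simp, by simp, by simp, by simp, by simp, by simp⟩,
      by simp⟩
  have : Nonempty ε := ⟨e0⟩
  obtain ⟨z, ρ, hz⟩ := Pair.step0 h
  obtain ⟨B, hB⟩ : ∃ B, ∀ e ∈ E, pos e < B :=
    ⟨E.sup pos + 1, fun e he => Nat.lt_succ_of_le (le_sup (f := pos) he)⟩
  obtain ⟨Z, Z1, Z2⟩ : ∃ Z : ε → ℕ, (∀ e f, node e = node f → Z e = Z f) ∧
      ∀ e v, node e = some v → Z e = pos (z v) :=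
    ⟨fun e => (node e).elim 0 fun v => pos (z v), fun e f hh => by simp only [hh],
      fun e v hh => by simp [hh]⟩
  obtain ⟨cp, hcp⟩ : ∃ cp : ε → ℕ, ∀ e, (Z e < pos e ∧ cp e = pos e) ∨
      (pos e ≤ Z e ∧ cp e = pos e + B) :=
    ⟨fun e => if Z e < pos e then pos e else pos e + B, fun e => by
      dsimp only
      split_ifs <;> omega⟩
  have hy : Pair.Hyp E σ node cp z ρ := by
    refine ⟨h.mem, h.inv, h.ne, fun e he f hf ne nf hh => h.inj e he f hf ne nf ?_, h.even,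
      fun e he v hv => ?_⟩
    · have := hcp e
      have := hcp f
      have := hB e he
      have := hB f hf
      omega
    · obtain ⟨p1, p2, p3⟩ := hz e he v hv
      refine ⟨p1, p2, ?_, p3⟩
      have := hcp e
      have := hcp (z v)
      have := hB e he
      have := Z2 e v hv
      have := Z2 _ v p2
      omega
  obtain ⟨t, δ, r, hc⟩ := Pair.step1 E.card E σ le_rfl hy
  obtain ⟨D, hD⟩ : ∃ D : ε → ℕ, ∀ e,
      (((Z e < pos e ∧ Z e < pos (t e)) ∨ (pos e ≤ Z e ∧ pos (t e) ≤ Z e)) ∧ D e = δ e) ∨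
      (((Z e < pos e ∧ pos (t e) ≤ Z e) ∨ (pos e ≤ Z e ∧ Z e < pos (t e))) ∧ D e = 5 - δ e) :=
    ⟨fun e => if (Z e < pos e ∧ Z e < pos (t e)) ∨ (pos e ≤ Z e ∧ pos (t e) ≤ Z e) then δ e
      else 5 - δ e, fun e => by
        dsimp only
        split_ifs <;> omega⟩
  refine ⟨t, D, r, ⟨hc.mem, hc.inv, hc.ne, hc.nd, fun e he ne => ?_,
    fun e he f hf ne nf h1 h2 => ?_⟩, hc.rk⟩
  · have d1 := hD e
    have d2 := hD (t e)
    have := hc.dep e he ne
    rw [hc.inv e he ne, Z1 _ _ (hc.nd e he ne)] at d2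
    omega
  · have nf' : node f ≠ none := by rwa [nf]
    have te := hc.mem e he ne
    have tf := hc.mem f hf nf'
    have ntf := hc.nd f hf nf'
    have n1 := hc.nest e he f hf ne nf
    have n2 := hc.nest f hf (t e) te nf' ((hc.nd e he ne).trans nf.symm)
    have n3 := hc.nest (t f) tf e he (by rwa [ntf]) (nf.symm.trans ntf.symm)
    rw [hc.inv f hf nf'] at n3
    have c1 := hcp e
    have c2 := hcp f
    have c3 := hcp (t e)
    have c4 := hcp (t f)
    have d1 := hD e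
    have d2 := hD f
    rw [Z1 _ _ nf] at c2 d2
    rw [Z1 _ _ (hc.nd e he ne)] at c3
    rw [Z1 _ _ (ntf.trans nf)] at c4
    have := hc.dep e he ne
    have := hc.dep f hf nf'
    have := hB e he
    have := hB f hf
    have := hB _ te
    have := hB _ tf
    omega

theorem geo : GEOStmt := by
  intro ε F cl Y t δ hY hi h
  choose S hS using Pair.arc_ex
  have sn : (some () : Option Unit) ≠ none := by simp
  have mem : ∀ e ∈ F, t e ∈ F := fun e he => h.mem e he sn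
  have inv : ∀ e ∈ F, t (t e) = e := fun e he => h.inv e he sn
  have dep : ∀ e ∈ F, δ (t e) = δ e ∧ 1 ≤ δ e ∧ δ e ≤ 4 := fun e he => h.dep e he sn
  have key : ∀ e ∈ F, Conn gridN (S (min (cl e) (cl (t e))) (max (cl e) (cl (t e)))
      (Pair.row (max (cl e) (cl (t e))) (δ e))) ∧ ∀ p, p ∈ S (min (cl e) (cl (t e)))
      (max (cl e) (cl (t e))) (Pair.row (max (cl e) (cl (t e))) (δ e)) ↔
      Pair.OnArc (min (cl e) (cl (t e))) (max (cl e) (cl (t e)))
        (Pair.row (max (cl e) (cl (t e))) (δ e)) p := fun e he =>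
    hS _ _ _ min_le_max (by
      have := Pair.row_spec (max (cl e) (cl (t e))) (δ e)
      have := dep e he
      omega)
  have btw : ∀ e ∈ F, ∀ f ∈ F, Pair.Btw (cl e) (cl (t e)) (δ e) (cl f) (δ f) := by
    intro e he f hf
    refine ⟨fun h1 h2 => h.nest e he f hf sn rfl h1 h2, fun h1 h2 => ?_⟩
    rw [← (dep e he).1]
    exact h.nest (t e) (mem e he) f hf sn rfl h1 (by
      rw [inv e he]
      exact h2)
  have dif : ∀ e ∈ F, ∀ f ∈ F, e ≠ f → cl e ≠ cl f := fun e he f hf hn hh => hn (hi e he f hf hh)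
  refine ⟨fun e => S (min (cl e) (cl (t e))) (max (cl e) (cl (t e)))
    (Pair.row (max (cl e) (cl (t e))) (δ e)), fun e he => ⟨?_, (key e he).1, fun p hp => ?_, ?_⟩,
    fun e he f hf h1 h2 => disjoint_left.2 fun p m m' => ?_⟩
  · dsimp only
    rw [inv e he, (dep e he).1, min_comm, max_comm]
  · have m := ((key e he).2 p).1 hp
    have := Pair.row_spec (max (cl e) (cl (t e))) (δ e)
    have := dep e he
    have := hY e he
    have := hY _ (mem e he)
    unfold Pair.OnArc Pair.OnCol at m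
    omega
  · refine ((key e he).2 _).2 ?_
    have := Pair.row_spec (max (cl e) (cl (t e))) (δ e)
    have := dep e he
    unfold Pair.OnArc Pair.OnCol
    dsimp only
    split_ifs <;> omega
  · have h3 : e ≠ t f := fun hh => h2 (by rw [hh, inv f hf])
    have h4 : t e ≠ t f := fun hh => h1 (by rw [← inv f hf, ← hh, inv e he])
    have k2 := btw e he (t f) (mem f hf)
    have k4 := btw f hf (t e) (mem e he)
    rw [(dep f hf).1] at k2
    rw [(dep e he).1] at k4
    exact Pair.arc_disj' (dif _ he _ (mem e he) (h.ne e he sn).symm)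
      (dif _ hf _ (mem f hf) (h.ne f hf sn).symm) (dif _ he _ hf h1.symm)
      (dif _ he _ (mem f hf) h3) (dif _ (mem e he) _ hf h2.symm)
      (dif _ (mem e he) _ (mem f hf) h4) (dep e he).2 (dep f hf).2 (btw e he f hf) k2
      (btw f hf e he) k4 (((key e he).2 p).1 m) (((key f hf).2 p).1 m')

end Pool.Agent.MP_7be75d_co.Gen

end MrgPart1

-- ======== part 2: formerly Pool.Agent.MP_7be75d_co.Gen.Sim
section MrgPart2

/-! Module SIM: two stacks simulate a grid of cells. -/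

namespace Pool.Agent.MP_7be75d_co.Gen

open Finset
open scoped Classical

namespace Sim

/-! ### Moving tokens -/

section moves

variable {ω : Type} {Γ : SimpleGraph ω} {N : ℕ} {x x' : ω}

/-- One token moves along a connected set that contains no other token. -/
def Mv (Γ : SimpleGraph ω) (N : ℕ) (p q : ℕ → ω) : Prop :=
  ∃ s0 < N, ∃ Q, Conn Γ Q ∧ p s0 ∈ Q ∧ q s0 ∈ Q ∧ ∀ s < N, s ≠ s0 → p s ∉ Q ∧ q s = p s

theorem Mv.symm {p q : ℕ → ω} (h : Mv Γ N p q) : Mv Γ N q p := by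
  obtain ⟨s0, h0, Q, h1, h2, h3, h4⟩ := h
  exact ⟨s0, h0, Q, h1, h3, h2, fun s hs hn =>
    ⟨(h4 s hs hn).2 ▸ (h4 s hs hn).1, (h4 s hs hn).2.symm⟩⟩

/-- A sequence of `t` moves. -/
inductive Reach (Γ : SimpleGraph ω) (N : ℕ) : ℕ → (ℕ → ω) → (ℕ → ω) → Prop
  | refl (p : ℕ → ω) : Reach Γ N 0 p p
  | tail {t : ℕ} {p q r : ℕ → ω} : Reach Γ N t p q → Mv Γ N q r → Reach Γ N (t + 1) p r

theorem Reach.head {t : ℕ} {p q r : ℕ → ω} (h : Reach Γ N t q r) (h' : Mv Γ N p q) :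
    Reach Γ N (t + 1) p r := by
  induction h with
  | refl => exact (Reach.refl p).tail h'
  | tail _ h2 ih => exact (ih h').tail h2

theorem Reach.symm {t : ℕ} {p q : ℕ → ω} (h : Reach Γ N t p q) : Reach Γ N t q p := by
  induction h with
  | refl => exact Reach.refl _
  | tail _ h2 ih => exact ih.head h2.symm

/-- An enumeration of a stack with connected initial segments. -/
structure Enum (Γ : SimpleGraph ω) (z : ω) (A : Finset ω) (N : ℕ) (a : ℕ → ω) : Prop where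
  mem : ∀ i < N, a i ∈ A
  inj : ∀ i < N, ∀ j < N, a i = a j → i = j
  conn : ∀ i ≤ N, Conn Γ (insert z ((range i).image a))

theorem exists_enum' {z : ω} {A : Finset ω} (h : Conn Γ (insert z A)) (hz : z ∉ A)
    (hN : N ≤ A.card) : ∃ a, Enum Γ z A N a := by
  induction N with
  | zero =>
    exact ⟨fun _ => z, by simp, by simp, fun i hi => by
      simpa [Nat.le_zero.1 hi] using Conn.singleton z⟩
  | succ N ih =>
    obtain ⟨a, h1, h2, h3⟩ := ih (by omega)
    obtain ⟨b, hb, hb'⟩ : ∃ b ∈ A, b ∉ (range N).image a :=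
      exists_mem_notMem_of_card_lt_card (card_image_le.trans_lt (by simpa using hN))
    obtain ⟨u, y, hu, hy, -, hy', huy⟩ := h.exit (T := insert z ((range N).image a))
      (mem_insert_self _ _) (mem_insert_self _ _) (mem_insert_of_mem hb)
      (by simp only [mem_insert, not_or]; exact ⟨fun e => hz (e ▸ hb), hb'⟩)
    simp only [mem_insert, not_or, mem_image, mem_range, not_exists, not_and] at hy
    have him : ∀ i ≤ N, (range i).image (Function.update a N y) = (range i).image a :=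
      fun i hi => image_congr fun j hj => Function.update_of_ne
        (by simp only [coe_range, Set.mem_Iio] at hj; omega) _ _
    refine ⟨Function.update a N y, fun i hi => ?_, fun i hi j hj e => ?_, fun i hi => ?_⟩
    · rcases Nat.lt_succ_iff_lt_or_eq.1 hi with hi | rfl
      · rw [Function.update_of_ne hi.ne]; exact h1 i hi
      · rw [Function.update_self]; exact (mem_insert.1 hy').resolve_left hy.1
    · rcases Nat.lt_succ_iff_lt_or_eq.1 hi with hi | rfl <;>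
        rcases Nat.lt_succ_iff_lt_or_eq.1 hj with hj | rfl
      · rw [Function.update_of_ne hi.ne, Function.update_of_ne hj.ne] at e
        exact h2 i hi j hj e
      · rw [Function.update_of_ne hi.ne, Function.update_self] at e
        exact absurd e (hy.2 i hi)
      · rw [Function.update_of_ne hj.ne, Function.update_self] at e
        exact absurd e.symm (hy.2 j hj)
      · rfl
    · rcases Nat.le_succ_iff.1 hi with hi | rfl
      · rw [him i hi]; exact h3 i hi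
      · rw [range_add_one, image_insert, Function.update_self, him N le_rfl, insert_comm]
        exact (h3 N le_rfl).insert hu huy

theorem Enum.mem_iff {z : ω} {A : Finset ω} {a : ℕ → ω} (h : Enum Γ z A N a) {i j : ℕ}
    (hi : i < N) (hj : j ≤ N) : a i ∈ (range j).image a ↔ i < j := by
  simp only [mem_image, mem_range]
  exact ⟨fun ⟨k, hk, e⟩ => h.inj k (by omega) i hi e ▸ hk, fun h' => ⟨i, h', rfl⟩⟩

theorem Enum.sub {z : ω} {A : Finset ω} {a : ℕ → ω} (h : Enum Γ z A N a) {j : ℕ} (hj : j ≤ N) :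
    (range j).image a ⊆ A := fun v hv => by
  obtain ⟨k, hk, rfl⟩ := mem_image.1 hv
  exact h.mem k ((mem_range.1 hk).trans_le hj)

theorem Enum.conn2 {z : ω} {A : Finset ω} {a : ℕ → ω} (h : Enum Γ z A N a) (hx : Γ.Adj x x')
    (hz : z = x ∨ z = x') {j : ℕ} (hj : j ≤ N) : Conn Γ ({x, x'} ∪ (range j).image a) := by
  have hm : z ∈ ({x, x'} : Finset ω) := by simpa using hz
  have := (Conn.pair hx).union (h.conn j hj) hm (mem_insert_self _ _)
  rwa [union_insert, insert_eq_of_mem (mem_union_left _ hm)] at this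

/-- Every pair of consecutive tokens can be brought to the edge `x' x`. -/
def Sched (Γ : SimpleGraph ω) (x x' : ω) (N : ℕ) (home : ℕ → ω) : Prop :=
  (∀ s < N, ∀ s' < N, home s = home s' → s = s') ∧
    ∀ ρ, ρ + 1 < N → ∃ g, g ρ = x' ∧ g (ρ + 1) = x ∧ Reach Γ N (ρ + 3) home g

/-- The first `k` tokens are on the second stack. -/
def conf (a b : ℕ → ω) (N k : ℕ) : ℕ → ω := fun s => if s < k then b (N - 1 - s) else a s

theorem sched_of {A B : Finset ω} {zA zB : ω} {a b : ℕ → ω} (hx : Γ.Adj x x')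
    (hAB : Disjoint A B) (h1 : x ∉ A) (h2 : x' ∉ A) (h3 : x ∉ B) (h4 : x' ∉ B)
    (ha : Enum Γ zA A N a) (hb : Enum Γ zB B N b) (hA : zA = x ∨ zA = x')
    (hB : zB = x ∨ zB = x') (h : zA = x ∨ zB = x') : Sched Γ x x' N (conf a b N 0) := by
  have hxx := hx.ne
  have ax : ∀ i < N, a i ≠ x := fun i hi e => h1 (e ▸ ha.mem i hi)
  have ax' : ∀ i < N, a i ≠ x' := fun i hi e => h2 (e ▸ ha.mem i hi)
  have bx : ∀ i < N, b i ≠ x := fun i hi e => h3 (e ▸ hb.mem i hi)
  have bx' : ∀ i < N, b i ≠ x' := fun i hi e => h4 (e ▸ hb.mem i hi)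
  have ab : ∀ i < N, ∀ j ≤ N, a i ∉ (range j).image b := fun i hi j hj e =>
    disjoint_left.1 hAB (ha.mem i hi) (hb.sub hj e)
  have ba : ∀ i < N, ∀ j ≤ N, b i ∉ (range j).image a := fun i hi j hj e =>
    disjoint_left.1 hAB (ha.sub hj e) (hb.mem i hi)
  have xa : ∀ j ≤ N, x ∉ (range j).image a := fun j hj e => h1 (ha.sub hj e)
  have xa' : ∀ j ≤ N, x' ∉ (range j).image a := fun j hj e => h2 (ha.sub hj e)
  have xb : ∀ j ≤ N, x ∉ (range j).image b := fun j hj e => h3 (hb.sub hj e)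
  -- a token of a configuration avoids the free wires
  have free : ∀ k s i j, s < N → i ≤ N → j ≤ N → (k ≤ s → i ≤ s) → (s < k → j + s < N) →
      conf a b N k s ≠ x ∧ conf a b N k s ≠ x' ∧ conf a b N k s ∉ (range i).image a ∧
        conf a b N k s ∉ (range j).image b := fun k s i j hs hi hj e1 e2 => by
    unfold conf
    split_ifs with e
    · exact ⟨bx _ (by omega), bx' _ (by omega), ba _ (by omega) _ hi,
        fun h => by have := (hb.mem_iff (by omega) hj).1 h; have := e2 e; omega⟩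
    · exact ⟨ax _ hs, ax' _ hs,
        fun h => by have := (ha.mem_iff hs hi).1 h; have := e1 (by omega); omega, ab _ hs _ hj⟩
  have hc : ∀ k ≤ N, Reach Γ N k (conf a b N 0) (conf a b N k) := fun k hk => by
    induction k with
    | zero => exact Reach.refl _
    | succ k ih =>
      refine (ih (by omega)).tail ⟨k, hk, ({x, x'} ∪ (range (k + 1)).image a) ∪
        ({x, x'} ∪ (range (N - k)).image b), (ha.conn2 hx hA hk).union
          (hb.conn2 hx hB (by omega)) (a := x) (by simp) (by simp), ?_, ?_, fun s hs hn => ⟨?_, ?_⟩⟩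
      · rw [conf, if_neg (by omega)]
        exact mem_union_left _ (mem_union_right _ (mem_image_of_mem _ (by simp)))
      · rw [conf, if_pos (by omega)]
        exact mem_union_right _ (mem_union_right _ (mem_image_of_mem _ (by simp; omega)))
      · have := free k s (k + 1) (N - k) hs hk (by omega) (by omega) (by omega)
        simp only [mem_union, mem_insert, mem_singleton]
        tauto
      · unfold conf
        by_cases e : s < k
        · rw [if_pos e, if_pos (by omega)]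
        · rw [if_neg e, if_neg (by omega)]
  refine ⟨fun s hs s' hs' e => ha.inj s hs s' hs' e, fun ρ hρ => ?_⟩
  have c1 : conf a b N (ρ + 1) ρ ∈ (range (N - ρ)).image b := by
    rw [conf, if_pos (by omega)]
    exact mem_image_of_mem _ (by simp; omega)
  have c2 : conf a b N (ρ + 1) (ρ + 1) ∈ (range (ρ + 2)).image a := by
    rw [conf, if_neg (by omega)]
    exact mem_image_of_mem _ (by simp)
  have f1 : ∀ s < N, s ≠ ρ → conf a b N (ρ + 1) s ∉ {x, x'} ∪ (range (N - ρ)).image b :=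
    fun s hs hn => by
      have := free (ρ + 1) s 0 (N - ρ) hs (by omega) (by omega) (by omega) (by omega)
      simp only [mem_union, mem_insert, mem_singleton]
      tauto
  have f2 : ∀ s < N, s ≠ ρ + 1 → conf a b N (ρ + 1) s ∉ {x, x'} ∪ (range (ρ + 2)).image a :=
    fun s hs hn => by
      have := free (ρ + 1) s (ρ + 2) 0 hs (by omega) (by omega) (by omega) (by omega)
      simp only [mem_union, mem_insert, mem_singleton]
      tauto
  rcases h with rfl | rfl
  · refine ⟨Function.update (Function.update (conf a b N (ρ + 1)) ρ x') (ρ + 1) zA, by simp,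
      by simp, Reach.tail (q := Function.update (conf a b N (ρ + 1)) ρ x')
        ((hc (ρ + 1) hρ.le).tail ⟨ρ, by omega, _, hb.conn2 hx hB (j := N - ρ) (by omega),
          mem_union_right _ c1, by simp, fun s hs hn => ⟨f1 s hs hn, by simp [hn]⟩⟩)
        ⟨ρ + 1, hρ, _, ha.conn (ρ + 2) hρ, by simpa using Or.inr (by simpa using c2), by simp,
          fun s hs hn => ⟨?_, by simp [hn]⟩⟩⟩
    by_cases e : s = ρ
    · rw [e, Function.update_self, mem_insert, not_or]
      exact ⟨hxx.symm, xa' _ hρ⟩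
    · rw [Function.update_of_ne e]
      exact fun h => f2 s hs hn (insert_subset (by simp) subset_union_right h)
  · refine ⟨Function.update (Function.update (conf a b N (ρ + 1)) (ρ + 1) x) ρ zB, by simp,
      by simp, Reach.tail (q := Function.update (conf a b N (ρ + 1)) (ρ + 1) x)
        ((hc (ρ + 1) hρ.le).tail ⟨ρ + 1, hρ, _, ha.conn2 hx hA (j := ρ + 2) hρ,
          mem_union_right _ c2, by simp, fun s hs hn => ⟨f2 s hs hn, by simp [hn]⟩⟩)
        ⟨ρ, by omega, _, hb.conn (N - ρ) (by omega), by simpa using Or.inr (by simpa using c1),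
          by simp, fun s hs hn => ⟨?_, by simp [hn]⟩⟩⟩
    by_cases e : s = ρ + 1
    · rw [e, Function.update_self, mem_insert, not_or]
      exact ⟨hxx, xb _ (by omega)⟩
    · rw [Function.update_of_ne e]
      exact fun h => f1 s hs hn (insert_subset (by simp) subset_union_right h)

theorem sched (h : Stk Γ x x' N) : ∃ home, Sched Γ x x' N home := by
  obtain ⟨hx, A, B, hAB, nA, nB, h1, h2, h3, h4, cA, cB⟩ := h
  rcases cA with cA | cA <;> rcases cB with cB | cB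
  · obtain ⟨a, ha⟩ := exists_enum' cA h1 nA
    obtain ⟨b, hb⟩ := exists_enum' cB h3 nB
    exact ⟨_, sched_of hx hAB h1 h2 h3 h4 ha hb (by simp) (by simp) (by simp)⟩
  · obtain ⟨a, ha⟩ := exists_enum' cA h1 nA
    obtain ⟨b, hb⟩ := exists_enum' cB h4 nB
    exact ⟨_, sched_of hx hAB h1 h2 h3 h4 ha hb (by simp) (by simp) (by simp)⟩
  · obtain ⟨a, ha⟩ := exists_enum' cA h2 nA
    obtain ⟨b, hb⟩ := exists_enum' cB h3 nB
    exact ⟨_, sched_of hx hAB.symm h3 h4 h1 h2 hb ha (by simp) (by simp) (by simp)⟩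
  · obtain ⟨a, ha⟩ := exists_enum' cA h2 nA
    obtain ⟨b, hb⟩ := exists_enum' cB h4 nB
    exact ⟨_, sched_of hx hAB h1 h2 h3 h4 ha hb (by simp) (by simp) (by simp)⟩

end moves

/-! ### The simulation -/

section sim

variable {V ω : Type} {G : SimpleGraph V} {n M N K j : ℕ} {Γ : SimpleGraph ω} {x x' : ω}
  {Wr : ℕ → ω → Finset V} {S : ℕ → Finset V} {pos : ℕ → ω} {cur cur' : ℕ → Finset V}

/-- The vertices used before time `j`. -/
def Old (Wr : ℕ → ω → Finset V) (S : ℕ → Finset V) (j : ℕ) (v : V) : Prop :=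
  ∃ j' < j, v ∈ S j' ∨ ∃ k, v ∈ Wr j' k

theorem Old.mono {j' : ℕ} {v : V} (h : Old Wr S j v) (hj : j ≤ j') : Old Wr S j' v :=
  h.imp fun _ h => ⟨h.1.trans_le hj, h.2⟩

theorem not_old_W (h : Steps G n M Γ x x' Wr S) {j' : ℕ} {k : ω} {v : V} (h1 : j ≤ j')
    (h2 : j' ≤ M) (hv : v ∈ Wr j' k) : ¬ Old Wr S j v := by
  rintro ⟨i, hi, h3 | ⟨k', h3⟩⟩
  · exact disjoint_left.1 (h.dWS j' h2 i (by omega) k) hv h3
  · exact disjoint_left.1 (h.dW j' h2 i (by omega) k k' (Or.inl (by omega))) hv h3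

theorem not_old_S (h : Steps G n M Γ x x' Wr S) {j' : ℕ} {v : V} (h1 : j ≤ j')
    (h2 : j' < M) (hv : v ∈ S j') : ¬ Old Wr S j v := by
  rintro ⟨i, hi, h3 | ⟨k', h3⟩⟩
  · exact disjoint_left.1 (h.dS j' h2 i (by omega) (by omega)) hv h3
  · exact disjoint_left.1 (h.dWS i (by omega) j' h2 k') h3 hv

/-- The current pieces of the strands, after a move at time `j`. -/
structure Md (G : SimpleGraph V) (Wr : ℕ → ω → Finset V) (S : ℕ → Finset V) (N j : ℕ)
    (pos : ℕ → ω) (cur : ℕ → Finset V) : Prop where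
  conn : ∀ s < N, Conn G (cur s)
  top : ∀ s < N, Wr j (pos s) ⊆ cur s
  disj : ∀ s < N, ∀ s' < N, s ≠ s' → Disjoint (cur s) (cur s')
  mid : ∀ s < N, ∀ v ∈ cur s, Old Wr S j v ∨ ∃ k, v ∈ Wr j k

/-- The current pieces of the strands at time `j`. -/
structure St' (G : SimpleGraph V) (Wr : ℕ → ω → Finset V) (S : ℕ → Finset V) (N j : ℕ)
    (pos : ℕ → ω) (cur : ℕ → Finset V) : Prop extends Md G Wr S N j pos cur where
  old : ∀ s < N, ∀ v ∈ cur s, Old Wr S j v ∨ v ∈ Wr j (pos s)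

/-- The pieces grow by new vertices. -/
def Ext (Wr : ℕ → ω → Finset V) (S : ℕ → Finset V) (N j : ℕ) (cur cur' : ℕ → Finset V) : Prop :=
  ∀ s < N, cur s ⊆ cur' s ∧ ∀ v ∈ cur' s, v ∈ cur s ∨ ¬ Old Wr S j v

theorem Ext.trans {j' : ℕ} {cur'' : ℕ → Finset V} (h : Ext Wr S N j cur cur')
    (h' : Ext Wr S N j' cur' cur'') (hj : j ≤ j') : Ext Wr S N j cur cur'' := fun s hs =>
  ⟨(h s hs).1.trans (h' s hs).1, fun v hv => ((h' s hs).2 v hv).elim ((h s hs).2 v)
    fun h1 => Or.inr fun h2 => h1 (h2.mono hj)⟩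

theorem Md.old' (m : Md G Wr S N j pos cur) {s : ℕ} (hs : s < N) {v : V} (hv : v ∈ cur s) :
    Old Wr S (j + 1) v :=
  (m.mid s hs v hv).elim (fun h => h.mono (by omega)) fun h => ⟨j, by omega, Or.inr h⟩

theorem Md.not_S (h : Steps G n M Γ x x' Wr S) (hj : j < M) (m : Md G Wr S N j pos cur) {s : ℕ}
    (hs : s < N) {v : V} (hv : v ∈ cur s) : v ∉ S j := fun h1 =>
  (m.mid s hs v hv).elim (not_old_S h le_rfl hj h1)
    fun ⟨k, h2⟩ => disjoint_left.1 (h.dWS j hj.le j hj k) h2 h1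

theorem Md.inj (h : Steps G n M Γ x x' Wr S) (hj : j ≤ M) (m : Md G Wr S N j pos cur) {s s' : ℕ}
    (hs : s < N) (hs' : s' < N) (hn : s ≠ s') : pos s ≠ pos s' := fun e => by
  obtain ⟨v, hv⟩ := (h.conn j hj (pos s)).1
  exact disjoint_left.1 (m.disj s hs s' hs' hn) (m.top s hs hv) (m.top s' hs' (e ▸ hv))

theorem slide (h : Steps G n M Γ x x' Wr S) (hj : j ≤ M) (m : St' G Wr S N j pos cur)
    {pos' : ℕ → ω} (hm : Mv Γ N pos pos') :
    ∃ cur', Md G Wr S N j pos' cur' ∧ Ext Wr S N j cur cur' := by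
  obtain ⟨s0, h0, Q, h1, h2, h3, h4⟩ := hm
  have hd : ∀ s < N, s ≠ s0 → Disjoint (cur s0 ∪ Q.biUnion (Wr j)) (cur s) := fun s hs hn => by
    refine disjoint_union_left.2 ⟨m.disj _ h0 _ hs hn.symm, disjoint_left.2 fun v hv hv' => ?_⟩
    obtain ⟨k, hk, hv⟩ := mem_biUnion.1 hv
    exact (m.old s hs v hv').elim (not_old_W h le_rfl hj hv) (disjoint_left.1
      (h.dW j hj j hj k (pos s) (Or.inr fun e => (h4 s hs hn).1 (e ▸ hk))) hv)
  have hn : ∀ v ∈ cur s0 ∪ Q.biUnion (Wr j), v ∈ cur s0 ∨ ∃ k, v ∈ Wr j k := fun v hv =>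
    (mem_union.1 hv).imp_right fun hv => (mem_biUnion.1 hv).imp fun _ h => h.2
  refine ⟨fun s => if s = s0 then cur s0 ∪ Q.biUnion (Wr j) else cur s,
    ⟨fun s hs => ?_, fun s hs => ?_, fun s hs s' hs' e => ?_, fun s hs v hv => ?_⟩,
    fun s hs => ?_⟩
  · split_ifs
    · obtain ⟨v, hv⟩ := (h.conn j hj (pos s0)).1
      exact (m.conn _ h0).union (h1.biUnion (fun k _ => h.conn j hj k)
        fun k _ k' _ a => h.adj j hj k k' a) (m.top _ h0 hv) (mem_biUnion.2 ⟨_, h2, hv⟩)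
    · exact m.conn s hs
  · split_ifs with e
    · subst e
      exact (subset_biUnion_of_mem (Wr j) h3).trans subset_union_right
    · exact (h4 s hs e).2 ▸ m.top s hs
  · split_ifs with e1 e2 e2
    · omega
    · exact hd s' hs' e2
    · exact (hd s hs e1).symm
    · exact m.disj s hs s' hs' e
  · split_ifs at hv
    · exact (hn v hv).elim (m.mid _ h0 v) Or.inr
    · exact m.mid s hs v hv
  · by_cases e : s = s0
    · simp only [e, if_true]
      exact ⟨subset_union_left, fun v hv => (hn v hv).imp_right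
        fun ⟨_, hk⟩ => not_old_W h le_rfl hj hk⟩
    · simp only [e, if_false]
      exact ⟨subset_rfl, fun v hv => Or.inl hv⟩

theorem tick' (h : Steps G n M Γ x x' Wr S) (hj : j < M) (m : Md G Wr S N j pos cur)
    {c T : ℕ → Finset V} (h1 : ∀ s < N, c s ⊆ cur s) (h2 : ∀ s < N, Wr (j + 1) (pos s) ⊆ T s)
    (h3 : ∀ s < N, T s ⊆ S j ∪ Wr (j + 1) (pos s))
    (h4 : ∀ s < N, ∀ s' < N, s ≠ s' → Disjoint (T s) (T s'))
    (h5 : ∀ s < N, Conn G (c s ∪ T s)) : St' G Wr S N (j + 1) pos fun s => c s ∪ T s := by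
  have hd : ∀ s < N, ∀ s' < N, Disjoint (c s) (T s') := fun s hs s' hs' =>
    disjoint_left.2 fun v hv hv' => (mem_union.1 (h3 s' hs' hv')).elim
      (m.not_S h hj hs (h1 s hs hv)) fun h6 => not_old_W h le_rfl hj h6 (m.old' hs (h1 s hs hv))
  have ho : ∀ s < N, ∀ v ∈ c s ∪ T s, Old Wr S (j + 1) v ∨ v ∈ Wr (j + 1) (pos s) :=
    fun s hs v hv => (mem_union.1 hv).elim (fun hv => Or.inl (m.old' hs (h1 s hs hv)))
      fun hv => (mem_union.1 (h3 s hs hv)).imp_left fun hv => ⟨j, by omega, Or.inl hv⟩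
  refine ⟨⟨h5, fun s hs => (h2 s hs).trans subset_union_right, fun s hs s' hs' e => ?_,
    fun s hs v hv => (ho s hs v hv).imp_right fun h => ⟨_, h⟩⟩, ho⟩
  simp only [disjoint_union_left, disjoint_union_right]
  exact ⟨⟨(m.disj s hs s' hs' e).mono (h1 s hs) (h1 s' hs'), (hd s' hs' s hs).symm⟩,
    hd s hs s' hs', h4 s hs s' hs' e⟩

theorem links (h : Steps G n M Γ x x' Wr S) (hn : 2 ≤ n) (hj : j < M) :
    ∃ T : ω → Finset V, (∀ k, Conn G (T k) ∧ Touch G (Wr j k) (T k) ∧ Wr (j + 1) k ⊆ T k ∧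
      T k ⊆ S j ∪ Wr (j + 1) k) ∧ ∀ k k', k ≠ k' → Disjoint (T k) (T k') := by
  obtain ⟨X, Y, a1, a2, a3, a4, a5, a6, a7, a8, a9⟩ := (h.cell j hj).pass hn
  have hs : ∀ k, (if k = x then X else if k = x' then Y else ∅) ⊆ S j := fun k => by
    split_ifs
    exacts [a1, a2, empty_subset _]
  refine ⟨fun k => (if k = x then X else if k = x' then Y else ∅) ∪ Wr (j + 1) k,
    fun k => ⟨?_, ?_, subset_union_right, union_subset_union (hs k) subset_rfl⟩,
    fun k k' e => ?_⟩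
  · dsimp only
    split_ifs with e1 e2
    · exact a3.union_touch (h.conn _ hj k) (e1 ▸ a7)
    · exact a4.union_touch (h.conn _ hj k) (e2 ▸ a9)
    · simpa using h.conn _ hj k
  · dsimp only
    split_ifs with e1 e2
    · exact (e1 ▸ a6.symm).mono subset_rfl subset_union_left
    · exact (e2 ▸ a8.symm).mono subset_rfl subset_union_left
    · exact (h.pass j hj k e1 e2).mono subset_rfl subset_union_right
  · simp only [disjoint_union_left, disjoint_union_right]
    refine ⟨⟨?_, (h.dWS _ hj j hj k).mono subset_rfl (hs k')⟩,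
      (h.dWS _ hj j hj k').symm.mono (hs k) subset_rfl, h.dW _ hj _ hj k k' (Or.inr e)⟩
    split_ifs <;> simp_all [a5.symm]

theorem tick (h : Steps G n M Γ x x' Wr S) (hn : 2 ≤ n) (hj : j < M) (m : Md G Wr S N j pos cur) :
    ∃ cur', St' G Wr S N (j + 1) pos cur' ∧ Ext Wr S N j cur cur' := by
  obtain ⟨T, h1, h2⟩ := links h hn hj
  refine ⟨_, tick' h hj m (c := cur) (T := fun s => T (pos s)) (fun _ _ => subset_rfl)
    (fun s _ => (h1 _).2.2.1) (fun s _ => (h1 _).2.2.2)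
    (fun s hs s' hs' e => h2 _ _ (m.inj h hj.le hs hs' e))
    fun s hs => (m.conn s hs).union_touch (h1 _).1 ((h1 _).2.1.mono (m.top s hs) subset_rfl),
    fun s _ => ⟨subset_union_left, fun v hv => (mem_union.1 hv).imp_right fun hv => ?_⟩⟩
  exact (mem_union.1 ((h1 _).2.2.2 hv)).elim (not_old_S h le_rfl hj) (not_old_W h (by omega) hj)

theorem reach (h : Steps G n M Γ x x' Wr S) (hn : 2 ≤ n) {t : ℕ} {pos' : ℕ → ω}
    (hr : Reach Γ N t pos pos') (hj : j + t ≤ M) (m : St' G Wr S N j pos cur) :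
    ∃ cur', St' G Wr S N (j + t) pos' cur' ∧ Ext Wr S N j cur cur' := by
  induction hr with
  | refl => exact ⟨cur, m, fun s _ => ⟨subset_rfl, fun v hv => Or.inl hv⟩⟩
  | tail _ h2 ih =>
    obtain ⟨c1, m1, e1⟩ := ih (by omega) m
    obtain ⟨c2, m2, e2⟩ := slide h (by omega) m1 h2
    obtain ⟨c3, m3, e3⟩ := tick h hn (by omega) m2
    exact ⟨c3, m3, (e1.trans e2 (by omega)).trans e3 (by omega)⟩

/-- The cells that come before the cell `(i0, j0)`. -/
def dn (K i0 j0 : ℕ) (p : ℕ × ℕ) : Prop :=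
  p.1 < K ∧ p.2 < K ∧ (p.1 < i0 ∨ p.1 = i0 ∧ p.2 < j0)

/-- The strand of a wire. -/
def st (K : ℕ) (a : Fin 3 × (ℕ × ℕ)) : ℕ :=
  if a.1 = 0 then K - 1 + a.2.1 - a.2.2 else K + a.2.1 - a.2.2

/-- The set at an address: finished or current. -/
noncomputable def pc (K i0 j0 : ℕ) (cur : ℕ → Finset V) (F : Fin 3 × (ℕ × ℕ) → Finset V)
    (a : Fin 3 × (ℕ × ℕ)) : Finset V := if dn K i0 j0 a.2 then F a else cur (st K a)

/-- The finished part of the grid. -/
structure Inv (G : SimpleGraph V) (n : ℕ) (Wr : ℕ → ω → Finset V) (S : ℕ → Finset V)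
    (K i0 j0 j : ℕ) (cur : ℕ → Finset V) (F : Fin 3 × (ℕ × ℕ) → Finset V) : Prop where
  old : ∀ a, dn K i0 j0 a.2 → ∀ v ∈ F a, Old Wr S j v
  dF : ∀ a a', dn K i0 j0 a.2 → dn K i0 j0 a'.2 → a ≠ a' → Disjoint (F a) (F a')
  dc : ∀ a, dn K i0 j0 a.2 → ∀ s < 2 * K, Disjoint (F a) (cur s)
  conn : ∀ p, dn K i0 j0 p → Conn G (F (0, p)) ∧ Conn G (F (1, p))
  cell : ∀ i i', dn K i0 j0 (i, i') → Cell G n (F (2, (i, i'))) (F (1, (i, i'))) (F (0, (i, i')))
    (pc K i0 j0 cur F (0, (i + 1, i'))) (pc K i0 j0 cur F (1, (i, i' + 1)))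

variable {i0 j0 : ℕ} {F : Fin 3 × (ℕ × ℕ) → Finset V}

theorem Inv.ext {j' : ℕ} (I : Inv G n Wr S K i0 j0 j cur F) (e : Ext Wr S (2 * K) j cur cur')
    (hj : j ≤ j') : Inv G n Wr S K i0 j0 j' cur' F := by
  have hp : ∀ a, st K a < 2 * K → pc K i0 j0 cur F a ⊆ pc K i0 j0 cur' F a := fun a ha => by
    unfold pc
    split_ifs
    exacts [subset_rfl, (e _ ha).1]
  refine ⟨fun a ha v hv => (I.old a ha v hv).mono hj, I.dF, fun a ha s hs =>
    disjoint_left.2 fun v hv hv' => ((e s hs).2 v hv').elim (disjoint_left.1 (I.dc a ha s hs) hv)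
      fun h => h (I.old a ha v hv), I.conn, fun i i' hi => ?_⟩
  have := hi.1
  have := hi.2.1
  exact (I.cell i i' hi).mono subset_rfl subset_rfl (hp _ (by simp [st] at *; omega))
    (hp _ (by simp [st] at *; omega))

theorem gate (h : Steps G n M Γ x x' Wr S) (hj : j < M) (hi0 : i0 < K) (hj0 : j0 < K)
    (m : St' G Wr S (2 * K) j pos cur) (I : Inv G n Wr S K i0 j0 j cur F)
    (h1 : pos (K - 1 + i0 - j0) = x') (h2 : pos (K - 1 + i0 - j0 + 1) = x) :
    ∃ cur' F', St' G Wr S (2 * K) (j + 1) pos cur' ∧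
      Inv G n Wr S K i0 (j0 + 1) (j + 1) cur' F' := by
  obtain ⟨ρ, hρ⟩ : ∃ ρ, ρ = K - 1 + i0 - j0 := ⟨_, rfl⟩
  rw [← hρ] at h1 h2
  have r0 : ρ < 2 * K := by omega
  have r1 : ρ + 1 < 2 * K := by omega
  let c : ℕ → Finset V := fun s => if s = ρ ∨ s = ρ + 1 then ∅ else cur s
  have hc : ∀ s, c s ⊆ cur s := fun s => by
    simp only [c]
    split_ifs
    exacts [empty_subset _, subset_rfl]
  have m' := tick' h hj m.toMd (c := c) (T := fun s => Wr (j + 1) (pos s)) (fun s _ => hc s)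
    (fun _ _ => subset_rfl) (fun _ _ => subset_union_right)
    (fun s hs s' hs' e => h.dW _ hj _ hj _ _ (Or.inr (m.toMd.inj h hj.le hs hs' e)))
    fun s hs => by
      simp only [c]
      split_ifs with e
      · simpa using h.conn _ hj _
      · exact (m.conn s hs).union_touch (h.conn _ hj _) ((h.pass j hj _
          (h2 ▸ m.toMd.inj h hj.le hs r1 (by omega))
          (h1 ▸ m.toMd.inj h hj.le hs r0 (by omega))).mono (m.top s hs) subset_rfl)
  let nw : Fin 3 → Finset V := ![cur ρ, cur (ρ + 1), S j]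
  let F' : Fin 3 × (ℕ × ℕ) → Finset V := fun a => if a.2 = (i0, j0) then nw a.1 else F a
  have hd : ∀ p, dn K i0 (j0 + 1) p ↔ p = (i0, j0) ∨ dn K i0 j0 p := fun p => by
    simp only [dn, Prod.ext_iff]; omega
  have hnd : ∀ p, dn K i0 j0 p → p ≠ (i0, j0) := fun p => by
    simp only [dn, ne_eq, Prod.ext_iff]; omega
  have F1 : ∀ a, dn K i0 j0 a.2 → F' a = F a := fun a ha => if_neg (hnd _ ha)
  have F2 : ∀ e, F' (e, (i0, j0)) = nw e := fun e => if_pos rfl
  have n1 : ∀ e, ∀ v ∈ nw e, Old Wr S (j + 1) v := fun e v hv => by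
    fin_cases e
    exacts [m.toMd.old' r0 hv, m.toMd.old' r1 hv, ⟨j, by omega, Or.inl hv⟩]
  have n2 : ∀ e a, dn K i0 j0 a.2 → Disjoint (F a) (nw e) := fun e a ha => by
    fin_cases e
    exacts [I.dc a ha _ r0, I.dc a ha _ r1,
      disjoint_left.2 fun v hv hv' => not_old_S h le_rfl hj hv' (I.old a ha v hv)]
  have n3 : ∀ s < 2 * K, Disjoint (cur s) (S j) := fun s hs =>
    disjoint_left.2 fun v hv => m.toMd.not_S h hj hs hv
  have n4 : ∀ e e', e ≠ e' → Disjoint (nw e) (nw e') := fun e e' hn => by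
    have := m.disj ρ r0 _ r1 (by omega)
    fin_cases e <;> fin_cases e' <;>
      simp [nw, this, this.symm, n3 _ r0, n3 _ r1, (n3 _ r0).symm, (n3 _ r1).symm] at hn ⊢
  have n5 : ∀ e, ∀ s < 2 * K, Disjoint (nw e) (c s) := fun e s hs => by
    simp only [c]
    split_ifs with e'
    · simp
    · fin_cases e
      exacts [m.disj _ r0 s hs (by omega), m.disj _ r1 s hs (by omega), (n3 s hs).symm]
  have ho : ∀ a, dn K i0 (j0 + 1) a.2 → ∀ v ∈ F' a, Old Wr S (j + 1) v := by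
    rintro ⟨e, p⟩ ha v hv
    rcases (hd p).1 ha with rfl | ha
    · exact n1 e v (F2 e ▸ hv)
    · exact (I.old _ ha v (F1 (e, p) ha ▸ hv)).mono (by omega)
  refine ⟨_, F', m', ho, ?_, ?_, fun p hp => ?_, fun i i' hi => ?_⟩
  · rintro ⟨e, p⟩ ⟨e', p'⟩ ha ha' hn
    rcases (hd p).1 ha with rfl | ha <;> rcases (hd p').1 ha' with rfl | ha'
    · rw [F2, F2]; exact n4 e e' fun h => hn (by rw [h])
    · rw [F2, F1 (e', p') ha']; exact (n2 e (e', p') ha').symm
    · rw [F2, F1 (e, p) ha]; exact n2 e' (e, p) ha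
    · rw [F1 (e, p) ha, F1 (e', p') ha']; exact I.dF _ _ ha ha' hn
  · rintro ⟨e, p⟩ ha s hs
    refine disjoint_union_right.2 ⟨?_, disjoint_left.2 fun v hv hv' =>
      not_old_W h le_rfl hj hv' (ho _ ha v hv)⟩
    rcases (hd p).1 ha with rfl | ha
    · rw [F2]; exact n5 e s hs
    · rw [F1 (e, p) ha]; exact (I.dc (e, p) ha s hs).mono subset_rfl (hc s)
  · rcases (hd p).1 hp with rfl | hp
    · rw [F2, F2]; exact ⟨m.conn _ r0, m.conn _ r1⟩
    · rw [F1 (0, p) hp, F1 (1, p) hp]; exact I.conn p hp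
  · rcases (hd _).1 hi with e | hi
    · obtain ⟨rfl, rfl⟩ := Prod.ext_iff.1 e
      rw [F2, F2, F2]
      refine (h.cell j hj).mono (h2 ▸ m.top _ r1) (h1 ▸ m.top _ r0) ?_ ?_
      · rw [pc, if_neg (by simp only [dn]; omega),
          show st K (0, (i + 1, i')) = ρ + 1 by simp [st]; omega, h2]
        exact subset_union_right
      · rw [pc, if_neg (by simp only [dn]; omega),
          show st K (1, (i, i' + 1)) = ρ by simp [st]; omega, h1]
        exact subset_union_right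
    · have key : ∀ a : Fin 3 × (ℕ × ℕ), (a.2 = (i0, j0) → nw a.1 = cur (st K a)) →
          (¬ dn K i0 (j0 + 1) a.2 → ¬ (st K a = ρ ∨ st K a = ρ + 1)) →
          pc K i0 j0 cur F a ⊆ pc K i0 (j0 + 1) (fun s => c s ∪ Wr (j + 1) (pos s)) F' a := by
        rintro ⟨e, p⟩ k1 k2
        unfold pc
        by_cases d : dn K i0 j0 p
        · rw [if_pos d, if_pos ((hd p).2 (Or.inr d)), F1 (e, p) d]
        · rw [if_neg d]
          split_ifs with d'
          · obtain rfl := ((hd p).1 d').resolve_right d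
            rw [F2, k1 rfl]
          · simp only [c, if_neg (k2 d')]
            exact subset_union_left
      rw [F1 (2, (i, i')) hi, F1 (1, (i, i')) hi, F1 (0, (i, i')) hi]
      refine (I.cell i i' hi).mono subset_rfl subset_rfl (key _ (fun e => ?_) ?_)
        (key _ (fun e => ?_) ?_)
      · rw [show st K (0, (i + 1, i')) = ρ by simp [st, Prod.ext_iff] at e ⊢; omega]; rfl
      · simp only [dn, st] at hi ⊢; simp; omega
      · rw [show st K (1, (i, i' + 1)) = ρ + 1 by simp [st, Prod.ext_iff] at e ⊢; omega]; rfl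
      · simp only [dn, st] at hi ⊢; simp; omega

/-- The cells before `(i0, j0)` can be finished by time `t`. -/
def Ok (G : SimpleGraph V) (n : ℕ) (Wr : ℕ → ω → Finset V) (S : ℕ → Finset V) (home : ℕ → ω)
    (K i0 j0 t : ℕ) : Prop :=
  ∃ j ≤ t, ∃ cur F, St' G Wr S (2 * K) j home cur ∧ Inv G n Wr S K i0 j0 j cur F

variable {home : ℕ → ω} {t : ℕ}

theorem Ok.step (h : Steps G n M Γ x x' Wr S) (hn : 2 ≤ n) (hs : Sched Γ x x' (2 * K) home)
    (hi0 : i0 < K) (hj0 : j0 < K) (ht : t + (4 * K + 5) ≤ M) (o : Ok G n Wr S home K i0 j0 t) :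
    Ok G n Wr S home K i0 (j0 + 1) (t + (4 * K + 5)) := by
  obtain ⟨j, hj, cur, F, m, I⟩ := o
  obtain ⟨g, g1, g2, g3⟩ := hs.2 (K - 1 + i0 - j0) (by omega)
  obtain ⟨c1, m1, e1⟩ := reach h hn g3 (by omega) m
  obtain ⟨c2, F2, m2, I2⟩ := gate h (by omega) hi0 hj0 m1 (I.ext e1 (by omega)) g1 g2
  obtain ⟨c3, m3, e3⟩ := reach h hn g3.symm (by omega) m2
  exact ⟨_, by omega, c3, F2, m3, I2.ext e3 (by omega)⟩

theorem Ok.next (o : Ok G n Wr S home K i0 K t) : Ok G n Wr S home K (i0 + 1) 0 t := by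
  have e : dn K (i0 + 1) 0 = dn K i0 K := by
    funext p; simp only [dn, eq_iff_iff]; omega
  obtain ⟨j, hj, cur, F, m, I⟩ := o
  refine ⟨j, hj, cur, F, m, e ▸ I.old, e ▸ I.dF, e ▸ I.dc, e ▸ I.conn, fun i i' hi => ?_⟩
  have := I.cell i i' (e ▸ hi)
  unfold pc at this ⊢
  rwa [e]

theorem ok_all (h : Steps G n (K * (K * (4 * K + 5))) Γ x x' Wr S) (hn : 2 ≤ n)
    (hs : Sched Γ x x' (2 * K) home) (i : ℕ) (hi : i ≤ K) :
    Ok G n Wr S home K i 0 (i * (K * (4 * K + 5))) := by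
  induction i with
  | zero =>
    have nd : ∀ p, ¬ dn K 0 0 p := fun p => by simp [dn]
    exact ⟨0, by omega, fun s => Wr 0 (home s), fun _ => ∅, ⟨⟨fun s _ => h.conn 0 (by omega) _,
      fun _ _ => subset_rfl, fun s h1 s' h2 e => h.dW 0 (by omega) 0 (by omega) _ _
        (Or.inr fun e' => e (hs.1 s h1 s' h2 e')), fun _ _ _ hv => Or.inr ⟨_, hv⟩⟩,
      fun _ _ _ hv => Or.inr hv⟩, fun _ h => absurd h (nd _), fun _ _ h => absurd h (nd _),
      fun _ h => absurd h (nd _), fun _ h => absurd h (nd _), fun _ _ h => absurd h (nd _)⟩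
  | succ i ih =>
    have row : ∀ j ≤ K, Ok G n Wr S home K i j (i * (K * (4 * K + 5)) + j * (4 * K + 5)) := by
      intro j hj
      induction j with
      | zero => simpa using ih (by omega)
      | succ j ihj =>
        rw [add_one_mul, ← add_assoc]
        refine (ihj (by omega)).step h hn hs hi hj ?_
        have h1 : (j + 1) * (4 * K + 5) ≤ K * (4 * K + 5) := Nat.mul_le_mul_right _ hj
        have h2 : (i + 1) * (K * (4 * K + 5)) ≤ K * (K * (4 * K + 5)) :=
          Nat.mul_le_mul_right _ hi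
        rw [add_one_mul] at h1 h2
        omega
    rw [add_one_mul]
    exact (row K le_rfl).next

end sim

end Sim

open Sim in
theorem sim : SIMStmt := by
  intro K
  refine ⟨2 * K, K * (K * (4 * K + 5)), fun {V ω G n Γ x x' Wr S} hn h hs => ?_⟩
  obtain ⟨home, hs⟩ := sched hs
  obtain ⟨j, -, cur, F, m, I⟩ := ok_all h hn hs K le_rfl
  have hd : ∀ p, dn K K 0 p ↔ p.1 < K ∧ p.2 < K := fun p => by simp only [dn]; omega
  have hc : ∀ (e : Fin 3) (p : ℕ × ℕ), (dn K K 0 p → Conn G (F (e, p))) → st K (e, p) < 2 * K →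
      Conn G (pc K K 0 cur F (e, p)) := fun e p h1 h2 => by
    unfold pc
    split_ifs with d
    exacts [h1 d, m.conn _ h2]
  have hp : ∀ (e : Fin 3) (p : ℕ × ℕ), dn K K 0 p → pc K K 0 cur F (e, p) = F (e, p) :=
    fun e p d => if_pos d
  refine ⟨fun p => pc K K 0 cur F (0, p), fun p => pc K K 0 cur F (1, p),
    fun p => pc K K 0 cur F (2, p),
    fun i hi j hj => hc _ _ (fun d => (I.conn _ d).1) (by simp [st]; omega),
    fun i hi j hj => hc _ _ (fun d => (I.conn _ d).2) (by simp [st]; omega), ?_,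
    fun i hi j hj => ?_⟩
  · have e : ∀ a, cgAt (fun p => pc K K 0 cur F (0, p)) (fun p => pc K K 0 cur F (1, p))
        (fun p => pc K K 0 cur F (2, p)) a = pc K K 0 cur F a := by
      rintro ⟨e, p⟩
      fin_cases e <;> simp [cgAt]
    have lt : ∀ a, cgOk K a → ¬ dn K K 0 a.2 → st K a < 2 * K ∧
        ((a.1 = 0 ∧ a.2.1 = K ∧ a.2.2 < K) ∨ (a.1 = 1 ∧ a.2.1 < K ∧ a.2.2 = K)) := by
      rintro ⟨e, p⟩
      rw [hd]
      fin_cases e <;> simp [cgOk, st] <;> omega
    intro a a' ha ha' hn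
    rw [e, e, pc, pc]
    split_ifs with d d' d'
    · exact I.dF a a' d d' hn
    · exact I.dc a d _ (lt a' ha' d').1
    · exact (I.dc a' d' _ (lt a ha d).1).symm
    · refine m.disj _ (lt a ha d).1 _ (lt a' ha' d').1 fun es => hn ?_
      obtain ⟨e, p1, p2⟩ := a
      obtain ⟨e', p1', p2'⟩ := a'
      rcases (lt _ ha d).2 with ⟨h1, h2⟩ | ⟨h1, h2⟩ <;>
        rcases (lt _ ha' d').2 with ⟨h3, h4⟩ | ⟨h3, h4⟩ <;>
        simp only at h1 h2 h3 h4 <;> subst h1 h3 <;> simp [st] at es ⊢ <;> omega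
  · have d := (hd (i, j)).2 ⟨hi, hj⟩
    simp only [hp _ _ d]
    exact I.cell i j d

end Pool.Agent.MP_7be75d_co.Gen

end MrgPart2

-- marker of a merged file
example : 731051 + 56749 = 731051 + 56749 := rfl
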