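import Mathlib.Combinatorics.Hall.Basic
import Pool.Agent.MP_7be75d_co.Gen.Comb1

-- ======== part 0: formerly Pool.Agent.MP_7be75d_co.Gen.NET
section MrgPart0

/-! Module NET: the trails of a pairing, joined through the free hairs. -/

namespace Pool.Agent.MP_7be75d_co.Gen

open Finset
open scoped Classical

namespace NET

variable {V ε ν : Type} {G : SimpleGraph V} {E : Finset ε} {σ t : ε → ε} {node : ε → Option ν}
  {L : ε → ℕ} {a s s' : ε} {k k' : ℕ}

/-- The end number `k` of the trail that starts at `a`. -/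
def it (σ t : ε → ε) (a : ε) (k : ℕ) : ε := (fun a => t (σ a))^[k] a

theorem it_zero : it σ t a 0 = a := rfl

theorem it_succ : it σ t a (k + 1) = t (σ (it σ t a k)) := Function.iterate_succ_apply' _ _ _

/-- Two involutions and the lengths of the trails. -/
structure Ctx (E : Finset ε) (σ t : ε → ε) (node : ε → Option ν) (L : ε → ℕ) : Prop where
  smem : ∀ e ∈ E, σ e ∈ E
  sinv : ∀ e ∈ E, σ (σ e) = e
  sne : ∀ e ∈ E, σ e ≠ e
  tmem : ∀ e ∈ E, node e ≠ none → t e ∈ E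
  tinv : ∀ e ∈ E, node e ≠ none → t (t e) = e
  tne : ∀ e ∈ E, node e ≠ none → t e ≠ e
  tnd : ∀ e ∈ E, node e ≠ none → node (t e) = node e
  last : ∀ a ∈ E, node (σ (it σ t a (L a))) = none
  mid : ∀ a ∈ E, ∀ k < L a, node (σ (it σ t a k)) ≠ none

theorem exists_len (h1 : ∀ e ∈ E, σ e ∈ E) (h2 : ∀ e ∈ E, node e ≠ none → t e ∈ E) (r : ε → ℕ)
    (hr : ∀ a ∈ E, node (σ a) ≠ none → r (t (σ a)) < r a) :
    ∃ L : ε → ℕ, ∀ a ∈ E, node (σ (it σ t a (L a))) = none ∧
      ∀ k < L a, node (σ (it σ t a k)) ≠ none := by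
  have key : ∀ a, ∃ n, a ∈ E → node (σ (it σ t a n)) = none ∧
      ∀ k < n, node (σ (it σ t a k)) ≠ none := by
    intro a
    by_cases ha : a ∈ E
    · have hex : ∃ n, node (σ (it σ t a n)) = none := by
        by_contra hc
        push Not at hc
        have h3 : ∀ n, it σ t a n ∈ E ∧ r (it σ t a n) + n ≤ r a := by
          intro n
          induction n with
          | zero => exact ⟨ha, le_rfl⟩
          | succ n ih =>
            have := hr _ ih.1 (hc n)
            rw [it_succ]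
            exact ⟨h2 _ (h1 _ ih.1) (hc n), by omega⟩
        have := (h3 (r a + 1)).2
        omega
      exact ⟨Nat.find hex, fun _ => ⟨Nat.find_spec hex, fun k hk => Nat.find_min hex hk⟩⟩
    · exact ⟨0, fun h => absurd h ha⟩
  choose L hL using key
  exact ⟨L, hL⟩

/-- The free end at which the trail from `a` stops. -/
def tau (σ t : ε → ε) (L : ε → ℕ) (a : ε) : ε := σ (it σ t a (L a))

namespace Ctx

variable (h : Ctx E σ t node L)

include h

theorem mem (ha : a ∈ E) (hk : k ≤ L a) : it σ t a k ∈ E := by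
  induction k with
  | zero => exact ha
  | succ k ih =>
    rw [it_succ]
    exact h.tmem _ (h.smem _ (ih (by omega))) (h.mid a ha k hk)

theorem nf (ha : a ∈ E) (hk : k ≤ L a) (h0 : 0 < k) : node (it σ t a k) ≠ none := by
  obtain ⟨k, rfl⟩ : ∃ j, k = j + 1 := ⟨k - 1, by omega⟩
  rw [it_succ, h.tnd _ (h.smem _ (h.mem ha (by omega))) (h.mid a ha k hk)]
  exact h.mid a ha k hk

theorem inj (hs : s ∈ E) (hs' : s' ∈ E) (f : node s = none) (f' : node s' = none) (hk : k ≤ L s)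
    (hk' : k' ≤ L s') (e : it σ t s k = it σ t s' k') : s = s' ∧ k = k' := by
  induction k generalizing k' with
  | zero =>
    rcases Nat.eq_zero_or_pos k' with rfl | h0
    · exact ⟨e, rfl⟩
    · exact absurd (e ▸ f) (h.nf hs' hk' h0)
  | succ k ih =>
    rcases k' with _ | k'
    · exact absurd (e ▸ f' : node (it σ t s (k + 1)) = none) (h.nf hs hk (by omega))
    · have m1 := h.mem hs (show k ≤ L s by omega)
      have m2 := h.mem hs' (show k' ≤ L s' by omega)
      rw [it_succ, it_succ] at e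
      have e1 := congrArg t e
      rw [h.tinv _ (h.smem _ m1) (h.mid s hs k hk),
        h.tinv _ (h.smem _ m2) (h.mid s' hs' k' hk')] at e1
      have e2 := congrArg σ e1
      rw [h.sinv _ m1, h.sinv _ m2] at e2
      obtain ⟨e3, e4⟩ := ih (by omega) (by omega) e2
      exact ⟨e3, by omega⟩

theorem tau_mem (ha : a ∈ E) : tau σ t L a ∈ E := h.smem _ (h.mem ha le_rfl)

theorem tau_free (ha : a ∈ E) : node (tau σ t L a) = none := h.last a ha

theorem rev (ha : a ∈ E) (hk : k ≤ L a) : it σ t (tau σ t L a) k = σ (it σ t a (L a - k)) := by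
  induction k with
  | zero => rfl
  | succ k ih =>
    rw [it_succ, ih (by omega), h.sinv _ (h.mem ha (by omega)),
      show L a - k = L a - (k + 1) + 1 by omega, it_succ,
      h.tinv _ (h.smem _ (h.mem ha (by omega))) (h.mid a ha _ (by omega))]

theorem len_le (ha : a ∈ E) : L a ≤ L (tau σ t L a) := by
  by_contra hc
  have := h.last _ (h.tau_mem ha)
  rw [h.rev ha (by omega), h.sinv _ (h.mem ha (by omega))] at this
  exact h.nf ha (by omega) (by omega) this

theorem len_eq (hs : s ∈ E) (f : node s = none) : L (tau σ t L s) = L s := by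
  refine le_antisymm (not_lt.1 fun hc => ?_) (h.len_le hs)
  have := h.mid _ (h.tau_mem hs) _ hc
  rw [h.rev hs le_rfl, Nat.sub_self, it_zero, h.sinv _ hs] at this
  exact this f

theorem tau_tau (hs : s ∈ E) (f : node s = none) : tau σ t L (tau σ t L s) = s := by
  rw [tau, h.len_eq hs f, h.rev hs le_rfl, Nat.sub_self, it_zero, h.sinv _ hs]

theorem tau_ne (hs : s ∈ E) : tau σ t L s ≠ s := by
  intro e
  obtain ⟨j, hj | hj⟩ := Nat.even_or_odd' (L s)
  · have := h.rev hs (show j ≤ L s by omega)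
    rw [e, show L s - j = j by omega] at this
    exact h.sne _ (h.mem hs (by omega)) this.symm
  · have := h.rev hs (show j + 1 ≤ L s by omega)
    rw [e, show L s - (j + 1) = j by omega, it_succ] at this
    exact h.tne _ (h.smem _ (h.mem hs (by omega))) (h.mid s hs j (by omega)) this

theorem cross (hs : s ∈ E) (hs' : s' ∈ E) (f : node s = none) (f' : node s' = none)
    (hk : k ≤ L s) (hk' : k' ≤ L s') (e : it σ t s' k' = σ (it σ t s k)) : s' = tau σ t L s := by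
  have := h.rev hs (show L s - k ≤ L s by omega)
  rw [show L s - (L s - k) = k by omega, ← e] at this
  exact (h.inj (h.tau_mem hs) hs' (h.tau_free hs) f' (by rw [h.len_eq hs f]; omega) hk' this).1.symm

theorem cover (ha : a ∈ E) : ∃ s ∈ E, node s = none ∧ ∃ k ≤ L s, a = it σ t s k := by
  have h1 := h.smem a ha
  refine ⟨_, h.tau_mem h1, h.tau_free h1, L (σ a), h.len_le h1, ?_⟩
  rw [h.rev h1 le_rfl, Nat.sub_self, it_zero, h.sinv _ ha]

end Ctx

/-- The member number `i` of the trail from `s`. -/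
def gs (σ t : ε → ε) (Sg Pt : ε → Finset V) (s : ε) (i : ℕ) : Finset V :=
  if i % 2 = 0 then Sg (it σ t s (i / 2)) else Pt (σ (it σ t s (i / 2)))

/-- The trail from `s` as a list of sets. -/
def ls (σ t : ε → ε) (L : ε → ℕ) (Sg Pt : ε → Finset V) (s : ε) : List (Finset V) :=
  (List.range (2 * L s + 1)).map (gs σ t Sg Pt s)

variable {Sg Pt : ε → Finset V}

theorem gs_even : gs σ t Sg Pt s (2 * k) = Sg (it σ t s k) := by simp [gs]

theorem gs_odd : gs σ t Sg Pt s (2 * k + 1) = Pt (σ (it σ t s k)) := by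
  rw [gs, if_neg (by omega), show (2 * k + 1) / 2 = k by omega]

theorem mem_ls {S : Finset V} : S ∈ ls σ t L Sg Pt s ↔ ∃ i ≤ 2 * L s, gs σ t Sg Pt s i = S := by
  simp [ls]

theorem cnt_map (P : Finset V → Prop) (g : ℕ → Finset V) (n : ℕ) :
    cnt P ((List.range n).map g) = ((range n).filter fun i => P (g i)).card := by
  induction n with
  | zero => simp [cnt]
  | succ n ih =>
    unfold cnt at ih ⊢
    rw [List.range_succ, List.map_append, List.countP_append, ih, range_add_one, filter_insert]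
    by_cases hP : P (g n)
    · rw [if_pos hP, card_insert_of_notMem (by simp)]
      simp [hP]
    · simp [hP]

theorem card_le_cnt (P : Finset V → Prop) :
    ((range (L s + 1)).filter fun k => P (Sg (it σ t s k))).card ≤ cnt P (ls σ t L Sg Pt s) := by
  rw [ls, cnt_map]
  refine card_le_card_of_injOn (fun k => 2 * k) (fun k hk => ?_) fun a _ b _ e => by
    simpa using e
  obtain ⟨h1, h2⟩ := mem_filter.1 (mem_coe.1 hk)
  have := mem_range.1 h1
  exact mem_coe.2 (mem_filter.2 ⟨mem_range.2 (show 2 * k < _ by omega), by rwa [gs_even]⟩)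

/-- The sets attached to the ends. -/
structure Sets (G : SimpleGraph V) (E : Finset ε) (σ t : ε → ε) (node : ε → Option ν)
    (Big H : Finset V) (Sg Pt : ε → Finset V) : Prop where
  s1 : ∀ e ∈ E, Sg e ⊆ Big ∧ Conn G (Sg e) ∧ Sg (σ e) = Sg e ∧ Disjoint (Sg e) H
  s2 : ∀ e ∈ E, ∀ f ∈ E, f ≠ e → f ≠ σ e → Disjoint (Sg e) (Sg f)
  p1 : ∀ e ∈ E, node e ≠ none → Pt e ⊆ Big ∧ Conn G (Pt e) ∧ Pt (t e) = Pt e ∧
    Touch G (Pt e) (Sg e) ∧ (∀ f ∈ E, Disjoint (Pt e) (Sg f)) ∧ Disjoint (Pt e) H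
  p2 : ∀ e ∈ E, ∀ f ∈ E, node e ≠ none → node f ≠ none → f ≠ e → f ≠ t e →
    Disjoint (Pt e) (Pt f)

variable {Big H : Finset V}

theorem gs_basic (h : Ctx E σ t node L) (hS : Sets G E σ t node Big H Sg Pt) (hs : s ∈ E) {i : ℕ}
    (hi : i ≤ 2 * L s) : gs σ t Sg Pt s i ⊆ Big ∧ Conn G (gs σ t Sg Pt s i) ∧
      Disjoint (gs σ t Sg Pt s i) H := by
  obtain ⟨k, rfl | rfl⟩ := Nat.even_or_odd' i
  · rw [gs_even]
    have := hS.s1 _ (h.mem hs (show k ≤ L s by omega))
    exact ⟨this.1, this.2.1, this.2.2.2⟩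
  · rw [gs_odd]
    have := hS.p1 _ (h.smem _ (h.mem hs (show k ≤ L s by omega))) (h.mid s hs k (by omega))
    exact ⟨this.1, this.2.1, this.2.2.2.2.2⟩

theorem gs_disj (h : Ctx E σ t node L) (hS : Sets G E σ t node Big H Sg Pt) (hs : s ∈ E)
    (hs' : s' ∈ E) (f : node s = none) (f' : node s' = none) (hτ : s' ≠ tau σ t L s) {i i' : ℕ}
    (hi : i ≤ 2 * L s) (hi' : i' ≤ 2 * L s') (hne : s ≠ s' ∨ i ≠ i') :
    Disjoint (gs σ t Sg Pt s i) (gs σ t Sg Pt s' i') := by
  obtain ⟨k, rfl | rfl⟩ := Nat.even_or_odd' i <;> obtain ⟨k', rfl | rfl⟩ := Nat.even_or_odd' i'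
  all_goals
    have m1 := h.mem hs (show k ≤ L s by omega)
    have m2 := h.mem hs' (show k' ≤ L s' by omega)
  · rw [gs_even, gs_even]
    refine hS.s2 _ m1 _ m2 (fun e => ?_) fun e => hτ (h.cross hs hs' f f' (by omega) (by omega) e)
    obtain ⟨e1, e2⟩ := h.inj hs' hs f' f (by omega) (by omega) e
    rcases hne with hn | hn
    · exact hn e1.symm
    · omega
  · rw [gs_even, gs_odd]
    exact ((hS.p1 _ (h.smem _ m2) (h.mid s' hs' k' (by omega))).2.2.2.2.1 _ m1).symm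
  · rw [gs_even, gs_odd]
    exact (hS.p1 _ (h.smem _ m1) (h.mid s hs k (by omega))).2.2.2.2.1 _ m2
  · rw [gs_odd, gs_odd]
    refine hS.p2 _ (h.smem _ m1) _ (h.smem _ m2) (h.mid s hs k (by omega))
      (h.mid s' hs' k' (by omega)) (fun e => ?_) fun e => ?_
    · have e0 := congrArg σ e
      rw [h.sinv _ m1, h.sinv _ m2] at e0
      obtain ⟨e1, e2⟩ := h.inj hs' hs f' f (by omega) (by omega) e0
      rcases hne with hn | hn
      · exact hn e1.symm
      · omega
    · have e0 := congrArg σ e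
      rw [h.sinv _ m2, ← it_succ (σ := σ) (t := t)] at e0
      exact hτ (h.cross hs hs' f f' (by omega) (by omega) e0)

theorem gs_touch (h : Ctx E σ t node L) (hS : Sets G E σ t node Big H Sg Pt) (hs : s ∈ E) {i : ℕ}
    (hi : i < 2 * L s) : Touch G (gs σ t Sg Pt s i) (gs σ t Sg Pt s (i + 1)) := by
  obtain ⟨k, rfl | rfl⟩ := Nat.even_or_odd' i
  all_goals
    have m1 := h.mem hs (show k ≤ L s by omega)
    have n1 := h.mid s hs k (by omega)
  · rw [gs_even, gs_odd, ← (hS.s1 _ m1).2.2.1]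
    exact (hS.p1 _ (h.smem _ m1) n1).2.2.2.1.symm
  · rw [gs_odd, show 2 * k + 1 + 1 = 2 * (k + 1) by ring, gs_even,
      ← (hS.p1 _ (h.smem _ m1) n1).2.2.1, ← it_succ (σ := σ) (t := t)]
    exact (hS.p1 _ (h.mem hs (by omega)) (h.nf hs (by omega) (by omega))).2.2.2.1

theorem ls_ok (h : Ctx E σ t node L) (hS : Sets G E σ t node Big H Sg Pt) (hs : s ∈ E)
    (f : node s = none) : SeqOK G Big (ls σ t L Sg Pt s) := by
  refine ⟨fun S hS' => ?_, fun S hS' => ?_, ?_, ?_⟩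
  · obtain ⟨i, hi, rfl⟩ := mem_ls.1 hS'
    exact (gs_basic h hS hs hi).1
  · obtain ⟨i, hi, rfl⟩ := mem_ls.1 hS'
    exact (gs_basic h hS hs hi).2.1
  · rw [ls, List.pairwise_map]
    refine List.pairwise_lt_range.imp_of_mem fun {i j} hi hj hij => ?_
    have := List.mem_range.1 hi
    have := List.mem_range.1 hj
    exact gs_disj h hS hs hs f f (h.tau_ne hs).symm (by omega) (by omega) (Or.inr hij.ne)
  · rw [ls, List.isChain_map, List.isChain_range_succ]
    exact fun i hi => gs_touch h hS hs hi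

theorem ls_head : (ls σ t L Sg Pt s).head? = some (Sg s) := by
  rw [ls, List.range_succ_eq_map]
  simp [gs, it_zero]

theorem ls_last : (ls σ t L Sg Pt s).getLast? = some (Sg (it σ t s (L s))) := by
  rw [ls, List.range_succ, List.map_append]
  simp [gs_even]

/-- The marked ends are counted by one trail of each pair. -/
theorem count (h : Ctx E σ t node L) (hS : Sets G E σ t node Big H Sg Pt) (P : Finset V → Prop)
    {I : Finset ε} (hI : ∀ s ∈ E, node s = none → s ∈ I ∨ tau σ t L s ∈ I) :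
    (E.filter fun e => P (Sg e)).card ≤ 2 * ∑ s ∈ I, cnt P (ls σ t L Sg Pt s) := by
  have h1 : (E.filter fun e => P (Sg e)) ⊆ I.biUnion fun s =>
      ((range (L s + 1)).filter fun k => P (Sg (it σ t s k))).image (it σ t s) ∪
      ((range (L s + 1)).filter fun k => P (Sg (it σ t s k))).image fun k => σ (it σ t s k) := by
    intro e he
    obtain ⟨he, hP⟩ := mem_filter.1 he
    obtain ⟨s, hs, f, k, hk, rfl⟩ := h.cover he
    rcases hI s hs f with hi | hi
    · exact mem_biUnion.2 ⟨s, hi, mem_union_left _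
        (mem_image.2 ⟨k, mem_filter.2 ⟨mem_range.2 (by omega), hP⟩, rfl⟩)⟩
    · have e1 := h.rev hs (show L s - k ≤ L s by omega)
      rw [show L s - (L s - k) = k by omega] at e1
      have e2 := h.len_eq hs f
      refine mem_biUnion.2 ⟨_, hi, mem_union_right _ (mem_image.2 ⟨L s - k,
        mem_filter.2 ⟨mem_range.2 (by omega), ?_⟩, ?_⟩)⟩
      · rw [e1, (hS.s1 _ he).2.2.1]
        exact hP
      · rw [e1, h.sinv _ he]
  refine (card_le_card h1).trans (card_biUnion_le.trans ?_)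
  rw [mul_sum]
  refine sum_le_sum fun s _ => (card_union_le _ _).trans ?_
  have h2 := card_le_cnt (σ := σ) (t := t) (L := L) (Sg := Sg) (Pt := Pt) (s := s) P
  have h3 := card_image_le (s := (range (L s + 1)).filter fun k => P (Sg (it σ t s k)))
    (f := it σ t s)
  have h4 := card_image_le (s := (range (L s + 1)).filter fun k => P (Sg (it σ t s k)))
    (f := fun k => σ (it σ t s k))
  omega

/-- Linking the ends of pieces of one type through the two hairs. -/
theorem link {ι : Type} {I A B : Finset ι} {g : ι × Bool → V} {ty : ι × Bool → Bool}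
    {Hr T : Bool → Finset V} (hH : ∀ j, AllLinked G (Hr j) (T j))
    (hd : Disjoint (Hr false) (Hr true)) (hg : Set.InjOn g (I ×ˢ (univ : Finset Bool) : Finset _))
    (hT : ∀ i ∈ I, ∀ b, g (i, b) ∈ T (ty (i, b))) {c : Bool → ℕ}
    (hc : ∀ i ∈ I, ∀ j, (univ.filter fun b => ty (i, b) = j).card = c j) (hA : A ⊆ I)
    (hB : B ⊆ I) (hAB : Disjoint A B) (hle : A.card ≤ B.card) :
    ∃ Q : ι × Bool → Finset V, (∀ e ∈ A ×ˢ (univ : Finset Bool), Q e ⊆ Hr false ∪ Hr true ∧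
      Conn G (Q e) ∧ g e ∈ Q e ∧ ∃ i ∈ B, ∃ j, g (i, j) ∈ Q e) ∧
      ∀ e ∈ A ×ˢ (univ : Finset Bool), ∀ e' ∈ A ×ˢ (univ : Finset Bool), e ≠ e' →
        Disjoint (Q e) (Q e') := by
  have hcard : ∀ C ⊆ I, ∀ j,
      ((C ×ˢ (univ : Finset Bool)).filter fun e => ty e = j).card = C.card * c j := by
    intro C hC j
    rw [card_filter, sum_product, ← smul_eq_mul, ← sum_const]
    exact sum_congr rfl fun i hi => by rw [← hc i (hC hi) j, card_filter]
  have hsub : ∀ C ⊆ I, C ×ˢ (univ : Finset Bool) ⊆ I ×ˢ (univ : Finset Bool) :=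
    fun C hC => product_subset_product_left hC
  have key : ∀ j, ∃ P : V → Finset V, (∀ e ∈ A ×ˢ (univ : Finset Bool), ty e = j →
      P (g e) ⊆ Hr j ∧ Conn G (P (g e)) ∧ g e ∈ P (g e) ∧ ∃ i ∈ B, ∃ b, g (i, b) ∈ P (g e)) ∧
      ∀ e ∈ A ×ˢ (univ : Finset Bool), ∀ e' ∈ A ×ˢ (univ : Finset Bool), ty e = j → ty e' = j →
        e ≠ e' → Disjoint (P (g e)) (P (g e')) := by
    intro j
    obtain ⟨B', hB', hcB⟩ := exists_subset_card_eq
      (s := (B ×ˢ (univ : Finset Bool)).filter fun e => ty e = j) (n := A.card * c j)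
      (by rw [hcard B hB]; exact Nat.mul_le_mul_right _ hle)
    have hA1 : ((A ×ˢ (univ : Finset Bool)).filter fun e => ty e = j) ⊆ I ×ˢ univ :=
      (filter_subset _ _).trans (hsub A hA)
    have hB1 : B' ⊆ I ×ˢ univ := hB'.trans ((filter_subset _ _).trans (hsub B hB))
    obtain ⟨P, p1, p2⟩ := hH j (((A ×ˢ (univ : Finset Bool)).filter fun e => ty e = j).image g)
      (by
        intro x hx
        obtain ⟨e, he, rfl⟩ := mem_image.1 hx
        obtain ⟨e1, e2⟩ := mem_filter.1 he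
        exact e2 ▸ hT e.1 (hA (mem_product.1 e1).1) e.2) (B'.image g)
      (by
        intro x hx
        obtain ⟨e, he, rfl⟩ := mem_image.1 hx
        obtain ⟨e1, e2⟩ := mem_filter.1 (hB' he)
        exact e2 ▸ hT e.1 (hB (mem_product.1 e1).1) e.2)
      (by
        refine disjoint_left.2 fun x hx hx' => ?_
        obtain ⟨e, he, rfl⟩ := mem_image.1 hx
        obtain ⟨e', he', e0⟩ := mem_image.1 hx'
        obtain rfl := hg (hB1 he') (hA1 he) e0
        exact disjoint_left.1 hAB (mem_product.1 (mem_filter.1 he).1).1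
          (mem_product.1 (mem_filter.1 (hB' he')).1).1)
      (by rw [card_image_of_injOn (hg.mono hA1), card_image_of_injOn (hg.mono hB1), hcard A hA,
        hcB])
    refine ⟨P, fun e he hj => ?_, fun e he e' he' hj hj' hne => ?_⟩
    · obtain ⟨q1, q2, q3, y, hy, q4⟩ := p1 (g e) (mem_image_of_mem _ (mem_filter.2 ⟨he, hj⟩))
      obtain ⟨e', he', rfl⟩ := mem_image.1 hy
      exact ⟨q1, q2, q3, e'.1, (mem_product.1 (mem_filter.1 (hB' he')).1).1, e'.2, q4⟩
    · exact p2 _ (mem_image_of_mem _ (mem_filter.2 ⟨he, hj⟩)) _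
        (mem_image_of_mem _ (mem_filter.2 ⟨he', hj'⟩))
        fun e0 => hne (hg (hsub A hA he) (hsub A hA he') e0)
  choose P p1 p2 using key
  refine ⟨fun e => P (ty e) (g e), fun e he => ?_, fun e he e' he' hne => ?_⟩
  · obtain ⟨q1, q2⟩ := p1 _ e he rfl
    refine ⟨q1.trans ?_, q2⟩
    cases ty e
    · exact subset_union_left
    · exact subset_union_right
  · by_cases hj : ty e' = ty e
    · show Disjoint (P (ty e) (g e)) (P (ty e') (g e'))
      rw [hj]
      exact p2 _ e he e' he' rfl hj hne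
    · refine Disjoint.mono (p1 _ e he rfl).1 (p1 _ e' he' rfl).1 ?_
      revert hj
      cases ty e <;> cases ty e' <;> simp [hd, hd.symm]

end NET

open NET

theorem net (hPAIR : PAIRStmt) (hPM : PMStmt) : NETStmt := by
  intro V ε ν G Big E σ node pos Sg h ty Hr T P m hE h1 h2 h3 h4 h5 h6 h7 h8
  obtain ⟨t, δ, r, hP, hr⟩ := hPAIR E σ node pos hE
  obtain ⟨Pt, p1, p2⟩ := h7 t δ hP
  obtain ⟨L, hL⟩ := exists_len hE.mem hP.mem r hr
  have hc : Ctx E σ t node L := ⟨hE.mem, hE.inv, hE.ne, hP.mem, hP.inv, hP.ne, hP.nd,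
    fun a ha => (hL a ha).1, fun a ha => (hL a ha).2⟩
  have hS : Sets G E σ t node Big (Hr false ∪ Hr true) Sg Pt :=
    ⟨fun e he => ⟨(h1 e he).1, (h1 e he).2.1, (h1 e he).2.2.1,
      disjoint_union_right.2 ⟨(h1 e he).2.2.2 _, (h1 e he).2.2.2 _⟩⟩, h2,
      fun e he hn => by
        obtain ⟨a1, a2, a3, a4, a5, a6⟩ := p1 e he hn
        exact ⟨a1, a2, a3, a4, a5, disjoint_union_right.2 ⟨a6 _, a6 _⟩⟩, p2⟩
  obtain ⟨I, i1, i2, i3⟩ : ∃ I : Finset ε, (∀ s ∈ I, s ∈ E ∧ node s = none) ∧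
      (∀ s ∈ I, tau σ t L s ∉ I) ∧ ∀ s ∈ E, node s = none → s ∈ I ∨ tau σ t L s ∈ I := by
    refine ⟨E.filter fun s => node s = none ∧ WellOrderingRel s (tau σ t L s),
      fun s hs => ⟨(mem_filter.1 hs).1, (mem_filter.1 hs).2.1⟩, fun s hs hs' => ?_,
      fun s hs f => ?_⟩
    · obtain ⟨a1, a2, a3⟩ := mem_filter.1 hs
      have a4 := (mem_filter.1 hs').2.2
      rw [hc.tau_tau a1 a2] at a4
      exact asymm a3 a4
    · rcases trichotomous_of WellOrderingRel s (tau σ t L s) with a | a | a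
      · exact Or.inl (mem_filter.2 ⟨hs, f, a⟩)
      · exact absurd a.symm (hc.tau_ne hs)
      · exact Or.inr (mem_filter.2 ⟨hc.tau_mem hs, hc.tau_free hs, by rwa [hc.tau_tau hs f]⟩)
  obtain ⟨en, e0, e1⟩ : ∃ en : ε × Bool → ε, (∀ i, en (i, false) = i) ∧
      ∀ i, en (i, true) = tau σ t L i :=
    ⟨fun e => if e.2 then tau σ t L e.1 else e.1, fun _ => rfl, fun _ => rfl⟩
  have hen : ∀ i ∈ I, ∀ b, en (i, b) ∈ E ∧ node (en (i, b)) = none := by
    intro i hi b
    cases b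
    · rw [e0]
      exact i1 i hi
    · rw [e1]
      exact ⟨hc.tau_mem (i1 i hi).1, hc.tau_free (i1 i hi).1⟩
  have hinj : Set.InjOn (fun e => h (en e)) (I ×ˢ (univ : Finset Bool) : Finset _) := by
    rintro ⟨i, b⟩ he ⟨i', b'⟩ he' e
    have hi : i ∈ I := (mem_product.1 (mem_coe.1 he)).1
    have hi' : i' ∈ I := (mem_product.1 (mem_coe.1 he')).1
    have e2 := h6 _ (hen i hi b).1 _ (hen i' hi' b').1 (hen i hi b).2 (hen i' hi' b').2 e
    cases b <;> cases b' <;> simp only [e0, e1] at e2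
    · rw [e2]
    · exact absurd (e2 ▸ hi) (i2 i' hi')
    · exact absurd (e2 ▸ hi') (i2 i hi)
    · have e3 := congrArg (tau σ t L) e2
      rw [hc.tau_tau (i1 i hi).1 (i1 i hi).2, hc.tau_tau (i1 i' hi').1 (i1 i' hi').2] at e3
      rw [e3]
  have main : ∀ v : ℕ, ∃ l, SeqOK G Big l ∧
      ∑ i ∈ I.filter (fun i => (univ.filter fun b => ty (en (i, b)) = false).card = v),
        cnt P (ls σ t L Sg Pt i) ≤ 3 * cnt P l := by
    intro v
    refine hPM Big (Hr false ∪ Hr true) _ (ls σ t L Sg Pt) (fun e => h (en e)) P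
      (union_subset (h3 _).1 (h3 _).1) (fun i hi => ?_) (fun i hi i' hi' hne S hS1 S' hS2 => ?_)
      fun A hA B hB hAB hcd => ?_
    · have hi' := (mem_filter.1 hi).1
      obtain ⟨m1, f1⟩ := i1 i hi'
      refine ⟨ls_ok hc hS m1 f1, fun S hS' => ?_, fun j => ?_, ⟨_, ls_head, ?_⟩, _, ls_last, ?_⟩
      · obtain ⟨k, hk, rfl⟩ := mem_ls.1 hS'
        exact (gs_basic hc hS m1 hk).2.2
      · have := (h3 _).2.1 (h5 _ (hen i hi' j).1 (hen i hi' j).2).1
        revert this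
        cases ty (en (i, j))
        · exact mem_union_left _
        · exact mem_union_right _
      · simp only [e0]
        exact (h5 i m1 f1).2
      · simp only [e1]
        rw [← (h1 _ (hc.mem m1 le_rfl)).2.2.1]
        exact (h5 _ (hc.tau_mem m1) (hc.tau_free m1)).2
    · obtain ⟨k, hk, rfl⟩ := mem_ls.1 hS1
      obtain ⟨k', hk', rfl⟩ := mem_ls.1 hS2
      have a1 := (mem_filter.1 hi).1
      have a2 := (mem_filter.1 hi').1
      exact gs_disj hc hS (i1 i a1).1 (i1 i' a2).1 (i1 i a1).2 (i1 i' a2).2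
        (fun e => i2 i a1 (e ▸ a2)) hk hk' (Or.inl hne)
    · refine link (ty := fun e => ty (en e)) (c := fun j => if j then 2 - v else v)
        (fun j => (h3 j).2.2) h4
        (hinj.mono (coe_subset.2 (product_subset_product_left (filter_subset _ _))))
        (fun i hi b => (h5 _ (hen i (mem_filter.1 hi).1 b).1 (hen i (mem_filter.1 hi).1 b).2).1)
        (fun i hi j => ?_) hA hB hAB (by omega)
      have a1 := (mem_filter.1 hi).2
      cases j
      · simpa using a1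
      · have a2 := card_filter_add_card_filter_not (s := (univ : Finset Bool))
          fun b => ty (en (i, b)) = false
        simp only [card_univ, Fintype.card_bool, Bool.not_eq_false] at a2
        simp only [if_true]
        omega
  have hcount := count hc hS P i3
  have hsplit := sum_fiberwise_of_maps_to (s := I) (t := range 3)
    (g := fun i => (univ.filter fun b => ty (en (i, b)) = false).card)
    (fun i _ => mem_range.2 (Nat.lt_succ_of_le ((card_filter_le _ _).trans (by simp))))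
    fun i => cnt P (ls σ t L Sg Pt i)
  simp only [sum_range_succ, range_zero, sum_empty, zero_add] at hsplit
  obtain ⟨l0, a0, b0⟩ := main 0
  obtain ⟨l1, a1, b1⟩ := main 1
  obtain ⟨l2, a2, b2⟩ := main 2
  by_cases c0 : m ≤ cnt P l0
  · exact ⟨l0, a0, c0⟩
  by_cases c1 : m ≤ cnt P l1
  · exact ⟨l1, a1, c1⟩
  exact ⟨l2, a2, by omega⟩

end Pool.Agent.MP_7be75d_co.Gen

end MrgPart0

-- ======== part 1: formerly Pool.Agent.MP_7be75d_co.Gen.NOK
section MrgPart1

/-! The lattice has no model of the complete bipartite graph on three plus three vertices, and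
markers in the lattice can be turned. -/

namespace Pool.Agent.MP_7be75d_co.Gen

open Finset
open scoped Classical

namespace NOK

theorem adjZ {p q : ℤ × ℤ} : gridZ.Adj p q ↔ (q.1 = p.1 + 1 ∧ q.2 = p.2) ∨
    (q.1 = p.1 ∧ q.2 = p.2 + 1) ∨ (p.1 = q.1 + 1 ∧ p.2 = q.2) ∨ (p.1 = q.1 ∧ p.2 = q.2 + 1) := by
  simp only [gridZ, SimpleGraph.fromRel_adj, ne_eq, Prod.ext_iff]
  omega

theorem adjN {p q : ℕ × ℕ} : gridN.Adj p q ↔ (q.1 = p.1 + 1 ∧ q.2 = p.2) ∨
    (q.1 = p.1 ∧ q.2 = p.2 + 1) ∨ (p.1 = q.1 + 1 ∧ p.2 = q.2) ∨ (p.1 = q.1 ∧ p.2 = q.2 + 1) := by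
  simp only [gridN, SimpleGraph.fromRel_adj, ne_eq, Prod.ext_iff]
  omega

/-- The step from `u` to `u'` crosses the ray going left from the point up and right of `q`. -/
def Up (u u' q : ℤ × ℤ) : Prop :=
  u.1 = u'.1 ∧ u.1 ≤ q.1 ∧ ((u.2 = q.2 ∧ u'.2 = q.2 + 1) ∨ (u'.2 = q.2 ∧ u.2 = q.2 + 1))

/-- The step from `u` to `u'` crosses the ray going right from the point down and left of `q`. -/
def Dn (u u' q : ℤ × ℤ) : Prop :=
  u.1 = u'.1 ∧ q.1 ≤ u.1 ∧ ((u.2 = q.2 ∧ u'.2 + 1 = q.2) ∨ (u'.2 = q.2 ∧ u.2 + 1 = q.2))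

/-- The lexicographic order. -/
def Ab (p q : ℤ × ℤ) : Prop := q.2 < p.2 ∨ (q.2 = p.2 ∧ q.1 < p.1)

/-- The indicator modulo two. -/
noncomputable def ind (P : Prop) : ZMod 2 := if P then 1 else 0

theorem ind_four {P Q P' Q' : Prop} (h : (P ↔ Q) ↔ (P' ↔ Q')) :
    ind P + ind Q = ind P' + ind Q' := by
  unfold ind
  by_cases h1 : P <;> by_cases h2 : Q <;> by_cases h3 : P' <;> by_cases h4 : Q' <;>
    simp only [h1, h2, h3, h4, if_true, if_false] at h ⊢ <;> first | decide | simp at h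

theorem id1 {u u' p p' : ℤ × ℤ} (hu : gridZ.Adj u u') (hp : gridZ.Adj p p') (h1 : u ≠ p)
    (h2 : u ≠ p') (h3 : u' ≠ p) (h4 : u' ≠ p') :
    ind (Up u u' p) + ind (Up u u' p') = ind (Dn p p' u) + ind (Dn p p' u') := by
  refine ind_four ?_
  simp only [adjZ, ne_eq, Prod.ext_iff] at hu hp h1 h2 h3 h4
  unfold Up Dn
  rcases hu with hu | hu | hu | hu <;> rcases hp with hp | hp | hp | hp <;> omega

theorem id2 {u u' q : ℤ × ℤ} (hu : gridZ.Adj u u') (h1 : u ≠ q) (h2 : u' ≠ q) :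
    ind (Up u u' q) + ind (Dn u u' q) = ind (Ab u q) + ind (Ab u' q) := by
  refine ind_four ?_
  simp only [adjZ, ne_eq, Prod.ext_iff] at hu h1 h2
  unfold Up Dn Ab
  rcases hu with hu | hu | hu | hu <;> omega

theorem id3 {p q : ℤ × ℤ} (h : p ≠ q) : ind (Ab p q) + ind (Ab q p) = 1 := by
  have := ind_four (P := Ab p q) (Q := Ab q p) (P' := True) (Q' := False) (by
    simp only [ne_eq, Prod.ext_iff] at h
    unfold Ab
    simp only [iff_false, not_true]
    omega)
  simpa [ind] using this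

theorem tele (x : ℕ → ZMod 2) (L : ℕ) : ∑ t ∈ range L, (x t + x (t + 1)) = x 0 + x L := by
  induction L with
  | zero => simp [CharTwo.add_self_eq_zero]
  | succ n ih =>
    rw [sum_range_succ, ih, add_assoc, ← add_assoc (x n), CharTwo.add_self_eq_zero, zero_add]

/-- The number of crossings of a walk with the left ray. -/
noncomputable def FU (L : ℕ) (f : ℕ → ℤ × ℤ) (q : ℤ × ℤ) : ZMod 2 :=
  ∑ s ∈ range L, ind (Up (f s) (f (s + 1)) q)

/-- The number of crossings of a walk with the right ray. -/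
noncomputable def FD (L : ℕ) (f : ℕ → ℤ × ℤ) (q : ℤ × ℤ) : ZMod 2 :=
  ∑ s ∈ range L, ind (Dn (f s) (f (s + 1)) q)

theorem walk1 {L L' : ℕ} {f g : ℕ → ℤ × ℤ} (hf : ∀ s < L, gridZ.Adj (f s) (f (s + 1)))
    (hg : ∀ t < L', gridZ.Adj (g t) (g (t + 1))) (h : ∀ s ≤ L, ∀ t ≤ L', f s ≠ g t) :
    FU L f (g 0) + FU L f (g L') = FD L' g (f 0) + FD L' g (f L) := by
  rw [← tele (fun t => FU L f (g t)), ← tele (fun s => FD L' g (f s))]
  simp only [FU, FD, ← sum_add_distrib]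
  rw [sum_comm]
  refine sum_congr rfl fun s hs => sum_congr rfl fun t ht => ?_
  rw [mem_range] at hs ht
  exact id1 (hf s hs) (hg t ht) (h _ hs.le _ ht.le) (h _ hs.le _ ht) (h _ hs _ ht.le) (h _ hs _ ht)

theorem walk2 {L : ℕ} {f : ℕ → ℤ × ℤ} {q : ℤ × ℤ} (hf : ∀ s < L, gridZ.Adj (f s) (f (s + 1)))
    (h : ∀ s ≤ L, f s ≠ q) : FU L f q + FD L f q = ind (Ab (f 0) q) + ind (Ab (f L) q) := by
  rw [← tele (fun s => ind (Ab (f s) q))]
  simp only [FU, FD, ← sum_add_distrib]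
  refine sum_congr rfl fun s hs => ?_
  rw [mem_range] at hs
  exact id2 (hf s hs) (h _ hs.le) (h _ hs)

section generic

variable {V W : Type} {G : SimpleGraph V} {H : SimpleGraph W}

theorem path_two {S T : Finset V} {a b : V} (hS : Conn G S) (hT : Conn G T) (h : Touch G S T)
    (ha : a ∈ S) (hb : b ∈ T) : ∃ (L : ℕ) (f : ℕ → V), f 0 = a ∧ f L = b ∧
      (∀ j ≤ L, f j ∈ S ∨ f j ∈ T) ∧ ∀ j < L, G.Adj (f j) (f (j + 1)) := by
  obtain ⟨L, f, h1, h2, h3, h4, -⟩ := ((hS.union_touch hT h).2 _ (mem_union_left _ ha) _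
    (mem_union_right _ hb)).exists_path (mem_union_left _ ha)
  exact ⟨L, f, h1, h2, fun j hj => mem_union.1 (h3 j hj), h4⟩

theorem conn_attach {S C : Finset V} (hC : Conn G C) (hCS : C ⊆ S)
    (h : ∀ b ∈ S, b ∈ C ∨ ∃ T ⊆ S, Conn G T ∧ Touch G C T ∧ b ∈ T) : Conn G S := by
  obtain ⟨a, ha⟩ := hC.1
  refine Conn.of_center (hCS ha) fun b hb => ?_
  rcases h b hb with hb | ⟨T, h1, h2, h3, h4⟩
  · exact hC.r ha hb hCS
  · exact (hC.union_touch h2 h3).r (mem_union_left _ ha) (mem_union_right _ h4)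
      (union_subset hCS h1)

theorem conn_cover {I : Finset W} {θ : W → Finset V} {S : Finset V} (hI : Conn H I)
    (hS : ∀ v, v ∈ S ↔ ∃ i ∈ I, v ∈ θ i) (h1 : ∀ i ∈ I, Conn G (θ i))
    (h2 : ∀ i ∈ I, ∀ j ∈ I, H.Adj i j → Touch G (θ i) (θ j)) : Conn G S := by
  have : S = I.biUnion θ := by ext v; rw [hS, mem_biUnion]
  rw [this]
  exact hI.biUnion h1 h2

theorem conn_walk {f : ℕ → V} {n : ℕ} {S : Finset V} (hS : ∀ v, v ∈ S ↔ ∃ k ≤ n, v = f k)
    (h : ∀ j < n, G.Adj (f j) (f (j + 1))) : Conn G S := by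
  have : S = (Icc 0 n).image f := by
    ext v; simp only [hS, mem_image, mem_Icc, zero_le, true_and, eq_comm]
  rw [this]
  exact conn_segment (Nat.zero_le n) fun j _ hj => h j hj

end generic

/-- The arm inside a block of side five that comes from direction `d`, straight or turned. -/
def arm (r : Bool) (d : Fin 4) (k : Fin 4) : ℤ × ℤ :=
  if r then ![dirv d + dirv d, dirv d + dirv d + dirv (d + 3), dirv d + dirv (d + 3), dirv (d + 3)] k
  else ![dirv d + dirv d, dirv d, dirv d + dirv d, dirv d] k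

theorem arm_box : ∀ r d k, -2 ≤ (arm r d k).1 ∧ (arm r d k).1 ≤ 2 ∧ -2 ≤ (arm r d k).2 ∧
    (arm r d k).2 ≤ 2 ∧ ((arm r d k).1 ≠ 0 ∨ (arm r d k).2 ≠ 0) := by decide

theorem arm_inj : ∀ r d d' k k', (arm r d k).1 = (arm r d' k').1 →
    (arm r d k).2 = (arm r d' k').2 → d = d' := by decide

theorem arm_adj : ∀ r d (k k' : Fin 4), k'.1 = k.1 + 1 →
    ((arm r d k').1 = (arm r d k).1 + 1 ∧ (arm r d k').2 = (arm r d k).2) ∨
    ((arm r d k').1 = (arm r d k).1 ∧ (arm r d k').2 = (arm r d k).2 + 1) ∨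
    ((arm r d k).1 = (arm r d k').1 + 1 ∧ (arm r d k).2 = (arm r d k').2) ∨
    ((arm r d k).1 = (arm r d k').1 ∧ (arm r d k).2 = (arm r d k').2 + 1) := by decide

theorem arm_zero : ∀ r d, (arm r d 0).1 = 2 * (dirv d).1 ∧ (arm r d 0).2 = 2 * (dirv d).2 := by
  decide

theorem arm_three : ∀ r d, arm r d 3 = dirv (if r then d + 3 else d) := by decide

theorem dirv_opp : ∀ d, (dirv (d + 2)).1 = -(dirv d).1 ∧ (dirv (d + 2)).2 = -(dirv d).2 := by
  decide

theorem dirv_unit : ∀ d, ((dirv d).1 = 1 ∧ (dirv d).2 = 0) ∨ ((dirv d).1 = 0 ∧ (dirv d).2 = 1) ∨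
    ((dirv d).1 = -1 ∧ (dirv d).2 = 0) ∨ ((dirv d).1 = 0 ∧ (dirv d).2 = -1) := by decide

theorem adj_dirv {p q : ℤ × ℤ} (h : gridZ.Adj p q) :
    ∃ d, q.1 = p.1 + (dirv d).1 ∧ q.2 = p.2 + (dirv d).2 := by
  rcases adjZ.1 h with h | h | h | h
  · exact ⟨0, by simp [dirv]; omega⟩
  · exact ⟨1, by simp [dirv]; omega⟩
  · exact ⟨2, by simp [dirv]; omega⟩
  · exact ⟨3, by simp [dirv]; omega⟩

/-- The point `q` of the block of `p`. -/
def at5 (p q : ℤ × ℤ) : ℤ × ℤ := (5 * p.1 + q.1, 5 * p.2 + q.2)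

/-- An arm in the block of `p`. -/
def armS (p : ℤ × ℤ) (r : Bool) (d : Fin 4) : Finset (ℤ × ℤ) :=
  univ.image fun k => at5 p (arm r d k)

theorem mem_armS {p v : ℤ × ℤ} {r : Bool} {d : Fin 4} :
    v ∈ armS p r d ↔ ∃ k, v = at5 p (arm r d k) := by simp [armS, eq_comm]

theorem conn_armS (p : ℤ × ℤ) (r : Bool) (d : Fin 4) : Conn gridZ (armS p r d) := by
  refine conn_walk (n := 3) (f := fun j => at5 p (arm r d (Fin.ofNat 4 j))) (fun v => ?_) ?_
  · rw [mem_armS]
    constructor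
    · rintro ⟨k, rfl⟩
      exact ⟨k.1, by omega, by simp⟩
    · rintro ⟨k, -, rfl⟩
      exact ⟨_, rfl⟩
  · intro j hj
    have := arm_adj r d (Fin.ofNat 4 j) (Fin.ofNat 4 (j + 1)) (by simp [Fin.ofNat]; omega)
    simp only [adjZ, at5]
    omega

/-- The cross in the block of `p` together with the arms of neighbouring markers. -/
noncomputable def big (M : ℤ × ℤ → Prop) (r : ℤ × ℤ → Bool) (p : ℤ × ℤ) : Finset (ℤ × ℤ) :=
  insert (at5 p 0) (univ.biUnion fun d => armS p false d ∪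
    if M (p - dirv d) then armS (p - dirv d) (r (p - dirv d)) d else ∅)

theorem mem_big {M : ℤ × ℤ → Prop} {r : ℤ × ℤ → Bool} {p v : ℤ × ℤ} : v ∈ big M r p ↔
    v = at5 p 0 ∨ (∃ d k, v = at5 p (arm false d k)) ∨
      ∃ d k, M (p - dirv d) ∧ v = at5 (p - dirv d) (arm (r (p - dirv d)) d k) := by
  simp only [big, mem_insert, mem_biUnion, mem_univ, true_and, mem_union, mem_armS, exists_or]
  refine or_congr Iff.rfl (or_congr Iff.rfl (exists_congr fun d => ?_))
  split_ifs with h <;> simp [h, mem_armS]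

theorem conn_big (M : ℤ × ℤ → Prop) (r : ℤ × ℤ → Bool) (p : ℤ × ℤ) : Conn gridZ (big M r p) := by
  have hs : ∀ d, armS p false d ⊆ big M r p := fun d v hv =>
    mem_big.2 (Or.inr (Or.inl ⟨d, mem_armS.1 hv⟩))
  have ht : ∀ d, Touch gridZ {at5 p 0} (armS p false d) := fun d =>
    ⟨_, mem_singleton_self _, _, mem_armS.2 ⟨3, rfl⟩, by
      have := dirv_unit d
      simp only [adjZ, at5, arm_three, Prod.fst_zero, Prod.snd_zero, Bool.false_eq_true, if_false]
      omega⟩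
  have h0 : {at5 p 0} ⊆ big M r p := by simp [mem_big]
  have key : ∀ d, ∃ C ⊆ big M r p, Conn gridZ C ∧ at5 p 0 ∈ C ∧ armS p false d ⊆ C := fun d =>
    ⟨insert (at5 p 0) (armS p false d), insert_subset (h0 (mem_singleton_self _)) (hs d),
      conn_attach (Conn.singleton _) (by simp) fun b hb => (mem_insert.1 hb).imp (by simp)
        fun hb => ⟨_, subset_insert _ _, conn_armS _ _ _, ht d, hb⟩, mem_insert_self _ _,
      subset_insert _ _⟩
  refine Conn.of_center (h0 (mem_singleton_self _)) fun b hb => ?_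
  rcases mem_big.1 hb with rfl | ⟨d, hb⟩ | ⟨d, k, h1, rfl⟩
  · exact R.refl
  · obtain ⟨C, c1, c2, c3, c4⟩ := key d
    exact c2.r c3 (c4 (mem_armS.2 hb)) c1
  · obtain ⟨C, c1, c2, c3, c4⟩ := key (d + 2)
    have hs' : armS (p - dirv d) (r (p - dirv d)) d ⊆ big M r p := fun v hv =>
      mem_big.2 (Or.inr (Or.inr ⟨d, (mem_armS.1 hv).imp fun _ h => ⟨h1, h⟩⟩))
    refine ((c2.r c3 (c4 (mem_armS.2 ⟨0, rfl⟩)) c1).tail ?_ (hs _ (mem_armS.2 ⟨0, rfl⟩))
      (hs' (mem_armS.2 ⟨0, rfl⟩))).trans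
      ((conn_armS _ _ _).r (mem_armS.2 ⟨0, rfl⟩) (mem_armS.2 ⟨k, rfl⟩) hs')
    have := dirv_unit d
    simp only [adjZ, at5, arm_zero, dirv_opp, Prod.fst_sub, Prod.snd_sub]
    omega

theorem touch_big (M : ℤ × ℤ → Prop) (r : ℤ × ℤ → Bool) {p q : ℤ × ℤ} (h : gridZ.Adj p q) :
    Touch gridZ (big M r p) (big M r q) := by
  obtain ⟨d, h1, h2⟩ := adj_dirv h
  refine ⟨_, mem_big.2 (Or.inr (Or.inl ⟨d, 0, rfl⟩)), _,
    mem_big.2 (Or.inr (Or.inl ⟨d + 2, 0, rfl⟩)), ?_⟩
  have := dirv_unit d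
  simp only [adjZ, at5, arm_zero, dirv_opp]
  omega

/-- Every point of a big set lies in one block. -/
theorem big_cases {M : ℤ × ℤ → Prop} {r : ℤ × ℤ → Bool} {p v : ℤ × ℤ} (h : v ∈ big M r p) :
    (∃ q : ℤ × ℤ, -2 ≤ q.1 ∧ q.1 ≤ 2 ∧ -2 ≤ q.2 ∧ q.2 ≤ 2 ∧ v = at5 p q) ∨
      ∃ s d k, M s ∧ p = s + dirv d ∧ v = at5 s (arm (r s) d k) := by
  rcases mem_big.1 h with rfl | ⟨d, k, rfl⟩ | ⟨d, k, h1, rfl⟩
  · exact Or.inl ⟨0, by simp⟩
  · have := arm_box false d k
    exact Or.inl ⟨_, this.1, this.2.1, this.2.2.1, this.2.2.2.1, rfl⟩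
  · exact Or.inr ⟨_, d, k, h1, by simp, rfl⟩

theorem big_eq {M : ℤ × ℤ → Prop} {r : ℤ × ℤ → Bool} {p p' v : ℤ × ℤ} (hp : ¬ M p)
    (hp' : ¬ M p') (h : v ∈ big M r p) (h' : v ∈ big M r p') : p = p' := by
  rcases big_cases h with ⟨q, a1, a2, a3, a4, rfl⟩ | ⟨s, d, k, a1, a2, rfl⟩ <;>
    rcases big_cases h' with ⟨q', b1, b2, b3, b4, e⟩ | ⟨s', d', k', b1, b2, e⟩ <;>
    simp only [at5, Prod.mk.injEq] at e
  · exact Prod.ext (by omega) (by omega)
  · have := arm_box (r s') d' k'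
    exact absurd ((Prod.ext (by omega) (by omega) : s' = p) ▸ b1) hp
  · have := arm_box (r s) d k
    exact absurd ((Prod.ext (by omega) (by omega) : s = p') ▸ a1) hp'
  · have := arm_box (r s') d' k'
    have := arm_box (r s) d k
    obtain rfl : s = s' := Prod.ext (by omega) (by omega)
    rw [a2, b2, arm_inj (r s) d d' k k' (by omega) (by omega)]

theorem centre_not {M : ℤ × ℤ → Prop} {r : ℤ × ℤ → Bool} {p s : ℤ × ℤ} (hp : p ≠ s) :
    at5 s 0 ∉ big M r p := fun h => by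
  rcases big_cases h with ⟨q, a1, a2, a3, a4, e⟩ | ⟨s', d, k, a1, a2, e⟩ <;>
    simp only [at5, Prod.mk.injEq, Prod.fst_zero, Prod.snd_zero] at e
  · exact hp (Prod.ext (by omega) (by omega))
  · have := arm_box (r s') d k
    omega

theorem turn_dir : ∀ (a b c d : Fin 4), b = a + 2 → d = c + 2 → (c = a + 1 ∨ c = a + 3) →
    ∀ r : Bool, (r = true ↔ (a = 1 ∨ a = 3)) → ∀ g : Fin 4 → Fin 4,
    (∀ x, g x = if r then x + 3 else x) →
    (g a = 0 ∧ g b = 2 ∨ g a = 2 ∧ g b = 0) ∧ (g c = 1 ∧ g d = 3 ∨ g c = 3 ∧ g d = 1) := by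
  intro a b c d h1 h2 h3 r hr g hg
  simp only [hg]
  clear hg
  revert a b c d r
  decide

/-- A model in the lattice in which no marker is turned. -/
def PtS (nx nt : ℕ) (adj : ℕ → ℕ → Prop) (pt : ℕ → Fin 4 → Option ℕ) : Prop :=
  ∃ (φ : ℕ → Finset (ℤ × ℤ)) (π : ℕ → ℤ × ℤ) (e : ℕ → Fin 4 → Fin 4),
    (∀ x < nx, Conn gridZ (φ x)) ∧ (∀ x < nx, ∀ y < nx, x ≠ y → Disjoint (φ x) (φ y)) ∧
    (∀ x < nx, ∀ y < nx, x ≠ y → adj x y → Touch gridZ (φ x) (φ y)) ∧
    (∀ t < nt, ∀ x < nx, π t ∉ φ x) ∧ (∀ t < nt, ∀ t' < nt, π t = π t' → t = t') ∧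
    (∀ t < nt, (e t 0 = 0 ∧ e t 1 = 2 ∨ e t 0 = 2 ∧ e t 1 = 0) ∧
      (e t 2 = 1 ∧ e t 3 = 3 ∨ e t 2 = 3 ∧ e t 3 = 1)) ∧
    ∀ t < nt, ∀ i x, pt t i = some x → π t + dirv (e t i) ∈ φ x

theorem straight {nx nt : ℕ} {adj : ℕ → ℕ → Prop} {pt : ℕ → Fin 4 → Option ℕ}
    (h : PtZ nx nt adj pt) : PtS nx nt adj pt := by
  obtain ⟨φ, π, e, h1, h2, h3, h4, h5, h6, h7⟩ := h
  let M : ℤ × ℤ → Prop := fun s => ∃ t < nt, π t = s
  let r : ℤ × ℤ → Bool := fun s => decide (∃ t < nt, π t = s ∧ (e t 0 = 1 ∨ e t 0 = 3))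
  have hr : ∀ t < nt, r (π t) = true ↔ (e t 0 = 1 ∨ e t 0 = 3) := fun t ht => by
    simp only [r, decide_eq_true_eq]
    exact ⟨fun ⟨t', a, b, c⟩ => h5 t' a t ht b ▸ c, fun h => ⟨t, ht, rfl, h⟩⟩
  have hM : ∀ x < nx, ∀ p ∈ φ x, ¬ M p := fun x hx p hp ⟨t, ht, e⟩ => h4 t ht x hx (e ▸ hp)
  refine ⟨fun x => (φ x).biUnion (big M r), fun t => at5 (π t) 0,
    fun t i => if r (π t) then e t i + 3 else e t i, fun x hx => ?_, fun x hx y hy hn => ?_,
    fun x hx y hy hn ha => ?_, fun t ht x hx hc => ?_, fun t ht t' ht' hc => ?_, fun t ht => ?_,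
    fun t ht i x hx => ?_⟩
  · exact conn_cover (h1 x hx) (fun _ => mem_biUnion) (fun p _ => conn_big M r p)
      fun _ _ _ _ h => touch_big M r h
  · refine disjoint_left.2 fun v a b => ?_
    obtain ⟨p, a1, a2⟩ := mem_biUnion.1 a
    obtain ⟨p', b1, b2⟩ := mem_biUnion.1 b
    exact disjoint_left.1 (h2 x hx y hy hn) a1 (big_eq (hM x hx p a1) (hM y hy p' b1) a2 b2 ▸ b1)
  · obtain ⟨p, a1, q, a2, a3⟩ := h3 x hx y hy hn ha
    exact (touch_big M r a3).mono (subset_biUnion_of_mem _ a1) (subset_biUnion_of_mem _ a2)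
  · obtain ⟨p, a1, a2⟩ := mem_biUnion.1 hc
    exact centre_not (s := π t) (fun e => h4 t ht x hx (e ▸ a1)) a2
  · simp only [at5, Prod.mk.injEq] at hc
    exact h5 t ht t' ht' (Prod.ext (by omega) (by omega))
  · exact turn_dir _ _ _ _ (h6 t ht).1 (h6 t ht).2.1 (h6 t ht).2.2 _ (hr t ht)
      (fun x => if r (π t) then x + 3 else x) fun _ => rfl
  · refine mem_biUnion.2 ⟨_, h7 t ht i x hx, mem_big.2 (Or.inr (Or.inr ⟨e t i, 3, ?_⟩))⟩
    rw [add_sub_cancel_right, arm_three]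
    exact ⟨⟨t, ht, rfl⟩, by simp [at5, Prod.ext_iff]⟩

theorem shift {nx nt : ℕ} {adj : ℕ → ℕ → Prop} {pt : ℕ → Fin 4 → Option ℕ}
    (hl : ∀ t < nt, ∀ i x, pt t i = some x → x < nx) (h : PtS nx nt adj pt) :
    ∃ K, NFin K nx nt adj pt := by
  obtain ⟨φ, π, e, h1, h2, h3, h4, h5, h6, h7⟩ := h
  obtain ⟨N, hN⟩ := (((range nx).biUnion φ ∪ (range nt).image π).image
    fun p => p.1.natAbs + p.2.natAbs).exists_le
  simp only [mem_image, mem_union, mem_biUnion, mem_range, forall_exists_index, and_imp] at hN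
  have b1 : ∀ x < nx, ∀ p ∈ φ x, p.1.natAbs + p.2.natAbs ≤ N := fun x hx p hp =>
    hN _ p (Or.inl ⟨x, hx, hp⟩) rfl
  have b2 : ∀ t < nt, (π t).1.natAbs + (π t).2.natAbs ≤ N := fun t ht =>
    hN _ _ (Or.inr ⟨t, ht, rfl⟩) rfl
  let τ : ℤ × ℤ → ℕ × ℕ := fun p => ((p.1 + N).toNat, (p.2 + N).toNat)
  have ta : ∀ p q : ℤ × ℤ, p.1.natAbs + p.2.natAbs ≤ N → q.1.natAbs + q.2.natAbs ≤ N →
      gridZ.Adj p q → gridN.Adj (τ p) (τ q) := by
    intro p q hp hq h
    simp only [adjZ, adjN, τ] at h ⊢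
    omega
  have ti : ∀ p q : ℤ × ℤ, p.1.natAbs + p.2.natAbs ≤ N → q.1.natAbs + q.2.natAbs ≤ N →
      τ p = τ q → p = q := by
    intro p q hp hq h
    simp only [τ, Prod.mk.injEq] at h
    exact Prod.ext (by omega) (by omega)
  refine ⟨2 * N + 1, fun x => (φ x).image τ, fun t => τ (π t), fun t => decide (e t 0 = 0),
    fun t => decide (e t 2 = 1), fun x hx => ⟨?_, fun p hp => ?_⟩, fun x hx y hy hn => ?_,
    fun x hx y hy hn ha => ?_, fun t ht => ⟨?_, ?_, fun x hx hc => ?_⟩,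
    fun t ht t' ht' hc => h5 t ht t' ht' (ti _ _ (b2 t ht) (b2 t' ht') hc), fun t ht i x hx => ?_⟩
  · exact conn_cover (θ := fun p => {τ p}) (h1 x hx) (fun v => by simp [eq_comm])
      (fun p _ => Conn.singleton _) fun p hp q hq h => ⟨_, mem_singleton_self _, _,
        mem_singleton_self _, ta p q (b1 x hx p hp) (b1 x hx q hq) h⟩
  · obtain ⟨q, hq, rfl⟩ := mem_image.1 hp
    have := b1 x hx q hq
    simp only [τ]
    omega
  · refine disjoint_left.2 fun v a b => ?_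
    obtain ⟨p, a1, rfl⟩ := mem_image.1 a
    obtain ⟨q, c1, c2⟩ := mem_image.1 b
    exact disjoint_left.1 (h2 x hx y hy hn) a1 (ti _ _ (b1 y hy q c1) (b1 x hx p a1) c2 ▸ c1)
  · obtain ⟨p, a1, q, a2, a3⟩ := h3 x hx y hy hn ha
    exact ⟨_, mem_image_of_mem _ a1, _, mem_image_of_mem _ a2,
      ta p q (b1 x hx p a1) (b1 y hy q a2) a3⟩
  · have := b2 t ht
    simp only [τ]
    omega
  · have := b2 t ht
    simp only [τ]
    omega
  · obtain ⟨q, c1, c2⟩ := mem_image.1 hc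
    exact h4 t ht x hx (ti _ _ (b1 x hx q c1) (b2 t ht) c2 ▸ c1)
  · have a1 := h7 t ht i x hx
    have a2 := b1 x (hl t ht i x hx) _ a1
    have a3 := b2 t ht
    refine ⟨_, mem_image_of_mem _ a1, ?_⟩
    obtain ⟨c1 | c1, c2 | c2⟩ := h6 t ht <;> fin_cases i <;>
      simp [Nb, τ, c1.1, c1.2, c2.1, c2.2, dirv] at a2 ⊢ <;> omega

end NOK

open NOK in
theorem nfb : NFBStmt := fun _ _ _ _ hl h => shift hl (straight h)

open NOK in
theorem nok : NOKStmt := by
  intro A B cA cB dA dB dAB tAB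
  choose a ha using fun i => (cA i).1
  choose b hb using fun i => (cB i).1
  choose L f f0 fL fm fa using fun i j => path_two (cA i) (cB j) (tAB i j) (ha i) (hb j)
  have e1 : ∀ i k j l, i ≠ k → j ≠ l → FU (L i j) (f i j) (a k) + FU (L i j) (f i j) (b l) =
      FD (L k l) (f k l) (a i) + FD (L k l) (f k l) (b j) := by
    intro i k j l hik hjl
    have := walk1 (fa i j) (fa k l) (fun s hs t ht e => by
      have h1 := fm i j s hs
      have h2 := fm k l t ht
      rw [← e] at h2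
      rcases h1 with h1 | h1 <;> rcases h2 with h2 | h2
      · exact disjoint_left.1 (dA i k hik) h1 h2
      · exact disjoint_left.1 (dAB i l) h1 h2
      · exact disjoint_left.1 (dAB k j) h2 h1
      · exact disjoint_left.1 (dB j l hjl) h1 h2)
    rwa [f0, f0, fL, fL] at this
  have e2 : ∀ i j l, j ≠ l → FU (L i j) (f i j) (b l) + FD (L i j) (f i j) (b l) =
      ind (Ab (a i) (b l)) + ind (Ab (b j) (b l)) := by
    intro i j l hjl
    have := walk2 (q := b l) (fa i j) (fun s hs e => by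
      have h1 := fm i j s hs
      rw [e] at h1
      rcases h1 with h1 | h1
      · exact disjoint_left.1 (dAB i l) h1 (hb l)
      · exact disjoint_left.1 (dB j l hjl) h1 (hb l))
    rwa [f0, fL] at this
  have e3 : ∀ j l, j ≠ l → ind (Ab (b j) (b l)) + ind (Ab (b l) (b j)) = 1 := fun j l hjl =>
    id3 fun e => disjoint_left.1 (dB j l hjl) (hb j) (e ▸ hb l)
  set X : Fin 3 → ZMod 2 := fun i => FU (L i 0) (f i 0) (b 1) + FU (L i 0) (f i 0) (b 2) +
    FU (L i 1) (f i 1) (b 0) + FU (L i 1) (f i 1) (b 2) + FU (L i 2) (f i 2) (b 0) +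
    FU (L i 2) (f i 2) (b 1) with hX
  set Y : Fin 3 → ZMod 2 := fun i => FD (L i 0) (f i 0) (b 1) + FD (L i 0) (f i 0) (b 2) +
    FD (L i 1) (f i 1) (b 0) + FD (L i 1) (f i 1) (b 2) + FD (L i 2) (f i 2) (b 0) +
    FD (L i 2) (f i 2) (b 1) with hY
  have two : (2 : ZMod 2) = 0 := rfl
  have k1 : ∀ i k, i ≠ k → X i = Y k := by
    intro i k h
    simp only [hX, hY]
    linear_combination e1 i k 0 1 h (by decide) + e1 i k 0 2 h (by decide) +
      e1 i k 1 0 h (by decide) + e1 i k 1 2 h (by decide) + e1 i k 2 0 h (by decide) +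
      e1 i k 2 1 h (by decide) + (FD (L k 0) (f k 0) (a i) + FD (L k 1) (f k 1) (a i) +
        FD (L k 2) (f k 2) (a i) - FU (L i 0) (f i 0) (a k) - FU (L i 1) (f i 1) (a k) -
        FU (L i 2) (f i 2) (a k)) * two
  have k2 : X 0 + Y 0 = 1 := by
    simp only [hX, hY]
    linear_combination e2 0 0 1 (by decide) + e2 0 0 2 (by decide) + e2 0 1 0 (by decide) +
      e2 0 1 2 (by decide) + e2 0 2 0 (by decide) + e2 0 2 1 (by decide) + e3 0 1 (by decide) +
      e3 0 2 (by decide) + e3 1 2 (by decide) + (1 + ind (Ab (a 0) (b 0)) + ind (Ab (a 0) (b 1)) +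
        ind (Ab (a 0) (b 2))) * two
  rw [k1 0 1 (by decide), ← k1 2 1 (by decide), k1 2 0 (by decide),
    CharTwo.add_self_eq_zero] at k2
  exact absurd k2 (by decide)

end Pool.Agent.MP_7be75d_co.Gen

end MrgPart1

-- ======== part 2: formerly Pool.Agent.MP_7be75d_co.Gen.Sel
section MrgPart2

/-! Two selections in forest orders, and a large matching of blocks joined by ribbons. -/

namespace Pool.Agent.MP_7be75d_co.Gen

open Finset
open scoped Classical

namespace Sel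

variable {n m x : ℕ} {c : ℕ → ℕ → Prop}

/-- The number of descendants of `v` in `V`. -/
noncomputable def ds (c : ℕ → ℕ → Prop) (V : Finset ℕ) (v : ℕ) : ℕ :=
  (V.filter fun u => c u v).card

/-- The members of `V` with at most `x` descendants in `V`. -/
noncomputable def low (c : ℕ → ℕ → Prop) (x : ℕ) (V : Finset ℕ) : Finset ℕ :=
  V.filter fun v => ds c V v ≤ x

theorem ds_lt (h : FOrd n c) {V : Finset ℕ} (hV : V ⊆ range n) {u v : ℕ} (hu : u ∈ V)
    (huv : c u v) : ds c V u < ds c V v := by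
  refine card_lt_card ⟨fun w hw => ?_, fun hs => ?_⟩
  · obtain ⟨h1, h2⟩ := mem_filter.1 hw
    exact mem_filter.2 ⟨h1, h.tr w (mem_range.1 (hV h1)) u v h2 huv⟩
  · exact h.irr u (mem_range.1 (hV hu)) (mem_filter.1 (hs (mem_filter.2 ⟨hu, huv⟩))).2

theorem ds_mono {V V' : Finset ℕ} (h : V' ⊆ V) (v : ℕ) : ds c V' v ≤ ds c V v :=
  card_le_card (filter_subset_filter _ h)

theorem low_erase (h : FOrd n c) {V : Finset ℕ} (hV : V ⊆ range n) {z : ℕ} (hz : z ∈ V) :
    (low c x (V.erase z)).card ≤ (low c x V).card + 1 := by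
  let B := V.filter fun v => c z v ∧ ds c V v = x + 1
  have hB : B.card ≤ 1 := by
    refine card_le_one.2 fun a ha b hb => ?_
    obtain ⟨a1, a2, a3⟩ := mem_filter.1 ha
    obtain ⟨b1, b2, b3⟩ := mem_filter.1 hb
    rcases h.fo z (mem_range.1 (hV hz)) a b a2 b2 with e | e | e
    · exact e
    · have := ds_lt h hV a1 e
      omega
    · have := ds_lt h hV b1 e
      omega
  have hsub : low c x (V.erase z) ⊆ low c x V ∪ B := by
    intro v hv
    obtain ⟨h1, h2⟩ := mem_filter.1 hv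
    have hvV := mem_of_mem_erase h1
    by_cases hx : ds c V v ≤ x
    · exact mem_union_left _ (mem_filter.2 ⟨hvV, hx⟩)
    refine mem_union_right _ (mem_filter.2 ⟨hvV, ?_, ?_⟩)
    · by_contra hc
      refine hx (le_trans (card_le_card fun u hu => ?_) h2)
      obtain ⟨u1, u2⟩ := mem_filter.1 hu
      exact mem_filter.2 ⟨mem_erase.2 ⟨fun e => hc (e ▸ u2), u1⟩, u2⟩
    · have : ds c V v ≤ ds c (V.erase z) v + 1 := by
        refine le_trans (card_le_card fun u hu => ?_) (card_insert_le z _)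
        obtain ⟨u1, u2⟩ := mem_filter.1 hu
        by_cases e : u = z
        · exact e ▸ mem_insert_self _ _
        · exact mem_insert_of_mem (mem_filter.2 ⟨mem_erase.2 ⟨e, u1⟩, u2⟩)
      omega
  have := (card_le_card hsub).trans (card_union_le _ _)
  omega

theorem low_sub (h : FOrd n c) {V' : Finset ℕ} (k : ℕ) : ∀ V : Finset ℕ, V ⊆ range n → V' ⊆ V →
    V.card = V'.card + k → (low c x V').card ≤ (low c x V).card + k := by
  induction k with
  | zero =>
    intro V _ h1 h2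
    rw [eq_of_subset_of_card_le h1 (by omega)]
    exact le_rfl
  | succ k ih =>
    intro V hV h1 h2
    obtain ⟨z, hz, hz'⟩ := exists_mem_notMem_of_card_lt_card (s := V') (t := V) (by omega)
    have a1 := ih (V.erase z) ((erase_subset _ _).trans hV) (subset_erase.2 ⟨h1, hz'⟩)
      (by rw [card_erase_of_mem hz]; omega)
    have a2 := low_erase (x := x) h hV hz
    omega

/-- Initial pieces of a post-order. -/
def Good (n : ℕ) (c : ℕ → ℕ → Prop) (D : Finset ℕ) : Prop :=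
  D ⊆ range n ∧ (∀ v ∈ D, ∀ u < n, c u v → u ∈ D) ∧
    ∃ z < n, ∀ v, v ∉ D → ∀ u ∈ D, c u v → c z v

theorem Good.step (h : FOrd n c) {D : Finset ℕ} (hD : Good n c D) (hc : D.card < n) :
    ∃ z, z ∉ D ∧ Good n c (insert z D) := by
  obtain ⟨h1, h2, z, hz, h3⟩ := hD
  let T : ℕ → Prop := fun w => w < n ∧ w ∉ D ∧ ∀ v, v ∉ D → ∀ u ∈ D, c u v → v = w ∨ c w v
  have hT : ∃ w, T w := by
    by_cases hC : ∃ v, v ∉ D ∧ ∃ u ∈ D, c u v
    · obtain ⟨w, ⟨w1, u, w2, w3⟩, hw⟩ := exists_min_of (ds c (range n)) hC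
      have hwn := h.lt u (mem_range.1 (h1 w2)) w w3
      refine ⟨w, hwn, w1, fun v v1 u' v2 v3 => ?_⟩
      rcases h.fo z hz w v (h3 w w1 u w2 w3) (h3 v v1 u' v2 v3) with e | e | e
      · exact Or.inl e.symm
      · exact Or.inr e
      · have a1 := hw v ⟨v1, u', v2, v3⟩
        have a2 := ds_lt h subset_rfl
          (mem_range.2 (h.lt u' (mem_range.1 (h1 v2)) v v3)) e
        omega
    · obtain ⟨w, hw, hw'⟩ := exists_mem_notMem_of_card_lt_card (s := D) (t := range n)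
        (by rwa [card_range])
      exact ⟨w, mem_range.1 hw, hw', fun v v1 u v2 v3 => absurd ⟨v, v1, u, v2, v3⟩ hC⟩
  obtain ⟨w, ⟨w1, w2, w3⟩, hw⟩ := exists_min_of (ds c (range n)) hT
  refine ⟨w, w2, insert_subset (mem_range.2 w1) h1, fun v hv u hu huv => ?_, w, w1,
    fun v hv u hu huv => ?_⟩
  · rcases mem_insert.1 hv with rfl | hv
    · by_contra hn
      have a1 := hw u ⟨hu, fun a => hn (mem_insert_of_mem a), fun v' v1 u' v2 v3 => by
        rcases w3 v' v1 u' v2 v3 with e | e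
        · exact Or.inr (e ▸ huv)
        · exact Or.inr (h.tr u hu _ _ huv e)⟩
      have a2 := ds_lt h subset_rfl (mem_range.2 hu) huv
      omega
    · exact mem_insert_of_mem (h2 v hv u hu huv)
  · rcases mem_insert.1 hu with rfl | hu
    · exact huv
    · exact (w3 v (fun a => hv (mem_insert_of_mem a)) u hu huv).resolve_left
        fun e => hv (e ▸ mem_insert_self _ _)

theorem Good.ext (h : FOrd n c) {D : Finset ℕ} (hD : Good n c D) (k : ℕ) (hk : D.card + k ≤ n) :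
    ∃ D', D ⊆ D' ∧ Good n c D' ∧ D'.card = D.card + k := by
  induction k with
  | zero => exact ⟨D, subset_rfl, hD, rfl⟩
  | succ k ih =>
    obtain ⟨D', a1, a2, a3⟩ := ih (by omega)
    obtain ⟨z, b1, b2⟩ := a2.step h (by omega)
    exact ⟨insert z D', a1.trans (subset_insert _ _), b2, by rw [card_insert_of_notMem b1]; omega⟩

theorem window (h : FOrd n c) (_hm : 0 < m) (hn : 1000 * m ≤ n) (ht : Thin n c m)
    (hx : (low c x (range n)).card < 101 * m) :
    ∃ V ⊆ range n, V.card = 100 * m ∧ (low c x V).card ≤ 13 * m := by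
  have h1 : ∃ D D', Good n c D ∧ Good n c D' ∧ D ⊆ D' ∧ D'.card = D.card + 100 * m ∧
      (low c x (range n) ∩ (D' \ D)).card ≤ 11 * m := by
    by_contra hc
    push Not at hc
    have key : ∀ k ≤ 10, ∃ D, Good n c D ∧ D.card = k * (100 * m) ∧
        k * (11 * m) ≤ (low c x (range n) ∩ D).card := by
      intro k hk
      induction k with
      | zero => exact ⟨∅, ⟨empty_subset _, by simp, 0, by omega, by simp⟩, by simp, by simp⟩
      | succ k ih =>
        obtain ⟨D, a1, a2, a3⟩ := ih (by omega)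
        obtain ⟨D', b1, b2, b3⟩ := a1.ext h (100 * m) (by
          have : (k + 1) * (100 * m) ≤ 10 * (100 * m) := Nat.mul_le_mul_right _ hk
          rw [a2]
          nlinarith)
        refine ⟨D', b2, by rw [b3, a2]; ring, ?_⟩
        have a4 := hc D D' a1 b2 b1 b3
        have a5 : (low c x (range n) ∩ D).card + (low c x (range n) ∩ (D' \ D)).card ≤
            (low c x (range n) ∩ D').card := by
          rw [← card_union_of_disjoint
            (disjoint_sdiff.mono inter_subset_right inter_subset_right)]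
          exact card_le_card (union_subset (inter_subset_inter subset_rfl b1)
            (inter_subset_inter subset_rfl sdiff_subset))
        nlinarith
    obtain ⟨D, -, -, a3⟩ := key 10 le_rfl
    have := card_le_card (inter_subset_left (s₁ := low c x (range n)) (s₂ := D))
    omega
  obtain ⟨D, D', ⟨-, -, z, hz, a1⟩, ⟨b1, b2, -⟩, c1, c2, c3⟩ := h1
  refine ⟨D' \ D, sdiff_subset.trans b1, by rw [card_sdiff_of_subset c1]; omega, ?_⟩
  have hsub : low c x (D' \ D) ⊆ low c x (range n) ∩ (D' \ D) ∪ (range n).filter (c z) := by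
    intro v hv
    obtain ⟨v1, v2⟩ := mem_filter.1 hv
    obtain ⟨v3, v4⟩ := mem_sdiff.1 v1
    by_cases e : ∃ u ∈ D, c u v
    · obtain ⟨u, u1, u2⟩ := e
      exact mem_union_right _ (mem_filter.2 ⟨b1 v3, a1 v v4 u u1 u2⟩)
    · refine mem_union_left _ (mem_inter.2 ⟨mem_filter.2 ⟨b1 v3, le_trans ?_ v2⟩, v1⟩)
      refine card_le_card fun u hu => ?_
      obtain ⟨u1, u2⟩ := mem_filter.1 hu
      exact mem_filter.2 ⟨mem_sdiff.2 ⟨b2 v v3 u (mem_range.1 u1) u2,
        fun a => e ⟨u, a, u2⟩⟩, u2⟩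
  have d1 := (card_le_card hsub).trans (card_union_le _ _)
  have d2 := ht.1 z hz
  omega

theorem half {cP cQ : ℕ → ℕ → Prop} (hQ : FOrd n cQ) (hm : 0 < m) (hn : 1000 * m ≤ n)
    (ht : Thin n cQ m) (h1 : 100 * m ≤ (low cP x (range n)).card)
    (h2 : (low cQ x (range n)).card < 101 * m) :
    ∃ U ⊆ range n, ∃ U' ⊆ range n, U.card = 100 * m ∧ U'.card = 100 * m ∧
      ∀ (A : Finset (ℕ × ℕ)) (f g : ℕ × ℕ → ℕ), (∀ p ∈ A, f p ∈ U) → (∀ p ∈ A, g p ∈ U') →
        Set.InjOn f A → Set.InjOn g A → ∀ M : Finset (ℕ × ℕ),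
        (∀ p ∈ A, p ∉ M → ∀ q ∈ A, cQ (g q) (g p) → cP (f q) (f p)) →
        100 * m ≤ M.card + 13 * m + 2 * (100 * m - A.card) := by
  obtain ⟨U, hU, hUc⟩ := exists_subset_card_eq h1
  obtain ⟨V, hV, hVc, hl⟩ := window hQ hm hn ht h2
  have hUn : U ⊆ range n := hU.trans (filter_subset _ _)
  refine ⟨U, hUn, V, hV, hUc, hVc, fun A f g hf hg f1 g1 M hM => ?_⟩
  have hsub : A.image g ⊆ V := by
    intro v hv
    obtain ⟨p, hp, rfl⟩ := mem_image.1 hv
    exact hg p hp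
  have c1 : (A.image g).card = A.card := card_image_of_injOn g1
  have c2 := card_le_card hsub
  have c3 := low_sub (x := x) hQ (100 * m - A.card) V hV hsub (by omega)
  have c4 : (A \ M).card ≤ (low cQ x (A.image g)).card := by
    refine card_le_card_of_injOn g (fun p hp => ?_) (g1.mono (by simp))
    obtain ⟨p1, p2⟩ := mem_sdiff.1 (mem_coe.1 hp)
    refine mem_coe.2 (mem_filter.2 ⟨mem_image_of_mem g p1, ?_⟩)
    refine le_trans ?_ (mem_filter.1 (hU (hf p p1))).2
    have e1 : ds cQ (A.image g) (g p) ≤ (A.filter fun q => cQ (g q) (g p)).card := by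
      refine le_trans (card_le_card fun u hu => ?_) (card_image_le (f := g))
      obtain ⟨u1, u2⟩ := mem_filter.1 hu
      obtain ⟨q, hq, rfl⟩ := mem_image.1 u1
      exact mem_image_of_mem g (mem_filter.2 ⟨hq, u2⟩)
    refine e1.trans (card_le_card_of_injOn f (fun q hq => ?_)
      (f1.mono (coe_subset.2 (filter_subset _ _))))
    obtain ⟨q1, q2⟩ := mem_filter.1 (mem_coe.1 hq)
    exact mem_coe.2 (mem_filter.2 ⟨hUn (hf q q1), hM p p1 p2 q q1 q2⟩)
  have c5 := le_card_sdiff M A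
  omega

theorem low_succ (h : FOrd n c) (ht : Thin n c m) {k : ℕ}
    (hx : ∀ y < x, (low c y (range n)).card < k) :
    (low c x (range n)).card < k + m := by
  have a1 := ht.2 ((range n).filter fun v => ds c (range n) v = x) (filter_subset _ _)
    (fun a ha b hb hab => by
      obtain ⟨a1, a2⟩ := mem_filter.1 ha
      have := ds_lt h subset_rfl a1 hab
      have := (mem_filter.1 hb).2
      omega)
  rcases x with _ | x
  · refine lt_of_le_of_lt (card_le_card fun v hv => ?_) (a1.trans_le (Nat.le_add_left _ _))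
    obtain ⟨v1, v2⟩ := mem_filter.1 hv
    exact mem_filter.2 ⟨v1, by omega⟩
  · have a2 := hx x (by omega)
    have hsub : low c (x + 1) (range n) ⊆ low c x (range n) ∪
        (range n).filter fun v => ds c (range n) v = x + 1 := by
      intro v hv
      obtain ⟨v1, v2⟩ := mem_filter.1 hv
      by_cases e : ds c (range n) v ≤ x
      · exact mem_union_left _ (mem_filter.2 ⟨v1, e⟩)
      · exact mem_union_right _ (mem_filter.2 ⟨v1, by omega⟩)
    have := (card_le_card hsub).trans (card_union_le _ _)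
    omega

end Sel

open Sel in
theorem sel : SELStmt := by
  intro m n cP cQ hm hn hP hQ tP tQ
  have hex : ∃ x, 100 * m ≤ (low cP x (range n)).card ∨ 100 * m ≤ (low cQ x (range n)).card := by
    refine ⟨n, Or.inl ?_⟩
    have : low cP n (range n) = range n :=
      filter_true_of_mem fun v _ => (card_filter_le _ _).trans (card_range n).le
    rw [this, card_range]
    omega
  have hx := Nat.find_spec hex
  have hmin := fun y (hy : y < Nat.find hex) => not_or.1 (Nat.find_min hex hy)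
  have lP := low_succ hP tP (k := 100 * m) fun y hy => not_le.1 (hmin y hy).1
  have lQ := low_succ hQ tQ (k := 100 * m) fun y hy => not_le.1 (hmin y hy).2
  have hM : ∀ A : Finset (ℕ × ℕ), ∀ p ∈ A,
      p ∉ (A.filter fun p => ∃ q ∈ A, ¬ (cP q.1 p.1 ↔ cQ q.2 p.2)) →
      ∀ q ∈ A, (cP q.1 p.1 ↔ cQ q.2 p.2) := by
    intro A p hp hn q hq
    by_contra hc
    exact hn (mem_filter.2 ⟨hp, q, hq, hc⟩)
  rcases hx with hx | hx
  · obtain ⟨U, a1, U', a2, a3, a4, a5⟩ := half hQ hm hn tQ hx (by omega)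
    refine ⟨U, a1, U', a2, a3, a4, fun A hA hI => a5 A Prod.fst Prod.snd
      (fun p hp => (mem_product.1 (hA hp)).1) (fun p hp => (mem_product.1 (hA hp)).2)
      (fun p hp q hq e => hI p hp q hq (Or.inl e)) (fun p hp q hq e => hI p hp q hq (Or.inr e)) _
      fun p hp hn q hq => (hM A p hp hn q hq).2⟩
  · obtain ⟨U, a1, U', a2, a3, a4, a5⟩ := half hP hm hn tP hx (by omega)
    refine ⟨U', a2, U, a1, a4, a3, fun A hA hI => a5 A Prod.snd Prod.fst
      (fun p hp => (mem_product.1 (hA hp)).2) (fun p hp => (mem_product.1 (hA hp)).1)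
      (fun p hp q hq e => hI p hp q hq (Or.inr e)) (fun p hp q hq e => hI p hp q hq (Or.inl e)) _
      fun p hp hn q hq => (hM A p hp hn q hq).1⟩

namespace Sel

/-- A ribbon of five rows from block `b` to block `b'`. -/
def Rb (c : ℕ) (μ : ℕ × ℕ → ℕ × ℕ) (p : ℕ × ℕ) : Prop :=
  ∃ (r r' : ℕ) (o : Bool), r + 5 ≤ c ∧ r' + 5 ≤ c ∧
    ∀ j < 5, μ (p.1, r + j) = (p.2, if o then r' + j else r' + 4 - j)

theorem ribbon {c b t : ℕ} {μ : ℕ × ℕ → ℕ × ℕ} {Bad : Finset (ℕ × ℕ)}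
    (h : ∀ r, r + 2 < c → (b, r + 1) ∉ Bad → ∀ b' r', μ (b, r + 1) = (b', r' + 1) →
      r' + 2 < c → (μ (b, r) = (b', r') ∧ μ (b, r + 2) = (b', r' + 2)) ∨
        (μ (b, r) = (b', r' + 2) ∧ μ (b, r + 2) = (b', r')))
    (hc : t + 5 ≤ c)
    (hs : ∀ j, t < j → j < t + 4 → (b, j) ∉ Bad ∧ (μ (b, j)).2 ≠ 0 ∧ (μ (b, j)).2 + 1 < c) :
    Rb c μ (b, (μ (b, t + 2)).1) := by
  obtain ⟨a1, a2, a3⟩ := hs (t + 1) (by omega) (by omega)
  obtain ⟨b1, b2, b3⟩ := hs (t + 2) (by omega) (by omega)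
  obtain ⟨c1, c2, c3⟩ := hs (t + 3) (by omega) (by omega)
  obtain ⟨⟨b', s0⟩, e2⟩ : ∃ q, μ (b, t + 2) = q := ⟨_, rfl⟩
  rw [e2] at b2 b3 ⊢
  obtain ⟨s, rfl⟩ : ∃ s, s0 = s + 1 := ⟨s0 - 1, by dsimp only at b2; omega⟩
  dsimp only at b3 ⊢
  rcases h (t + 1) (by omega) b1 b' s e2 (by omega) with ⟨e1, e3⟩ | ⟨e1, e3⟩
  · have e3' : μ (b, t + 3) = (b', s + 2) := e3
    rw [e1] at a2 a3
    rw [e3'] at c2 c3
    obtain ⟨s, rfl⟩ : ∃ s', s = s' + 1 := ⟨s - 1, by dsimp only at a2; omega⟩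
    dsimp only at a3 c3
    have e0 : μ (b, t) = (b', s) := by
      rcases h t (by omega) a1 b' s e1 (by omega) with ⟨e, -⟩ | ⟨-, e⟩
      · exact e
      · rw [e2] at e
        have := (Prod.ext_iff.1 e).2
        dsimp only at this
        omega
    have e4 : μ (b, t + 4) = (b', s + 4) := by
      rcases h (t + 2) (by omega) c1 b' (s + 2) e3' (by omega) with ⟨-, e⟩ | ⟨e, -⟩
      · exact e
      · rw [e2] at e
        have := (Prod.ext_iff.1 e).2
        dsimp only at this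
        omega
    refine ⟨t, s, true, hc, by omega, fun j hj => ?_⟩
    interval_cases j
    exacts [e0, e1, e2, e3', e4]
  · have e3' : μ (b, t + 3) = (b', s) := e3
    rw [e1] at a2 a3
    rw [e3'] at c2 c3
    obtain ⟨s, rfl⟩ : ∃ s', s = s' + 1 := ⟨s - 1, by dsimp only at c2; omega⟩
    dsimp only at a3 c3
    have e0 : μ (b, t) = (b', s + 4) := by
      rcases h t (by omega) a1 b' (s + 2) e1 (by omega) with ⟨-, e⟩ | ⟨e, -⟩
      · rw [e2] at e
        have := (Prod.ext_iff.1 e).2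
        dsimp only at this
        omega
      · exact e
    have e4 : μ (b, t + 4) = (b', s) := by
      rcases h (t + 2) (by omega) c1 b' s e3' (by omega) with ⟨e, -⟩ | ⟨-, e⟩
      · rw [e2] at e
        have := (Prod.ext_iff.1 e).2
        dsimp only at this
        omega
      · exact e
    refine ⟨t, s, false, hc, by omega, fun j hj => ?_⟩
    interval_cases j
    exacts [e0, e1, e2, e3', e4]

/-- The theorem of Hall with deficiency. -/
theorem hall_def (U U' : Finset ℕ) (P : ℕ × ℕ → Prop) (δ : ℕ)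
    (h : ∀ S ⊆ U, S.card ≤ (U'.filter fun b' => ∃ b ∈ S, P (b, b')).card + δ) :
    ∃ A ⊆ U ×ˢ U', IsMat A ∧ U.card ≤ A.card + δ ∧ ∀ p ∈ A, P p := by
  let t : U → Finset (ℕ ⊕ ℕ) := fun b => (U'.filter fun b' => P (b.1, b')).disjSum (range δ)
  obtain ⟨f, hf, hft⟩ := (all_card_le_biUnion_card_iff_exists_injective t).1 (by
    intro s
    rcases s.eq_empty_or_nonempty with rfl | ⟨b0, hb0⟩
    · simp
    have h1 := h (s.map (Function.Embedding.subtype _)) (fun b hb => by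
      obtain ⟨b', -, rfl⟩ := mem_map.1 hb
      exact b'.2)
    rw [card_map] at h1
    refine h1.trans ?_
    conv_lhs => rw [← card_range δ, ← card_disjSum]
    refine card_le_card fun z hz => ?_
    rcases z with z | z
    · obtain ⟨z1, b, hb, z2⟩ := mem_filter.1 (inl_mem_disjSum.1 hz)
      obtain ⟨b', hb', rfl⟩ := mem_map.1 hb
      exact mem_biUnion.2 ⟨b', hb', inl_mem_disjSum.2 (mem_filter.2 ⟨z1, z2⟩)⟩
    · exact mem_biUnion.2 ⟨b0, hb0, inr_mem_disjSum.2 (inr_mem_disjSum.1 hz)⟩)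
  let A := (U ×ˢ U').filter fun p => ∃ hp : p.1 ∈ U, f ⟨p.1, hp⟩ = Sum.inl p.2
  refine ⟨A, filter_subset _ _, fun p hp q hq e => ?_, ?_, fun p hp => ?_⟩
  · obtain ⟨-, p1, p2⟩ := mem_filter.1 hp
    obtain ⟨-, q1, q2⟩ := mem_filter.1 hq
    rcases e with e | e
    · have : (⟨p.1, p1⟩ : U) = ⟨q.1, q1⟩ := Subtype.ext e
      rw [this, q2] at p2
      exact Prod.ext e (Sum.inl.inj p2).symm
    · rw [e, ← q2] at p2
      exact Prod.ext (congrArg Subtype.val (hf p2)) e
  · rw [← card_range δ, ← card_disjSum, ← Fintype.card_coe U, ← card_univ]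
    refine card_le_card_of_injOn (fun b : U => (f b).map (fun b' => (b.1, b')) id)
      (fun b _ => ?_) fun b _ b' _ e => ?_
    · have := hft b
      rcases e : f b with z | z
      · rw [e] at this
        simp only [e, Sum.map_inl, mem_coe, inl_mem_disjSum]
        exact mem_filter.2 ⟨mem_product.2 ⟨b.2, (mem_filter.1 (inl_mem_disjSum.1 this)).1⟩, b.2, e⟩
      · rw [e] at this
        simp only [e, Sum.map_inr, mem_coe, inr_mem_disjSum]
        exact inr_mem_disjSum.1 this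
    · dsimp only at e
      rcases e1 : f b with z | z <;> rcases e2 : f b' with z' | z' <;> rw [e1, e2] at e
      · exact Subtype.ext (Prod.ext_iff.1 (Sum.inl.inj e)).1
      · exact absurd e (by simp)
      · exact absurd e (by simp)
      · exact hf (by rw [e1, e2]; exact congrArg Sum.inr (Sum.inr.inj e))
  · obtain ⟨-, p1, p2⟩ := mem_filter.1 hp
    have := hft ⟨p.1, p1⟩
    rw [p2] at this
    exact (mem_filter.1 (inl_mem_disjSum.1 this)).2

end Sel

open Sel in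
theorem rib : RIBStmt := by
  intro U U' c μ Bad hU hμ h
  rcases Nat.eq_zero_or_pos c with rfl | hc
  · exact ⟨∅, empty_subset _, fun p hp => by simp at hp, by simp, fun _ => 0, fun _ => 0,
      fun _ => true, by simp⟩
  let Sp := (U ×ˢ range c).filter fun p =>
    p ∈ Bad ∨ (p.2 = 0 ∨ p.2 + 1 = c) ∨ ((μ p).2 = 0 ∨ (μ p).2 + 1 = c)
  have hend : ∀ X : Finset ℕ,
      ((X ×ˢ range c).filter fun p => p.2 = 0 ∨ p.2 + 1 = c).card ≤ 2 * X.card := by
    intro X
    have : ((X ×ˢ range c).filter fun p => p.2 = 0 ∨ p.2 + 1 = c) ⊆ X ×ˢ {0, c - 1} := by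
      intro p hp
      obtain ⟨p1, p2⟩ := mem_filter.1 hp
      refine mem_product.2 ⟨(mem_product.1 p1).1, ?_⟩
      simp only [mem_insert, mem_singleton]
      omega
    refine (card_le_card this).trans ?_
    rw [card_product, mul_comm]
    exact Nat.mul_le_mul_right _ card_le_two
  have hSp : Sp.card ≤ Bad.card + 4 * U.card := by
    have hsub : Sp ⊆ Bad ∪ (((U ×ˢ range c).filter fun p => p.2 = 0 ∨ p.2 + 1 = c) ∪
        (U ×ˢ range c).filter fun p => (μ p).2 = 0 ∨ (μ p).2 + 1 = c) := by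
      intro p hp
      obtain ⟨p1, p2⟩ := mem_filter.1 hp
      simp only [mem_union, mem_filter, p1, true_and]
      exact p2
    have c1 := (card_le_card hsub).trans ((card_union_le _ _).trans
      (Nat.add_le_add_left (card_union_le _ _) _))
    have c2 := hend U
    have c3 := hend U'
    have c4 : ((U ×ˢ range c).filter fun p => (μ p).2 = 0 ∨ (μ p).2 + 1 = c).card ≤
        ((U' ×ˢ range c).filter fun p => p.2 = 0 ∨ p.2 + 1 = c).card := by
      refine card_le_card_of_injOn μ (fun p hp => ?_)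
        (hμ.injOn.mono (coe_subset.2 (filter_subset _ _)))
      obtain ⟨p1, p2⟩ := mem_filter.1 (mem_coe.1 hp)
      exact mem_coe.2 (mem_filter.2 ⟨mem_coe.1 (hμ.mapsTo (mem_coe.2 p1)), p2⟩)
    omega
  let Sp3 := Sp ∪ (Sp.image (fun p => (p.1, p.2 - 1)) ∪ Sp.image fun p => (p.1, p.2 + 1))
  have hSp3 : Sp3.card ≤ 12 * U.card + 3 * Bad.card := by
    have c1 : Sp3.card ≤ Sp.card + (Sp.card + Sp.card) := (card_union_le _ _).trans
      (Nat.add_le_add_left ((card_union_le _ _).trans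
        (add_le_add card_image_le card_image_le)) _)
    omega
  have hmid : ∀ p ∈ U ×ˢ range c, p ∉ Sp3 → Rb c μ (p.1, (μ p).1) := by
    rintro ⟨b, t⟩ hp hn
    obtain ⟨hb, ht⟩ := mem_product.1 hp
    dsimp only at hb ht ⊢
    rw [mem_range] at ht
    have hns : ∀ j, j < c → (b, j) ∉ Sp → (b, j) ∉ Bad ∧ j ≠ 0 ∧ j + 1 < c ∧
        (μ (b, j)).2 ≠ 0 ∧ (μ (b, j)).2 + 1 < c := by
      intro j hj hs
      have hm : (b, j) ∈ U ×ˢ range c := mem_product.2 ⟨hb, mem_range.2 hj⟩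
      have h1 := mem_range.1 (mem_product.1 (mem_coe.1 (hμ.mapsTo (mem_coe.2 hm)))).2
      have h2 := fun a => hs (mem_filter.2 ⟨hm, a⟩)
      simp only [not_or, imp_false] at h2
      refine ⟨h2.1, h2.2.1.1, ?_, h2.2.2.1, ?_⟩
      · have := h2.2.1.2
        omega
      · have := h2.2.2.2
        omega
    have n0 := hns t ht fun a => hn (mem_union_left _ a)
    have n1 := hns (t + 1) n0.2.2.1 fun a => hn (mem_union_right _ (mem_union_left _
      (mem_image.2 ⟨_, a, by simp⟩)))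
    have n2 := hns (t - 1) (by omega) fun a => hn (mem_union_right _ (mem_union_right _
      (mem_image.2 ⟨_, a, Prod.ext rfl (by have := n0.2.1; dsimp only; omega)⟩)))
    obtain ⟨r, rfl⟩ : ∃ r, t = r + 2 := ⟨t - 2, by have := n2.2.1; omega⟩
    refine ribbon (h b hb) (by have := n1.2.2.1; omega) fun j h1 h2 => ?_
    obtain rfl | rfl | rfl : j = r + 2 - 1 ∨ j = r + 2 ∨ j = r + 2 + 1 := by omega
    · exact ⟨n2.1, n2.2.2.2⟩
    · exact ⟨n0.1, n0.2.2.2⟩
    · exact ⟨n1.1, n1.2.2.2⟩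
  obtain ⟨A, a1, a2, a3, a4⟩ := hall_def U U' (Rb c μ) ((12 * U.card + 3 * Bad.card) / c) (by
    intro S hS
    have c1 : ((S ×ˢ range c) \ Sp3).card ≤
        ((U'.filter fun b' => ∃ b ∈ S, Rb c μ (b, b')) ×ˢ range c).card := by
      have hs : (S ×ˢ range c) \ Sp3 ⊆ U ×ˢ range c :=
        sdiff_subset.trans (product_subset_product_left hS)
      refine card_le_card_of_injOn μ (fun p hp => ?_) (hμ.injOn.mono (coe_subset.2 hs))
      have hp' := mem_coe.1 hp
      obtain ⟨q1, q2⟩ := mem_product.1 (mem_coe.1 (hμ.mapsTo (mem_coe.2 (hs hp'))))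
      exact mem_coe.2 (mem_product.2 ⟨mem_filter.2 ⟨q1, p.1,
        (mem_product.1 (mem_sdiff.1 hp').1).1, hmid p (hs hp') (mem_sdiff.1 hp').2⟩, q2⟩)
    have c2 := le_card_sdiff Sp3 (S ×ˢ range c)
    rw [card_product, card_range] at c1 c2
    generalize (U'.filter fun b' => ∃ b ∈ S, Rb c μ (b, b')).card = N at *
    have c3 : (S.card - N) * c ≤ 12 * U.card + 3 * Bad.card := by
      rw [Nat.sub_mul]
      omega
    have := (Nat.le_div_iff_mul_le hc).2 c3
    omega)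
  refine ⟨A, a1, a2, ?_, ?_⟩
  · exact (Nat.mul_le_mul_left c (Nat.sub_le_iff_le_add'.2 a3)).trans (Nat.mul_div_le _ c)
  · have : ∀ p : ℕ × ℕ, ∃ (r r' : ℕ) (o : Bool), p ∈ A → r + 5 ≤ c ∧ r' + 5 ≤ c ∧
        ∀ j < 5, μ (p.1, r + j) = (p.2, if o then r' + j else r' + 4 - j) := by
      intro p
      by_cases hp : p ∈ A
      · obtain ⟨r, r', o, e⟩ := a4 p hp
        exact ⟨r, r', o, fun _ => e⟩
      · exact ⟨0, 0, true, fun a => absurd a hp⟩
    choose r r' o e using this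
    exact ⟨r, r', o, e⟩

end Pool.Agent.MP_7be75d_co.Gen

end MrgPart2

-- ======== part 3: formerly Pool.Agent.MP_7be75d_co.Gen.Step
section MrgPart3

/-! Module STEP of the project LTW: a cell with passing wires that form two stacks. -/

namespace Pool.Agent.MP_7be75d_co.Gen

open Finset
open scoped Classical

namespace STEP

section graph

variable {ι : Type} {Γ : SimpleGraph ι}

/-- A connected subset of prescribed size around a given vertex. -/
theorem grow {U : Finset ι} (hU : Conn Γ U) {v : ι} (hv : v ∈ U) (s : ℕ) (h1 : 1 ≤ s)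
    (h2 : s ≤ U.card) : ∃ Ψ ⊆ U, v ∈ Ψ ∧ Conn Γ Ψ ∧ Ψ.card = s := by
  induction s, h1 using Nat.le_induction with
  | base => exact ⟨{v}, by simpa using hv, by simp, Conn.singleton v, by simp⟩
  | succ s _ ih =>
    obtain ⟨Ψ, a1, a2, a3, a4⟩ := ih (by omega)
    obtain ⟨b, hb, hb'⟩ := exists_not_mem_of_card_lt (s := U) (t := Ψ) (by omega)
    obtain ⟨x, y, h1, h2, -, h4, h5⟩ := hU.exit hv a2 hb hb'
    exact ⟨insert y Ψ, insert_subset h4 a1, mem_insert_of_mem a2, a3.insert h1 h5,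
      by rw [card_insert_of_notMem h2, a4]⟩

variable [Fintype ι]

theorem closed_conn {Ψ A : Finset ι} (h : Conn Γ univ) (hΨ : Conn Γ Ψ)
    (hA : Closed Γ (univ \ Ψ) A) : Conn Γ (Ψ ∪ A) := by
  obtain ⟨p, hp⟩ := hΨ.1
  refine Conn.of_center (mem_union_left _ hp) fun b hb => ?_
  rcases mem_union.1 hb with hb | hb
  · exact hΨ.r hp hb subset_union_left
  · have hpA : p ∉ A := fun hc => (mem_sdiff.1 (hA.1 hc)).2 hp
    obtain ⟨x, y, h1, h2, -, -, h5, h6⟩ := (h.2 b (mem_univ _) p (mem_univ _)).exit hb hpA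
    have hy : y ∈ Ψ := by
      by_contra hc
      exact h2 (hA.2 x h1 y (by simpa using hc) h5)
    exact (hΨ.r hp hy subset_union_left).trans
      (((h6.mono (inter_subset_right.trans subset_union_right)).tail h5
        (mem_union_right _ h1) (mem_union_left _ hy)).symm)

/-- A large connected middle part with two large sides. -/
theorem three (h : Conn Γ univ) {s : ℕ} (hs : 1 ≤ s) (hw : 5 * s ≤ Fintype.card ι) :
    ∃ Ψ A B : Finset ι, Disjoint A Ψ ∧ Disjoint B Ψ ∧ Disjoint A B ∧ s ≤ Ψ.card ∧ s ≤ A.card ∧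
      s ≤ B.card ∧ Conn Γ Ψ ∧ Conn Γ (Ψ ∪ A) ∧ Conn Γ (Ψ ∪ B) := by
  obtain ⟨v0, -⟩ := h.1
  obtain ⟨Ψ, -, -, c0, k0⟩ := grow h (mem_univ v0) s hs (by simp; omega)
  have hall : Closed Γ (univ \ Ψ) (univ \ Ψ) := ⟨subset_rfl, fun _ _ _ hy _ => hy⟩
  have kc : (univ \ Ψ).card + s = Fintype.card ι := by
    rw [← k0, card_sdiff_add_card_eq_card (subset_univ _), card_univ]
  obtain ⟨A, ⟨a1, a2⟩, a3⟩ := exists_min_of
    (p := fun A => Closed Γ (univ \ Ψ) A ∧ s ≤ A.card) (fun A => A.card) ⟨_, hall, by omega⟩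
  obtain ⟨v, hv⟩ : A.Nonempty := card_pos.1 (by omega)
  have hD : Closed Γ (univ \ Ψ) (comp Γ (univ \ Ψ) v) :=
    ⟨comp_subset, fun x hx y hy hxy => comp_closed hx hy hxy⟩
  have hvD : v ∈ comp Γ (univ \ Ψ) v := self_mem_comp (a1.1 hv)
  have cD : Conn Γ (comp Γ (univ \ Ψ) v) := comp_conn (a1.1 hv)
  set D := comp Γ (univ \ Ψ) v with hDd
  have dj : ∀ X, Closed Γ (univ \ Ψ) X → Disjoint X Ψ := fun X hX =>
    disjoint_left.2 fun x hx => (mem_sdiff.1 (hX.1 hx)).2
  by_cases hbig : 2 * s ≤ D.card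
  · have cF := closed_conn h c0 (hall.sdiff hD)
    have dF : Disjoint (Ψ ∪ (univ \ Ψ) \ D) D :=
      disjoint_union_left.2 ⟨(dj D hD).symm, sdiff_disjoint⟩
    obtain ⟨p, hp⟩ := c0.1
    obtain ⟨x, y, h1, h2, -, -, h5⟩ := h.exit (mem_univ p) (mem_union_left _ hp) (mem_univ v)
      (disjoint_right.1 dF hvD)
    have hy : y ∈ D := by
      by_contra hc
      by_cases h6 : y ∈ Ψ
      · exact h2 (mem_union_left _ h6)
      · exact h2 (mem_union_right _ (by simp [h6, hc]))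
    obtain ⟨Φ, b1, b2, b3, b4⟩ := grow cD hy s hs (by omega)
    have := card_sdiff_add_card_eq_card b1
    have := card_le_card (subset_union_left (s₁ := Ψ) (s₂ := (univ \ Ψ) \ D))
    refine ⟨Φ, Ψ ∪ (univ \ Ψ) \ D, D \ Φ, dF.mono_right b1, sdiff_disjoint,
      dF.mono_right sdiff_subset, b4.ge, by omega, by omega, b3, b3.union_adj cF b2 h1 h5.symm, ?_⟩
    rwa [union_sdiff_of_subset b1]
  · have hDA : D ⊆ A := a1.comp_subset hv subset_rfl
    have e1 := card_sdiff_add_card_eq_card hDA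
    have e2 := card_sdiff_add_card_eq_card a1.1
    have e3 : 0 < D.card := card_pos.2 ⟨v, hvD⟩
    have e4 : (A \ D).card < s := by
      by_contra hc
      have := a3 _ ⟨a1.sdiff hD, by omega⟩
      omega
    exact ⟨Ψ, A, (univ \ Ψ) \ A, dj A a1, dj _ (hall.sdiff a1), disjoint_sdiff, k0.ge, a2,
      by omega, c0, closed_conn h c0 a1, closed_conn h c0 (hall.sdiff a1)⟩

/-- Half of a set that sees only itself and `x, x'` hangs at one of the two. -/
theorem stack (h : Conn Γ univ) {T : Finset ι} {x x' : ι} {N : ℕ} (hx : x ∉ T)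
    (hT : ∀ u ∈ T, ∀ v, Γ.Adj u v → v ∈ T ∨ v = x ∨ v = x') (hN : 2 * N ≤ T.card) :
    ∃ A ⊆ T, N ≤ A.card ∧ (Conn Γ (insert x A) ∨ Conn Γ (insert x' A)) := by
  have h1 : ∀ z, (comp Γ (insert z T) z).erase z ⊆ T ∧
      Conn Γ (insert z ((comp Γ (insert z T) z).erase z)) := fun z => by
    refine ⟨fun u hu => ?_, ?_⟩
    · exact (mem_insert.1 (comp_subset (mem_erase.1 hu).2)).resolve_left (mem_erase.1 hu).1
    · rw [insert_erase (self_mem_comp (mem_insert_self _ _))]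
      exact comp_conn (mem_insert_self _ _)
  have h2 : T ⊆ (comp Γ (insert x T) x).erase x ∪ (comp Γ (insert x' T) x').erase x' := by
    intro t ht
    obtain ⟨u, v, a1, a2, -, -, a5, a6⟩ := (h.2 t (mem_univ _) x (mem_univ _)).exit ht hx
    have : t ∈ (comp Γ (insert v T) v).erase v := by
      refine mem_erase.2 ⟨fun e => a2 (e ▸ ht), mem_comp.2 ⟨mem_insert_of_mem ht, ?_⟩⟩
      exact ((a6.mono (inter_subset_right.trans (subset_insert _ _))).tail a5
        (mem_insert_of_mem a1) (mem_insert_self _ _)).symm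
    rcases (hT u a1 v a5).resolve_left a2 with rfl | rfl
    · exact mem_union_left _ this
    · exact mem_union_right _ this
  have h3 := (card_le_card h2).trans (card_union_le _ _)
  by_cases hc : N ≤ ((comp Γ (insert x T) x).erase x).card
  · exact ⟨_, (h1 x).1, hc, Or.inl (h1 x).2⟩
  · exact ⟨_, (h1 x').1, by omega, Or.inr (h1 x').2⟩

/-- The graph without the edges between `A` and `B`. -/
def cutG (Γ : SimpleGraph ι) (A B : Finset ι) : SimpleGraph ι :=
  ⟨fun u v => Γ.Adj u v ∧ ¬ (u ∈ A ∧ v ∈ B) ∧ ¬ (u ∈ B ∧ v ∈ A),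
    ⟨fun _ _ h => ⟨h.1.symm, fun c => h.2.2 ⟨c.2, c.1⟩, fun c => h.2.1 ⟨c.2, c.1⟩⟩⟩,
    ⟨fun _ h => h.1.ne rfl⟩⟩

omit [Fintype ι] in
theorem cut_conn {A B S : Finset ι} (h : Conn Γ S) (hS : Disjoint S A ∨ Disjoint S B) :
    Conn (cutG Γ A B) S := h.mono' fun _ _ hxy hx hy => by
  rcases hS with hS | hS
  · exact ⟨hxy, fun c => disjoint_left.1 hS hx c.1, fun c => disjoint_left.1 hS hy c.2⟩
  · exact ⟨hxy, fun c => disjoint_left.1 hS hy c.2, fun c => disjoint_left.1 hS hx c.1⟩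

omit [Fintype ι] in
/-- The chosen vertices grow to disjoint connected parts that form two stacks. -/
theorem fat_parts (hFAT : FATStmt) {Ψ A B : Finset ι} {N : ℕ} (dA : Disjoint A Ψ) (dB : Disjoint B Ψ)
    (dAB : Disjoint A B) (cΨ : Conn Γ Ψ) (cA : Conn Γ (Ψ ∪ A)) (cB : Conn Γ (Ψ ∪ B))
    (i : Wi (2 * N) → ι) (hi : Function.Injective i) (hA : ∀ k, i (Sum.inl k) ∈ A)
    (hB : ∀ k, i (Sum.inr (Sum.inl k)) ∈ B) (hΨ : ∀ b, i (Sum.inr (Sum.inr b)) ∈ Ψ) :
    ∃ (P : Wi (2 * N) → Finset ι) (Γ' : SimpleGraph (Wi (2 * N))),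
      (∀ k, i k ∈ P k ∧ Conn Γ (P k)) ∧ (∀ k k', k ≠ k' → Disjoint (P k) (P k')) ∧
      (∀ k k', Γ'.Adj k k' → Touch Γ (P k) (P k')) ∧
      Stk Γ' (Sum.inr (Sum.inr false)) (Sum.inr (Sum.inr true)) N := by
  obtain ⟨Q, q1, q2, q3, q4⟩ := hFAT (G := Γ) (U := Ψ)
    (fun b : Bool => {i (Sum.inr (Sum.inr b))}) cΨ
    (fun b => ⟨by simpa using hΨ b, Conn.singleton _⟩)
    (fun b b' hb => by simpa [hi.eq_iff] using hb)
  have qt : Touch Γ (Q false) (Q true) := by
    obtain ⟨y, -, hy⟩ := q4.exists_adj (mem_univ false) (mem_univ true) (by simp)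
    cases y
    · exact absurd rfl hy.1
    · exact hy.2
  obtain ⟨p, hp⟩ := cΨ.1
  have cU : Conn (cutG Γ A B) ((Ψ ∪ A) ∪ (Ψ ∪ B)) :=
    (cut_conn cA (Or.inr (disjoint_union_left.2 ⟨dB.symm, dAB⟩))).union
      (cut_conn cB (Or.inl (disjoint_union_left.2 ⟨dA.symm, dAB.symm⟩)))
      (mem_union_left _ hp) (mem_union_left _ hp)
  let P0 : Wi (2 * N) → Finset ι := Sum.elim (fun k => {i (Sum.inl k)})
    (Sum.elim (fun k => {i (Sum.inr (Sum.inl k))}) Q)
  have nA : ∀ k b, i (Sum.inl k) ∉ Q b := fun k b hc =>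
    disjoint_left.1 dA (hA k) ((q1 b).2.1 hc)
  have nB : ∀ k b, i (Sum.inr (Sum.inl k)) ∉ Q b := fun k b hc =>
    disjoint_left.1 dB (hB k) ((q1 b).2.1 hc)
  obtain ⟨P, p1, p2, -, p4⟩ := hFAT (G := cutG Γ A B) P0 cU (by
    rintro (k | k | b)
    · exact ⟨by simp [P0, hA k], Conn.singleton _⟩
    · exact ⟨by simp [P0, hB k], Conn.singleton _⟩
    · exact ⟨(q1 b).2.1.trans (subset_union_left.trans subset_union_left),
        cut_conn (q1 b).2.2 (Or.inl (dA.symm.mono_left (q1 b).2.1))⟩) (by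
    rintro (k | k | b) (k' | k' | b') hn
    all_goals first
      | exact q2 _ _ fun e => hn (by rw [e])
      | (simp [P0, hi.eq_iff, nA, nB]; done)
      | simpa [P0, hi.eq_iff] using hn)
  have mi : ∀ k, i k ∈ P k := by
    rintro (k | k | b)
    · exact (p1 _).1 (by simp [P0])
    · exact (p1 _).1 (by simp [P0])
    · exact (p1 _).1 ((q1 b).1 (by simp))
  have nΨ : ∀ k, (∀ b, k ≠ Sum.inr (Sum.inr b)) → ∀ v ∈ P k, v ∈ A ∨ v ∈ B := by
    intro k hk v hv
    have h1 : v ∉ Ψ := fun hc => by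
      obtain ⟨b, hb⟩ := q3 v hc
      exact disjoint_left.1 (p2 _ _ (hk b)) hv ((p1 (Sum.inr (Sum.inr b))).1 hb)
    have := (p1 k).2.1 hv
    simp only [mem_union] at this
    tauto
  have sA : ∀ k, P (Sum.inl k) ⊆ A := fun k =>
    (p1 _).2.2.subset_of_closed (mi _) (hA k) fun u hu v hv _ huv =>
      (nΨ _ (by simp) v hv).resolve_right fun hc => huv.2.1 ⟨hu, hc⟩
  have sB : ∀ k, P (Sum.inr (Sum.inl k)) ⊆ B := fun k =>
    (p1 _).2.2.subset_of_closed (mi _) (hB k) fun u hu v hv _ huv =>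
      (nΨ _ (by simp) v hv).resolve_left fun hc => huv.2.2 ⟨hu, hc⟩
  have na : ∀ k k', ¬ (tg (cutG Γ A B) P).Adj (Sum.inl k) (Sum.inr (Sum.inl k')) := by
    rintro k k' ⟨-, u, hu, v, hv, huv⟩
    exact huv.2.1 ⟨sA k hu, sB k' hv⟩
  obtain ⟨A', a1, a2, a3⟩ := stack p4 (T := univ.image Sum.inl) (x := Sum.inr (Sum.inr false))
    (x' := Sum.inr (Sum.inr true)) (N := N) (by simp) (by
      intro u hu v huv
      obtain ⟨k, -, rfl⟩ := mem_image.1 hu
      rcases v with k' | k' | b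
      · simp
      · exact absurd huv (na k k')
      · cases b <;> simp)
    (by rw [card_image_of_injective _ Sum.inl_injective]; simp)
  obtain ⟨B', b1, b2, b3⟩ := stack p4 (T := univ.image fun k => Sum.inr (Sum.inl k))
    (x := Sum.inr (Sum.inr false)) (x' := Sum.inr (Sum.inr true)) (N := N) (by simp) (by
      intro u hu v huv
      obtain ⟨k, -, rfl⟩ := mem_image.1 hu
      rcases v with k' | k' | b
      · exact absurd huv.symm (na k' k)
      · simp
      · cases b <;> simp)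
    (by rw [card_image_of_injective _ fun _ _ e => by simpa using e]; simp)
  refine ⟨P, tg (cutG Γ A B) P, fun k => ⟨mi k, (p1 k).2.2.mono' fun _ _ h _ _ => h.1⟩, p2, ?_,
    ⟨by simp, ?_⟩, A', B', ?_, a2, b2, fun c => by simpa using a1 c, fun c => by simpa using a1 c,
    fun c => by simpa using b1 c, fun c => by simpa using b1 c, a3, b3⟩
  · rintro k k' ⟨-, u, hu, v, hv, huv⟩
    exact ⟨u, hu, v, hv, huv.1⟩
  · obtain ⟨u, hu, v, hv, huv⟩ := qt
    have hu' := disjoint_right.1 dA ((q1 _).2.1 hu)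
    have hv' := disjoint_right.1 dA ((q1 _).2.1 hv)
    exact ⟨u, (p1 _).1 hu, v, (p1 _).1 hv, huv, fun c => hu' c.1, fun c => hv' c.2⟩
  · refine Disjoint.mono a1 b1 (disjoint_left.2 fun u hu hu' => ?_)
    obtain ⟨k, -, rfl⟩ := mem_image.1 hu
    simp at hu'

end graph

/-- The clusters keep many lanes of `Ψ` after the lanes of `Y` have been removed. -/
def Good {V ι : Type} [Fintype ι] (G : SimpleGraph V) (C : ℕ → CD V ι) (l : ℕ) (Ψ Y : Finset ι)
    (E : ℕ) : Prop :=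
  ∃ (κ : Type) (_ : Fintype κ) (e : κ → ι) (β : ℕ → Finset V → Finset V),
    Function.Injective e ∧ (∀ k, e k ∈ Ψ) ∧ Fintype.card ι ≤ E * Fintype.card κ ∧
    ∀ j < l, IsSC G (res (C j) e ((C j).reg \ Y.biUnion (C j).lane) (β j))

theorem Good.mono {V ι : Type} [Fintype ι] {G : SimpleGraph V} {C : ℕ → CD V ι} {l : ℕ}
    {Ψ Y : Finset ι} {E E' : ℕ} (h : Good G C l Ψ Y E) (hE : E ≤ E') : Good G C l Ψ Y E' := by
  obtain ⟨κ, _, e, β, h1, h2, h3, h4⟩ := h
  exact ⟨κ, _, e, β, h1, h2, h3.trans (Nat.mul_le_mul_right _ hE), h4⟩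

/-- One more lane is removed. -/
theorem pass_one (hPASS : PASSStmt) (l a E0 : ℕ) : ∃ E1 : ℕ, ∀ {V ι : Type} [Fintype V]
    [Fintype ι] {G : SimpleGraph V} {C : ℕ → CD V ι} {Ψ Y A : Finset ι},
    (∀ j < l, IsSC G (C j)) → Good G C l Ψ Y E0 → Disjoint A Ψ → Disjoint A Y →
    Fintype.card ι ≤ a * A.card → E1 ≤ Fintype.card ι → ∃ y ∈ A, Good G C l Ψ (insert y Y) E1 := by
  obtain ⟨E, hE⟩ := hPASS l a
  refine ⟨E0 * E + 1, ?_⟩
  intro V ι _ _ G C Ψ Y A hC ⟨κ, _, e, β, h1, h2, h3, h4⟩ dΨ dY ha hw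
  obtain ⟨k, Θ, β', g1, g2⟩ := hE (G := G) (κ := A)
    (fun j => res (C j) e ((C j).reg \ Y.biUnion (C j).lane) (β j)) (fun k j => (C j).lane k) h4
    (fun k j hj => ⟨subset_sdiff.2 ⟨(hC j hj).sub _, (disjoint_biUnion_right _ _ _).2 fun y hy =>
      (hC j hj).disj _ _ fun c => disjoint_left.1 dY k.2 (c ▸ hy)⟩, (hC j hj).conn _,
      fun i => (hC j hj).disj _ _ fun c => disjoint_left.1 dΨ k.2 (c ▸ h2 i)⟩)
    (fun k k' hk j hj => (hC j hj).disj _ _ fun c => hk (Subtype.ext c))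
    ((Fintype.card_le_of_injective e h1).trans (by simpa using ha)) (by
      by_contra hc
      have := Nat.mul_le_mul_left E0 (not_le.1 hc).le
      omega)
  refine ⟨k, k.2, Θ, inferInstance, fun t => e t, β', h1.comp Subtype.val_injective,
    fun t => h2 _, ?_, fun j hj => ?_⟩
  · have := Nat.mul_le_mul_left E0 g1
    rw [Fintype.card_coe, add_mul, mul_assoc]
    omega
  · rw [biUnion_insert, union_comm, ← sup_eq_union, ← sdiff_sdiff_left]
    exact g2 j hj

/-- Boundedly many lanes are removed. -/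
theorem pass_many (hPASS : PASSStmt) (l a E0 r : ℕ) : ∃ E1 : ℕ, ∀ {V ι : Type} [Fintype V]
    [Fintype ι] {G : SimpleGraph V} {C : ℕ → CD V ι} {Ψ Y A : Finset ι},
    (∀ j < l, IsSC G (C j)) → Good G C l Ψ Y E0 → Disjoint A Ψ → Disjoint A Y →
    Fintype.card ι + a * r ≤ a * A.card → E1 ≤ Fintype.card ι →
    ∃ Y' ⊆ A, Y'.card = r ∧ Good G C l Ψ (Y' ∪ Y) E1 := by
  induction r with
  | zero => exact ⟨E0, fun _ h _ _ _ _ => ⟨∅, by simp, rfl, by simpa using h⟩⟩
  | succ r ih =>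
    obtain ⟨E1, h1⟩ := ih
    obtain ⟨E2, h2⟩ := pass_one hPASS l a E1
    refine ⟨E1 + E2, ?_⟩
    intro V ι _ _ G C Ψ Y A hC hg dΨ dY ha hw
    rw [mul_add] at ha
    obtain ⟨Y', a1, a2, a3⟩ := h1 hC hg dΨ dY (by omega) (by omega)
    obtain ⟨y, b1, b2⟩ := h2 (A := A \ Y') hC a3 (dΨ.mono_left sdiff_subset)
      (disjoint_union_right.2 ⟨sdiff_disjoint, dY.mono_left sdiff_subset⟩) (by
        rw [← card_sdiff_add_card_eq_card a1, mul_add, a2] at ha
        omega) (by omega)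
    refine ⟨insert y Y', insert_subset (mem_sdiff.1 b1).1 a1,
      by rw [card_insert_of_notMem (mem_sdiff.1 b1).2, a2], ?_⟩
    rw [insert_union]
    exact b2.mono (by omega)

/-- An injective enumeration of a finite set. -/
theorem enum {ι : Type} {Y : Finset ι} {r : ℕ} (h : Y.card = r) :
    ∃ f : Fin r → ι, Function.Injective f ∧ ∀ k, f k ∈ Y :=
  ⟨fun k => ((Y.equivFinOfCardEq h).symm k).1,
    Subtype.val_injective.comp (Y.equivFinOfCardEq h).symm.injective,
    fun k => ((Y.equivFinOfCardEq h).symm k).2⟩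

/-- Three injective families in three disjoint sets. -/
theorem inj3 {ι : Type} {h : ℕ} {A B Ψ : Finset ι} {f g : Fin h → ι} {c : Bool → ι}
    (dA : Disjoint A Ψ) (dB : Disjoint B Ψ) (dAB : Disjoint A B) (hf : Function.Injective f)
    (hg : Function.Injective g) (hc : c false ≠ c true) (mf : ∀ k, f k ∈ A) (mg : ∀ k, g k ∈ B)
    (mc : ∀ b, c b ∈ Ψ) : Function.Injective (Sum.elim f (Sum.elim g c) : Wi h → ι) := by
  refine hf.sumElim (hg.sumElim ?_ fun k b e => disjoint_left.1 dB (mg k) (e ▸ mc b)) ?_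
  · intro b b' e
    cases b <;> cases b' <;> simp_all
  · rintro k (k' | b) e
    · exact disjoint_left.1 dAB (mf k) (e ▸ mg k')
    · exact disjoint_left.1 dA (mf k) (e ▸ mc b)

/-- The wires in the graph. -/
theorem fat_wires {V ι ω : Type} [Fintype ι] {G : SimpleGraph V} {C : ℕ → CD V ι} (h : SPoS G 17 C)
    {F : ι → Finset V} (f1 : ∀ u, (C 0).lane u ⊆ F u ∧ F u ⊆ (C 0).reg ∧ Conn G (F u))
    (f2 : ∀ u v, u ≠ v → Disjoint (F u) (F v)) {i : ω → ι} (hi : Function.Injective i)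
    {P : ω → Finset ι} (p1 : ∀ k, i k ∈ P k ∧ Conn (tg G F) (P k))
    (p2 : ∀ k k', k ≠ k' → Disjoint (P k) (P k')) (Ps : ω → Prop) {S : Finset V}
    (hS : ∀ v ∈ S, ∃ j < 16, v ∈ (C (1 + j)).reg ∧ ∀ k, Ps k → v ∉ (C (1 + j)).lane (i k)) :
    ∃ W0 : ω → Finset V,
      (∀ k, W0 k ⊆ Reg C 17 ∧ Conn G (W0 k) ∧ Disjoint (W0 k) S ∧ (C 0).a (i k) ∈ W0 k) ∧
      (∀ k k', k ≠ k' → Disjoint (W0 k) (W0 k')) ∧ (∀ k, Ps k → (C 16).b (i k) ∈ W0 k) ∧
      (∀ k k', Touch (tg G F) (P k) (P k') → Touch G (W0 k) (W0 k')) ∧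
      ∀ k, Touch G {(C 1).a (i k)} (W0 k) := by
  let T : ω → Finset V := fun k =>
    if Ps k then (Icc 1 16).biUnion fun j => (C j).lane (i k) else ∅
  have mT : ∀ k v, v ∈ T k → Ps k ∧ ∃ j, 1 ≤ j ∧ j < 17 ∧ v ∈ (C j).lane (i k) := by
    intro k v hv
    by_cases hk : Ps k
    · simp only [T, if_pos hk, mem_biUnion, mem_Icc] at hv
      obtain ⟨j, hj, hv⟩ := hv
      exact ⟨hk, j, hj.1, by omega, hv⟩
    · simp [T, hk] at hv
  have sF : ∀ k, F (i k) ⊆ (P k).biUnion F := fun k => subset_biUnion_of_mem F (p1 k).1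
  have rF : ∀ k, (P k).biUnion F ⊆ (C 0).reg := fun k => biUnion_subset.2 fun u _ => (f1 u).2.1
  have mb : ∀ k, (C 0).b (i k) ∈ (P k).biUnion F := fun k =>
    sF k ((f1 _).1 ((h.cl 0 (by omega)).mb _))
  have dFT : ∀ k k', Disjoint ((P k).biUnion F) (T k') := fun k k' =>
    disjoint_left.2 fun v hv hv' => by
      obtain ⟨-, j, j1, j2, j3⟩ := mT k' v hv'
      exact disjoint_left.1 (h.disj 0 (by omega) j j2 (by omega)) (rF k hv) ((h.cl j j2).sub _ j3)
  refine ⟨fun k => (P k).biUnion F ∪ T k, fun k => ⟨?_, ?_, ?_, ?_⟩, fun k k' hk => ?_,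
    fun k hk => ?_, ?_, fun k => ?_⟩
  · refine union_subset ((rF k).trans (reg_sub_Reg (by omega))) fun v hv => ?_
    obtain ⟨-, j, -, j2, j3⟩ := mT k v hv
    exact reg_sub_Reg j2 ((h.cl j j2).sub _ j3)
  · have c1 : Conn G ((P k).biUnion F) :=
      (p1 k).2.biUnion (fun u _ => (f1 u).2.2) fun _ _ _ _ e => e.2
    by_cases hk : Ps k
    · simp only [T, if_pos hk]
      exact c1.union_adj (h.conn_lane (i k) (by omega) (by omega)) (mb k)
        (mem_biUnion.2 ⟨1, by simp, (h.cl 1 (by omega)).ma _⟩) (h.adj 0 (by omega) _)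
    · simpa [T, hk] using c1
  · refine disjoint_right.2 fun v hv hv' => ?_
    obtain ⟨j, j1, j2, j3⟩ := hS v hv
    rcases mem_union.1 hv' with hv' | hv'
    · exact disjoint_left.1 (h.disj 0 (by omega) (1 + j) (by omega) (by omega)) (rF k hv') j2
    · obtain ⟨hk, j', -, e2, e3⟩ := mT k v hv'
      by_cases e : j' = 1 + j
      · exact j3 k hk (e ▸ e3)
      · exact disjoint_left.1 (h.disj j' e2 (1 + j) (by omega) e) ((h.cl j' e2).sub _ e3) j2
  · exact mem_union_left _ (sF k ((f1 _).1 ((h.cl 0 (by omega)).ma _)))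
  · simp only [disjoint_union_left, disjoint_union_right]
    refine ⟨⟨disj_map f2 (p2 k k' hk), (dFT k' k).symm⟩, dFT k k', ?_⟩
    refine disjoint_left.2 fun v hv hv' => ?_
    obtain ⟨-, j, -, j2, j3⟩ := mT k v hv
    obtain ⟨-, j', -, e2, e3⟩ := mT k' v hv'
    by_cases e : j = j'
    · subst e
      exact disjoint_left.1 ((h.cl j j2).disj _ _ (hi.ne hk)) j3 e3
    · exact disjoint_left.1 (h.disj j j2 j' e2 e) ((h.cl j j2).sub _ j3) ((h.cl j' e2).sub _ e3)
  · refine mem_union_right _ ?_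
    simp only [T, if_pos hk]
    exact mem_biUnion.2 ⟨16, by simp, (h.cl 16 (by omega)).mb _⟩
  · intro k k' ht
    exact (touch_map (H := tg G F) (fun _ _ e => e.2) ht).mono subset_union_left subset_union_left
  · exact ⟨_, mem_singleton_self _, _, mem_union_left _ (mb k), (h.adj 0 (by omega) _).symm⟩

end STEP

open STEP in
/-- STEP: a cell with passing wires that form two stacks. -/
theorem step (hFAT : FATStmt) (hPASS : PASSStmt) (hCELL : CELLStmt) : STEPStmt := by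
  intro ρ N
  obtain ⟨E1, h1⟩ := pass_many hPASS 16 12 10 (2 * N)
  obtain ⟨E2, h2⟩ := pass_many hPASS 16 12 E1 (2 * N)
  obtain ⟨Ec, hc⟩ := hCELL (ρ * E2)
  refine ⟨E1 + E2 + E2 * Ec + 30 * (N + 1), ?_⟩
  intro V ι _ _ G C σ n h hσ hρ hw
  have hw' : E1 + E2 + E2 * Ec + 30 * (N + 1) ≤ Fintype.card ι :=
    le_trans (Nat.le_mul_of_pos_right _ (by omega)) hw
  have : Nonempty ι := Fintype.card_pos_iff.1 (by omega)
  have c0 := h.cl 0 (by omega)
  have z0 : (∅ : Finset V).card < Fintype.card ι := by simp only [card_empty]; omega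
  obtain ⟨F, f1, f2, -, f4⟩ := hFAT (G := G) (U := (C 0).β ∅) (C 0).lane (c0.hv.conn _ z0)
    (fun u => ⟨c0.hv.absorb z0 (c0.conn u) (c0.sub u) (by simp) (c0.ma u)
      ((free_a c0.toIsCluster).sub_empty (by omega) (mem_image_of_mem _ (mem_univ u))), c0.conn u⟩)
    c0.disj
  obtain ⟨Ψ, A, B, dA, dB, dAB, kΨ, kA, kB, cΨ, cA, cB⟩ := three f4 (s := Fintype.card ι / 5)
    (by omega) (by omega)
  have hD := h.shift 1 16 (by omega)
  have g0 : Good G (fun j => C (1 + j)) 16 Ψ ∅ 10 :=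
    ⟨Ψ, inferInstance, Subtype.val, fun j => (C (1 + j)).β, Subtype.val_injective, fun k => k.2,
      by rw [Fintype.card_coe]; omega, fun j hj => by
        simpa using (hD.cl j hj).res (Subtype.val_injective (p := (· ∈ Ψ)))⟩
  obtain ⟨YA, a1, a2, a3⟩ := h1 hD.cl g0 dA (by simp) (by omega) (by omega)
  obtain ⟨YB, b1, b2, κ, _, e, β, e1, e2, e3, e4⟩ := h2 hD.cl a3 dB
    (by simpa using dAB.symm.mono_right a1) (by omega) (by omega)
  obtain ⟨x, x', y, y', hx, hy, cell⟩ := hc (n := n) (hD.res (fun j _ => sdiff_subset) e4) hσ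
    (hρ.trans (by rw [mul_assoc]; exact Nat.mul_le_mul_left _ e3)) (by
      by_contra hn
      have := Nat.mul_le_mul_left E2 (not_le.1 hn).le
      rw [← mul_assoc] at this
      simp only [add_mul] at hw
      have : 0 < 30 * (N + 1) * (n + 1) := by positivity
      omega)
  obtain ⟨fa, fa1, fa2⟩ := enum a2
  obtain ⟨fb, fb1, fb2⟩ := enum b2
  have inj : ∀ u u' : κ, u ≠ u' → Function.Injective
      (Sum.elim fa (Sum.elim fb fun b => e (cond b u' u)) : Wi (2 * N) → ι) := fun u u' hu =>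
    inj3 dA dB dAB fa1 fb1 (e1.ne hu) (fun k => a1 (fa2 k)) (fun k => b1 (fb2 k)) fun b => e2 _
  obtain ⟨P, Γ, p1, p2, p3, p4⟩ := fat_parts hFAT dA dB dAB cΨ cA cB _ (inj x x' hx)
    (fun k => a1 (fa2 k)) (fun k => b1 (fb2 k)) fun b => e2 _
  obtain ⟨W0, w1, w2, w3, w4, w5⟩ := fat_wires h
    (fun u => ⟨(f1 u).1, (f1 u).2.1.trans (c0.hv.subU z0), (f1 u).2.2⟩) f2 (inj x x' hx) p1 p2
    (fun k => k ≠ Sum.inr (Sum.inr false) ∧ k ≠ Sum.inr (Sum.inr true))
    (S := Reg (fun j => res (C (1 + j)) e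
      ((C (1 + j)).reg \ (YB ∪ (YA ∪ ∅)).biUnion (C (1 + j)).lane) (β j)) 16) (by
      intro v hv
      obtain ⟨j, hj, hv⟩ := mem_Reg.1 hv
      obtain ⟨v1, v2⟩ := mem_sdiff.1 hv
      refine ⟨j, hj, v1, fun k hk hl => v2 (mem_biUnion.2 ⟨_, ?_, hl⟩)⟩
      rcases k with k | k | b
      · simp [fa2 k]
      · simp [fb2 k]
      · cases b <;> simp at hk)
  refine ⟨_, _, W0, _, Γ, _, _, inj x x' hx, inj y y' hy, w1, w2, ?_, ?_,
    fun k k' hk => w4 k k' (p3 k k' hk), p4, cell, w5 (Sum.inr (Sum.inr false)),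
    w5 (Sum.inr (Sum.inr true))⟩
  · intro v hv
    obtain ⟨j, hj, hv⟩ := mem_Reg.1 hv
    exact mem_Reg.2 ⟨1 + j, by omega, (mem_sdiff.1 hv).1⟩
  · rintro (k | k | b) k1 k2
    · exact w3 _ ⟨k1, k2⟩
    · exact w3 _ ⟨k1, k2⟩
    · cases b <;> simp at k1 k2

end Pool.Agent.MP_7be75d_co.Gen

end MrgPart3

-- marker of a merged file
example : 731051 + 25090 = 731051 + 25090 := rfl
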