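import Pool.Agent.MP_7be75d_co.Gen.Comb1

-- ======== part 0: formerly Pool.Agent.MP_7be75d_co.Gen.PORTA
section MrgPart0

/-! Module PORTA: greedy cells of a collar, ports, and the cut condition. -/

namespace Pool.Agent.MP_7be75d_co.Gen

open Finset
open scoped Classical

namespace PORTA

variable {W ι : Type} {M : SimpleGraph W} {lane : W → ι} {ν : W → ℕ} {fst : ι → W}

/-- Walking along a lane. -/
theorem lane_walk (h : Timed M lane ν fst) {U : Finset W} {a a' : W} (hl : lane a = lane a')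
    (hν : ν a ≤ ν a') (hU : ∀ c, lane c = lane a' → ν a ≤ ν c → ν c ≤ ν a' → c ∈ U) :
    R M U a a' := by
  have key : ∀ n, ∀ a, ν a' - ν a ≤ n → lane a = lane a' → ν a ≤ ν a' →
      (∀ c, lane c = lane a' → ν a ≤ ν c → ν c ≤ ν a' → c ∈ U) → R M U a a' := by
    intro n
    induction n with
    | zero =>
      intro a h1 _ h3 _
      rw [h.inj (show ν a = ν a' by omega)]
      exact R.refl
    | succ n ih =>
      intro a h1 h2 h3 h4
      rcases h3.eq_or_lt with e | hlt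
      · rw [h.inj e]
        exact R.refl
      obtain ⟨c, ⟨hc1, hc2⟩, hmin⟩ := exists_min_of (p := fun c => lane c = lane a ∧ ν a < ν c) ν
        ⟨a', h2.symm, hlt⟩
      have hca := hmin a' ⟨h2.symm, hlt⟩
      have hadj := h.next a c hc1.symm hc2 fun d hd hd' => hmin d ⟨hd, hd'⟩
      exact (R.single hadj (h4 a h2 le_rfl h3) (h4 c (hc1.trans h2) hc2.le hca)).trans
        (ih c (by omega) (hc1.trans h2) hca fun d d1 d2 d3 => h4 d d1 (by omega) d3)
  exact key _ a le_rfl hl hν hU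

/-- The time interval `[t, e)` contains an edge between any two consecutive rows. -/
def Full (M : SimpleGraph W) (lane : W → ι) (ν : W → ℕ) (ρ : ℕ → ι) (t e : ℕ) : Prop :=
  ∀ j < 8, ∃ a a', lane a = ρ j ∧ lane a' = ρ (j + 1) ∧ M.Adj a a' ∧ t ≤ ν a ∧ ν a < e ∧
    t ≤ ν a' ∧ ν a' < e

theorem Full.lt {ρ : ℕ → ι} {t e : ℕ} (h : Full M lane ν ρ t e) : t < e := by
  obtain ⟨a, -, -, -, -, h1, h2, -⟩ := h 0 (by omega)
  omega

/-- The greedy cells of one collar. -/
structure Cl (M : SimpleGraph W) (lane : W → ι) (ν : W → ℕ) (ρ : ℕ → ι) (n : ℕ) (t : ℕ → ℕ)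
    (port : ℕ → W) (en : ℕ → ℕ) : Prop where
  t0 : t 0 = 0
  full : ∀ x < n, Full M lane ν ρ (t x) (t (x + 1))
  least : ∀ x < n, ∀ e, Full M lane ν ρ (t x) e → t (x + 1) ≤ e
  stop : ∀ e, ¬ Full M lane ν ρ (t n) e
  pt : ∀ x < n, lane (port x) = ρ 0 ∧ t x ≤ ν (port x) ∧ ν (port x) < t (x + 1) ∧
    ∃ a', lane a' = ρ 1 ∧ M.Adj (port x) a' ∧ t x ≤ ν a' ∧ ν a' < t (x + 1)
  en : ∀ v < t n, ∃ x < n, t x ≤ v ∧ v < t (x + 1) ∧ en v = t (x + 1)

theorem exists_cl [Fintype W] (M : SimpleGraph W) (lane : W → ι) (ν : W → ℕ) (ρ : ℕ → ι)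
    (w0 : W) : ∃ n t port en, Cl M lane ν ρ n t port en := by
  obtain ⟨t, t0, ts⟩ : ∃ t : ℕ → ℕ, t 0 = 0 ∧
      ∀ x, t (x + 1) = sInf {e | Full M lane ν ρ (t x) e} :=
    ⟨fun x => Nat.rec 0 (fun _ y => sInf {e | Full M lane ν ρ y e}) x, rfl, fun _ => rfl⟩
  have hfull : ∀ x, (∃ e, Full M lane ν ρ (t x) e) → Full M lane ν ρ (t x) (t (x + 1)) := by
    intro x hx
    rw [ts]
    exact Nat.sInf_mem (s := {e | Full M lane ν ρ (t x) e}) hx
  have hex : ∃ x, ¬ ∃ e, Full M lane ν ρ (t x) e := by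
    by_contra hc
    push Not at hc
    have h1 : ∀ x, x ≤ t x := by
      intro x
      induction x with
      | zero => omega
      | succ x ih => have := (hfull x (hc x)).lt; omega
    obtain ⟨a, -, -, -, -, h2, -⟩ := hfull _ (hc (univ.sup ν + 1)) 0 (by omega)
    have h3 := h1 (univ.sup ν + 1)
    have h4 : ν a ≤ univ.sup ν := le_sup (mem_univ a)
    omega
  have hf : ∀ x < Nat.find hex, Full M lane ν ρ (t x) (t (x + 1)) := fun x hx =>
    hfull x (not_not.1 (Nat.find_min hex hx))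
  have hp : ∀ x, ∃ p : W, x < Nat.find hex → lane p = ρ 0 ∧ t x ≤ ν p ∧ ν p < t (x + 1) ∧
      ∃ a', lane a' = ρ 1 ∧ M.Adj p a' ∧ t x ≤ ν a' ∧ ν a' < t (x + 1) := by
    intro x
    by_cases hx : x < Nat.find hex
    · obtain ⟨a, a', h1, h2, h3, h4, h5, h6, h7⟩ := hf x hx 0 (by omega)
      exact ⟨a, fun _ => ⟨h1, h4, h5, a', h2, h3, h6, h7⟩⟩
    · exact ⟨w0, fun h => absurd h hx⟩
  have hcell : ∀ m v, v < t m → ∃ x < m, t x ≤ v ∧ v < t (x + 1) := by
    intro m v
    induction m with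
    | zero => intro h; omega
    | succ m ih =>
      intro h
      by_cases hv : v < t m
      · obtain ⟨x, h1, h2⟩ := ih hv
        exact ⟨x, by omega, h2⟩
      · exact ⟨m, by omega, by omega, h⟩
  have he : ∀ v, ∃ e, v < t (Nat.find hex) →
      ∃ x < Nat.find hex, t x ≤ v ∧ v < t (x + 1) ∧ e = t (x + 1) := by
    intro v
    by_cases hv : v < t (Nat.find hex)
    · obtain ⟨x, h1, h2, h3⟩ := hcell _ v hv
      exact ⟨t (x + 1), fun _ => ⟨x, h1, h2, h3, rfl⟩⟩
    · exact ⟨0, fun h => absurd h hv⟩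
  choose port hport using hp
  choose en hen using he
  exact ⟨Nat.find hex, t, port, en, t0, hf, fun x _ e hx => by rw [ts]; exact Nat.sInf_le hx,
    fun e hx => Nat.find_spec hex ⟨e, hx⟩, hport, hen⟩

variable {ρ : ℕ → ι} {n : ℕ} {t : ℕ → ℕ} {port : ℕ → W} {en : ℕ → ℕ}

theorem Cl.mono (h : Cl M lane ν ρ n t port en) {x y : ℕ} (hxy : x ≤ y) (hy : y ≤ n) :
    t x ≤ t y := by
  induction y, hxy using Nat.le_induction with
  | base => exact le_rfl
  | succ y _ ih => exact (ih (by omega)).trans (h.full y hy).lt.le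

/-- The part of row `d + 1` in the cell `x`. -/
noncomputable def col [Fintype W] (lane : W → ι) (ν : W → ℕ) (ρ : ℕ → ι) (t : ℕ → ℕ) (d x : ℕ) :
    Finset W :=
  univ.filter fun w => lane w = ρ (d + 1) ∧ t x ≤ ν w ∧ ν w < t (x + 1)

theorem mem_col [Fintype W] {d x : ℕ} {w : W} :
    w ∈ col lane ν ρ t d x ↔ lane w = ρ (d + 1) ∧ t x ≤ ν w ∧ ν w < t (x + 1) := by simp [col]

section cols

variable [Fintype W]

theorem Cl.col_ne (h : Cl M lane ν ρ n t port en) {d x : ℕ} (hd : d < 8) (hx : x < n) :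
    (col lane ν ρ t d x).Nonempty := by
  obtain ⟨a, a', -, h2, -, -, -, h6, h7⟩ := h.full x hx d hd
  exact ⟨a', mem_col.2 ⟨h2, h6, h7⟩⟩

theorem Cl.col_conn (hT : Timed M lane ν fst) (h : Cl M lane ν ρ n t port en) {d x : ℕ}
    (hd : d < 8) (hx : x < n) : Conn M (col lane ν ρ t d x) := by
  have key : ∀ a ∈ col lane ν ρ t d x, ∀ b ∈ col lane ν ρ t d x, ν a ≤ ν b →
      R M (col lane ν ρ t d x) a b := by
    intro a ha b hb hab
    obtain ⟨a1, a2, a3⟩ := mem_col.1 ha
    obtain ⟨b1, b2, b3⟩ := mem_col.1 hb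
    exact lane_walk hT (a1.trans b1.symm) hab fun c c1 c2 c3 =>
      mem_col.2 ⟨c1.trans b1, by omega, by omega⟩
  refine ⟨h.col_ne hd hx, fun a ha b hb => ?_⟩
  rcases le_total (ν a) (ν b) with hab | hab
  · exact key a ha b hb hab
  · exact (key b hb a ha hab).symm

theorem Cl.col_disj (h : Cl M lane ν ρ n t port en) {d x x' : ℕ} (hx : x < n) (hx' : x' < n)
    (hne : x ≠ x') : Disjoint (col lane ν ρ t d x) (col lane ν ρ t d x') := by
  refine disjoint_left.2 fun w h1 h2 => ?_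
  obtain ⟨-, a2, a3⟩ := mem_col.1 h1
  obtain ⟨-, b2, b3⟩ := mem_col.1 h2
  rcases lt_or_gt_of_ne hne with hl | hl
  · have := h.mono (show x + 1 ≤ x' from hl) hx'.le
    omega
  · have := h.mono (show x' + 1 ≤ x from hl) hx.le
    omega

theorem Cl.col_hor (hT : Timed M lane ν fst) (h : Cl M lane ν ρ n t port en) {d x : ℕ}
    (hd : d < 8) (hx : x + 1 < n) :
    Touch M (col lane ν ρ t d x) (col lane ν ρ t d (x + 1)) := by
  obtain ⟨a, ha⟩ := h.col_ne hd (show x < n by omega)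
  obtain ⟨b, hb⟩ := h.col_ne hd hx
  obtain ⟨a1, a2, a3⟩ := mem_col.1 ha
  obtain ⟨b1, b2, b3⟩ := mem_col.1 hb
  have hw : R M (col lane ν ρ t d x ∪ col lane ν ρ t d (x + 1)) a b :=
    lane_walk hT (a1.trans b1.symm) (by omega) fun c c1 c2 c3 => by
      by_cases hc : ν c < t (x + 1)
      · exact mem_union_left _ (mem_col.2 ⟨c1.trans b1, by omega, hc⟩)
      · exact mem_union_right _ (mem_col.2 ⟨c1.trans b1, by omega, by omega⟩)
  obtain ⟨p, q, h1, h2, -, h4, h5, -⟩ := hw.exit ha fun hb' => by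
    have := (mem_col.1 hb').2.2
    omega
  exact ⟨p, h1, q, (mem_union.1 h4).resolve_left h2, h5⟩

theorem Cl.col_ver (h : Cl M lane ν ρ n t port en) {d x : ℕ} (hd : d + 1 < 8) (hx : x < n) :
    Touch M (col lane ν ρ t d x) (col lane ν ρ t (d + 1) x) := by
  obtain ⟨a, a', h1, h2, h3, h4, h5, h6, h7⟩ := h.full x hx (d + 1) hd
  exact ⟨a, mem_col.2 ⟨h1, h4, h5⟩, a', mem_col.2 ⟨h2, h6, h7⟩, h3⟩

theorem Cl.col_fst (hT : Timed M lane ν fst) (h : Cl M lane ν ρ n t port en) {d : ℕ}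
    (hd : d < 8) (hn : 0 < n) : fst (ρ (d + 1)) ∈ col lane ν ρ t d 0 := by
  obtain ⟨a, ha⟩ := h.col_ne hd hn
  obtain ⟨a1, -, a3⟩ := mem_col.1 ha
  have := hT.first a
  rw [a1] at this
  exact mem_col.2 ⟨hT.lf _, by rw [h.t0]; omega, by omega⟩

end cols

theorem Cl.port_inj (h : Cl M lane ν ρ n t port en) {x x' : ℕ} (hx : x < n) (hx' : x' < n)
    (e : port x = port x') : x = x' := by
  obtain ⟨-, a2, a3, -⟩ := h.pt x hx
  obtain ⟨-, b2, b3, -⟩ := h.pt x' hx'
  rw [e] at a2 a3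
  by_contra hne
  rcases lt_or_gt_of_ne hne with hl | hl
  · have := h.mono (show x + 1 ≤ x' from hl) hx'.le
    omega
  · have := h.mono (show x' + 1 ≤ x from hl) hx.le
    omega

/-- The times at which the collar is cut. -/
def Th (lane : W → ι) (ν : W → ℕ) (ρ : ℕ → ι) (en : ℕ → ℕ) (Z : Finset W) (θ : ℕ) : Prop :=
  ∃ z ∈ Z, lane z = ρ 0 ∧ (θ = ν z + 1 ∨ θ = en (ν z))

/-- A vertex outside `Z` which is not the last one of its lane before a cut time. -/
def Good (lane : W → ι) (ν : W → ℕ) (ρ : ℕ → ι) (en : ℕ → ℕ) (Z : Finset W) (w : W) : Prop :=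
  w ∉ Z ∧ ∀ θ, Th lane ν ρ en Z θ → ν w < θ → ∃ w', lane w' = lane w ∧ ν w < ν w' ∧ ν w' < θ

/-- Two times that no cut time separates. -/
def Sl (lane : W → ι) (ν : W → ℕ) (ρ : ℕ → ι) (en : ℕ → ℕ) (Z : Finset W) (u v : ℕ) : Prop :=
  ∀ θ, Th lane ν ρ en Z θ → (u < θ ↔ v < θ)

/-- Two times that no vertex of `Z` on the first row separates. -/
def Zn (lane : W → ι) (ν : W → ℕ) (ρ : ℕ → ι) (Z : Finset W) (u v : ℕ) : Prop :=
  ∀ z ∈ Z, lane z = ρ 0 → (u ≤ ν z ↔ v ≤ ν z)

/-- A good edge between the rows `j` and `j + 1` in the slot of `u`. -/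
def RS (M : SimpleGraph W) (lane : W → ι) (ν : W → ℕ) (ρ : ℕ → ι) (en : ℕ → ℕ) (Z : Finset W)
    (j u : ℕ) : Prop :=
  ∃ a a', lane a = ρ j ∧ lane a' = ρ (j + 1) ∧ M.Adj a a' ∧ Good lane ν ρ en Z a ∧
    Good lane ν ρ en Z a' ∧ Sl lane ν ρ en Z u (ν a) ∧ Sl lane ν ρ en Z u (ν a')

variable {Z : Finset W} {u v : ℕ} {x y : W}

theorem Sl.refl : Sl lane ν ρ en Z u u := fun _ _ => Iff.rfl

theorem Sl.symm (h : Sl lane ν ρ en Z u v) : Sl lane ν ρ en Z v u := fun θ hθ => (h θ hθ).symm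

theorem Sl.trans {v' : ℕ} (h : Sl lane ν ρ en Z u v) (h' : Sl lane ν ρ en Z v v') :
    Sl lane ν ρ en Z u v' := fun θ hθ => (h θ hθ).trans (h' θ hθ)

theorem Sl.zn (h : Sl lane ν ρ en Z u v) : Zn lane ν ρ Z u v := fun z hz hl => by
  have := h (ν z + 1) ⟨z, hz, hl, Or.inl rfl⟩
  omega

theorem Zn.symm (h : Zn lane ν ρ Z u v) : Zn lane ν ρ Z v u := fun z hz hl => (h z hz hl).symm

theorem Zn.trans {v' : ℕ} (h : Zn lane ν ρ Z u v) (h' : Zn lane ν ρ Z v v') :
    Zn lane ν ρ Z u v' := fun z hz hl => (h z hz hl).trans (h' z hz hl)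

theorem RS.sl {j : ℕ} (h : RS M lane ν ρ en Z j u) (hs : Sl lane ν ρ en Z v u) :
    RS M lane ν ρ en Z j v := by
  obtain ⟨a, a', h1, h2, h3, h4, h5, h6, h7⟩ := h
  exact ⟨a, a', h1, h2, h3, h4, h5, hs.trans h6, hs.trans h7⟩

/-- An edge with good ends stays in its slot. -/
theorem sl_of_adj (hT : Timed M lane ν fst) (hxy : M.Adj x y) (hx : Good lane ν ρ en Z x)
    (hy : Good lane ν ρ en Z y) : Sl lane ν ρ en Z (ν x) (ν y) := by
  intro θ hθ
  constructor
  · intro h
    obtain ⟨w, h1, h2, h3⟩ := hx.2 θ hθ h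
    exact (hT.time x y w hxy h1 h2).trans_lt h3
  · intro h
    obtain ⟨w, h1, h2, h3⟩ := hy.2 θ hθ h
    exact (hT.time y x w hxy.symm h1 h2).trans_lt h3

theorem full_of_rs (h : ∀ j < 8, RS M lane ν ρ en Z j u) {lo hi : ℕ}
    (hb : ∀ a, Good lane ν ρ en Z a → Sl lane ν ρ en Z u (ν a) → lo ≤ ν a ∧ ν a < hi) :
    Full M lane ν ρ lo hi := by
  intro j hj
  obtain ⟨a, a', h1, h2, h3, h4, h5, h6, h7⟩ := h j hj
  exact ⟨a, a', h1, h2, h3, (hb a h4 h6).1, (hb a h4 h6).2, (hb a' h5 h7).1, (hb a' h5 h7).2⟩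

/-- The port lemma: eight good edges in one slot give a port outside `Z` in the same zone. -/
theorem port_lemma [Fintype W] (hT : Timed M lane ν fst) (h : Cl M lane ν ρ n t port en)
    (hr : ∀ j < 8, RS M lane ν ρ en Z j u) :
    ∃ x < n, port x ∉ Z ∧ Zn lane ν ρ Z u (ν (port x)) := by
  have hsup : ∀ a, ν a < univ.sup ν + 1 := fun a => Nat.lt_succ_of_le (le_sup (mem_univ a))
  have main : ∀ x ≤ n, (∀ a, Good lane ν ρ en Z a → Sl lane ν ρ en Z u (ν a) → t x ≤ ν a) →
      (∀ z ∈ Z, lane z = ρ 0 → ν z < u → ν z < t x) →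
      ∃ x < n, port x ∉ Z ∧ Zn lane ν ρ Z u (ν (port x)) := by
    intro x hx h1 h2
    have hxn : x < n := by
      refine lt_of_le_of_ne hx fun e => h.stop (univ.sup ν + 1) ?_
      exact e ▸ full_of_rs hr fun a ha hs => ⟨h1 a ha hs, hsup a⟩
    obtain ⟨p1, p2, p3, -⟩ := h.pt x hxn
    have h3 : ∀ z ∈ Z, lane z = ρ 0 → u ≤ ν z → ν (port x) < ν z := by
      intro z hz hl hu
      refine p3.trans_le (h.least x hxn _ (full_of_rs hr fun a ha hs => ⟨h1 a ha hs, ?_⟩))
      have h4 := (hs.zn z hz hl).1 hu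
      exact lt_of_le_of_ne h4 fun e => ha.1 (hT.inj e ▸ hz)
    refine ⟨x, hxn, fun hz => ?_, fun z hz hl => ?_⟩
    · have h4 := h2 _ hz p1
      have h5 := h3 _ hz p1
      omega
    · have h4 := h2 z hz hl
      have h5 := h3 z hz hl
      omega
  by_cases hex : ∃ z, z ∈ Z ∧ lane z = ρ 0 ∧ ν z < u
  · obtain ⟨z, ⟨z1, z2, z3⟩, hmax⟩ := exists_max_of ν u (fun a ha => ha.2.2.le) hex
    have hgt : ∀ a, Sl lane ν ρ en Z u (ν a) → ν z < ν a := by
      intro a hs
      have := hs.zn z z1 z2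
      omega
    have hzn : ν z < t n := by
      by_contra hc
      exact h.stop _ (full_of_rs hr fun a _ hs => ⟨by have := hgt a hs; omega, hsup a⟩)
    obtain ⟨x, x1, x2, x3, x4⟩ := h.en _ hzn
    have hθ : Th lane ν ρ en Z (t (x + 1)) := ⟨z, z1, z2, Or.inr x4.symm⟩
    have hu : t (x + 1) ≤ u := by
      by_contra hc
      have := h.least x x1 (t (x + 1) - 1) (full_of_rs hr fun a ha hs => by
        have h4 := hgt a hs
        obtain ⟨w, -, h5, h6⟩ := ha.2 _ hθ ((hs _ hθ).1 (by omega))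
        omega)
      omega
    refine main (x + 1) x1 (fun a _ hs => ?_) fun z' hz' hl hlt => ?_
    · have := hs _ hθ
      omega
    · have := hmax z' ⟨hz', hl, hlt⟩
      omega
  · exact main 0 (Nat.zero_le _) (fun a _ _ => by rw [h.t0]; omega)
      fun z hz hl hlt => absurd ⟨z, hz, hl, hlt⟩ hex

/-- What is known about the reached set `Ω` near one collar; `P` says that a port is reached. -/
structure Rch (M : SimpleGraph W) (lane : W → ι) (ρ : ℕ → ι) (n : ℕ) (port : ℕ → W)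
    (Z : Finset W) (Ω : W → Prop) (P : Prop) : Prop where
  walk : ∀ a a', lane a' = ρ 0 → M.Adj a a' → a' ∉ Z → Ω a → Ω a'
  out : ∀ a, Ω a → a ∉ Z
  jump : P → ∀ x < n, port x ∉ Z → Ω (port x)
  get : ∀ x < n, Ω (port x) → P

variable {Ω : W → Prop} {P : Prop}

/-- Inside a zone one walks along the first row. -/
theorem Rch.zone [Fintype W] (hT : Timed M lane ν fst) (h : Rch M lane ρ n port Z Ω P)
    (hx : lane x = ρ 0) (hy : lane y = ρ 0) (hyZ : y ∉ Z) (hz : Zn lane ν ρ Z (ν x) (ν y))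
    (hΩ : Ω x) : Ω y := by
  have hxZ := h.out x hΩ
  have key : ∀ a a', lane a = ρ 0 → lane a' = ρ 0 → a' ∉ Z → Zn lane ν ρ Z (ν a) (ν a') →
      ν a ≤ ν a' → R M (univ.filter fun c => lane c = ρ 0 ∧ c ∉ Z) a a' := by
    intro a a' h1 h2 h3 h4 h5
    refine lane_walk hT (h1.trans h2.symm) h5 fun c c1 c2 c3 => ?_
    refine mem_filter.2 ⟨mem_univ _, c1.trans h2, fun hc => h3 ?_⟩
    have := (h4 c hc (c1.trans h2)).1 c2
    exact hT.inj (le_antisymm c3 this) ▸ hc
  have hw : R M (univ.filter fun c => lane c = ρ 0 ∧ c ∉ Z) x y := by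
    rcases le_total (ν x) (ν y) with hl | hl
    · exact key x y hx hy hyZ hz hl
    · exact (key y x hy hx hxZ hz.symm hl).symm
  exact hw.ind (P := Ω) hΩ fun a b _ ha hab _ hb =>
    h.walk a b (mem_filter.1 hb).2.1 hab (mem_filter.1 hb).2.2 ha

/-- The invariant for a vertex of time `u` on the row `j` of a collar. -/
def TB (M : SimpleGraph W) (lane : W → ι) (ν : W → ℕ) (ρ : ℕ → ι) (en : ℕ → ℕ) (Z : Finset W)
    (Ω : W → Prop) (P : Prop) (j u : ℕ) : Prop :=
  ((∀ i < j, RS M lane ν ρ en Z i u) ∧ ∃ v, lane v = ρ 0 ∧ Ω v ∧ Zn lane ν ρ Z (ν v) u) ∨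
    (P ∧ ∀ i, j ≤ i → i < 8 → RS M lane ν ρ en Z i u)

theorem TB.top (hT : Timed M lane ν fst) (hxy : M.Adj x y) (hx : Good lane ν ρ en Z x)
    (hy : Good lane ν ρ en Z y) (lx : lane x = ρ 0) (ly : lane y = ρ 1) (hΩ : Ω x) :
    TB M lane ν ρ en Z Ω P 1 (ν y) := by
  have hs := sl_of_adj hT hxy hx hy
  refine Or.inl ⟨fun i hi => ?_, x, lx, hΩ, hs.zn⟩
  obtain rfl : i = 0 := by omega
  exact ⟨x, y, lx, ly, hxy, hx, hy, hs.symm, Sl.refl⟩

theorem TB.bot (hP : P) : TB M lane ν ρ en Z Ω P 8 u := Or.inr ⟨hP, fun i _ _ => by omega⟩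

theorem TB.move {j j' : ℕ} (hT : Timed M lane ν fst) (hxy : M.Adj x y)
    (hx : Good lane ν ρ en Z x) (hy : Good lane ν ρ en Z y) (lx : lane x = ρ j)
    (ly : lane y = ρ j') (hj : j' = j ∨ j' + 1 = j ∨ j' = j + 1)
    (h : TB M lane ν ρ en Z Ω P j (ν x)) : TB M lane ν ρ en Z Ω P j' (ν y) := by
  have hs := sl_of_adj hT hxy hx hy
  rcases h with ⟨h1, v, h2, h3, h4⟩ | ⟨h1, h2⟩
  · refine Or.inl ⟨fun i hi => ?_, v, h2, h3, h4.trans hs.zn⟩
    by_cases hij : i < j
    · exact (h1 i hij).sl hs.symm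
    · obtain rfl : i = j := by omega
      obtain rfl : j' = i + 1 := by omega
      exact ⟨x, y, lx, ly, hxy, hx, hy, hs.symm, Sl.refl⟩
  · refine Or.inr ⟨h1, fun i hi hi' => ?_⟩
    by_cases hij : j ≤ i
    · exact (h2 i hij hi').sl hs.symm
    · obtain rfl : i = j' := by omega
      obtain rfl : j = i + 1 := by omega
      exact ⟨y, x, ly, lx, hxy.symm, hy, hx, Sl.refl, hs.symm⟩

theorem TB.zero [Fintype W] (hT : Timed M lane ν fst) (hc : Cl M lane ν ρ n t port en)
    (hr : Rch M lane ρ n port Z Ω P) (ly : lane y = ρ 0) (hy : y ∉ Z)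
    (h : TB M lane ν ρ en Z Ω P 0 (ν y)) : Ω y := by
  rcases h with ⟨-, v, h2, h3, h4⟩ | ⟨h1, h2⟩
  · exact hr.zone hT h2 ly hy h4 h3
  · obtain ⟨p, p1, p2, p3⟩ := port_lemma hT hc fun j hj => h2 j (Nat.zero_le _) hj
    exact hr.zone hT (hc.pt p p1).1 ly hy p3.symm (hr.jump h1 p p1 p2)

theorem TB.eight [Fintype W] (hT : Timed M lane ν fst) (hc : Cl M lane ν ρ n t port en)
    (hr : Rch M lane ρ n port Z Ω P) (h : TB M lane ν ρ en Z Ω P 8 u) : P := by
  rcases h with ⟨h1, v, h2, h3, h4⟩ | ⟨h1, -⟩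
  · obtain ⟨p, p1, p2, p3⟩ := port_lemma hT hc h1
    exact hr.get p p1 (hr.zone hT h2 (hc.pt p p1).1 p2 (h4.trans p3) h3)
  · exact h1

/-- The last vertices of the rows `0, …, 8` before the time `θ`. -/
noncomputable def line [Fintype W] (lane : W → ι) (ν : W → ℕ) (ρ : ℕ → ι) (θ : ℕ) : Finset W :=
  univ.filter fun w => (∃ j ≤ 8, lane w = ρ j) ∧ ν w < θ ∧
    ∀ w', lane w' = lane w → ν w < ν w' → θ ≤ ν w'

theorem mem_line [Fintype W] {θ : ℕ} {w : W} : w ∈ line lane ν ρ θ ↔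
    (∃ j ≤ 8, lane w = ρ j) ∧ ν w < θ ∧ ∀ w', lane w' = lane w → ν w < ν w' → θ ≤ ν w' := by
  simp only [line, mem_filter, mem_univ, true_and]

theorem card_line [Fintype W] (hT : Timed M lane ν fst) (ρ : ℕ → ι) (θ : ℕ) :
    (line lane ν ρ θ).card ≤ 9 := by
  refine le_trans (card_le_card_of_injOn (t := (range 9).image ρ) lane (fun w hw => ?_)
    fun w hw w' hw' e => ?_) (card_image_le.trans (by simp))
  · obtain ⟨⟨j, hj, e⟩, -⟩ := mem_line.1 (mem_coe.1 hw)
    exact mem_coe.2 (mem_image.2 ⟨j, mem_range.2 (by omega), e.symm⟩)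
  · obtain ⟨-, a2, a3⟩ := mem_line.1 (mem_coe.1 hw)
    obtain ⟨-, b2, b3⟩ := mem_line.1 (mem_coe.1 hw')
    have h1 := a3 w' e.symm
    have h2 := b3 w e
    exact hT.inj (by omega)

section blocks

variable {nb c : ℕ} {lam : ℕ → ℕ → ι}

theorem outer_zero (hB : Blocks M lane nb c lam) {b : ℕ} (hb : b < nb) {s : Bool} {w : W}
    (hw : lane w = lam b (srow c s 0)) : Outer lane nb c lam w := by
  rintro ⟨b', hb', r, h1, h2, h3⟩
  have := (hB.inj b hb _ (by cases s <;> simp [srow]) b' hb' r (by omega) (hw.symm.trans h3)).2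
  cases s <;> simp [srow] at this <;> omega

theorem inner_row (hB : Blocks M lane nb c lam) {b j : ℕ} (hb : b < nb) {s : Bool} (h1 : 1 ≤ j)
    (h8 : j ≤ 8) (hc : 8 ≤ c) (hx : lane x = lam b (srow c s j)) (hxy : M.Adj x y) :
    ∃ j', (j' = j ∨ j' + 1 = j ∨ j' = j + 1) ∧ lane y = lam b (srow c s j') := by
  have := hB.inner b hb (srow c s j) (by cases s <;> simp [srow] <;> omega)
    (by cases s <;> simp [srow] <;> omega) x y hx hxy
  cases s
  · simp only [srow, Bool.false_eq_true, if_false] at this ⊢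
    rcases this with h | h | h
    · exact ⟨j, by omega, h⟩
    · exact ⟨j - 1, by omega, h⟩
    · exact ⟨j + 1, by omega, h⟩
  · simp only [srow, if_true] at this ⊢
    rcases this with h | h | h
    · exact ⟨j, by omega, h⟩
    · exact ⟨j + 1, by omega, by rw [h]; congr 1⟩
    · exact ⟨j - 1, by omega, by rw [h]; congr 1; omega⟩

/-- A small set outside which all vertices of the collars are good. -/
theorem exists_sep [Fintype W] (hT : Timed M lane ν fst) (hB : Blocks M lane nb c lam)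
    (en : ℕ → Bool → ℕ → ℕ) (Z : Finset W) : ∃ Y : Finset W, Y.card ≤ 19 * Z.card ∧ Z ⊆ Y ∧
      ∀ w ∉ Y, ∀ b < nb, ∀ s, ∀ j ≤ 8, lane w = lam b (srow c s j) →
        Good lane ν (fun j => lam b (srow c s j)) (en b s) Z w := by
  have hX : ∀ z : W, ∃ X : Finset W, X.card ≤ 18 ∧ ∀ b < nb, ∀ s, lane z = lam b (srow c s 0) →
      line lane ν (fun j => lam b (srow c s j)) (ν z + 1) ∪
        line lane ν (fun j => lam b (srow c s j)) (en b s (ν z)) ⊆ X := by
    intro z
    by_cases hz : ∃ b < nb, ∃ s, lane z = lam b (srow c s 0)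
    · obtain ⟨b, hb, s, hs⟩ := hz
      refine ⟨line lane ν (fun j => lam b (srow c s j)) (ν z + 1) ∪
        line lane ν (fun j => lam b (srow c s j)) (en b s (ν z)), (card_union_le _ _).trans
          (add_le_add (card_line hT _ _) (card_line hT _ _)), fun b' hb' s' hs' => ?_⟩
      obtain ⟨e1, e2⟩ := hB.inj b hb _ (by cases s <;> simp [srow]) b' hb' _
        (by cases s' <;> simp [srow]) (hs.symm.trans hs')
      have e3 : s = s' := by cases s <;> cases s' <;> simp [srow] at e2 ⊢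
      rw [e1, e3]
    · exact ⟨∅, by simp, fun b hb s hs => absurd ⟨b, hb, s, hs⟩ hz⟩
  choose X hX1 hX2 using hX
  refine ⟨Z ∪ Z.biUnion X, ?_, subset_union_left, fun w hw b hb s j hj hl => ⟨fun h => hw
    (mem_union_left _ h), ?_⟩⟩
  · have h1 := card_union_le Z (Z.biUnion X)
    have h2 := card_biUnion_le_card_mul Z X 18 fun z _ => hX1 z
    omega
  · rintro θ ⟨z, hz, hz0, hθ⟩ hlt
    by_contra hc
    push Not at hc
    refine hw (mem_union_right _ (mem_biUnion.2 ⟨z, hz, hX2 z b hb s hz0 ?_⟩))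
    have hm : w ∈ line lane ν (fun j => lam b (srow c s j)) θ :=
      mem_line.2 ⟨⟨j, hj, hl⟩, hlt, hc⟩
    rcases hθ with rfl | rfl
    · exact mem_union_left _ hm
    · exact mem_union_right _ hm

/-- The invariant along a connected set of good vertices. -/
theorem walk_inv [Fintype W] (hT : Timed M lane ν fst) (hB : Blocks M lane nb c lam) (hc : 8 ≤ c)
    {Mn : ℕ → Bool → ℕ} {t : ℕ → Bool → ℕ → ℕ} {port : ℕ → Bool → ℕ → W}
    {en : ℕ → Bool → ℕ → ℕ} {P : ℕ → Prop}
    (hcl : ∀ b s, Cl M lane ν (fun j => lam b (srow c s j)) (Mn b s) (t b s) (port b s) (en b s))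
    (hr : ∀ b < nb, ∀ s, Rch M lane (fun j => lam b (srow c s j)) (Mn b s) (port b s) Z Ω (P b))
    (hO : ∀ a a', Outer lane nb c lam a' → M.Adj a a' → a' ∉ Z → Ω a → Ω a') {Q : Finset W}
    (hZ : ∀ w ∈ Q, w ∉ Z) (hG : ∀ w ∈ Q, ∀ b < nb, ∀ s, ∀ j ≤ 8, lane w = lam b (srow c s j) →
      Good lane ν (fun j => lam b (srow c s j)) (en b s) Z w) (hxy : R M Q x y)
    (hx : Outer lane nb c lam x) (hΩ : Ω x) {b r : ℕ} (hb : b < nb) (hr' : r < c)
    (hy : lane y = lam b (9 + r)) : P b := by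
  have key := hxy.ind (P := fun w => (Outer lane nb c lam w ∧ Ω w) ∨
      (∃ b < nb, ∃ s j, 1 ≤ j ∧ j ≤ 8 ∧ lane w = lam b (srow c s j) ∧
        TB M lane ν (fun j => lam b (srow c s j)) (en b s) Z Ω (P b) j (ν w)) ∨
      ∃ b < nb, ∃ r, 9 ≤ r ∧ r ≤ c + 8 ∧ lane w = lam b r ∧ P b) (Or.inl ⟨hx, hΩ⟩) (by
    intro x y _ hI hxy hxQ hyQ
    rcases hI with ⟨h1, h2⟩ | ⟨b, hb, s, j, h1, h2, h3, h4⟩ | ⟨b, hb, r, h1, h2, h3, h4⟩
    · by_cases hy : Outer lane nb c lam y
      · exact Or.inl ⟨hy, hO x y hy hxy (hZ y hyQ) h2⟩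
      · obtain ⟨b, hb, r, r1, r2, r3⟩ := not_not.1 hy
        have hs : ∃ s, lane x = lam b (srow c s 0) ∧ lane y = lam b (srow c s 1) := by
          rcases hB.inner b hb r r1 r2 y x r3 hxy.symm with h | h | h
          · exact absurd ⟨b, hb, r, r1, r2, h⟩ h1
          · by_cases e : r = 1
            · subst e
              exact ⟨false, h, r3⟩
            · exact absurd ⟨b, hb, r - 1, by omega, by omega, h⟩ h1
          · by_cases e : r = c + 16
            · subst e
              exact ⟨true, h, r3⟩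
            · exact absurd ⟨b, hb, r + 1, by omega, by omega, h⟩ h1
        obtain ⟨s, s1, s2⟩ := hs
        exact Or.inr (Or.inl ⟨b, hb, s, 1, le_rfl, by omega, s2, TB.top hT hxy
          (hG x hxQ b hb s 0 (by omega) s1) (hG y hyQ b hb s 1 (by omega) s2) s1 s2 h2⟩)
    · obtain ⟨j', e, hl⟩ := inner_row hB hb h1 h2 hc h3 hxy
      by_cases h9 : j' = 9
      · obtain rfl : j = 8 := by omega
        subst h9
        refine Or.inr (Or.inr ⟨b, hb, _, ?_, ?_, hl, h4.eight hT (hcl b s) (hr b hb s)⟩) <;>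
          cases s <;> simp [srow] <;> omega
      have h5 := TB.move hT hxy (hG x hxQ b hb s j h2 h3) (hG y hyQ b hb s j' (by omega) hl)
        h3 hl e h4
      by_cases h0 : j' = 0
      · subst h0
        exact Or.inl ⟨outer_zero hB hb hl, h5.zero hT (hcl b s) (hr b hb s) hl (hZ y hyQ)⟩
      · exact Or.inr (Or.inl ⟨b, hb, s, j', by omega, by omega, hl, h5⟩)
    · obtain ⟨r', e, hl⟩ : ∃ r', (r' = r ∨ r' + 1 = r ∨ r' = r + 1) ∧ lane y = lam b r' := by
        rcases hB.inner b hb r (by omega) (by omega) x y h3 hxy with h | h | h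
        · exact ⟨r, by omega, h⟩
        · exact ⟨r - 1, by omega, h⟩
        · exact ⟨r + 1, by omega, h⟩
      by_cases h8 : r' = 8
      · subst h8
        exact Or.inr (Or.inl ⟨b, hb, false, 8, by omega, le_rfl, hl, TB.bot h4⟩)
      by_cases h9 : r' = c + 9
      · subst h9
        exact Or.inr (Or.inl ⟨b, hb, true, 8, by omega, le_rfl, hl, TB.bot h4⟩)
      · exact Or.inr (Or.inr ⟨b, hb, r', by omega, by omega, hl, h4⟩))
  rcases key with ⟨h1, -⟩ | ⟨b', hb', s, j, h1, h2, h3, -⟩ | ⟨b', hb', r', h1, h2, h3, h4⟩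
  · exact absurd ⟨b, hb, 9 + r, by omega, by omega, hy⟩ h1
  · have := (hB.inj b hb _ (by omega) b' hb' _ (by cases s <;> simp [srow] <;> omega)
      (hy.symm.trans h3)).2
    cases s <;> simp [srow] at this <;> omega
  · exact (hB.inj b hb _ (by omega) b' hb' _ (by omega) (hy.symm.trans h3)).1 ▸ h4

end blocks

end PORTA

open PORTA

theorem porta : PORTAStmt := by
  intro W ι _ M lane ν fst nb c lam S0 Q hT hB hc hS hQ hD
  choose Mn t port en hcl using fun (b : ℕ) (s : Bool) =>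
    exists_cl M lane ν (fun j => lam b (srow c s j)) (fst (lam 0 0))
  refine ⟨Mn, fun b s => col lane ν (fun j => lam b (srow c s j)) (t b s), port,
    ⟨fun b _ s x hx => ((hcl b s).pt x hx).1, fun b _ s x hx x' hx' => (hcl b s).port_inj hx hx',
      fun b _ s x hx => ?_, fun b _ s d _ x _ w hw => (mem_col.1 hw).1,
      fun b _ s d hd x hx => (hcl b s).col_conn hT hd hx,
      fun b _ s d _ x hx x' hx' => (hcl b s).col_disj hx hx',
      fun b _ s d hd x hx => (hcl b s).col_hor hT hd hx,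
      fun b _ s d hd x hx => (hcl b s).col_ver hd hx,
      fun b _ s d hd hn => (hcl b s).col_fst hT hd hn⟩, fun B0 hB0 hne Z hZ => ?_⟩
  · obtain ⟨-, -, -, a, h1, h2, h3, h4⟩ := (hcl b s).pt x hx
    exact ⟨_, mem_singleton_self _, a, mem_col.2 ⟨h1, h3, h4⟩, h2⟩
  obtain ⟨Y, hY1, hY2, hY3⟩ := exists_sep hT hB en Z
  have hmeet := card_meet_le (L := fun e : ℕ × ℕ => Q e.1 e.2) (B0 ×ˢ range c) Y (by
    intro e he e' he' hn
    obtain ⟨a1, a2⟩ := mem_product.1 he
    obtain ⟨b1, b2⟩ := mem_product.1 he'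
    refine hD _ (mem_range.1 (hB0 a1)) _ (mem_range.1 a2) _ (mem_range.1 (hB0 b1)) _
      (mem_range.1 b2) ?_
    by_contra hcon
    push Not at hcon
    exact hn (Prod.ext hcon.1 hcon.2))
  obtain ⟨⟨b, r⟩, he, hn⟩ := exists_not_mem_of_card_lt (s := B0 ×ˢ range c) (hmeet.trans_lt (by
    rw [card_product, card_range]
    have := Nat.mul_le_mul_left B0.card hc
    omega))
  obtain ⟨hb0, hr⟩ := mem_product.1 he
  have hb : b < nb := mem_range.1 (hB0 hb0)
  have hr' : r < c := mem_range.1 hr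
  have hdis : Disjoint (Q b r) Y := by
    by_contra hcon
    exact hn (mem_filter.2 ⟨he, hcon⟩)
  obtain ⟨q1, ⟨s0, q2, q3⟩, w, q4, q5⟩ := hQ b hb r hr'
  have hQY : ∀ w ∈ Q b r, w ∉ Y := fun w hw => disjoint_left.1 hdis hw
  have key := walk_inv (Z := Z) (Ω := fun w => w ∉ Z ∧ ∃ s ∈ S0, s ∉ Z ∧ Relation.ReflTransGen
      (fun a a' => Outer lane nb c lam a' ∧ a' ∉ Z ∧ (M.Adj a a' ∨ ∃ b',
        (b' < nb ∧ ∃ s, ∃ x < Mn b' s, a = port b' s x) ∧
        (b' < nb ∧ ∃ s, ∃ x < Mn b' s, a' = port b' s x))) s w)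
    (P := fun b => ∃ p, (b < nb ∧ ∃ s, ∃ x < Mn b s, p = port b s x) ∧ ∃ s ∈ S0, s ∉ Z ∧
      Relation.ReflTransGen (fun a a' => Outer lane nb c lam a' ∧ a' ∉ Z ∧ (M.Adj a a' ∨ ∃ b',
        (b' < nb ∧ ∃ s, ∃ x < Mn b' s, a = port b' s x) ∧
        (b' < nb ∧ ∃ s, ∃ x < Mn b' s, a' = port b' s x))) s p) hT hB (by omega) hcl
    (fun b' hb' s => ⟨?_, fun a ha => ha.1, ?_, ?_⟩) ?_ (fun w hw h => hQY w hw (hY2 h))
    (fun w hw => hY3 w (hQY w hw)) (q1.2 s0 q3 w q4)
    (fun ⟨b', hb', r', _, _, h⟩ => hS s0 q2 b' hb' r' (by omega) h)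
    ⟨fun h => hQY s0 q3 (hY2 h), s0, q2, fun h => hQY s0 q3 (hY2 h), Relation.ReflTransGen.refl⟩
    hb hr' q5
  · exact ⟨b, hb0, key⟩
  · rintro a a' h1 h2 h3 ⟨-, s', h4, h5, h6⟩
    exact ⟨h3, s', h4, h5, h6.tail ⟨outer_zero hB hb' h1, h3, Or.inl h2⟩⟩
  · rintro ⟨p, h1, s', h4, h5, h6⟩ x hx h3
    exact ⟨h3, s', h4, h5, h6.tail ⟨outer_zero hB hb' ((hcl b' s).pt x hx).1, h3,
      Or.inr ⟨b', h1, hb', s, x, hx, rfl⟩⟩⟩
  · rintro x hx ⟨-, h⟩
    exact ⟨_, ⟨hb', s, x, hx, rfl⟩, h⟩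
  · rintro a a' h1 h2 h3 ⟨-, s', h4, h5, h6⟩
    exact ⟨h3, s', h4, h5, h6.tail ⟨h1, h3, Or.inl h2⟩⟩

end Pool.Agent.MP_7be75d_co.Gen

end MrgPart0

-- ======== part 1: formerly Pool.Agent.MP_7be75d_co.Gen.KW
section MrgPart1

/-! Modules KW, BLK, TOG of the project LTW. -/

namespace Pool.Agent.MP_7be75d_co.Gen

open Finset
open scoped Classical

namespace KW

variable {ι : Type} [Fintype ι] {Γ : SimpleGraph ι}

/-- Outside neighbours. -/
noncomputable def nb (Γ : SimpleGraph ι) (Y : Finset ι) : Finset ι :=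
  univ.filter fun v => v ∉ Y ∧ ∃ y ∈ Y, Γ.Adj y v

/-- A set with its outside neighbours. -/
noncomputable def cl (Γ : SimpleGraph ι) (Y : Finset ι) : Finset ι :=
  univ.filter fun v => v ∈ Y ∨ ∃ y ∈ Y, Γ.Adj y v

/-- Outside neighbours that see nothing new. -/
noncomputable def dead (Γ : SimpleGraph ι) (Y : Finset ι) : Finset ι :=
  (nb Γ Y).filter fun v => ∀ w, Γ.Adj v w → w ∈ cl Γ Y

/-- The new neighbours of `x`. -/
noncomputable def out (Γ : SimpleGraph ι) (Y : Finset ι) (x : ι) : Finset ι :=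
  univ.filter fun w => w ∉ cl Γ Y ∧ Γ.Adj x w

/-- Vertices of degree at least three in a set. -/
noncomputable def big (Γ : SimpleGraph ι) (S : Finset ι) : Finset ι :=
  S.filter fun v => 3 ≤ dg Γ v

theorem mem_nb {Y : Finset ι} {v : ι} : v ∈ nb Γ Y ↔ v ∉ Y ∧ ∃ y ∈ Y, Γ.Adj y v := by
  simp [nb]

theorem mem_cl {Y : Finset ι} {v : ι} : v ∈ cl Γ Y ↔ v ∈ Y ∨ ∃ y ∈ Y, Γ.Adj y v := by
  simp [cl]

theorem mem_out {Y : Finset ι} {x w : ι} : w ∈ out Γ Y x ↔ w ∉ cl Γ Y ∧ Γ.Adj x w := by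
  simp [out]

theorem mem_dead {Y : Finset ι} {v : ι} :
    v ∈ dead Γ Y ↔ v ∈ nb Γ Y ∧ ∀ w, Γ.Adj v w → w ∈ cl Γ Y := mem_filter

theorem cl_insert {Y : Finset ι} {x : ι} (hx : x ∈ nb Γ Y) :
    cl Γ (insert x Y) = cl Γ Y ∪ out Γ Y x := by
  ext v
  rw [mem_union, mem_out, mem_cl, mem_cl]
  obtain ⟨-, y, hy, hyx⟩ := mem_nb.1 hx
  constructor
  · rintro (h | ⟨z, hz, h⟩)
    · rcases mem_insert.1 h with rfl | h
      · exact Or.inl (Or.inr ⟨y, hy, hyx⟩)
      · exact Or.inl (Or.inl h)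
    · rcases mem_insert.1 hz with rfl | hz
      · by_cases hc : v ∈ Y ∨ ∃ y ∈ Y, Γ.Adj y v
        · exact Or.inl hc
        · exact Or.inr ⟨hc, h⟩
      · exact Or.inl (Or.inr ⟨z, hz, h⟩)
  · rintro ((h | ⟨z, hz, h⟩) | h)
    · exact Or.inl (mem_insert_of_mem h)
    · exact Or.inr ⟨z, mem_insert_of_mem hz, h⟩
    · exact Or.inr ⟨x, mem_insert_self _ _, h.2⟩

theorem nb_eq (Y : Finset ι) : nb Γ Y = cl Γ Y \ Y := by
  ext v
  rw [mem_sdiff, mem_nb, mem_cl]
  tauto

theorem sub_cl (Y : Finset ι) : Y ⊆ cl Γ Y := fun _ h => mem_cl.2 (Or.inl h)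

theorem card_nb_insert {Y : Finset ι} {x : ι} (hx : x ∈ nb Γ Y) :
    (nb Γ (insert x Y)).card + 1 = (nb Γ Y).card + (out Γ Y x).card := by
  have h1 := card_sdiff_add_card_eq_card (sub_cl (Γ := Γ) (insert x Y))
  have h2 := card_sdiff_add_card_eq_card (sub_cl (Γ := Γ) Y)
  have h3 : Disjoint (cl Γ Y) (out Γ Y x) :=
    disjoint_left.2 fun w hw hw' => (mem_out.1 hw').1 hw
  rw [← nb_eq] at h1 h2
  rw [cl_insert hx, card_union_of_disjoint h3, card_insert_of_notMem (mem_nb.1 hx).1] at h1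
  omega

theorem nb_keep {Y : Finset ι} {x v : ι} (hv : v ∈ nb Γ Y) (hne : v ≠ x) :
    v ∈ nb Γ (insert x Y) := by
  obtain ⟨h1, y, hy, h2⟩ := mem_nb.1 hv
  exact mem_nb.2 ⟨fun h => (mem_insert.1 h).elim hne h1, y, mem_insert_of_mem hy, h2⟩

theorem dead_sub {Y : Finset ι} {x : ι} (hx : x ∈ nb Γ Y) (ho : (out Γ Y x).Nonempty) :
    dead Γ Y ⊆ dead Γ (insert x Y) := by
  intro v hv
  obtain ⟨h1, h2⟩ := mem_dead.1 hv
  obtain ⟨w, hw⟩ := ho
  have hne : v ≠ x := by
    rintro rfl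
    exact (mem_out.1 hw).1 (h2 w (mem_out.1 hw).2)
  refine mem_dead.2 ⟨nb_keep h1 hne, fun u hu => ?_⟩
  rw [cl_insert hx]
  exact mem_union_left _ (h2 u hu)

theorem big_insert {Y : Finset ι} {x : ι} (hx : x ∈ nb Γ Y) :
    (big Γ (cl Γ (insert x Y))).card ≤ (big Γ (cl Γ Y)).card + (big Γ (out Γ Y x)).card := by
  rw [cl_insert hx, big, filter_union]
  exact card_union_le _ _

theorem big_le (S : Finset ι) : (big Γ S).card ≤ S.card := card_filter_le _ _

theorem conn_insert {Y : Finset ι} {x : ι} (hY : Conn Γ Y) (hx : x ∈ nb Γ Y) :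
    Conn Γ (insert x Y) := by
  obtain ⟨-, y, hy, h⟩ := mem_nb.1 hx
  exact hY.insert hy h

/-- The invariant of the growth. -/
def Inv (Γ : SimpleGraph ι) (Y : Finset ι) : Prop :=
  Conn Γ Y ∧ (big Γ (cl Γ Y)).card ≤ 3 * (nb Γ Y).card + (dead Γ Y).card + 1

theorem grow {Y : Finset ι} (hc : Conn Γ univ) (hY : Inv Γ Y) (hne : ∃ v, v ∉ cl Γ Y) :
    ∃ Y', Inv Γ Y' ∧ Y.card < Y'.card := by
  obtain ⟨v, hv⟩ := hne
  obtain ⟨y0, hy0⟩ := hY.1.1
  obtain ⟨x, y, hx, hy, -, -, hxy⟩ :=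
    hc.exit (mem_univ y0) (sub_cl (Γ := Γ) Y hy0) (mem_univ v) hv
  have hxn : x ∈ nb Γ Y := by
    rw [nb_eq]
    exact mem_sdiff.2 ⟨hx, fun h => hy (mem_cl.2 (Or.inr ⟨x, h, hxy⟩))⟩
  have hI := hY.2
  by_cases ha : ∃ z ∈ nb Γ Y, 2 ≤ (out Γ Y z).card
  · obtain ⟨z, hz, h2⟩ := ha
    refine ⟨insert z Y, ⟨conn_insert hY.1 hz, ?_⟩, ?_⟩
    · have e1 := card_nb_insert hz
      have e2 := card_le_card (dead_sub hz (card_pos.1 (by omega)))
      have e3 := big_insert hz
      have e4 := big_le (Γ := Γ) (out Γ Y z)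
      omega
    · rw [card_insert_of_notMem (mem_nb.1 hz).1]; omega
  push Not at ha
  have one : ∀ z ∈ nb Γ Y, Γ.Adj z y → out Γ Y z = {y} := by
    intro z hz hzy
    have h1 := ha z hz
    have hm : y ∈ out Γ Y z := mem_out.2 ⟨hy, hzy⟩
    exact eq_singleton_iff_unique_mem.2 ⟨hm, fun w hw => card_le_one.1 (by omega) w hw y hm⟩
  have ox := one x hxn hxy
  have e1 := card_nb_insert hxn
  have e2' := dead_sub hxn (by rw [ox]; exact singleton_nonempty y)
  have e2 := card_le_card e2'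
  have e3 := big_insert hxn
  have e4 := big_le (Γ := Γ) (out Γ Y x)
  have e5 : (insert x Y).card = Y.card + 1 := card_insert_of_notMem (mem_nb.1 hxn).1
  have ecl := cl_insert hxn
  rw [ox] at e1 e3 e4 ecl
  rw [card_singleton] at e1 e4
  by_cases h3 : 3 ≤ dg Γ y
  swap
  · refine ⟨insert x Y, ⟨conn_insert hY.1 hxn, ?_⟩, by omega⟩
    have : big Γ {y} = ∅ := by
      rw [big, filter_singleton, if_neg h3]
    rw [this, card_empty] at e3
    omega
  by_cases hb : ∃ z ∈ nb Γ Y, z ≠ x ∧ Γ.Adj z y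
  · obtain ⟨z, hz, hzx, hzy⟩ := hb
    have oz := one z hz hzy
    have hz1 : z ∉ dead Γ Y := fun h => hy ((mem_dead.1 h).2 y hzy)
    have hz2 : z ∈ dead Γ (insert x Y) := by
      refine mem_dead.2 ⟨nb_keep hz hzx, fun w hw => ?_⟩
      rw [ecl]
      by_cases hc : w ∈ cl Γ Y
      · exact mem_union_left _ hc
      · exact mem_union_right _ (oz ▸ mem_out.2 ⟨hc, hw⟩)
    have e6 := card_le_card (insert_subset hz2 e2')
    rw [card_insert_of_notMem hz1] at e6
    exact ⟨insert x Y, ⟨conn_insert hY.1 hxn, by omega⟩, by omega⟩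
  push Not at hb
  have hyY : y ∉ insert x Y := fun h =>
    (mem_insert.1 h).elim (fun e => hxy.ne e.symm) fun h => hy (sub_cl Y h)
  have hyn : y ∈ nb Γ (insert x Y) := mem_nb.2 ⟨hyY, x, mem_insert_self _ _, hxy⟩
  have hk : 2 ≤ (out Γ (insert x Y) y).card := by
    have hs : (univ.filter (Γ.Adj y)).erase x ⊆ out Γ (insert x Y) y := by
      intro w hw
      obtain ⟨hwx, hw⟩ := mem_erase.1 hw
      have hyw : Γ.Adj y w := (mem_filter.1 hw).2
      refine mem_out.2 ⟨?_, hyw⟩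
      rw [ecl]
      intro h
      rcases mem_union.1 h with h | h
      · by_cases hwY : w ∈ Y
        · exact hy (mem_cl.2 (Or.inr ⟨w, hwY, hyw.symm⟩))
        · exact hb w (by rw [nb_eq]; exact mem_sdiff.2 ⟨h, hwY⟩) hwx hyw.symm
      · exact hyw.ne (mem_singleton.1 h).symm
    have h1 := card_le_card hs
    have h2 := pred_card_le_card_erase (s := univ.filter (Γ.Adj y)) (a := x)
    unfold dg at h3
    omega
  refine ⟨insert y (insert x Y), ⟨conn_insert (conn_insert hY.1 hxn) hyn, ?_⟩, ?_⟩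
  · have f1 := card_nb_insert hyn
    have f2 := card_le_card (dead_sub hyn (card_pos.1 (by omega)))
    have f3 := big_insert hyn
    have f4 := big_le (Γ := Γ) (out Γ (insert x Y) y)
    omega
  · rw [card_insert_of_notMem hyY]; omega

theorem many {m : ℕ} (hc : Conn Γ univ) (hs : NoStar Γ m) :
    (univ.filter fun v => 3 ≤ dg Γ v).card ≤ 4 * m + 1 := by
  obtain ⟨v, -⟩ := hc.1
  have h0 : Inv Γ {v} := by
    refine ⟨Conn.singleton v, ?_⟩
    have h1 := big_le (Γ := Γ) (cl Γ {v})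
    have h2 := card_sdiff_add_card_eq_card (sub_cl (Γ := Γ) {v})
    rw [← nb_eq, card_singleton] at h2
    omega
  obtain ⟨Y, hY, hmax⟩ := exists_max_of (p := Inv Γ) card (Fintype.card ι)
    (fun a _ => card_le_univ a) ⟨_, h0⟩
  have hall : cl Γ Y = univ := by
    by_contra hne
    obtain ⟨Y', h1, h2⟩ := grow hc hY (by
      by_contra hh
      push Not at hh
      exact hne (eq_univ_of_forall hh))
    have := hmax Y' h1
    omega
  have h1 := hY.2
  have h2 : (dead Γ Y).card ≤ (nb Γ Y).card := card_filter_le _ _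
  have h3 : (nb Γ Y).card < m := hs Y hY.1
  rw [hall, big] at h1
  omega

theorem two_le_dg {v a b : ι} (ha : Γ.Adj v a) (hb : Γ.Adj v b) (hab : a ≠ b) : 2 ≤ dg Γ v :=
  one_lt_card.2 ⟨a, by simpa using ha, b, by simpa using hb, hab⟩

theorem leaves {m : ℕ} (hc : Conn Γ univ) (hs : NoStar Γ m) :
    (univ.filter fun v => dg Γ v ≤ 1).card ≤ m + 2 := by
  by_cases h2 : Fintype.card ι ≤ 2
  · exact (card_le_univ _).trans (by omega)
  have uniq : ∀ v a b, dg Γ v ≤ 1 → Γ.Adj v a → Γ.Adj v b → a = b := by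
    intro v a b hv ha hb
    by_contra hab
    have := two_le_dg ha hb hab
    omega
  have key : ∀ v, dg Γ v ≤ 1 → ∃ u, 2 ≤ dg Γ u ∧ Γ.Adj u v := by
    intro v hv
    obtain ⟨w, hw⟩ := Fintype.exists_ne_of_one_lt_card (by omega) v
    obtain ⟨u, -, hvu⟩ := hc.exists_adj (mem_univ v) (mem_univ w) hw.symm
    refine ⟨u, ?_, hvu.symm⟩
    by_contra hu
    have hsub : (univ : Finset ι) ⊆ {v, u} :=
      hc.subset_of_closed (mem_univ v) (by simp) (by
        intro x hx y _ _ hxy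
        rcases mem_insert.1 hx with rfl | hx
        · rw [uniq x y u hv hxy hvu]; simp
        · rw [mem_singleton.1 hx] at hxy
          rw [uniq u y v (by omega) hxy hvu.symm]; simp)
    have h1 := card_le_card hsub
    have h3 := card_le_two (a := v) (b := u)
    rw [card_univ] at h1
    omega
  have hY : Conn Γ (univ.filter fun v => 2 ≤ dg Γ v) := by
    constructor
    · obtain ⟨v, -⟩ := hc.1
      by_cases hv : dg Γ v ≤ 1
      · obtain ⟨u, hu, -⟩ := key v hv
        exact ⟨u, by simpa using hu⟩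
      · exact ⟨v, by simp only [mem_filter, mem_univ, true_and]; omega⟩
    · intro a ha b hb
      obtain ⟨L, f, h0, hL, -, hA, hI⟩ :=
        (hc.2 a (mem_univ a) b (mem_univ b)).exists_path (mem_univ a)
      have hs := conn_segment (G := Γ) (f := f) (Nat.zero_le L) fun j _ hj => hA j hj
      refine hs.r (h0 ▸ mem_image_of_mem f (by simp)) (hL ▸ mem_image_of_mem f (by simp)) ?_
      intro w hw
      obtain ⟨j, hj, rfl⟩ := mem_image.1 hw
      have hjL := (mem_Icc.1 hj).2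
      by_cases e0 : j = 0
      · rw [e0, h0]; exact ha
      by_cases eL : j = L
      · rw [eL, hL]; exact hb
      obtain ⟨i, rfl⟩ : ∃ i, j = i + 1 := ⟨j - 1, by omega⟩
      refine mem_filter.2 ⟨mem_univ _, two_le_dg (hA i (by omega)).symm (hA (i + 1) (by omega))
        fun e => ?_⟩
      have := hI i (by omega) (i + 1 + 1) (by omega) e
      omega
  have h1 := hs _ hY
  refine le_trans (card_le_card ?_) (h1.le.trans (Nat.le_add_right m 2))
  intro v hv
  have hv' := (mem_filter.1 hv).2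
  obtain ⟨u, hu, huv⟩ := key v hv'
  refine mem_filter.2 ⟨mem_univ _, fun h => ?_, u, by simpa using hu, huv⟩
  have := (mem_filter.1 h).2
  omega

/-- A connected set of vertices of degree at most two contains long paths. -/
theorem long_path {S : Finset ι} (hS : Conn Γ S) (hd : ∀ v ∈ S, dg Γ v ≤ 2) (n : ℕ)
    (hn : n < S.card) : ∃ f : ℕ → ι, (∀ j ≤ n, f j ∈ S) ∧ (∀ j < n, Γ.Adj (f j) (f (j + 1))) ∧
      ∀ i ≤ n, ∀ j ≤ n, f i = f j → i = j := by
  induction n with
  | zero =>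
    obtain ⟨a, ha⟩ := hS.1
    exact ⟨fun _ => a, fun _ _ => ha, fun _ h => by omega, fun _ _ _ _ _ => by omega⟩
  | succ n ih =>
    obtain ⟨f, h1, h2, h3⟩ := ih (by omega)
    have hlt : ((range (n + 1)).image f).card < S.card :=
      lt_of_le_of_lt (card_image_le.trans (card_range _).le) hn
    obtain ⟨v, hv, hvn⟩ := exists_mem_notMem_of_card_lt_card hlt
    obtain ⟨x, y, hx, hy, -, hyS, hxy⟩ := hS.exit (h1 0 (by omega))
      (mem_image_of_mem f (mem_range.2 (by omega))) hv hvn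
    obtain ⟨j, hj, rfl⟩ := mem_image.1 hx
    have hj' : j ≤ n := by have := mem_range.1 hj; omega
    have hy' : ∀ i ≤ n, f i ≠ y := fun i hi e =>
      hy (e ▸ mem_image_of_mem f (mem_range.2 (by omega)))
    by_cases e1 : j = n
    · subst e1
      refine ⟨fun i => if i ≤ j then f i else y, ?_, ?_, ?_⟩
      · intro i _
        by_cases h : i ≤ j <;> simp [h, h1, hyS]
      · intro i hi
        by_cases h : i + 1 ≤ j
        · simp only [h, show i ≤ j by omega, if_true]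
          exact h2 i (by omega)
        · obtain rfl : i = j := by omega
          simpa using hxy
      · intro i hi k hk
        by_cases c1 : i ≤ j <;> by_cases c2 : k ≤ j <;> simp only [c1, c2, if_true, if_false]
        · exact h3 i c1 k c2
        · exact fun h => absurd h (hy' i c1)
        · exact fun h => absurd h.symm (hy' k c2)
        · intro; omega
    by_cases e0 : j = 0
    · subst e0
      refine ⟨fun i => if i = 0 then y else f (i - 1), ?_, ?_, ?_⟩
      · intro i hi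
        by_cases h : i = 0
        · simp [h, hyS]
        · simp only [h, if_false]; exact h1 _ (by omega)
      · intro i hi
        by_cases h : i = 0
        · subst h
          simpa using hxy.symm
        · obtain ⟨k, rfl⟩ : ∃ k, i = k + 1 := ⟨i - 1, by omega⟩
          simpa using h2 k (by omega)
      · intro i hi k hk
        by_cases c1 : i = 0 <;> by_cases c2 : k = 0 <;> simp only [c1, c2, if_true, if_false]
        · intro; trivial
        · exact fun h => absurd h.symm (hy' _ (by omega))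
        · exact fun h => absurd h (hy' _ (by omega))
        · intro h
          have := h3 _ (by omega) _ (by omega) h
          omega
    exfalso
    obtain ⟨i, rfl⟩ : ∃ i, j = i + 1 := ⟨j - 1, by omega⟩
    have h4 : 2 < dg Γ (f (i + 1)) := by
      refine two_lt_card_iff.2 ⟨f i, f (i + 1 + 1), y, ?_, ?_, ?_, fun e => ?_, hy' _ (by omega),
        hy' _ (by omega)⟩
      · simpa using (h2 i (by omega)).symm
      · simpa using h2 (i + 1) (by omega)
      · simpa using hxy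
      · have := h3 _ (by omega) _ (by omega) e
        omega
    have := hd _ (h1 (i + 1) hj')
    omega

/-- If all connected sets outside `X` are small, the graph is small. -/
theorem small {X : Finset ι} {m c : ℕ} (hc : Conn Γ univ) (hs : NoStar Γ m) (hX : X.Nonempty)
    (h0 : 0 < c) (hsm : ∀ S, Conn Γ S → Disjoint S X → S.card < c) :
    Fintype.card ι ≤ c * X.card + c * m := by
  obtain ⟨x0, hx0⟩ := hX
  obtain ⟨Y, ⟨hY, hYc⟩, hmax⟩ := exists_max_of
    (p := fun Y : Finset ι => Conn Γ Y ∧ Y.card ≤ c * (Y ∩ X).card) (fun Y => (Y ∩ X).card)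
    (Fintype.card ι) (fun a _ => card_le_univ _)
    ⟨{x0}, Conn.singleton x0, by rw [singleton_inter_of_mem hx0, card_singleton]; omega⟩
  obtain ⟨y0, hy0⟩ := hY.1
  have ext : ∀ (C : Finset ι) (b : ι), Conn Γ (insert b (Y ∪ C)) → C.card < c → b ∈ X → b ∉ Y →
      False := by
    intro C b h1 h2 h3 h4
    have h5 : insert b (Y ∩ X) ⊆ insert b (Y ∪ C) ∩ X := by
      intro w hw
      rcases mem_insert.1 hw with rfl | hw
      · exact mem_inter.2 ⟨mem_insert_self _ _, h3⟩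
      · exact mem_inter.2 ⟨mem_insert_of_mem (mem_union_left _ (mem_inter.1 hw).1),
          (mem_inter.1 hw).2⟩
    have h6 := card_le_card h5
    rw [card_insert_of_notMem fun h => h4 (mem_inter.1 h).1] at h6
    have h7 := card_insert_le b (Y ∪ C)
    have h8 := card_union_le Y C
    have h9 := Nat.mul_le_mul_left c h6
    have := hmax _ ⟨h1, by rw [mul_add] at h9; omega⟩
    omega
  have hXY : X ⊆ Y := by
    intro x1 hx1
    by_contra hx1Y
    let W := univ \ (X ∪ Y)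
    have hW : ∀ w, w ∈ W ↔ w ∉ X ∧ w ∉ Y := by simp [W]
    obtain ⟨a, b, ha, hb, -, -, hab⟩ := hc.exit (T := univ.filter fun v => v ∈ Y ∨
      ∃ y ∈ Y, ∃ w ∈ W, Γ.Adj y w ∧ v ∈ comp Γ W w) (mem_univ y0) (by simp [hy0]) (mem_univ x1) (by
        simp only [mem_filter, mem_univ, true_and, not_or]
        exact ⟨hx1Y, fun ⟨_, _, _, _, _, h⟩ => ((hW _).1 (comp_subset h)).1 hx1⟩)
    simp only [mem_filter, mem_univ, true_and, not_or] at ha hb
    rcases ha with ha | ⟨y, hy, w, hw, hyw, ha⟩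
    · have hbX : b ∈ X := by
        by_contra hbX
        have hbW := (hW b).2 ⟨hbX, hb.1⟩
        exact hb.2 ⟨a, ha, b, hbW, hab, self_mem_comp hbW⟩
      exact ext ∅ b (by rw [union_empty]; exact hY.insert ha hab) (by simpa using h0) hbX hb.1
    · have hbX : b ∈ X := by
        by_contra hbX
        exact hb.2 ⟨y, hy, w, hw, hyw, comp_closed ha ((hW b).2 ⟨hbX, hb.1⟩) hab⟩
      exact ext (comp Γ W w) b ((hY.union_adj (comp_conn hw) hy (self_mem_comp hw) hyw).insert
        (mem_union_right _ ha) hab) (hsm _ (comp_conn hw) (disjoint_left.2 fun v hv =>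
          ((hW v).1 (comp_subset hv)).1)) hbX hb.1
  have hcov : univ \ Y ⊆ (nb Γ Y).biUnion fun w => comp Γ (univ \ Y) w := by
    intro v hv
    obtain ⟨a, b, ha, hb, -, -, hab⟩ := hc.exit (T := comp Γ (univ \ Y) v) (mem_univ v)
      (self_mem_comp hv) (mem_univ y0) (fun h => (mem_sdiff.1 (comp_subset h)).2 hy0)
    have hbY : b ∈ Y := by
      by_contra hbY
      exact hb (comp_closed ha (mem_sdiff.2 ⟨mem_univ _, hbY⟩) hab)
    refine mem_biUnion.2 ⟨a, mem_nb.2 ⟨(mem_sdiff.1 (comp_subset ha)).2, b, hbY, hab.symm⟩, ?_⟩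
    rw [comp_eq ha]
    exact self_mem_comp hv
  have h1 : (univ \ Y).card ≤ (nb Γ Y).card * c := by
    refine (card_le_card hcov).trans (card_biUnion_le_card_mul _ _ _ fun w hw => ?_)
    refine (hsm _ (comp_conn (mem_sdiff.2 ⟨mem_univ _, (mem_nb.1 hw).1⟩))
      (disjoint_left.2 fun v hv hvX => (mem_sdiff.1 (comp_subset hv)).2 (hXY hvX))).le
  have h2 : (nb Γ Y).card < m := hs Y hY
  have h3 := card_sdiff_add_card_eq_card (subset_univ Y)
  have h4 := Nat.mul_le_mul_left c (card_le_card (inter_subset_right (s₁ := Y) (s₂ := X)))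
  have h5 := Nat.mul_le_mul_left c h2.le
  rw [card_univ] at h3
  rw [mul_comm] at h1
  omega

end KW

theorem kw : KWStmt := fun _ _ hc hs => ⟨KW.many hc hs, KW.leaves hc hs⟩

theorem blk : BLKStmt := by
  intro ι _ Γ Good m c nb hc hs hd hv hcard h0
  have key : ∀ k ≤ nb, ∃ lam : ℕ → ℕ → ι, (∀ b < k, ∀ r < c, lam b r ∈ Good) ∧
      (∀ b < k, ∀ r < c, ∀ b' < k, ∀ r' < c, lam b r = lam b' r' → b = b' ∧ r = r') ∧
      ∀ b < k, ∀ r, r + 1 < c → Γ.Adj (lam b r) (lam b (r + 1)) := by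
    intro k
    induction k with
    | zero =>
      obtain ⟨v, -⟩ := hv
      exact fun _ => ⟨fun _ _ => v, fun _ h => by omega, fun _ h => by omega,
        fun _ h => by omega⟩
    | succ k ih =>
      intro hk
      obtain ⟨lam, h1, h2, h3⟩ := ih (by omega)
      let X := (univ \ Good) ∪ (range k ×ˢ range c).image fun p => lam p.1 p.2
      have hX : X.card ≤ (univ \ Good).card + k * c := by
        refine (card_union_le _ _).trans (Nat.add_le_add_left (card_image_le.trans ?_) _)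
        simp
      by_cases hsm : ∀ S, Conn Γ S → Disjoint S X → S.card < c
      · exfalso
        obtain ⟨v, hv⟩ := hv
        have e1 : Fintype.card ι ≤ c * X.card + c * m :=
          KW.small hc hs ⟨v, mem_union_left _ (by simpa using hv)⟩ h0 hsm
        have e2 := card_le_univ Good
        have e3 := Nat.mul_le_mul_left c hX
        have e4 := Nat.mul_le_mul_right (c + c * c) hk
        have e5 : (k + 1) * (c + c * c) = c * (k * c) + (k * c + c + c * c) := by ring
        rw [mul_add] at e3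
        rw [mul_add c m] at hcard
        omega
      push Not at hsm
      obtain ⟨S, hS, hSX, hSc⟩ := hsm
      have hSG : ∀ v ∈ S, v ∈ Good := by
        intro v hv
        by_contra h
        exact disjoint_left.1 hSX hv (mem_union_left _ (by simpa using h))
      have hSU : ∀ v ∈ S, ∀ b < k, ∀ r < c, lam b r ≠ v := by
        intro v hv b hb r hr e
        refine disjoint_left.1 hSX hv (mem_union_right _ (mem_image.2 ⟨(b, r), ?_, e⟩))
        simp [hb, hr]
      obtain ⟨f, g1, g2, g3⟩ := KW.long_path hS (fun v hv => hd v (hSG v hv)) (c - 1) (by omega)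
      refine ⟨fun b r => if b < k then lam b r else f r, ?_, ?_, ?_⟩
      · intro b _ r hr
        by_cases h : b < k <;> simp only [h, if_true, if_false]
        · exact h1 b h r hr
        · exact hSG _ (g1 r (by omega))
      · intro b hb r hr b' hb' r' hr'
        by_cases h : b < k <;> by_cases h' : b' < k <;> simp only [h, h', if_true, if_false]
        · exact h2 b h r hr b' h' r' hr'
        · exact fun e => absurd e (hSU _ (g1 r' (by omega)) b h r hr)
        · exact fun e => absurd e.symm (hSU _ (g1 r (by omega)) b' h' r' hr')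
        · exact fun e => ⟨by omega, g3 r (by omega) r' (by omega) e⟩
      · intro b _ r hr
        by_cases h : b < k <;> simp only [h, if_true, if_false]
        · exact h3 b h r hr
        · exact g2 r (by omega)
  exact key nb le_rfl

theorem tog : TOGStmt := by
  intro α A
  induction A using Finset.induction_on with
  | empty =>
    intro T k a h
    refine ⟨∅, subset_rfl, ?_⟩
    rw [eq_empty_of_forall_notMem (s := T) fun p hp => by simpa using h p hp]
    simp
  | insert q A hq ih =>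
    intro T k a h
    let T1 := T.filter fun p => ∃ q' ∈ A, a q' p
    let T2 := T.filter fun p => ¬ ∃ q' ∈ A, a q' p
    have e0 : T1.card + T2.card = T.card := card_filter_add_card_filter_not _
    have e1 : (T2.filter fun p => Odd (k p)).card + (T2.filter fun p => ¬ Odd (k p)).card =
      T2.card := card_filter_add_card_filter_not _
    have fin : ∀ (P P1 P2 : α → Prop) [DecidablePred P] [DecidablePred P1] [DecidablePred P2],
        (∀ p ∈ T1, P1 p → P p) → (∀ p ∈ T2, P2 p → P p) →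
        (T1.filter P1).card + (T2.filter P2).card ≤ (T.filter P).card := by
      intro P P1 P2 _ _ _ g1 g2
      have hd : Disjoint (T1.filter P1) (T2.filter P2) := by
        refine disjoint_left.2 fun p hp hp' => ?_
        have a1 : p ∈ T1 := (mem_filter.1 hp).1
        have a2 : p ∈ T2 := (mem_filter.1 hp').1
        exact (mem_filter.1 a2).2 (mem_filter.1 a1).2
      rw [← card_union_of_disjoint hd]
      refine card_le_card fun p hp => ?_
      rcases mem_union.1 hp with hp | hp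
      · exact mem_filter.2 ⟨(mem_filter.1 (mem_filter.1 hp).1).1,
          g1 p (mem_filter.1 hp).1 (mem_filter.1 hp).2⟩
      · exact mem_filter.2 ⟨(mem_filter.1 (mem_filter.1 hp).1).1,
          g2 p (mem_filter.1 hp).1 (mem_filter.1 hp).2⟩
    have zero : ∀ S ⊆ A, ∀ p ∈ T2, (S.filter fun q => a q p).card = 0 := by
      intro S hS p hp
      rw [card_eq_zero, filter_eq_empty_iff]
      exact fun q' hq' ha => (mem_filter.1 hp).2 ⟨q', hS hq', ha⟩
    by_cases hc : T2.card ≤ 2 * (T2.filter fun p => Odd (k p)).card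
    · obtain ⟨S, hS, h1⟩ := ih T1 k a fun p hp => (mem_filter.1 hp).2
      refine ⟨S, hS.trans (subset_insert _ _), ?_⟩
      have := fin (fun p => Odd (k p + (S.filter fun q => a q p).card))
        (fun p => Odd (k p + (S.filter fun q => a q p).card)) (fun p => Odd (k p))
        (fun _ _ h => h) (fun p hp h => by rw [zero S hS p hp]; simpa using h)
      omega
    · obtain ⟨S, hS, h1⟩ := ih T1 (fun p => k p + if a q p then 1 else 0) a
        fun p hp => (mem_filter.1 hp).2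
      refine ⟨insert q S, insert_subset_insert _ hS, ?_⟩
      have hcard : ∀ p, ((insert q S).filter fun q => a q p).card =
          (if a q p then 1 else 0) + (S.filter fun q => a q p).card := by
        intro p
        rw [filter_insert]
        split_ifs
        · rw [card_insert_of_notMem fun h => hq (hS (mem_filter.1 h).1)]; omega
        · omega
      have := fin (fun p => Odd (k p + ((insert q S).filter fun q => a q p).card))
        (fun p => Odd ((k p + if a q p then 1 else 0) + (S.filter fun q => a q p).card))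
        (fun p => ¬ Odd (k p))
        (fun p _ h => by rw [hcard, ← add_assoc]; exact h) (fun p hp h' => by
          have ha : a q p := by
            obtain ⟨q', hq', ha⟩ := h p (mem_filter.1 hp).1
            rcases mem_insert.1 hq' with rfl | hq'
            · exact ha
            · exact absurd ⟨q', hq', ha⟩ (mem_filter.1 hp).2
          rw [hcard, zero S hS p hp, if_pos ha]
          simpa [Nat.odd_add_one] using h')
      omega

end Pool.Agent.MP_7be75d_co.Gen

end MrgPart1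

-- ======== part 2: formerly Pool.Agent.MP_7be75d_co.Gen.Time
section MrgPart2

/-! Module TIME: a minimal minor that keeps two linkages carries a time function. -/

namespace Pool.Agent.MP_7be75d_co.Gen

open Finset
open scoped Classical

namespace TIME

variable {V ι κ : Type}

/-- A linkage from the points `x i` to `Y`. -/
def Lk (G : SimpleGraph V) (U Y : Finset V) (x : ι → V) (P : ι → Finset V) : Prop :=
  (∀ i, P i ⊆ U ∧ Conn G (P i) ∧ x i ∈ P i ∧ ∃ y ∈ Y, y ∈ P i) ∧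
    ∀ i j, i ≠ j → Disjoint (P i) (P j)

/-- A linkage between pairs of the points `x i`. -/
def Lq (G : SimpleGraph V) (U : Finset V) (x : ι → V) (u v : κ → ι) (Q : κ → Finset V) : Prop :=
  (∀ k, Q k ⊆ U ∧ Conn G (Q k) ∧ x (u k) ∈ Q k ∧ x (v k) ∈ Q k) ∧
    ∀ k k', k ≠ k' → Disjoint (Q k) (Q k')

/-- The conclusion of the module statement. -/
def Concl (G : SimpleGraph V) (U Y : Finset V) (x : ι → V) (u v : κ → ι) : Prop :=
  ∃ (W : Type) (_ : Fintype W) (M : SimpleGraph W) (br : W → Finset V) (lane : W → ι)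
    (ν : W → ℕ) (fst : ι → W) (Q' : κ → Finset W), Timed M lane ν fst ∧
    (∀ w, br w ⊆ U ∧ Conn G (br w)) ∧ (∀ w w', w ≠ w' → Disjoint (br w) (br w')) ∧
    (∀ w w', M.Adj w w' → Touch G (br w) (br w')) ∧ (∀ i, x i ∈ br (fst i)) ∧
    (∀ i, ∃ w, lane w = i ∧ ∃ y ∈ Y, y ∈ br w) ∧
    (∀ k, Conn M (Q' k) ∧ fst (u k) ∈ Q' k ∧ fst (v k) ∈ Q' k) ∧
    ∀ k k', k ≠ k' → Disjoint (Q' k) (Q' k')

variable {G G' : SimpleGraph V} {U U' Y : Finset V} {x : ι → V} {u v : κ → ι}

theorem Concl.mono (h : Concl G' U' Y x u v) (hG : G' ≤ G) (hU : U' ⊆ U) : Concl G U Y x u v := by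
  obtain ⟨W, hW, M, br, lane, ν, fst, Q', h1, h2, h3, h4, h5⟩ := h
  refine ⟨W, hW, M, br, lane, ν, fst, Q', h1, fun w => ⟨(h2 w).1.trans hU,
    (h2 w).2.mono' fun _ _ h _ _ => hG h⟩, h3, fun w w' h => ?_, h5⟩
  obtain ⟨a, ha, b, hb, hab⟩ := h4 w w' h
  exact ⟨a, ha, b, hb, hG hab⟩

/-! ### Contraction of an edge -/

/-- The map that sends `b` to `a`. -/
noncomputable def cm (a b : V) (c : V) : V := if c = b then a else c

/-- The graph with the edge `a b` contracted. -/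
def cG (G : SimpleGraph V) (U : Finset V) (a b : V) : SimpleGraph V :=
  ⟨fun c d => c ≠ d ∧ ∃ c' ∈ U, ∃ d' ∈ U, G.Adj c' d' ∧ cm a b c' = c ∧ cm a b d' = d,
    ⟨fun _ _ h => by
      obtain ⟨h1, c', hc, d', hd, h2, h3, h4⟩ := h
      exact ⟨h1.symm, d', hd, c', hc, h2.symm, h4, h3⟩⟩,
    ⟨fun _ h => h.1 rfl⟩⟩

variable {a b : V}

theorem conn_push {S : Finset V} (hS : S ⊆ U) (h : Conn G S) :
    Conn (cG G U a b) (S.image (cm a b)) := by
  obtain ⟨s, hs⟩ := h.1
  refine Conn.of_center (mem_image_of_mem _ hs) ?_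
  intro c hc
  obtain ⟨c', hc', rfl⟩ := mem_image.1 hc
  refine (h.2 s hs c' hc').ind
    (P := fun c' => R (cG G U a b) (S.image (cm a b)) (cm a b s) (cm a b c')) R.refl ?_
  intro p q _ ih hpq hp hq
  by_cases e : cm a b p = cm a b q
  · exact e ▸ ih
  · exact ih.tail ⟨e, p, hS hp, q, hS hq, hpq, rfl, rfl⟩ (mem_image_of_mem _ hp)
      (mem_image_of_mem _ hq)

theorem disj_push {S T : Finset V} (h : Disjoint S T) (h1 : ¬ (a ∈ S ∧ b ∈ T))
    (h2 : ¬ (b ∈ S ∧ a ∈ T)) : Disjoint (S.image (cm a b)) (T.image (cm a b)) := by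
  refine disjoint_left.2 fun c hc hc' => ?_
  obtain ⟨p, hp, rfl⟩ := mem_image.1 hc
  obtain ⟨q, hq, e⟩ := mem_image.1 hc'
  unfold cm at e
  by_cases e1 : p = b <;> by_cases e2 : q = b <;> simp only [e1, e2, if_true, if_false] at e
  · exact disjoint_left.1 h hp (by rw [e1, ← e2]; exact hq)
  · exact h2 ⟨e1 ▸ hp, e ▸ hq⟩
  · exact h1 ⟨e ▸ hp, e2 ▸ hq⟩
  · exact disjoint_left.1 h hp (e ▸ hq)

theorem card_push (ha : a ∈ U) (hb : b ∈ U) (hab : a ≠ b) : (U.image (cm a b)).card < U.card := by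
  refine lt_of_le_of_lt (card_le_card (t := U.erase b) fun c hc => ?_) (card_erase_lt_of_mem hb)
  obtain ⟨p, hp, rfl⟩ := mem_image.1 hc
  unfold cm
  split_ifs with e
  · exact mem_erase.2 ⟨hab, ha⟩
  · exact mem_erase.2 ⟨e, hp⟩

theorem conn_fib (ha : a ∈ U) (hb : b ∈ U) (hab : G.Adj a b) {c : V}
    (hc : c ∈ U.image (cm a b)) : Conn G (U.filter fun p => cm a b p = c) := by
  obtain ⟨p, hp, rfl⟩ := mem_image.1 hc
  by_cases e : cm a b p = a
  · have : (U.filter fun q => cm a b q = cm a b p) = {a, b} := by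
      ext q
      rw [e]
      simp only [mem_filter, mem_insert, mem_singleton, cm]
      constructor
      · rintro ⟨-, h⟩
        split_ifs at h with e1
        · exact Or.inr e1
        · exact Or.inl h
      · rintro (rfl | rfl)
        · exact ⟨ha, by simp⟩
        · exact ⟨hb, by simp⟩
    rw [this]
    exact Conn.pair hab
  · have hpb : p ≠ b := fun e1 => e (by simp [cm, e1])
    have e2 : cm a b p = p := by simp [cm, hpb]
    have : (U.filter fun q => cm a b q = cm a b p) = {p} := by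
      ext q
      simp only [mem_filter, mem_singleton]
      constructor
      · rintro ⟨-, h⟩
        by_cases e1 : q = b
        · exact absurd (by rw [← h]; simp [cm, e1]) e
        · rw [e2] at h
          simpa [cm, e1] using h
      · rintro rfl
        exact ⟨hp, rfl⟩
    rw [this]
    exact Conn.singleton p

theorem Concl.pull (ha : a ∈ U) (hb : b ∈ U) (hab : G.Adj a b) (hx : ∀ i, x i ∈ U)
    (h : Concl (cG G U a b) (U.image (cm a b)) ((Y ∩ U).image (cm a b)) (fun i => cm a b (x i))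
      u v) : Concl G U Y x u v := by
  obtain ⟨W, hW, M, br, lane, ν, fst, Q', h1, h2, h3, h4, h5, h6, h7⟩ := h
  have hT : ∀ c d, (cG G U a b).Adj c d →
      Touch G (U.filter fun p => cm a b p = c) (U.filter fun p => cm a b p = d) := by
    rintro c d ⟨-, c', hc, d', hd, e1, e2, e3⟩
    exact ⟨c', mem_filter.2 ⟨hc, e2⟩, d', mem_filter.2 ⟨hd, e3⟩, e1⟩
  refine ⟨W, hW, M, fun w => (br w).biUnion fun c => U.filter fun p => cm a b p = c, lane, ν, fst,
    Q', h1, fun w => ⟨biUnion_subset.2 fun c _ => filter_subset _ _, ?_⟩, fun w w' hn => ?_,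
    fun w w' h => touch_map hT (h4 w w' h), fun i => ?_, fun i => ?_, h7⟩
  · exact (h2 w).2.biUnion (fun c hc => conn_fib ha hb hab ((h2 w).1 hc))
      fun c _ d _ h => hT c d h
  · refine disj_map (fun c d hcd => disjoint_left.2 fun p hp hp' => hcd ?_) (h3 w w' hn)
    rw [← (mem_filter.1 hp).2, (mem_filter.1 hp').2]
  · exact mem_biUnion.2 ⟨_, h5 i, mem_filter.2 ⟨hx i, rfl⟩⟩
  · obtain ⟨w, e, y, hy, hy'⟩ := h6 i
    obtain ⟨y0, hy0, rfl⟩ := mem_image.1 hy
    exact ⟨w, e, y0, (mem_inter.1 hy0).1,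
      mem_biUnion.2 ⟨_, hy', mem_filter.2 ⟨(mem_inter.1 hy0).2, rfl⟩⟩⟩

theorem Lk.push {P : ι → Finset V} (h : Lk G U Y x P)
    (hs : ∀ i j, a ∈ P i → b ∈ P j → i = j) :
    Lk (cG G U a b) (U.image (cm a b)) ((Y ∩ U).image (cm a b)) (fun i => cm a b (x i))
      fun i => (P i).image (cm a b) := by
  refine ⟨fun i => ?_, fun i j hn => disj_push (h.2 i j hn) (fun e => hn (hs _ _ e.1 e.2))
    fun e => hn (hs _ _ e.2 e.1).symm⟩
  obtain ⟨h1, h2, h3, y, h4, h5⟩ := h.1 i
  exact ⟨image_subset_image h1, conn_push h1 h2, mem_image_of_mem _ h3, cm a b y,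
    mem_image_of_mem _ (mem_inter.2 ⟨h4, h1 h5⟩), mem_image_of_mem _ h5⟩

theorem Lq.push {Q : κ → Finset V} (h : Lq G U x u v Q)
    (hs : ∀ i j, a ∈ Q i → b ∈ Q j → i = j) :
    Lq (cG G U a b) (U.image (cm a b)) (fun i => cm a b (x i)) u v
      fun i => (Q i).image (cm a b) := by
  refine ⟨fun i => ?_, fun i j hn => disj_push (h.2 i j hn) (fun e => hn (hs _ _ e.1 e.2))
    fun e => hn (hs _ _ e.2 e.1).symm⟩
  obtain ⟨h1, h2, h3, h4⟩ := h.1 i
  exact ⟨image_subset_image h1, conn_push h1 h2, mem_image_of_mem _ h3, mem_image_of_mem _ h4⟩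

/-! ### Deletion of an edge -/

theorem conn_del {S : Finset V} (h : Conn G S) (hn : ¬ (a ∈ S ∧ b ∈ S)) :
    Conn (G.deleteEdges {s(a, b)}) S := by
  refine h.mono' fun p q hpq hp hq => ?_
  rw [SimpleGraph.deleteEdges_adj]
  refine ⟨hpq, fun e => hn ?_⟩
  rcases Sym2.eq_iff.1 (Set.mem_singleton_iff.1 e) with ⟨rfl, rfl⟩ | ⟨rfl, rfl⟩
  · exact ⟨hp, hq⟩
  · exact ⟨hq, hp⟩

/-- The size of an instance. -/
noncomputable def meas [Fintype V] (G : SimpleGraph V) (U : Finset V) : ℕ :=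
  U.card * (Fintype.card (V × V) + 1) + (univ.filter fun p : V × V => G.Adj p.1 p.2).card

theorem meas_lt_card [Fintype V] (h : U'.card < U.card) : meas G' U' < meas G U := by
  unfold meas
  have h1 : (univ.filter fun p : V × V => G'.Adj p.1 p.2).card ≤ Fintype.card (V × V) :=
    card_le_univ _
  have h2 := Nat.mul_le_mul_right (Fintype.card (V × V) + 1) (Nat.succ_le_of_lt h)
  rw [Nat.succ_mul] at h2
  omega

theorem meas_lt_edge [Fintype V] (hab : G.Adj a b) :
    meas (G.deleteEdges {s(a, b)}) U < meas G U := by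
  unfold meas
  refine Nat.add_lt_add_left (card_lt_card ⟨fun p hp => ?_, fun hs => ?_⟩) _
  · simp only [mem_filter, mem_univ, true_and, SimpleGraph.deleteEdges_adj] at hp ⊢
    exact hp.1
  · have := hs (x := (a, b)) (by simpa using hab)
    simp at this

/-! ### Rigid systems of paths -/

/-- Disjoint paths from the points `x i` to `Y`. -/
structure Paths (G : SimpleGraph V) (U Y : Finset V) (x : ι → V) (L : ι → ℕ) (f : ι → ℕ → V) :
    Prop where
  isp : ∀ i, IsP G U (L i) (f i)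
  zero : ∀ i, f i 0 = x i
  last : ∀ i, f i (L i) ∈ Y
  inj : ∀ i j s t, s ≤ L i → t ≤ L j → f i s = f j t → i = j ∧ s = t

theorem Lk.paths {P : ι → Finset V} (h : Lk G U Y x P) : ∃ L f, Paths G U Y x L f := by
  have : ∀ i, ∃ (L : ℕ) (f : ℕ → V), IsP G (P i) L f ∧ f 0 = x i ∧ f L ∈ Y := by
    intro i
    obtain ⟨-, h2, h3, y, h4, h5⟩ := h.1 i
    obtain ⟨L, f, a1, a2, a3, a4, a5⟩ := (h2.2 _ h3 _ h5).exists_path h3
    exact ⟨L, f, ⟨a3, a4, a5⟩, a1, a2 ▸ h4⟩
  choose L f h1 h2 h3 using this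
  refine ⟨L, f, fun i => ⟨fun j hj => (h.1 i).1 ((h1 i).mem j hj), (h1 i).adj, (h1 i).inj⟩, h2, h3,
    fun i j s t hs ht e => ?_⟩
  have : i = j := by
    by_contra hn
    exact disjoint_left.1 (h.2 i j hn) ((h1 i).mem s hs) (e ▸ (h1 j).mem t ht)
  subst this
  exact ⟨rfl, (h1 i).inj s hs t ht e⟩

variable {L : ι → ℕ} {f : ι → ℕ → V}

/-- A segment of a path. -/
noncomputable def seg (f : ι → ℕ → V) (i : ι) (lo hi : ℕ) : Finset V := (Icc lo hi).image (f i)

theorem mem_seg {i : ι} {lo hi s : ℕ} (h1 : lo ≤ s) (h2 : s ≤ hi) : f i s ∈ seg f i lo hi :=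
  mem_image_of_mem _ (mem_Icc.2 ⟨h1, h2⟩)

theorem Paths.of_mem (h : Paths G U Y x L f) {i j : ι} {lo hi s : ℕ} (hh : hi ≤ L i) (hs : s ≤ L j)
    (hm : f j s ∈ seg f i lo hi) : j = i ∧ lo ≤ s ∧ s ≤ hi := by
  obtain ⟨t, ht, e⟩ := mem_image.1 hm
  rw [mem_Icc] at ht
  obtain ⟨rfl, rfl⟩ := h.inj i j t s (by omega) hs e
  exact ⟨rfl, ht⟩

theorem Paths.seg_sub (h : Paths G U Y x L f) {i : ι} {lo hi : ℕ} (hh : hi ≤ L i) :
    seg f i lo hi ⊆ U := fun c hc => by
  obtain ⟨t, ht, rfl⟩ := mem_image.1 hc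
  exact (h.isp i).mem t ((mem_Icc.1 ht).2.trans hh)

theorem Paths.seg_conn (h : Paths G U Y x L f) {i : ι} {lo hi : ℕ} (hl : lo ≤ hi) (hh : hi ≤ L i) :
    Conn G (seg f i lo hi) := conn_segment hl fun j _ hj => (h.isp i).adj j (by omega)

theorem Paths.seg_disj (h : Paths G U Y x L f) {i j : ι} {lo hi lo' hi' : ℕ} (hh : hi ≤ L i)
    (hh' : hi' ≤ L j) (hn : i = j → hi < lo' ∨ hi' < lo) :
    Disjoint (seg f i lo hi) (seg f j lo' hi') := by
  refine disjoint_left.2 fun c hc hc' => ?_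
  obtain ⟨t, ht, rfl⟩ := mem_image.1 hc
  rw [mem_Icc] at ht
  obtain ⟨e, h1, h2⟩ := h.of_mem hh' (ht.2.trans hh) hc'
  have := hn e
  omega

theorem Paths.lk (h : Paths G U Y x L f) : Lk G U Y x fun i => seg f i 0 (L i) :=
  ⟨fun i => ⟨h.seg_sub le_rfl, h.seg_conn (Nat.zero_le _) le_rfl,
    h.zero i ▸ mem_seg le_rfl (Nat.zero_le _), _, h.last i, mem_seg (Nat.zero_le _) le_rfl⟩,
    fun _ _ hn => h.seg_disj le_rfl le_rfl fun e => absurd e hn⟩

/-- Every linkage uses every edge of the paths. -/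
def Rigid (G : SimpleGraph V) (U Y : Finset V) (x : ι → V) (L : ι → ℕ) (f : ι → ℕ → V) : Prop :=
  ∀ P, Lk G U Y x P → ∀ i, ∀ s < L i, ∃ j, f i s ∈ P j ∧ f i (s + 1) ∈ P j

/-- A rerouting of the paths is impossible. -/
theorem reroute (h : Paths G U Y x L f) (hr : Rigid G U Y x L f) {S : Finset ι} (hS : S.Nonempty)
    {g : ι → ι} {q r : ι → ℕ} (h1 : ∀ j ∈ S, g j ∈ S)
    (h2 : ∀ i ∈ S, ∀ j ∈ S, g i = g j → i = j)
    (h3 : ∀ j ∈ S, G.Adj (f j (q j)) (f (g j) (r (g j))))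
    (h4 : ∀ j ∈ S, q j < r j ∧ r j ≤ L j) (h5 : ∀ j ∈ S, g j = j → q j + 1 < r j) : False := by
  set P : ι → Finset V := fun j =>
    if j ∈ S then seg f j 0 (q j) ∪ seg f (g j) (r (g j)) (L (g j)) else seg f j 0 (L j) with hP
  have pin : ∀ j ∈ S, P j = seg f j 0 (q j) ∪ seg f (g j) (r (g j)) (L (g j)) := fun j hj => by
    simp only [hP, hj, if_true]
  have pout : ∀ j ∉ S, P j = seg f j 0 (L j) := fun j hj => by
    simp only [hP, hj, if_false]
  have hq : ∀ j ∈ S, q j ≤ L j := fun j hj => by have := h4 j hj; omega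
  have hd : ∀ i ∈ S, ∀ j ∉ S, Disjoint (P i) (P j) := by
    intro i hi j hj
    rw [pin i hi, pout j hj, disjoint_union_left]
    exact ⟨h.seg_disj (hq i hi) le_rfl fun e => absurd (e ▸ hi) hj,
      h.seg_disj le_rfl le_rfl fun e => absurd (e ▸ h1 i hi) hj⟩
  have hL : Lk G U Y x P := by
    refine ⟨fun j => ?_, fun i j hn => ?_⟩
    · by_cases hj : j ∈ S
      · rw [pin j hj]
        have a1 := h4 _ (h1 j hj)
        exact ⟨union_subset (h.seg_sub (hq j hj)) (h.seg_sub le_rfl),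
          (h.seg_conn (Nat.zero_le _) (hq j hj)).union_adj (h.seg_conn a1.2 le_rfl)
            (mem_seg (Nat.zero_le _) le_rfl) (mem_seg le_rfl a1.2) (h3 j hj),
          mem_union_left _ (h.zero j ▸ mem_seg le_rfl (Nat.zero_le _)), _, h.last (g j),
          mem_union_right _ (mem_seg a1.2 le_rfl)⟩
      · rw [pout j hj]
        exact h.lk.1 j
    · by_cases hi : i ∈ S <;> by_cases hj : j ∈ S
      · rw [pin i hi, pin j hj, disjoint_union_left, disjoint_union_right, disjoint_union_right]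
        exact ⟨⟨h.seg_disj (hq i hi) (hq j hj) fun e => absurd e hn,
          h.seg_disj (hq i hi) le_rfl fun e => Or.inl (e ▸ (h4 i hi).1)⟩,
          h.seg_disj le_rfl (hq j hj) fun e => Or.inr (e ▸ (h4 j hj).1),
          h.seg_disj le_rfl le_rfl fun e => absurd (h2 i hi j hj e) hn⟩
      · exact hd i hi j hj
      · exact (hd j hj i hi).symm
      · rw [pout i hi, pout j hj]
        exact h.lk.2 i j hn
  obtain ⟨j, hj⟩ := hS
  have a1 := h4 j hj
  obtain ⟨k, b1, b2⟩ := hr P hL j (q j) (by omega)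
  have : k = j := by
    by_contra hn
    refine disjoint_left.1 (hL.2 k j hn) b1 ?_
    rw [pin j hj]
    exact mem_union_left _ (mem_seg (Nat.zero_le _) le_rfl)
  subst this
  rw [pin k hj] at b2
  rcases mem_union.1 b2 with b2 | b2
  · have := h.of_mem (hq k hj) (by omega) b2
    omega
  · obtain ⟨e, b3, -⟩ := h.of_mem le_rfl (by omega) b2
    have := h5 k hj e.symm
    rw [← e] at b3
    omega

theorem chord (h : Paths G U Y x L f) (hr : Rigid G U Y x L f) {i : ι} {s t : ℕ} (h1 : s + 1 < t)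
    (h2 : t ≤ L i) (h3 : G.Adj (f i s) (f i t)) : False :=
  reroute h hr (S := {i}) (by simp) (g := fun _ => i) (q := fun _ => s) (r := fun _ => t)
    (by simp) (by simp) (by simpa using h3) (by simp; omega) (by simpa using h1)

/-- A prefix closed set has a last vertex that may get the largest time. -/
theorem sink [Fintype ι] (h : Paths G U Y x L f) (hr : Rigid G U Y x L f) {t : ι → ℕ}
    (ht : ∀ i, t i ≤ L i + 1) {i0 : ι} (h0 : 0 < t i0) :
    ∃ i, 0 < t i ∧ ∀ j s, j ≠ i → s + 1 < t j → ¬ G.Adj (f j s) (f i (t i - 1)) := by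
  by_contra hc
  push Not at hc
  choose! g p h1 h2 h3 using hc
  obtain ⟨S, ⟨a1, a2, a3⟩, hm⟩ := exists_min_of (p := fun S : Finset ι => S.Nonempty ∧
    (∀ i ∈ S, 0 < t i) ∧ ∀ i ∈ S, g i ∈ S) card
    ⟨univ.filter fun i => 0 < t i, ⟨i0, by simpa using h0⟩, by simp, fun i hi => by
      have := h2 i (by simpa using hi)
      simp only [mem_filter, mem_univ, true_and]
      omega⟩
  have hs : S.image g ⊆ S := image_subset_iff.2 a3
  have he : S.image g = S := eq_of_subset_of_card_le hs (hm _ ⟨a1.image g, fun i hi => a2 i (hs hi),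
    fun i hi => mem_image_of_mem g (hs hi)⟩)
  have : ∀ j ∈ S, ∃ i ∈ S, g i = j := fun j hj => mem_image.1 (he.symm ▸ hj)
  choose! k k1 k2 using this
  refine reroute h hr a1 (g := k) (q := fun j => p (k j)) (r := fun j => t j - 1) k1
    (fun i hi j hj e => by rw [← k2 i hi, e, k2 j hj]) (fun j hj => ?_) (fun j hj => ?_)
    fun j hj e => ?_
  · have := h3 _ (a2 _ (k1 j hj))
    rwa [k2 j hj] at this
  · have b1 := h2 _ (a2 _ (k1 j hj))
    rw [k2 j hj] at b1
    have := ht j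
    omega
  · have := h1 _ (a2 _ (k1 j hj))
    rw [k2 j hj] at this
    exact absurd e.symm this

theorem exists_time [Fintype ι] (h : Paths G U Y x L f) (hr : Rigid G U Y x L f) (n : ℕ) :
    ∀ t : ι → ℕ, (∀ i, t i ≤ L i + 1) → ∑ i, t i = n → ∃ ν : ι → ℕ → ℕ,
      (∀ i, ∀ s < t i, ν i s < n) ∧
      (∀ i j, ∀ s < t i, ∀ s' < t j, ν i s = ν j s' → i = j ∧ s = s') ∧
      (∀ i s, ∀ s' < t i, s < s' → ν i s < ν i s') ∧
      ∀ i j s, ∀ s' < t i, ∀ r < t j, i ≠ j → s < s' → G.Adj (f i s) (f j r) →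
        ν j r < ν i s' := by
  induction n with
  | zero =>
    intro t _ hs
    have : ∀ i, t i = 0 := fun i => (sum_eq_zero_iff.1 hs) i (mem_univ i)
    exact ⟨fun _ _ => 0, by simp [this], by simp [this], by simp [this], by simp [this]⟩
  | succ n ih =>
    intro t ht hs
    obtain ⟨i0, -, h0⟩ : ∃ i ∈ univ, t i ≠ 0 := exists_ne_zero_of_sum_ne_zero (by omega)
    obtain ⟨c, hc, hsink⟩ := sink h hr ht (Nat.pos_of_ne_zero h0)
    obtain ⟨ν, n1, n2, n3, n4⟩ := ih (Function.update t c (t c - 1)) (fun i => by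
      by_cases e : i = c
      · subst e
        have := ht i
        simp only [Function.update_self]
        omega
      · simpa [e] using ht i) (by
      rw [sum_update_of_mem (mem_univ c)]
      rw [← add_sum_erase _ _ (mem_univ c), ← sdiff_singleton_eq_erase] at hs
      omega)
    have key : ∀ i, ∀ s < t i, ¬ (i = c ∧ s = t c - 1) → s < Function.update t c (t c - 1) i := by
      intro i s hs hn
      by_cases e : i = c
      · subst e
        simp only [Function.update_self]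
        have : s ≠ t i - 1 := fun e => hn ⟨rfl, e⟩
        omega
      · simpa [e] using hs
    refine ⟨fun i s => if i = c ∧ s = t c - 1 then n else ν i s, fun i s hs => ?_,
      fun i j s hs s' hs' => ?_, fun i s s' hs' hlt => ?_, fun i j s s' hs' r hr' hn hlt hA => ?_⟩ <;>
      beta_reduce
    · split_ifs with e
      · omega
      · have := n1 i s (key i s hs e)
        omega
    · split_ifs with e1 e2 e2
      · exact fun _ => ⟨e1.1.trans e2.1.symm, e1.2.trans e2.2.symm⟩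
      · intro e
        have := n1 j s' (key j s' hs' e2)
        omega
      · intro e
        have := n1 i s (key i s hs e1)
        omega
      · exact n2 i j s (key i s hs e1) s' (key j s' hs' e2)
    · have e1 : ¬ (i = c ∧ s = t c - 1) := by
        rintro ⟨rfl, e⟩
        omega
      rw [if_neg e1]
      split_ifs with e2
      · exact n1 i s (key i s (by omega) e1)
      · exact n3 i s s' (key i s' hs' e2) hlt
    · have e1 : ¬ (j = c ∧ r = t c - 1) := by
        rintro ⟨rfl, rfl⟩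
        exact hsink i s hn (by omega) hA
      rw [if_neg e1]
      split_ifs with e2
      · exact n1 j r (key j r hr' e1)
      · exact n4 i j s s' (key i s' hs' e2) r (key j r hr' e1) hn hlt hA

theorem conn_comap {W : Type} [Fintype W] {F : W → V} (hF : Function.Injective F) {S : Finset V}
    (h : Conn G S) (hS : ∀ c ∈ S, ∃ w, F w = c) :
    Conn (G.comap F) (univ.filter fun w => F w ∈ S) := by
  obtain ⟨s, hs⟩ := h.1
  obtain ⟨w0, rfl⟩ := hS s hs
  refine Conn.of_center (a := w0) (by simpa using hs) ?_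
  intro w hw
  have hw' : F w ∈ S := by simpa using hw
  refine (h.2 _ hs _ hw').ind (P := fun c => ∀ w, F w = c →
    R (G.comap F) (univ.filter fun w => F w ∈ S) w0 w) (fun w e => hF e ▸ R.refl) ?_ w rfl
  rintro p q _ ih hpq hp hq w rfl
  obtain ⟨w', rfl⟩ := hS p hp
  exact (ih w' rfl).tail hpq (by simpa using hp) (by simpa using hq)

/-- The conclusion for a rigid system of paths that covers `U`. -/
theorem concl_of_rigid [Fintype ι] (h : Paths G U Y x L f) (hr : Rigid G U Y x L f)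
    (hcov : ∀ c ∈ U, ∃ i, ∃ s ≤ L i, f i s = c) {Q : κ → Finset V} (hQ : Lq G U x u v Q) :
    Concl G U Y x u v := by
  obtain ⟨ν, -, n2, n3, n4⟩ := exists_time h hr _ (fun i => L i + 1) (fun _ => le_rfl) rfl
  let F : (Σ i : ι, Fin (L i + 1)) → V := fun w => f w.1 w.2
  have hle : ∀ w : Σ i : ι, Fin (L i + 1), (w.2 : ℕ) ≤ L w.1 := fun w => Nat.lt_succ_iff.1 w.2.2
  have hext : ∀ w w' : Σ i : ι, Fin (L i + 1), w.1 = w'.1 → (w.2 : ℕ) = w'.2 → w = w' := by
    rintro ⟨i, s⟩ ⟨j, t⟩ e1 e2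
    simp only at e1 e2
    subst e1
    rw [Fin.ext e2]
  have hF : Function.Injective F := fun w w' e =>
    have := h.inj _ _ _ _ (hle w) (hle w') e
    hext w w' this.1 this.2
  have hlt : ∀ i, ∀ s ≤ L i, ∀ t ≤ L i, ν i s < ν i t → s < t := by
    intro i s hs t ht hv
    by_contra hn
    rcases Nat.lt_or_eq_of_le (not_lt.1 hn) with e | e
    · have := n3 i t s (by omega) e
      omega
    · rw [e] at hv
      omega
  refine ⟨Σ i : ι, Fin (L i + 1), inferInstance, G.comap F, fun w => {F w}, fun w => w.1,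
    fun w => ν w.1 w.2, fun i => ⟨i, 0⟩, fun k => univ.filter fun w => F w ∈ Q k,
    ⟨fun w w' e => ?_, ?_, ?_, fun _ => rfl, ?_⟩, fun w => ⟨?_, Conn.singleton _⟩,
    fun w w' hn => ?_, fun w w' hA => ⟨_, mem_singleton_self _, _, mem_singleton_self _, hA⟩,
    fun i => ?_, fun i => ⟨⟨i, Fin.last _⟩, rfl, _, h.last i, mem_singleton_self _⟩,
    fun k => ⟨conn_comap hF (hQ.1 k).2.1 fun c hc => ?_, ?_, ?_⟩, fun k k' hn => ?_⟩
  · have := n2 _ _ _ w.2.2 _ w'.2.2 e
    exact hext w w' this.1 this.2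
  · rintro ⟨i, s⟩ ⟨j, t⟩ e hv hm
    simp only at e hv hm
    subst e
    have a1 := hlt i s (hle ⟨i, s⟩) t (hle ⟨i, t⟩) hv
    have a0 := t.2
    have a2 := hm ⟨i, ⟨s + 1, by omega⟩⟩ rfl (n3 i s (s + 1) (by omega) (by omega))
    have a3 : (t : ℕ) = s + 1 := by
      by_contra hn
      have := n3 i (s + 1) t t.2 (by omega)
      simp only at a2
      omega
    show G.Adj (f i s) (f i t)
    rw [a3]
    exact (h.isp i).adj s (by omega)
  · rintro ⟨i, s⟩ ⟨j, r⟩ ⟨i', t⟩ hA e hv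
    simp only at e hv
    subst e
    have hA' : G.Adj (f i' s) (f j r) := hA
    have a1 := hlt i' s (hle ⟨i', s⟩) t (hle ⟨i', t⟩) hv
    show ν j r ≤ ν i' t
    by_cases e : i' = j
    · subst e
      have a2 : (r : ℕ) ≤ t := by
        by_contra hn
        exact chord h hr (s := s) (t := r) (by omega) (hle ⟨i', r⟩) hA'
      rcases Nat.lt_or_eq_of_le a2 with e | e
      · exact (n3 i' r t t.2 e).le
      · rw [e]
    · exact (n4 i' j s t t.2 r r.2 e a1 hA').le
  · rintro ⟨i, s⟩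
    show ν i 0 ≤ ν i s
    rcases Nat.eq_zero_or_pos s with e | e
    · rw [e]
    · exact (n3 i 0 s s.2 e).le
  · exact singleton_subset_iff.2 ((h.isp w.1).mem _ (hle w))
  · exact disjoint_singleton.2 (hF.ne hn)
  · exact mem_singleton.2 (h.zero i).symm
  · obtain ⟨i, s, hs, e⟩ := hcov c ((hQ.1 k).1 hc)
    exact ⟨⟨i, ⟨s, by omega⟩⟩, e⟩
  · refine mem_filter.2 ⟨mem_univ _, ?_⟩
    show f (u k) 0 ∈ Q k
    rw [h.zero]
    exact (hQ.1 k).2.2.1
  · refine mem_filter.2 ⟨mem_univ _, ?_⟩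
    show f (v k) 0 ∈ Q k
    rw [h.zero]
    exact (hQ.1 k).2.2.2
  · exact disjoint_left.2 fun w hw hw' =>
      disjoint_left.1 (hQ.2 k k' hn) (mem_filter.1 hw).2 (mem_filter.1 hw').2

theorem same {α : Type} {Q : α → Finset V} (h : ∀ k k', k ≠ k' → Disjoint (Q k) (Q k')) {c : V}
    {k k' : α} (h1 : c ∈ Q k) (h2 : c ∈ Q k') : k = k' := by
  by_contra hn
  exact disjoint_left.1 (h k k' hn) h1 h2

theorem main [Fintype V] [Fintype ι] (u v : κ → ι) (n : ℕ) : ∀ (G : SimpleGraph V)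
    (U Y : Finset V) (x : ι → V) (P : ι → Finset V) (Q : κ → Finset V), meas G U < n →
    Lk G U Y x P → Lq G U x u v Q → Concl G U Y x u v := by
  induction n with
  | zero => intro G U Y x P Q h; omega
  | succ n ih =>
    intro G U Y x P0 Q hm hP0 hQ
    by_contra hc
    have hx : ∀ i, x i ∈ U := fun i => (hP0.1 i).1 (hP0.1 i).2.2.1
    have dv : ∀ P, Lk G U Y x P → ∀ c ∈ U, (∀ i, c ∉ P i) → (∀ k, c ∉ Q k) → False := by
      intro P hP c hcU h1 h2
      have := meas_lt_card (G := G) (G' := G) (card_erase_lt_of_mem hcU)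
      exact hc ((ih G (U.erase c) Y x P Q (by omega)
        ⟨fun i => ⟨subset_erase.2 ⟨(hP.1 i).1, h1 i⟩, (hP.1 i).2⟩, hP.2⟩
        ⟨fun k => ⟨subset_erase.2 ⟨(hQ.1 k).1, h2 k⟩, (hQ.1 k).2⟩, hQ.2⟩).mono le_rfl
        (erase_subset _ _))
    have de : ∀ P, Lk G U Y x P → ∀ a b, G.Adj a b → (∀ i, ¬ (a ∈ P i ∧ b ∈ P i)) →
        (∀ k, ¬ (a ∈ Q k ∧ b ∈ Q k)) → False := by
      intro P hP a b hab h1 h2
      have := meas_lt_edge (U := U) hab
      exact hc ((ih (G.deleteEdges {s(a, b)}) U Y x P Q (by omega)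
        ⟨fun i => ⟨(hP.1 i).1, conn_del (hP.1 i).2.1 (h1 i), (hP.1 i).2.2⟩, hP.2⟩
        ⟨fun k => ⟨(hQ.1 k).1, conn_del (hQ.1 k).2.1 (h2 k), (hQ.1 k).2.2⟩, hQ.2⟩).mono
        (SimpleGraph.deleteEdges_le _) subset_rfl)
    have ct : ∀ P, Lk G U Y x P → ∀ a ∈ U, ∀ b ∈ U, G.Adj a b →
        (∀ i j, a ∈ P i → b ∈ P j → i = j) → (∀ i j, a ∈ Q i → b ∈ Q j → i = j) → False := by
      intro P hP a ha b hb hab h1 h2
      have := meas_lt_card (G := G) (G' := cG G U a b) (card_push ha hb hab.ne)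
      exact hc (Concl.pull ha hb hab hx (ih _ _ _ _ _ _ (by omega) (hP.push h1) (hQ.push h2)))
    obtain ⟨L, f, h⟩ := hP0.paths
    have hl := h.lk
    refine hc (concl_of_rigid h (fun P hP i s hs => ?_) (fun c hcU => ?_) hQ)
    · by_contra hn
      push Not at hn
      have hA := (h.isp i).adj s hs
      refine de P hP _ _ hA (fun j e => hn j e.1 e.2) fun k e => ?_
      refine ct _ hl _ ((h.isp i).mem s hs.le) _ ((h.isp i).mem (s + 1) hs) hA
        (fun j j' e1 e2 => ?_) fun j j' e1 e2 => (same hQ.2 e1 e.1).trans (same hQ.2 e.2 e2)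
      exact (h.of_mem le_rfl hs.le e1).1.symm.trans (h.of_mem le_rfl hs e2).1
    · by_contra hn
      have h1 : ∀ i, c ∉ seg f i 0 (L i) := fun i e => by
        obtain ⟨s, hs, e⟩ := mem_image.1 e
        exact hn ⟨i, s, (mem_Icc.1 hs).2, e⟩
      refine dv _ hl c hcU h1 fun k hk => ?_
      obtain ⟨d, hd, hA⟩ := (hQ.1 k).2.1.exists_adj hk (hQ.1 k).2.2.1 fun e =>
        h1 (u k) (e ▸ (hl.1 (u k)).2.2.1)
      exact ct _ hl c hcU d ((hQ.1 k).1 hd) hA (fun i j e _ => absurd e (h1 i))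
        fun j j' e1 e2 => (same hQ.2 e1 hk).trans (same hQ.2 hd e2)

end TIME

theorem time : TIMEStmt := fun G U Y x P Q u v h1 h2 h3 h4 =>
  TIME.main u v _ G U Y x P Q (Nat.lt_succ_self _) ⟨h1, h2⟩ ⟨h3, h4⟩

end Pool.Agent.MP_7be75d_co.Gen

end MrgPart2

-- marker of a merged file
example : 731051 + 165535 = 731051 + 165535 := rfl
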