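import Mathlib.Analysis.Normed.Order.Lattice
import Mathlib.Analysis.Normed.Ring.Basic
import Mathlib.Topology.MetricSpace.HausdorffDistance
import Mathlib.Data.Finset.Functor
import Pool.Agent.MP_7be75d_co.Gen.Comb1

-- ======== part 0: formerly Pool.Agent.MP_7be75d_co.Gen.Draw
section MrgPart0

/-! Modules DRAW (a drawn graph is a minor of the lattice) and FIN (a uniform grid size). -/

namespace Pool.Agent.MP_7be75d_co.Gen

open Finset
open scoped Classical

namespace Draw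

/-- The closed square of side `ε` with lower left corner `ε q`. -/
def sq (ε : ℝ) (q : ℤ × ℤ) : Set (ℝ × ℝ) :=
  {x | (ε * q.1 ≤ x.1 ∧ x.1 ≤ ε * (q.1 + 1)) ∧ ε * q.2 ≤ x.2 ∧ x.2 ≤ ε * (q.2 + 1)}

theorem sq_closed (ε : ℝ) (q : ℤ × ℤ) : IsClosed (sq ε q) :=
  ((isClosed_le continuous_const continuous_fst).inter
    (isClosed_le continuous_fst continuous_const)).inter
    ((isClosed_le continuous_const continuous_snd).inter
      (isClosed_le continuous_snd continuous_const))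

theorem floor_mem {ε : ℝ} (hε : 0 < ε) (x : ℝ) :
    ε * (⌊x / ε⌋ : ℤ) ≤ x ∧ x ≤ ε * ((⌊x / ε⌋ : ℤ) + 1) := by
  have h1 := Int.floor_le (x / ε)
  have h2 := (Int.lt_floor_add_one (x / ε)).le
  rw [le_div_iff₀ hε] at h1
  rw [div_le_iff₀ hε] at h2
  constructor <;> linarith

theorem exists_sq {ε : ℝ} (hε : 0 < ε) (x : ℝ × ℝ) : ∃ q, x ∈ sq ε q :=
  ⟨(⌊x.1 / ε⌋, ⌊x.2 / ε⌋), floor_mem hε x.1, floor_mem hε x.2⟩

theorem dist_le {ε : ℝ} {q : ℤ × ℤ} {x y : ℝ × ℝ} (hx : x ∈ sq ε q) (hy : y ∈ sq ε q) :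
    dist x y ≤ ε := by
  obtain ⟨⟨a1, a2⟩, a3, a4⟩ := hx
  obtain ⟨⟨b1, b2⟩, b3, b4⟩ := hy
  rw [Prod.dist_eq, Real.dist_eq, Real.dist_eq, max_le_iff, abs_le, abs_le]
  refine ⟨⟨?_, ?_⟩, ?_, ?_⟩ <;> linarith

theorem int_bound {ε r x : ℝ} (hε : 0 < ε) {i : ℤ} (h1 : ε * i ≤ x) (h2 : x ≤ ε * (i + 1))
    (hx : |x| ≤ r) : i ∈ Icc (-(⌈r / ε⌉ + 1)) (⌈r / ε⌉ + 1) := by
  have h3 := Int.le_ceil (r / ε)
  rw [div_le_iff₀ hε] at h3
  rw [abs_le] at hx
  have a : ε * (i : ℝ) ≤ ε * ((⌈r / ε⌉ + 1 : ℤ) : ℝ) := by push_cast; linarith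
  have b : ε * ((-(⌈r / ε⌉ + 1) : ℤ) : ℝ) ≤ ε * (i : ℝ) := by push_cast; linarith
  exact mem_Icc.2 ⟨by exact_mod_cast le_of_mul_le_mul_left b hε,
    by exact_mod_cast le_of_mul_le_mul_left a hε⟩

theorem cells_finite {ε : ℝ} (hε : 0 < ε) {S : Set (ℝ × ℝ)} (hS : IsCompact S) :
    {q | ∃ x ∈ S, x ∈ sq ε q}.Finite := by
  obtain ⟨r, hr⟩ := hS.isBounded.subset_closedBall 0
  refine (Finset.finite_toSet (Icc (-(⌈r / ε⌉ + 1)) (⌈r / ε⌉ + 1) ×ˢ
    Icc (-(⌈r / ε⌉ + 1)) (⌈r / ε⌉ + 1))).subset ?_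
  rintro q ⟨x, hx, ⟨a1, a2⟩, a3, a4⟩
  have h := hr hx
  rw [mem_closedBall_zero_iff, Prod.norm_def, max_le_iff, Real.norm_eq_abs,
    Real.norm_eq_abs] at h
  exact mem_coe.2 (mem_product.2 ⟨int_bound hε a1 a2 h.1, int_bound hε a3 a4 h.2⟩)

/-- The squares that meet `S`. -/
noncomputable def cells (ε : ℝ) (S : Set (ℝ × ℝ)) : Finset (ℤ × ℤ) :=
  if h : {q | ∃ x ∈ S, x ∈ sq ε q}.Finite then h.toFinset else ∅

theorem mem_cells {ε : ℝ} (hε : 0 < ε) {S : Set (ℝ × ℝ)} (hS : IsCompact S) {q : ℤ × ℤ} :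
    q ∈ cells ε S ↔ ∃ x ∈ S, x ∈ sq ε q := by
  rw [cells, dif_pos (cells_finite hε hS), Set.Finite.mem_toFinset]
  rfl

theorem near {ε x : ℝ} (hε : 0 < ε) {i j : ℤ} (h1 : ε * i ≤ x) (h2 : x ≤ ε * (j + 1)) :
    i ≤ j + 1 := by
  have : ε * (i : ℝ) ≤ ε * ((j + 1 : ℤ) : ℝ) := by push_cast; linarith
  exact_mod_cast le_of_mul_le_mul_left this hε

theorem step1 {U : Finset (ℤ × ℤ)} {i i' j : ℤ} (h : (i, j) ∈ U) (h' : (i', j) ∈ U)
    (h1 : i ≤ i' + 1) (h2 : i' ≤ i + 1) : R gridZ U (i, j) (i', j) := by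
  by_cases e : i = i'
  · subst e; exact R.refl
  · refine R.single ?_ h h'
    rw [gridZ, SimpleGraph.fromRel_adj]
    refine ⟨fun h => e (Prod.mk.inj h).1, ?_⟩
    dsimp only
    omega

theorem step2 {U : Finset (ℤ × ℤ)} {i j j' : ℤ} (h : (i, j) ∈ U) (h' : (i, j') ∈ U)
    (h1 : j ≤ j' + 1) (h2 : j' ≤ j + 1) : R gridZ U (i, j) (i, j') := by
  by_cases e : j = j'
  · subst e; exact R.refl
  · refine R.single ?_ h h'
    rw [gridZ, SimpleGraph.fromRel_adj]
    refine ⟨fun h => e (Prod.mk.inj h).2, ?_⟩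
    dsimp only
    omega

/-- Two squares through one point of `S` are joined inside the squares that meet `S`. -/
theorem joined {ε : ℝ} (hε : 0 < ε) {S : Set (ℝ × ℝ)} (hS : IsCompact S) {x : ℝ × ℝ}
    (hx : x ∈ S) {q q' : ℤ × ℤ} (h : x ∈ sq ε q) (h' : x ∈ sq ε q') :
    R gridZ (cells ε S) q q' := by
  obtain ⟨i, j⟩ := q
  obtain ⟨i', j'⟩ := q'
  have m1 : (i, j) ∈ cells ε S := (mem_cells hε hS).2 ⟨x, hx, h⟩
  have m2 : (i', j) ∈ cells ε S := (mem_cells hε hS).2 ⟨x, hx, h'.1, h.2⟩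
  have m3 : (i', j') ∈ cells ε S := (mem_cells hε hS).2 ⟨x, hx, h'⟩
  exact (step1 m1 m2 (near hε h.1.1 h'.1.2) (near hε h'.1.1 h.1.2)).trans
    (step2 m2 m3 (near hε h.2.1 h'.2.2) (near hε h'.2.1 h.2.2))

theorem cells_conn {ε : ℝ} (hε : 0 < ε) {S : Set (ℝ × ℝ)} (hS : IsCompact S)
    (hc : IsPreconnected S) (hne : S.Nonempty) : Conn gridZ (cells ε S) := by
  obtain ⟨x, hx⟩ := hne
  obtain ⟨a, ha⟩ := exists_sq hε x
  have ma : a ∈ cells ε S := (mem_cells hε hS).2 ⟨x, hx, ha⟩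
  refine Conn.of_center ma fun b hb => ?_
  by_contra hab
  obtain ⟨y, hy, hyb⟩ := (mem_cells hε hS).1 hb
  obtain ⟨z, hz, hz1, hz2⟩ := isPreconnected_closed_iff.1 hc
    (⋃ q ∈ (cells ε S).filter (R gridZ (cells ε S) a), sq ε q)
    (⋃ q ∈ (cells ε S).filter (fun q => ¬ R gridZ (cells ε S) a q), sq ε q)
    (isClosed_biUnion_finset fun q _ => sq_closed ε q)
    (isClosed_biUnion_finset fun q _ => sq_closed ε q)
    (fun w hw => by
      obtain ⟨q, hq⟩ := exists_sq hε w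
      have mq : q ∈ cells ε S := (mem_cells hε hS).2 ⟨w, hw, hq⟩
      by_cases hr : R gridZ (cells ε S) a q
      · exact Or.inl (Set.mem_biUnion (mem_coe.2 (mem_filter.2 ⟨mq, hr⟩)) hq)
      · exact Or.inr (Set.mem_biUnion (mem_coe.2 (mem_filter.2 ⟨mq, hr⟩)) hq))
    ⟨x, hx, Set.mem_biUnion (mem_coe.2 (mem_filter.2 ⟨ma, R.refl⟩)) ha⟩
    ⟨y, hy, Set.mem_biUnion (mem_coe.2 (mem_filter.2 ⟨hb, hab⟩)) hyb⟩
  simp only [Set.mem_iUnion, mem_filter, exists_prop] at hz1 hz2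
  obtain ⟨q, hq, hzq⟩ := hz1
  obtain ⟨q', hq', hzq'⟩ := hz2
  exact hq'.2 (hq.2.trans (joined hε hS hz hzq hzq'))

/-- A mesh below all distances of disjoint members of a finite family of compact sets. -/
theorem exists_mesh {ι : Type} [Finite ι] (S : ι → Set (ℝ × ℝ)) (hS : ∀ i, IsCompact (S i)) :
    ∃ ε > 0, ∀ i j, Disjoint (S i) (S j) → Disjoint (cells ε (S i)) (cells ε (S j)) := by
  have h : ∀ i j, ∀ᶠ ε in nhdsWithin (0 : ℝ) (Set.Ioi 0), Disjoint (S i) (S j) →
      ∀ x ∈ S i, ∀ y ∈ S j, ε < dist x y := by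
    intro i j
    by_cases hd : Disjoint (S i) (S j)
    · obtain ⟨r, hr, h⟩ := Metric.exists_pos_forall_lt_edist (hS i) (hS j).isClosed hd
      have : ∀ᶠ ε : ℝ in nhdsWithin (0 : ℝ) (Set.Ioi 0), ε < (r : ℝ) :=
        nhdsWithin_le_nhds (gt_mem_nhds (by exact_mod_cast hr))
      filter_upwards [this] with ε hε _ x hx y hy
      have := h x hx y hy
      rw [edist_nndist, ENNReal.coe_lt_coe] at this
      exact hε.trans (by exact_mod_cast this)
    · exact Filter.Eventually.of_forall fun _ h => absurd h hd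
  obtain ⟨ε, h1, h2⟩ := ((Filter.eventually_all.2 fun i => Filter.eventually_all.2 (h i)).and
    self_mem_nhdsWithin).exists
  refine ⟨ε, h2, fun i j hd => disjoint_left.2 fun q hq hq' => ?_⟩
  obtain ⟨x, hx, hxq⟩ := (mem_cells h2 (hS i)).1 hq
  obtain ⟨y, hy, hyq⟩ := (mem_cells h2 (hS j)).1 hq'
  exact absurd (dist_le hxq hyq) (not_le.2 (h1 i j hd x hx y hy))

/-- Compact connected sets for the vertices and for the middle parts of the edges give a model in
the lattice. -/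
theorem mdl_of_sets {W : Type} [Fintype W] (H : SimpleGraph W) (E : W → W → Prop)
    (hE : ∀ u v, H.Adj u v → E u v ∨ E v u) (K : W → Set (ℝ × ℝ)) (M : W → W → Set (ℝ × ℝ))
    (cK : ∀ w, IsCompact (K w)) (pK : ∀ w, IsPreconnected (K w)) (nK : ∀ w, (K w).Nonempty)
    (cM : ∀ u v, IsCompact (M u v)) (pM : ∀ u v, IsPreconnected (M u v))
    (dK : ∀ w w', w ≠ w' → Disjoint (K w) (K w'))
    (dM : ∀ u v u' v', E u v → E u' v' → u ≠ u' → Disjoint (M u v) (M u' v'))
    (dMK : ∀ u v w, E u v → w ≠ u → w ≠ v → Disjoint (M u v) (K w))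
    (ne : ∀ u v, E u v → u ≠ v)
    (m1 : ∀ u v, E u v → (M u v ∩ K u).Nonempty) (m2 : ∀ u v, E u v → (M u v ∩ K v).Nonempty) :
    Mdl H gridZ := by
  obtain ⟨ε, hε, hd⟩ := exists_mesh (ι := W ⊕ W × W) (Sum.elim K fun e => M e.1 e.2) (by
    rintro (w | e)
    · exact cK w
    · exact cM _ _)
  have hK : ∀ w w', w ≠ w' → Disjoint (cells ε (K w)) (cells ε (K w')) := fun w w' h =>
    hd (Sum.inl w) (Sum.inl w') (dK w w' h)
  have hT : ∀ u v, ∃ T : Finset (ℤ × ℤ), E u v → T ⊆ cells ε (M u v) ∧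
      Disjoint T (cells ε (K v)) ∧ Conn gridZ T ∧ (∃ a ∈ T, a ∈ cells ε (K u)) ∧
      Touch gridZ T (cells ε (K v)) := by
    intro u v
    by_cases h : E u v
    · obtain ⟨x, hx1, hx2⟩ := m1 u v h
      obtain ⟨y, hy1, hy2⟩ := m2 u v h
      obtain ⟨a, ha⟩ := exists_sq hε x
      obtain ⟨b, hb⟩ := exists_sq hε y
      have a1 : a ∈ cells ε (M u v) := (mem_cells hε (cM u v)).2 ⟨x, hx1, ha⟩
      have a2 : a ∈ cells ε (K u) := (mem_cells hε (cK u)).2 ⟨x, hx2, ha⟩
      have b1 : b ∈ cells ε (M u v) := (mem_cells hε (cM u v)).2 ⟨y, hy1, hb⟩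
      have b2 : b ∈ cells ε (K v) := (mem_cells hε (cK v)).2 ⟨y, hy2, hb⟩
      have a3 : a ∈ cells ε (M u v) \ cells ε (K v) :=
        mem_sdiff.2 ⟨a1, disjoint_left.1 (hK u v (ne u v h)) a2⟩
      obtain ⟨p, q, -, hq, hp', hq', hpq, hr⟩ :=
        ((cells_conn hε (cM u v) (pM u v) ⟨x, hx1⟩).2 a a1 b b1).exit a3
          (fun hb => (mem_sdiff.1 hb).2 b2)
      replace hr : R gridZ (cells ε (M u v) \ cells ε (K v)) a p :=
        hr.mono fun z hz => by simp only [mem_inter] at hz; exact hz.2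
      refine ⟨comp gridZ (cells ε (M u v) \ cells ε (K v)) a, fun _ =>
        ⟨comp_subset.trans sdiff_subset, disjoint_left.2 fun z hz =>
          (mem_sdiff.1 (comp_subset hz)).2, comp_conn a3,
          ⟨a, self_mem_comp a3, a2⟩, p, mem_comp.2 ⟨hr.mem a3, hr⟩, q, ?_, hpq⟩⟩
      by_contra hc
      exact hq (mem_sdiff.2 ⟨hq', hc⟩)
    · exact ⟨∅, fun h' => absurd h' h⟩
  choose T hT using hT
  have mem : ∀ u q, q ∈ cells ε (K u) ∪ (univ.filter (E u)).biUnion (T u) ↔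
      q ∈ cells ε (K u) ∨ ∃ v, E u v ∧ q ∈ T u v := by
    intro u q
    simp only [mem_union, mem_biUnion, mem_filter, mem_univ, true_and]
  have hTK : ∀ u v w q, E u v → w ≠ u → q ∈ T u v → q ∉ cells ε (K w) := by
    intro u v w q h hw hq
    by_cases e : w = v
    · subst e
      exact disjoint_left.1 (hT u w h).2.1 hq
    · exact disjoint_left.1 (hd (Sum.inr (u, v)) (Sum.inl w) (dMK u v w h hw e))
        ((hT u v h).1 hq)
  have tch : ∀ u v, E u v → Touch gridZ (cells ε (K u) ∪ (univ.filter (E u)).biUnion (T u))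
      (cells ε (K v) ∪ (univ.filter (E v)).biUnion (T v)) := fun u v h =>
    (hT u v h).2.2.2.2.mono (fun q hq => (mem u q).2 (Or.inr ⟨v, h, hq⟩)) subset_union_left
  refine ⟨fun u => cells ε (K u) ∪ (univ.filter (E u)).biUnion (T u), fun u => ?_,
    fun u u' hu => disjoint_left.2 fun q hq hq' => ?_, fun u v h => ?_⟩
  · have hc := cells_conn hε (cK u) (pK u) (nK u)
    obtain ⟨a, ha⟩ := hc.1
    refine Conn.of_center (mem_union_left _ ha) fun b hb => ?_
    rcases (mem u b).1 hb with hb | ⟨v, h, hb⟩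
    · exact hc.r ha hb subset_union_left
    · obtain ⟨c, c1, c2⟩ := (hT u v h).2.2.2.1
      exact (hc.r ha c2 subset_union_left).trans
        ((hT u v h).2.2.1.r c1 hb fun q hq => (mem u q).2 (Or.inr ⟨v, h, hq⟩))
  · rcases (mem u q).1 hq with hq | ⟨v, h, hq⟩ <;> rcases (mem u' q).1 hq' with hq' | ⟨v', h', hq'⟩
    · exact disjoint_left.1 (hK u u' hu) hq hq'
    · exact hTK u' v' u q h' hu hq' hq
    · exact hTK u v u' q h hu.symm hq hq'
    · exact disjoint_left.1 (hd (Sum.inr (u, v)) (Sum.inr (u', v')) (dM u v u' v' h h' hu))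
        ((hT u v h).1 hq) ((hT u' v' h').1 hq')
  · exact (hE u v h).elim (tch u v) fun h => (tch v u h).symm

/-- The part of a path between the times `a` and `b`. -/
def arc {x y : ℝ × ℝ} (γ : Path x y) (a b : ℝ) : Set (ℝ × ℝ) :=
  γ '' {t | a ≤ (t : ℝ) ∧ (t : ℝ) ≤ b}

theorem arc_eq {x y : ℝ × ℝ} (γ : Path x y) {a b : ℝ} (ha : 0 ≤ a) (hb : b ≤ 1) :
    arc γ a b = γ.extend '' Set.Icc a b := by
  ext z
  constructor
  · rintro ⟨t, ht, rfl⟩
    exact ⟨t, ht, γ.extend_extends' t⟩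
  · rintro ⟨t, ht, rfl⟩
    exact ⟨⟨t, ha.trans ht.1, ht.2.trans hb⟩, ht, (γ.extend_apply _).symm⟩

theorem arc_compact {x y : ℝ × ℝ} (γ : Path x y) {a b : ℝ} (ha : 0 ≤ a) (hb : b ≤ 1) :
    IsCompact (arc γ a b) := by
  rw [arc_eq γ ha hb]
  exact isCompact_Icc.image γ.continuous_extend

theorem arc_preconn {x y : ℝ × ℝ} (γ : Path x y) {a b : ℝ} (ha : 0 ≤ a) (hb : b ≤ 1) :
    IsPreconnected (arc γ a b) := by
  rw [arc_eq γ ha hb]
  exact isPreconnected_Icc.image _ γ.continuous_extend.continuousOn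

end Draw

open Draw in
theorem draw : DRAWStmt := by
  intro W _ H ⟨p, γ, hp, hi, hs, hv, hx⟩
  have Q : ∀ u v h w t, γ u v h t = p w → ((t : ℝ) = 0 ∧ w = u) ∨ ((t : ℝ) = 1 ∧ w = v) := by
    intro u v h w t e
    rcases hv u v h w t e with rfl | rfl
    · exact Or.inl ⟨by rw [hi w v h (e.trans (γ w v h).source.symm)]; rfl, rfl⟩
    · exact Or.inr ⟨by rw [hi u w h (e.trans (γ u w h).target.symm)]; rfl, rfl⟩
  have P : ∀ u v h u' v' h' s t, γ u v h s = γ u' v' h' t → (u = u' ∧ v = v') ∨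
      (u = v' ∧ v = u' ∧ (s : ℝ) = 1 - t) ∨
      ∃ w, (((s : ℝ) = 0 ∧ w = u) ∨ ((s : ℝ) = 1 ∧ w = v)) ∧
        (((t : ℝ) = 0 ∧ w = u') ∨ ((t : ℝ) = 1 ∧ w = v')) := by
    intro u v h u' v' h' s t e
    rcases hx u v h u' v' h' s t e with e' | ⟨w, hw⟩
    · rcases Sym2.eq_iff.1 e' with e' | ⟨rfl, rfl⟩
      · exact Or.inl e'
      · refine Or.inr (Or.inl ⟨rfl, rfl, ?_⟩)
        have : γ v u h' t = γ u v h (unitInterval.symm t) := by
          rw [hs u v h]; rfl
        rw [hi u v h (e.trans this)]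
        rfl
    · exact Or.inr (Or.inr ⟨w, Q _ _ _ _ _ hw, Q _ _ _ _ _ (e.symm.trans hw)⟩)
  let e := Fintype.equivFin W
  have mK : ∀ w z, z ∈ ({p w} ∪ ⋃ v, ⋃ h : H.Adj w v, arc (γ w v h) 0 (1 / 3)) ↔
      z = p w ∨ ∃ v h, ∃ t : unitInterval, (t : ℝ) ≤ 1 / 3 ∧ γ w v h t = z := by
    intro w z
    simp only [Set.mem_union, Set.mem_singleton_iff, Set.mem_iUnion, arc, Set.mem_image,
      Set.mem_ofPred_eq]
    exact or_congr_right (exists_congr fun v => exists_congr fun h => exists_congr fun t =>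
      and_congr_left fun _ => and_iff_right t.2.1)
  have mM : ∀ u v z, z ∈ (⋃ h : H.Adj u v, arc (γ u v h) (1 / 3) (2 / 3)) ↔
      ∃ h, ∃ t : unitInterval, (1 / 3 ≤ (t : ℝ) ∧ (t : ℝ) ≤ 2 / 3) ∧ γ u v h t = z := by
    intro u v z
    simp only [Set.mem_iUnion, arc, Set.mem_image, Set.mem_ofPred_eq]
  refine mdl_of_sets H (fun u v => H.Adj u v ∧ e u < e v) (fun u v h => ?_)
    (fun w => {p w} ∪ ⋃ v, ⋃ h : H.Adj w v, arc (γ w v h) 0 (1 / 3))
    (fun u v => ⋃ h : H.Adj u v, arc (γ u v h) (1 / 3) (2 / 3)) (fun w => ?_) (fun w => ?_)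
    (fun w => ⟨p w, Or.inl rfl⟩) (fun u v => ?_) (fun u v => ?_) (fun w w' hw => ?_)
    (fun u v u' v' h h' hu => ?_) (fun u v w h hu hv => ?_) (fun u v h => h.1.ne)
    (fun u v h => ?_) (fun u v h => ?_)
  · rcases lt_trichotomy (e u) (e v) with h' | h' | h'
    · exact Or.inl ⟨h, h'⟩
    · exact absurd (e.injective h') h.ne
    · exact Or.inr ⟨h.symm, h'⟩
  · exact isCompact_singleton.union (isCompact_iUnion fun v => isCompact_iUnion fun h =>
      arc_compact _ le_rfl (by norm_num))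
  · refine isPreconnected_of_forall (p w) fun z hz => ?_
    rcases hz with hz | hz
    · exact ⟨{p w}, Set.subset_union_left, rfl, hz, isPreconnected_singleton⟩
    · simp only [Set.mem_iUnion] at hz
      obtain ⟨v, h, hz⟩ := hz
      exact ⟨arc (γ w v h) 0 (1 / 3), fun y hy => Or.inr (Set.mem_iUnion.2 ⟨v,
        Set.mem_iUnion.2 ⟨h, hy⟩⟩), ⟨0, ⟨le_rfl, by norm_num⟩, (γ w v h).source⟩, hz,
        arc_preconn _ le_rfl (by norm_num)⟩
  · exact isCompact_iUnion fun h => arc_compact _ (by norm_num) (by norm_num)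
  · by_cases h : H.Adj u v
    · have : (⋃ h : H.Adj u v, arc (γ u v h) (1 / 3) (2 / 3)) = arc (γ u v h) (1 / 3) (2 / 3) := by
        simp [h]
      rw [this]
      exact arc_preconn _ (by norm_num) (by norm_num)
    · simpa [h] using isPreconnected_empty
  · refine Set.disjoint_left.2 fun z hz hz' => ?_
    rcases (mK w z).1 hz with rfl | ⟨v, h, s, hs, rfl⟩ <;>
      rcases (mK w' _).1 hz' with e' | ⟨v', h', t, ht, e'⟩
    · exact hw (hp e')
    · rcases Q _ _ _ _ _ e' with a | a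
      · exact hw a.2
      · linarith [a.1]
    · rcases Q _ _ _ _ _ e' with a | a
      · exact hw a.2.symm
      · linarith [a.1]
    · rcases P _ _ _ _ _ _ _ _ e' with a | a | ⟨w0, a | a, b | b⟩
      · exact hw a.1.symm
      · linarith [a.2.2]
      · exact hw (b.2.symm.trans a.2)
      · linarith [b.1]
      · linarith [a.1]
      · linarith [a.1]
  · refine Set.disjoint_left.2 fun z hz hz' => ?_
    obtain ⟨_, s, hs, rfl⟩ := (mM u v z).1 hz
    obtain ⟨_, t, ht, e'⟩ := (mM u' v' _).1 hz'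
    rcases P _ _ _ _ _ _ _ _ e' with a | a | ⟨w0, a | a, -⟩
    · exact hu a.1.symm
    · obtain ⟨rfl, rfl, -⟩ := a
      exact lt_asymm h.2 h'.2
    · linarith [a.1, ht.1]
    · linarith [a.1, ht.2]
  · refine Set.disjoint_left.2 fun z hz hz' => ?_
    obtain ⟨_, s, hs, rfl⟩ := (mM u v z).1 hz
    rcases (mK w _).1 hz' with e' | ⟨v', h', t, ht, e'⟩
    · rcases Q _ _ _ _ _ e' with a | a
      · exact hu a.2
      · exact hv a.2
    · rcases P _ _ _ _ _ _ _ _ e' with a | a | ⟨w0, -, b | b⟩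
      · exact hu a.1
      · exact hv a.1
      · linarith [b.1, hs.1]
      · linarith [b.1, hs.2]
  · refine ⟨γ u v h.1 ⟨1 / 3, by norm_num, by norm_num⟩,
      (mM u v _).2 ⟨h.1, _, ⟨le_rfl, by norm_num⟩, rfl⟩,
      (mK u _).2 (Or.inr ⟨v, h.1, _, le_rfl, rfl⟩)⟩
  · refine ⟨γ v u h.1.symm ⟨1 / 3, by norm_num, by norm_num⟩,
      (mM u v _).2 ⟨h.1, unitInterval.symm ⟨1 / 3, by norm_num, by norm_num⟩,
        ⟨by norm_num, by norm_num⟩, by rw [hs u v h.1]; rfl⟩,
      (mK v _).2 (Or.inr ⟨u, h.1.symm, _, le_rfl, rfl⟩)⟩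

theorem NFin.of_le {K K' nx nt : ℕ} {adj adj' : ℕ → ℕ → Prop} {pt pt' : ℕ → Fin 4 → Option ℕ}
    (h : NFin K nx nt adj pt) (hK : K ≤ K') (ha : ∀ x < nx, ∀ y < nx, adj' x y → adj x y)
    (hp : ∀ t < nt, ∀ i, pt' t i = pt t i) : NFin K' nx nt adj' pt' := by
  obtain ⟨φ, π, f1, f2, h1, h2, h3, h4, h5, h6⟩ := h
  exact ⟨φ, π, f1, f2, fun x hx => ⟨(h1 x hx).1, fun q hq => ⟨((h1 x hx).2 q hq).1.trans_le hK,
    ((h1 x hx).2 q hq).2.trans_le hK⟩⟩, h2, fun x hx y hy hn h => h3 x hx y hy hn (ha x hx y hy h),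
    fun t ht => ⟨(h4 t ht).1.trans_le hK, (h4 t ht).2.1.trans_le hK, (h4 t ht).2.2⟩, h5,
    fun t ht i x e => h6 t ht i x (hp t ht i ▸ e)⟩

theorem fin : FINStmt := by
  intro N
  let A : (Fin N → Fin N → Prop) → ℕ → ℕ → Prop := fun a x y =>
    ∃ (hx : x < N) (hy : y < N), a ⟨x, hx⟩ ⟨y, hy⟩
  let P : (Fin N → Fin 4 → Option (Fin N)) → ℕ → Fin 4 → Option ℕ := fun q t i =>
    if ht : t < N then (q ⟨t, ht⟩ i).map Fin.val else none
  have h : ∀ τ : Fin (N + 1) × Fin (N + 1) × (Fin N → Fin N → Prop) ×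
      (Fin N → Fin 4 → Option (Fin N)), ∃ K, (∃ K', NFin K' τ.1 τ.2.1 (A τ.2.2.1) (P τ.2.2.2)) →
        NFin K τ.1 τ.2.1 (A τ.2.2.1) (P τ.2.2.2) := by
    intro τ
    by_cases h : ∃ K', NFin K' τ.1 τ.2.1 (A τ.2.2.1) (P τ.2.2.2)
    · exact ⟨h.choose, fun _ => h.choose_spec⟩
    · exact ⟨0, fun h' => absurd h' h⟩
  choose k hk using h
  obtain ⟨K, hK⟩ := (Set.finite_range k).bddAbove
  refine ⟨K, fun nx hx nt ht adj pt hpt ⟨K', hK'⟩ => ?_⟩
  let a : Fin N → Fin N → Prop := fun x y => adj x y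
  let q : Fin N → Fin 4 → Option (Fin N) := fun t i =>
    (pt t i).bind fun x => if hx : x < N then some ⟨x, hx⟩ else none
  have ha : ∀ x < nx, ∀ y < nx, A a x y ↔ adj x y := fun x h1 y h2 =>
    ⟨fun ⟨_, _, h⟩ => h, fun h => ⟨by omega, by omega, h⟩⟩
  have hq : ∀ t < nt, ∀ i, P q t i = pt t i := by
    intro t h1 i
    simp only [P, q, dif_pos (show t < N by omega)]
    rcases e : pt t i with _ | x
    · rfl
    · have := hpt t h1 i x e
      simp [show x < N by omega]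
  exact (hk (⟨nx, by omega⟩, ⟨nt, by omega⟩, a, q)
    ⟨K', hK'.of_le le_rfl (fun x h1 y h2 => (ha x h1 y h2).1) hq⟩).of_le
    (hK ⟨_, rfl⟩) (fun x h1 y h2 => (ha x h1 y h2).2) fun t h1 i => (hq t h1 i).symm

end Pool.Agent.MP_7be75d_co.Gen

end MrgPart0

-- ======== part 1: formerly Pool.Agent.MP_7be75d_co.Gen.EP
section MrgPart1

/-! Modules EP, ROOT and SPINE of the project LTW. -/

namespace Pool.Agent.MP_7be75d_co.Gen

open Finset
open scoped Classical

namespace EP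

variable {W : Type} {H : SimpleGraph W}

theorem tw_induce [Fintype W] (H : SimpleGraph W) (U : Set W) :
    treewidth (H.induce U) ≤ treewidth H := by
  obtain ⟨ι, hι, T, B, hT, hB, hE, hc⟩ := hasTreeDecomp_treewidth H
  refine Nat.sInf_le ⟨ι, hι, T, fun i => (B i).subtype (· ∈ U), hT, fun v => ?_,
    fun u v huv => ?_, fun i => ?_⟩
  · have : {i | v ∈ (B i).subtype (· ∈ U)} = {i | v.1 ∈ B i} := by
      ext i; exact mem_subtype
    rw [this]
    exact hB v.1
  · obtain ⟨i, h1, h2⟩ := hE u.1 v.1 (by simpa using huv)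
    exact ⟨i, mem_subtype.2 h1, mem_subtype.2 h2⟩
  · rw [card_subtype]
    exact (card_filter_le _ _).trans (hc i)

theorem sep_of_tw [Fintype W] {k : ℕ} (h : treewidth H < k) : Sep H k := fun _ hX =>
  absurd ((le_treewidth_of_linked hX).trans (tw_induce H _)) (not_le.2 h)

/-- `c` disjoint subsets of `F` that are not acyclic. -/
def Pk (H : SimpleGraph W) (F : Finset W) (c : ℕ) : Prop :=
  ∃ S : ℕ → Finset W, (∀ i < c, S i ⊆ F ∧ ¬ Lov.Acyc H (S i)) ∧
    ∀ i < c, ∀ j < c, i ≠ j → Disjoint (S i) (S j)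

theorem Pk.add {F A : Finset W} {c : ℕ} (h : Pk H (F \ A) c) (hA : ¬ Lov.Acyc H (F ∩ A)) :
    Pk H F (c + 1) := by
  obtain ⟨S, h1, h2⟩ := h
  have hd : ∀ i < c, Disjoint (S i) (F ∩ A) := fun i hi =>
    disjoint_left.2 fun x hx hx' => (mem_sdiff.1 ((h1 i hi).1 hx)).2 (mem_inter.1 hx').2
  refine ⟨fun i => if i < c then S i else F ∩ A, fun i _ => ?_, fun i hi j hj hn => ?_⟩
  · by_cases h : i < c
    · simp only [h, if_true]
      exact ⟨(h1 i h).1.trans sdiff_subset, (h1 i h).2⟩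
    · simp only [h, if_false]
      exact ⟨inter_subset_left, hA⟩
  · by_cases h : i < c <;> by_cases h' : j < c <;> simp only [h, h', if_true, if_false]
    · exact h2 i h j h' hn
    · exact hd i h
    · exact (hd j h').symm
    · omega

theorem not_pk [Fintype W] {c : ℕ} (h : NoCyc H c) : ¬ Pk H univ (c + 1) := by
  rintro ⟨S, h1, h2⟩
  choose v p hp hs using fun i : Fin (c + 1) => Lov.exists_cycle (h1 i i.2).2
  exact h ⟨v, p, hp, fun i j hij x hx hx' =>
    disjoint_left.1 (h2 i i.2 j j.2 fun e => hij (Fin.ext e)) (hs i x hx) (hs j x hx')⟩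

theorem acyc_union {A B : Finset W} (hA : Lov.Acyc H A) (hB : Lov.Acyc H B)
    (hc : ∀ x ∈ A, ∀ y ∈ B, H.Adj x y → y ∈ A) : Lov.Acyc H (A ∪ B) := by
  intro T hT hne
  by_cases h : (T ∩ A).Nonempty
  · obtain ⟨w, hw, hl⟩ := hA _ inter_subset_right h
    have key : ∀ x ∈ T, H.Adj w x → x ∈ T ∩ A := fun x hx ha => mem_inter.2 ⟨hx,
      (mem_union.1 (hT hx)).elim id fun hb => hc w (mem_inter.1 hw).2 x hb ha⟩
    exact ⟨w, (mem_inter.1 hw).1, fun x hx y hy h1 h2 => hl x (key x hx h1) y (key y hy h2) h1 h2⟩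
  · exact hB T (fun x hx => (mem_union.1 (hT hx)).resolve_left fun ha =>
      h ⟨x, mem_inter.2 ⟨hx, ha⟩⟩) hne

theorem hit [Fintype W] {m : ℕ} {X0 : Finset W} (h : RD H m univ X0) (c : ℕ) :
    ∀ F : Finset W, ¬ Pk H F (c + 1) → ∃ X : Finset W, X.card ≤ c * m ∧ Lov.Acyc H (F \ X) := by
  obtain ⟨ι, hι, r, p, ρ, B, h1, -, h3, -, h5, h6⟩ := h
  let Be : ι → ι → Prop := Relation.ReflTransGen fun a b => a ≠ r ∧ b = p a
  let U : ι → Finset W := fun t => (univ.filter fun i => Be i t).biUnion B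
  have hU : ∀ t v, v ∈ U t ↔ ∃ i, Be i t ∧ v ∈ B i := fun t v => by simp [U]
  have hroot : ∀ n i, ρ i = n → Be i r := by
    intro n
    induction n using Nat.strong_induction_on with
    | _ n ih =>
      intro i hn
      by_cases hi : i = r
      · subst hi; exact Relation.ReflTransGen.refl
      · exact Relation.ReflTransGen.head ⟨hi, rfl⟩ (ih _ (hn ▸ h1 i hi) _ rfl)
  have hkey : ∀ s, s ≠ r → ∀ v ∈ U s, v ∉ B (p s) → ∀ j, v ∈ B j → Be j s := by
    intro s hs v hv hvp j hj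
    obtain ⟨i, hi, hvi⟩ := (hU s v).1 hv
    obtain ⟨t, -, ht⟩ := h5 v (mem_univ _)
    have up : ∀ n j, ρ j = n → v ∈ B j → Be j t := by
      intro n
      induction n using Nat.strong_induction_on with
      | _ n ih =>
        intro j hn hj
        by_cases e : j = t
        · subst e; exact Relation.ReflTransGen.refl
        · obtain ⟨a, b⟩ := ht j hj e
          exact Relation.ReflTransGen.head ⟨a, rfl⟩ (ih _ (hn ▸ h1 j a) _ rfl b)
    have ch : ∀ s, Be i s → Be t s ∨ v ∈ B s := by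
      intro s hs
      induction hs with
      | refl => exact Or.inr hvi
      | @tail b c _ hbc ih =>
        rcases ih with ih | ih
        · exact Or.inl (ih.tail hbc)
        · by_cases e : b = t
          · exact Or.inl (Relation.ReflTransGen.single (e ▸ hbc))
          · exact Or.inr (hbc.2 ▸ (ht b ih e).2)
    refine (up _ j rfl hj).trans ?_
    rcases ch s hi with h | h
    · exact h
    · by_cases e : s = t
      · subst e; exact Relation.ReflTransGen.refl
      · exact absurd (ht s h e).2 hvp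
  have hchild : ∀ t v, v ∈ U t → v ∉ B t → ∃ s, s ≠ r ∧ p s = t ∧ v ∈ U s := by
    intro t v hv hvt
    obtain ⟨i, hi, hvi⟩ := (hU t v).1 hv
    rcases Relation.ReflTransGen.cases_tail hi with e | ⟨s, hs, h⟩
    · exact absurd (e ▸ hvi) hvt
    · exact ⟨s, h.1, h.2.symm, (hU s v).2 ⟨i, hs, hvi⟩⟩
  have hedge : ∀ s, s ≠ r → ∀ v ∈ U s, v ∉ B (p s) → ∀ y, H.Adj v y → y ∈ U s := by
    intro s hs v hv hvp y hy
    obtain ⟨j, a, b⟩ := h6 v (mem_univ _) y (mem_univ _) hy
    exact (hU s y).2 ⟨j, hkey s hs v hv hvp j a, b⟩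
  induction c with
  | zero =>
    intro F hF
    refine ⟨∅, by simp, ?_⟩
    by_contra hc
    exact hF ⟨fun _ => F, fun _ _ => ⟨subset_rfl, by simpa using hc⟩, fun i hi j hj => by omega⟩
  | succ c ih =>
    intro F hF
    by_cases hA : Lov.Acyc H F
    · exact ⟨∅, by simp, by simpa using hA⟩
    obtain ⟨t, ht, hmax⟩ := exists_max_of (p := fun t => ¬ Lov.Acyc H (F ∩ U t)) ρ
      (univ.sup ρ) (fun a _ => le_sup (f := ρ) (mem_univ a)) ⟨r, by
        have : U r = univ := eq_univ_of_forall fun v => by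
          obtain ⟨t, ht, -⟩ := h5 v (mem_univ _)
          exact (hU r v).2 ⟨t, hroot _ t rfl, ht⟩
        simpa [this] using hA⟩
    obtain ⟨X, hX, hX'⟩ := ih (F \ U t) fun h => hF (h.add ht)
    refine ⟨B t ∪ X, (card_union_le _ _).trans (by have := h3 t; nlinarith), ?_⟩
    have a1 : Lov.Acyc H ((F ∩ U t) \ B t) := by
      by_contra hc
      obtain ⟨T, hT, ⟨v, hv⟩, hd⟩ := Lov.not_acyc hc
      obtain ⟨s, hs, hps, hvs⟩ := hchild t v (mem_inter.1 (mem_sdiff.1 (hT hv)).1).2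
        (mem_sdiff.1 (hT hv)).2
      have := hmax s (Lov.not_acyc_of (T := T ∩ U s) (fun x hx => mem_inter.2
        ⟨(mem_inter.1 (mem_sdiff.1 (hT (mem_inter.1 hx).1)).1).1, (mem_inter.1 hx).2⟩)
        ⟨v, mem_inter.2 ⟨hv, hvs⟩⟩ fun w hw => by
          obtain ⟨x, hx, y, hy, e1, e2, e3⟩ := hd w (mem_inter.1 hw).1
          have hw' : w ∉ B (p s) := hps ▸ (mem_sdiff.1 (hT (mem_inter.1 hw).1)).2
          exact ⟨x, mem_inter.2 ⟨hx, hedge s hs w (mem_inter.1 hw).2 hw' x e1⟩, y,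
            mem_inter.2 ⟨hy, hedge s hs w (mem_inter.1 hw).2 hw' y e2⟩, e1, e2, e3⟩)
      have h7 := h1 s hs
      rw [hps] at h7
      omega
    refine (acyc_union a1 hX' fun x hx y hy hxy => ?_).mono fun x hx => ?_
    · obtain ⟨s, hs, hps, hxs⟩ := hchild t x (mem_inter.1 (mem_sdiff.1 hx).1).2 (mem_sdiff.1 hx).2
      obtain ⟨i, hi, hyi⟩ := (hU s y).1 (hedge s hs x hxs (hps ▸ (mem_sdiff.1 hx).2) y hxy)
      exact absurd ((hU t y).2 ⟨i, hi.tail ⟨hs, hps.symm⟩, hyi⟩)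
        (mem_sdiff.1 (mem_sdiff.1 hy).1).2
    · simp only [mem_sdiff, mem_union, mem_inter, not_or] at hx ⊢
      tauto

/-- The set `S` has a neighbour of `a` and a neighbour of `b`. -/
def Bad (H : SimpleGraph W) (a b : W) (S : Finset W) : Prop :=
  (∃ x ∈ S, H.Adj x a) ∧ ∃ x ∈ S, H.Adj x b

theorem Bad.mono {a b : W} {S S' : Finset W} (h : Bad H a b S) (hS : S ⊆ S') : Bad H a b S' :=
  ⟨h.1.imp fun _ h => ⟨hS h.1, h.2⟩, h.2.imp fun _ h => ⟨hS h.1, h.2⟩⟩

/-- The vertices in bad components. -/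
noncomputable def bads (H : SimpleGraph W) (a b : W) (T I : Finset W) : Finset W :=
  (T \ I).filter fun v => Bad H a b (comp H (T \ I) v)

theorem disj_comp {T : Finset W} (hA : Lov.Acyc H T) {w x y : W} (hw : w ∈ T) (hx : x ∈ T)
    (hy : y ∈ T) (h1 : H.Adj w x) (h2 : H.Adj w y) (hn : x ≠ y) :
    Disjoint (comp H (T.erase w) x) (comp H (T.erase w) y) := by
  rw [disjoint_left]
  intro z hz hz'
  have hx' : x ∈ T.erase w := mem_erase.2 ⟨h1.ne.symm, hx⟩
  have hy' : y ∈ T.erase w := mem_erase.2 ⟨h2.ne.symm, hy⟩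
  refine Lov.loop1 (u := w) (comp_conn hx') (fun h => by simpa using comp_subset h)
    (Lov.two_le_nb.2 ⟨x, self_mem_comp hx', y, ?_, hn, h1, h2⟩)
    (hA.mono (insert_subset hw (comp_subset.trans (erase_subset _ _))))
  rw [← comp_eq hz, comp_eq hz']
  exact self_mem_comp hy'

theorem improve {T : Finset W} {a b c0 : W} {L i : ℕ} {f : ℕ → W} (hf : IsP H T L f) (hi : i ≤ L)
    (hc : c0 ∈ bads H a b T ((range (L + 1)).image f)) (ha : H.Adj (f i) c0)
    (hb : i < L → ¬ Bad H a b (comp H (T.erase (f i)) (f (i + 1)))) :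
    ∃ L' f', IsP H T L' f' ∧ (bads H a b T ((range (L' + 1)).image f')).card <
      (bads H a b T ((range (L + 1)).image f)).card := by
  have hc1 := mem_sdiff.1 (mem_filter.1 hc).1
  have hc2 : ∀ j ≤ L, f j ≠ c0 := fun j hj e =>
    hc1.2 (mem_image.2 ⟨j, mem_range.2 (by omega), e⟩)
  let g : ℕ → W := fun j => if j ≤ i then f j else c0
  have g1 : ∀ j ≤ i, g j = f j := fun j hj => if_pos hj
  have g2 : g (i + 1) = c0 := if_neg (by omega)
  refine ⟨i + 1, g, ⟨fun j hj => ?_, fun j hj => ?_, fun j hj k hk e => ?_⟩, card_lt_card ⟨?_, ?_⟩⟩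
  · by_cases h : j ≤ i
    · rw [g1 j h]; exact hf.mem j (by omega)
    · rw [show j = i + 1 by omega, g2]; exact hc1.1
  · by_cases h : j + 1 ≤ i
    · rw [g1 j (by omega), g1 _ h]; exact hf.adj j (by omega)
    · obtain rfl : j = i := by omega
      rw [g1 j le_rfl, g2]; exact ha
  · by_cases h : j ≤ i <;> by_cases h' : k ≤ i
    · rw [g1 j h, g1 k h'] at e; exact hf.inj j (by omega) k (by omega) e
    · rw [g1 j h, show k = i + 1 by omega, g2] at e; exact absurd e (hc2 j (by omega))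
    · rw [g1 k h', show j = i + 1 by omega, g2] at e; exact absurd e.symm (hc2 k (by omega))
    · omega
  · intro v hv
    obtain ⟨hv1, hv2⟩ := mem_filter.1 hv
    have hK : comp H (T \ (range (i + 1 + 1)).image g) v ⊆ T \ (range (L + 1)).image f := by
      intro z hz
      have hz1 := mem_sdiff.1 (comp_subset hz)
      refine mem_sdiff.2 ⟨hz1.1, fun h => ?_⟩
      obtain ⟨j, hj, rfl⟩ := mem_image.1 h
      rw [mem_range] at hj
      have hij : i < j := by
        by_contra e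
        exact hz1.2 (mem_image.2 ⟨j, mem_range.2 (by omega), g1 j (by omega)⟩)
      refine hb (by omega) (hv2.mono ?_)
      have hs : (Icc (i + 1) j).image f ⊆ T.erase (f i) := fun y hy => by
        obtain ⟨k, hk, rfl⟩ := mem_image.1 hy
        rw [mem_Icc] at hk
        exact mem_erase.2 ⟨fun e => by have := hf.inj k (by omega) i hi e; omega,
          hf.mem k (by omega)⟩
      have hm : f (i + 1) ∈ (Icc (i + 1) j).image f := mem_image_of_mem f (mem_Icc.2 ⟨le_rfl, hij⟩)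
      have hj' : f j ∈ comp H (T.erase (f i)) (f (i + 1)) :=
        (conn_segment (G := H) (f := f) hij fun k _ h2 => hf.adj k (by omega)).subset_comp hs hm
          (self_mem_comp (hs hm)) (mem_image_of_mem f (mem_Icc.2 ⟨hij, le_rfl⟩))
      refine (comp_conn hv1).subset_comp (fun y hy => ?_) hz hj'
      have hy1 := mem_sdiff.1 (comp_subset hy)
      exact mem_erase.2 ⟨fun e => hy1.2 (mem_image.2 ⟨i, mem_range.2 (by omega),
        (g1 i le_rfl).trans e.symm⟩), hy1.1⟩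
    have hv3 := hK (self_mem_comp hv1)
    exact mem_filter.2 ⟨hv3, hv2.mono ((comp_conn hv1).subset_comp hK (self_mem_comp hv1)
      (self_mem_comp hv3))⟩
  · intro h
    exact (mem_sdiff.1 (mem_filter.1 (h hc)).1).2 (mem_image.2 ⟨i + 1, by simp, g2⟩)

theorem good_path {T : Finset W} {a b : W} (hT : Conn H T) (hA : Lov.Acyc H T) (ha : a ∉ T)
    (hb : b ∉ T) (hab : a ≠ b) (hK : NoK33 H) :
    ∃ L f, IsP H T L f ∧ bads H a b T ((range (L + 1)).image f) = ∅ := by
  obtain ⟨t0, ht0⟩ := hT.1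
  obtain ⟨⟨L, f⟩, hf, hmin⟩ := exists_min_of (p := fun s : ℕ × (ℕ → W) => IsP H T s.1 s.2)
    (fun s => (bads H a b T ((range (s.1 + 1)).image s.2)).card)
    ⟨⟨0, fun _ => t0⟩, ⟨fun _ _ => ht0, by simp, by simp⟩⟩
  simp only at hf hmin
  refine ⟨L, f, hf, ?_⟩
  by_contra hne
  obtain ⟨v, hv⟩ := nonempty_iff_ne_empty.2 hne
  obtain ⟨hv1, hv2⟩ := mem_filter.1 hv
  obtain ⟨c0, w, hc0, hw, -, hwT, hcw⟩ := hT.exit (mem_sdiff.1 hv1).1 (self_mem_comp (G := H) hv1)
    (hf.mem 0 (by omega)) fun h => (mem_sdiff.1 (comp_subset h)).2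
      (mem_image_of_mem f (by simp))
  obtain ⟨i, hi, rfl⟩ : ∃ i ≤ L, f i = w := by
    by_contra e
    refine hw (comp_closed hc0 (mem_sdiff.2 ⟨hwT, fun h => e ?_⟩) hcw)
    obtain ⟨j, hj, hj'⟩ := mem_image.1 h
    exact ⟨j, by simpa [Nat.lt_succ_iff] using hj, hj'⟩
  have hc1 := comp_subset hc0
  have hc : c0 ∈ bads H a b T ((range (L + 1)).image f) :=
    mem_filter.2 ⟨hc1, by rwa [comp_eq hc0]⟩
  have hc2 : ∀ j ≤ L, f j ≠ c0 := fun j hj e =>
    (mem_sdiff.1 hc1).2 (mem_image.2 ⟨j, mem_range.2 (by omega), e⟩)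
  by_cases h1 : i < L ∧ Bad H a b (comp H (T.erase (f i)) (f (i + 1)))
  swap
  · obtain ⟨L', f', p1, p2⟩ := improve hf hi hc hcw.symm fun h h' => h1 ⟨h, h'⟩
    exact absurd (hmin ⟨L', f'⟩ p1) (not_le.2 p2)
  by_cases h2 : 0 < i ∧ Bad H a b (comp H (T.erase (f i)) (f (i - 1)))
  swap
  · have he : (range (L + 1)).image (fun j => f (L - j)) = (range (L + 1)).image f := by
      ext x
      simp only [mem_image, mem_range]
      exact ⟨fun ⟨j, _, e⟩ => ⟨L - j, by omega, e⟩,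
        fun ⟨j, hj, e⟩ => ⟨L - j, by omega, by rwa [show L - (L - j) = j by omega]⟩⟩
    have e1 : L - (L - i) = i := by omega
    obtain ⟨L', f', p1, p2⟩ := improve (a := a) (b := b) (c0 := c0) (L := L) (i := L - i)
      (f := fun j => f (L - j))
      ⟨fun j _ => hf.mem _ (by omega), fun j hj => by
        have := hf.adj (L - (j + 1)) (by omega)
        rw [show L - (j + 1) + 1 = L - j by omega] at this
        exact this.symm, fun j hj k hk e => by
        have := hf.inj _ (by omega) _ (by omega) e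
        omega⟩ (by omega) (he ▸ hc) (by simpa only [e1] using hcw.symm) fun h h' => h2
        ⟨by omega, by simpa only [e1, show L - (L - i + 1) = i - 1 by omega] using h'⟩
    rw [he] at p2
    exact absurd (hmin ⟨L', f'⟩ p1) (not_le.2 p2)
  have a1 : H.Adj (f i) (f (i + 1)) := hf.adj i h1.1
  have a2 : H.Adj (f i) (f (i - 1)) := by
    have := hf.adj (i - 1) (by omega)
    rw [show i - 1 + 1 = i by omega] at this
    exact this.symm
  have m1 := hf.mem (i + 1) (by omega)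
  have m2 := hf.mem (i - 1) (by omega)
  have m3 := (mem_sdiff.1 hc1).1
  have key : ∀ x ∈ T, H.Adj (f i) x → Bad H a b (comp H (T.erase (f i)) x) →
      (Disjoint {a} (comp H (T.erase (f i)) x) ∧ Touch H {a} (comp H (T.erase (f i)) x)) ∧
      (Disjoint {b} (comp H (T.erase (f i)) x) ∧ Touch H {b} (comp H (T.erase (f i)) x)) ∧
      Disjoint {f i} (comp H (T.erase (f i)) x) ∧ Touch H {f i} (comp H (T.erase (f i)) x) := by
    rintro x hx hax ⟨⟨y, hy, hy'⟩, z, hz, hz'⟩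
    exact ⟨⟨disjoint_singleton_left.2 fun h => ha (mem_erase.1 (comp_subset h)).2,
      a, mem_singleton_self _, y, hy, hy'.symm⟩,
      ⟨disjoint_singleton_left.2 fun h => hb (mem_erase.1 (comp_subset h)).2,
      b, mem_singleton_self _, z, hz, hz'.symm⟩,
      disjoint_singleton_left.2 fun h => (mem_erase.1 (comp_subset h)).1 rfl,
      f i, mem_singleton_self _, x, self_mem_comp (mem_erase.2 ⟨hax.ne.symm, hx⟩), hax⟩
  have b3 : Bad H a b (comp H (T.erase (f i)) c0) := (mem_filter.1 hc).2.mono (comp_mono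
    fun y hy => mem_erase.2 ⟨fun e => (mem_sdiff.1 hy).2
      (mem_image.2 ⟨i, mem_range.2 (by omega), e.symm⟩), (mem_sdiff.1 hy).1⟩)
  refine hK.six (A0 := {a}) (A1 := {b}) (A2 := {f i})
    (B0 := comp H (T.erase (f i)) (f (i + 1))) (B1 := comp H (T.erase (f i)) (f (i - 1)))
    (B2 := comp H (T.erase (f i)) c0)
    ⟨Conn.singleton _, Conn.singleton _, Conn.singleton _⟩
    ⟨comp_conn (mem_erase.2 ⟨a1.ne.symm, m1⟩), comp_conn (mem_erase.2 ⟨a2.ne.symm, m2⟩),
      comp_conn (mem_erase.2 ⟨hcw.ne, m3⟩)⟩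
    ⟨disjoint_singleton.2 hab, disjoint_singleton.2 fun e => ha (e ▸ hwT),
      disjoint_singleton.2 fun e => hb (e ▸ hwT)⟩
    ⟨disj_comp hA hwT m1 m2 a1 a2 fun e => ?_,
      disj_comp hA hwT m1 m3 a1 hcw.symm (hc2 _ (by omega)),
      disj_comp hA hwT m2 m3 a2 hcw.symm (hc2 _ (by omega))⟩ ?_
  · have := hf.inj _ (by omega) _ (by omega) e
    omega
  · rintro B (rfl | rfl | rfl)
    · exact key _ m1 a1 h1.2
    · exact key _ m2 a2 h2.2
    · exact key _ m3 hcw.symm b3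

theorem induced {T : Finset W} (hA : Lov.Acyc H T) {L : ℕ} {f : ℕ → W} (hf : IsP H T L f)
    {i j : ℕ} (hj : j ≤ L) (hij : i + 1 < j) : ¬ H.Adj (f i) (f j) := fun h =>
  Lov.loop1 (u := f i) (conn_segment (G := H) (f := f) hij.le fun k _ _ => hf.adj k (by omega))
    (fun hm => by
      obtain ⟨k, hk, e⟩ := mem_image.1 hm
      rw [mem_Icc] at hk
      have := hf.inj k (by omega) i (by omega) e
      omega)
    (Lov.two_le_nb.2 ⟨f (i + 1), mem_image_of_mem f (mem_Icc.2 ⟨le_rfl, hij.le⟩), f j,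
      mem_image_of_mem f (mem_Icc.2 ⟨hij.le, le_rfl⟩),
      fun e => by have := hf.inj _ (by omega) _ hj e; omega, hf.adj i (by omega), h⟩)
    (hA.mono (insert_subset (hf.mem i (by omega)) fun y hy => by
      obtain ⟨k, hk, rfl⟩ := mem_image.1 hy
      exact hf.mem k ((mem_Icc.1 hk).2.trans hj)))

end EP

theorem ep : EPStmt := by
  intro c
  obtain ⟨ρ, lam, h⟩ := pos_of_treewidth (2 * (c + 1))
  refine ⟨c * (3 * (lam * 8) + 2), fun {W} _ H hH => ?_⟩
  have hp := EP.not_pk hH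
  have htw : treewidth H < lam * 8 := by
    by_contra hc
    obtain ⟨w, σ, C, c1, c2, -, -⟩ := h H 8 (by omega) (not_lt.1 hc)
    refine hp ⟨fun i => (C (2 * i)).reg ∪ (C (2 * i + 1)).reg,
      fun i hi => ⟨subset_univ _, ?_⟩, fun i hi j hj hn => ?_⟩
    · obtain ⟨Cy, e, p1, p2, p3, p4⟩ := cycle_links (m := 3) (c2.shift (2 * i) 2 (by omega))
        (by rw [Fintype.card_fin]; omega)
      exact Lov.k3 (p1 0 (by omega)).2.1 (p1 1 (by omega)).2.1 (p1 2 (by omega)).2.1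
        (p1 0 (by omega)).1 (p1 1 (by omega)).1 (p1 2 (by omega)).1
        (p2 0 (by omega) 1 (by omega) (by omega)) (p2 0 (by omega) 2 (by omega) (by omega))
        (p2 1 (by omega) 2 (by omega) (by omega)) (p3 0 (by omega)) (p4 2 rfl) (p3 1 (by omega))
    · simp only [disjoint_union_left, disjoint_union_right]
      refine ⟨⟨?_, ?_⟩, ?_, ?_⟩ <;> exact c2.disj _ (by omega) _ (by omega) (by omega)
  have hr := rd_of_sep (EP.sep_of_tw htw) _ ∅ univ rfl (by simp) (by simp) (by simp) (by simp)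
  rw [empty_union] at hr
  exact EP.hit hr c univ hp

theorem root : ROOTStmt := by
  intro W H F hF
  induction hn : F.card using Nat.strong_induction_on generalizing F with
  | _ n ih =>
  rcases F.eq_empty_or_nonempty with rfl | hne
  · exact ⟨id, fun _ => 0, by simp, by simp⟩
  obtain ⟨w, hw, hl⟩ := hF F subset_rfl hne
  obtain ⟨par, dep, h1, h2⟩ := ih _ (hn ▸ card_erase_lt_of_mem hw) (F.erase w)
    (hF.mono (erase_subset _ _)) rfl
  obtain ⟨x, d, hx1, hx2⟩ : ∃ (x : W) (d : ℕ), (0 < d → x ∈ F.erase w ∧ H.Adj w x ∧ dep x + 1 = d) ∧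
      ∀ v ∈ F, H.Adj w v → 0 < d ∧ v = x := by
    by_cases h : ∃ x ∈ F, H.Adj w x
    · obtain ⟨x, hx, ha⟩ := h
      exact ⟨x, dep x + 1, fun _ => ⟨mem_erase.2 ⟨ha.ne.symm, hx⟩, ha, rfl⟩,
        fun v hv hv' => ⟨by omega, hl v hv x hx hv' ha⟩⟩
    · exact ⟨w, 0, fun h => by omega, fun v hv hv' => absurd ⟨v, hv, hv'⟩ h⟩
  refine ⟨Function.update par w x, Function.update dep w d, fun v hv hd => ?_,
    fun u hu v hv huv => ?_⟩
  · by_cases e : v = w
    · subst e
      rw [Function.update_self] at hd ⊢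
      obtain ⟨a, b, c⟩ := hx1 hd
      rw [Function.update_self, Function.update_of_ne (mem_erase.1 a).1]
      exact ⟨(mem_erase.1 a).2, b, c⟩
    · rw [Function.update_of_ne e] at hd ⊢
      obtain ⟨a, b, c⟩ := h1 v (mem_erase.2 ⟨e, hv⟩) hd
      rw [Function.update_of_ne e, Function.update_of_ne (mem_erase.1 a).1]
      exact ⟨(mem_erase.1 a).2, b, c⟩
  · by_cases e : u = w
    · subst e
      simpa using Or.inl (hx2 v hv huv)
    by_cases e' : v = w
    · subst e'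
      simpa using Or.inr (hx2 u hu huv.symm)
    simp only [Function.update_of_ne e, Function.update_of_ne e']
    exact h2 u (mem_erase.2 ⟨e, hu⟩) v (mem_erase.2 ⟨e', hv⟩) huv

theorem spine : SPINEStmt := by
  intro W H T a b hT hA ha hb hab hK
  obtain ⟨L, f, hf, he⟩ := EP.good_path hT hA ha hb hab hK
  have hI : (range (L + 1)).image f ⊆ T := fun y hy => by
    obtain ⟨k, hk, rfl⟩ := mem_image.1 hy
    exact hf.mem k (by simpa [Nat.lt_succ_iff] using hk)
  have hc : Conn H ((range (L + 1)).image f) := by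
    have := conn_segment (G := H) (f := f) (Nat.zero_le L) fun k _ h => hf.adj k h
    rwa [← Nat.range_succ_eq_Icc_zero] at this
  refine ⟨L + 1, f, fun w => decide (∃ x ∈ comp H (T \ (range (L + 1)).image f) w, H.Adj x b),
    ⟨by omega, fun i hi => hf.mem i (by omega), fun i hi j hj => hf.inj i (by omega) j (by omega),
      fun i hi j hj h => ?_, fun x hx y hy hx' hy' h => ?_,
      hI, fun S h1 h2 h3 => Lov.peel_conn (hA.mono h2) h1 hc h3⟩, fun w hw hw' => ⟨fun h => ?_,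
      fun h => ?_⟩⟩
  · by_contra hc
    rcases lt_trichotomy i j with e | e | e
    · exact EP.induced hA hf (by omega) (by omega) h
    · exact h.ne (e ▸ rfl)
    · exact EP.induced hA hf (by omega) (by omega) h.symm
  · have := comp_eq (comp_closed (self_mem_comp (G := H) (mem_sdiff.2 ⟨hx, hx'⟩))
      (mem_sdiff.2 ⟨hy, hy'⟩) h)
    rw [decide_eq_decide, this]
  · rw [decide_eq_false_iff_not]
    intro h'
    have : w ∈ EP.bads H a b T ((range (L + 1)).image f) := mem_filter.2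
      ⟨mem_sdiff.2 ⟨hw, hw'⟩, ⟨w, self_mem_comp (mem_sdiff.2 ⟨hw, hw'⟩), h⟩, h'⟩
    simp [he] at this
  · simp only [decide_eq_true_eq]
    exact ⟨w, self_mem_comp (mem_sdiff.2 ⟨hw, hw'⟩), h⟩

end Pool.Agent.MP_7be75d_co.Gen

end MrgPart1

-- ======== part 2: formerly Pool.Agent.MP_7be75d_co.Gen.PortB
section MrgPart2

/-! Module PORTB of the project LTW: segments from the cut condition. -/

namespace Pool.Agent.MP_7be75d_co.Gen

open Finset
open scoped Classical

namespace PortB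

variable {W : Type} {M : SimpleGraph W} {S0 : Finset W} {IsP : W → ℕ → Prop}

/-- A segment: a vertex set with two ends. -/
abbrev Sg (W : Type) : Type := Finset W × (Bool → W)

/-- Blocks reached from the sources through at most `n` segments of `F`. -/
def Lv (IsP : W → ℕ → Prop) (F : Finset (Sg W)) : ℕ → ℕ → Prop
  | 0, _ => False
  | n + 1, b => ∃ e ∈ F, ∃ j, IsP (e.2 j) b ∧ ∀ b', IsP (e.2 (!j)) b' → Lv IsP F n b'

theorem Lv.mono {F F' : Finset (Sg W)} (h : F ⊆ F') : ∀ n b, Lv IsP F n b → Lv IsP F' n b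
  | 0, _ => id
  | n + 1, _ => fun ⟨e, h1, j, h2, h3⟩ => ⟨e, h h1, j, h2, fun b' hb => Lv.mono h n b' (h3 b' hb)⟩

theorem rank (F : Finset (Sg W)) : ∃ r : ℕ → ℕ, ∀ b, (∃ n, Lv IsP F n b) →
    ∃ e ∈ F, ∃ j, IsP (e.2 j) b ∧ ∀ b', IsP (e.2 (!j)) b' → r b' < r b := by
  refine ⟨fun b => sInf {n | Lv IsP F n b}, fun b hb => ?_⟩
  have h1 : Lv IsP F (sInf {n | Lv IsP F n b}) b := Nat.sInf_mem hb
  rcases h : sInf {n | Lv IsP F n b} with _ | n
  · rw [h] at h1; exact h1.elim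
  · rw [h] at h1
    obtain ⟨e, h2, j, h3, h4⟩ := h1
    refine ⟨e, h2, j, h3, fun b' hb' => ?_⟩
    show sInf {n | Lv IsP F n b'} < sInf {n | Lv IsP F n b}
    rw [h]
    exact Nat.lt_succ_of_le (Nat.sInf_le (h4 b' hb'))

/-- The number of ends at the block `b`. -/
noncomputable def ends (IsP : W → ℕ → Prop) (F : Finset (Sg W)) (b : ℕ) : ℕ :=
  ∑ e ∈ F, ∑ j : Bool, if IsP (e.2 j) b then 1 else 0

/-- Edges of `M` and jumps between ports of one block. -/
def mix (M : SimpleGraph W) (IsP : W → ℕ → Prop) : SimpleGraph W :=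
  SimpleGraph.fromRel fun a a' => M.Adj a a' ∨ ∃ b, IsP a b ∧ IsP a' b

theorem mix_adj {a a' : W} (h : (mix M IsP).Adj a a') : M.Adj a a' ∨ ∃ b, IsP a b ∧ IsP a' b := by
  rcases ((SimpleGraph.fromRel_adj _ _ _).1 h).2 with (h | h) | (h | ⟨b, h1, h2⟩)
  exacts [Or.inl h, Or.inr h, Or.inl h.symm, Or.inr ⟨b, h2, h1⟩]

/-- A good family of segments inside `A`. -/
structure Fam (M : SimpleGraph W) (S0 : Finset W) (IsP : W → ℕ → Prop) (A : Finset W)
    (F : Finset (Sg W)) : Prop where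
  sub : ∀ e ∈ F, e.1 ⊆ A
  conn : ∀ e ∈ F, Conn M e.1
  mem : ∀ e ∈ F, ∀ j, e.2 j ∈ e.1
  ne : ∀ e ∈ F, e.2 false ≠ e.2 true
  typ : ∀ e ∈ F, ∀ j, e.2 j ∈ S0 ∨ ∃ b, IsP (e.2 j) b
  disj : ∀ e ∈ F, ∀ e' ∈ F, e ≠ e' → Disjoint e.1 e'.1

theorem Fam.add {A A' T : Finset W} {F : Finset (Sg W)} (h : Fam M S0 IsP A' F) (hA : A' ⊆ A)
    (hT : T ⊆ A) (hc : Conn M T) (hd : Disjoint T A') {x y : W} (hx : x ∈ T) (hy : y ∈ T)
    (hxy : x ≠ y) (tx : x ∈ S0 ∨ ∃ b, IsP x b) (ty : ∃ b, IsP y b) :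
    Fam M S0 IsP A (insert (T, fun j => cond j y x) F) ∧ ∀ b,
      ends IsP (insert (T, fun j => cond j y x) F) b =
        ends IsP F b + ((if IsP y b then 1 else 0) + if IsP x b then 1 else 0) := by
  have hn : (T, fun j => cond j y x) ∉ F := fun hc' => disjoint_left.1 hd hx (h.sub _ hc' hx)
  refine ⟨⟨?_, ?_, ?_, ?_, ?_, ?_⟩, fun b => ?_⟩
  · simp only [forall_mem_insert]
    exact ⟨hT, fun e he => (h.sub e he).trans hA⟩
  · simp only [forall_mem_insert]
    exact ⟨hc, h.conn⟩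
  · simp only [forall_mem_insert]
    exact ⟨by simp [hx, hy], h.mem⟩
  · simp only [forall_mem_insert]
    exact ⟨hxy, h.ne⟩
  · simp only [forall_mem_insert]
    exact ⟨by simp [tx, ty], h.typ⟩
  · simp only [forall_mem_insert]
    exact ⟨⟨fun h => absurd rfl h, fun e he _ => hd.mono_right (h.sub e he)⟩,
      fun e he => ⟨fun _ => (hd.mono_right (h.sub e he)).symm, h.disj e he⟩⟩
  · rw [ends, sum_insert hn, add_comm]
    simp only [ends, Fintype.sum_bool, cond_true, cond_false]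

theorem route [Fintype W] (hP : ∀ p b, IsP p b → p ∉ S0 ∧ ∀ b', IsP p b' → b' = b) (n : ℕ) :
    ∀ (A : Finset W) (b : ℕ) (s p : W), A.card ≤ n → s ∈ S0 → s ∈ A → IsP p b →
      R (mix M IsP) A s p → ∃ F, Fam M S0 IsP A F ∧
        (∀ b', ends IsP F b' % 2 = if b' = b then 1 else 0) ∧ ∃ n, Lv IsP F n b := by
  induction n with
  | zero => exact fun A b s p hA _ hs => absurd (card_pos.2 ⟨s, hs⟩) (by omega)
  | succ n ih =>
  intro A b s p hA hs hsA hp hr
  obtain ⟨x, y, x1, y1, x2, y2, hxy, hr1⟩ := hr.exit (S := univ.filter fun w => ¬ IsP w b)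
    (by simpa using fun h => (hP s b h).1 hs) (by simpa using hp)
  set A1 := A ∩ univ.filter fun w => ¬ IsP w b with hA1
  have y3 : IsP y b := by simpa using y1
  have hM : M.Adj x y := (mix_adj hxy).resolve_right fun ⟨b', h1, h2⟩ =>
    (mem_filter.1 x1).2 ((hP y b y3).2 b' h2 ▸ h1)
  have x3 : x ∈ A1 := mem_inter.2 ⟨x2, x1⟩
  have y4 : y ∉ A1 := fun h => y1 (mem_inter.1 h).2
  have hT : insert y (comp M A1 x) ⊆ A := insert_subset y2 (comp_subset.trans inter_subset_left)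
  have hc : Conn M (insert y (comp M A1 x)) := (comp_conn x3).insert (self_mem_comp x3) hM
  have ey : ∀ b', IsP y b' ↔ b' = b := fun b' => ⟨(hP y b y3).2 b', fun e => e ▸ y3⟩
  by_cases hsT : s ∈ comp M A1 x
  · have h0 : Fam M S0 IsP ∅ ∅ := ⟨by simp, by simp, by simp, by simp, by simp, by simp⟩
    have s1 : ∀ b', ¬ IsP s b' := fun b' h => (hP s b' h).1 hs
    obtain ⟨f1, f2⟩ := h0.add (empty_subset _) hT hc (by simp) (mem_insert_of_mem hsT)
      (mem_insert_self _ _) (fun e => s1 b (e ▸ y3)) (Or.inl hs) ⟨b, y3⟩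
    refine ⟨_, f1, fun b' => ?_, 1, _, mem_insert_self _ _, true, y3, fun b' h => s1 b' h⟩
    rw [f2, ey]
    by_cases e : b' = b <;> simp [ends, e, s1]
  · have sA : s ∈ A1 := mem_inter.2 ⟨hsA, by simpa using fun h => (hP s b h).1 hs⟩
    obtain ⟨q', q, q1, q2, q3, q4, hq, hr2⟩ := hr1.exit (S := univ \ comp M A1 x)
      (by simpa using hsT) (by simpa using self_mem_comp x3)
    have q5 : q ∈ comp M A1 x := by simpa using q2
    obtain ⟨b1, p1, p2⟩ := (mix_adj hq).resolve_left fun h =>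
      (mem_sdiff.1 q1).2 (comp_closed q5 q3 h.symm)
    have hb : b1 ≠ b := fun e => (mem_filter.1 (mem_inter.1 q4).2).2 (e ▸ p2)
    have hlt : (A1 ∩ (univ \ comp M A1 x)).card < A.card :=
      card_lt_card ⟨inter_subset_left.trans inter_subset_left, fun h => y4 (mem_inter.1 (h y2)).1⟩
    obtain ⟨F, g1, g2, m, g3⟩ := ih _ b1 s q' (by omega) hs
      (mem_inter.2 ⟨sA, by simpa using hsT⟩) p1 hr2
    have eq : ∀ b', IsP q b' ↔ b' = b1 := fun b' => ⟨(hP q b1 p2).2 b', fun e => e ▸ p2⟩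
    obtain ⟨f1, f2⟩ := g1.add (inter_subset_left.trans inter_subset_left) hT hc
      (disjoint_insert_left.2 ⟨fun h => y4 (mem_inter.1 h).1,
        disjoint_sdiff.mono_right inter_subset_right⟩)
      (mem_insert_of_mem q5) (mem_insert_self _ _) (fun e => y4 (e ▸ q4)) (Or.inr ⟨b1, p2⟩) ⟨b, y3⟩
    refine ⟨_, f1, fun b' => ?_, m + 1, _, mem_insert_self _ _, true, y3, fun b' h => ?_⟩
    · have := g2 b'
      rw [f2, ey, eq]
      split_ifs at this ⊢ <;> omega
    · rw [(eq b').1 h]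
      exact Lv.mono (subset_insert _ _) _ _ g3

/-- The graph with three sinks for every block. -/
def gad (M : SimpleGraph W) (IsP : W → ℕ → Prop) (nb : ℕ) : SimpleGraph (W ⊕ Fin nb × Fin 3) :=
  SimpleGraph.fromRel fun x y =>
    match x, y with
    | Sum.inl a, Sum.inl a' => (mix M IsP).Adj a a'
    | Sum.inl a, Sum.inr t => IsP a t.1
    | Sum.inr _, _ => False

theorem paths [Fintype W] {O : W → Prop} {nb : ℕ} (hS : ∀ s ∈ S0, O s)
    (h : CutOK M O S0 nb IsP) : ∃ A : Fin nb × Fin 3 → Finset W,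
      (∀ t, ∀ w ∈ A t, O w) ∧ (∀ t t', t ≠ t' → Disjoint (A t) (A t')) ∧
      ∀ t, ∃ s ∈ S0, s ∈ A t ∧ ∃ p, IsP p t.1 ∧ R (mix M IsP) (A t) s p := by
  let _ : DecidableEq (W ⊕ Fin nb × Fin 3) := fun a b => Classical.propDecidable (a = b)
  let U : Finset (W ⊕ Fin nb × Fin 3) := univ.filter (Sum.elim O fun _ => True)
  obtain ⟨P, hP, hp⟩ := menger_from (G := gad M IsP nb) (U := U) (B := S0.image Sum.inl)
    (ι := Fin nb × Fin 3) Sum.inr fun Z' hZ' => by
      let B1 : Finset (Fin nb) := univ.filter fun b => ∃ i, Sum.inr (b, i) ∉ Z'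
      let Z : Finset W := univ.filter fun w => Sum.inl w ∈ Z'
      have c1 : Z.card + ((univ \ B1) ×ˢ (univ : Finset (Fin 3))).card ≤ Z'.card := by
        rw [← card_disjSum]
        refine card_le_card ?_
        rintro (w | ⟨b, i⟩) hx
        · simpa [Z] using hx
        · have : ∀ i, Sum.inr (b, i) ∈ Z' := by simpa [B1] using hx
          exact this i
      have c2 := card_sdiff_add_card_eq_card (subset_univ B1)
      have c3 : (B1.image Fin.val).card = B1.card := card_image_of_injective _ Fin.val_injective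
      simp only [card_product, card_univ, Fintype.card_fin, Fintype.card_prod] at c1 c2 hZ'
      obtain ⟨b, hb, p, p1, s, s1, s2, hr⟩ := h (B1.image Fin.val) (fun b hb => by
        obtain ⟨b', -, rfl⟩ := mem_image.1 hb
        simp) (card_pos.1 (by omega)) Z (by omega)
      obtain ⟨b, hb', rfl⟩ := mem_image.1 hb
      obtain ⟨i, hi⟩ := (mem_filter.1 hb').2
      have m1 : ∀ w, O w → w ∉ Z → Sum.inl w ∈ U \ Z' := fun w h1 h2 => by
        simpa [U, Z, h1] using h2
      have m2 : Sum.inr (b, i) ∈ U \ Z' := by simpa [U] using hi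
      have key : Sum.inl p ∈ U \ Z' ∧ R (gad M IsP nb) (U \ Z') (Sum.inl s) (Sum.inl p) := by
        clear p1
        induction hr with
        | refl => exact ⟨m1 s (hS s s1) s2, R.refl⟩
        | @tail a a' _ h2 ih =>
          refine ⟨m1 _ h2.1 h2.2.1, ?_⟩
          by_cases e : a = a'
          · exact e ▸ ih.2
          · exact ih.2.tail ((SimpleGraph.fromRel_adj _ _ _).2 ⟨by simpa using e, Or.inl
              ((SimpleGraph.fromRel_adj _ _ _).2 ⟨e, Or.inl h2.2.2⟩)⟩) ih.1 (m1 _ h2.1 h2.2.1)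
      exact ⟨_, mem_image_of_mem _ (mem_univ (b, i)), _, mem_image_of_mem _ s1, m2,
        (key.2.tail ((SimpleGraph.fromRel_adj _ _ _).2 ⟨by simp, Or.inl p1⟩) key.1 m2).symm⟩
  refine ⟨fun t => univ.filter fun w => Sum.inl w ∈ P t, fun t w hw => ?_, fun t t' ht => ?_,
    fun t => ?_⟩
  · simpa [U] using hP.sub t (mem_filter.1 hw).2
  · exact disjoint_left.2 fun w h1 h2 =>
      disjoint_left.1 (hP.disj t t' ht) (mem_filter.1 h1).2 (mem_filter.1 h2).2
  obtain ⟨x, h1, h2⟩ := hP.right t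
  obtain ⟨s, s1, rfl⟩ := mem_image.1 h1
  refine ⟨s, s1, by simpa using h2, ?_⟩
  refine (((hP.conn t).2 _ h2 _ (hp t)).ind (P := fun v => (∃ w, v = Sum.inl w ∧
    R (mix M IsP) (univ.filter fun w => Sum.inl w ∈ P t) s w) ∨ ∃ p, IsP p t.1 ∧
      R (mix M IsP) (univ.filter fun w => Sum.inl w ∈ P t) s p) (Or.inl ⟨s, rfl, R.refl⟩)
    ?_).resolve_left (by simp)
  rintro x y - (⟨w, rfl, h3⟩ | h3) hxy hx hy
  · have h4 := ((SimpleGraph.fromRel_adj _ _ _).1 hxy).2
    rcases y with w' | t'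
    · exact Or.inl ⟨w', rfl, h3.tail (h4.elim id fun h => h.symm) (by simpa using hx)
        (by simpa using hy)⟩
    · have e : t' = t := by
        by_contra hn
        exact disjoint_left.1 (hP.disj t' t hn) (hp t') hy
      exact Or.inr ⟨w, e ▸ h4.resolve_right id, h3⟩
  · exact Or.inr h3

theorem enum {α : Type} [Nonempty α] (A : Finset α) : ∃ g : ℕ → α, (∀ j < A.card, g j ∈ A) ∧
    (∀ i < A.card, ∀ j < A.card, g i = g j → i = j) ∧ ∀ a ∈ A, ∃ j < A.card, g j = a := by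
  obtain ⟨g, h1, h2⟩ := exists_enum (A := A) le_rfl
  refine ⟨g, h1, h2, fun a ha => ?_⟩
  have : (range A.card).image g = A := eq_of_subset_of_card_le
    (image_subset_iff.2 fun j hj => h1 j (mem_range.1 hj))
    (by rw [card_image_of_injOn fun i hi j hj => h2 i (by simpa using hi) j (by simpa using hj),
      card_range])
  have h3 : a ∈ (range A.card).image g := by rw [this]; exact ha
  simpa using h3

end PortB

open PortB

/-- PORTB for a nonempty vertex type. -/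
def PORTB0Stmt : Prop := ∀ {W : Type} [Fintype W] [Nonempty W] (M : SimpleGraph W) (O : W → Prop)
  (S0 : Finset W) (nb : ℕ) (IsP : W → ℕ → Prop), (∀ s ∈ S0, O s) →
  (∀ p b, IsP p b → O p ∧ b < nb ∧ p ∉ S0 ∧ ∀ b', IsP p b' → b' = b) → CutOK M O S0 nb IsP →
  ∃ ns seg pt D rD par pe rk, Segs M O S0 nb IsP ns seg pt D rD par pe rk

theorem portb0 : PORTB0Stmt := by
  intro W _ hW M O S0 nb IsP hS hP hC
  rcases Nat.eq_zero_or_pos nb with rfl | hnb
  · obtain ⟨w⟩ := hW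
    exact ⟨0, fun _ => ∅, fun _ _ => w, ∅, id, id, fun _ => true, id, by simp, by simp, by simp,
      by simp, by simp, by simp, by simp, by simp, by simp, by simp⟩
  obtain ⟨A, a1, a2, a3⟩ := paths hS hC
  have h1 : ∀ t : Fin nb × Fin 3, ∃ F, Fam M S0 IsP (A t) F ∧
      (∀ b', ends IsP F b' % 2 = if b' = t.1 then 1 else 0) ∧ ∃ n, Lv IsP F n t.1 := fun t => by
    obtain ⟨s, s1, s2, p, p1, hr⟩ := a3 t
    exact route (fun p b h => (hP p b h).2.2) _ _ _ s p le_rfl s1 s2 p1 hr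
  choose F f1 f2 f3 using h1
  have fd : ∀ t t', t ≠ t' → ∀ e ∈ F t, ∀ e' ∈ F t', Disjoint e.1 e'.1 := fun t t' h e he e' he' =>
    (a2 t t' h).mono ((f1 t).sub e he) ((f1 t').sub e' he')
  have fd' : ∀ t t', t ≠ t' → Disjoint (F t) (F t') := fun t t' h => disjoint_left.2 fun e h1 h2 =>
    disjoint_left.1 (fd t t' h e h1 e h2) ((f1 t).mem e h1 true) ((f1 t).mem e h1 true)
  obtain ⟨s, -⟩ := a3 (⟨0, hnb⟩, 0)
  have : Nonempty (Sg W) := ⟨(∅, fun _ => s)⟩
  obtain ⟨g, g1, g2, g3⟩ := enum (univ.biUnion F)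
  have g4 : ∀ j < (univ.biUnion F).card, ∃ t, g j ∈ F t := fun j hj => by simpa using g1 j hj
  set ns := (univ.biUnion F).card
  let FD := (univ.filter fun t : Fin nb × Fin 3 => t.2 ≠ 2).biUnion F
  let FP := (univ.filter fun t : Fin nb × Fin 3 => t.2 = 2).biUnion F
  have sD : ∀ (I : Finset (Fin nb × Fin 3)), ∀ e ∈ I.biUnion F, ∃ j < ns, g j = e := fun I e he =>
    g3 e (biUnion_subset_biUnion_of_subset_left _ (subset_univ _) he)
  obtain ⟨rD, hD⟩ := rank (IsP := IsP) FD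
  obtain ⟨rk, hk⟩ := rank (IsP := IsP) FP
  have h2 : ∀ b, ∃ (σ : ℕ) (j : Bool), b < nb → σ < ns ∧ g σ ∉ FD ∧ IsP ((g σ).2 j) b ∧
      ∀ b', IsP ((g σ).2 (!j)) b' → rk b' < rk b := fun b => by
    by_cases hb : b < nb
    · obtain ⟨n, hn⟩ := f3 (⟨b, hb⟩, 2)
      obtain ⟨e, e1, j, e2⟩ := hk b ⟨n, Lv.mono (subset_biUnion_of_mem F (by simp)) _ _ hn⟩
      obtain ⟨σ, h3, rfl⟩ := sD _ e e1
      refine ⟨σ, j, fun _ => ⟨h3, fun hc => ?_, e2⟩⟩
      obtain ⟨t, t1, t2⟩ := mem_biUnion.1 hc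
      obtain ⟨t', t3, t4⟩ := mem_biUnion.1 e1
      exact disjoint_left.1 (fd' t t' fun e =>
        (mem_filter.1 t1).2 (e ▸ (mem_filter.1 t3).2)) t2 t4
    · exact ⟨0, true, fun h => absurd h hb⟩
  choose par pe hpar using h2
  refine ⟨ns, fun σ => (g σ).1, fun σ => (g σ).2, (range ns).filter fun σ => g σ ∈ FD, rD, par, pe,
    rk, fun σ hσ w hw => ?_, fun σ hσ => ?_, fun σ hσ σ' hσ' hne => ?_, fun σ hσ => ?_,
    fun σ hσ => ?_, fun σ hσ => ?_, filter_subset _ _, fun b hb => ?_, fun b hb => ?_,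
    fun b hb => ⟨(hpar b hb).1, fun h => (hpar b hb).2.1 (mem_filter.1 h).2, (hpar b hb).2.2⟩⟩
  · obtain ⟨t, ht⟩ := g4 σ hσ
    exact a1 t w ((f1 t).sub _ ht hw)
  · obtain ⟨t, ht⟩ := g4 σ hσ
    exact (f1 t).conn _ ht
  · obtain ⟨t, ht⟩ := g4 σ hσ
    obtain ⟨t', ht'⟩ := g4 σ' hσ'
    by_cases e : t = t'
    · exact (f1 t).disj _ ht _ (e ▸ ht') fun e => hne (g2 σ hσ σ' hσ' e)
    · exact fd t t' e _ ht _ ht'
  · obtain ⟨t, ht⟩ := g4 σ hσ
    exact (f1 t).mem _ ht
  · obtain ⟨t, ht⟩ := g4 σ hσ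
    exact (f1 t).ne _ ht
  · obtain ⟨t, ht⟩ := g4 σ hσ
    exact (f1 t).typ _ ht
  · have e1 : ((((range ns).filter fun σ => g σ ∈ FD) ×ˢ (univ : Finset Bool)).filter
        fun e => IsP ((g e.1).2 e.2) b).card = ends IsP FD b := by
      rw [card_filter, sum_product, ends]
      refine sum_bij (fun σ _ => g σ) (fun σ hσ => (mem_filter.1 hσ).2) (fun σ hσ σ' hσ' =>
        g2 σ (mem_range.1 (mem_filter.1 hσ).1) σ' (mem_range.1 (mem_filter.1 hσ').1))
        (fun e he => ?_) fun _ _ => rfl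
      obtain ⟨σ, h3, rfl⟩ := sD _ e he
      exact ⟨σ, mem_filter.2 ⟨mem_range.2 h3, he⟩, rfl⟩
    have e2 : ends IsP FD b = ∑ t ∈ univ.filter fun t : Fin nb × Fin 3 => t.2 ≠ 2,
        ends IsP (F t) b := sum_biUnion fun t _ t' _ h => fd' t t' h
    rw [e1, e2, Nat.even_iff, sum_nat_mod, sum_congr rfl fun t _ => f2 t b, sum_filter,
      Fintype.sum_prod_type, sum_eq_single (⟨b, hb⟩ : Fin nb)]
    · simp [Fin.sum_univ_three]
    · intro b' _ hb'
      have : b ≠ b' := fun e => hb' (Fin.ext e.symm)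
      simp [this]
    · simp
  · obtain ⟨n, hn⟩ := f3 (⟨b, hb⟩, 0)
    obtain ⟨e, e1, j, e2⟩ := hD b ⟨n, Lv.mono (subset_biUnion_of_mem F (by simp)) _ _ hn⟩
    obtain ⟨σ, h3, rfl⟩ := sD _ e e1
    exact ⟨σ, mem_filter.2 ⟨mem_range.2 h3, e1⟩, j, e2⟩

end Pool.Agent.MP_7be75d_co.Gen

end MrgPart2

-- ======== part 3: formerly Pool.Agent.MP_7be75d_co.Gen.Pack
section MrgPart3

/-! PACK: the tame components are grouped into boundedly many pieces. -/

namespace Pool.Agent.MP_7be75d_co.Gen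

open Finset
open scoped Classical

namespace Pack

variable {W : Type} {H : SimpleGraph W} {X P P' T : Finset W}

theorem exists_enum' {ι : Type} [Nonempty ι] (A : Finset ι) :
    ∃ f : ℕ → ι, (∀ j < A.card, f j ∈ A) ∧ (∀ i < A.card, ∀ j < A.card, f i = f j → i = j) ∧
      ∀ a ∈ A, ∃ j < A.card, f j = a := by
  obtain ⟨f, h1, h2⟩ := exists_enum (A := A) le_rfl
  refine ⟨f, h1, h2, fun a ha => ?_⟩
  have h3 : (range A.card).image f = A := eq_of_subset_of_card_le
    (image_subset_iff.2 fun j hj => h1 j (mem_range.1 hj))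
    (by rw [card_image_of_injOn fun i hi j hj => h2 i (by simpa using hi) j (by simpa using hj),
      card_range])
  obtain ⟨j, hj, e⟩ := mem_image.1 (h3.symm ▸ ha : a ∈ (range A.card).image f)
  exact ⟨j, mem_range.1 hj, e⟩

theorem shape_congr {m : ℕ} {sp : ℕ → W} {sd sd' : W → Bool} (h : Shape H P m sp sd)
    (e : ∀ w ∈ P, sd' w = sd w) : Shape H P m sp sd' :=
  ⟨h.pos, h.mem, h.inj, h.cons, fun x hx y hy h1 h2 h3 => by
    rw [e x hx, e y hy]; exact h.side x hx y hy h1 h2 h3, h.peel⟩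

theorem peel_union {I I' : Finset W} (h : Peel H I P) (h' : Peel H I' P') (hd : Disjoint P P')
    (hn : ∀ x ∈ P, ∀ y ∈ P', ¬ H.Adj x y) : Peel H (I ∪ I') (P ∪ P') := by
  have key : ∀ {I I' P P' : Finset W}, Peel H I P → Disjoint P P' → I' ⊆ P' →
      (∀ x ∈ P, ∀ y ∈ P', ¬ H.Adj x y) → ∀ S : Finset W, I ⊆ S → S ⊆ P ∪ P' → S ∩ P ≠ I →
      ∃ w ∈ S, (w ∉ I ∧ w ∉ I') ∧ ∀ x ∈ S, ∀ y ∈ S, H.Adj w x → H.Adj w y → x = y := by
    intro I I' P P' h hd hI hn S h1 h2 h3
    obtain ⟨w, hw, h4, h5⟩ := h.2 (S ∩ P) (subset_inter h1 h.1) inter_subset_right h3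
    have hwP := (mem_inter.1 hw).2
    have hm : ∀ x ∈ S, H.Adj w x → x ∈ S ∩ P := fun x hx ha =>
      mem_inter.2 ⟨hx, (mem_union.1 (h2 hx)).resolve_right fun hx' => hn w hwP x hx' ha⟩
    exact ⟨w, (mem_inter.1 hw).1, ⟨h4, fun hw' => disjoint_left.1 hd hwP (hI hw')⟩,
      fun x hx y hy a1 a2 => h5 x (hm x hx a1) y (hm y hy a2) a1 a2⟩
  refine ⟨union_subset_union h.1 h'.1, fun S h1 h2 h3 => ?_⟩
  by_cases e : S ∩ P = I
  · have e' : S ∩ P' ≠ I' := fun e' => h3 (by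
      rw [← e, ← e', ← inter_union_distrib_left, inter_eq_left.2 h2])
    obtain ⟨w, hw, h4, h5⟩ := key h' hd.symm h.1 (fun x hx y hy ha => hn y hy x hx ha.symm) S
      (subset_union_right.trans h1) (union_comm P P' ▸ h2) e'
    exact ⟨w, hw, fun hc => (mem_union.1 hc).elim h4.2 h4.1, h5⟩
  · obtain ⟨w, hw, h4, h5⟩ := key h hd h'.1 hn S (subset_union_left.trans h1) h2 e
    exact ⟨w, hw, fun hc => (mem_union.1 hc).elim h4.1 h4.2, h5⟩

/-- A shape with two apices only. -/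
def SP (H : SimpleGraph W) (X P : Finset W) (oa ob : Option W) : Prop :=
  ∃ m sp sd, Shape H P m sp sd ∧ ∀ w ∈ P, ∀ x ∈ X, H.Adj w x →
    (oa = some x ∧ (w ∈ (range m).image sp ∨ sd w = false)) ∨
    (ob = some x ∧ (w ∈ (range m).image sp ∨ sd w = true))

theorem SP.union {oa ob : Option W} (h : SP H X P oa ob) (h' : SP H X P' oa ob)
    (hd : Disjoint P P') (hn : ∀ x ∈ P, ∀ y ∈ P', ¬ H.Adj x y) : SP H X (P ∪ P') oa ob := by
  obtain ⟨m, sp, sd, s, r⟩ := h
  obtain ⟨m', sp', sd', s', r'⟩ := h'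
  have him : (range (m + m')).image (fun i => if i < m then sp i else sp' (i - m)) =
      (range m).image sp ∪ (range m').image sp' := by
    ext w
    simp only [mem_image, mem_range, mem_union]
    constructor
    · rintro ⟨i, hi, rfl⟩
      split_ifs with h
      · exact Or.inl ⟨i, h, rfl⟩
      · exact Or.inr ⟨i - m, by omega, rfl⟩
    · rintro (⟨i, hi, rfl⟩ | ⟨i, hi, rfl⟩)
      · exact ⟨i, by omega, if_pos hi⟩
      · exact ⟨m + i, by omega, by simp⟩
  refine ⟨m + m', fun i => if i < m then sp i else sp' (i - m),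
    fun w => if w ∈ P then sd w else sd' w,
    ⟨by have := s.pos; omega, fun i hi => ?_, fun i hi j hj => ?_, fun i hi j hj => ?_,
      fun x hx y hy => ?_, ?_⟩, fun w hw x hx ha => ?_⟩
  · split_ifs with h
    · exact mem_union_left _ (s.mem i h)
    · exact mem_union_right _ (s'.mem _ (by omega))
  · split_ifs with h1 h2 h2 <;> intro e
    · exact s.inj i h1 j h2 e
    · exact absurd (e ▸ s.mem i h1) (disjoint_right.1 hd (s'.mem _ (by omega)))
    · exact absurd (e ▸ s'.mem _ (by omega)) (disjoint_left.1 hd (s.mem j h2))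
    · have := s'.inj _ (by omega) _ (by omega) e
      omega
  · split_ifs with h1 h2 h2 <;> intro e
    · exact s.cons i h1 j h2 e
    · exact absurd e (hn _ (s.mem i h1) _ (s'.mem _ (by omega)))
    · exact absurd e.symm (hn _ (s.mem j h2) _ (s'.mem _ (by omega)))
    · have := s'.cons _ (by omega) _ (by omega) e
      omega
  · rw [him, notMem_union, notMem_union]
    intro h1 h2 ha
    split_ifs with h3 h4 h4
    · exact s.side x h3 y h4 h1.1 h2.1 ha
    · exact absurd ha (hn x h3 y ((mem_union.1 hy).resolve_left h4))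
    · exact absurd ha.symm (hn y h4 x ((mem_union.1 hx).resolve_left h3))
    · exact s'.side x ((mem_union.1 hx).resolve_left h3) y ((mem_union.1 hy).resolve_left h4)
        h1.2 h2.2 ha
  · rw [him]
    exact peel_union s.peel s'.peel hd hn
  · rw [him]
    dsimp only
    split_ifs with h
    · exact (r w h x hx ha).imp (And.imp_right (Or.imp_left (mem_union_left _)))
        (And.imp_right (Or.imp_left (mem_union_left _)))
    · exact (r' w ((mem_union.1 hw).resolve_left h) x hx ha).imp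
        (And.imp_right (Or.imp_left (mem_union_right _)))
        (And.imp_right (Or.imp_left (mem_union_right _)))

theorem SP.of_conn {oa ob : Option W} (hP : P.Nonempty)
    (h : ∀ T ⊆ P, Conn H T → SP H X T oa ob) : SP H X P oa ob := by
  induction hn : P.card using Nat.strong_induction_on generalizing P with
  | _ n ih =>
  obtain ⟨v, hv⟩ := hP
  have h1 := h _ comp_subset (comp_conn hv)
  rcases (P \ comp H P v).eq_empty_or_nonempty with e | e
  · rwa [subset_antisymm comp_subset (sdiff_eq_empty_iff_subset.1 e)] at h1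
  · have h2 := ih _ (hn ▸ card_lt_card (sdiff_ssubset comp_subset ⟨v, self_mem_comp hv⟩)) e
      (fun T hT => h T (hT.trans sdiff_subset)) rfl
    have h3 := h1.union h2 disjoint_sdiff fun x hx y hy ha =>
      (mem_sdiff.1 hy).2 (comp_closed hx (mem_sdiff.1 hy).1 ha)
    rwa [union_sdiff_of_subset comp_subset] at h3

theorem shape_one (hT : Conn H T) (hA : Lov.Acyc H T) :
    ∃ m sp, Shape H T m sp fun _ => false := by
  obtain ⟨r, hr⟩ := hT.1
  have e : (range 1).image (fun _ : ℕ => r) = {r} := by simp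
  refine ⟨1, fun _ => r, one_pos, fun _ _ => hr, fun i hi j hj _ => by omega,
    fun _ _ _ _ ha => absurd ha (H.loopless.1 r), fun _ _ _ _ _ _ _ => rfl, ?_⟩
  rw [e]
  exact ⟨singleton_subset_iff.2 hr, fun S h1 h2 h3 =>
    Lov.peel_conn (hA.mono h2) h1 (Conn.singleton r) h3⟩

theorem exists_apices (hs : SPINEStmt) (hK : NoK33 H) {s : Finset W} (hsX : s ⊆ X)
    (hc : s.card ≤ 2) : ∃ oa ob : Option W, (∀ a, oa = some a → a ∈ s ∧ ob ≠ some a) ∧
      (∀ b, ob = some b → b ∈ s) ∧ ∀ T, Conn H T → Lov.Acyc H T → Disjoint T X →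
        (∀ w ∈ T, ∀ x ∈ X, H.Adj w x → x ∈ s) → SP H X T oa ob := by
  by_cases h1 : s.card ≤ 1
  · have h2 : ∃ oa : Option W, (∀ a, oa = some a → a ∈ s) ∧ ∀ x ∈ s, oa = some x := by
      rcases s.eq_empty_or_nonempty with rfl | ⟨a, ha⟩
      · exact ⟨none, by simp, by simp⟩
      · exact ⟨some a, fun b e => Option.some.inj e ▸ ha,
          fun x hx => congrArg some (card_le_one.1 h1 a ha x hx)⟩
    obtain ⟨oa, h2, h3⟩ := h2
    refine ⟨oa, none, fun a e => ⟨h2 a e, by simp⟩, by simp, fun T hT hA _ h => ?_⟩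
    obtain ⟨m, sp, h4⟩ := shape_one hT hA
    exact ⟨m, sp, _, h4, fun w hw x hx ha => Or.inl ⟨h3 x (h w hw x hx ha), Or.inr rfl⟩⟩
  obtain ⟨a, b, hab, rfl⟩ := card_eq_two.1 (show s.card = 2 by omega)
  refine ⟨some a, some b, fun c e => ?_, fun c e => ?_, fun T hT hA hd h => ?_⟩
  · obtain rfl := Option.some.inj e
    simp [hab.symm]
  · obtain rfl := Option.some.inj e
    simp
  · obtain ⟨m, sp, sd, h2, h3⟩ := hs H T a b hT hA (disjoint_right.1 hd (hsX (by simp)))
      (disjoint_right.1 hd (hsX (by simp))) hab hK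
    refine ⟨m, sp, sd, h2, fun w hw x hx ha => ?_⟩
    have h4 := h w hw x hx ha
    rw [mem_insert, mem_singleton] at h4
    rcases h4 with rfl | rfl
    · exact Or.inl ⟨rfl, or_iff_not_imp_left.2 fun hn => (h3 w hw hn).1 ha⟩
    · exact Or.inr ⟨rfl, or_iff_not_imp_left.2 fun hn => (h3 w hw hn).2 ha⟩

/-- A piece with four optional ports and the three parts of its marker. -/
structure GP (H : SimpleGraph W) (X P : Finset W) (po : Fin 4 → Option W) (m : ℕ) (sp : ℕ → W)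
    (sd : W → Bool) (T0 T1 T2 : Finset W) : Prop where
  mem : ∀ i x, po i = some x → x ∈ X
  inj : ∀ i j x, po i = some x → po j = some x → i = j
  both : po 0 = none ↔ po 1 = none
  shape : Shape H P m sp sd
  rule : ∀ w ∈ P, ∀ x ∈ X, H.Adj w x → (po 0 = some x ∧ w = sp 0) ∨
    (po 1 = some x ∧ w = sp (m - 1)) ∨ (po 2 = some x ∧ (w ∈ (range m).image sp ∨ sd w = false)) ∨
    (po 3 = some x ∧ (w ∈ (range m).image sp ∨ sd w = true))
  s0 : T0 ⊆ P
  s1 : T1 ⊆ P
  s2 : T2 ⊆ P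
  d01 : Disjoint T0 T1
  d02 : Disjoint T0 T2
  d12 : Disjoint T1 T2
  c0 : ∀ u, po 0 = some u → Conn H (insert u T0) ∧ Touch H T1 (insert u T0)
  c1 : Conn H T1
  c2 : ∀ v, po 1 = some v → Conn H (insert v T2) ∧ Touch H T1 (insert v T2)
  ta : ∀ a, po 2 = some a → Touch H T1 {a}
  tb : ∀ b, po 3 = some b → Touch H T1 {b}
  rigid : ∀ u a b, po 0 = some u → po 2 = some a → po 3 = some b →
    Touch H T0 {a} ∧ Touch H T0 {b} ∧ Touch H T2 {a} ∧ Touch H T2 {b}

theorem gp_of_big {u v : W} {oa ob : Option W} {m : ℕ} {sp : ℕ → W} {sd : W → Bool}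
    {T0 T1 T2 : Finset W} (h : BPiece H X T u v oa ob m sp sd T0 T1 T2) :
    GP H X T ![some u, some v, oa, ob] m sp sd T0 T1 T2 := by
  have hu := h.hu
  have hv := h.hv
  have huv := h.huv
  have ha := h.ha
  have hb := h.hb
  refine ⟨fun i x e => ?_, fun i j x e e' => ?_, by simp, h.shape, fun w hw x hx hwx => ?_,
    h.s0, h.s1, h.s2, h.d01, h.d02, h.d12, fun y e => ?_, h.c1, fun y e => ?_,
    fun a e => (ha a e).2.2.2.2, fun b e => (hb b e).2.2.2, fun _ a b _ => h.rigid a b⟩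
  · fin_cases i <;> simp at e <;> grind
  · fin_cases i <;> fin_cases j <;> simp at e e' ⊢ <;> grind
  · exact (h.rule w hw x hx hwx).imp (And.imp_left fun e => congrArg some e.symm)
      (Or.imp_left (And.imp_left fun e => congrArg some e.symm))
  · obtain rfl : u = y := by simpa using e
    exact ⟨h.c0, h.t0⟩
  · obtain rfl : v = y := by simpa using e
    exact ⟨h.c2, h.t2⟩

theorem gp_of_small {oa ob : Option W} (h : SP H X P oa ob) (hT : T ⊆ P) (hc : Conn H T)
    (ha : ∀ a, oa = some a → (a ∈ X ∧ Touch H T {a}) ∧ ob ≠ some a)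
    (hb : ∀ b, ob = some b → b ∈ X ∧ Touch H T {b}) :
    ∃ m sp sd, GP H X P ![none, none, oa, ob] m sp sd ∅ T ∅ := by
  obtain ⟨m, sp, sd, h1, h2⟩ := h
  refine ⟨m, sp, sd, fun i x e => ?_, fun i j x e e' => ?_, by simp, h1,
    fun w hw x hx hwx => Or.inr (Or.inr (h2 w hw x hx hwx)), by simp, hT, by simp, by simp,
    by simp, by simp, by simp, hc, by simp, fun a e => (ha a e).1.2, fun b e => (hb b e).2,
    by simp⟩
  · fin_cases i <;> simp at e <;> grind
  · fin_cases i <;> fin_cases j <;> simp at e e' ⊢ <;> grind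

theorem assemble [Nonempty W] {nt : ℕ} {Pc : ℕ → Finset W} (h1 : ∀ t < nt, Disjoint (Pc t) X)
    (h2 : ∀ w ∉ X, ∃ t < nt, w ∈ Pc t)
    (h3 : ∀ t < nt, ∀ t' < nt, ∀ w ∈ Pc t, ∀ w' ∈ Pc t', w = w' ∨ H.Adj w w' → t = t')
    (h4 : ∀ t < nt, ∃ po m sp sd T0 T1 T2, GP H X (Pc t) po m sp sd T0 T1 T2) :
    ∃ xs m sp sd pt φ ψ, Skel H X.card nt xs Pc m sp sd pt ∧ Marked H X.card nt pt φ ψ ∧
      ∀ x < X.card, xs x ∈ φ x := by
  choose! po m sp sd T0 T1 T2 g using h4
  obtain ⟨xs, x1, x2, x3⟩ := exists_enum' X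
  have hsd : ∀ w, ∃ b, ∀ t < nt, w ∈ Pc t → b = sd t w := fun w => by
    by_cases h : ∃ t < nt, w ∈ Pc t
    · obtain ⟨t, ht, hw⟩ := h
      exact ⟨sd t w, fun t' ht' hw' => by rw [h3 t ht t' ht' w hw w hw' (Or.inl rfl)]⟩
    · exact ⟨false, fun t ht hw => absurd ⟨t, ht, hw⟩ h⟩
  choose sd' hsd using hsd
  have hpt : ∀ t i, ∃ o : Option ℕ, t < nt → (o = none ↔ po t i = none) ∧
      ∀ y, o = some y ↔ y < X.card ∧ po t i = some (xs y) := fun t i => by
    by_cases ht : t < nt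
    swap
    · exact ⟨none, fun h => absurd h ht⟩
    rcases e : po t i with _ | x
    · exact ⟨none, fun _ => by simp⟩
    · obtain ⟨j, hj, rfl⟩ := x3 x ((g t ht).mem i x e)
      refine ⟨some j, fun _ => ⟨by simp, fun y => ⟨fun e' => ?_, fun e' => ?_⟩⟩⟩
      · obtain rfl := Option.some.inj e'
        exact ⟨hj, rfl⟩
      · exact congrArg some (x2 j hj y e'.1 (Option.some.inj e'.2))
  choose pt hpt using hpt
  have hφ : ∀ y, ∃ S : Finset W, ∀ v, v ∈ S ↔ v = xs y ∨ ∃ t < nt,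
      (po t 0 = some (xs y) ∧ v ∈ T0 t) ∨ (po t 1 = some (xs y) ∧ v ∈ T2 t) := fun y =>
    ⟨insert (xs y) ((range nt).biUnion fun t => (T0 t).filter (fun _ => po t 0 = some (xs y)) ∪
      (T2 t).filter fun _ => po t 1 = some (xs y)), fun v => by
        simp only [mem_insert, mem_biUnion, mem_range, mem_union, mem_filter, and_comm]⟩
  choose φ hφ using hφ
  have m0 : ∀ y, xs y ∈ φ y := fun y => (hφ y _).2 (Or.inl rfl)
  have m1 : ∀ y, ∀ t < nt, po t 0 = some (xs y) → insert (xs y) (T0 t) ⊆ φ y :=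
    fun y t ht e => insert_subset (m0 y) fun v hv => (hφ y v).2 (Or.inr ⟨t, ht, Or.inl ⟨e, hv⟩⟩)
  have m2 : ∀ y, ∀ t < nt, po t 1 = some (xs y) → insert (xs y) (T2 t) ⊆ φ y :=
    fun y t ht e => insert_subset (m0 y) fun v hv => (hφ y v).2 (Or.inr ⟨t, ht, Or.inr ⟨e, hv⟩⟩)
  have m3 : ∀ y, {xs y} ⊆ φ y := fun y => singleton_subset_iff.2 (m0 y)
  have hd : ∀ t < nt, ∀ t' < nt, t ≠ t' → Disjoint (Pc t) (Pc t') := fun t ht t' ht' hn =>
    disjoint_left.2 fun w hw hw' => hn (h3 t ht t' ht' w hw w hw' (Or.inl rfl))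
  have hlt : ∀ t < nt, ∀ i x, pt t i = some x → x < X.card := fun t ht i x e =>
    (((hpt t i ht).2 x).1 e).1
  have hpo : ∀ t < nt, ∀ i x, pt t i = some x → po t i = some (xs x) := fun t ht i x e =>
    (((hpt t i ht).2 x).1 e).2
  have hP : ∀ t < nt, ∀ (v x : W), (po t 0 = some x ∧ v ∈ T0 t) ∨ (po t 1 = some x ∧ v ∈ T2 t) →
      v ∈ Pc t := fun t ht v x h => h.elim (fun h => (g t ht).s0 h.2) fun h => (g t ht).s2 h.2
  refine ⟨xs, m, sp, sd', pt, φ, T1, ⟨x2, fun w => ?_,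
    fun x hx t ht => disjoint_right.1 (h1 t ht) (x1 x hx), hd,
    fun t ht => shape_congr (g t ht).shape fun w hw => hsd w t ht hw,
    fun t ht t' ht' w hw w' hw' ha => h3 t ht t' ht' w hw w' hw' (Or.inr ha), hlt,
    fun t ht w hw x hx ha => ?_⟩,
    ⟨fun y _ => ?_, fun t ht => (g t ht).c1, fun y hy z hz hn => ?_,
      fun t ht t' ht' hn => (hd t ht t' ht' hn).mono (g t ht).s1 (g t' ht').s1,
      fun y hy t ht => ?_, hlt,
      fun t ht i j x e e' => (g t ht).inj i j _ (hpo t ht i x e) (hpo t ht j x e'),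
      fun t ht => by rw [(hpt t 0 ht).1, (hpt t 1 ht).1]; exact (g t ht).both,
      fun t ht i x e => ?_, fun t ht u v a b e0 e1 e2 e3 => ?_⟩, fun x _ => m0 x⟩
  · by_cases hw : w ∈ X
    · obtain ⟨j, hj, e⟩ := x3 w hw
      exact Or.inl ⟨j, hj, e.symm⟩
    · exact Or.inr (h2 w hw)
  · simp only [(hpt t _ ht).2, hx, true_and, hsd w t ht hw]
    exact (g t ht).rule w hw _ (x1 x hx) ha
  · refine Conn.of_center (m0 y) fun v hv => ?_
    rcases (hφ y v).1 hv with rfl | ⟨t, ht, ⟨e, h⟩ | ⟨e, h⟩⟩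
    · exact R.refl
    · exact ((g t ht).c0 _ e).1.r (mem_insert_self _ _) (mem_insert_of_mem h) (m1 y t ht e)
    · exact ((g t ht).c2 _ e).1.r (mem_insert_self _ _) (mem_insert_of_mem h) (m2 y t ht e)
  · refine disjoint_left.2 fun v hv hv' => ?_
    rcases (hφ y v).1 hv with rfl | ⟨t, ht, h⟩
    · rcases (hφ z _).1 hv' with e | ⟨t', ht', h'⟩
      · exact hn (x2 y hy z hz e)
      · exact disjoint_left.1 (h1 t' ht') (hP t' ht' _ _ h') (x1 y hy)
    · rcases (hφ z v).1 hv' with rfl | ⟨t', ht', h'⟩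
      · exact disjoint_left.1 (h1 t ht) (hP t ht _ _ h) (x1 z hz)
      · obtain rfl := h3 t ht t' ht' v (hP t ht _ _ h) v (hP t' ht' _ _ h') (Or.inl rfl)
        rcases h with h | h <;> rcases h' with h' | h'
        · exact hn (x2 y hy z hz (Option.some.inj (h.1.symm.trans h'.1)))
        · exact disjoint_left.1 (g t ht).d02 h.2 h'.2
        · exact disjoint_left.1 (g t ht).d02 h'.2 h.2
        · exact hn (x2 y hy z hz (Option.some.inj (h.1.symm.trans h'.1)))
  · refine disjoint_left.2 fun v hv hv' => ?_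
    rcases (hφ y v).1 hv with rfl | ⟨t', ht', h⟩
    · exact disjoint_left.1 (h1 t ht) ((g t ht).s1 hv') (x1 y hy)
    · obtain rfl := h3 t ht t' ht' v ((g t ht).s1 hv') v (hP t' ht' _ _ h) (Or.inl rfl)
      rcases h with h | h
      · exact disjoint_left.1 (g t ht).d01 h.2 hv'
      · exact disjoint_left.1 (g t ht).d12 hv' h.2
  · have e' := hpo t ht i x e
    fin_cases i
    · exact ((g t ht).c0 _ e').2.mono subset_rfl (m1 x t ht e')
    · exact ((g t ht).c2 _ e').2.mono subset_rfl (m2 x t ht e')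
    · exact ((g t ht).ta _ e').mono subset_rfl (m3 x)
    · exact ((g t ht).tb _ e').mono subset_rfl (m3 x)
  · obtain ⟨r1, r2, r3, r4⟩ :=
      (g t ht).rigid _ _ _ (hpo t ht 0 u e0) (hpo t ht 2 a e2) (hpo t ht 3 b e3)
    have s0 := (subset_insert _ _).trans (m1 u t ht (hpo t ht 0 u e0))
    have s2 := (subset_insert _ _).trans (m2 v t ht (hpo t ht 1 v e1))
    exact ⟨r1.mono s0 (m3 a), r2.mono s0 (m3 b), r3.mono s2 (m3 a), r4.mono s2 (m3 b)⟩

/-- The vertices of `X` seen by `T`. -/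
noncomputable def sig (H : SimpleGraph W) (X T : Finset W) : Finset W :=
  X.filter fun x => Touch H T {x}

variable [Fintype W]

/-- The key of a vertex outside `X`: the fibres are the pieces. -/
noncomputable def key (H : SimpleGraph W) (X : Finset W) (w : W) : Finset W × Finset W :=
  (sig H X (comp H (univ \ X) w),
    if (sig H X (comp H (univ \ X) w)).card ≤ 2 then ∅ else comp H (univ \ X) w)

theorem key_eq {v w : W} (h : v ∈ comp H (univ \ X) w) : key H X v = key H X w := by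
  unfold key
  rw [comp_eq h]

omit [Fintype W] in
theorem comp_disj {F : Finset W} {v w : W} (h : comp H F v ≠ comp H F w) :
    Disjoint (comp H F v) (comp H F w) :=
  disjoint_left.2 fun _ h1 h2 => h ((comp_eq h1).symm.trans (comp_eq h2))

theorem card_key (hK : NoK33 H) : ((univ \ X).image (key H X)).card ≤ 2 * 2 ^ X.card := by
  refine (card_le_mul_card_image (f := Prod.fst) _ 2 fun s _ => ?_).trans
    (Nat.mul_le_mul_left _ ?_)
  · by_contra hc
    obtain ⟨k0, k1, k2, m0, m1, m2, n1, n2, n3⟩ := two_lt_card_iff.1 (not_le.1 hc)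
    simp only [mem_filter, mem_image] at m0 m1 m2
    obtain ⟨⟨v0, hv0, rfl⟩, e0⟩ := m0
    obtain ⟨⟨v1, hv1, rfl⟩, e1⟩ := m1
    obtain ⟨⟨v2, hv2, rfl⟩, e2⟩ := m2
    simp only [key] at e0 e1 e2 n1 n2 n3
    rw [e0, e1] at n1
    rw [e0, e2] at n2
    rw [e1, e2] at n3
    by_cases hs : s.card ≤ 2
    · simp [hs] at n1
    simp only [hs, if_false, ne_eq, Prod.mk.injEq, true_and] at n1 n2 n3
    obtain ⟨a0, a1, a2, b0, b1, b2, d1, d2, d3⟩ := two_lt_card_iff.1 (not_le.1 hs)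
    have ht : ∀ v, sig H X (comp H (univ \ X) v) = s → ∀ a ∈ s,
        Disjoint {a} (comp H (univ \ X) v) ∧ Touch H {a} (comp H (univ \ X) v) := by
      rintro v rfl a ha
      exact ⟨disjoint_singleton_left.2 fun h =>
        (mem_sdiff.1 (comp_subset h)).2 (mem_filter.1 ha).1, (mem_filter.1 ha).2.symm⟩
    refine hK.six ⟨Conn.singleton a0, Conn.singleton a1, Conn.singleton a2⟩
      ⟨comp_conn hv0, comp_conn hv1, comp_conn hv2⟩
      ⟨disjoint_singleton.2 d1, disjoint_singleton.2 d2, disjoint_singleton.2 d3⟩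
      ⟨comp_disj n1, comp_disj n2, comp_disj n3⟩ ?_
    rintro B (rfl | rfl | rfl)
    · exact ⟨ht _ e0 _ b0, ht _ e0 _ b1, ht _ e0 _ b2⟩
    · exact ⟨ht _ e1 _ b0, ht _ e1 _ b1, ht _ e1 _ b2⟩
    · exact ⟨ht _ e2 _ b0, ht _ e2 _ b1, ht _ e2 _ b2⟩
  · rw [← card_powerset]
    refine card_le_card fun s hs => ?_
    obtain ⟨k, hk, rfl⟩ := mem_image.1 hs
    obtain ⟨v, -, rfl⟩ := mem_image.1 hk
    exact mem_powerset.2 (filter_subset _ _)

theorem fibre (hs : SPINEStmt) (hA : Lov.Acyc H (univ \ X)) (hK : NoK33 H) (hT : Tame H X)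
    {w : W} (hw : w ∈ univ \ X) : ∃ po m sp sd T0 T1 T2,
      GP H X ((univ \ X).filter fun v => key H X v = key H X w) po m sp sd T0 T1 T2 := by
  have hsub : comp H (univ \ X) w ⊆ (univ \ X).filter fun v => key H X v = key H X w :=
    fun v hv => mem_filter.2 ⟨comp_subset hv, key_eq hv⟩
  by_cases hc : (sig H X (comp H (univ \ X) w)).card ≤ 2
  · obtain ⟨oa, ob, h1, h2, h3⟩ := exists_apices (X := X) hs hK (filter_subset _ _) hc
    have h4 : SP H X ((univ \ X).filter fun v => key H X v = key H X w) oa ob := by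
      refine SP.of_conn ⟨w, hsub (self_mem_comp hw)⟩ fun T hT hc => ?_
      have hF := hT.trans (filter_subset _ _)
      refine h3 T hc (hA.mono hF) (disjoint_left.2 fun v hv => (mem_sdiff.1 (hF hv)).2)
        fun v hv x hx ha => ?_
      have e : sig H X (comp H (univ \ X) v) = sig H X (comp H (univ \ X) w) :=
        congrArg Prod.fst (mem_filter.1 (hT hv)).2
      have : x ∈ sig H X (comp H (univ \ X) v) :=
        mem_filter.2 ⟨hx, v, self_mem_comp (hF hv), x, mem_singleton_self x, ha⟩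
      rw [e] at this
      exact this
    obtain ⟨m, sp, sd, h5⟩ := gp_of_small h4 hsub (comp_conn hw)
      (fun a e => ⟨mem_filter.1 (h1 a e).1, (h1 a e).2⟩) fun b e => mem_filter.1 (h2 b e)
    exact ⟨_, m, sp, sd, _, _, _, h5⟩
  · obtain ⟨u, v, oa, ob, m, sp, sd, T0, T1, T2, h⟩ :=
      (hT w (mem_sdiff.1 hw).2).resolve_left hc
    have e : ((univ \ X).filter fun v => key H X v = key H X w) = comp H (univ \ X) w := by
      refine subset_antisymm (fun v hv => ?_) hsub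
      obtain ⟨h1, h2⟩ := mem_filter.1 hv
      simp only [key, Prod.mk.injEq] at h2
      have h3 := h2.2
      rw [h2.1, if_neg hc, if_neg hc] at h3
      exact h3 ▸ self_mem_comp h1
    rw [e]
    exact ⟨_, m, sp, sd, T0, T1, T2, gp_of_big h⟩

end Pack

open Pack

theorem pack (hs : SPINEStmt) : PACKStmt := by
  refine fun N => ⟨N + 2 * 2 ^ N, fun {W} _ _ H X hX hA hK hT => ?_⟩
  obtain ⟨e, e1, e2, e3⟩ := exists_enum' ((univ \ X).image (key H X))
  obtain ⟨xs, m, sp, sd, pt, φ, ψ, h⟩ := assemble (H := H) (X := X)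
    (nt := ((univ \ X).image (key H X)).card)
    (Pc := fun t => (univ \ X).filter fun v => key H X v = e t)
    (fun t _ => disjoint_left.2 fun v hv => (mem_sdiff.1 (mem_filter.1 hv).1).2)
    (fun w hw => by
      have hw' : w ∈ univ \ X := mem_sdiff.2 ⟨mem_univ _, hw⟩
      obtain ⟨t, ht, h⟩ := e3 _ (mem_image_of_mem _ hw')
      exact ⟨t, ht, mem_filter.2 ⟨hw', h.symm⟩⟩)
    (fun t ht t' ht' w hw w' hw' h => by
      obtain ⟨h1, h2⟩ := mem_filter.1 hw
      obtain ⟨h3, h4⟩ := mem_filter.1 hw'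
      refine e2 t ht t' ht' (h2.symm.trans (Eq.trans ?_ h4))
      rcases h with rfl | h
      · rfl
      · exact (key_eq (comp_closed (self_mem_comp h1) h3 h)).symm)
    (fun t ht => by
      obtain ⟨w, hw, h⟩ := mem_image.1 (e1 t ht)
      simp only [← h]
      exact fibre hs hA hK hT hw)
  have h1 := card_key (X := X) hK
  have h2 : 2 ^ X.card ≤ 2 ^ N := Nat.pow_le_pow_right two_pos hX
  exact ⟨_, _, xs, _, m, sp, sd, pt, φ, ψ, by omega, by omega, h⟩

end Pool.Agent.MP_7be75d_co.Gen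

end MrgPart3

-- ======== part 4: formerly Pool.Agent.MP_7be75d_co.Gen.Tools
section MrgPart4

/-! Module TOOLS of the project LTW: FE, FAT, LINK, EXT, SEQ, SPOS. -/

namespace Pool.Agent.MP_7be75d_co.Gen

open Finset
open scoped Classical

namespace Tools

variable {V : Type} {G : SimpleGraph V} {U : Finset V} {K : ℕ} {β : Finset V → Finset V}

theorem bd_submod {F F' : Finset V} :
    (bd G U (F ∪ F')).card + (bd G U (F ∩ F')).card ≤ (bd G U F).card + (bd G U F').card := by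
  rw [← card_union_add_card_inter, ← card_union_add_card_inter (bd G U F)]
  refine add_le_add (card_le_card (union_subset bd_union_subset fun v hv => ?_))
    (card_le_card fun v hv => ?_)
  · obtain ⟨h1, u, hu, h2, h3⟩ := mem_bd.1 hv
    obtain ⟨h4, h5⟩ := mem_inter.1 h1
    by_cases h6 : u ∈ F
    · exact mem_union_right _ (mem_bd.2 ⟨h5, u, hu, fun h => h2 (mem_inter.2 ⟨h6, h⟩), h3⟩)
    · exact mem_union_left _ (mem_bd.2 ⟨h4, u, hu, h6, h3⟩)
  · obtain ⟨-, u, hu, h2, h3⟩ := mem_bd.1 (mem_inter.1 hv).1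
    obtain ⟨h4, h5⟩ := mem_inter.1 (bd_subset (mem_inter.1 hv).2)
    exact mem_inter.2 ⟨mem_bd.2 ⟨h4, u, hu, fun h => h2 (mem_union_left _ h), h3⟩,
      mem_bd.2 ⟨h5, u, hu, fun h => h2 (mem_union_right _ h), h3⟩⟩

theorem exists_maxtight (h : Haven G U K β) {T : Finset V} (hT : T ⊆ U)
    (hK : T.card < K) : ∃ F, T ⊆ F ∧ Small G U K β F ∧ (bd G U F).card ≤ T.card ∧
      ∀ F', F ⊂ F' → Small G U K β F' → (bd G U F).card < (bd G U F').card := by
  obtain ⟨F, ⟨h1, h2⟩, h3, h4⟩ := exists_lex_min (p := fun F => T ⊆ F ∧ Small G U K β F)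
    (fun F => (bd G U F).card) (fun F => U.card - F.card) ⟨T, subset_rfl, h.tiny hT hK⟩
  refine ⟨F, h1, h2, (h3 T ⟨subset_rfl, h.tiny hT hK⟩).trans (card_le_card bd_subset),
    fun F' h5 h6 => ?_⟩
  by_contra hc
  have := h4 F' ⟨h1.trans h5.subset, h6⟩ (by omega)
  have := card_lt_card h5
  have := card_le_card h6.1
  omega

theorem bd_sdiff_haven (h : Haven G U K β) {Z : Finset V} (hZ : Z.card < K) :
    bd G U (U \ β Z) ⊆ Z := by
  intro v hv
  obtain ⟨h1, u, hu, h2, h3⟩ := mem_bd.1 hv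
  by_contra hc
  refine (mem_sdiff.1 h1).2 (h.closed Z hZ u ?_ v (mem_sdiff.1 h1).1 hc h3.symm)
  by_contra h4
  exact h2 (mem_sdiff.2 ⟨hu, h4⟩)

theorem free_iff {S : Finset V} :
    Free β K S ↔ ∀ Z : Finset V, Z.card < K → (S \ β Z).card ≤ Z.card := by
  simp only [Free, sdiff_eq_filter]

theorem free_step (h : Haven G U K β) {I X : Finset V} (h2 : I ⊆ U) (hK : 2 * I.card + 2 ≤ K)
    (h4 : Free β K I) (hX : ∀ Z : Finset V, Z.card ≤ I.card → ∃ v ∈ X, v ∈ β Z) :
    ∃ v ∈ X, v ∈ U ∧ v ∉ I ∧ Free β K (insert v I) := by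
  rw [free_iff] at h4
  obtain ⟨F, f1, f2, f3, f4⟩ := exists_maxtight h h2 (by omega)
  obtain ⟨v, v1, v2⟩ := hX (bd G U F) f3
  have v3 : v ∉ F := disjoint_left.1 f2.2.2 v2
  refine ⟨v, v1, h.subU f2.2.1 v2, fun hc => v3 (f1 hc), free_iff.2 fun Z hZ => ?_⟩
  by_contra hc
  have h5 := h4 Z hZ
  have v5 : v ∉ β Z := fun hv => by
    rw [insert_sdiff_of_mem _ hv] at hc
    exact hc h5
  rw [insert_sdiff_of_notMem _ v5] at hc
  have h6 := card_insert_le v (I \ β Z)
  have h7 := card_le_card (sdiff_subset (s := I) (t := β Z))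
  have s1 := bd_sdiff_haven h hZ
  have s2 : Small G U K β (U \ β Z) := h.small sdiff_subset s1 hZ disjoint_sdiff
  have s3 := card_le_card s1
  have s4 := f4 (F ∪ (U \ β Z)) ⟨subset_union_left, fun hs => v3 (hs (mem_union_right _
    (mem_sdiff.2 ⟨h.subU f2.2.1 v2, v5⟩)))⟩ (f2.union s2 h (by omega))
  have s5 := bd_submod (G := G) (U := U) (F := F) (F' := U \ β Z)
  have s6 : Small G U K β (F ∩ (U \ β Z)) := h.small (inter_subset_left.trans f2.1)
    (Z := bd G U F ∪ bd G U (F ∩ (U \ β Z))) subset_union_right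
    ((card_union_le _ _).trans_lt (by omega))
    ((f2.disj h subset_union_left ((card_union_le _ _).trans_lt (by omega))).mono_right
      inter_subset_left)
  have s7 := h4 _ s6.2.1
  have s8 : I \ β Z ⊆ I \ β (bd G U (F ∩ (U \ β Z))) := fun u hu => mem_sdiff.2
    ⟨(mem_sdiff.1 hu).1, fun hc => disjoint_left.1 s6.2.2 hc (mem_inter.2
      ⟨f1 (mem_sdiff.1 hu).1, mem_sdiff.2 ⟨h2 (mem_sdiff.1 hu).1, (mem_sdiff.1 hu).2⟩⟩)⟩
  have := card_le_card s8
  omega

theorem grow {ι : Type} {Big Rg S S' E : Finset V} {m : ℕ} {N : ι → Finset V} {s : ι → V}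
    (h : Win G Big S E m) (hd : Disjoint Big Rg) (hS : ∀ x ∈ S, ∃ i, x = s i)
    (hN : ∀ i, N i ⊆ Rg ∧ Conn G (N i) ∧ Touch G (N i) {s i} ∧ ∃ x ∈ S', x ∈ N i)
    (hNd : ∀ i j, i ≠ j → Disjoint (N i) (N j)) : Win G (Big ∪ Rg) S' E m := by
  have key : ∀ L, Thru G Big S E m L → ∃ L' : ℕ → Finset V, Thru G (Big ∪ Rg) S' E m L' ∧
      ∀ j < m, L j ⊆ L' j ∧ L' j ⊆ L j ∪ Rg := by
    intro L hL
    have h1 : ∀ j, ∃ T : Finset V, j < m → ∃ i, s i ∈ L j ∧ T = N i := fun j => by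
      by_cases hj : j < m
      · obtain ⟨x, h2, h3⟩ := (hL.thr j hj).1
        obtain ⟨i, rfl⟩ := hS x h2
        exact ⟨_, fun _ => ⟨i, h3, rfl⟩⟩
      · exact ⟨∅, fun h => absurd h hj⟩
    choose T hT using h1
    have h2 : ∀ j < m, T j ⊆ Rg := fun j hj => by
      obtain ⟨i, -, h3⟩ := hT j hj
      exact h3 ▸ (hN i).1
    refine ⟨fun j => L j ∪ T j, ⟨fun j hj => union_subset_union (hL.sub j hj) (h2 j hj),
      fun j hj => ?_, fun i hi j hj hij => ?_, fun j hj => ⟨?_, (hL.thr j hj).2.imp fun e he =>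
        ⟨he.1, mem_union_left _ he.2⟩⟩⟩,
      fun j hj => ⟨subset_union_left, union_subset_union subset_rfl (h2 j hj)⟩⟩
    · obtain ⟨i, h3, h4⟩ := hT j hj
      exact h4 ▸ (hL.conn j hj).union_touch (hN i).2.1
        ((hN i).2.2.1.symm.mono (singleton_subset_iff.2 h3) subset_rfl)
    · simp only [disjoint_union_left, disjoint_union_right]
      refine ⟨⟨hL.disj i hi j hj hij, (hd.mono (hL.sub j hj) (h2 i hi)).symm⟩,
        hd.mono (hL.sub i hi) (h2 j hj), ?_⟩
      obtain ⟨a, h3, h4⟩ := hT i hi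
      obtain ⟨b, h5, h6⟩ := hT j hj
      rw [h4, h6]
      exact hNd a b fun e => disjoint_left.1 (hL.disj i hi j hj hij) h3 (e ▸ h5)
    · obtain ⟨i, -, h4⟩ := hT j hj
      obtain ⟨x, h5, h6⟩ := (hN i).2.2.2
      exact ⟨x, h5, mem_union_right _ (h4 ▸ h6)⟩
  rcases h with ⟨L, h1, h2⟩ | ⟨L, Y, h1, h2, h3, h4⟩
  · obtain ⟨L', h3, h4⟩ := key L h1
    exact Or.inl ⟨L', h3, fun j hj => (h2 j hj).mono (h4 j (by omega)).1 (h4 _ hj).1⟩
  · obtain ⟨L', h5, h6⟩ := key L h1
    exact Or.inr ⟨L', Y, h5, h2.trans subset_union_left, h3, fun j hj =>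
      ⟨(disjoint_union_right.2 ⟨(h4 j hj).1, hd.mono_left h2⟩).mono_right (h6 j hj).2,
        (h4 j hj).2.mono subset_rfl (h6 j hj).1⟩⟩

theorem seq_aux {Big S E : Finset V} (l : List (Finset V)) (h : SeqOK G Big l) :
    ∃ L, Thru G Big S E (cnt (Mk S E) l) L ∧
      (∀ j, j + 1 < cnt (Mk S E) l → Touch G (L j) (L (j + 1))) ∧
      (∀ j < cnt (Mk S E) l, ∀ v ∈ L j, ∃ T ∈ l, v ∈ T) ∧
      ∀ T r, l = T :: r → 0 < cnt (Mk S E) l → T ⊆ L 0 := by
  induction l with
  | nil => exact ⟨fun _ => ∅, ⟨by simp [cnt], by simp [cnt], by simp [cnt], by simp [cnt]⟩,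
      by simp [cnt], by simp [cnt], by simp⟩
  | cons T r ih =>
    have hp := List.pairwise_cons.1 h.disj
    obtain ⟨L, h1, h2, h3, h4⟩ := ih ⟨fun X hX => h.sub X (List.mem_cons_of_mem _ hX),
      fun X hX => h.conn X (List.mem_cons_of_mem _ hX), hp.2, h.chain.tail⟩
    have hT := h.sub T List.mem_cons_self
    have hc := h.conn T List.mem_cons_self
    have hd : ∀ j < cnt (Mk S E) r, Disjoint T (L j) := fun j hj => disjoint_right.2 fun v hv => by
      obtain ⟨X, h5, h6⟩ := h3 j hj v hv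
      exact disjoint_right.1 (hp.1 X h5) h6
    have ht : 0 < cnt (Mk S E) r → Touch G T (L 0) := fun h0 => by
      cases r with
      | nil => simp [cnt] at h0
      | cons T' r' => exact (List.isChain_cons_cons.1 h.chain).1.mono subset_rfl (h4 _ _ rfl h0)
    have h3' : ∀ j < cnt (Mk S E) r, ∀ v ∈ L j, ∃ X ∈ T :: r, v ∈ X := fun j hj v hv =>
      (h3 j hj v hv).imp fun X hX => ⟨List.mem_cons_of_mem _ hX.1, hX.2⟩
    by_cases hm : Mk S E T
    · have e : cnt (Mk S E) (T :: r) = cnt (Mk S E) r + 1 := by simp [cnt, hm]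
      rw [e]
      refine ⟨fun j => Nat.casesOn j T L, ⟨?_, ?_, ?_, ?_⟩, ?_, ?_, ?_⟩
      · rintro (_ | j) hj
        exacts [hT, h1.sub j (by omega)]
      · rintro (_ | j) hj
        exacts [hc, h1.conn j (by omega)]
      · rintro (_ | i) hi (_ | j) hj hij
        exacts [absurd rfl hij, hd j (by omega), (hd i (by omega)).symm,
          h1.disj i (by omega) j (by omega) (by omega)]
      · rintro (_ | j) hj
        exacts [hm, h1.thr j (by omega)]
      · rintro (_ | j) hj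
        exacts [ht (by omega), h2 j (by omega)]
      · rintro (_ | j) hj v hv
        exacts [⟨T, List.mem_cons_self, hv⟩, h3' j (by omega) v hv]
      · rintro T' r' e -
        exact (List.cons.inj e).1 ▸ subset_rfl
    · have e : cnt (Mk S E) (T :: r) = cnt (Mk S E) r := by simp [cnt, hm]
      rw [e]
      refine ⟨fun j => Nat.casesOn j (T ∪ L 0) fun j => L (j + 1), ⟨?_, ?_, ?_, ?_⟩, ?_, ?_, ?_⟩
      · rintro (_ | j) hj
        exacts [union_subset hT (h1.sub 0 hj), h1.sub _ hj]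
      · rintro (_ | j) hj
        exacts [hc.union_touch (h1.conn 0 hj) (ht hj), h1.conn _ hj]
      · rintro (_ | i) hi (_ | j) hj hij
        exacts [absurd rfl hij, disjoint_union_left.2 ⟨hd _ hj, h1.disj 0 hi _ hj hij⟩,
          disjoint_union_right.2 ⟨(hd _ hi).symm, h1.disj _ hi 0 hj hij⟩, h1.disj _ hi _ hj hij]
      · rintro (_ | j) hj
        exacts [(h1.thr 0 hj).mono subset_union_right, h1.thr _ hj]
      · rintro (_ | j) hj
        exacts [(h2 0 hj).mono subset_union_right subset_rfl, h2 _ hj]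
      · rintro (_ | j) hj v hv
        exacts [(mem_union.1 hv).elim (fun hv => ⟨T, List.mem_cons_self, hv⟩) (h3' 0 hj v),
          h3' _ hj v hv]
      · rintro T' r' e -
        exact (List.cons.inj e).1 ▸ subset_union_left

end Tools

open Tools

theorem fe : FEStmt := by
  intro V G U K β S0 X s h hK h0 hs hf hX
  have main : ∀ n, S0.card ≤ n → n ≤ s →
      ∃ S, S0 ⊆ S ∧ S ⊆ S0 ∪ X ∧ S.card = n ∧ Free β K S ∧ S ⊆ U := by
    intro n hn
    induction n, hn using Nat.le_induction with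
    | base => exact fun _ => ⟨S0, subset_rfl, subset_union_left, rfl, hf, h0⟩
    | succ n _ ih =>
      intro hn
      obtain ⟨I, h1, h2, h3, h4, h5⟩ := ih (by omega)
      obtain ⟨v, v1, v2, v3, v4⟩ := free_step (X := X) h h5 (by omega) h4 fun Z hZ => by
        obtain ⟨v, hv⟩ := card_pos.1 (lt_of_lt_of_le (by omega) (hX Z (by omega)))
        exact ⟨v, mem_inter.1 hv⟩
      exact ⟨insert v I, h1.trans (subset_insert _ _), insert_subset (mem_union_right _ v1) h2,
        by rw [card_insert_of_notMem v3, h3], v4, insert_subset v2 h5⟩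
  obtain ⟨S, h1, h2, h3, h4, -⟩ := main s hs le_rfl
  exact ⟨S, h1, h2, h3, h4⟩

theorem fat : FATStmt := by
  intro V ι _ _ G U P hU hP hd
  obtain ⟨Q, ⟨h1, h2⟩, hmax⟩ := exists_max_of (p := fun Q : ι → Finset V =>
    (∀ i, P i ⊆ Q i ∧ Q i ⊆ U ∧ Conn G (Q i)) ∧ ∀ i j, i ≠ j → Disjoint (Q i) (Q j))
    (fun Q => ∑ i, (Q i).card) (∑ _i : ι, U.card)
    (fun Q hQ => sum_le_sum fun i _ => card_le_card (hQ.1 i).2.1)
    ⟨P, fun i => ⟨subset_rfl, hP i⟩, hd⟩
  obtain ⟨i0⟩ := ‹Nonempty ι›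
  obtain ⟨a, ha⟩ := (h1 i0).2.2.1
  have hcov : ∀ v ∈ U, ∃ i, v ∈ Q i := by
    intro v hv
    by_contra hc
    obtain ⟨x, y, hx, hy, -, hyU, hxy⟩ := hU.exit (T := univ.biUnion Q) ((h1 i0).2.1 ha)
      (mem_biUnion.2 ⟨i0, mem_univ _, ha⟩) hv (by simpa using hc)
    obtain ⟨i, -, hi⟩ := mem_biUnion.1 hx
    have hy' : ∀ j, y ∉ Q j := by simpa using hy
    have hs : ∀ j, Q j ⊆ Function.update Q i (insert y (Q i)) j := fun j => by
      by_cases e : j = i
      · rw [e, Function.update_self]; exact subset_insert _ _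
      · rw [Function.update_of_ne e]
    have := hmax (Function.update Q i (insert y (Q i))) ⟨fun j => ⟨(h1 j).1.trans (hs j), ?_⟩, ?_⟩
    · refine absurd (sum_lt_sum (fun j _ => card_le_card (hs j)) ⟨i, mem_univ _, ?_⟩) this.not_gt
      rw [Function.update_self, card_insert_of_notMem (hy' i)]
      omega
    · by_cases e : j = i
      · rw [e, Function.update_self]
        exact ⟨insert_subset hyU (h1 i).2.1, (h1 i).2.2.insert hi hxy⟩
      · rw [Function.update_of_ne e]; exact (h1 j).2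
    · intro j k hjk
      by_cases e : j = i <;> by_cases e' : k = i
      · exact absurd (e.trans e'.symm) hjk
      · rw [e, Function.update_self, Function.update_of_ne e']
        exact disjoint_insert_left.2 ⟨hy' k, h2 i k (Ne.symm e')⟩
      · rw [e', Function.update_self, Function.update_of_ne e]
        exact disjoint_insert_right.2 ⟨hy' j, h2 j i e⟩
      · rw [Function.update_of_ne e, Function.update_of_ne e']
        exact h2 j k hjk
  refine ⟨Q, h1, h2, hcov, Conn.of_center (mem_univ i0) fun j _ => ?_⟩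
  obtain ⟨v, hv⟩ := (h1 j).2.2.1
  refine (hU.2 a ((h1 i0).2.1 ha) v ((h1 j).2.1 hv)).ind
    (P := fun v => ∀ j, v ∈ Q j → R (tg G Q) univ i0 j) (fun j hj => ?_) ?_ j hv
  · by_cases e : i0 = j
    · exact e ▸ R.refl
    · exact absurd hj (disjoint_left.1 (h2 i0 j e) ha)
  · intro x y _ hx hxy hxT _ j hj
    obtain ⟨j', hj'⟩ := hcov x hxT
    by_cases e : j' = j
    · exact e ▸ hx j' hj'
    · exact (hx j' hj').tail ⟨e, x, hj', y, hj, hxy⟩ (mem_univ _) (mem_univ _)

theorem link : LINKStmt := by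
  intro V κ _ _ G U K β p q h hK hp hq fp fq
  have ex : ∀ r : κ → V, Function.Injective r → Free β K (univ.image r) → ∀ Z : Finset V,
      Z.card < Fintype.card κ → ∃ x ∈ univ.image r, x ∈ β Z := fun r hr fr Z hZ => by
    obtain ⟨x, h1, h2⟩ := exists_not_mem_of_card_lt (s := univ.image r)
      ((fr Z (by omega)).trans_lt (by rwa [card_image_of_injective _ hr]))
    exact ⟨x, h1, by simpa [h1] using h2⟩
  obtain ⟨P, hP, hp'⟩ := menger_from (G := G) (U := β ∅) (B := univ.image q) p fun Z hZ => by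
    obtain ⟨a, a1, a2⟩ := ex p hp fp Z hZ
    obtain ⟨b, b1, b2⟩ := ex q hq fq Z hZ
    have hZ' : Z.card < K := by omega
    have hs : β Z ⊆ β ∅ \ Z := fun v hv =>
      mem_sdiff.2 ⟨h.mono _ _ (empty_subset _) hZ' hv, h.not_mem hZ' hv⟩
    exact ⟨a, a1, b, b1, hs a2, (h.conn Z hZ').r a2 b2 hs⟩
  have h1 : ∀ k, ∃ j, q j ∈ P k := fun k => by
    obtain ⟨b, h1, h2⟩ := hP.right k
    obtain ⟨j, -, rfl⟩ := mem_image.1 h1
    exact ⟨j, h2⟩
  choose π hπ using h1
  have hi : Function.Injective π := fun k k' e => by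
    by_contra hne
    exact disjoint_left.1 (hP.disj k k' hne) (hπ k) (e ▸ hπ k')
  exact ⟨P, Equiv.ofBijective π (Finite.injective_iff_bijective.1 hi),
    fun k => ⟨hP.sub k, hP.conn k, hp' k, hπ k⟩, hP.disj⟩

theorem ext : EXTStmt := by
  intro V ι _ G C l lo len m h hlen hl hW
  let W : ℕ → ℕ → Prop := fun a b => Win G ((Icc a b).biUnion fun j => (C j).reg)
    (univ.image (C a).a) (univ.image (C b).b) m
  have dj : ∀ a b j, b < l → j < l → j ∉ Icc a b →
      Disjoint ((Icc a b).biUnion fun j => (C j).reg) (C j).reg := fun a b j hb hj hn =>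
    (disjoint_biUnion_left _ _ _).2 fun i hi =>
      h.disj i ((mem_Icc.1 hi).2.trans_lt hb) j hj fun e => hn (e ▸ hi)
  have sb : ∀ a b a' b' j, a' ≤ a → b ≤ b' → a' ≤ j → j ≤ b' →
      ((Icc a b).biUnion fun j => (C j).reg) ∪ (C j).reg ⊆ (Icc a' b').biUnion fun j => (C j).reg :=
    fun a b a' b' j h1 h2 h3 h4 => union_subset
      (biUnion_subset_biUnion_of_subset_left _ (Icc_subset_Icc h1 h2))
      (subset_biUnion_of_mem (fun j => (C j).reg) (mem_Icc.2 ⟨h3, h4⟩))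
  have im : ∀ (f : ι → V), ∀ x ∈ univ.image f, ∃ i, x = f i := fun f x hx => by
    obtain ⟨i, -, rfl⟩ := mem_image.1 hx
    exact ⟨i, rfl⟩
  have left : ∀ a b, a ≤ b → b < l → W a b → W 0 b := by
    intro a b
    induction a with
    | zero => exact fun _ _ h => h
    | succ a ih =>
      intro h1 h2 h3
      have c := h.cl a (by omega)
      refine ih (by omega) h2 ((grow (N := (C a).lane) h3 (dj _ _ a h2 (by omega) (by simp))
        (im _) (fun i => ⟨c.sub i, c.conn i, ⟨_, c.mb i, _, mem_singleton_self _,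
          h.adj a (by omega) i⟩, _, mem_image_of_mem _ (mem_univ i), c.ma i⟩) c.disj).mono
        (sb _ _ _ _ _ (by omega) le_rfl le_rfl (by omega)) le_rfl)
  have right : ∀ b b', b ≤ b' → b' < l → W 0 b → W 0 b' := by
    intro b b' hb
    induction b', hb using Nat.le_induction with
    | base => exact fun _ h => h
    | succ n hn ih =>
      intro h2 h3
      have c := h.cl _ h2
      exact ((grow (N := (C (n + 1)).lane) (ih (by omega) h3).symm
        (dj _ _ _ (by omega) h2 (by simp)) (im _) (fun i => ⟨c.sub i, c.conn i,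
          ⟨_, c.ma i, _, mem_singleton_self _, (h.adj n h2 i).symm⟩, _,
          mem_image_of_mem _ (mem_univ i), c.mb i⟩) c.disj).mono
        (sb _ _ _ _ _ le_rfl (by omega) (by omega) le_rfl) le_rfl).symm
  have h1 : W lo (lo + (len - 1)) := hW.mono (fun v hv => by
    obtain ⟨j, hj, hv⟩ := mem_Reg.1 hv
    exact mem_biUnion.2 ⟨lo + j, mem_Icc.2 ⟨by omega, by omega⟩, hv⟩) le_rfl
  exact (right _ (l - 1) (by omega) (by omega) (left _ _ (by omega) (by omega) h1)).mono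
    (biUnion_subset.2 fun j hj => reg_sub_Reg (by have := (mem_Icc.1 hj).2; omega)) le_rfl

theorem seq : SEQStmt := by
  intro V G Big S E l m h hm
  obtain ⟨L, h1, h2, -⟩ := seq_aux (S := S) (E := E) l h
  exact ⟨L, h1.mono subset_rfl hm, fun j hj => h2 j (by omega)⟩

theorem spos (hfe : FEStmt) : SPOSStmt := by
  intro l
  obtain ⟨ρ, lam, h⟩ := pos_of_treewidth l
  refine ⟨ρ * 4 ^ l, lam * (4 ^ l * 8), fun {V} _ G n hn htw => ?_⟩
  obtain ⟨w, σ, C, c1, c2, c3, c4⟩ := h G (4 ^ l * 8 * n) (by positivity)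
    (le_trans (le_of_eq (by ring)) htw)
  have main : ∀ j ≤ l, ∃ Θ : Finset (Fin w), w ≤ 4 ^ j * Θ.card ∧
      ∀ i < j, Free (C i).β w (Θ.image (C i).b) := by
    intro j
    induction j with
    | zero => exact fun _ => ⟨univ, by simp, by simp⟩
    | succ j ih =>
      intro hj
      obtain ⟨Θ, h1, h2⟩ := ih (by omega)
      have c := c2.cl j hj
      have h8 : 8 ≤ Θ.card := by
        have e1 : 4 ^ j ≤ 4 ^ l := Nat.pow_le_pow_right (by omega) (by omega)
        refine Nat.le_of_mul_le_mul_left (le_trans ?_ (c1.trans h1)) (Nat.pow_pos (by omega))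
        exact (Nat.mul_le_mul_right _ e1).trans (Nat.le_mul_of_pos_right _ hn)
      have hw : Θ.card ≤ w := (card_le_univ _).trans (by simp)
      have hv := c.hv
      rw [Fintype.card_fin] at hv
      obtain ⟨S, -, s1, s2, s3⟩ := hfe ∅ (Θ.image (C j).b) (Θ.card / 3) hv (by omega) (by simp)
        (by simp) (fun Z _ => by simp) fun Z hZ => by
          have e1 := c.two (Z := Z) (by rw [Fintype.card_fin]; omega)
          have e2 := le_card_sdiff (univ.filter fun i => ¬ (C j).lane i ⊆ (C j).β Z) Θ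
          have e3 : (Θ \ univ.filter fun i => ¬ (C j).lane i ⊆ (C j).β Z).image (C j).b ⊆
              Θ.image (C j).b ∩ (C j).β Z := by
            intro x hx
            obtain ⟨i, hi, rfl⟩ := mem_image.1 hx
            have e4 : (C j).lane i ⊆ (C j).β Z := by simpa using (mem_sdiff.1 hi).2
            exact mem_inter.2 ⟨mem_image_of_mem _ (mem_sdiff.1 hi).1, e4 (c.mb i)⟩
          have e5 := card_le_card e3
          rw [card_image_of_injective _ c.b_inj] at e5
          omega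
      have s4 : (Θ.filter fun i => (C j).b i ∈ S).image (C j).b = S := by
        ext x
        simp only [mem_image, mem_filter]
        refine ⟨fun ⟨i, hi, e⟩ => e ▸ hi.2, fun hx => ?_⟩
        obtain ⟨i, hi, rfl⟩ := mem_image.1 (by simpa using s1 hx : x ∈ Θ.image (C j).b)
        exact ⟨i, ⟨hi, hx⟩, rfl⟩
      have s5 := congrArg card s4
      rw [card_image_of_injective _ c.b_inj] at s5
      refine ⟨Θ.filter fun i => (C j).b i ∈ S, h1.trans ?_, fun i hi => ?_⟩
      · rw [pow_succ, mul_assoc]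
        exact Nat.mul_le_mul_left _ (by omega)
      · rcases Nat.lt_succ_iff_lt_or_eq.1 hi with hi | rfl
        · exact (h2 i hi).mono (image_subset_image (filter_subset _ _))
        · rwa [s4]
  obtain ⟨Θ, h1, h2⟩ := main l le_rfl
  have hw : Θ.card ≤ w := (card_le_univ _).trans (by simp)
  let e : Fin Θ.card → Fin w := fun i => (Θ.equivFin.symm i).1
  have he : Function.Injective e := fun i j hij => Θ.equivFin.symm.injective (Subtype.ext hij)
  refine ⟨Θ.card, σ, fun j => res (C j) e (C j).reg (C j).β, ?_, ⟨fun j hj =>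
    ⟨cluster_res (c2.cl j hj) he, ?_⟩, c2.disj, fun j hj i => c2.adj j hj (e i)⟩, c3,
    c4.trans (by rw [mul_assoc]; exact Nat.mul_le_mul_left _ h1)⟩
  · refine Nat.le_of_mul_le_mul_left (le_trans ?_ (c1.trans h1)) (Nat.pow_pos (by omega))
    nlinarith [Nat.zero_le (4 ^ l * n)]
  · refine (free_image ((c2.cl j hj).b_inj.comp he)).1 (((h2 j hj).mono fun x hx => ?_).le
      (by simpa using hw))
    obtain ⟨i, -, rfl⟩ := mem_image.1 hx
    exact mem_image_of_mem _ (Θ.equivFin.symm i).2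

end Pool.Agent.MP_7be75d_co.Gen

end MrgPart4

-- marker of a merged file
example : 731051 + 882881 = 731051 + 882881 := rfl
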