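import Pool.Agent.MP_7be75d_co.Gen.Comb1
import Pool.Agent.MP_7be75d_co.Gen.Half2
import Pool.Agent.MP_7be75d_co.Gen.Tools
import Pool.Agent.MP_7be75d_co.Gen.Cut
import Pool.Agent.MP_7be75d_co.Gen.Comb
import Pool.Agent.MP_7be75d_co.Gen.Time
import Pool.Agent.MP_7be75d_co.Gen.Step
import Pool.Agent.MP_7be75d_co.Gen.Sim

-- ======== part 0: formerly Pool.Agent.MP_7be75d_co.Gen.Top
section MrgPart0

/-! The theorem from the module statements. -/

namespace Pool.Agent.MP_7be75d_co.Gen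

open Finset
open scoped Classical

theorem pieces_of (h1 : CUTStmt) (h2 : PACKStmt) : PIECESStmt := by
  intro k
  obtain ⟨N, hN⟩ := h1 k
  obtain ⟨N', hN'⟩ := h2 N
  refine ⟨N', fun H X a1 a2 a3 => ?_⟩
  obtain ⟨X', b1, b2, b3⟩ := hN H X a1 a2 a3
  exact hN' H X' b2 (a2.mono (sdiff_subset_sdiff subset_rfl b1)) a3 b3

theorem nf_of (h1 : NFAStmt) (h2 : NFBStmt) : NFStmt := fun nx nt pt φ ψ h =>
  h2 nx nt _ pt h.lt (h1 nx nt pt φ ψ h)

theorem cell_of (h1 : CPStmt) (h2 : CELLPStmt) (h3 : CELLSStmt) : CELLStmt := by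
  intro ρ
  obtain ⟨E1, h1⟩ := h1 ρ
  obtain ⟨E2, h2⟩ := h2
  obtain ⟨E3, h3⟩ := h3
  refine ⟨E1 * (E2 + E3 + 1), fun {V ι} _ _ {G C σ n} a1 a2 a3 a4 => ?_⟩
  rcases h1 (m := (E2 + E3) * (n + 1)) (a1.shift 1 13 (by omega)) a2 a3 (le_trans (by
    rw [mul_assoc]; exact Nat.mul_le_mul_left _ (by nlinarith)) a4) with h | h
  · exact h2 a1 (Nat.mul_le_mul_right _ (by omega)) h
  · exact h3 a1 (Nat.mul_le_mul_right _ (by omega)) h

theorem NFin.mono {K nx nt : ℕ} {adj adj' : ℕ → ℕ → Prop} {pt : ℕ → Fin 4 → Option ℕ}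
    (h : NFin K nx nt adj pt) (ha : ∀ x < nx, ∀ y < nx, adj' x y → adj x y) :
    NFin K nx nt adj' pt := by
  obtain ⟨φ, π, f1, f2, a1, a2, a3, a4⟩ := h
  exact ⟨φ, π, f1, f2, a1, a2, fun x hx y hy hn h => a3 x hx y hy hn (ha x hx y hy h), a4⟩

theorem main_of (hEP : EPStmt) (hP : PIECESStmt) (hF : FINStmt) (hS : SIMStmt) (hH : HOSTStmt)
    (hD : DRAWStmt) (hN : NOKStmt) (hNF : NFStmt) (hA : ASMStmt) : MainStmt := by
  intro c
  obtain ⟨k, hk⟩ := hEP c
  obtain ⟨N, hN'⟩ := hP k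
  obtain ⟨K, hK⟩ := hF N
  obtain ⟨N1, M, hs⟩ := hS K
  obtain ⟨g, hg⟩ := hH N1 M
  refine ⟨g * 2, fun W V _ _ H G h1 h2 h3 => ?_⟩
  rcases isEmpty_or_nonempty W with hW | hW
  · exact ⟨fun w => isEmptyElim w, fun w => isEmptyElim w, fun w => isEmptyElim w,
      fun w => isEmptyElim w⟩
  have hpos : 0 < Fintype.card W := Fintype.card_pos
  obtain ⟨ω, Γ, x, x', Wr, S, s1, s2⟩ := hg G (2 * Fintype.card W) (by omega) (by
    rwa [← mul_assoc])
  obtain ⟨Eh, Ev, S', hc⟩ := hs (by omega) s1 s2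
  obtain ⟨X, x1, x2⟩ := hk H h2
  have hm := hD H h1
  obtain ⟨nx, nt, xs, Pc, m, sp, sd, pt, φ, ψ, p1, p2, p3, p4, p5⟩ :=
    hN' H X x1 x2 (NoK33.of_mdl hN hm)
  obtain ⟨θ, t1, t2, t3⟩ := hm
  obtain ⟨K', hK'⟩ := hNF nx nt pt _ _ (p4.map t1 t2 t3)
  refine (hA p3 (hK nx p1 nt p2 _ pt p3.lt ⟨K', hK'.mono fun x hx y hy h => ?_⟩) hc
    (by omega)).isMinor
  exact touch_map t3 ⟨_, p5 x hx, _, p5 y hy, h⟩

end Pool.Agent.MP_7be75d_co.Gen

end MrgPart0

-- ======== part 1: formerly Pool.Agent.MP_7be75d_co.Gen.Asm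
section MrgPart1

/-! Assembly of the model from a grid of cells. -/

namespace Pool.Agent.MP_7be75d_co.Gen

open Finset
open scoped Classical

namespace Asm

variable {V τ : Type} {G : SimpleGraph V}

/-- A model of a shape with two apices; `I` is the spine. -/
structure Fl (G : SimpleGraph V) (S : Finset V) (J : SimpleGraph τ) (P I : Finset τ)
    (sd : τ → Bool) (ψ : τ → Finset V) (A B : Finset V) : Prop where
  sub : ∀ t ∈ P, ψ t ⊆ S
  conn : ∀ t ∈ P, Conn G (ψ t)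
  disj : ∀ t ∈ P, ∀ t' ∈ P, t ≠ t' → Disjoint (ψ t) (ψ t')
  dA : ∀ t ∈ P, Disjoint (ψ t) A
  dB : ∀ t ∈ P, Disjoint (ψ t) B
  subA : A ⊆ S
  subB : B ⊆ S
  connA : Conn G A
  connB : Conn G B
  dAB : Disjoint A B
  adj : ∀ x ∈ P, ∀ y ∈ P, J.Adj x y → Touch G (ψ x) (ψ y)
  tA : ∀ t ∈ P, t ∈ I ∨ sd t = false → Touch G (ψ t) A
  tB : ∀ t ∈ P, t ∈ I ∨ sd t = true → Touch G (ψ t) B

variable {J : SimpleGraph τ} {P I : Finset τ} {m n : ℕ} {sp : ℕ → τ} {sd : τ → Bool}
  {ψ : τ → Finset V} {S A B : Finset V}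

theorem Fl.swap (h : Fl G S J P I (fun t => !sd t) ψ A B) : Fl G S J P I sd ψ B A :=
  ⟨h.sub, h.conn, h.disj, h.dB, h.dA, h.subB, h.subA, h.connB, h.connA, h.dAB.symm, h.adj,
    fun t ht a => h.tB t ht (by simpa using a), fun t ht a => h.tA t ht (by simpa using a)⟩

theorem shape_swap (h : Shape J P m sp sd) : Shape J P m sp fun t => !sd t :=
  ⟨h.pos, h.mem, h.inj, h.cons, fun x hx y hy a b c => by rw [h.side x hx y hy a b c], h.peel⟩

theorem image_rev (m : ℕ) (sp : ℕ → τ) :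
    (range m).image (fun i => sp (m - 1 - i)) = (range m).image sp := by
  ext w
  simp only [mem_image, mem_range]
  constructor
  · rintro ⟨i, hi, rfl⟩
    exact ⟨m - 1 - i, by omega, rfl⟩
  · rintro ⟨i, hi, rfl⟩
    exact ⟨m - 1 - i, by omega, by rw [show m - 1 - (m - 1 - i) = i by omega]⟩

theorem shape_rev (h : Shape J P m sp sd) : Shape J P m (fun i => sp (m - 1 - i)) sd := by
  have hm := h.pos
  refine ⟨hm, fun i _ => h.mem _ (by omega), fun i hi j hj e => ?_, fun i hi j hj e => ?_, ?_, ?_⟩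
  · have := h.inj _ (by omega) _ (by omega) e
    omega
  · have := h.cons _ (by omega) _ (by omega) e
    omega
  · rw [image_rev]
    exact h.side
  · rw [image_rev]
    exact h.peel

/-- The filling of a cell together with its left and lower wire. -/
theorem fill0 {D L R U : Finset V} (hc : Cell G n S D L R U) (cD : Conn G D) (cL : Conn G L)
    (d1 : Disjoint L S) (d2 : Disjoint D S) (d3 : Disjoint L D) (h : Shape J P m sp sd)
    (hn : P.card ≤ n) : ∃ ψ A B, Fl G (L ∪ D ∪ S) J P ((range m).image sp) sd ψ A B ∧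
      L ⊆ ψ (sp 0) ∧ Touch G (ψ (sp (m - 1))) R ∧ D ⊆ A ∧ Touch G B U := by
  obtain ⟨pa, pu, pv, pb, hv, t1, t2, t3, t4⟩ := hc
  obtain ⟨ψ, A, B, f, m1, m2, m3, m4⟩ := hv τ J P m sp sd h hn
  let ψ' : τ → Finset V := fun t => if t = sp 0 then ψ t ∪ L else ψ t
  have s1 : ∀ t, ψ t ⊆ ψ' t := by
    intro t
    simp only [ψ']
    split_ifs
    · exact subset_union_left
    · exact subset_rfl
  have s2 : ∀ t v, v ∈ ψ' t → v ∈ ψ t ∨ (t = sp 0 ∧ v ∈ L) := by
    intro t v hv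
    simp only [ψ'] at hv
    split_ifs at hv with e
    · exact (mem_union.1 hv).imp id fun a => ⟨e, a⟩
    · exact Or.inl hv
  refine ⟨ψ', A ∪ D, B, ⟨fun t ht v hv => ?_, fun t ht => ?_, fun t ht t' ht' hne => ?_,
    fun t ht => ?_, fun t ht => ?_, ?_, f.subB.trans subset_union_right,
    f.connA.union_touch cD (touch_of_mem t1 m1), f.connB, ?_,
    fun x hx y hy a => (f.adj x hx y hy a).mono (s1 x) (s1 y),
    fun t ht a => (f.tA t ht a).mono (s1 t) subset_union_left,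
    fun t ht a => (f.tB t ht a).mono (s1 t) subset_rfl⟩, ?_,
    (touch_of_mem t3 m3).mono (s1 _) subset_rfl, subset_union_right, touch_of_mem t4 m4⟩
  · rcases s2 t v hv with a | a
    · exact mem_union_right _ (f.sub t ht a)
    · exact mem_union_left _ (mem_union_left _ a.2)
  · simp only [ψ']
    split_ifs with e
    · exact (f.conn t ht).union_touch cL (touch_of_mem t2 (e ▸ m2))
    · exact f.conn t ht
  · refine disjoint_left.2 fun v h1 h2 => ?_
    rcases s2 t v h1 with a | a <;> rcases s2 t' v h2 with b | b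
    · exact disjoint_left.1 (f.disj t ht t' ht' hne) a b
    · exact disjoint_left.1 d1 b.2 (f.sub t ht a)
    · exact disjoint_left.1 d1 a.2 (f.sub t' ht' b)
    · exact hne (a.1.trans b.1.symm)
  · refine disjoint_left.2 fun v h1 h2 => ?_
    rcases s2 t v h1 with a | a <;> rcases mem_union.1 h2 with b | b
    · exact disjoint_left.1 (f.dA t ht) a b
    · exact disjoint_left.1 d2 b (f.sub t ht a)
    · exact disjoint_left.1 d1 a.2 (f.subA b)
    · exact disjoint_left.1 d3 a.2 b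
  · refine disjoint_left.2 fun v h1 h2 => ?_
    rcases s2 t v h1 with a | a
    · exact disjoint_left.1 (f.dB t ht) a h2
    · exact disjoint_left.1 d1 a.2 (f.subB h2)
  · exact union_subset (f.subA.trans subset_union_right)
      (subset_union_right.trans subset_union_left)
  · exact disjoint_union_left.2 ⟨f.dAB, d2.mono_right f.subB⟩
  · simp only [ψ', if_true]
    exact subset_union_right

/-- The same with both reflections. -/
theorem fill {D L R U : Finset V} (hc : Cell G n S D L R U) (cD : Conn G D) (cL : Conn G L)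
    (d1 : Disjoint L S) (d2 : Disjoint D S) (d3 : Disjoint L D) (h : Shape J P m sp sd)
    (hn : P.card ≤ n) (f1 f2 : Bool) :
    ∃ ψ A B, Fl G (L ∪ D ∪ S) J P ((range m).image sp) sd ψ A B ∧
      (if f1 then Touch G (ψ (sp 0)) R ∧ L ⊆ ψ (sp (m - 1))
        else L ⊆ ψ (sp 0) ∧ Touch G (ψ (sp (m - 1))) R) ∧
      (if f2 then Touch G A U ∧ D ⊆ B else D ⊆ A ∧ Touch G B U) := by
  have hm := h.pos
  have e : m - 1 - (m - 1) = 0 := by omega
  cases f1 <;> cases f2
  · obtain ⟨ψ, A, B, f, a1, a2, a3, a4⟩ := fill0 hc cD cL d1 d2 d3 h hn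
    exact ⟨ψ, A, B, f, ⟨a1, a2⟩, a3, a4⟩
  · obtain ⟨ψ, A, B, f, a1, a2, a3, a4⟩ := fill0 hc cD cL d1 d2 d3 (shape_swap h) hn
    exact ⟨ψ, B, A, f.swap, ⟨a1, a2⟩, a4, a3⟩
  · obtain ⟨ψ, A, B, f, a1, a2, a3, a4⟩ := fill0 hc cD cL d1 d2 d3 (shape_rev h) hn
    rw [image_rev] at f
    rw [e] at a2
    exact ⟨ψ, A, B, f, ⟨a2, a1⟩, a3, a4⟩
  · obtain ⟨ψ, A, B, f, a1, a2, a3, a4⟩ :=
      fill0 hc cD cL d1 d2 d3 (shape_swap (shape_rev h)) hn
    rw [image_rev] at f
    rw [e] at a2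
    exact ⟨ψ, B, A, f.swap, ⟨a2, a1⟩, a4, a3⟩

section Grid

variable {K : ℕ} {Eh Ev Sc : ℕ × ℕ → Finset V}

/-- The points of the grid. -/
def In (K : ℕ) (p : ℕ × ℕ) : Prop := p.1 < K ∧ p.2 < K

theorem ok_of_in {p : ℕ × ℕ} (hp : In K p) (a : Fin 3) : cgOk K (a, p) := by
  unfold cgOk
  split_ifs
  · exact ⟨hp.1.le, hp.2⟩
  · exact ⟨hp.1, hp.2.le⟩
  · exact hp

theorem terr (h : CellGrid G K n Eh Ev Sc) {p q : ℕ × ℕ} (hp : In K p) (hq : In K q) {v : V}
    (h1 : v ∈ Eh p ∪ Ev p ∪ Sc p) (h2 : v ∈ Eh q ∪ Ev q ∪ Sc q) : p = q := by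
  have key : ∀ p : ℕ × ℕ, v ∈ Eh p ∪ Ev p ∪ Sc p → ∃ a : Fin 3, v ∈ cgAt Eh Ev Sc (a, p) := by
    intro p hv
    rcases mem_union.1 hv with hv | hv
    · rcases mem_union.1 hv with hv | hv
      · exact ⟨0, hv⟩
      · exact ⟨1, hv⟩
    · exact ⟨2, hv⟩
  obtain ⟨a, ha⟩ := key p h1
  obtain ⟨b, hb⟩ := key q h2
  by_contra hne
  exact disjoint_left.1 (h.disj (a, p) (b, q) (ok_of_in hp a) (ok_of_in hq b)
    fun e => hne (congrArg Prod.snd e)) ha hb

theorem d3 (h : CellGrid G K n Eh Ev Sc) {p : ℕ × ℕ} (hp : In K p) :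
    Disjoint (Eh p) (Sc p) ∧ Disjoint (Ev p) (Sc p) ∧ Disjoint (Eh p) (Ev p) :=
  ⟨h.disj (0, p) (2, p) (ok_of_in hp _) (ok_of_in hp _) (by simp),
    h.disj (1, p) (2, p) (ok_of_in hp _) (ok_of_in hp _) (by simp),
    h.disj (0, p) (1, p) (ok_of_in hp _) (ok_of_in hp _) (by simp)⟩

/-- The blob of a point. -/
structure Blob (G : SimpleGraph V) (Eh Ev Sc : ℕ × ℕ → Finset V) (p : ℕ × ℕ) (Y : Finset V) :
    Prop where
  sub : Y ⊆ Eh p ∪ Ev p ∪ Sc p
  conn : Conn G Y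
  l : Eh p ⊆ Y
  d : Ev p ⊆ Y
  r : Touch G Y (Eh (p.1 + 1, p.2))
  u : Touch G Y (Ev (p.1, p.2 + 1))

theorem exists_blob (h : CellGrid G K n Eh Ev Sc) (hn : 1 ≤ n) :
    ∃ Y : ℕ × ℕ → Finset V, ∀ p, In K p → Blob G Eh Ev Sc p (Y p) := by
  have : ∀ p, ∃ Y, In K p → Blob G Eh Ev Sc p Y := by
    intro p
    by_cases hp : In K p
    · obtain ⟨X, a1, a2, a3, a4, a5, a6⟩ := (h.cell p.1 hp.1 p.2 hp.2).blob hn
      refine ⟨Eh p ∪ Ev p ∪ X, fun _ => ⟨union_subset_union subset_rfl a1, ?_,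
        subset_union_left.trans subset_union_left, subset_union_right.trans subset_union_left,
        a5.mono subset_union_right subset_rfl, a6.mono subset_union_right subset_rfl⟩⟩
      rw [union_assoc]
      exact (h.ch p.1 hp.1.le p.2 hp.2).union_touch
        ((h.cv p.1 hp.1 p.2 hp.2.le).union_touch a2 a3.symm)
        (a4.symm.mono subset_rfl subset_union_right)
    · exact ⟨∅, fun a => absurd a hp⟩
  choose Y hY using this
  exact ⟨Y, hY⟩

theorem blob_adj {Y : ℕ × ℕ → Finset V} (hY : ∀ p, In K p → Blob G Eh Ev Sc p (Y p))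
    {p q : ℕ × ℕ} (hp : In K p) (hq : In K q) (h : gridN.Adj p q) : Touch G (Y p) (Y q) := by
  have key : ∀ p q : ℕ × ℕ, In K p → In K q →
      (q.1 = p.1 + 1 ∧ q.2 = p.2) ∨ (q.1 = p.1 ∧ q.2 = p.2 + 1) → Touch G (Y p) (Y q) := by
    rintro p ⟨i, j⟩ hp hq (⟨rfl, rfl⟩ | ⟨rfl, rfl⟩)
    · exact (hY p hp).r.mono subset_rfl (hY _ hq).l
    · exact (hY p hp).u.mono subset_rfl (hY _ hq).d
  rcases ((SimpleGraph.fromRel_adj _ _ _).1 h).2 with a | a
  · exact key p q hp hq a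
  · exact (key q p hq hp a).symm

/-- The filling of a marker touches the blobs of its neighbours. -/
theorem marker (h : CellGrid G K n Eh Ev Sc) {Y : ℕ × ℕ → Finset V}
    (hY : ∀ p, In K p → Blob G Eh Ev Sc p (Y p)) {p : ℕ × ℕ} (hp : In K p)
    (hs : Shape J P m sp sd) (hn : P.card ≤ n) (f1 f2 : Bool) :
    ∃ ψ A B, Fl G (Eh p ∪ Ev p ∪ Sc p) J P ((range m).image sp) sd ψ A B ∧ ∀ q, In K q →
      (Nb f1 f2 0 p q → Touch G (ψ (sp 0)) (Y q)) ∧
      (Nb f1 f2 1 p q → Touch G (ψ (sp (m - 1))) (Y q)) ∧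
      (Nb f1 f2 2 p q → Touch G A (Y q)) ∧ (Nb f1 f2 3 p q → Touch G B (Y q)) := by
  obtain ⟨e1, e2, e3⟩ := d3 h hp
  obtain ⟨ψ, A, B, f, a1, a2⟩ := fill (h.cell p.1 hp.1 p.2 hp.2) (h.cv p.1 hp.1 p.2 hp.2.le)
    (h.ch p.1 hp.1.le p.2 hp.2) e1 e2 e3 hs hn f1 f2
  refine ⟨ψ, A, B, f, fun q hq => ?_⟩
  have b := hY q hq
  have k1 : ∀ X, q = (p.1 + 1, p.2) → Touch G X (Eh (p.1 + 1, p.2)) → Touch G X (Y q) :=
    fun X e t => t.mono subset_rfl (e ▸ b.l)
  have k2 : ∀ X, (q.1 + 1, q.2) = p → Eh (p.1, p.2) ⊆ X → Touch G X (Y q) :=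
    fun X e t => (b.r.mono subset_rfl (by rw [e]; exact t)).symm
  have k3 : ∀ X, q = (p.1, p.2 + 1) → Touch G X (Ev (p.1, p.2 + 1)) → Touch G X (Y q) :=
    fun X e t => t.mono subset_rfl (e ▸ b.d)
  have k4 : ∀ X, (q.1, q.2 + 1) = p → Ev (p.1, p.2) ⊆ X → Touch G X (Y q) :=
    fun X e t => (b.u.mono subset_rfl (by rw [e]; exact t)).symm
  refine ⟨fun e => ?_, fun e => ?_, fun e => ?_, fun e => ?_⟩
  · cases f1
    · exact k2 _ e a1.1
    · exact k1 _ e a1.1
  · cases f1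
    · exact k1 _ e a1.2
    · exact k2 _ e a1.2
  · cases f2
    · exact k4 _ e a2.1
    · exact k3 _ e a2.1
  · cases f2
    · exact k3 _ e a2.2
    · exact k4 _ e a2.2

end Grid

end Asm

open Asm in
theorem asm : ASMStmt := by
  intro V W _ G H K n nx nt xs Pc m sp sd pt Eh Ev S hS hN hG hn
  rcases isEmpty_or_nonempty W with hW | hW
  · exact ⟨fun _ => ∅, fun w => hW.elim w, fun w => hW.elim w, fun w => hW.elim w⟩
  have hn1 : 1 ≤ n := Fintype.card_pos.trans_le hn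
  obtain ⟨φ, π, f1, f2, n1, n2, n3, n4, n5, n6⟩ := hN
  obtain ⟨Y, hY⟩ := exists_blob hG hn1
  have hπ : ∀ t < nt, In K (π t) := fun t ht => ⟨(n4 t ht).1, (n4 t ht).2.1⟩
  have hφ : ∀ x < nx, ∀ p ∈ φ x, In K p := fun x hx => (n1 x hx).2
  have hM : ∀ t, ∃ ψ A B, t < nt → Fl G (Eh (π t) ∪ Ev (π t) ∪ S (π t)) H (Pc t)
      ((range (m t)).image (sp t)) sd ψ A B ∧ ∀ q, In K q →
      (Nb (f1 t) (f2 t) 0 (π t) q → Touch G (ψ (sp t 0)) (Y q)) ∧
      (Nb (f1 t) (f2 t) 1 (π t) q → Touch G (ψ (sp t (m t - 1))) (Y q)) ∧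
      (Nb (f1 t) (f2 t) 2 (π t) q → Touch G A (Y q)) ∧
      (Nb (f1 t) (f2 t) 3 (π t) q → Touch G B (Y q)) := by
    intro t
    by_cases ht : t < nt
    · obtain ⟨ψ, A, B, a⟩ := marker hG hY (hπ t ht) (hS.shape t ht)
        ((card_le_univ _).trans hn) (f1 t) (f2 t)
      exact ⟨ψ, A, B, fun _ => a⟩
    · exact ⟨fun _ => ∅, ∅, ∅, fun a => absurd a ht⟩
  choose ψ A B hM using hM
  have hF := fun t ht => (hM t ht).1
  let Φ : ℕ → Finset V := fun x => (φ x).biUnion Y ∪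
    (((range nt).filter fun t => pt t 2 = some x).biUnion A ∪
      ((range nt).filter fun t => pt t 3 = some x).biUnion B)
  have mΦ : ∀ x v, v ∈ Φ x ↔ (∃ p ∈ φ x, v ∈ Y p) ∨ (∃ t < nt, pt t 2 = some x ∧ v ∈ A t) ∨
      ∃ t < nt, pt t 3 = some x ∧ v ∈ B t := by
    intro x v
    simp only [Φ, mem_union, mem_biUnion, mem_filter, mem_range, and_assoc]
  have sY : ∀ x, ∀ p ∈ φ x, Y p ⊆ Φ x := fun x p hp v hv => (mΦ x v).2 (Or.inl ⟨p, hp, hv⟩)
  have sA : ∀ x, ∀ t < nt, pt t 2 = some x → A t ⊆ Φ x :=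
    fun x t ht e v hv => (mΦ x v).2 (Or.inr (Or.inl ⟨t, ht, e, hv⟩))
  have sB : ∀ x, ∀ t < nt, pt t 3 = some x → B t ⊆ Φ x :=
    fun x t ht e v hv => (mΦ x v).2 (Or.inr (Or.inr ⟨t, ht, e, hv⟩))
  have cΦ : ∀ x < nx, Conn G (Φ x) := by
    intro x hx
    have c0 : Conn G ((φ x).biUnion Y) := (n1 x hx).1.biUnion
      (fun p hp => (hY p (hφ x hx p hp)).conn)
      fun p hp q hq a => blob_adj hY (hφ x hx p hp) (hφ x hx q hq) a
    obtain ⟨a, ha⟩ := c0.1
    have k : ∀ X, X ⊆ Φ x → Conn G X → ∀ q ∈ φ x, Touch G X (Y q) → ∀ v ∈ X, R G (Φ x) a v :=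
      fun X h1 h2 q hq h3 v hv =>
        (c0.union_touch h2 (h3.symm.mono (subset_biUnion_of_mem Y hq) subset_rfl)).r
          (mem_union_left _ ha) (mem_union_right _ hv) (union_subset subset_union_left h1)
    refine Conn.of_center (mem_union_left _ ha) fun v hv => ?_
    rcases (mΦ x v).1 hv with ⟨p, hp, h1⟩ | ⟨t, ht, e, h1⟩ | ⟨t, ht, e, h1⟩
    · exact c0.r ha (mem_biUnion.2 ⟨p, hp, h1⟩) subset_union_left
    · obtain ⟨q, hq, hb⟩ := n6 t ht 2 x e
      exact k _ (sA x t ht e) (hF t ht).connA q hq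
        (((hM t ht).2 q (hφ x hx q hq)).2.2.1 hb) v h1
    · obtain ⟨q, hq, hb⟩ := n6 t ht 3 x e
      exact k _ (sB x t ht e) (hF t ht).connB q hq
        (((hM t ht).2 q (hφ x hx q hq)).2.2.2 hb) v h1
  have tt : ∀ t < nt, ∀ t' < nt, ∀ v, v ∈ Eh (π t) ∪ Ev (π t) ∪ S (π t) →
      v ∈ Eh (π t') ∪ Ev (π t') ∪ S (π t') → t = t' :=
    fun t ht t' ht' v a b => n5 t ht t' ht' (terr hG (hπ t ht) (hπ t' ht') a b)
  have ty : ∀ x < nx, ∀ p ∈ φ x, ∀ t < nt, ∀ v ∈ Y p,
      v ∉ Eh (π t) ∪ Ev (π t) ∪ S (π t) := fun x hx p hp t ht v a b =>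
    (n4 t ht).2.2 x hx (terr hG (hφ x hx p hp) (hπ t ht) ((hY p (hφ x hx p hp)).sub a) b ▸ hp)
  have dΦ : ∀ x < nx, ∀ y < nx, x ≠ y → Disjoint (Φ x) (Φ y) := by
    intro x hx y hy hne
    refine disjoint_left.2 fun v h1 h2 => ?_
    rcases (mΦ x v).1 h1 with ⟨p, hp, a⟩ | ⟨t, ht, e, a⟩ | ⟨t, ht, e, a⟩ <;>
      rcases (mΦ y v).1 h2 with ⟨q, hq, b⟩ | ⟨t', ht', e', b⟩ | ⟨t', ht', e', b⟩
    · obtain rfl := terr hG (hφ x hx p hp) (hφ y hy q hq) ((hY p (hφ x hx p hp)).sub a)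
        ((hY q (hφ y hy q hq)).sub b)
      exact disjoint_left.1 (n2 x hx y hy hne) hp hq
    · exact ty x hx p hp t' ht' v a ((hF t' ht').subA b)
    · exact ty x hx p hp t' ht' v a ((hF t' ht').subB b)
    · exact ty y hy q hq t ht v b ((hF t ht).subA a)
    · obtain rfl := tt t ht t' ht' v ((hF t ht).subA a) ((hF t' ht').subA b)
      exact hne (Option.some.inj (e.symm.trans e'))
    · obtain rfl := tt t ht t' ht' v ((hF t ht).subA a) ((hF t' ht').subB b)
      exact disjoint_left.1 (hF t ht).dAB a b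
    · exact ty y hy q hq t ht v b ((hF t ht).subB a)
    · obtain rfl := tt t ht t' ht' v ((hF t ht).subB a) ((hF t' ht').subA b)
      exact disjoint_left.1 (hF t ht).dAB b a
    · obtain rfl := tt t ht t' ht' v ((hF t ht).subB a) ((hF t' ht').subB b)
      exact hne (Option.some.inj (e.symm.trans e'))
  have dΦψ : ∀ x < nx, ∀ t < nt, ∀ w ∈ Pc t, Disjoint (Φ x) (ψ t w) := by
    intro x hx t ht w hw
    refine disjoint_left.2 fun v h1 h2 => ?_
    have h3 := (hF t ht).sub w hw h2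
    rcases (mΦ x v).1 h1 with ⟨p, hp, a⟩ | ⟨t', ht', -, a⟩ | ⟨t', ht', -, a⟩
    · exact ty x hx p hp t ht v a h3
    · obtain rfl := tt t ht t' ht' v h3 ((hF t' ht').subA a)
      exact disjoint_left.1 ((hF t ht).dA w hw) h2 a
    · obtain rfl := tt t ht t' ht' v h3 ((hF t' ht').subB a)
      exact disjoint_left.1 ((hF t ht).dB w hw) h2 a
  have tψ : ∀ t < nt, ∀ w ∈ Pc t, ∀ x < nx, H.Adj w (xs x) → Touch G (ψ t w) (Φ x) := by
    intro t ht w hw x hx a
    rcases hS.rule t ht w hw x hx a with ⟨e, rfl⟩ | ⟨e, rfl⟩ | ⟨e, b⟩ | ⟨e, b⟩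
    · obtain ⟨q, hq, hb⟩ := n6 t ht 0 x e
      exact (((hM t ht).2 q (hφ x hx q hq)).1 hb).mono subset_rfl (sY x q hq)
    · obtain ⟨q, hq, hb⟩ := n6 t ht 1 x e
      exact (((hM t ht).2 q (hφ x hx q hq)).2.1 hb).mono subset_rfl (sY x q hq)
    · exact ((hF t ht).tA w hw b).mono subset_rfl (sA x t ht e)
    · exact ((hF t ht).tB w hw b).mono subset_rfl (sB x t ht e)
  have hθ : ∀ w, ∃ X, (∃ x < nx, w = xs x ∧ X = Φ x) ∨ ∃ t < nt, w ∈ Pc t ∧ X = ψ t w := by
    intro w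
    rcases hS.cover w with ⟨x, hx, e⟩ | ⟨t, ht, e⟩
    · exact ⟨_, Or.inl ⟨x, hx, e, rfl⟩⟩
    · exact ⟨_, Or.inr ⟨t, ht, e, rfl⟩⟩
  choose θ hθ using hθ
  refine ⟨θ, fun w => ?_, fun w w' hne => ?_, fun w w' a => ?_⟩
  · rcases hθ w with ⟨x, hx, -, e⟩ | ⟨t, ht, hw, e⟩ <;> rw [e]
    · exact cΦ x hx
    · exact (hF t ht).conn w hw
  · rcases hθ w with ⟨x, hx, e1, e⟩ | ⟨t, ht, hw, e⟩ <;>
      rcases hθ w' with ⟨y, hy, e1', e'⟩ | ⟨t', ht', hw', e'⟩ <;> rw [e, e']
    · exact dΦ x hx y hy fun b => hne (by rw [e1, e1', b])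
    · exact dΦψ x hx t' ht' w' hw'
    · exact (dΦψ y hy t ht w hw).symm
    · refine disjoint_left.2 fun v h1 h2 => ?_
      obtain rfl := tt t ht t' ht' v ((hF t ht).sub w hw h1) ((hF t' ht').sub w' hw' h2)
      exact disjoint_left.1 ((hF t ht).disj w hw w' hw' hne) h1 h2
  · rcases hθ w with ⟨x, hx, e1, e⟩ | ⟨t, ht, hw, e⟩ <;>
      rcases hθ w' with ⟨y, hy, e1', e'⟩ | ⟨t', ht', hw', e'⟩ <;> rw [e, e']
    · subst e1 e1'
      obtain ⟨p, hp, q, hq, b⟩ := n3 x hx y hy (fun b => a.ne (by rw [b])) a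
      exact (blob_adj hY (hφ x hx p hp) (hφ y hy q hq) b).mono (sY x p hp) (sY y q hq)
    · subst e1
      exact (tψ t' ht' w' hw' x hx a.symm).symm
    · subst e1'
      exact tψ t ht w hw y hy a
    · obtain rfl := hS.sep t ht t' ht' w hw w' hw' a
      exact (hF t ht).adj w hw w' hw' a

end Pool.Agent.MP_7be75d_co.Gen

end MrgPart1

-- ======== part 2: formerly Pool.Agent.MP_7be75d_co.Gen.CP
section MrgPart2

/-! Module CP of the project LTW: a system of length thirteen contains a win. -/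

namespace Pool.Agent.MP_7be75d_co.Gen

open Finset
open scoped Classical

namespace CP

variable {V : Type} {G : SimpleGraph V}

/-- The row of a block. -/
noncomputable def row (d : HD V) (x : ℕ × ℕ) : Finset V := (range 5).biUnion (d.core x.1 x.2)

section row

variable {Big S E : Finset V} {nb c : ℕ} {d : HD V}

theorem core_sub_row (x : ℕ × ℕ) {y : ℕ} (hy : y < 5) : d.core x.1 x.2 y ⊆ row d x :=
  subset_biUnion_of_mem (d.core x.1 x.2) (mem_range.2 hy)

theorem core_disj (h : IsHalf G Big S E nb c d) {x x' : ℕ × ℕ} (h1 : x.1 < nb) (h2 : x.2 < c)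
    (h3 : x'.1 < nb) (h4 : x'.2 < c) (hn : x ≠ x') {y y' : ℕ} (hy : y < 5) (hy' : y' < 5) :
    Disjoint (d.core x.1 x.2 y) (d.core x'.1 x'.2 y') :=
  h.disj (Sum.inr (Sum.inl (x.1, x.2, y))) (Sum.inr (Sum.inl (x'.1, x'.2, y'))) ⟨h1, h2, hy⟩
    ⟨h3, h4, hy'⟩ fun e => hn (by
      simp only [Sum.inr.injEq, Sum.inl.injEq, Prod.mk.injEq] at e
      exact Prod.ext e.1 e.2.1)

theorem row_sub (h : IsHalf G Big S E nb c d) {x : ℕ × ℕ} (h1 : x.1 < nb) (h2 : x.2 < c) :
    row d x ⊆ Big :=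
  biUnion_subset.2 fun y hy => h.sub (Sum.inr (Sum.inl (x.1, x.2, y))) ⟨h1, h2, mem_range.1 hy⟩

theorem row_conn (h : IsHalf G Big S E nb c d) {x : ℕ × ℕ} (h1 : x.1 < nb) (h2 : x.2 < c) :
    Conn G (row d x) := by
  have hc : ∀ y < 5, Conn G (d.core x.1 x.2 y) := fun y hy =>
    h.conn (Sum.inr (Sum.inl (x.1, x.2, y))) ⟨h1, h2, hy⟩
  have key : ∀ n < 5, Conn G ((range (n + 1)).biUnion (d.core x.1 x.2)) := by
    intro n
    induction n with
    | zero => exact fun _ => by simpa using hc 0 (by omega)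
    | succ n ih =>
      intro hn
      rw [range_add_one, biUnion_insert]
      exact (hc _ hn).union_touch (ih (by omega)) ((h.coh _ h1 _ h2 n (by omega)).symm.mono
        subset_rfl (subset_biUnion_of_mem (d.core x.1 x.2) (by simp)))
  exact key 4 (by omega)

theorem row_disj (h : IsHalf G Big S E nb c d) {x x' : ℕ × ℕ} (h1 : x.1 < nb) (h2 : x.2 < c)
    (h3 : x'.1 < nb) (h4 : x'.2 < c) (hn : x ≠ x') : Disjoint (row d x) (row d x') :=
  (disjoint_biUnion_left _ _ _).2 fun _ hy => (disjoint_biUnion_right _ _ _).2 fun _ hy' =>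
    core_disj h h1 h2 h3 h4 hn (mem_range.1 hy) (mem_range.1 hy')

theorem row_st (h : IsHalf G Big S E nb c d) {x : ℕ × ℕ} (h1 : x.1 < nb) (h2 : x.2 < c) :
    ∃ s ∈ S, s ∈ row d x :=
  (h.st _ h1 _ h2).imp fun _ hv => ⟨hv.1, core_sub_row x (by omega) hv.2⟩

theorem row_touch (h : IsHalf G Big S E nb c d) {b r : ℕ} (h1 : b < nb) (h2 : r + 1 < c) :
    Touch G (row d (b, r)) (row d (b, r + 1)) :=
  (h.cov b h1 r h2 0 (by omega)).mono (core_sub_row (b, r) (by omega))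
    (core_sub_row (b, r + 1) (by omega))

/-- The vertices of the middle cluster at which the rows of a half end. -/
theorem ports {ι : Type} [Fintype ι] [Nonempty ι] {e a : ι → V}
    (h : IsHalf G Big S (univ.image e) nb c d) (ha : Function.Injective a)
    (hadj : ∀ i, G.Adj (e i) (a i)) : ∃ p : ℕ × ℕ → V,
      (∀ x : ℕ × ℕ, x.1 < nb → x.2 < c →
        p x ∈ univ.image a ∧ Touch G (d.core x.1 x.2 4) {p x}) ∧
      ∀ x : ℕ × ℕ, x.1 < nb → x.2 < c → ∀ x' : ℕ × ℕ, x'.1 < nb → x'.2 < c → p x = p x' →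
        x = x' := by
  have h1 : ∀ x : ℕ × ℕ, ∃ i, x.1 < nb → x.2 < c → e i ∈ d.core x.1 x.2 4 := fun x => by
    by_cases hx : x.1 < nb ∧ x.2 < c
    · obtain ⟨v, h2, h3⟩ := h.en _ hx.1 _ hx.2
      obtain ⟨i, -, rfl⟩ := mem_image.1 h2
      exact ⟨i, fun _ _ => h3⟩
    · exact ⟨Classical.arbitrary ι, fun h2 h3 => absurd ⟨h2, h3⟩ hx⟩
  choose l hl using h1
  refine ⟨fun x => a (l x), fun x h2 h3 => ⟨mem_image_of_mem _ (mem_univ _), _, hl x h2 h3, _,
    mem_singleton_self _, hadj _⟩, fun x h2 h3 x' h4 h5 h6 => ?_⟩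
  by_contra hn
  exact disjoint_left.1 (core_disj h h2 h3 h4 h5 hn (by omega) (by omega)) (hl x h2 h3)
    (ha h6 ▸ hl x' h4 h5)

end row

/-- A linkage that covers a connected set, with its bijection. -/
theorem link_fat [Fintype V] (hLINK : LINKStmt) (hFAT : FATStmt) {Mr : Finset V} {K : ℕ}
    {β : Finset V → Finset V} {A A' : Finset (ℕ × ℕ)} (hA : A.card = A'.card) (hne : A.Nonempty)
    {p q : ℕ × ℕ → V} (hv : Haven G Mr K β) (hK : A.card ≤ K) (hp : Set.InjOn p A)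
    (hq : Set.InjOn q A') (fp : Free β K (A.image p)) (fq : Free β K (A'.image q)) :
    ∃ (μ : ℕ × ℕ → ℕ × ℕ) (Q : ℕ × ℕ → Finset V), Set.BijOn μ A A' ∧
      (∀ x ∈ A, Q x ⊆ Mr ∧ Conn G (Q x) ∧ p x ∈ Q x ∧ q (μ x) ∈ Q x) ∧
      (∀ x ∈ A, ∀ y ∈ A, x ≠ y → Disjoint (Q x) (Q y)) ∧
      Conn (tg G fun k : A => Q k) univ := by
  have hK0 : (∅ : Finset V).card < K := by simpa using (card_pos.2 hne).trans_le hK
  have : Nonempty A := hne.to_subtype
  let e : A ≃ A' := Finset.equivOfCardEq hA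
  obtain ⟨P, π, h1, h2⟩ := hLINK (fun k : A => p k) (fun k : A => q (e k)) hv (by simpa using hK)
    (fun k k' h => Subtype.ext (hp k.2 k'.2 h))
    (fun k k' h => e.injective (Subtype.ext (hq (e k).2 (e k').2 h)))
    (fp.mono (image_subset_iff.2 fun k _ => mem_image_of_mem _ k.2))
    (fq.mono (image_subset_iff.2 fun k _ => mem_image_of_mem _ (e k).2))
  obtain ⟨Q, h3, h4, -, h5⟩ := hFAT P (hv.conn ∅ hK0) (fun k => ⟨(h1 k).1, (h1 k).2.1⟩) h2
  refine ⟨fun x => if hx : x ∈ A then (e (π ⟨x, hx⟩)).1 else x,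
    fun x => if hx : x ∈ A then Q ⟨x, hx⟩ else ∅, ⟨fun x hx => ?_, fun x hx y hy hxy => ?_,
      fun y hy => ?_⟩, fun x hx => ?_, fun x hx y hy hn => ?_, ?_⟩
  · simp only [dif_pos (mem_coe.1 hx)]
    exact (e _).2
  · simp only [dif_pos (mem_coe.1 hx), dif_pos (mem_coe.1 hy)] at hxy
    exact congrArg Subtype.val (π.injective (e.injective (Subtype.ext hxy)))
  · refine ⟨(π.symm (e.symm ⟨y, hy⟩)).1, (π.symm (e.symm ⟨y, hy⟩)).2, ?_⟩
    simp
  · simp only [dif_pos hx]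
    exact ⟨(h3 _).2.1.trans (hv.subU hK0), (h3 _).2.2, (h3 _).1 (h1 ⟨x, hx⟩).2.2.1,
      (h3 _).1 (h1 ⟨x, hx⟩).2.2.2⟩
  · simp only [dif_pos hx, dif_pos hy]
    exact h4 _ _ fun h => hn (congrArg Subtype.val h)
  · simpa using h5

theorem two_nbr {ι : Type} [Fintype ι] {Γ : SimpleGraph ι} {v a b x : ι} (h : ¬ 3 ≤ dg Γ v)
    (ha : Γ.Adj v a) (hb : Γ.Adj v b) (hab : a ≠ b) (hx : Γ.Adj v x) : x = a ∨ x = b := by
  by_contra hc
  push Not at hc
  refine h (le_trans (card_eq_three.2 ⟨x, a, b, hc.1, hc.2, hab, rfl⟩).ge (card_le_card ?_))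
  simp [insert_subset_iff, ha, hb, hx]

/-- Two halves joined through a haven contain a win. -/
theorem mid [Fintype V] (hLINK : LINKStmt) (hFAT : FATStmt) (hKW : KWStmt) (hRIB : RIBStmt)
    (hCOMB : COMBStmt) (hSEQ : SEQStmt) {Big BL BR Mr SL EL SR ER X Y : Finset V} {nb m K : ℕ}
    {dL dR : HD V} {β : Finset V → Finset V} {U U' : Finset ℕ} {p q : ℕ × ℕ → V}
    (hL : IsHalf G BL SL EL nb 1100 dL) (hR : IsHalf G BR SR ER nb 1100 dR) (s1 : BL ⊆ Big)
    (s2 : BR ⊆ Big) (s3 : Mr ⊆ Big) (d1 : Disjoint BL BR) (d2 : Disjoint BL Mr)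
    (d3 : Disjoint BR Mr) (hv : Haven G Mr K β) (hX : Free β K X) (hY : Free β K Y)
    (hp : ∀ x : ℕ × ℕ, x.1 < nb → x.2 < 1100 → p x ∈ X ∧ Touch G (dL.core x.1 x.2 4) {p x})
    (hp' : ∀ x : ℕ × ℕ, x.1 < nb → x.2 < 1100 → ∀ x' : ℕ × ℕ, x'.1 < nb → x'.2 < 1100 →
      p x = p x' → x = x')
    (hq : ∀ x : ℕ × ℕ, x.1 < nb → x.2 < 1100 → q x ∈ Y ∧ Touch G (dR.core x.1 x.2 4) {q x})
    (hq' : ∀ x : ℕ × ℕ, x.1 < nb → x.2 < 1100 → ∀ x' : ℕ × ℕ, x'.1 < nb → x'.2 < 1100 →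
      q x = q x' → x = x')
    (hU : U ⊆ range nb) (hU' : U' ⊆ range nb) (c1 : U.card = 100 * m) (c2 : U'.card = 100 * m)
    (hm : 0 < m) (hK : 110000 * m ≤ K)
    (hsel : ∀ A ⊆ U ×ˢ U', IsMat A → 100 * m ≤
      (A.filter fun p => ∃ q ∈ A, ¬ (dL.Cr q.1 p.1 ↔ dR.Cr q.2 p.2)).card + 13 * m +
        2 * (100 * m - A.card)) : Win G Big SL SR m := by
  have mA : ∀ W : Finset ℕ, W ⊆ range nb → ∀ x ∈ W ×ˢ range 1100, x.1 < nb ∧ x.2 < 1100 :=
    fun W hW x hx => ⟨mem_range.1 (hW (mem_product.1 hx).1), mem_range.1 (mem_product.1 hx).2⟩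
  have mL := mA U hU
  have mR := mA U' hU'
  obtain ⟨μ, Q, hμ, hQ, hQd, hQc⟩ := link_fat hLINK hFAT (A := U ×ˢ range 1100)
    (A' := U' ×ˢ range 1100) (p := p) (q := q) (by simp [c1, c2])
    (card_pos.1 (by simp only [card_product, c1, card_range]; omega)) hv
    (by simp only [card_product, c1, card_range]; omega)
    (fun x hx y hy => hp' x (mL x hx).1 (mL x hx).2 y (mL y hy).1 (mL y hy).2)
    (fun x hx y hy => hq' x (mR x hx).1 (mR x hx).2 y (mR y hy).1 (mR y hy).2)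
    (hX.mono (image_subset_iff.2 fun x hx => (hp x (mL x hx).1 (mL x hx).2).1))
    (hY.mono (image_subset_iff.2 fun x hx => (hq x (mR x hx).1 (mR x hx).2).1))
  have mμ : ∀ x ∈ U ×ˢ range 1100, μ x ∈ U' ×ˢ range 1100 := fun x hx => hμ.mapsTo hx
  have tL : ∀ x ∈ U ×ˢ range 1100, Touch G (dL.core x.1 x.2 4) (Q x) := fun x hx =>
    (hp x (mL x hx).1 (mL x hx).2).2.mono subset_rfl (singleton_subset_iff.2 (hQ x hx).2.2.1)
  have tR : ∀ x ∈ U ×ˢ range 1100, Touch G (Q x) (dR.core (μ x).1 (μ x).2 4) := fun x hx =>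
    (hq _ (mR _ (mμ x hx)).1 (mR _ (mμ x hx)).2).2.symm.mono
      (singleton_subset_iff.2 (hQ x hx).2.2.2) subset_rfl
  let T : (U ×ˢ range 1100 : Finset (ℕ × ℕ)) → Finset V := fun k =>
    row dL k ∪ Q k ∪ row dR (μ k)
  have sL : ∀ k, row dL k.1 ⊆ T k := fun k => subset_union_left.trans subset_union_left
  have sR : ∀ k, row dR (μ k.1) ⊆ T k := fun k => subset_union_right
  by_cases hst : NoStar (tg G T) m
  swap
  · refine Or.inr (star (T := T) ∅ (fun k => ?_) (fun k k' hn => ?_) (fun k _ => ?_)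
      (by simpa using hst))
    · have a1 := mL _ k.2
      have a2 := mR _ (mμ _ k.2)
      exact ⟨union_subset (union_subset ((row_sub hL a1.1 a1.2).trans s1) ((hQ _ k.2).1.trans s3))
        ((row_sub hR a2.1 a2.2).trans s2),
        ((row_conn hL a1.1 a1.2).union_touch (hQ _ k.2).2.1 ((tL _ k.2).mono
          (core_sub_row _ (by omega)) subset_rfl)).union_touch (row_conn hR a2.1 a2.2)
          ((tR _ k.2).mono subset_union_right (core_sub_row _ (by omega)))⟩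
    · have a1 := mL _ k.2
      have a2 := mR _ (mμ _ k.2)
      have a3 := mL _ k'.2
      have a4 := mR _ (mμ _ k'.2)
      have b1 := row_sub hL a1.1 a1.2
      have b2 := row_sub hR a2.1 a2.2
      have b3 := row_sub hL a3.1 a3.2
      have b4 := row_sub hR a4.1 a4.2
      have hn' : k.1 ≠ k'.1 := fun e => hn (Subtype.ext e)
      simp only [T, disjoint_union_left, disjoint_union_right, and_assoc]
      exact ⟨row_disj hL a1.1 a1.2 a3.1 a3.2 hn', (d2.mono b3 (hQ _ k.2).1).symm,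
        (d1.mono b3 b2).symm, d2.mono b1 (hQ _ k'.2).1, hQd _ k.2 _ k'.2 hn',
        d3.mono b2 (hQ _ k'.2).1, d1.mono b1 b4, (d3.mono b4 (hQ _ k.2).1).symm,
        row_disj hR a2.1 a2.2 a4.1 a4.2 fun e => hn' (hμ.injOn k.2 k'.2 e)⟩
    · have a1 := mL _ k.2
      have a2 := mR _ (mμ _ k.2)
      exact ⟨(row_st hL a1.1 a1.2).imp fun _ h => ⟨h.1, sL k h.2⟩,
        (row_st hR a2.1 a2.2).imp fun _ h => ⟨h.1, sR k h.2⟩⟩
  have hc : Conn (tg G T) univ := hQc.mono' fun x y h _ _ =>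
    tg_mono (fun k => subset_union_right.trans subset_union_left) h
  have hbad := (hKW _ m hc hst).1
  obtain ⟨A, a1, a2, a3, r, r', o, a4⟩ := hRIB U U' 1100 μ
    ((univ.filter fun v => 3 ≤ dg (tg G T) v).image Subtype.val) (c1.trans c2.symm) hμ (by
      intro b hb r hr hn b' r' e hr'
      have hb0 := mem_range.1 (hU hb)
      have k0 : (b, r) ∈ U ×ˢ range 1100 := mem_product.2 ⟨hb, mem_range.2 (by omega)⟩
      have k1 : (b, r + 1) ∈ U ×ˢ range 1100 := mem_product.2 ⟨hb, mem_range.2 (by omega)⟩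
      have k2 : (b, r + 2) ∈ U ×ˢ range 1100 := mem_product.2 ⟨hb, mem_range.2 (by omega)⟩
      have hb' : b' ∈ U' := (mem_product.1 (e ▸ mμ _ k1)).1
      have hb1 := mem_range.1 (hU' hb')
      have hd : ¬ 3 ≤ dg (tg G T) ⟨_, k1⟩ := fun h =>
        hn (mem_image.2 ⟨⟨_, k1⟩, mem_filter.2 ⟨mem_univ _, h⟩, rfl⟩)
      have n0 : (tg G T).Adj ⟨_, k1⟩ ⟨_, k0⟩ := ⟨by simp,
        (row_touch hL hb0 (by omega)).symm.mono (sL ⟨_, k1⟩) (sL ⟨_, k0⟩)⟩
      have n2 : (tg G T).Adj ⟨_, k1⟩ ⟨_, k2⟩ := ⟨by simp,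
        (row_touch hL hb0 hr).mono (sL ⟨_, k1⟩) (sL ⟨_, k2⟩)⟩
      have key : ∀ y ∈ U' ×ˢ range 1100, y ≠ (b', r' + 1) →
          Touch G (row dR (b', r' + 1)) (row dR y) → μ (b, r) = y ∨ μ (b, r + 2) = y := by
        intro y hy hne ht
        obtain ⟨x, hx, rfl⟩ := hμ.surjOn hy
        have := two_nbr hd n0 n2 (by simp) (x := ⟨x, hx⟩) ⟨fun h => hne (by
          rw [← e, show (b, r + 1) = x from congrArg Subtype.val h]),
          ht.mono (e ▸ sR ⟨_, k1⟩) (sR ⟨x, hx⟩)⟩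
        exact this.imp (fun h => congrArg μ (congrArg Subtype.val h).symm)
          fun h => congrArg μ (congrArg Subtype.val h).symm
      have e0 := key (b', r') (mem_product.2 ⟨hb', mem_range.2 (by omega)⟩) (by simp)
        (row_touch hR hb1 (by omega)).symm
      have e2 := key (b', r' + 2) (mem_product.2 ⟨hb', mem_range.2 (by omega)⟩) (by simp)
        (row_touch hR hb1 hr')
      rcases e0 with e0 | e0 <;> rcases e2 with e2 | e2
      · simp [e0] at e2
      · exact Or.inl ⟨e0, e2⟩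
      · exact Or.inr ⟨e2, e0⟩
      · simp [e0] at e2)
  have hb2 := card_image_le (s := univ.filter fun v => 3 ≤ dg (tg G T) v) (f := Subtype.val)
  have hs := hsel A a1 a2
  have kA : ∀ p ∈ A, ∀ j < 5, (p.1, r p + j) ∈ U ×ˢ range 1100 := fun p hp j hj =>
    mem_product.2 ⟨(mem_product.1 (a1 hp)).1, mem_range.2 (by have := (a4 p hp).1; omega)⟩
  obtain ⟨l, l1, l2⟩ := hCOMB Big BL BR Mr SL EL SR ER nb 1100 m dL dR A r r' o
    (fun p j => Q (p.1, r p + j)) hL hR s1 s2 s3 d1 d2 d3 (by omega)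
    (a1.trans (product_subset_product hU hU')) a2
    (fun p hp => ⟨(a4 p hp).1, (a4 p hp).2.1, fun j hj => ⟨(hQ _ (kA p hp j hj)).1,
      (hQ _ (kA p hp j hj)).2.1, tL _ (kA p hp j hj), by
        have := tR _ (kA p hp j hj)
        rwa [(a4 p hp).2.2 j hj] at this⟩⟩)
    (fun p hp j hj p' hp' j' hj' hn => hQd _ (kA p hp j hj) _ (kA p' hp' j' hj') fun e => by
      obtain ⟨e1, e2⟩ := Prod.mk.inj e
      obtain rfl := a2 p hp p' hp' (Or.inl e1)
      rcases hn with hn | hn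
      · exact hn rfl
      · omega)
    (by omega)
  exact Or.inl (hSEQ l1 l2)

end CP

open CP

theorem cp (hHALF : HALFStmt) (hEXT : EXTStmt) (hTA : TREEAStmt) (hTB : TREEBStmt)
    (hSEL : SELStmt) (hLINK : LINKStmt) (hFAT : FATStmt) (hKW : KWStmt) (hRIB : RIBStmt)
    (hCOMB : COMBStmt) (hSEQ : SEQStmt) : CPStmt := by
  intro ρ
  obtain ⟨E, hE⟩ := hHALF ρ 1100 1000 (by omega)
  refine ⟨E + 110000, fun {V ι} _ _ G C σ m h hσ hρ hm => ?_⟩
  rcases Nat.eq_zero_or_pos m with rfl | hm0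
  · exact win_zero
  have hm1 : E * (m + 1) ≤ Fintype.card ι := le_trans (Nat.mul_le_mul_right _ (by omega)) hm
  have hm2 : 110000 * m ≤ Fintype.card ι :=
    le_trans (Nat.mul_le_mul (Nat.le_add_left _ E) (Nat.le_succ m)) hm
  have : Nonempty ι := Fintype.card_pos_iff.1 (by omega)
  have half : ∀ D : ℕ → CD V ι, SPoS G 13 D → Win G (Reg D 13) (St D) (En D 13) m ∨
      ∃ d, IsHalf G (Reg D 6) (St D) (En D 6) (1000 * m) 1100 d ∧ Thin (1000 * m) d.Cr m := by
    intro D hD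
    have ex : Win G (Reg D 6) (St D) (En D 6) m → Win G (Reg D 13) (St D) (En D 13) m := fun w =>
      hEXT (lo := 0) (len := 6) hD (by omega) (by omega) (by simpa only [zero_add] using w)
    have h6 : SPoS G 6 D := by simpa only [zero_add] using hD.shift 0 6 (by omega)
    rcases hE h6 hσ hρ hm1 with w | ⟨d, hd⟩
    · exact Or.inl (ex w)
    · exact (hTB hd (by omega) hm0).imp ex fun t => ⟨d, hd, t⟩
  have sR : ∀ l ≤ 13, Reg (fun j => swp (C (12 - j))) l ⊆ Reg C 13 := fun l hl v hv => by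
    obtain ⟨j, hj, hv⟩ := mem_Reg.1 hv
    exact mem_Reg.2 ⟨12 - j, by omega, hv⟩
  rcases half C h with w | ⟨dL, hL, tL⟩
  · exact w
  rcases half _ (h.rev 12 13 (by omega) (by omega)) with w | ⟨dR, hR, tR⟩
  · exact (w.mono (sR 13 le_rfl) le_rfl).symm
  obtain ⟨U, hU, U', hU', c1, c2, hsel⟩ := hSEL m (1000 * m) dL.Cr dR.Cr hm0 le_rfl (hTA hL).1
    (hTA hR).1 tL tR
  have c6 := h.cl 6 (by omega)
  obtain ⟨p, hp, hp'⟩ := ports (e := (C 5).b) hL c6.toIsCluster.a_inj (h.adj 5 (by omega))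
  obtain ⟨q, hq, hq'⟩ := ports (e := (C 7).a) hR c6.toIsCluster.b_inj
    fun i => (h.adj 6 (by omega) i).symm
  refine mid hLINK hFAT hKW hRIB hCOMB hSEQ hL hR (fun v hv => ?_) (sR 6 (by omega))
    (reg_sub_Reg (by omega)) ?_ ?_ ?_ c6.hv (free_a c6.toIsCluster) c6.free_b hp hp' hq hq' hU hU'
    c1 c2 hm0 hm2 hsel
  · obtain ⟨j, hj, hv⟩ := mem_Reg.1 hv
    exact mem_Reg.2 ⟨j, by omega, hv⟩
  · refine disjoint_left.2 fun v h1 h2 => ?_
    obtain ⟨i, hi, h1⟩ := mem_Reg.1 h1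
    obtain ⟨j, hj, h2⟩ := mem_Reg.1 h2
    exact disjoint_left.1 (h.disj i (by omega) (12 - j) (by omega) (by omega)) h1 h2
  · refine disjoint_left.2 fun v h1 h2 => ?_
    obtain ⟨i, hi, h1⟩ := mem_Reg.1 h1
    exact disjoint_left.1 (h.disj i (by omega) 6 (by omega) (by omega)) h1 h2
  · refine disjoint_left.2 fun v h1 h2 => ?_
    obtain ⟨j, hj, h1⟩ := mem_Reg.1 h1
    exact disjoint_left.1 (h.disj (12 - j) (by omega) 6 (by omega) (by omega)) h1 h2

end Pool.Agent.MP_7be75d_co.Gen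

end MrgPart2

-- ======== part 3: formerly Pool.Agent.MP_7be75d_co.Gen.Gl
section MrgPart3

/-! Module GL of the project LTW: growth of a rooted forest whose branch sets reach targets. -/

namespace Pool.Agent.MP_7be75d_co.Gen

open Finset
open scoped Classical

namespace Gl0

variable {V W : Type} {G : SimpleGraph V} {U : Finset V} {K : ℕ} {β : Finset V → Finset V}
  {J : SimpleGraph W} {I : Finset W} {p : W → V}

theorem state [Fintype V] {J0 : Finset W} (hP : Peel J I J0) (h : Haven G U K β)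
    (hK : 2 * J0.card < K) (hinj : Set.InjOn p I) (hpU : ∀ w ∈ I, p w ∈ U)
    (hind : ∀ Z : Finset V, Z.card < K → (I.filter fun w => p w ∉ β Z).card ≤ Z.card) :
    ∀ n, ∀ S : Finset W, S.card = n → I ⊆ S → S ⊆ J0 → ∃ F' B',
      Gr G U K β J I p S F' B' ∧
      ∀ F'', F' ⊆ F'' → Small G U K β F'' → (bd G U F'').card ≤ S.card → F'' = F' := by
  intro n
  induction n using Nat.strong_induction_on with
  | _ n ih =>
  intro S hn hI hS
  have hc := card_le_card hS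
  by_cases hSI : S = I
  · subst hSI
    have e1 : (S.image p).card = S.card := card_image_of_injOn hinj
    have hs : Small G U K β (S.image p) := h.tiny (image_subset_iff.2 hpU) (by omega)
    have ht : ∀ F', S.image p ⊆ F' → Small G U K β F' → S.card ≤ (bd G U F').card := by
      intro F' h1 h2
      refine le_trans (card_le_card fun w hw => ?_) (hind _ h2.2.1)
      rw [mem_filter]
      exact ⟨hw, fun hc => disjoint_left.1 h2.2.2 hc (h1 (mem_image_of_mem _ hw))⟩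
    have e2 : bd G U (S.image p) = S.image p :=
      eq_of_subset_of_card_le bd_subset (e1 ▸ ht _ subset_rfl hs)
    refine Gr.extend h (F := S.image p) (B := fun w => {p w}) ⟨hs, by rw [e2, e1],
      fun w hw => singleton_subset_iff.2 (mem_image_of_mem _ hw), fun w _ => Conn.singleton _,
      fun w hw => ⟨p w, e2.symm ▸ mem_image_of_mem _ hw, mem_singleton_self _⟩,
      fun w hw w' hw' hne => disjoint_singleton.2 fun e => hne (hinj hw hw' e),
      fun w _ => mem_singleton_self _, fun w hw _ _ _ hI => absurd hw hI⟩ subset_rfl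
      ⟨hs, fun F' h1 h2 => by rw [e2, e1]; exact ht F' h1 h2⟩ (by omega)
  obtain ⟨w, hw, hwI, hu⟩ := hP.2 S hI hS hSI
  have e1 := card_erase_add_one hw
  obtain ⟨F, B, hg, hmax⟩ := ih (S.erase w).card (by omega) (S.erase w) rfl
    (fun x hx => mem_erase.2 ⟨fun e => hwI (e ▸ hx), hI hx⟩) ((erase_subset _ _).trans hS)
  obtain ⟨v, hvU, hvF, hv⟩ : ∃ v ∈ U, v ∉ F ∧
      ∀ u ∈ S.erase w, J.Adj w u → ∃ z ∈ B u, G.Adj v z := by
    by_cases hex : ∃ u ∈ S.erase w, J.Adj w u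
    · obtain ⟨u, h1, h2⟩ := hex
      obtain ⟨z, h3, h4⟩ := hg.top u h1
      obtain ⟨-, v, h5, h6, h7⟩ := mem_bd.1 h3
      refine ⟨v, h5, h6, fun u' h8 h9 => ?_⟩
      rw [hu u' (mem_of_mem_erase h8) u (mem_of_mem_erase h1) h9 h2]
      exact ⟨z, h4, h7.symm⟩
    · obtain ⟨v, hv⟩ := (h.conn _ hg.small.2.1).1
      exact ⟨v, h.subU hg.small.2.1 hv, disjoint_left.1 hg.small.2.2 hv,
        fun u h1 h2 => absurd ⟨u, h1, h2⟩ hex⟩
  have hb : bd G U (insert v F) ⊆ insert v (bd G U F) := by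
    intro x hx
    obtain ⟨h1, y, h2, h3, h4⟩ := mem_bd.1 hx
    rcases mem_insert.1 h1 with h1 | h1
    · exact mem_insert.2 (Or.inl h1)
    · exact mem_insert_of_mem (mem_bd.2 ⟨h1, y, h2, fun h => h3 (mem_insert_of_mem h), h4⟩)
  have e2 := card_insert_le v (bd G U F)
  have e3 := hg.card
  have hs : Small G U K β (insert v F) := by
    have hc : (insert v (bd G U F)).card < K := by omega
    refine h.small (insert_subset hvU hg.small.1) hb hc ?_
    rw [disjoint_insert_right]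
    exact ⟨fun hc' => h.not_mem hc hc' (mem_insert_self _ _),
      hg.small.disj h (subset_insert _ _) hc⟩
  have ht : ∀ F', insert v F ⊆ F' → Small G U K β F' → S.card ≤ (bd G U F').card := by
    intro F' h1 h2
    by_contra hc
    have := hmax F' ((subset_insert _ _).trans h1) h2 (by omega)
    exact hvF (this ▸ h1 (mem_insert_self _ _))
  have e4 := ht _ subset_rfl hs
  have e5 : bd G U (insert v F) = insert v (bd G U F) := eq_of_subset_of_card_le hb (by omega)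
  have e6 := card_le_card hb
  have u1 : ∀ x, x ≠ w → Function.update B w {v} x = B x := fun x hx =>
    Function.update_of_ne hx _ _
  have u2 : Function.update B w {v} w = {v} := Function.update_self _ _ _
  have hd : ∀ x ∈ S.erase w, Disjoint (B x) {v} := fun x hx =>
    disjoint_singleton_right.2 fun hc => hvF (hg.sub x hx hc)
  have hto : ∀ u ∈ S.erase w, J.Adj w u → Touch G {v} (B u) := fun u h1 h2 => by
    obtain ⟨z, h3, h4⟩ := hv u h1 h2
    exact ⟨v, mem_singleton_self _, z, h3, h4⟩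
  refine Gr.extend h (F := insert v F) (B := Function.update B w {v}) ⟨hs, by omega,
    fun x hx => ?_, fun x hx => ?_, fun x hx => ?_, fun x hx y hy hne => ?_, fun x hx => ?_,
    fun x hx y hy ha hxI => ?_⟩ hI ⟨hs, fun F' h1 h2 => by have := ht F' h1 h2; omega⟩ (by omega)
  · by_cases e : x = w
    · rw [e, u2]; simp
    · rw [u1 x e]; exact (hg.sub x (mem_erase.2 ⟨e, hx⟩)).trans (subset_insert _ _)
  · by_cases e : x = w
    · rw [e, u2]; exact Conn.singleton _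
    · rw [u1 x e]; exact hg.conn x (mem_erase.2 ⟨e, hx⟩)
  · rw [e5]
    by_cases e : x = w
    · rw [e, u2]; exact ⟨v, mem_insert_self _ _, mem_singleton_self _⟩
    · rw [u1 x e]
      obtain ⟨z, h1, h2⟩ := hg.top x (mem_erase.2 ⟨e, hx⟩)
      exact ⟨z, mem_insert_of_mem h1, h2⟩
  · by_cases e : x = w
    · subst e
      rw [u2, u1 y hne.symm]; exact (hd y (mem_erase.2 ⟨hne.symm, hy⟩)).symm
    · rw [u1 x e]
      by_cases e' : y = w
      · rw [e', u2]; exact hd x (mem_erase.2 ⟨e, hx⟩)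
      · rw [u1 y e']; exact hg.disj x (mem_erase.2 ⟨e, hx⟩) y (mem_erase.2 ⟨e', hy⟩) hne
  · rw [u1 x fun e => hwI (e ▸ hx)]; exact hg.root x hx
  · by_cases e : x = w
    · subst e
      rw [u2, u1 y ha.ne.symm]; exact hto y (mem_erase.2 ⟨ha.ne.symm, hy⟩) ha
    · rw [u1 x e]
      by_cases e' : y = w
      · subst e'
        rw [u2]; exact (hto x (mem_erase.2 ⟨e, hx⟩) ha.symm).symm
      · rw [u1 y e']; exact hg.adj x (mem_erase.2 ⟨e, hx⟩) y (mem_erase.2 ⟨e', hy⟩) ha hxI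

end Gl0

theorem gl : GLStmt := by
  intro V W _ G U X K β J I J0 p hP h hK hinj hpU hind hX
  obtain ⟨F, B, hg, hmax⟩ := Gl0.state hP h hK hinj hpU hind _ J0 rfl hP.1 subset_rfl
  have ht : Tight G U K β F := by
    refine ⟨hg.small, fun F' h1 h2 => ?_⟩
    by_contra hc
    have := hmax F' h1 h2 (by have := hg.card; omega)
    exact hc (this ▸ le_rfl)
  choose z hz1 hz2 using fun w : J0 => hg.top w.1 w.2
  have hzi : Function.Injective z := by
    intro i j hij
    by_contra hne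
    exact disjoint_left.1 (hg.disj _ i.2 _ j.2 fun e => hne (Subtype.ext e)) (hz2 i) (hij ▸ hz2 j)
  obtain ⟨-, P, e, -, -, p1, p2, p3, p4, p5⟩ :=
    annulus h ht (by have := hg.card; omega) hX hzi hz1
  have key : ∀ (w : W) (hw : w ∈ J0) (w' : J0), w ≠ w'.1 → Disjoint (B w) (P w') := by
    intro w hw w' hne
    rw [disjoint_left]
    intro v h6 h7
    rcases mem_union.1 (p1 w' h7) with h8 | h8
    · exact (mem_sdiff.1 h8).2 (hg.sub w hw h6)
    · obtain ⟨j, -, rfl⟩ := mem_image.1 h8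
      by_cases hj : j = w'
      · subst hj
        exact disjoint_left.1 (hg.disj w hw _ j.2 hne) h6 (hz2 j)
      · exact disjoint_left.1 (p3 j w' hj) (p4 j) h7
  have hs : ∀ w ∈ J0, B w ⊆ if hw : w ∈ J0 then B w ∪ P ⟨w, hw⟩ else ∅ := fun w hw => by
    rw [dif_pos hw]; exact subset_union_left
  refine ⟨fun w => if hw : w ∈ J0 then B w ∪ P ⟨w, hw⟩ else ∅, fun w hw => ?_,
    fun w hw w' hw' hne => ?_, fun w hw => hs w (hP.1 hw) (hg.root w hw),
    fun w hw w' hw' ha hI => (hg.adj w hw w' hw' ha hI).mono (hs w hw) (hs w' hw')⟩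
  · simp only [dif_pos hw]
    refine ⟨union_subset ((hg.sub w hw).trans hg.small.1) ((p1 _).trans
      (union_subset sdiff_subset (image_subset_iff.2 fun i _ => hg.small.1 (bd_subset (hz1 i))))),
      (hg.conn w hw).union (p2 _) (hz2 ⟨w, hw⟩) (p4 _), e ⟨w, hw⟩, (p5 _).2.1,
      mem_union_right _ (p5 _).1⟩
  · simp only [dif_pos hw, dif_pos hw', disjoint_union_left, disjoint_union_right]
    exact ⟨⟨hg.disj w hw w' hw' hne, (key w' hw' ⟨w, hw⟩ hne.symm).symm⟩,
      key w hw ⟨w', hw'⟩ hne, p3 _ _ fun e => hne (congrArg Subtype.val e)⟩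

end Pool.Agent.MP_7be75d_co.Gen

end MrgPart3

-- ======== part 4: formerly Pool.Agent.MP_7be75d_co.Gen.Half
section MrgPart4

/-! Module HALF: a win or one half of the system. -/

namespace Pool.Agent.MP_7be75d_co.Gen

open Finset
open scoped Classical

namespace HALF

/-- The part of the argument that takes place in the last region. -/
theorem last_region (hKW : KWStmt) (hTIME : TIMEStmt) (hA : PORTAStmt) (hB : PORTB0Stmt)
    {V α τ : Type} [Fintype V] [Fintype α] [Fintype τ] [Nonempty τ] {G : SimpleGraph V}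
    {Big S D U B0 E term : Finset V} {X : ℕ → α ⊕ τ → Finset V} {x5 : α ⊕ τ → V} {tm : τ → V}
    {Dp : α ⊕ τ → Finset V} {m nb c K : ℕ} {β : Finset V → Finset V} {lam : ℕ → ℕ → α}
    (h : Pre5 G Big S D U B0 X x5 tm) (hD : Ends5 G D E x5 Dp) (hc : 84 ≤ c)
    (hR : Rows G X (nb + (4 * m + 5)) (c + 18) lam)
    {P : Fin (nb + (4 * m + 5)) × Fin c → Finset V} {u : Fin (nb + (4 * m + 5)) × Fin c → τ}
    (p1 : ∀ k, P k ⊆ D ∧ Conn G (P k) ∧ x5 (Sum.inr (u k)) ∈ P k ∧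
      x5 (Sum.inl (lam k.1 (9 + k.2))) ∈ P k) (p2 : ∀ k k', k ≠ k' → Disjoint (P k) (P k'))
    (hv : Haven G U K β) (h1 : term ⊆ U) (h2 : Free β K term) (h3 : term.card ≤ K)
    (h4 : ∀ t, tm t ∈ term) (h5 : Function.Injective tm) :
    WinS G Big S E m ∨ ∃ d, IsHalf G Big S E nb c d := by
  obtain ⟨W, _, M, br, lane, ν, fst, Q, hT, t1, t2, t3, t4, t5, t6, t7⟩ := hTIME G D E x5 Dp P
    (fun k => Sum.inr (u k)) (fun k => Sum.inl (lam k.1 (9 + k.2)))
    (fun j => ⟨hD.sub j, hD.conn j, hD.mem j, hD.en j⟩) hD.disj p1 p2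
  have hBr : Br G D E x5 M br lane fst :=
    ⟨fun w => (t1 w).1, fun w => (t1 w).2, t2, t3, t4, t5⟩
  refine (blocks2 hKW h hBr hT hR).imp_right ?_
  rintro ⟨g, g1, g2, hK⟩
  obtain ⟨Q', q1⟩ : ∃ Q' : ℕ → ℕ → Finset W, ∀ b (hb : b < nb) r (hr : r < c),
      Q' b r = Q (⟨g b, g1 b hb⟩, ⟨r, hr⟩) :=
    ⟨fun b r => if hh : b < nb ∧ r < c then Q (⟨g b, g1 b hh.1⟩, ⟨r, hh.2⟩) else ∅,
      fun b hb r hr => dif_pos ⟨hb, hr⟩⟩
  have hS0 : ∀ s ∈ univ.image fun t => fst (Sum.inr t), ∀ i, lane s ≠ Sum.inl i := by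
    intro s hs i
    obtain ⟨t, -, rfl⟩ := mem_image.1 hs
    simp [hT.lf]
  obtain ⟨Mn, col, port, hC, hCut⟩ := hA M lane ν fst nb c (fun b r => Sum.inl (lam (g b) r))
    (univ.image fun t => fst (Sum.inr t)) Q' hT hK hc (fun s hs b _ r _ => hS0 s hs _)
    (fun b hb r hr => by
      rw [q1 b hb r hr]
      obtain ⟨a1, a2, a3⟩ := t6 (⟨g b, g1 b hb⟩, ⟨r, hr⟩)
      exact ⟨a1, ⟨_, mem_image_of_mem _ (mem_univ _), a2⟩, _, a3, hT.lf _⟩)
    (fun b hb r hr b' hb' r' hr' hn => by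
      rw [q1 b hb r hr, q1 b' hb' r' hr']
      refine t7 _ _ fun e => ?_
      simp only [Prod.mk.injEq, Fin.mk.injEq] at e
      rcases hn with hn | hn
      · exact hn (g2 b hb b' hb' e.1)
      · exact hn e.2)
  obtain ⟨t0⟩ := ‹Nonempty τ›
  have : Nonempty W := ⟨fst (Sum.inr t0)⟩
  obtain ⟨ns, seg, pt, F, rD, par, pe, rk, hS⟩ := hB M _ _ nb _
    (fun s hs ⟨b, _, r, _, _, e⟩ => hS0 s hs _ e) (by
      rintro p b ⟨hb, s, x, hx, rfl⟩
      have a1 := hC.pl b hb s x hx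
      refine ⟨PORTA.outer_zero hK hb a1, hb, fun hs => hS0 _ hs _ a1, ?_⟩
      rintro b' ⟨hb', s', x', hx', e⟩
      rw [e, hC.pl b' hb' s' x' hx'] at a1
      exact (hK.inj b' hb' _ (by cases s' <;> simp [srow]) b hb _
        (by cases s <;> simp [srow]) a1).1) hCut
  exact build h hBr hT (hR.comp g1 g2) hK hC hS (by omega) hv h1 h2 h3 h4 h5

end HALF

open HALF

theorem half (hFE : FEStmt) (hFAT : FATStmt) (hKW : KWStmt) (hBLK : BLKStmt) (hLINK : LINKStmt)
    (hTIME : TIMEStmt) (hA : PORTAStmt) (hB : PORTB0Stmt) : HALFStmt := by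
  intro ρ c q hc
  obtain ⟨E0, hE0⟩ := core 2 ρ (by omega)
  obtain ⟨A1, hA1⟩ : ∃ A, A = 2 * (q + 5) * c + 2 := ⟨_, rfl⟩
  obtain ⟨A2, hA2⟩ : ∃ A, A = (q + 5) * (c + 18 + (c + 18) * (c + 18)) + (c + 18) * 19 + 18 :=
    ⟨_, rfl⟩
  refine ⟨E0 * A1 + 2 * A2, fun {V ι} _ _ {G C σ m} h hσ hρ hw => ?_⟩
  rw [add_mul] at hw
  have w1 : E0 ≤ E0 * A1 * (m + 1) := by
    rw [mul_assoc]
    exact Nat.le_mul_of_pos_right _ (by rw [hA1]; positivity)
  have w2 : 0 < 2 * A2 * (m + 1) := by rw [hA2]; positivity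
  obtain ⟨q0⟩ : Nonempty ι := Fintype.card_pos_iff.1 (by omega)
  have c0 := (h.cl 0 (by omega)).toIsCluster
  have c5 := h.cl 5 (by omega)
  obtain ⟨K, U, β, k1, ⟨k2, k3, k4⟩, -, k5⟩ := hE0 c0 hσ hρ (by omega) q0
  have hK : A1 * (m + 1) ≤ K := by
    refine Nat.le_of_mul_le_mul_left (c := E0) (by rw [← mul_assoc]; omega) ?_
    rcases Nat.eq_zero_or_pos E0 with rfl | h0
    · omega
    · exact h0
  have hnb : q * m + (4 * m + 5) ≤ (q + 5) * (m + 1) := by nlinarith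
  have hs : (q * m + (4 * m + 5)) * c + 1 ≤ K / 2 := by
    have h1 := Nat.mul_le_mul_right c hnb
    have h2 : A1 * (m + 1) = 2 * ((q + 5) * (m + 1) * c) + 2 * (m + 1) := by rw [hA1]; ring
    omega
  obtain ⟨T, -, t1, t2, t3⟩ := hFE ∅ (univ.image (C 0).b) (K / 2) k3 (by omega) (empty_subset _)
    (by simp) (fun Z _ => by simp) fun Z hZ => by
      refine le_trans (by omega) ((k4 Z (by omega)).trans (card_le_card_of_injOn (C 0).b
        (fun i hi => ?_) c0.b_inj.injOn))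
      exact mem_coe.2 (mem_inter.2 ⟨mem_image_of_mem _ (mem_univ _),
        (mem_filter.1 (mem_coe.1 hi)).2⟩)
  rw [empty_union] at t1
  have h0 : (∅ : Finset V).card < K := by rw [card_empty]; omega
  have t4 : T ⊆ β ∅ := t3.sub_empty (by omega)
  obtain ⟨I3, i1, i2⟩ : ∃ I3 : Finset ι, (∀ i ∈ I3, (C 0).b i ∈ T) ∧ K / 2 ≤ I3.card := by
    refine ⟨univ.filter fun i => (C 0).b i ∈ T, fun i hi => (mem_filter.1 hi).2, ?_⟩
    rw [← t2]
    refine le_trans (card_le_card fun v hv => ?_) (card_image_le (f := (C 0).b))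
    obtain ⟨i, -, rfl⟩ := mem_image.1 (t1 hv)
    exact mem_image_of_mem _ (mem_filter.2 ⟨mem_univ _, hv⟩)
  obtain ⟨emb, e1, e2, e3⟩ : ∃ emb : ↥(foot (C 0) U)ᶜ ⊕ ↥I3 → ι, Function.Injective emb ∧
      (∀ i, emb (Sum.inl i) ∉ foot (C 0) U) ∧ ∀ t, emb (Sum.inr t) ∈ I3 := by
    refine ⟨Sum.elim Subtype.val Subtype.val, Subtype.val_injective.sumElim Subtype.val_injective
      fun i t e => ?_, fun i => mem_compl.1 i.2, fun t => t.2⟩
    exact mem_compl.1 i.2 (e ▸ mem_foot.2 ⟨_, c0.mb _, k3.subU h0 (t4 (i1 _ t.2))⟩)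
  have hτ : Nonempty ↥I3 := (card_pos.1 (by omega)).to_subtype
  obtain ⟨X, hX⟩ := pre5 hFAT h e1 k2 (k3.subU h0) (k3.conn _ h0)
    (fun i => not_mem_foot.1 (e2 i)) fun t => t4 (i1 _ (e3 t))
  have hD : Ends5 G (C 5).reg (En C 6) (fun j => (C 5).a (emb j)) fun j => (C 5).lane (emb j) :=
    ⟨fun j => c5.sub _, fun j => c5.conn _, fun j j' hn => c5.disj _ _ (e1.ne hn),
      fun j => c5.ma _, fun j => ⟨_, mem_image_of_mem _ (mem_univ (emb j)), c5.mb _⟩⟩
  rcases blocks1 (m := m) (nb := q * m + (4 * m + 5)) (c := c + 18) hKW hBLK hX hD (by omega) (by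
    rw [Fintype.card_coe, card_compl]
    have h1 := Nat.mul_le_mul_right (c + 18 + (c + 18) * (c + 18)) hnb
    have h2 := Nat.mul_le_mul_left (c + 18) (show 9 * m + 19 ≤ 19 * (m + 1) by omega)
    have h3 : 2 * A2 * (m + 1) = 2 * ((q + 5) * (m + 1) * (c + 18 + (c + 18) * (c + 18)) +
      (c + 18) * (19 * (m + 1)) + 18 * (m + 1)) := by rw [hA2]; ring
    omega) with hw' | ⟨lam, hR⟩
  · exact Or.inl (Or.inr hw')
  have hcard : Fintype.card (Fin (q * m + (4 * m + 5)) × Fin c) ≤ Fintype.card ↥I3 := by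
    rw [Fintype.card_prod, Fintype.card_fin, Fintype.card_fin, Fintype.card_coe]
    omega
  obtain ⟨u⟩ := Function.Embedding.nonempty_of_card_le hcard
  have hfree : ∀ f : Fin (q * m + (4 * m + 5)) × Fin c → ι,
      Free (C 5).β (Fintype.card ι) (univ.image fun k => (C 5).a (f k)) := fun f =>
    (free_a c5.toIsCluster).mono (image_subset_iff.2 fun k _ => mem_image_of_mem _ (mem_univ _))
  obtain ⟨P, π, p1, p2⟩ := hLINK (fun k => (C 5).a (emb (Sum.inr (u k))))
    (fun k : Fin (q * m + (4 * m + 5)) × Fin c => (C 5).a (emb (Sum.inl (lam k.1 (9 + k.2)))))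
    c5.hv (hcard.trans (by rw [Fintype.card_coe]; exact card_le_univ _))
    (fun k k' e => u.injective (Sum.inr.inj (e1 (c5.toIsCluster.a_inj e))))
    (fun k k' e => by
      have := hR.1 _ k.1.2 _ (by have := k.2.2; omega) _ k'.1.2 _ (by have := k'.2.2; omega)
        (Sum.inl.inj (e1 (c5.toIsCluster.a_inj e)))
      exact Prod.ext (Fin.ext this.1) (Fin.ext (by omega))) (hfree _) (hfree _)
  refine (last_region hKW hTIME hA hB hX hD hc hR (P := fun k => P (π.symm k))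
    (u := fun k => u (π.symm k)) (fun k => ?_) (fun k k' hn => p2 _ _ (π.symm.injective.ne hn))
    k3 (t4.trans (k3.subU h0)) t3 (by omega) (fun t => i1 _ (e3 t))
    fun t t' e => Sum.inr.inj (e1 (c0.b_inj e))).imp_left Or.inr
  obtain ⟨a1, a2, a3, a4⟩ := p1 (π.symm k)
  rw [π.apply_symm_apply] at a4
  exact ⟨a1.trans (c5.hv.subU (Fintype.card_pos_iff.2 ⟨q0⟩)), a2, a3, a4⟩

end Pool.Agent.MP_7be75d_co.Gen

end MrgPart4

-- ======== part 5: formerly Pool.Agent.MP_7be75d_co.Gen.Host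
section MrgPart5

/-! HOST: many steps with the same pattern. -/

namespace Pool.Agent.MP_7be75d_co.Gen

open Finset
open scoped Classical

namespace Host

variable {V ω : Type} {G : SimpleGraph V} {n : ℕ}

/-- One block: entering wires `W`, leaving wires `L` and a cell `S` inside the region `Q`. -/
structure Blk (G : SimpleGraph V) (n : ℕ) (Q : Finset V) (Γ : SimpleGraph ω) (x x' : ω)
    (W L : ω → Finset V) (S : Finset V) : Prop where
  ne : x ≠ x'
  sW : ∀ k, W k ⊆ Q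
  sL : ∀ k, L k ⊆ Q
  sS : S ⊆ Q
  cW : ∀ k, Conn G (W k)
  cL : ∀ k, Conn G (L k)
  dW : ∀ k k', k ≠ k' → Disjoint (W k) (W k')
  dL : ∀ k k', k ≠ k' → Disjoint (L k) (L k')
  dWL : ∀ k k', Disjoint (W k) (L k')
  dWS : ∀ k, Disjoint (W k) S
  dLS : ∀ k, Disjoint (L k) S
  adj : ∀ k k', Γ.Adj k k' → Touch G (W k) (W k')
  pass : ∀ k, k ≠ x → k ≠ x' → Touch G (W k) (L k)
  cell : Cell G n S (W x) (W x') (L x) (L x')

variable {Q Q' S S' : Finset V} {Γ Γ' : SimpleGraph ω} {x x' y y' : ω} {W L W' L' : ω → Finset V}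

/-- All wires pass a block. -/
theorem Blk.full (h : Blk G n Q Γ x x' W L S) (hn : 2 ≤ n) : ∃ F : ω → Finset V,
    (∀ k, W k ⊆ F k ∧ L k ⊆ F k ∧ F k ⊆ Q ∧ Conn G (F k)) ∧
      ∀ k k', k ≠ k' → Disjoint (F k) (F k') := by
  obtain ⟨X, Y, a1, a2, a3, a4, a5, a6, a7, a8, a9⟩ := h.cell.pass hn
  have hD : ∃ D : ω → Finset V, (∀ k, D k ⊆ S ∧ Conn G (W k ∪ D k ∪ L k)) ∧
      ∀ k k', k ≠ k' → Disjoint (D k) (D k') := by
    refine ⟨fun k => if k = x then X else if k = x' then Y else ∅, fun k => ?_, fun k k' hk => ?_⟩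
    · dsimp only
      split_ifs with h1 h2
      · subst h1
        exact ⟨a1, ((h.cW _).union_touch a3 a6.symm).union_touch (h.cL _)
          (a7.mono subset_union_right subset_rfl)⟩
      · subst h2
        exact ⟨a2, ((h.cW _).union_touch a4 a8.symm).union_touch (h.cL _)
          (a9.mono subset_union_right subset_rfl)⟩
      · rw [union_empty]
        exact ⟨empty_subset _, (h.cW _).union_touch (h.cL _) (h.pass k h1 h2)⟩
    · dsimp only
      split_ifs with h1 h2 h3 h4 h5 h6 <;>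
        first
          | exact a5
          | exact a5.symm
          | exact disjoint_empty_left _
          | exact disjoint_empty_right _
          | exact absurd (by simp [*]) hk
  obtain ⟨D, h1, h2⟩ := hD
  refine ⟨fun k => W k ∪ D k ∪ L k, fun k => ⟨subset_union_left.trans subset_union_left,
    subset_union_right, union_subset (union_subset (h.sW k) ((h1 k).1.trans h.sS)) (h.sL k),
    (h1 k).2⟩, fun k k' hk => ?_⟩
  simp only [disjoint_union_left, disjoint_union_right]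
  exact ⟨⟨⟨⟨h.dW k k' hk, ((h.dWS k').mono_right (h1 k).1).symm⟩, (h.dWL k' k).symm⟩,
    ⟨(h.dWS k).mono_right (h1 k').1, h2 k k' hk⟩, (h.dLS k).mono_right (h1 k').1⟩,
    ⟨h.dWL k k', ((h.dLS k').mono_right (h1 k).1).symm⟩, h.dL k k' hk⟩

/-- A block swallows the following block. -/
theorem Blk.ext (h : Blk G n Q Γ x x' W L S) (h' : Blk G n Q' Γ' y y' W' L' S') (hn : 2 ≤ n)
    (hd : Disjoint Q Q') {e : ω → ω} (he : Function.Injective e)
    (ht : ∀ k, Touch G (L k) (W' (e k))) :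
    ∃ L'', Blk G n (Q ∪ Q') Γ x x' W L'' S ∧ ∀ k, L' (e k) ⊆ L'' k := by
  obtain ⟨F, h1, h2⟩ := h'.full hn
  have hQ : ∀ {A : Finset V} (k), A ⊆ Q → Disjoint A (F k) := fun k hA =>
    hd.mono hA (h1 k).2.2.1
  refine ⟨fun k => L k ∪ F (e k), ⟨h.ne, fun k => (h.sW k).trans subset_union_left,
    fun k => union_subset_union (h.sL k) (h1 _).2.2.1, h.sS.trans subset_union_left, h.cW,
    fun k => (h.cL k).union_touch (h1 _).2.2.2 ((ht k).mono subset_rfl (h1 _).1), h.dW,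
    fun k k' hk => ?_, fun k k' => disjoint_union_right.2 ⟨h.dWL k k', hQ _ (h.sW k)⟩, h.dWS,
    fun k => disjoint_union_left.2 ⟨h.dLS k, (hQ _ h.sS).symm⟩, h.adj,
    fun k h3 h4 => (h.pass k h3 h4).mono subset_rfl subset_union_left,
    h.cell.mono subset_rfl subset_rfl subset_union_left subset_union_left⟩,
    fun k => (h1 _).2.1.trans subset_union_right⟩
  simp only [disjoint_union_left, disjoint_union_right]
  exact ⟨⟨h.dL k k' hk, (hQ _ (h.sL k')).symm⟩, hQ _ (h.sL k), h2 _ _ (he.ne hk)⟩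

/-- Blocks with the same pattern, joined by the identity. -/
theorem steps {M : ℕ} {Q S : ℕ → Finset V} {W L : ℕ → ω → Finset V}
    (h : ∀ t ≤ M, Blk G n (Q t) Γ x x' (W t) (L t) (S t))
    (hd : ∀ t ≤ M, ∀ t' ≤ M, t ≠ t' → Disjoint (Q t) (Q t'))
    (ht : ∀ t < M, ∀ k, Touch G (L t k) (W (t + 1) k)) : ∃ Wr, Steps G n M Γ x x' Wr S := by
  let Wr : ℕ → ω → Finset V := fun t k => W t k ∪ if t = 0 then ∅ else L (t - 1) k
  have m1 : ∀ t k, W t k ⊆ Wr t k := fun t k => subset_union_left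
  have m2 : ∀ t k, L t k ⊆ Wr (t + 1) k := fun t k => by
    simp only [Wr, Nat.succ_ne_zero, if_false, Nat.add_sub_cancel]
    exact subset_union_right
  have m3 : ∀ t k v, v ∈ Wr t k → v ∈ W t k ∨ ∃ s, t = s + 1 ∧ v ∈ L s k := fun t k v hv => by
    refine (mem_union.1 hv).imp_right fun hv => ?_
    split_ifs at hv with h0
    · simp at hv
    · exact ⟨t - 1, by omega, hv⟩
  have hq : ∀ t ≤ M, ∀ t' ≤ M, ∀ v ∈ Q t, v ∈ Q t' → t = t' := fun t h1 t' h2 v h3 h4 =>
    by_contra fun hn => disjoint_left.1 (hd t h1 t' h2 hn) h3 h4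
  refine ⟨Wr, fun j hj k => ?_, fun j hj j' hj' k k' hn => disjoint_left.2 fun v hv hv' => ?_,
    fun j hj j' hj' hn => (hd j hj.le j' hj'.le hn).mono (h j hj.le).sS (h j' hj'.le).sS,
    fun j hj j' hj' k => disjoint_left.2 fun v hv hv' => ?_,
    fun j hj k k' ha => ((h j hj).adj k k' ha).mono (m1 j k) (m1 j k'),
    fun j hj k h1 h2 => ((h j hj.le).pass k h1 h2).mono (m1 j k) (m2 j k),
    fun j hj => (h j hj.le).cell.mono (m1 j _) (m1 j _) (m2 j _) (m2 j _)⟩
  · cases j with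
    | zero => simpa [Wr] using (h 0 hj).cW k
    | succ j =>
      simp only [Wr, Nat.succ_ne_zero, if_false, Nat.add_sub_cancel]
      exact ((h _ hj).cW k).union_touch ((h j (by omega)).cL k) (ht j hj k).symm
  · rcases m3 _ _ _ hv with a | ⟨s, rfl, a⟩ <;> rcases m3 _ _ _ hv' with b | ⟨s', rfl, b⟩
    · obtain rfl := hq _ hj _ hj' v ((h _ hj).sW _ a) ((h _ hj').sW _ b)
      exact disjoint_left.1 ((h _ hj).dW k k' (hn.resolve_left fun e => e rfl)) a b
    · obtain rfl := hq _ hj s' (by omega) v ((h _ hj).sW _ a) ((h s' (by omega)).sL _ b)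
      exact disjoint_left.1 ((h _ hj).dWL k k') a b
    · obtain rfl := hq _ hj' s (by omega) v ((h _ hj').sW _ b) ((h s (by omega)).sL _ a)
      exact disjoint_left.1 ((h _ hj').dWL k' k) b a
    · obtain rfl := hq s (by omega) s' (by omega) v ((h s (by omega)).sL _ a)
        ((h s' (by omega)).sL _ b)
      exact disjoint_left.1 ((h s (by omega)).dL k k' (hn.resolve_left fun e => e rfl)) a b
  · rcases m3 _ _ _ hv with a | ⟨s, rfl, a⟩
    · obtain rfl := hq _ hj _ hj'.le v ((h _ hj).sW _ a) ((h _ hj'.le).sS hv')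
      exact disjoint_left.1 ((h _ hj).dWS k) a hv'
    · obtain rfl := hq s (by omega) _ hj'.le v ((h s (by omega)).sL _ a) ((h _ hj'.le).sS hv')
      exact disjoint_left.1 ((h _ hj'.le).dLS k) a hv'

/-- Pigeonhole: among many blocks, some have the same pattern and the same labelling. -/
theorem select [Fintype ω] {M T : ℕ} {Q S : ℕ → Finset V} {W L : ℕ → ω → Finset V}
    {Γ : ℕ → SimpleGraph ω} {π : ℕ → ω ≃ ω} (hn : 2 ≤ n)
    (hT : Nat.card ((ω ≃ ω) × SimpleGraph ω) * (M + 1) < T)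
    (h : ∀ j < T, Blk G n (Q j) (Γ j) x x' (W j) (L j) (S j))
    (hd : ∀ j < T, ∀ j' < T, j ≠ j' → Disjoint (Q j) (Q j'))
    (ht : ∀ j < T, ∀ k, Touch G (L j k) (W (j + 1) (π j k))) :
    ∃ j < T, ∃ Wr S', Steps G n M (Γ j) x x' Wr S' := by
  obtain ⟨lam, hl⟩ : ∃ lam : ℕ → ω ≃ ω, ∀ j k, lam (j + 1) k = π j (lam j k) :=
    ⟨fun j => Nat.rec (Equiv.refl ω) (fun i e => e.trans (π i)) j, fun _ _ => rfl⟩
  have way : ∀ j i, j ≤ i → i < T → ∃ L', Blk G n ((Icc j i).biUnion Q) (Γ j) x x' (W j) L' (S j) ∧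
      ∀ k, Touch G (L' k) (W (i + 1) (lam (i + 1) ((lam j).symm k))) := by
    intro j i hji
    induction i, hji using Nat.le_induction with
    | base =>
      intro hj
      refine ⟨L j, by simpa using h j hj, fun k => ?_⟩
      rw [hl, Equiv.apply_symm_apply]
      exact ht j hj k
    | succ i hi ih =>
      intro hiT
      obtain ⟨L', h1, h2⟩ := ih (by omega)
      obtain ⟨L'', h3, h4⟩ := h1.ext (h _ hiT) hn
        ((disjoint_biUnion_left _ _ _).2 fun s hs => by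
          have := mem_Icc.1 hs
          exact hd s (by omega) _ hiT (by omega))
        ((lam (i + 1)).injective.comp (lam j).symm.injective) h2
      have e : Icc j (i + 1) = insert (i + 1) (Icc j i) := by
        ext s; simp only [mem_Icc, mem_insert]; omega
      refine ⟨L'', by rwa [e, biUnion_insert, union_comm], fun k => ?_⟩
      rw [hl (i + 1)]
      exact (ht _ hiT _).mono (h4 k) subset_rfl
  obtain ⟨z, -, hz⟩ := exists_lt_card_fiber_of_mul_lt_card_of_maps_to (s := range T) (t := univ)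
    (f := fun j => (lam j, Γ j)) (n := M + 1) (fun _ _ => mem_univ _) (by rwa [card_univ, card_range, ← Nat.card_eq_fintype_card])
  obtain ⟨c, c1, c2⟩ : ∃ c : ℕ → ℕ, (∀ t ≤ M + 1, c t < T ∧ (lam (c t), Γ (c t)) = z) ∧
      ∀ t t', t < t' → t' ≤ M + 1 → c t < c t' := by
    let e := orderEmbOfCardLe _ (Nat.succ_le_of_lt hz)
    refine ⟨fun t => if ht : t < M + 2 then e ⟨t, ht⟩ else 0, fun t ht => ?_, fun t t' h1 h2 => ?_⟩
    · have := orderEmbOfCardLe_mem _ (Nat.succ_le_of_lt hz) ⟨t, by omega⟩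
      simp only [dif_pos (show t < M + 2 by omega)]
      exact ⟨mem_range.1 (mem_filter.1 this).1, (mem_filter.1 this).2⟩
    · simp only [dif_pos (show t < M + 2 by omega), dif_pos (show t' < M + 2 by omega)]
      exact e.strictMono h1
  have hb : ∀ t ≤ M, ∃ L', Blk G n ((Icc (c t) (c (t + 1) - 1)).biUnion Q) (Γ (c 0)) x x'
      (W (c t)) L' (S (c t)) ∧ ∀ k, Touch G (L' k) (W (c (t + 1)) k) := by
    intro t htM
    have a1 := c1 t (by omega)
    have a2 := c1 (t + 1) (by omega)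
    have a3 := c2 t (t + 1) (by omega) (by omega)
    obtain ⟨L', h1, h2⟩ := way (c t) (c (t + 1) - 1) (by omega) (by omega)
    have e1 : Γ (c t) = Γ (c 0) := congrArg Prod.snd (a1.2.trans (c1 0 (by omega)).2.symm)
    have e2 : lam (c (t + 1)) = lam (c t) := congrArg Prod.fst (a2.2.trans a1.2.symm)
    rw [show c (t + 1) - 1 + 1 = c (t + 1) by omega, e2] at h2
    exact ⟨L', e1 ▸ h1, by simpa using h2⟩
  choose! L' b1 b2 using hb
  obtain ⟨Wr, hW⟩ := steps (M := M) b1 (fun t h1 t' h2 hn => by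
    refine (disjoint_biUnion_left _ _ _).2 fun s hs => (disjoint_biUnion_right _ _ _).2
      fun s' hs' => ?_
    have a1 := mem_Icc.1 hs
    have a2 := mem_Icc.1 hs'
    have a3 := (c1 (t + 1) (by omega)).1
    have a4 := (c1 (t' + 1) (by omega)).1
    have a5 := c2 t (t + 1) (by omega) (by omega)
    have a6 := c2 t' (t' + 1) (by omega) (by omega)
    refine hd s (by omega) s' (by omega) ?_
    rcases Nat.lt_or_gt_of_ne hn with a | a
    · rcases (Nat.succ_le_of_lt a).eq_or_lt with e | e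
      · have : c (t + 1) = c t' := congrArg c e
        omega
      · have := c2 (t + 1) t' e (by omega)
        omega
    · rcases (Nat.succ_le_of_lt a).eq_or_lt with e | e
      · have : c (t' + 1) = c t := congrArg c e
        omega
      · have := c2 (t' + 1) t e (by omega)
        omega) fun t h1 => b2 t h1.le
  exact ⟨c 0, (c1 0 (by omega)).1, Wr, _, hW⟩

end Host

open Host

theorem host (hS : SPOSStmt) (hP : STEPStmt) (hL : LINKStmt) : HOSTStmt := by
  intro N M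
  obtain ⟨T, hT⟩ : ∃ T, Nat.card ((Wi (2 * N) ≃ Wi (2 * N)) × SimpleGraph (Wi (2 * N))) *
    (M + 1) < T := ⟨_, Nat.lt_succ_self _⟩
  obtain ⟨ρ, lam, hS⟩ := hS (18 * (T + 1))
  obtain ⟨E, hP⟩ := hP ρ N
  refine ⟨lam * (2 * E + 1), fun {V} _ G n hn hg => ?_⟩
  obtain ⟨w, σ, C, hw, hC, hσ, hρ⟩ := hS G (E * (n + 1) + 1) (Nat.succ_pos _) (le_trans (by
    rw [mul_assoc]
    exact Nat.mul_le_mul_left _ (by nlinarith)) hg)
  have hst := fun j (hj : j ≤ T) => hP (hC.shift (18 * j) 17 (by omega)) hσ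
    (by simpa using hρ) (n := n) (by simp only [Fintype.card_fin]; omega)
  have : Nonempty (Fin w) := ⟨⟨0, by omega⟩⟩
  have : Nonempty V := ⟨(C 0).a ⟨0, by omega⟩⟩
  choose! i o W S Γ pa pu s1 s2 s3 s4 s5 s6 s7 s8 s9 s10 s11 using hst
  have hlk := fun j (hj : j < T) => hL (fun k => (C (18 * j + 17)).a (o j k))
    (fun k => (C (18 * j + 17)).b (i (j + 1) k)) (hC.cl (18 * j + 17) (by omega)).hv
    (Fintype.card_le_of_injective _ (s1 j hj.le))
    ((hC.cl (18 * j + 17) (by omega)).toIsCluster.a_inj.comp (s2 j hj.le))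
    ((hC.cl (18 * j + 17) (by omega)).toIsCluster.b_inj.comp (s1 _ hj))
    ((free_a (hC.cl (18 * j + 17) (by omega)).toIsCluster).mono
      (image_subset_iff.2 fun k _ => mem_image_of_mem _ (mem_univ _)))
    ((hC.cl (18 * j + 17) (by omega)).free_b.mono
      (image_subset_iff.2 fun k _ => mem_image_of_mem _ (mem_univ _)))
  choose! L π l1 l2 using hlk
  obtain ⟨j, hj, Wr, S', h⟩ := select (G := G) (n := n) (M := M) (T := T)
    (Q := fun j => Reg (fun t => C (18 * j + t)) 18) (S := S) (W := W) (L := L) (Γ := Γ) (π := π)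
    (x := Sum.inr (Sum.inr false)) (x' := Sum.inr (Sum.inr true)) hn hT
    (fun j hj => by
      have r1 : Reg (fun t => C (18 * j + t)) 17 ⊆ Reg (fun t => C (18 * j + t)) 18 :=
        biUnion_subset_biUnion_of_subset_left _ (range_subset_range.2 (by omega))
      have r2 : ∀ k, L j k ⊆ (C (18 * j + 17)).reg := fun k => (l1 j hj k).1.trans
        ((hC.cl (18 * j + 17) (by omega)).hv.subU (by simp only [card_empty, Fintype.card_fin]; omega))
      have r3 : Disjoint (Reg (fun t => C (18 * j + t)) 17) (C (18 * j + 17)).reg :=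
        (disjoint_biUnion_left _ _ _).2 fun t ht => by
          have := mem_range.1 ht
          exact hC.disj _ (by omega) _ (by omega) (by omega)
      have r4 : ∀ k, Touch G {(C (18 * j + 16)).b (o j k)} (L j k) := fun k =>
        ⟨_, mem_singleton_self _, _, (l1 j hj k).2.2.1, hC.adj (18 * j + 16) (by omega) _⟩
      exact ⟨by simp, fun k => (s3 j hj.le k).1.trans r1,
        fun k => (r2 k).trans (reg_sub_Reg (C := fun t => C (18 * j + t)) (by omega : 17 < 18)),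
        (s5 j hj.le).trans r1, fun k => (s3 j hj.le k).2.1, fun k => (l1 j hj k).2.1, s4 j hj.le,
        l2 j hj, fun k k' => r3.mono (s3 j hj.le k).1 (r2 k'), fun k => (s3 j hj.le k).2.2.1,
        fun k => (r3.mono (s5 j hj.le) (r2 k)).symm, s7 j hj.le,
        fun k h1 h2 => (touch_of_mem (r4 k) (s6 j hj.le k h1 h2)),
        _, _, _, _, s9 j hj.le, s10 j hj.le, s11 j hj.le, r4 _, r4 _⟩)
    (fun j hj j' hj' hn => (disjoint_biUnion_left _ _ _).2 fun t ht =>
      (disjoint_biUnion_right _ _ _).2 fun t' ht' => by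
        have := mem_range.1 ht
        have := mem_range.1 ht'
        exact hC.disj _ (by omega) _ (by omega) (by omega))
    (fun j hj k => ⟨_, (l1 j hj k).2.2.2, _, (s3 (j + 1) hj (π j k)).2.2.2, by
      have := hC.adj (18 * j + 17) (by omega) (i (j + 1) (π j k))
      rwa [show 18 * j + 17 + 1 = 18 * (j + 1) + 0 by omega] at this⟩)
  exact ⟨_, Γ j, _, _, Wr, S', h, s8 j hj.le⟩

end Pool.Agent.MP_7be75d_co.Gen

end MrgPart5

-- ======== part 6: formerly Pool.Agent.MP_7be75d_co.Gen.PM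
section MrgPart6

/-! Pieces with linked ends are joined to one sequence by rotations. -/

namespace Pool.Agent.MP_7be75d_co.Gen

open Finset
open scoped Classical

namespace PM

variable {V ι : Type} {G : SimpleGraph V} {c c' : V → V → ℕ}

/-- Walks with their vertex set and their cost. -/
inductive Wk (G : SimpleGraph V) (c : V → V → ℕ) (a : V) : V → Finset V → ℕ → Prop
  | nil : Wk G c a a {a} 0
  | tail {x y : V} {S : Finset V} {n : ℕ} :
      Wk G c a x S n → G.Adj x y → Wk G c a y (insert y S) (n + c x y)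

namespace Wk

variable {a b d z : V} {S T U : Finset V} {n m : ℕ}

theorem cast (h : Wk G c a b S n) (h1 : S = T) (h2 : n = m) : Wk G c a b T m := h1 ▸ h2 ▸ h

theorem left_mem (h : Wk G c a b S n) : a ∈ S := by
  induction h with
  | nil => simp
  | tail _ _ ih => exact mem_insert_of_mem ih

theorem right_mem (h : Wk G c a b S n) : b ∈ S := by
  cases h <;> simp

theorem conn (h : Wk G c a b S n) : Conn G S := by
  induction h with
  | nil => exact Conn.singleton a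
  | tail h1 h2 ih => exact ih.insert h1.right_mem h2

theorem trans (h : Wk G c a b S n) (h' : Wk G c b d T m) : Wk G c a d (S ∪ T) (n + m) := by
  induction h' with
  | nil => exact h.cast (union_eq_left.2 (by simpa using h.right_mem)).symm rfl
  | tail _ h2 ih => exact (ih.tail h2).cast (union_insert _ _ _).symm (add_assoc _ _ _)

theorem symm (hc : ∀ x y, c x y = c y x) (h : Wk G c a b S n) : Wk G c b a S n := by
  induction h with
  | nil => exact nil
  | @tail x y S n h1 h2 ih =>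
    refine ((nil.tail h2.symm).trans ih).cast ?_ (by rw [hc y x]; omega)
    have := h1.right_mem
    ext v
    simp only [mem_union, mem_insert, mem_singleton]
    constructor
    · rintro ((rfl | rfl) | h) <;> simp [*]
    · rintro (rfl | h) <;> simp [*]

theorem recost (h : Wk G c a b S n) : ∃ m, Wk G c' a b S m := by
  induction h with
  | nil => exact ⟨0, nil⟩
  | tail _ h2 ih => exact ⟨_, ih.choose_spec.tail h2⟩

theorem split (h : Wk G c a b S n) (hz : z ∈ S) :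
    ∃ S1 S2 n1 n2, Wk G c a z S1 n1 ∧ Wk G c z b S2 n2 ∧ S1 ⊆ S ∧ n1 + n2 = n := by
  induction h with
  | nil =>
    obtain rfl := mem_singleton.1 hz
    exact ⟨_, _, 0, 0, nil, nil, subset_rfl, rfl⟩
  | tail h1 h2 ih =>
    rcases mem_insert.1 hz with rfl | hz
    · exact ⟨_, _, _, 0, h1.tail h2, nil, subset_rfl, rfl⟩
    · obtain ⟨S1, S2, n1, n2, a1, a2, a3, rfl⟩ := ih hz
      exact ⟨S1, _, n1, _, a1, a2.tail h2, a3.trans (subset_insert _ _), (add_assoc _ _ _).symm⟩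

theorem stay (hc : ∀ x ∈ T, ∀ y, c x y = 0 → y ∈ T) (h : Wk G c a b S n) (ha : a ∈ T)
    (hn : n = 0) : b ∈ T := by
  induction h with
  | nil => exact ha
  | tail _ _ ih => exact hc _ (ih (by omega)) _ (by omega)

end Wk

theorem hit {S : Finset V} (U : Finset V) {a b : V} (hc : ∀ x ∈ S, ∀ y ∈ S, c x y = 0)
    (h : R G S a b) (ha : a ∈ S) : (∃ T ⊆ S, Wk G c a b T 0 ∧ Disjoint T U) ∨
      ∃ z ∈ U, ∃ T ⊆ S, Wk G c a z T 0 ∧ ∀ x ∈ T, x ∈ U → x = z := by
  refine h.ind (P := fun b => (∃ T ⊆ S, Wk G c a b T 0 ∧ Disjoint T U) ∨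
      ∃ z ∈ U, ∃ T ⊆ S, Wk G c a z T 0 ∧ ∀ x ∈ T, x ∈ U → x = z) ?_ ?_
  · by_cases h1 : a ∈ U
    · exact Or.inr ⟨a, h1, {a}, by simpa using ha, Wk.nil, by simp⟩
    · exact Or.inl ⟨{a}, by simpa using ha, Wk.nil, by simpa using h1⟩
  · rintro x y - (⟨T, h1, h2, h3⟩ | h1) hxy hx hy
    · have h4 := (h2.tail hxy).cast rfl (m := 0) (by simp [hc x hx y hy])
      by_cases h5 : y ∈ U
      · refine Or.inr ⟨y, h5, _, insert_subset hy h1, h4, fun v hv hU => ?_⟩
        exact (mem_insert.1 hv).resolve_right fun h6 => disjoint_left.1 h3 h6 hU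
      · exact Or.inl ⟨_, insert_subset hy h1, h4, disjoint_insert_left.2 ⟨h5, h3⟩⟩
    · exact Or.inr h1

/-- Routes: entry end, exit end, pieces used, vertices used by the joining walks, cost. -/
inductive Rt (G : SimpleGraph V) (H : Finset V) (h : ι × Bool → V) (c : V → V → ℕ) :
    ι × Bool → ι × Bool → Finset ι → Finset V → ℕ → Prop
  | one (i : ι) (j : Bool) : Rt G H h c (i, j) (i, !j) {i} ∅ 0
  | join {s e s' e' : ι × Bool} {A A' B : Finset ι} {U T U' W : Finset V} {n m n' k : ℕ} :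
      Rt G H h c s e A U n → Wk G c (h e) (h s') T m → Rt G H h c s' e' A' U' n' → T ⊆ H →
      Disjoint A A' → Disjoint U T → Disjoint U U' → Disjoint T U' → B = A ∪ A' →
      W = U ∪ T ∪ U' → k = n + m + n' → Rt G H h c s e' B W k

namespace Rt

variable {H : Finset V} {h : ι × Bool → V} {s e : ι × Bool} {A : Finset ι} {U : Finset V} {n : ℕ}

theorem ends (r : Rt G H h c s e A U n) : s.1 ∈ A ∧ e.1 ∈ A ∧ s ≠ e ∧ U ⊆ H := by
  induction r with
  | one i j => simp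
  | join _ _ _ hT hA _ _ _ e1 e2 _ i1 i2 =>
    subst e1 e2
    refine ⟨mem_union_left _ i1.1, mem_union_right _ i2.2.1, fun h1 => ?_,
      union_subset (union_subset i1.2.2.2 hT) i2.2.2.2⟩
    exact disjoint_left.1 hA i1.1 (h1 ▸ i2.2.1)

theorem symm (hc : ∀ x y, c x y = c y x) (r : Rt G H h c s e A U n) : Rt G H h c e s A U n := by
  induction r with
  | one i j => simpa using one i (!j)
  | join _ w _ hT hA h1 h2 h3 e1 e2 e3 i1 i2 =>
    exact join i2 (w.symm hc) i1 hT hA.symm h3.symm h2.symm h1.symm (e1.trans (union_comm _ _))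
      (by rw [e2]; ac_rfl) (by omega)

theorem recost (r : Rt G H h c s e A U n) : ∃ m, Rt G H h c' s e A U m := by
  induction r with
  | one i j => exact ⟨0, one i j⟩
  | join _ w _ hT hA h1 h2 h3 e1 e2 _ i1 i2 =>
    exact ⟨_, join i1.choose_spec w.recost.choose_spec i2.choose_spec hT hA h1 h2 h3 e1 e2 rfl⟩

theorem split (r : Rt G H h c s e A U n) {z : V} (hz : z ∈ U) :
    ∃ e1 s2 A1 A2 U1 T U2 n1 m n2, Rt G H h c s e1 A1 U1 n1 ∧ Wk G c (h e1) (h s2) T m ∧
      Rt G H h c s2 e A2 U2 n2 ∧ z ∈ T ∧ Disjoint A1 A2 ∧ Disjoint U1 T ∧ Disjoint U1 U2 ∧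
      Disjoint T U2 ∧ A = A1 ∪ A2 ∧ U = U1 ∪ T ∪ U2 ∧ n = n1 + m + n2 := by
  induction r with
  | one i j => simp at hz
  | join r1 w r2 hT hA h1 h2 h3 e1 e2 e3 i1 i2 =>
    subst e1 e2 e3
    simp only [mem_union] at hz
    rcases hz with (hz | hz) | hz
    · obtain ⟨e1, s2, A1, A2, U1, T0, U2, n1, m, n2, a1, a2, a3, a4, a5, a6, a7, a8, rfl, rfl, rfl⟩ :=
        i1 hz
      simp only [disjoint_union_left] at hA h1 h2
      refine ⟨e1, s2, A1, _, U1, T0, _, n1, m, _, a1, a2,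
        join a3 w r2 hT hA.2 h1.2 h2.2 h3 rfl rfl rfl, a4, ?_, a6, ?_, ?_, union_assoc _ _ _,
        by ac_rfl, by omega⟩ <;> simp [disjoint_union_right, *]
    · exact ⟨_, _, _, _, _, _, _, _, _, _, r1, w, r2, hz, hA, h1, h2, h3, rfl, rfl, rfl⟩
    · obtain ⟨e1, s2, A1, A2, U1, T0, U2, n1, m, n2, a1, a2, a3, a4, a5, a6, a7, a8, rfl, rfl, rfl⟩ :=
        i2 hz
      simp only [disjoint_union_right] at hA h2 h3
      refine ⟨e1, s2, _, A2, _, T0, U2, _, m, n2,
        join r1 w a1 hT hA.1 h1 h2.1.1 h3.1.1 rfl rfl rfl, a2, a3, a4, ?_, ?_, ?_, a8,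
        (union_assoc _ _ _).symm, by ac_rfl, by omega⟩ <;> simp [disjoint_union_left, *]

/-- The extension lemma. -/
theorem extend {B : Finset ι} {Q : ι × Bool → Finset V} (hAB : Disjoint A B)
    (h1 : ∀ e ∈ A ×ˢ (univ : Finset Bool), Q e ⊆ H ∧ Conn G (Q e) ∧ h e ∈ Q e ∧
      ∃ i ∈ B, ∃ j, h (i, j) ∈ Q e)
    (h2 : ∀ e ∈ A ×ˢ (univ : Finset Bool), ∀ e' ∈ A ×ˢ (univ : Finset Bool), e ≠ e' →
      Disjoint (Q e) (Q e')) (r : Rt G H h c s e A U n) :
    ∃ b ∈ B, ∃ s e U n, Rt G H h c s e (insert b A) U n := by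
  let d : V → V → ℕ := fun x y => if ∃ e : ι × Bool, e.1 ∈ A ∧ x ∈ Q e ∧ y ∈ Q e then 0 else 1
  have hd : ∀ x y, d x y = d y x := fun x y => by simp only [d, and_comm (a := x ∈ Q _)]
  simp only [mem_product, mem_univ, and_true] at h1 h2
  suffices ∀ n e U, Rt G H h d s e A U n → ∃ b ∈ B, ∃ e U n, Rt G H h d s e (insert b A) U n by
    obtain ⟨m, r'⟩ := r.recost (c' := d)
    obtain ⟨b, hb, e, U, n, r''⟩ := this _ _ _ r'
    exact ⟨b, hb, s, e, U, r''.recost⟩
  intro n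
  induction n using Nat.strong_induction_on with
  | _ n ih =>
  intro e U r
  have he := r.ends.2.1
  obtain ⟨q1, q2, q3, b, hb, j, q4⟩ := h1 e he
  rcases hit (c := d) U (fun x hx y hy => if_pos ⟨e, he, hx, hy⟩) (q2.2 _ q3 _ q4) q3 with
    ⟨T, a1, a2, a3⟩ | ⟨z, hz, T, a1, a2, a3⟩
  · exact ⟨b, hb, _, _, _, join r a2 (one b j) (a1.trans q1)
      (disjoint_singleton_right.2 (disjoint_right.1 hAB hb)) a3.symm (disjoint_empty_right _)
      (disjoint_empty_right _) (by rw [insert_eq, union_comm]) rfl rfl⟩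
  · obtain ⟨e1, s2, A1, A2, U1, T0, U2, n1, m, n2, r1, w, r2, b1, b2, b3, b4, b5, b6, b7, b8⟩ :=
      r.split hz
    obtain ⟨S1, S2, m1, m2, w1, w2, b9, rfl⟩ := w.split b1
    have hs : s2.1 ∈ A := b6 ▸ mem_union_right _ r2.ends.1
    have hm : m2 ≠ 0 := fun h0 => disjoint_left.1 (h2 s2 hs e he r2.ends.2.2.1) (h1 s2 hs).2.2.1
      (w2.stay (fun x hx y hxy => by
        obtain ⟨e', he', c1, c2⟩ : ∃ e : ι × Bool, e.1 ∈ A ∧ x ∈ Q e ∧ y ∈ Q e := by
          by_contra hn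
          simp only [d, if_neg hn] at hxy
          omega
        by_cases e0 : e' = e
        · exact e0 ▸ c2
        · exact absurd hx (disjoint_left.1 (h2 e' he' e he e0) c1)) (a1 a2.right_mem) h0)
    have hT0 : T0 ⊆ H := fun x hx => r.ends.2.2.2 (by simp [b7, hx])
    have key : ∀ X ⊆ U, Disjoint X T0 → Disjoint X (S1 ∪ T) := fun X hX hd =>
      disjoint_union_right.2 ⟨hd.mono_right b9, disjoint_left.2 fun x hx hT =>
        disjoint_left.1 hd hx (a3 x hT (hX hx) ▸ b1)⟩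
    exact ih _ (by omega) _ _ (join r1 (w1.trans (a2.symm hd)) (r2.symm hd)
      (union_subset (b9.trans hT0) (a1.trans q1)) b2
      (key _ (fun x hx => by simp [b7, hx]) b3) b4
      (key _ (fun x hx => by simp [b7, hx]) b5.symm).symm b6 rfl rfl)

theorem list {Big : Finset V} {I : Finset ι} {Ls : ι → List (Finset V)} (P : Finset V → Prop)
    (hH : H ⊆ Big)
    (h1 : ∀ i ∈ I, SeqOK G Big (Ls i) ∧ (∀ S ∈ Ls i, Disjoint S H) ∧ (∀ j, h (i, j) ∈ H) ∧
      (∃ S, (Ls i).head? = some S ∧ Touch G S {h (i, false)}) ∧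
      ∃ S, (Ls i).getLast? = some S ∧ Touch G S {h (i, true)})
    (h2 : ∀ i ∈ I, ∀ i' ∈ I, i ≠ i' → ∀ S ∈ Ls i, ∀ S' ∈ Ls i', Disjoint S S')
    (r : Rt G H h c s e A U n) (hA : A ⊆ I) : ∃ l, SeqOK G Big l ∧
      ∑ i ∈ A, cnt P (Ls i) ≤ cnt P l ∧ (∀ S ∈ l, S ⊆ U ∨ ∃ i ∈ A, S ∈ Ls i) ∧
      (∃ S, l.head? = some S ∧ Touch G S {h s}) ∧ ∃ S, l.getLast? = some S ∧ Touch G S {h e} := by
  induction r with
  | one i j =>
    obtain ⟨a1, -, -, a2, a3⟩ := h1 i (hA (mem_singleton_self i))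
    cases j
    · exact ⟨Ls i, a1, by simp, fun S hS => Or.inr (by simpa using hS), a2, a3⟩
    · refine ⟨(Ls i).reverse, ⟨by simpa using a1.sub, by simpa using a1.conn,
        List.pairwise_reverse.2 (a1.disj.imp fun h => h.symm),
        List.isChain_reverse.2 (a1.chain.imp fun _ _ => Touch.symm)⟩, by simp [cnt],
        fun S hS => Or.inr (by simpa using hS), by simpa using a3, by simpa using a2⟩
  | @join s e s' e' A A' B U T U' W _ _ _ _ r1 w r2 hT hA' d1 d2 d3 e1 e2 _ i1 i2 =>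
    subst e1 e2
    obtain ⟨l1, a1, a2, a3, ⟨S1, a4, a5⟩, S2, a6, a7⟩ := i1 (union_subset_left hA)
    obtain ⟨l2, b1, b2, b3, ⟨S3, b4, b5⟩, S4, b6, b7⟩ := i2 (union_subset_right hA)
    have key : ∀ (X X' : Finset ι) (Y Y' S S' : Finset V), X ⊆ I → X' ⊆ I → Disjoint X X' →
        Y ⊆ H → Y' ⊆ H → Disjoint Y Y' → (S ⊆ Y ∨ ∃ i ∈ X, S ∈ Ls i) →
        (S' ⊆ Y' ∨ ∃ i ∈ X', S' ∈ Ls i) → Disjoint S S' := by
      rintro X X' Y Y' S S' x1 x2 x3 y1 y2 y3 (p | ⟨i, hi, p⟩) (q | ⟨i', hi', q⟩)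
      · exact y3.mono p q
      · exact (((h1 i' (x2 hi')).2.1 S' q).mono_right (p.trans y1)).symm
      · exact ((h1 i (x1 hi)).2.1 S p).mono_right (q.trans y2)
      · exact h2 i (x1 hi) i' (x2 hi') (fun e => disjoint_left.1 x3 hi (e ▸ hi')) S p S' q
    refine ⟨l1 ++ T :: l2, ⟨?_, ?_, ?_, ?_⟩, ?_, ?_, ⟨S1, by simp [a4], a5⟩, S4, ?_, b7⟩
    · simpa [or_imp, forall_and] using ⟨a1.sub, hT.trans hH, b1.sub⟩
    · simpa [or_imp, forall_and] using ⟨a1.conn, w.conn, b1.conn⟩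
    · refine List.pairwise_append.2 ⟨a1.disj, List.pairwise_cons.2 ⟨fun S hS => ?_, b1.disj⟩,
        fun S hS S' hS' => ?_⟩
      · exact key ∅ A' T U' T S (empty_subset _) (union_subset_right hA) (disjoint_empty_left _) hT
          r2.ends.2.2.2 d3 (Or.inl subset_rfl) (b3 S hS)
      · refine key A A' U (T ∪ U') S S' (union_subset_left hA) (union_subset_right hA) hA'
          r1.ends.2.2.2 (union_subset hT r2.ends.2.2.2) (disjoint_union_right.2 ⟨d1, d2⟩)
          (a3 S hS) ?_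
        rcases List.mem_cons.1 hS' with rfl | hS'
        · exact Or.inl subset_union_left
        · exact (b3 S' hS').imp_left fun h => h.trans subset_union_right
    · refine a1.chain.append (b1.chain.cons fun y hy => ?_) fun x hx y hy => ?_
      · obtain rfl : S3 = y := by simpa [b4] using hy
        exact (b5.mono subset_rfl (by simpa using w.right_mem)).symm
      · obtain rfl : S2 = x := by simpa [a6] using hx
        obtain rfl : T = y := by simpa using hy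
        exact a7.mono subset_rfl (by simpa using w.left_mem)
    · rw [sum_union hA']
      simp only [cnt, List.countP_append, List.countP_cons] at a2 b2 ⊢
      omega
    · intro S hS
      simp only [List.mem_append, List.mem_cons] at hS
      rcases hS with hS | rfl | hS
      · exact (a3 S hS).imp (fun h => h.trans (subset_union_left.trans subset_union_left))
          fun ⟨i, hi, h⟩ => ⟨i, mem_union_left _ hi, h⟩
      · exact Or.inl (subset_union_right.trans subset_union_left)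
      · exact (b3 S hS).imp (fun h => h.trans subset_union_right)
          fun ⟨i, hi, h⟩ => ⟨i, mem_union_right _ hi, h⟩
    · cases l2 with
      | nil => simp at b6
      | cons x l2 => simpa [List.getLast?_append] using b6

end Rt

theorem greedy (I : Finset ι) (w : ι → ℕ) (Ok : Finset ι → Prop) (h1 : ∀ i, Ok {i})
    (h2 : ∀ A ⊆ I, ∀ B ⊆ I, Disjoint A B → B.card = 2 * A.card → Ok A → ∃ b ∈ B, Ok (insert b A))
    (J : Finset ι) : J ⊆ I → J.Nonempty → ∃ A ⊆ J, Ok A ∧ A.card = J.card / 3 + 1 ∧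
      ∀ m, (∀ x ∈ J, m ≤ w x) → ∑ i ∈ J, w i + (2 - J.card % 3) * m ≤ 3 * ∑ i ∈ A, w i := by
  induction J using Finset.induction_on_min_value w with
  | empty => simp
  | insert x J hx hw ih =>
  intro hJ _
  rcases J.eq_empty_or_nonempty with rfl | hne
  · exact ⟨{x}, by simp, h1 x, by simp, fun m hm => by
      have := hm x (by simp)
      simp only [insert_empty_eq, sum_singleton, card_singleton, Nat.reduceMod, Nat.reduceSub]
      omega⟩
  obtain ⟨A, a1, a2, a3, a4⟩ := ih ((subset_insert _ _).trans hJ) hne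
  have a5 := a4 _ hw
  have a6 : A ⊆ insert x J := a1.trans (subset_insert _ _)
  rw [card_insert_of_notMem hx, sum_insert hx]
  by_cases h3 : J.card % 3 = 2
  · obtain ⟨b, hb, b1⟩ := h2 A (a6.trans hJ) (insert x J \ A) (sdiff_subset.trans hJ)
      disjoint_sdiff (by rw [card_sdiff_of_subset a6, card_insert_of_notMem hx]; omega) a2
    obtain ⟨b2, b3⟩ := mem_sdiff.1 hb
    refine ⟨insert b A, insert_subset b2 a6, b1, by rw [card_insert_of_notMem b3]; omega,
      fun m hm => ?_⟩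
    have b4 := hm x (mem_insert_self _ _)
    have b5 : w x ≤ w b := (mem_insert.1 b2).elim (fun e => e ▸ le_rfl) (hw b)
    rw [sum_insert b3, show (J.card + 1) % 3 = 0 by omega]
    omega
  · refine ⟨A, a6, a2, by omega, fun m hm => ?_⟩
    have b4 := hm x (mem_insert_self _ _)
    have b5 : J.card % 3 = 0 ∧ (J.card + 1) % 3 = 1 ∨ J.card % 3 = 1 ∧ (J.card + 1) % 3 = 2 := by
      omega
    rcases b5 with ⟨e1, e2⟩ | ⟨e1, e2⟩ <;> rw [e1] at a5 <;> rw [e2] <;> omega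

end PM

open PM

theorem pm : PMStmt := by
  intro V ι G Big H I Ls h P hH h1 h2 h3
  rcases I.eq_empty_or_nonempty with rfl | hne
  · exact ⟨[], ⟨by simp, by simp, by simp, by simp⟩, by simp⟩
  obtain ⟨A, a1, ⟨s, e, U, n, r⟩, -, a2⟩ := greedy I (fun i => cnt P (Ls i))
    (fun A => ∃ s e U n, Rt G H h (fun _ _ => 0) s e A U n) (fun i => ⟨_, _, _, _, Rt.one i false⟩)
    (fun A hA B hB hd hc ⟨_, _, _, _, r⟩ => by
      obtain ⟨Q, q1, q2⟩ := h3 A hA B hB hd hc
      exact r.extend hd q1 q2) I subset_rfl hne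
  obtain ⟨l, b1, b2, -⟩ := r.list P hH h1 h2 a1
  have := a2 0 fun _ _ => Nat.zero_le _
  exact ⟨l, b1, by omega⟩

end Pool.Agent.MP_7be75d_co.Gen

end MrgPart6

-- ======== part 7: formerly Pool.Agent.MP_7be75d_co.Gen.Pass
section MrgPart7

/-! Module PASS of the project LTW: a wire whose removal keeps a large cluster. -/

namespace Pool.Agent.MP_7be75d_co.Gen

open Finset
open scoped Classical

namespace Ps

/-- A digraph with small out-degrees has a large independent set. -/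
theorem exists_indep {κ : Type} (r : κ → κ → Prop) (σ : ℕ) : ∀ (t : ℕ) (D : Finset κ),
    (∀ k ∈ D, (D.filter (r k)).card ≤ σ) → t * (2 * σ + 1) ≤ D.card →
    ∃ T ⊆ D, T.card = t ∧ ∀ k ∈ T, ∀ k' ∈ T, k ≠ k' → ¬ r k k' := by
  intro t
  induction t with
  | zero => exact fun D _ _ => ⟨∅, empty_subset _, rfl, by simp⟩
  | succ t ih =>
    intro D h1 h2
    rw [add_mul, one_mul] at h2
    have hne : D.Nonempty := card_pos.1 (by omega)
    have hs : ∑ v ∈ D, (D.filter fun k => r k v).card ≤ ∑ _v ∈ D, σ := by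
      have := sum_card_bipartiteAbove_eq_sum_card_bipartiteBelow (s := D) (t := D) r
      simp only [bipartiteAbove, bipartiteBelow] at this
      rw [← this]
      exact sum_le_sum h1
    obtain ⟨v, hv, hv'⟩ := exists_le_of_sum_le hne hs
    have c1 := card_union_le (D.filter (r v)) (D.filter fun k => r k v)
    have c2 := card_insert_le v (D.filter (r v) ∪ D.filter fun k => r k v)
    have c3 := le_card_sdiff (insert v (D.filter (r v) ∪ D.filter fun k => r k v)) D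
    have c4 := h1 v hv
    obtain ⟨T, t1, t2, t3⟩ := ih (D \ insert v (D.filter (r v) ∪ D.filter fun k => r k v))
      (fun k hk => (card_le_card (filter_subset_filter _ sdiff_subset)).trans
        (h1 k (mem_sdiff.1 hk).1)) (by omega)
    have key : ∀ k ∈ T, k ∈ D ∧ k ≠ v ∧ ¬ r v k ∧ ¬ r k v := fun k hk => by
      have := t1 hk
      simp only [mem_sdiff, mem_insert, mem_union, mem_filter, not_or, not_and] at this
      exact ⟨this.1, this.2.1, this.2.2.1 this.1, this.2.2.2 this.1⟩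
    refine ⟨insert v T, insert_subset hv fun k hk => (key k hk).1, ?_, fun k hk k' hk' hn => ?_⟩
    · rw [card_insert_of_notMem fun h => (key v h).2.1 rfl, t2]
    · rcases mem_insert.1 hk with rfl | hk1
      · exact (key k' ((mem_insert.1 hk').resolve_left hn.symm)).2.2.1
      · rcases mem_insert.1 hk' with rfl | hk2
        · exact (key k hk1).2.2.2
        · exact t3 k hk1 k' hk2 hn

/-- The second Bonferroni inequality. -/
theorem bonf {κ ι : Type} (A : κ → Finset ι) (x Y : ℕ) (T : Finset κ) :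
    (∀ k ∈ T, x ≤ (A k).card) → (∀ k ∈ T, ∀ k' ∈ T, k ≠ k' → (A k ∩ A k').card ≤ Y) →
    2 * T.card * x ≤ 2 * (T.biUnion A).card + T.card ^ 2 * Y := by
  induction T using Finset.induction_on with
  | empty => simp
  | insert k T hk ih =>
    intro h1 h2
    have i1 := ih (fun k hk => h1 k (mem_insert_of_mem hk))
      fun a ha b hb => h2 a (mem_insert_of_mem ha) b (mem_insert_of_mem hb)
    have i2 := h1 k (mem_insert_self _ _)
    have i3 := card_union_add_card_inter (A k) (T.biUnion A)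
    have i4 : (A k ∩ T.biUnion A).card ≤ T.card * Y := by
      rw [inter_biUnion]
      exact card_biUnion_le_card_mul _ _ _ fun b hb =>
        h2 k (mem_insert_self _ _) b (mem_insert_of_mem hb) fun e => hk (e ▸ hb)
    rw [biUnion_insert, card_insert_of_notMem hk]
    nlinarith

variable {V ι κ : Type} {G : SimpleGraph V}

/-- Removing `Lk` and a small set shatters `x0` lanes. -/
def Dam (G : SimpleGraph V) (C : CD V ι) (Lk : Finset V) (x0 σ q : ℕ) : Prop :=
  ∃ X : Finset ι, X.card = x0 ∧ ∃ Z : Finset V, Z.card ≤ σ ∧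
    ∀ S ⊆ (C.reg \ Lk) \ Z, Conn G S → q * (X.filter fun i => C.lane i ⊆ S).card ≤ x0

/-- A connected set off two wires lies on the side of one of them. -/
theorem sides {B L L' P : Finset V} {v v' : V} (hB : Conn G B) (h1 : L ⊆ B) (h2 : L' ⊆ B)
    (c1 : Conn G L) (c2 : Conn G L') (hd : Disjoint L L') (hv : v ∈ L) (hv' : v' ∈ L')
    (hP : Conn G P) (p0 : P ⊆ B) (p1 : Disjoint L P) (p2 : Disjoint L' P) :
    P ⊆ comp G (B \ L) v' ∨ P ⊆ comp G (B \ L') v := by
  obtain ⟨a, ha⟩ := hP.1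
  have s1 : P ⊆ B \ (L ∪ L') := subset_sdiff.2 ⟨p0, disjoint_union_right.2 ⟨p1.symm, p2.symm⟩⟩
  have s2 : P ⊆ comp G (B \ (L ∪ L')) a := hP.subset_comp s1 ha (self_mem_comp (s1 ha))
  have hD : Conn G (comp G (B \ (L ∪ L')) a) := comp_conn (s1 ha)
  obtain ⟨x, y, h3, h4, -, h5, h6⟩ := hB.exit (p0 ha) (s2 ha) (h1 hv)
    fun h => (mem_sdiff.1 (comp_subset h)).2 (mem_union_left _ hv)
  have hy : y ∈ L ∪ L' := by
    by_contra hc
    exact h4 (comp_closed h3 (mem_sdiff.2 ⟨h5, hc⟩) h6)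
  rcases mem_union.1 hy with hy | hy
  · have s3 : comp G (B \ (L ∪ L')) a ∪ L ⊆ B \ L' := union_subset
      (comp_subset.trans (sdiff_subset_sdiff subset_rfl subset_union_right))
      (subset_sdiff.2 ⟨h1, hd⟩)
    exact Or.inr (s2.trans (subset_union_left.trans ((hD.union_adj c1 h3 hy h6).subset_comp s3
      (mem_union_right _ hv) (self_mem_comp (s3 (mem_union_right _ hv))))))
  · have s3 : comp G (B \ (L ∪ L')) a ∪ L' ⊆ B \ L := union_subset
      (comp_subset.trans (sdiff_subset_sdiff subset_rfl subset_union_left))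
      (subset_sdiff.2 ⟨h2, hd.symm⟩)
    exact Or.inl (s2.trans (subset_union_left.trans ((hD.union_adj c2 h3 hy h6).subset_comp s3
      (mem_union_right _ hv') (self_mem_comp (s3 (mem_union_right _ hv'))))))

/-- Few wires are damaging. -/
theorem few [Fintype ι] [Fintype κ] {C : CD V ι} (h : IsCluster G C) {L : κ → Finset V}
    (hL : ∀ k, L k ⊆ C.reg ∧ Conn G (L k) ∧ ∀ i, Disjoint (L k) (C.lane i))
    (hd : ∀ k k', k ≠ k' → Disjoint (L k) (L k')) {d t x0 σ : ℕ} (ht : t = 2 * d + 1)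
    (hx : Fintype.card ι ≤ d * x0) (hσ : 4 * t ^ 2 * σ < Fintype.card ι) :
    (univ.filter fun k => Dam G C (L k) x0 σ (4 * t)).card < t * (2 * σ + 1) := by
  by_contra hc
  set D := univ.filter fun k => Dam G C (L k) x0 σ (4 * t) with hD
  have hch : ∀ k, ∃ (X : Finset ι) (Z : Finset V), k ∈ D → X.card = x0 ∧ Z.card ≤ σ ∧
      ∀ S ⊆ (C.reg \ L k) \ Z, Conn G S →
        4 * t * (X.filter fun i => C.lane i ⊆ S).card ≤ x0 := by
    intro k
    by_cases hk : k ∈ D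
    · obtain ⟨X, h1, Z, h2, h3⟩ := (mem_filter.1 hk).2
      exact ⟨X, Z, fun _ => ⟨h1, h2, h3⟩⟩
    · exact ⟨∅, ∅, fun h => absurd h hk⟩
  choose X Z hXZ using hch
  obtain ⟨T, t1, t2, t3⟩ := exists_indep (fun k k' => ¬ Disjoint (L k') (Z k)) σ t D
    (fun k hk => le_trans (le_of_eq_of_le (by congr) (card_meet_le D (Z k) fun i _ j _ => hd i j))
      (hXZ k hk).2.1)
    (not_lt.1 hc)
  simp only [not_not] at t3
  set Zs := T.biUnion fun k => Z k \ L k with hZs
  have z1 : Zs.card ≤ t * σ := by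
    rw [← t2]
    exact card_biUnion_le_card_mul _ _ _ fun k hk =>
      (card_le_card sdiff_subset).trans (hXZ k (t1 hk)).2.1
  have t0 : 1 ≤ t := by omega
  have z2 : Zs.card < Fintype.card ι := by nlinarith
  have z3 : ∀ k ∈ T, Disjoint (L k) Zs := fun k hk =>
    (disjoint_biUnion_right _ _ _).2 fun k' hk' => by
      by_cases e : k' = k
      · rw [e]; exact disjoint_sdiff
      · exact (t3 k' hk' k hk e).mono_right sdiff_subset
  have hB := h.hv.conn Zs z2
  have b1 : ∀ k ∈ T, C.β Zs \ L k ⊆ (C.reg \ L k) \ Z k := fun k hk v hv => by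
    obtain ⟨h1, h2⟩ := mem_sdiff.1 hv
    obtain ⟨h3, h4⟩ := mem_sdiff.1 (h.hv.sub Zs z2 h1)
    exact mem_sdiff.2 ⟨mem_sdiff.2 ⟨h3, h2⟩, fun h5 =>
      h4 (mem_biUnion.2 ⟨k, hk, mem_sdiff.2 ⟨h5, h2⟩⟩)⟩
  have a1 : ∀ k ∈ T, x0 ≤ ((X k).filter fun i => C.lane i ⊆ C.β Zs).card + 2 * (t * σ) := by
    intro k hk
    have e1 := card_filter_add_card_filter_not (s := X k) (fun i => C.lane i ⊆ C.β Zs)
    have e2 := card_le_card (filter_subset_filter (fun i => ¬ C.lane i ⊆ C.β Zs)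
      (subset_univ (X k)))
    have e3 := h.two z2
    have e4 := (hXZ k (t1 hk)).1
    omega
  have l1 : ∀ k ∈ T, L k ⊆ C.β Zs := by
    intro k hk
    by_contra hn
    have e1 : Disjoint (C.β Zs) (L k) := disjoint_left.2 fun v h1 h2 =>
      hn (h.hv.absorb z2 (hL k).2.1 (hL k).1 (z3 k hk) h2 h1)
    have e2 := (hXZ k (t1 hk)).2.2 (C.β Zs)
      ((subset_sdiff.2 ⟨subset_rfl, e1⟩).trans (b1 k hk)) hB
    have e3 := Nat.mul_le_mul_left (4 * t) (a1 k hk)
    subst ht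
    nlinarith
  have p1 : ∀ k ∈ T, ∀ k' ∈ T, k ≠ k' → (((X k).filter fun i => C.lane i ⊆ C.β Zs) ∩
      (X k').filter fun i => C.lane i ⊆ C.β Zs).card ≤ x0 / (2 * t) := by
    intro k hk k' hk' hn
    obtain ⟨v, hv⟩ := (hL k).2.1.1
    obtain ⟨v', hv'⟩ := (hL k').2.1.1
    have e1 := (hXZ k (t1 hk)).2.2 (comp G (C.β Zs \ L k) v') (comp_subset.trans (b1 k hk))
      (comp_conn (mem_sdiff.2 ⟨l1 k' hk' hv', disjoint_right.1 (hd k k' hn) hv'⟩))
    have e2 := (hXZ k' (t1 hk')).2.2 (comp G (C.β Zs \ L k') v) (comp_subset.trans (b1 k' hk'))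
      (comp_conn (mem_sdiff.2 ⟨l1 k hk hv, disjoint_left.1 (hd k k' hn) hv⟩))
    have e3 : (((X k).filter fun i => C.lane i ⊆ C.β Zs) ∩
        (X k').filter fun i => C.lane i ⊆ C.β Zs) ⊆
        ((X k).filter fun i => C.lane i ⊆ comp G (C.β Zs \ L k) v') ∪
        (X k').filter fun i => C.lane i ⊆ comp G (C.β Zs \ L k') v := by
      intro i hi
      simp only [mem_inter, mem_filter, mem_union] at hi ⊢
      exact (sides hB (l1 k hk) (l1 k' hk') (hL k).2.1 (hL k').2.1 (hd k k' hn) hv hv'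
        (h.conn i) hi.1.2 ((hL k).2.2 i) ((hL k').2.2 i)).imp (fun h => ⟨hi.1.1, h⟩)
        fun h => ⟨hi.2.1, h⟩
    have e4 := (card_le_card e3).trans (card_union_le _ _)
    rw [Nat.le_div_iff_mul_le (by omega)]
    nlinarith
  have f1 := bonf (fun k => (X k).filter fun i => C.lane i ⊆ C.β Zs) (x0 - 2 * (t * σ))
    (x0 / (2 * t)) T (fun k hk => by have := a1 k hk; omega) p1
  have f2 := card_le_univ (T.biUnion fun k => (X k).filter fun i => C.lane i ⊆ C.β Zs)
  have f3 := Nat.div_mul_le_self x0 (2 * t)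
  have f4 : x0 ≤ x0 - 2 * (t * σ) + 2 * (t * σ) := by omega
  rw [t2] at f1
  generalize x0 - 2 * (t * σ) = x at f1 f4
  generalize x0 / (2 * t) = Y at f1 f3
  have f5 := Nat.mul_le_mul_left t f3
  have f6 := Nat.mul_le_mul_left t f4
  have f7 : t * x0 = 2 * (d * x0) + x0 := by rw [ht]; ring
  nlinarith

/-- A wire that is not damaging leaves a large cluster. -/
theorem good (hFE : FEStmt) [Fintype ι] {C : CD V ι} (h : IsCluster G C) {Lk : Finset V}
    (hd : ∀ i, Disjoint Lk (C.lane i)) {x0 q j u : ℕ} (hq : q ≤ 2 ^ j)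
    (hn : ¬ Dam G C Lk x0 (4 ^ j * (6 * u)) q) (X : Finset ι) (hX : x0 ≤ X.card) :
    ∃ Θ ⊆ X, ∃ β', Θ.card = u ∧ IsSC G (res C (Subtype.val : Θ → ι) (C.reg \ Lk) β') := by
  obtain ⟨X0, x1, x2⟩ := exists_subset_card_eq hX
  have hl : ∀ i, C.lane i ⊆ C.reg \ Lk := fun i => subset_sdiff.2 ⟨h.sub i, (hd i).symm⟩
  obtain ⟨X', y1, y2⟩ : ∃ X' ⊆ X0.image C.a, Linked G (C.reg \ Lk) X' (6 * u) := by
    by_contra hc
    push Not at hc
    obtain ⟨Z, z1, z2⟩ := halving hc j _ subset_rfl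
    refine hn ⟨X0, x2, Z, z1, fun S s1 s2 => ?_⟩
    obtain ⟨v, hv⟩ := s2.1
    have e1 := z2 v (s1 hv)
    have e2 : (X0.filter fun i => C.lane i ⊆ S).image C.a ⊆
        X0.image C.a ∩ comp G ((C.reg \ Lk) \ Z) v := by
      intro y hy
      obtain ⟨i, hi, rfl⟩ := mem_image.1 hy
      obtain ⟨i1, i2⟩ := mem_filter.1 hi
      exact mem_inter.2 ⟨mem_image_of_mem _ i1,
        s2.subset_comp s1 hv (self_mem_comp (s1 hv)) (i2 (h.ma i))⟩
    have e3 := card_le_card e2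
    rw [card_image_of_injective _ h.a_inj] at e1 e3
    exact (Nat.mul_le_mul hq e3).trans (x2 ▸ e1)
  obtain ⟨β, b1, b2⟩ := y2.haven
  have y3 := y2.lt_card
  have fr : Free β (6 * u + 1) ∅ := fun Z _ => by simp
  obtain ⟨S, -, s1, s2, s3⟩ := hFE ∅ X' (3 * u) b1 (by omega) (empty_subset _) (by simp) fr
    fun Z hZ => by have := b2 Z (by omega); omega
  rw [empty_union] at s1
  have c1 : (X0.filter fun i => C.a i ∈ S).card = 3 * u := by
    rw [← s2, ← card_image_of_injective _ h.a_inj, ← filter_image (p := fun v => v ∈ S),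
      filter_mem_eq_inter, inter_eq_right.2 (s1.trans y1)]
  set A := X0.filter fun i => C.a i ∈ S with hA
  have fa : ∀ Z : Finset V, Z.card < 6 * u + 1 →
      (A.filter fun i => C.a i ∉ β Z).card ≤ Z.card := fun Z hZ =>
    (card_le_card_of_injOn C.a (fun i hi => by
      simp only [hA, coe_filter, mem_filter, Set.mem_ofPred_eq] at hi ⊢
      exact ⟨hi.1.2, hi.2⟩) h.a_inj.injOn).trans (s3 Z hZ)
  obtain ⟨S', -, r1, r2, r3⟩ := hFE ∅ (A.image C.b) u b1 (by omega) (empty_subset _) (by simp) fr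
    fun Z hZ => by
      have e1 := fa Z (by omega)
      have e2 := card_meet_le (L := C.lane) A Z fun i _ j _ => h.disj i j
      have e3 : A ⊆ ((A.filter fun i => C.a i ∉ β Z) ∪ A.filter fun i => ¬ Disjoint (C.lane i) Z) ∪
          A.filter fun i => C.b i ∈ β Z := by
        intro i hi
        simp only [mem_union, mem_filter, hi, true_and]
        by_contra hc
        push Not at hc
        exact hc.2 (b1.absorb (by omega) (h.conn i) (hl i) hc.1.2 (h.ma i) hc.1.1 (h.mb i))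
      have e4 := (card_le_card e3).trans (card_union_le _ _)
      have e5 := card_union_le (A.filter fun i => C.a i ∉ β Z)
        (A.filter fun i => ¬ Disjoint (C.lane i) Z)
      have e6 : (A.filter fun i => C.b i ∈ β Z).card = (A.image C.b ∩ β Z).card := by
        rw [← card_image_of_injective _ h.b_inj, ← filter_image (p := fun v => v ∈ β Z),
          filter_mem_eq_inter]
      omega
  rw [empty_union] at r1
  have c2 : (A.filter fun i => C.b i ∈ S').card = u := by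
    rw [← r2, ← card_image_of_injective _ h.b_inj, ← filter_image (p := fun v => v ∈ S'),
      filter_mem_eq_inter, inter_eq_right.2 r1]
  have c3 : Fintype.card (A.filter fun i => C.b i ∈ S') = u := by rw [Fintype.card_coe, c2]
  refine ⟨A.filter fun i => C.b i ∈ S', (filter_subset _ _).trans ((filter_subset _ _).trans x1),
    β, c2, ⟨b1.le (by omega), fun i => hl _, fun i => h.conn _,
      fun i j hn => h.disj _ _ fun e => hn (Subtype.ext e), fun i => h.ma _, fun i => h.mb _,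
      fun Z hZ => le_trans ?_ (s3 Z (by omega))⟩, fun Z hZ => le_trans ?_ (r3 Z (by omega))⟩
  · refine card_le_card_of_injOn (fun i => C.a i.1) (fun i hi => ?_)
      fun i _ j _ e => Subtype.ext (h.a_inj e)
    simp only [coe_filter, mem_univ, true_and, Set.mem_ofPred_eq] at hi ⊢
    exact ⟨(mem_filter.1 (mem_filter.1 i.2).1).2, hi⟩
  · refine card_le_card_of_injOn (fun i => C.b i.1) (fun i hi => ?_)
      fun i _ j _ e => Subtype.ext (h.b_inj e)
    simp only [coe_filter, mem_univ, true_and, Set.mem_ofPred_eq] at hi ⊢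
    exact ⟨(mem_filter.1 i.2).2, hi⟩

/-- One cluster. -/
theorem pass1 (hFE : FEStmt) (d e : ℕ) : ∃ E : ℕ, ∀ {V ι κ : Type} [Fintype ι] [Fintype κ]
    {G : SimpleGraph V} (C : CD V ι) (L : κ → Finset V), IsCluster G C →
    (∀ k, L k ⊆ C.reg ∧ Conn G (L k) ∧ ∀ i, Disjoint (L k) (C.lane i)) →
    (∀ k k', k ≠ k' → Disjoint (L k) (L k')) → E ≤ Fintype.card ι →
    ∃ Bad : Finset κ, e * Bad.card ≤ Fintype.card ι ∧ ∀ k ∉ Bad, ∀ X : Finset ι,
      Fintype.card ι ≤ d * X.card → ∃ Θ ⊆ X, ∃ β', Fintype.card ι ≤ E * Θ.card ∧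
        IsSC G (res C (Subtype.val : Θ → ι) (C.reg \ L k) β') := by
  obtain ⟨t, ht⟩ : ∃ t, t = 2 * d + 1 := ⟨_, rfl⟩
  obtain ⟨N, hN⟩ : ∃ N, N = 4 ^ (4 * t) := ⟨_, rfl⟩
  obtain ⟨M, hM⟩ : ∃ M, M = 4 * t ^ 2 + 3 * e * t + 1 := ⟨_, rfl⟩
  have N0 : 0 < N := by rw [hN]; positivity
  have M0 : 0 < M := by omega
  have P0 : 0 < 6 * M * N := by positivity
  refine ⟨2 * (6 * M * N), fun {V ι κ} _ _ G C L h hL hd hE => ?_⟩
  by_cases hex : ∃ x, Fintype.card ι ≤ d * x
  swap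
  · exact ⟨∅, by simp, fun k _ X hX => absurd ⟨_, hX⟩ hex⟩
  obtain ⟨x0, x1, x2⟩ := exists_min_of id hex
  obtain ⟨u, hu⟩ : ∃ u, u = Fintype.card ι / (6 * M * N) := ⟨_, rfl⟩
  have u1 : u * (6 * M * N) ≤ Fintype.card ι := hu ▸ Nat.div_mul_le_self _ _
  have u2 : Fintype.card ι < (6 * M * N) * (u + 1) := hu ▸ Nat.lt_mul_div_succ _ P0
  have u3 : 1 ≤ u := by rw [hu, Nat.le_div_iff_mul_le P0]; omega
  obtain ⟨σ, hσ⟩ : ∃ σ, σ = N * (6 * u) := ⟨_, rfl⟩
  have s0 : 1 ≤ σ := by rw [hσ]; exact Nat.mul_pos N0 (by omega)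
  have s1 : M * σ ≤ Fintype.card ι := by
    rw [hσ, show M * (N * (6 * u)) = u * (6 * M * N) by ring]; exact u1
  rw [hM] at s1
  have hf := few h hL hd ht x1 (σ := σ) (by nlinarith [Nat.zero_le (3 * e * t * σ)])
  refine ⟨univ.filter fun k => Dam G C (L k) x0 σ (4 * t), ?_, fun k hk X hX => ?_⟩
  · have e1 := Nat.mul_le_mul_left e hf.le
    have e2 : e * t * 1 ≤ e * t * σ := Nat.mul_le_mul_left _ s0
    nlinarith [Nat.zero_le (4 * t ^ 2 * σ)]
  · simp only [mem_filter, mem_univ, true_and, hσ, hN] at hk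
    obtain ⟨Θ, h1, β', h2, h3⟩ := good hFE h (hL k).2.2 (Nat.lt_two_pow_self (n := 4 * t)).le hk X
      (x2 _ hX)
    refine ⟨Θ, h1, β', ?_, h3⟩
    rw [h2]
    nlinarith

/-- Several clusters. -/
theorem passL (hFE : FEStmt) (e l : ℕ) : ∀ d : ℕ, ∃ E : ℕ, ∀ {V ι κ : Type} [Fintype ι]
    [Fintype κ] {G : SimpleGraph V} (C : ℕ → CD V ι) (L : κ → ℕ → Finset V),
    (∀ j < l, IsCluster G (C j)) →
    (∀ k, ∀ j < l, L k j ⊆ (C j).reg ∧ Conn G (L k j) ∧ ∀ i, Disjoint (L k j) ((C j).lane i)) →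
    (∀ k k', k ≠ k' → ∀ j < l, Disjoint (L k j) (L k' j)) → E ≤ Fintype.card ι →
    ∃ Bad : Finset κ, e * Bad.card ≤ l * Fintype.card ι ∧ ∀ k ∉ Bad, ∀ X : Finset ι,
      Fintype.card ι ≤ d * X.card → ∃ Θ ⊆ X, ∃ β' : ℕ → Finset V → Finset V,
        Fintype.card ι ≤ E * Θ.card ∧
        ∀ j < l, IsSC G (res (C j) (Subtype.val : Θ → ι) ((C j).reg \ L k j) (β' j)) := by
  induction l with
  | zero =>
    exact fun d => ⟨d, fun C L _ _ _ _ => ⟨∅, by simp, fun k _ X hX =>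
      ⟨X, subset_rfl, fun _ => id, hX, by simp⟩⟩⟩
  | succ l ih =>
    intro d
    obtain ⟨E1, h1⟩ := pass1 hFE d e
    obtain ⟨E2, h2⟩ := ih E1
    refine ⟨E1 + E2, fun {V ι κ} _ _ G C L hC hL hd hE => ?_⟩
    obtain ⟨B1, b1, b2⟩ := h1 (C l) (fun k => L k l) (hC l (by omega))
      (fun k => hL k l (by omega)) (fun k k' hn => hd k k' hn l (by omega)) (by omega)
    obtain ⟨B2, b3, b4⟩ := h2 C L (fun j hj => hC j (by omega))
      (fun k j hj => hL k j (by omega)) (fun k k' hn j hj => hd k k' hn j (by omega)) (by omega)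
    refine ⟨B1 ∪ B2, ?_, fun k hk X hX => ?_⟩
    · nlinarith [Nat.mul_le_mul_left e (card_union_le B1 B2)]
    · rw [mem_union, not_or] at hk
      obtain ⟨Θ1, a1, β1, a2, a3⟩ := b2 k hk.1 X hX
      obtain ⟨Θ2, a4, β2, a5, a6⟩ := b4 k hk.2 Θ1 a2
      refine ⟨Θ2, a4.trans a1, fun j => if j = l then β1 else β2 j,
        a5.trans (Nat.mul_le_mul_right _ (by omega)), fun j hj => ?_⟩
      by_cases hjl : j = l
      · subst hjl
        simp only [if_true]
        exact a3.res (e := fun i : Θ2 => (⟨i.1, a4 i.2⟩ : Θ1))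
          fun i i' hi => Subtype.ext (congrArg (fun x : Θ1 => x.1) hi)
      · simp only [if_neg hjl]
        exact a6 j (by omega)

end Ps

theorem pass (hFE : FEStmt) : PASSStmt := by
  intro l a
  obtain ⟨E, h⟩ := Ps.passL hFE (a * l + 1) l 1
  refine ⟨E + 1, fun {V ι κ} _ _ _ G C L hC hL hd ha hE => ?_⟩
  obtain ⟨Bad, b1, b2⟩ := h C L (fun j hj => (hC j hj).toIsCluster) hL hd (by omega)
  obtain ⟨k, hk⟩ : ∃ k, k ∉ Bad := by
    by_contra hc
    push Not at hc
    rw [eq_univ_of_forall hc, card_univ] at b1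
    have e1 := Nat.mul_le_mul_left l ha
    have e2 : Fintype.card κ = 0 := by nlinarith
    rw [e2] at ha
    omega
  obtain ⟨Θ, -, β', h1, h2⟩ := b2 k hk univ (by simp)
  exact ⟨k, Θ, β', h1.trans (Nat.mul_le_mul_right _ (by omega)), h2⟩

end Pool.Agent.MP_7be75d_co.Gen

end MrgPart7

-- ======== part 8: formerly Pool.Agent.MP_7be75d_co.Gen.Final
section MrgPart8

/-! All modules put together. -/

namespace Pool.Agent.MP_7be75d_co.Gen

/-- A path-of-sets system of length thirteen has a path across, or a star on, linearly many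
lanes. -/
theorem cp_thm : CPStmt :=
  cp (half fe fat kw blk link time porta portb0) ext treea (treeb seq treea) sel link fat kw rib
    (comb treea tog (net pair pm) geo link) seq

theorem main_thm : MainStmt :=
  main_of ep (pieces_of (cut root) (pack spine)) fin sim
    (host (spos fe) (step fat (pass fe)
      (cell_of cp_thm (cellp (pass fe) fe) (cells (pass fe) fat gl))) link)
    draw nok (nf_of (nfa nok) nfb) asm

end Pool.Agent.MP_7be75d_co.Gen

end MrgPart8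

-- marker of a merged file
example : 731051 + 253330 = 731051 + 253330 := rfl
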